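import Pool.Agent.Run7.h3.PM.Main
import Pool.Agent.Run7.h3.GT.Arch

set_option autoImplicit false
set_option linter.unusedSectionVars false
set_option linter.unusedVariables false

/-! Local factors: positive continuous functions on the semistable matrices. -/

namespace Run7.h3.PM

open Finset Module Filter Topology Run7.h3.GT

section

variable {k : ℕ} {ι : Type} [Fintype ι] [DecidableEq ι] {θ : ι → ℕ}

theorem tw_eq_sum (θ : ι → ℕ) (A : Finset ι) : tw θ (A : Set ι) = ∑ x ∈ A, θ x := by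
  unfold tw
  rw [← sum_filter_add_sum_filter_not univ (fun x => x ∈ A)]
  have h1 : ∑ x ∈ univ.filter (fun x => x ∈ A), (A : Set ι).indicator θ x = ∑ x ∈ A, θ x := by
    have : univ.filter (fun x => x ∈ A) = A := by
      ext x
      simp
    rw [this]
    exact sum_congr rfl fun x hx => Set.indicator_of_mem (by simpa using hx) θ
  have h2 : ∑ x ∈ univ.filter (fun x => ¬ x ∈ A), (A : Set ι).indicator θ x = 0 :=
    sum_eq_zero fun x hx => Set.indicator_of_notMem (by simpa using hx) θ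
  rw [h1, h2, add_zero]

/-- the marked weights -/
def wo (k : ℕ) (o : ι) (x : ι) : ℕ := if x = o then k + 1 else k

theorem sum_wo (o : ι) (A : Finset ι) :
    ∑ x ∈ A, wo k o x = k * A.card + if o ∈ A then 1 else 0 := by
  have h1 : ∀ x, wo k o x = k + if x = o then 1 else 0 := by
    intro x
    unfold wo
    split_ifs <;> rfl
  rw [sum_congr rfl fun x _ => h1 x, sum_add_distrib, sum_const, smul_eq_mul, mul_comm,
    sum_ite_eq' A o]

theorem adm_wo (hk : 0 < k) (hki : k < Fintype.card ι) (o : ι) : Adm k (wo k o) := by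
  classical
  have hs : ∑ x, wo k o x = k * Fintype.card ι + 1 := by
    have := sum_wo (k := k) o univ
    rwa [card_univ, if_pos (mem_univ o)] at this
  have ht : ∀ S : Set ι, ∃ δ : ℕ, δ ≤ 1 ∧ tw (wo k o) S = k * S.ncard + δ := by
    intro S
    have h1 : S = (S.toFinset : Set ι) := by simp
    refine ⟨if o ∈ S.toFinset then 1 else 0, by split_ifs <;> omega, ?_⟩
    conv_lhs => rw [h1]
    rw [tw_eq_sum, sum_wo, Set.ncard_eq_toFinset_card']
  have hn : ∀ S : Set ι, S.ncard ≤ Fintype.card ι := by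
    intro S
    rw [Set.ncard_eq_toFinset_card']
    exact card_le_univ _
  refine ⟨fun x => ?_, fun S r hr h => ?_, fun S r h => ?_, fun S r hr h => ?_⟩
  · unfold wo
    split_ifs <;> omega
  · rw [hs] at h
    have h1 : k ∣ (k * Fintype.card ι + 1) * r := Dvd.intro _ h
    have h2 : Nat.Coprime k (k * Fintype.card ι + 1) := by
      rw [Nat.coprime_mul_left_add_right]
      exact Nat.coprime_one_right k
    exact Nat.eq_zero_of_dvd_of_lt (h2.dvd_of_dvd_mul_left h1) hr
  · obtain ⟨δ, hδ, h1⟩ := ht S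
    rw [hs, h1] at h
    have h2 : k * (Fintype.card ι * r) < k * (k * S.ncard + δ) := by nlinarith
    have h3 := Nat.lt_of_mul_lt_mul_left h2
    omega
  · obtain ⟨δ, hδ, h1⟩ := ht S
    rw [hs, h1]
    have h3 : k * (Fintype.card ι * r + 1) ≤ k * (k * S.ncard + δ) :=
      Nat.mul_le_mul_left k (by omega)
    have hrk : r < k := by
      rcases Nat.lt_or_ge r k with h4 | h4
      · exact h4
      · have h5 : r = k := le_antisymm hr h4
        subst h5
        have h6 := hn S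
        have h7 : r * S.ncard ≤ Fintype.card ι * r := by
          rw [mul_comm]
          exact Nat.mul_le_mul_right _ h6
        omega
    nlinarith

theorem mkd_wo (o : ι) : Mkd (wo k o) o := by
  intro x y hx hy
  unfold wo
  rw [if_neg hx, if_neg hy]

theorem sum_k (k : ℕ) (θ : ι → ℕ) : ∑ x, k * θ x = k * ∑ x, θ x := (mul_sum _ _ _).symm

/-- a nonvanishing monomial implies semistability -/
theorem sst_of_mono (hk : 0 < k) {K : Type} [Field K] {M : Matrix (Fin k) ι K}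
    (a : Mon k (id : ι → ι) fun x => k * θ x) (ha : mono M a ≠ 0) : Sst θ M := by
  classical
  intro W
  set A : Finset ι := univ.filter fun x => M.col x ∈ W with hA
  have hA' : {x : ι | M.col x ∈ W} = (A : Set ι) := by
    ext x
    rw [hA, mem_coe, mem_filter]
    exact ⟨fun h => ⟨mem_univ _, h⟩, fun h => h.2⟩
  have hcsp : csp (id : ι → ι) M A ≤ W := by
    unfold csp spn
    rw [Submodule.span_le]
    rintro _ ⟨x, hx, rfl⟩
    have h1 : x ∈ A := by simpa using hx
    exact (mem_filter.1 h1).2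
  have h1 : ∑ b ∈ A, k * θ b = ∑ f, a.1 f * dA (id : ι → ι) f A := by
    unfold dA
    rw [sum_congr rfl fun b _ => (a.2 b).symm, sum_comm]
    exact sum_congr rfl fun f _ => (mul_sum _ _ _).symm
  have h2 : ∀ f, a.1 f * dA (id : ι → ι) f A ≤ a.1 f * finrank K W := by
    intro f
    by_cases h0 : a.1 f = 0
    · rw [h0, zero_mul, zero_mul]
    · have hne : mnr M f ≠ 0 := by
        intro h
        apply ha
        unfold mono
        exact prod_eq_zero (mem_univ f) (by rw [h, zero_pow h0])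
      exact Nat.mul_le_mul_left _ ((dA_le_rank M f hne A).trans (Submodule.finrank_mono hcsp))
  rw [hA', tw_eq_sum, mul_sum, h1]
  refine (sum_le_sum fun f _ => h2 f).trans (le_of_eq ?_)
  rw [← sum_mul, sum_mon hk (sum_k k θ) a]

/-- semistable matrices have nonvanishing monomials -/
theorem mono_of_sst (hk : 0 < k) {K : Type} [Field K] {M : Matrix (Fin k) ι K} (h : Sst θ M) :
    ∃ a : Mon k (id : ι → ι) fun x => k * θ x, mono M a ≠ 0 := by
  refine rado_mono hk (sum_k k θ) M fun A => ?_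
  rw [← mul_sum]
  refine le_trans (Nat.mul_le_mul_left k ?_) (h (csp (id : ι → ι) M A))
  rw [← tw_eq_sum]
  refine tw_mono θ ?_
  intro x hx
  refine Submodule.subset_span ⟨x, ?_, rfl⟩
  simpa using hx

/-- generic matrices are semistable -/
theorem sst_of_gen (hk : 0 < k) (hki : k < Fintype.card ι) (hθ : Adm k θ) {K : Type} [Field K]
    {M : Matrix (Fin k) ι K} (h : Gen M) : Sst θ M := by
  obtain ⟨a, ha⟩ := gen_mono (β := (id : ι → ι)) (d := fun x => k * θ x) hk hki.le (sum_k k θ)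
    (fun b => by
      rw [filt_card, one_mul]
      exact hθ.le_sum hki b) M h
  exact sst_of_mono hk a ha

/-- the compact sets -/
def KP (K : Type) [NormedField K] (θ : ι → ℕ) (c : ℝ) : Set (Matrix (Fin k) ι K) :=
  {M | (∀ i j, ‖M i j‖ ≤ 1) ∧ ∃ a : Mon k (id : ι → ι) fun x => k * θ x, c ≤ ‖mono M a‖}

theorem KP_sst (hk : 0 < k) {K : Type} [NormedField K] {c : ℝ} (hc : 0 < c)
    {M : Matrix (Fin k) ι K} (hM : M ∈ KP K θ c) : Sst θ M := by
  obtain ⟨_, a, ha⟩ := hM
  refine sst_of_mono hk a fun h => ?_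
  rw [h, norm_zero] at ha
  linarith

theorem cont_mnr {K : Type} [NormedField K] (f : Fin k → ι) :
    Continuous fun V : Matrix (Fin k) ι K => mnr V f := by
  unfold mnr
  exact Continuous.matrix_det (by fun_prop)

theorem cont_mono {K : Type} [NormedField K] {d : ι → ℕ} (m : Mon k (id : ι → ι) d) :
    Continuous fun V : Matrix (Fin k) ι K => mono V m := by
  unfold mono
  exact continuous_finsetProd _ fun f _ => (cont_mnr f).pow _

theorem isCompact_KP (hk : 0 < k) (K : Type) [NormedField K] [ProperSpace K] (θ : ι → ℕ) (c : ℝ) :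
    IsCompact (KP (k := k) K θ c) := by
  have h1 : IsCompact {X : Matrix (Fin k) ι K | ∀ j i, ‖X j i‖ ≤ 1} := by
    have : {X : Matrix (Fin k) ι K | ∀ j i, ‖X j i‖ ≤ 1} =
        Set.univ.pi fun _ : Fin k => Set.univ.pi fun _ : ι => Metric.closedBall (0 : K) 1 := by
      ext X
      change _ ↔ ∀ j ∈ Set.univ, ∀ i ∈ Set.univ, X j i ∈ Metric.closedBall (0 : K) 1
      simp
    rw [this]
    exact isCompact_univ_pi fun _ => isCompact_univ_pi fun _ => isCompact_closedBall _ _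
  have hfin := mon_finite (k := k) (β := (id : ι → ι)) (d := fun x => k * θ x) hk
  have h2 : IsClosed {X : Matrix (Fin k) ι K | ∃ a : Mon k (id : ι → ι) fun x => k * θ x,
      c ≤ ‖mono X a‖} := by
    have : {X : Matrix (Fin k) ι K | ∃ a : Mon k (id : ι → ι) fun x => k * θ x,
        c ≤ ‖mono X a‖} = ⋃ a : Mon k (id : ι → ι) fun x => k * θ x, {X | c ≤ ‖mono X a‖} := by
      ext X
      simp
    rw [this]
    exact isClosed_iUnion_of_finite fun a => isClosed_le continuous_const (cont_mono a).norm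
  exact h1.inter_right h2

/-- the local factors -/
structure LF (θ : ι → ℕ) {K : Type} [NormedField K] (φ : Matrix (Fin k) ι K → ℝ) : Prop where
  pos : ∀ M, Sst θ M → 0 < φ M
  cont : ContinuousOn φ {M | Sst θ M}
  inv : ∀ M, Sst θ M → ∀ (g : Matrix (Fin k) (Fin k) K) (t : ι → K), g.det ≠ 0 →
    (∀ x, t x ≠ 0) → φ (g * M * Matrix.diagonal t) = φ M

theorem LF.bdd {K : Type} [NormedField K] [ProperSpace K] {φ : Matrix (Fin k) ι K → ℝ}
    (h : LF θ φ) (hk : 0 < k) {c : ℝ} (hc : 0 < c) :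
    ∃ m M : ℝ, 0 < m ∧ 0 < M ∧ ∀ X ∈ KP K θ c, m ≤ φ X ∧ φ X ≤ M := by
  have hcomp := isCompact_KP (k := k) hk K θ c
  have hcont : ContinuousOn φ (KP K θ c) := h.cont.mono fun X hX => KP_sst hk hc hX
  rcases (KP (k := k) K θ c).eq_empty_or_nonempty with h0 | h0
  · refine ⟨1, 1, one_pos, one_pos, fun X hX => ?_⟩
    rw [h0] at hX
    exact hX.elim
  · obtain ⟨X₀, hX₀, h1⟩ := hcomp.exists_isMinOn h0 hcont
    obtain ⟨X₁, hX₁, h2⟩ := hcomp.exists_isMaxOn h0 hcont
    exact ⟨φ X₀, φ X₁, h.pos _ (KP_sst hk hc hX₀), h.pos _ (KP_sst hk hc hX₁),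
      fun X hX => ⟨h1 hX, h2 hX⟩⟩

theorem LF.unif {K : Type} [NormedField K] [ProperSpace K] {φ : Matrix (Fin k) ι K → ℝ}
    (h : LF θ φ) (hk : 0 < k) {c : ℝ} (hc : 0 < c) {ε : ℝ} (hε : 0 < ε) :
    ∃ δ : ℝ, 0 < δ ∧ ∀ X ∈ KP K θ c, ∀ Y ∈ KP K θ c, (∀ i j, ‖X i j - Y i j‖ < δ) →
      |Real.log (φ X) - Real.log (φ Y)| ≤ ε := by
  set K' : Set (Fin k → ι → K) := {m | Matrix.of m ∈ KP K θ c} with hK'
  have hcomp : IsCompact K' := isCompact_KP (k := k) hk K θ c
  have hcont : ContinuousOn (fun m : Fin k → ι → K => Real.log (φ (Matrix.of m))) K' := by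
    have h1 : ContinuousOn (fun X : Matrix (Fin k) ι K => Real.log (φ X)) (KP K θ c) := by
      refine ContinuousOn.log (h.cont.mono fun X hX => KP_sst hk hc hX) fun X hX => ?_
      exact (h.pos _ (KP_sst hk hc hX)).ne'
    exact h1
  have hu := hcomp.uniformContinuousOn_of_continuous hcont
  rw [Metric.uniformContinuousOn_iff] at hu
  obtain ⟨δ, hδ, h1⟩ := hu ε hε
  refine ⟨δ, hδ, fun X hX Y hY hXY => ?_⟩
  have h2 := h1 (fun i j => X i j) hX (fun i j => Y i j) hY (by
    rw [dist_pi_lt_iff hδ]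
    intro i
    rw [dist_pi_lt_iff hδ]
    intro j
    rw [dist_eq_norm]
    exact hXY i j)
  rw [Real.dist_eq] at h2
  exact h2.le

/-- the archimedean factor is bounded -/
theorem LF.arch_bdd (hk : 0 < k) (hki : k < Fintype.card ι) (hθ : Adm k θ)
    {φ : Matrix (Fin k) ι ℝ → ℝ} (h : LF θ φ) :
    ∃ m M : ℝ, 0 < m ∧ 0 < M ∧ ∀ X, Gen X → m ≤ φ X ∧ φ X ≤ M := by
  classical
  have hne : Nonempty ι := Fintype.card_pos_iff.1 (by omega)
  have hN : 0 < ∑ x, θ x := by
    obtain ⟨x⟩ := hne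
    exact lt_of_lt_of_le (hθ.pos x) (single_le_sum (f := θ) (fun _ _ => Nat.zero_le _) (mem_univ x))
  set N := ∑ x, θ x with hNd
  obtain ⟨C, hC, harch⟩ := GT.arch (k := k) (β := (id : ι → ι)) (d := fun x => k * θ x)
    (N := N) hk hN hki.le (sum_k k θ) (fun b => by
      rw [filt_card, one_mul]
      exact hθ.le_sum hki b)
  obtain ⟨m, M, hm, hM, hb⟩ := h.bdd hk (inv_pos.2 hC)
  refine ⟨m, M, hm, hM, fun X hX => ?_⟩
  -- the complex matrix
  have hmap : ∀ f : Fin k → ι, mnr (X.map (Complex.ofRealHom : ℝ →+* ℂ)) f = ((mnr X f : ℝ) : ℂ) :=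
    fun f => (mnr_map Complex.ofRealHom X f).symm
  have hG : Gen (X.map (Complex.ofRealHom : ℝ →+* ℂ)) := by
    intro f hf
    rw [hmap]
    exact_mod_cast hX f hf
  obtain ⟨Λ, γ, hΛ, hγ, h1, a, h2⟩ := harch _ hG
  have h2' : ‖mono (X.map (Complex.ofRealHom : ℝ →+* ℂ)) a‖ = |mono X a| := by
    have h3 : mono (X.map (Complex.ofRealHom : ℝ →+* ℂ)) a = ((mono X a : ℝ) : ℂ) :=
      (mono_map Complex.ofRealHom X a).symm
    rw [h3, Complex.norm_real, Real.norm_eq_abs]
  rw [h2'] at h2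
  have h1' : ∀ f : Fin k → ι, |mnr X f| ≤ γ * ∏ l, Λ (f l) := by
    intro f
    have h3 := h1 f
    rw [hmap, Complex.norm_real, Real.norm_eq_abs] at h3
    exact h3
  -- scaling of the columns
  set V₁ : Matrix (Fin k) ι ℝ := Matrix.of fun j i => X j i * (Λ i)⁻¹ with hV₁
  have hmn : ∀ f : Fin k → ι, mnr V₁ f = (∏ l, (Λ (f l))⁻¹) * mnr X f := fun f =>
    mnr_scale X (fun i => (Λ i)⁻¹) f
  have hmn1 : ∀ f : Fin k → ι, |mnr V₁ f| ≤ γ := by
    intro f
    have h3 : 0 < ∏ l, Λ (f l) := prod_pos fun l _ => hΛ _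
    rw [hmn, abs_mul, prod_inv_distrib, abs_inv, abs_of_pos h3, inv_mul_le_iff₀ h3, mul_comm]
    exact h1' f
  have hmo : γ ^ N ≤ C * |mono V₁ a| := by
    have h3 : mono V₁ a = (∏ b, (Λ b)⁻¹ ^ (k * θ b)) * mono X a :=
      mono_scale (β := (id : ι → ι)) X (fun i => (Λ i)⁻¹) a
    have h4 : 0 < ∏ b, Λ b ^ (k * θ b) := prod_pos fun b _ => pow_pos (hΛ b) _
    have h5 : ∏ b, (Λ b)⁻¹ ^ (k * θ b) = (∏ b, Λ b ^ (k * θ b))⁻¹ := by
      rw [← prod_inv_distrib]
      exact prod_congr rfl fun b _ => inv_pow _ _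
    rw [h3, h5, abs_mul, abs_inv, abs_of_pos h4]
    have h6 : C * ((∏ b, Λ b ^ (k * θ b))⁻¹ * |mono X a|) =
        (C * |mono X a|) / ∏ b, Λ b ^ (k * θ b) := by
      field_simp
    rw [h6, le_div_iff₀ h4]
    exact h2
  -- the largest minor
  obtain ⟨f₀, hf₀⟩ := Finite.exists_max fun f : Fin k → ι => |mnr V₁ f|
  have hV₁G : Gen V₁ := by
    intro f hf
    rw [hmn]
    exact mul_ne_zero (prod_ne_zero_iff.2 fun l _ => inv_ne_zero (hΛ _).ne') (hX f hf)
  obtain ⟨f₁, hf₁⟩ : ∃ f : Fin k → ι, Function.Injective f := by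
    obtain ⟨e⟩ := Function.Embedding.nonempty_of_card_le (α := Fin k) (β := ι) (by
      rw [Fintype.card_fin]
      exact hki.le)
    exact ⟨e, e.injective⟩
  have hμ : 0 < |mnr V₁ f₀| := lt_of_lt_of_le (abs_pos.2 (hV₁G f₁ hf₁)) (hf₀ f₁)
  have hμ0 : mnr V₁ f₀ ≠ 0 := abs_pos.1 hμ
  set g : Matrix (Fin k) (Fin k) ℝ := (V₁.submatrix id f₀)⁻¹ with hg
  have hgd : g.det = (mnr V₁ f₀)⁻¹ := by
    rw [hg, Matrix.det_nonsing_inv, Ring.inverse_eq_inv']
    rfl
  have hin : nf V₁ f₀ ∈ KP ℝ θ C⁻¹ := by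
    refine ⟨fun i j => ?_, a, ?_⟩
    · rw [nf_apply V₁ f₀ hμ0, norm_div, Real.norm_eq_abs, Real.norm_eq_abs, div_le_one hμ]
      exact hf₀ _
    · have h3 : mono (nf V₁ f₀) a = g.det ^ N * mono V₁ a :=
        mono_mul g hk (sum_k k θ) V₁ a
      rw [h3, hgd, norm_mul, norm_pow, Real.norm_eq_abs, Real.norm_eq_abs, abs_inv, inv_pow,
        inv_mul_eq_div, le_div_iff₀ (by positivity), inv_mul_le_iff₀ hC]
      exact (pow_le_pow_left₀ hμ.le (hmn1 f₀) N).trans hmo
  have hinv : φ (nf V₁ f₀) = φ X := by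
    have h3 : nf V₁ f₀ = g * X * Matrix.diagonal fun i => (Λ i)⁻¹ := by
      have h4 : V₁ = X * Matrix.diagonal fun i => (Λ i)⁻¹ := by
        ext l x
        rw [Matrix.mul_diagonal]
        rfl
      unfold nf
      rw [Matrix.mul_assoc, ← h4]
    rw [h3]
    refine h.inv X (sst_of_gen hk hki hθ hX) g _ ?_ fun x => inv_ne_zero (hΛ x).ne'
    rw [hgd]
    exact inv_ne_zero hμ0
  rw [← hinv]
  exact hb _ hin

end

end Run7.h3.PM
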