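import Pool.Agent.Run7.h3.PM.Adl1

set_option autoImplicit false
set_option linter.unusedSectionVars false
set_option linter.unusedVariables false

/-! The heights of the classes. -/

namespace Run7.h3.PM

open Finset Module Filter Topology Run7.h3.GT

section

variable {k : ℕ} {ι : Type} [Fintype ι] [DecidableEq ι] {θ : ι → ℕ}

/-- the `p`-adic matrix -/
noncomputable def toP (p : ℕ) [Fact p.Prime] (M : Matrix (Fin k) ι ℤ) : Matrix (Fin k) ι ℚ_[p] :=
  M.map (Int.cast : ℤ → ℚ_[p])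

theorem toP_mono (p : ℕ) [Fact p.Prime] {d : ι → ℕ} (M : Matrix (Fin k) ι ℤ)
    (a : Mon k (id : ι → ι) d) : mono (toP p M) a = ((mono M a : ℤ) : ℚ_[p]) :=
  (mono_map (Int.castRingHom ℚ_[p]) M a).symm

theorem red_mono (p : ℕ) {d : ι → ℕ} (M : Matrix (Fin k) ι ℤ) (a : Mon k (id : ι → ι) d) :
    mono (red p M) a = ((mono M a : ℤ) : ZMod p) :=
  (mono_map (Int.castRingHom (ZMod p)) M a).symm

theorem toP_mem (hk : 0 < k) (p : ℕ) [hp : Fact p.Prime] {M : Matrix (Fin k) ι ℤ}
    (hM : ¬ Uns θ p M) : toP p M ∈ KP ℚ_[p] θ 1 := by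
  have hs : Sst θ (red p M) := by
    by_contra hns
    exact hM ⟨hp.1, hns⟩
  obtain ⟨a, ha⟩ := mono_of_sst hk hs
  refine ⟨fun i j => Padic.norm_int_le_one _, a, ?_⟩
  rw [toP_mono]
  by_contra hlt
  push Not at hlt
  rw [Padic.norm_intCast_lt_one_iff] at hlt
  apply ha
  rw [red_mono]
  exact (ZMod.intCast_zmod_eq_zero_iff_dvd _ _).2 hlt

theorem mono_rel {K : Type} [Field K] (hk : 0 < k) (g : Matrix (Fin k) (Fin k) K) (t : ι → K)
    (V : Matrix (Fin k) ι K) (a : Mon k (id : ι → ι) fun _ => k) :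
    mono (g * V * Matrix.diagonal t) a =
      (g.det ^ Fintype.card ι * ∏ x, t x ^ k) * mono V a := by
  have h1 : g * V * Matrix.diagonal t = g * (Matrix.of fun j i => V j i * t (id i)) := by
    rw [Matrix.mul_assoc]
    congr 1
    ext l x
    rw [Matrix.mul_diagonal]
    rfl
  rw [h1, mono_mul (N := Fintype.card ι) g hk (by
    rw [sum_const, card_univ, smul_eq_mul, mul_comm]), mono_scale]
  ring

/-- the height of a rational matrix -/
noncomputable def hq (V : Matrix (Fin k) ι ℚ) : ℝ :=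
  Height.mulHeight fun a : Mon k (id : ι → ι) fun _ => k => mono V a

theorem hq_rel (hk : 0 < k) {V V' : Matrix (Fin k) ι ℚ} (h : GT.Rel (id : ι → ι) V V') :
    hq V' = hq V := by
  obtain ⟨g, t, hg, ht, rfl⟩ := h
  unfold hq
  have h1 : (fun a : Mon k (id : ι → ι) fun _ => k =>
      mono (g * V * Matrix.diagonal fun i => t (id i)) a) =
      (g.det ^ Fintype.card ι * ∏ x, t x ^ k) • fun a : Mon k (id : ι → ι) fun _ => k =>
        mono V a := by
    funext a
    rw [Pi.smul_apply, smul_eq_mul]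
    exact mono_rel hk g t V a
  have hfin := mon_finite (k := k) (β := (id : ι → ι)) (d := fun _ => k) hk
  rw [h1, Height.mulHeight_smul_eq_mulHeight]
  exact mul_ne_zero (pow_ne_zero _ hg) (prod_ne_zero_iff.2 fun x _ => pow_ne_zero _ (ht x))

/-- the largest monomial -/
noncomputable def std (X : Matrix (Fin k) ι ℝ) : ℝ :=
  ⨆ a : Mon k (id : ι → ι) fun _ => k, |mono X a|

theorem mon_nonempty (hk : 0 < k) (hki : k < Fintype.card ι) :
    Nonempty (Mon k (id : ι → ι) fun _ => k) := by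
  obtain ⟨M, hM⟩ := exists_gnr k (ι := ι)
  obtain ⟨a, -⟩ := gen_mono (β := (id : ι → ι)) (d := fun _ => k) (N := Fintype.card ι) hk hki.le
    (by rw [sum_const, card_univ, smul_eq_mul, mul_comm]) (fun b => by
      rw [filt_card, one_mul]
      exact hki.le) (toQ M) (by
      intro f hf
      rw [toQ_mnr]
      exact_mod_cast hM f hf)
  exact ⟨a⟩

theorem hq_int (hk : 0 < k) (hki : k < Fintype.card ι) (hθ : Adm k θ) {M : Matrix (Fin k) ι ℤ}
    (hM : ∀ p, ¬ Uns θ p M) : hq (toQ M) = std (toR M) := by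
  classical
  have hfin := mon_finite (k := k) (β := (id : ι → ι)) (d := fun _ => k) hk
  have hft := Fintype.ofFinite (Mon k (id : ι → ι) fun _ => k)
  have hne := mon_nonempty hk hki
  set x : (Mon k (id : ι → ι) fun _ => k) → ℤ := fun a => mono M a with hx
  have hgcd : Finset.univ.gcd x = 1 := by
    have h1 : (Finset.univ.gcd x).natAbs = 1 := by
      by_contra hne1
      obtain ⟨p, hp, hpd⟩ := Nat.exists_prime_and_dvd hne1
      have : Fact p.Prime := ⟨hp⟩
      have hs : Sst θ (red p M) := by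
        by_contra hns
        exact hM p ⟨hp, hns⟩
      obtain ⟨a, ha⟩ := hs.minor hk hθ (by omega)
      apply ha
      rw [red_mono]
      refine (ZMod.intCast_zmod_eq_zero_iff_dvd _ _).2 ?_
      exact (Int.natCast_dvd.2 hpd).trans (Finset.gcd_dvd (mem_univ a))
    have h2 : normalize (Finset.univ.gcd x) = Finset.univ.gcd x := Finset.normalize_gcd
    rw [← Int.abs_eq_normalize, Int.abs_eq_natAbs, h1] at h2
    exact_mod_cast h2.symm
  have h1 := Rat.mulHeight_eq_max_abs_of_gcd_eq_one hgcd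
  have h2 : (fun a : Mon k (id : ι → ι) fun _ => k => mono (toQ M) a) =
      ((Int.cast : ℤ → ℚ) ∘ x) := by
    funext a
    exact (mono_map (Int.castRingHom ℚ) M a).symm
  unfold hq
  rw [h2, h1]
  unfold std
  rw [Finite.map_iSup_of_monotone _ Int.cast_mono]
  refine iSup_congr fun a => ?_
  rw [mono_toR, hx, Int.cast_abs]

/-- the archimedean function -/
noncomputable def GG (φ : Matrix (Fin k) ι ℝ → ℝ) (X : Matrix (Fin k) ι ℝ) : ℝ :=
  open Classical in if Gen X then std X * φ X else 0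

theorem GG_gen {φ : Matrix (Fin k) ι ℝ → ℝ} {X : Matrix (Fin k) ι ℝ} (h : Gen X) :
    GG φ X = std X * φ X := by
  unfold GG
  rw [if_pos h]

theorem std_rel (hk : 0 < k) (g : Matrix (Fin k) (Fin k) ℝ) (t : ι → ℝ)
    (X : Matrix (Fin k) ι ℝ) : std (g * X * Matrix.diagonal t) =
      |g.det| ^ Fintype.card ι * (∏ x, |t x| ^ k) * std X := by
  unfold std
  rw [Real.mul_iSup_of_nonneg (by positivity)]
  refine iSup_congr fun a => ?_
  rw [mono_rel hk, abs_mul, abs_mul, abs_pow, abs_prod]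
  congr 3
  funext x
  exact abs_pow _ _

theorem mnr_rel {K : Type} [Field K] (g : Matrix (Fin k) (Fin k) K) (t : ι → K)
    (V : Matrix (Fin k) ι K) (f : Fin k → ι) :
    mnr (g * V * Matrix.diagonal t) f = g.det * (∏ l, t (f l)) * mnr V f := by
  have h1 : g * V * Matrix.diagonal t = g * (Matrix.of fun j i => V j i * t i) := by
    rw [Matrix.mul_assoc]
    congr 1
    ext l x
    rw [Matrix.mul_diagonal]
    rfl
  rw [h1, mnr_mul, mnr_scale]
  ring

theorem gen_rel {K : Type} [Field K] {g : Matrix (Fin k) (Fin k) K} {t : ι → K}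
    (hg : g.det ≠ 0) (ht : ∀ x, t x ≠ 0) (V : Matrix (Fin k) ι K) :
    Gen (g * V * Matrix.diagonal t) ↔ Gen V := by
  have h1 : ∀ f : Fin k → ι, mnr (g * V * Matrix.diagonal t) f ≠ 0 ↔ mnr V f ≠ 0 := by
    intro f
    rw [mnr_rel]
    have h2 : g.det * (∏ l, t (f l)) ≠ 0 := mul_ne_zero hg (prod_ne_zero_iff.2 fun l _ => ht _)
    constructor
    · intro h h0
      exact h (by rw [h0, mul_zero])
    · intro h
      exact mul_ne_zero h2 h
  unfold Gen
  simp only [h1]

theorem GG_hom (hk : 0 < k) (hki : k < Fintype.card ι) (hθ : Adm k θ)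
    {φ : Matrix (Fin k) ι ℝ → ℝ} (h : LF θ φ) : Hom (GG φ) := by
  intro g t X hg ht
  by_cases hX : Gen X
  · rw [GG_gen ((gen_rel hg ht X).2 hX), GG_gen hX, std_rel hk,
      h.inv X (sst_of_gen hk hki hθ hX) g t hg ht]
    ring
  · unfold GG
    rw [if_neg (fun h => hX ((gen_rel hg ht X).1 h)), if_neg hX, mul_zero]

theorem le_std (hk : 0 < k) (X : Matrix (Fin k) ι ℝ) (a : Mon k (id : ι → ι) fun _ => k) :
    |mono X a| ≤ std X := by
  have hfin := mon_finite (k := k) (β := (id : ι → ι)) (d := fun _ => k) hk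
  exact le_ciSup (f := fun a : Mon k (id : ι → ι) fun _ => k => |mono X a|)
    (Set.finite_range _).bddAbove a

theorem std_att (hk : 0 < k) (hki : k < Fintype.card ι) (X : Matrix (Fin k) ι ℝ) :
    ∃ a : Mon k (id : ι → ι) fun _ => k, std X = |mono X a| := by
  have hfin := mon_finite (k := k) (β := (id : ι → ι)) (d := fun _ => k) hk
  have hne := mon_nonempty hk hki
  obtain ⟨a, ha⟩ := exists_eq_ciSup_of_finite (f := fun a : Mon k (id : ι → ι) fun _ => k =>
    |mono X a|)
  exact ⟨a, ha.symm⟩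

theorem std_nonneg (X : Matrix (Fin k) ι ℝ) : 0 ≤ std X := Real.iSup_nonneg fun _ => abs_nonneg _

theorem std_cont (hk : 0 < k) (hki : k < Fintype.card ι) :
    Continuous (std : Matrix (Fin k) ι ℝ → ℝ) := by
  classical
  have hfin := mon_finite (k := k) (β := (id : ι → ι)) (d := fun _ => k) hk
  have hft := Fintype.ofFinite (Mon k (id : ι → ι) fun _ => k)
  have hne := mon_nonempty hk hki
  have h1 : (std : Matrix (Fin k) ι ℝ → ℝ) = fun X =>
      Finset.univ.sup' Finset.univ_nonempty fun a : Mon k (id : ι → ι) fun _ => k =>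
        |mono X a| := by
    funext X
    rw [Finset.sup'_univ_eq_ciSup]
    rfl
  rw [h1]
  exact Continuous.finset_sup'_apply _ fun a _ => (cont_mono a).abs

theorem GG_cont {m : ℕ} (hk : 0 < k) (hki : k < Fintype.card ι) (hθ : Adm k θ)
    {φ : Matrix (Fin k) ι ℝ → ℝ} (h : LF θ φ) (e : Fin k ⊕ Fin m ≃ ι) :
    ContinuousOn (fun x : Cx k m → ℝ => Ge e (GG φ) (XX x)) (UU k m) := by
  have hgen : ∀ x ∈ UU k m, Gen ((XX x).submatrix id e.symm) := by
    intro x hx f hf
    exact hx (e.symm ∘ f) (e.symm.injective.comp hf)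
  have hc : Continuous fun x : Cx k m → ℝ => (XX x).submatrix id e.symm :=
    continuous_XX.matrix_submatrix _ _
  have h1 : ContinuousOn (fun x : Cx k m → ℝ => std ((XX x).submatrix id e.symm) *
      φ ((XX x).submatrix id e.symm)) (UU k m) := by
    refine ContinuousOn.mul ((std_cont hk hki).comp hc).continuousOn ?_
    exact h.cont.comp hc.continuousOn fun x hx => sst_of_gen hk hki hθ (hgen x hx)
  refine h1.congr fun x hx => ?_
  exact GG_gen (hgen x hx)

/-- the rational points of bounded height -/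
def PTq (H : Matrix (Fin k) ι ℚ → ℝ) (B : ℝ) : Set (Set (Matrix (Fin k) ι ℚ)) :=
  {P | ∃ V : Matrix (Fin k) ι ℚ, Gen V ∧ P = {V' | GT.Rel (id : ι → ι) V V'} ∧ hq V * H V ≤ B}

/-- the same points by integral matrices with a residue condition -/
def XO (θ : ι → ℕ) (H : Matrix (Fin k) ι ℚ → ℝ) (Q : ℕ) (O : Set (Matrix (Fin k) ι (ZMod Q)))
    (B : ℝ) : Set (Set (Matrix (Fin k) ι ℚ)) :=
  {P | ∃ M : Matrix (Fin k) ι ℤ, ARI θ Q O M ∧ P = cls M ∧ std (toR M) * H (toQ M) ≤ B}

theorem PTq_eq (hk : 0 < k) (hki : k < Fintype.card ι) (hθ : Adm k θ)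
    {H : Matrix (Fin k) ι ℚ → ℝ} (hH : ∀ V V', Gen V → GT.Rel (id : ι → ι) V V' → H V' = H V)
    (Q : ℕ) (B : ℝ) : PTq H B = XO θ H Q Set.univ B := by
  ext P
  constructor
  · rintro ⟨V, hV, rfl, hB⟩
    obtain ⟨M₀, hM₀, h1⟩ := exists_int hV
    obtain ⟨M, hM, h2, h3⟩ := exists_stab hk hki hθ hM₀
    have h4 := h1.trans h2
    refine ⟨M, ⟨trivial, hM, h3⟩, h4.eq, ?_⟩
    rw [← hq_int hk hki hθ h3, hq_rel hk h4, hH V _ hV h4]
    exact hB
  · rintro ⟨M, hM, rfl, hB⟩
    refine ⟨toQ M, ?_, rfl, ?_⟩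
    · intro f hf
      rw [toQ_mnr]
      exact_mod_cast hM.2.1 f hf
    · rw [hq_int hk hki hθ hM.2.2]
      exact hB

end

end Run7.h3.PM
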