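import Pool.Agent.Run7.h3.PM.Adl2

set_option autoImplicit false
set_option linter.unusedSectionVars false
set_option linter.unusedVariables false

/-! The approximation of the `p`-adic factors by functions of the residues. -/

namespace Run7.h3.PM

open Finset Module Filter Topology Run7.h3.GT

instance factP (p : Nat.Primes) : Fact (p : ℕ).Prime := ⟨p.2⟩

section

variable {k : ℕ} {ι : Type} [Fintype ι] [DecidableEq ι] {θ : ι → ℕ}

/-- the product of the `p`-adic factors -/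
noncomputable def PhP (S : Finset Nat.Primes)
    (φ : ∀ p : Nat.Primes, Matrix (Fin k) ι ℚ_[p] → ℝ) (M : Matrix (Fin k) ι ℤ) : ℝ :=
  ∏ p ∈ S, φ p (toP p M)

theorem PhP_pos (hk : 0 < k) {S : Finset Nat.Primes}
    {φ : ∀ p : Nat.Primes, Matrix (Fin k) ι ℚ_[p] → ℝ} (h : ∀ p ∈ S, LF θ (φ p))
    {M : Matrix (Fin k) ι ℤ} (hM : ∀ p, ¬ Uns θ p M) : 0 < PhP S φ M :=
  prod_pos fun p hp => (h p hp).pos _ (KP_sst hk one_pos (toP_mem hk p (hM p)))

theorem PhP_bdd (hk : 0 < k) {S : Finset Nat.Primes}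
    {φ : ∀ p : Nat.Primes, Matrix (Fin k) ι ℚ_[p] → ℝ} (h : ∀ p ∈ S, LF θ (φ p)) :
    ∃ m M : ℝ, 0 < m ∧ 0 < M ∧ ∀ X : Matrix (Fin k) ι ℤ, (∀ p, ¬ Uns θ p X) →
      m ≤ PhP S φ X ∧ PhP S φ X ≤ M := by
  have h1 : ∀ p : Nat.Primes, ∃ m M : ℝ, 0 < m ∧ 0 < M ∧ (p ∈ S →
      ∀ X ∈ KP ℚ_[p] θ 1, m ≤ φ p X ∧ φ p X ≤ M) := by
    intro p
    by_cases hp : p ∈ S
    · obtain ⟨m, M, h2, h3, h4⟩ := (h p hp).bdd hk one_pos
      exact ⟨m, M, h2, h3, fun _ => h4⟩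
    · exact ⟨1, 1, one_pos, one_pos, fun h => absurd h hp⟩
  choose m M hm hM hb using h1
  refine ⟨∏ p ∈ S, m p, ∏ p ∈ S, M p, prod_pos fun p _ => hm p, prod_pos fun p _ => hM p,
    fun X hX => ⟨?_, ?_⟩⟩
  · exact prod_le_prod (fun p _ => (hm p).le) fun p hp => (hb p hp _ (toP_mem hk p (hX p))).1
  · refine prod_le_prod (fun p hp => ?_) fun p hp => (hb p hp _ (toP_mem hk p (hX p))).2
    exact ((hm p).le).trans (hb p hp _ (toP_mem hk p (hX p))).1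

/-- the orbit of a residue matrix -/
def Orb (Q : ℕ) (R : Matrix (Fin k) ι (ZMod Q)) : Set (Matrix (Fin k) ι (ZMod Q)) :=
  {R' | ∃ (g : Matrix (Fin k) (Fin k) (ZMod Q)) (ε : ι → ℤ), IsUnit g.det ∧ Sgn ε ∧
    R' = g * R * Matrix.diagonal fun x => ((ε x : ℤ) : ZMod Q)}

theorem diag_sgn (Q : ℕ) {ε : ι → ℤ} (hε : Sgn ε) :
    (Matrix.diagonal fun x => ((ε x : ℤ) : ZMod Q)) * (Matrix.diagonal fun x =>
      ((ε x : ℤ) : ZMod Q)) = 1 := by
  rw [Matrix.diagonal_mul_diagonal, ← Matrix.diagonal_one]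
  congr 1
  funext x
  rw [← Int.cast_mul, hε.sq x, Int.cast_one]

theorem Orb_self (Q : ℕ) (R : Matrix (Fin k) ι (ZMod Q)) : R ∈ Orb Q R := by
  refine ⟨1, fun _ => 1, by rw [Matrix.det_one]; exact isUnit_one, fun _ => Or.inl rfl, ?_⟩
  have h2 : (Matrix.diagonal (fun x : ι => (((1 : ℤ) : ℤ) : ZMod Q))) = 1 := by
    rw [Int.cast_one]
    exact Matrix.diagonal_one
  rw [h2, Matrix.mul_one, Matrix.one_mul]

theorem Orb_inv (Q : ℕ) (R : Matrix (Fin k) ι (ZMod Q)) : InvS Q (Orb Q R) := by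
  rintro g ε hg hε _ ⟨g', ε', hg', hε', rfl⟩
  refine ⟨g * g', fun x => ε' x * ε x, ?_, fun x => ?_, ?_⟩
  · rw [Matrix.det_mul]
    exact hg.mul hg'
  · change ε' x * ε x = 1 ∨ ε' x * ε x = -1
    rcases hε x with h | h <;> rcases hε' x with h' | h' <;> rw [h, h'] <;> norm_num
  · have h1 : (Matrix.diagonal fun x => (((ε' x * ε x : ℤ)) : ZMod Q)) =
        (Matrix.diagonal fun x => ((ε' x : ℤ) : ZMod Q)) *
          (Matrix.diagonal fun x => ((ε x : ℤ) : ZMod Q)) := by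
      rw [Matrix.diagonal_mul_diagonal]
      congr 1
      funext x
      exact Int.cast_mul _ _
    rw [h1]
    simp only [Matrix.mul_assoc]

theorem Orb_symm {Q : ℕ} {R R' : Matrix (Fin k) ι (ZMod Q)} (h : R' ∈ Orb Q R) :
    R ∈ Orb Q R' := by
  obtain ⟨g, ε, hg, hε, rfl⟩ := h
  refine ⟨g⁻¹, ε, ?_, hε, ?_⟩
  · rw [Matrix.det_nonsing_inv]
    exact hg.ringInverse
  · have h1 : g⁻¹ * (g * R * Matrix.diagonal fun x => ((ε x : ℤ) : ZMod Q)) *
        (Matrix.diagonal fun x => ((ε x : ℤ) : ZMod Q)) =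
        (g⁻¹ * g) * R * ((Matrix.diagonal fun x => ((ε x : ℤ) : ZMod Q)) *
          (Matrix.diagonal fun x => ((ε x : ℤ) : ZMod Q))) := by
      simp only [Matrix.mul_assoc]
    rw [h1, diag_sgn Q hε, Matrix.nonsing_inv_mul g hg, Matrix.one_mul, Matrix.mul_one]

theorem Orb_trans {Q : ℕ} {R R' R'' : Matrix (Fin k) ι (ZMod Q)} (h : R' ∈ Orb Q R)
    (h' : R'' ∈ Orb Q R') : R'' ∈ Orb Q R := by
  obtain ⟨g, ε, hg, hε, rfl⟩ := h'
  exact Orb_inv Q R g ε hg hε _ h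

theorem Orb_eq {Q : ℕ} {R R' : Matrix (Fin k) ι (ZMod Q)} (h : R' ∈ Orb Q R) :
    Orb Q R' = Orb Q R := by
  ext R''
  exact ⟨fun h' => Orb_trans h h', fun h' => Orb_trans (Orb_symm h) h'⟩

theorem toP_rel (p : ℕ) [Fact p.Prime] (g : Matrix (Fin k) (Fin k) ℤ) (M : Matrix (Fin k) ι ℤ)
    (ε : ι → ℤ) : toP p (g * M * Matrix.diagonal ε) =
      g.map (Int.cast : ℤ → ℚ_[p]) * toP p M * Matrix.diagonal fun x => ((ε x : ℤ) : ℚ_[p]) := by
  have h1 : toP p (g * M) = g.map (Int.cast : ℤ → ℚ_[p]) * toP p M :=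
    Matrix.map_mul (L := g) (M := M) (f := Int.castRingHom ℚ_[p])
  rw [← h1]
  ext l x
  rw [Matrix.mul_diagonal]
  unfold toP
  rw [Matrix.map_apply, Matrix.mul_diagonal, Matrix.map_apply]
  push_cast
  rfl

theorem red_rel (Q : ℕ) (g : Matrix (Fin k) (Fin k) ℤ) (M : Matrix (Fin k) ι ℤ)
    (ε : ι → ℤ) : red Q (g * M * Matrix.diagonal ε) =
      red Q g * red Q M * Matrix.diagonal fun x => ((ε x : ℤ) : ZMod Q) := by
  rw [← red_mul]
  ext l x
  rw [Matrix.mul_diagonal]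
  unfold red
  rw [Matrix.map_apply, Matrix.mul_diagonal, Matrix.map_apply]
  push_cast
  rfl

/-- matrices with equivalent residues have close factors -/
theorem exists_Q (hk : 0 < k) (S : Finset Nat.Primes)
    {φ : ∀ p : Nat.Primes, Matrix (Fin k) ι ℚ_[p] → ℝ} (h : ∀ p ∈ S, LF θ (φ p)) {ε : ℝ}
    (hε : 0 < ε) : ∃ Q : ℕ, 0 < Q ∧ ∀ M M' : Matrix (Fin k) ι ℤ, (∀ p, ¬ Uns θ p M) →
      (∀ p, ¬ Uns θ p M') → red Q M' ∈ Orb Q (red Q M) →
      |Real.log (PhP S φ M) - Real.log (PhP S φ M')| ≤ ε := by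
  classical
  have hε1 : 0 < ε / (S.card + 1) := by positivity
  have h1 : ∀ p : Nat.Primes, ∃ δ : ℝ, 0 < δ ∧ (p ∈ S → ∀ X ∈ KP ℚ_[p] θ 1,
      ∀ Y ∈ KP ℚ_[p] θ 1, (∀ i j, ‖X i j - Y i j‖ < δ) →
        |Real.log (φ p X) - Real.log (φ p Y)| ≤ ε / (S.card + 1)) := by
    intro p
    by_cases hp : p ∈ S
    · obtain ⟨δ, hδ, h2⟩ := (h p hp).unif hk one_pos hε1
      exact ⟨δ, hδ, fun _ => h2⟩
    · exact ⟨1, one_pos, fun h => absurd h hp⟩
  choose δ hδ hδS using h1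
  have h2 : ∀ p : Nat.Primes, ∃ r : ℕ, ((p : ℝ)⁻¹) ^ r < δ p := fun p =>
    exists_pow_lt_of_lt_one (hδ p) (inv_lt_one_of_one_lt₀ (by exact_mod_cast p.2.one_lt))
  choose r hr using h2
  set Q : ℕ := ∏ p ∈ S, (p : ℕ) ^ (r p + 1) with hQ
  have hQ0 : 0 < Q := prod_pos fun p _ => pow_pos p.2.pos _
  refine ⟨Q, hQ0, fun M M' hM hM' hO => ?_⟩
  obtain ⟨g, e, hg, he, hMM⟩ := hO
  have : NeZero Q := ⟨hQ0.ne'⟩
  choose g' hg' using fun x : Fin k × Fin k => ZMod.intCast_surjective (g x.1 x.2)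
  set G : Matrix (Fin k) (Fin k) ℤ := Matrix.of fun i j => g' (i, j) with hG
  have hGg : red Q G = g := by
    ext i j
    exact hg' (i, j)
  set M'' : Matrix (Fin k) ι ℤ := G * M * Matrix.diagonal e with hM''
  have hred : red Q M'' = red Q M' := by
    rw [hM'', red_rel, hGg, hMM]
  have key : ∀ p ∈ S, |Real.log (φ p (toP p M)) - Real.log (φ p (toP p M'))| ≤
      ε / (S.card + 1) := by
    intro p hp
    have hpQ' : (p : ℕ) ^ (r p + 1) ∣ Q := dvd_prod_of_mem (fun p : Nat.Primes =>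
      (p : ℕ) ^ (r p + 1)) hp
    have hpQ : (p : ℕ) ∣ Q := (dvd_pow_self _ (Nat.succ_ne_zero _)).trans hpQ'
    have hu : ¬ Uns θ p M'' := by
      rw [Uns_congr (red_of_dvd hpQ hred)]
      exact hM' p
    have hGd : G.det ≠ 0 := by
      intro h0
      have h3 : IsUnit (red (p : ℕ) G).det := unit_red hpQ (by rw [hGg]; exact hg)
      have h4 : (red (p : ℕ) G).det = ((G.det : ℤ) : ZMod p) :=
        ((Int.castRingHom (ZMod p)).map_det G).symm
      rw [h4, h0, Int.cast_zero] at h3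
      exact not_isUnit_zero h3
    have hdet : (G.map (Int.cast : ℤ → ℚ_[p])).det ≠ 0 := by
      have h4 : (G.map (Int.cast : ℤ → ℚ_[p])).det = ((G.det : ℤ) : ℚ_[p]) :=
        ((Int.castRingHom ℚ_[p]).map_det G).symm
      rw [h4]
      exact_mod_cast hGd
    have h3 : φ p (toP p M'') = φ p (toP p M) := by
      rw [hM'', toP_rel]
      refine (h p hp).inv _ (KP_sst hk one_pos (toP_mem hk p (hM p))) _ _ hdet fun x => ?_
      have := he.ne x
      exact_mod_cast this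
    rw [← h3]
    refine hδS p hp _ (toP_mem hk p hu) _ (toP_mem hk p (hM' p)) fun i j => ?_
    have h4 : toP p M'' i j - toP p M' i j = ((M'' i j - M' i j : ℤ) : ℚ_[p]) := by
      unfold toP
      rw [Matrix.map_apply, Matrix.map_apply]
      push_cast
      rfl
    rw [h4]
    have h5 : (((p : ℕ) ^ (r p + 1) : ℕ) : ℤ) ∣ M'' i j - M' i j := by
      have h6 := (red_eq_iff Q M'' M').1 hred i j
      exact (Int.natCast_dvd_natCast.2 hpQ').trans h6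
    have h6 : ‖((M'' i j - M' i j : ℤ) : ℚ_[p])‖ ≤ ((p : ℕ) : ℝ) ^ (-((r p + 1 : ℕ) : ℤ)) := by
      rw [Padic.norm_int_le_pow_iff_dvd]
      exact_mod_cast h5
    refine lt_of_le_of_lt h6 (lt_of_le_of_lt ?_ (hr p))
    rw [zpow_neg, zpow_natCast, ← inv_pow]
    refine pow_le_pow_of_le_one (by positivity) ?_ (Nat.le_succ _)
    exact (inv_lt_one_of_one_lt₀ (by exact_mod_cast p.2.one_lt)).le
  have hpos : ∀ p ∈ S, φ p (toP p M) ≠ 0 := fun p hp =>
    ((h p hp).pos _ (KP_sst hk one_pos (toP_mem hk p (hM p)))).ne'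
  have hpos' : ∀ p ∈ S, φ p (toP p M') ≠ 0 := fun p hp =>
    ((h p hp).pos _ (KP_sst hk one_pos (toP_mem hk p (hM' p)))).ne'
  unfold PhP
  rw [Real.log_prod hpos, Real.log_prod hpos', ← sum_sub_distrib]
  refine (abs_sum_le_sum_abs _ _).trans ((sum_le_sum key).trans ?_)
  rw [sum_const, nsmul_eq_mul, mul_div_assoc', div_le_iff₀ (by positivity)]
  nlinarith

end

end Run7.h3.PM
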