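import Pool.Agent.Run7.h3.PM.Adl3

set_option autoImplicit false
set_option linter.unusedSectionVars false
set_option linter.unusedVariables false

/-! The asymptotic formula for all adelic heights. -/

namespace Run7.h3.PM

open Finset Module Filter Topology Run7.h3.GT

theorem shift {N : ℝ → ℝ} {j : ℕ} {c : ℝ}
    (h : Tendsto (fun L => N L / (Real.exp L * L ^ j)) atTop (𝓝 c)) (s : ℝ) :
    Tendsto (fun L => N (L + s) / (Real.exp L * L ^ j)) atTop (𝓝 (c * Real.exp s)) := by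
  have h1 : Tendsto (fun L : ℝ => L + s) atTop atTop := tendsto_atTop_add_const_right _ _ tendsto_id
  have h2 := h.comp h1
  have h3 : Tendsto (fun L : ℝ => ((L + s) / L) ^ j) atTop (𝓝 1) := by
    have h4 : Tendsto (fun L : ℝ => 1 + s / L) atTop (𝓝 (1 + 0)) :=
      tendsto_const_nhds.add (tendsto_const_nhds.div_atTop tendsto_id)
    have h5 := h4.pow j
    rw [add_zero, one_pow] at h5
    refine h5.congr' ?_
    filter_upwards [eventually_gt_atTop (0 : ℝ)] with L hL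
    congr 1
    field_simp
  have h6 := (h2.mul_const (Real.exp s)).mul h3
  rw [mul_one] at h6
  refine h6.congr' ?_
  filter_upwards [eventually_gt_atTop (max 0 (-s))] with L hL
  have hL1 : 0 < L := lt_of_le_of_lt (le_max_left _ _) hL
  have hL2 : 0 < L + s := by
    have := lt_of_le_of_lt (le_max_right 0 (-s)) hL
    linarith
  simp only [Function.comp_apply]
  rw [Real.exp_add, div_pow]
  have := Real.exp_pos s
  have := Real.exp_pos L
  field_simp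

theorem sqz {F : ℝ → ℝ} (h : ∀ ε : ℝ, 0 < ε → ε ≤ 1 → ∃ (A : ℝ) (l u : ℝ → ℝ), 0 ≤ A ∧
    Tendsto l atTop (𝓝 (Real.exp (-ε) * A)) ∧ Tendsto u atTop (𝓝 (Real.exp ε * A)) ∧
      ∀ᶠ L in atTop, l L ≤ F L ∧ F L ≤ u L) : ∃ c, Tendsto F atTop (𝓝 c) := by
  -- an upper bound
  obtain ⟨A₁, l₁, u₁, hA₁, -, hu₁, hF₁⟩ := h 1 one_pos le_rfl
  set C : ℝ := Real.exp 1 * A₁ + 1 with hC
  have hC0 : 0 < C := by
    have := Real.exp_pos 1
    positivity
  have hFC : ∀ᶠ L in atTop, F L ≤ C := by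
    filter_upwards [hF₁, hu₁.eventually (eventually_lt_nhds (show Real.exp 1 * A₁ < C by
      rw [hC]; linarith))] with L h1 h2
    exact h1.2.trans h2.le
  refine conv_of fun ε₀ hε₀ => ?_
  set ε : ℝ := min 1 (ε₀ / (12 * C)) with hε
  have hε0 : 0 < ε := by positivity
  have hε1 : ε ≤ 1 := min_le_left _ _
  have hε2 : ε * (12 * C) ≤ ε₀ := by
    have h1 : ε ≤ ε₀ / (12 * C) := min_le_right _ _
    rwa [le_div_iff₀ (by positivity)] at h1
  obtain ⟨A, l, u, hA, hl, hu, hF⟩ := h ε hε0 hε1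
  have hAC : A ≤ 3 * C := by
    have h1 : Real.exp (-ε) * A ≤ C := by
      refine le_of_tendsto hl ?_
      filter_upwards [hF, hFC] with L h1 h2
      exact h1.1.trans h2
    have h2 : A = Real.exp ε * (Real.exp (-ε) * A) := by
      rw [← mul_assoc, ← Real.exp_add]
      simp
    rw [h2]
    have h3 : Real.exp ε ≤ 3 := by
      have h4 : Real.exp ε ≤ Real.exp 1 := Real.exp_le_exp.2 hε1
      have h5 := Real.exp_one_lt_d9
      linarith
    calc Real.exp ε * (Real.exp (-ε) * A) ≤ 3 * (Real.exp (-ε) * A) :=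
          mul_le_mul_of_nonneg_right h3 (by positivity)
      _ ≤ 3 * C := by linarith
  refine ⟨A, ?_⟩
  have e1 : Real.exp ε ≤ 1 + 2 * ε := by
    have h1 := Real.abs_exp_sub_one_le (x := ε) (by rw [abs_of_pos hε0]; exact hε1)
    rw [abs_of_pos hε0] at h1
    have h2 := (abs_le.1 h1).2
    linarith
  have e2 : 1 - ε ≤ Real.exp (-ε) := by
    have h1 := Real.add_one_le_exp (-ε)
    linarith
  have e3 : ε * A ≤ ε₀ / 4 := by
    have h1 : ε * A ≤ ε * (3 * C) := mul_le_mul_of_nonneg_left hAC hε0.le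
    linarith
  filter_upwards [hF, hl.eventually (eventually_gt_nhds (show Real.exp (-ε) * A - ε₀ / 4 <
    Real.exp (-ε) * A by linarith)), hu.eventually (eventually_lt_nhds (show Real.exp ε * A <
    Real.exp ε * A + ε₀ / 4 by linarith))] with L h1 h2 h3
  have e4 : Real.exp ε * A ≤ (1 + 2 * ε) * A := mul_le_mul_of_nonneg_right e1 hA
  have e5 : (1 - ε) * A ≤ Real.exp (-ε) * A := mul_le_mul_of_nonneg_right e2 hA
  rw [abs_le]
  constructor
  · nlinarith [h1.1, h1.2]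
  · nlinarith [h1.1, h1.2]

section

variable {k m' : ℕ} {ι : Type} [Fintype ι] [DecidableEq ι] {θ : ι → ℕ}

theorem gen_map' {K : Type} [Field K] [CharZero K] {V : Matrix (Fin k) ι ℚ} (hV : Gen V) :
    Gen (V.map (Rat.cast : ℚ → K)) := by
  intro f hf
  have h1 : mnr (V.map (Rat.cast : ℚ → K)) f = ((mnr V f : ℚ) : K) :=
    (mnr_map (Rat.castHom K) V f).symm
  rw [h1]
  exact_mod_cast hV f hf

theorem LF.rat (hk : 0 < k) (hki : k < Fintype.card ι) (hθ : Adm k θ) {K : Type} [NormedField K]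
    [CharZero K] {φ : Matrix (Fin k) ι K → ℝ} (h : LF θ φ) {V V' : Matrix (Fin k) ι ℚ}
    (hV : Gen V) (hr : GT.Rel (id : ι → ι) V V') :
    φ (V'.map (Rat.cast : ℚ → K)) = φ (V.map (Rat.cast : ℚ → K)) := by
  obtain ⟨g, t, hg, ht, rfl⟩ := hr
  have h1 : (g * V * Matrix.diagonal fun i => t (id i)).map (Rat.cast : ℚ → K) =
      g.map (Rat.cast : ℚ → K) * V.map (Rat.cast : ℚ → K) * Matrix.diagonal fun x =>
        ((t x : ℚ) : K) := by
    ext l x
    rw [Matrix.mul_diagonal, Matrix.map_apply, Matrix.mul_diagonal, Matrix.mul_apply,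
      Matrix.mul_apply]
    simp only [Matrix.map_apply]
    push_cast
    rfl
  rw [h1]
  refine h.inv _ (sst_of_gen hk hki hθ (gen_map' hV)) _ _ ?_ fun x => ?_
  · have h2 : (g.map (Rat.cast : ℚ → K)).det = ((g.det : ℚ) : K) :=
      ((Rat.castHom K).map_det g).symm
    rw [h2]
    exact_mod_cast hg
  · have := ht x
    exact_mod_cast this

/-- the product of all local factors -/
noncomputable def HH (S : Finset Nat.Primes) (φ₀ : Matrix (Fin k) ι ℝ → ℝ)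
    (φ : ∀ p : Nat.Primes, Matrix (Fin k) ι ℚ_[p] → ℝ) (V : Matrix (Fin k) ι ℚ) : ℝ :=
  φ₀ (V.map (Rat.cast : ℚ → ℝ)) * ∏ p ∈ S, φ p (V.map (Rat.cast : ℚ → ℚ_[p]))

theorem HH_rel (hk : 0 < k) (hki : k < Fintype.card ι) (hθ : Adm k θ) {S : Finset Nat.Primes}
    {φ₀ : Matrix (Fin k) ι ℝ → ℝ} {φ : ∀ p : Nat.Primes, Matrix (Fin k) ι ℚ_[p] → ℝ}
    (h₀ : LF θ φ₀) (h : ∀ p ∈ S, LF θ (φ p)) (V V' : Matrix (Fin k) ι ℚ) (hV : Gen V)
    (hr : GT.Rel (id : ι → ι) V V') : HH S φ₀ φ V' = HH S φ₀ φ V := by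
  unfold HH
  rw [h₀.rat hk hki hθ hV hr]
  congr 1
  exact prod_congr rfl fun p hp => (h p hp).rat hk hki hθ hV hr

theorem HH_toQ (S : Finset Nat.Primes) (φ₀ : Matrix (Fin k) ι ℝ → ℝ)
    (φ : ∀ p : Nat.Primes, Matrix (Fin k) ι ℚ_[p] → ℝ) (M : Matrix (Fin k) ι ℤ) :
    HH S φ₀ φ (toQ M) = φ₀ (toR M) * PhP S φ M := by
  have h1 : (toQ M).map (Rat.cast : ℚ → ℝ) = toR M := by
    ext i j
    unfold toQ toR
    rw [Matrix.map_apply, Matrix.map_apply, Matrix.map_apply]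
    exact Rat.cast_intCast _
  have h2 : ∀ p : Nat.Primes, (toQ M).map (Rat.cast : ℚ → ℚ_[p]) = toP p M := by
    intro p
    ext i j
    unfold toQ toP
    rw [Matrix.map_apply, Matrix.map_apply, Matrix.map_apply]
    exact Rat.cast_intCast _
  unfold HH PhP
  rw [h1, prod_congr rfl fun p _ => by rw [h2 p]]

/-- the value of the height -/
theorem val_eq {S : Finset Nat.Primes} {φ₀ : Matrix (Fin k) ι ℝ → ℝ}
    {φ : ∀ p : Nat.Primes, Matrix (Fin k) ι ℚ_[p] → ℝ} {M : Matrix (Fin k) ι ℤ} (hM : Gnr M) :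
    std (toR M) * HH S φ₀ φ (toQ M) = GG φ₀ (toR M) * PhP S φ M := by
  rw [HH_toQ, GG_gen (gen_toR hM), mul_assoc]

theorem GG_nonneg (hk : 0 < k) (hki : k < Fintype.card ι) (hθ : Adm k θ)
    {φ₀ : Matrix (Fin k) ι ℝ → ℝ} (h₀ : LF θ φ₀) {X : Matrix (Fin k) ι ℝ} (hX : Gen X) :
    0 ≤ GG φ₀ X := by
  rw [GG_gen hX]
  exact mul_nonneg (std_nonneg X) (h₀.pos X (sst_of_gen hk hki hθ hX)).le

/-- the asymptotic formula with a residue condition and an archimedean factor -/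
theorem arch_count (hk : 2 ≤ k) (hm : 1 ≤ m') (h5 : 5 ≤ k + (m' + 1))
    (hι : Fintype.card ι = k + (m' + 1)) (hθ : Adm k θ) {φ₀ : Matrix (Fin k) ι ℝ → ℝ}
    (h₀ : LF θ φ₀) {Q : ℕ} (hQ : 0 < Q) {O : Set (Matrix (Fin k) ι (ZMod Q))} (hO : InvS Q O) :
    ∃ c : ℝ, 0 ≤ c ∧ ((∃ o, Mkd θ o) → Q = 1 → O = Set.univ → 0 < c) ∧
      Tendsto (fun L : ℝ => ((CNT θ Q O (GG φ₀) L).ncard : ℝ) / (Real.exp L * L ^ (k + m'))) atTop
        (𝓝 c) := by
  have hk0 : 0 < k := by omega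
  have hki : k < Fintype.card ι := by omega
  obtain ⟨c₁, c₂, hc₁, hc₂, hb⟩ := h₀.arch_bdd hk0 hki hθ
  refine main_count hk hm h5 hι hθ hQ hO (GG_hom hk0 hki hθ h₀) hc₁ hc₂ ?_ ?_
    fun e => GG_cont hk0 hki hθ h₀ e
  · intro X hX a
    rw [GG_gen hX, mul_comm]
    exact mul_le_mul (le_std hk0 X a) (hb X hX).1 hc₁.le (std_nonneg X)
  · intro X hX
    obtain ⟨a, ha⟩ := std_att hk0 hki X
    refine ⟨a, ?_⟩
    rw [GG_gen hX, ← ha, mul_comm]
    exact mul_le_mul_of_nonneg_right (hb X hX).2 (std_nonneg X)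

theorem CNT_fin (hk : 2 ≤ k) (hm : 1 ≤ m') (hι : Fintype.card ι = k + (m' + 1)) (hθ : Adm k θ)
    {φ₀ : Matrix (Fin k) ι ℝ → ℝ} (h₀ : LF θ φ₀) (Q : ℕ) (O : Set (Matrix (Fin k) ι (ZMod Q)))
    (L : ℝ) : (CNT θ Q O (GG φ₀) L).Finite := by
  have hk0 : 0 < k := by omega
  have hki : k < Fintype.card ι := by omega
  obtain ⟨c₁, c₂, hc₁, hc₂, hb⟩ := h₀.arch_bdd hk0 hki hθ
  obtain ⟨C, hC, htot⟩ := tot_le (k := k) (ι := ι) (m := m' + 1) (by omega) hι (by omega) hc₁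
  have h1 := (htot (max 0 L) (le_max_left _ _)).1
  refine h1.subset ?_
  rintro _ ⟨M, hM, rfl, hL⟩
  refine ⟨M, hM.2.1, rfl, fun a => ?_⟩
  rw [← mono_toR]
  refine le_trans ?_ (hL.trans (Real.exp_le_exp.2 (le_max_right _ _)))
  rw [GG_gen (gen_toR hM.2.1), mul_comm]
  exact mul_le_mul (le_std hk0 _ a) (hb _ (gen_toR hM.2.1)).1 hc₁.le (std_nonneg _)

end

end Run7.h3.PM
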