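import Pool.Agent.Run7.h3.PM.Adl4

set_option autoImplicit false
set_option linter.unusedSectionVars false
set_option linter.unusedVariables false

/-! The asymptotic formula for all adelic heights: the end of the proof. -/

namespace Run7.h3.PM

open Finset Module Filter Topology Run7.h3.GT

theorem card_disj {α β : Type} (T : Finset α) (X : α → Set β) (P : Set β)
    (hd : ∀ a ∈ T, ∀ b ∈ T, a ≠ b → Disjoint (X a) (X b)) (hs : ∀ a ∈ T, X a ⊆ P)
    (hP : P.Finite) : ∑ a ∈ T, (X a).ncard ≤ P.ncard := by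
  classical
  have hf : ∀ a ∈ T, (X a).Finite := fun a ha => hP.subset (hs a ha)
  set Y : α → Finset β := fun a => if h : a ∈ T then (hf a h).toFinset else ∅ with hY
  have hmem : ∀ a ∈ T, ∀ x, x ∈ Y a ↔ x ∈ X a := by
    intro a ha x
    simp only [hY, dif_pos ha, Set.Finite.mem_toFinset]
  have h1 : ∀ a ∈ T, (X a).ncard = (Y a).card := by
    intro a ha
    rw [← Set.ncard_coe_finset]
    congr 1
    ext x
    exact (hmem a ha x).symm
  rw [sum_congr rfl h1, ← card_biUnion]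
  · rw [Set.ncard_eq_toFinset_card _ hP]
    refine card_le_card fun x hx => ?_
    rw [mem_biUnion] at hx
    obtain ⟨a, ha, hx⟩ := hx
    rw [Set.Finite.mem_toFinset]
    exact hs a ha ((hmem a ha x).1 hx)
  · intro a ha b hb hab
    rw [Function.onFun, Finset.disjoint_left]
    intro x hx hx'
    exact Set.disjoint_left.1 (hd a ha b hb hab) ((hmem a ha x).1 hx) ((hmem b hb x).1 hx')

section

variable {k m' : ℕ} {ι : Type} [Fintype ι] [DecidableEq ι]

theorem lf_one (θ : ι → ℕ) {K : Type} [NormedField K] :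
    LF θ (fun _ : Matrix (Fin k) ι K => (1 : ℝ)) :=
  ⟨fun _ _ => one_pos, continuousOn_const, fun _ _ _ _ _ _ => rfl⟩

/-- the asymptotic formula -/
theorem adl {θ : ι → ℕ} (hk : 2 ≤ k) (hm : 1 ≤ m') (h5 : 5 ≤ k + (m' + 1))
    (hι : Fintype.card ι = k + (m' + 1)) (hθ : Adm k θ) (S : Finset Nat.Primes)
    {φ₀ : Matrix (Fin k) ι ℝ → ℝ} (h₀ : LF θ φ₀)
    {φ : ∀ p : Nat.Primes, Matrix (Fin k) ι ℚ_[p] → ℝ} (h : ∀ p ∈ S, LF θ (φ p)) :
    ∃ c : ℝ, 0 < c ∧ Tendsto (fun B : ℝ => ((PTq (HH S φ₀ φ) B).ncard : ℝ) /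
      (B * Real.log B ^ (k + m'))) atTop (𝓝 c) := by
  classical
  have hk0 : 0 < k := by omega
  have hki : k < Fintype.card ι := by omega
  set H := HH S φ₀ φ with hH
  have hrel := HH_rel hk0 hki hθ h₀ h
  obtain ⟨mΦ, MΦ, hmΦ, hMΦ, hΦ⟩ := PhP_bdd hk0 h
  obtain ⟨c₁, c₂, hc₁, hc₂, hb⟩ := h₀.arch_bdd hk0 hki hθ
  have hPT : ∀ (Q : ℕ) (B : ℝ), PTq H B = XO θ H Q Set.univ B := fun Q B =>
    PTq_eq hk0 hki hθ hrel Q B
  -- finiteness
  have hfin : ∀ L : ℝ, (PTq H (Real.exp L)).Finite := by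
    intro L
    rw [hPT 1]
    refine (CNT_fin hk hm hι hθ h₀ 1 Set.univ (L - Real.log mΦ)).subset ?_
    rintro _ ⟨M, hM, rfl, hL⟩
    refine ⟨M, hM, rfl, ?_⟩
    rw [val_eq hM.2.1] at hL
    rw [Real.exp_sub, Real.exp_log hmΦ, le_div_iff₀ hmΦ]
    exact (mul_le_mul_of_nonneg_left (hΦ M hM.2.2).1
      (GG_nonneg hk0 hki hθ h₀ (gen_toR hM.2.1))).trans hL
  set F : ℝ → ℝ := fun L => ((PTq H (Real.exp L)).ncard : ℝ) / (Real.exp L * L ^ (k + m')) with hF
  -- convergence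
  obtain ⟨c, hc⟩ : ∃ c, Tendsto F atTop (𝓝 c) := by
    refine sqz fun ε hε hε1 => ?_
    obtain ⟨Q, hQ, hap⟩ := exists_Q hk0 S h hε
    have : NeZero Q := ⟨hQ.ne'⟩
    set T : Finset (Set (Matrix (Fin k) ι (ZMod Q))) := univ.image (Orb Q) with hT
    have hTO : ∀ O ∈ T, ∃ R, O = Orb Q R := by
      intro O hO
      rw [hT, mem_image] at hO
      obtain ⟨R, -, hR⟩ := hO
      exact ⟨R, hR.symm⟩
    have hTinv : ∀ O ∈ T, InvS Q O := by
      intro O hO
      obtain ⟨R, rfl⟩ := hTO O hO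
      exact Orb_inv Q R
    have hv : ∀ O : Set (Matrix (Fin k) ι (ZMod Q)), ∃ v : ℝ, O ∈ T →
        ∀ M, ARI θ Q O M → |Real.log (PhP S φ M) - v| ≤ ε := by
      intro O
      by_cases hex : ∃ M, ARI θ Q O M
      · obtain ⟨M₁, hM₁⟩ := hex
        refine ⟨Real.log (PhP S φ M₁), fun hO M hM => ?_⟩
        obtain ⟨R, rfl⟩ := hTO O hO
        refine hap M M₁ hM.2.2 hM₁.2.2 ?_
        rw [Orb_eq hM.1]
        exact hM₁.1
      · exact ⟨0, fun _ M hM => absurd ⟨M, hM⟩ hex⟩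
    choose v hv using hv
    have hcO : ∀ O : Set (Matrix (Fin k) ι (ZMod Q)), ∃ c : ℝ, 0 ≤ c ∧ (O ∈ T →
        Tendsto (fun L : ℝ => ((CNT θ Q O (GG φ₀) L).ncard : ℝ) / (Real.exp L * L ^ (k + m')))
          atTop (𝓝 c)) := by
      intro O
      by_cases hO : O ∈ T
      · obtain ⟨c, h1, -, h2⟩ := arch_count hk hm h5 hι hθ h₀ hQ (hTinv O hO)
        exact ⟨c, h1, fun _ => h2⟩
      · exact ⟨0, le_rfl, fun h => absurd h hO⟩
    choose cO hcO0 hcO using hcO
    have hlim : ∀ s : ℝ, Tendsto (fun L : ℝ => ∑ O ∈ T,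
        ((CNT θ Q O (GG φ₀) (L + (s - v O))).ncard : ℝ) / (Real.exp L * L ^ (k + m'))) atTop
          (𝓝 (Real.exp s * ∑ O ∈ T, cO O * Real.exp (-(v O)))) := by
      intro s
      have h1 := tendsto_finsetSum T fun O hO => shift (hcO O hO) (s - v O)
      have h2 : ∑ O ∈ T, cO O * Real.exp (s - v O) =
          Real.exp s * ∑ O ∈ T, cO O * Real.exp (-(v O)) := by
        rw [mul_sum]
        refine sum_congr rfl fun O _ => ?_
        rw [sub_eq_add_neg, Real.exp_add]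
        ring
      rw [h2] at h1
      exact h1
    refine ⟨∑ O ∈ T, cO O * Real.exp (-(v O)), _, _, ?_, hlim (-ε), hlim ε, ?_⟩
    · exact sum_nonneg fun O _ => mul_nonneg (hcO0 O) (Real.exp_pos _).le
    filter_upwards [eventually_gt_atTop (0 : ℝ)] with L hL
    have hden : 0 < Real.exp L * L ^ (k + m') := by positivity
    -- the two inclusions
    have hin1 : ∀ O ∈ T, CNT θ Q O (GG φ₀) (L + (-ε - v O)) ⊆ XO θ H Q O (Real.exp L) := by
      rintro O hO _ ⟨M, hM, rfl, hL⟩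
      refine ⟨M, hM, rfl, ?_⟩
      rw [val_eq hM.2.1]
      have h1 := hv O hO M hM
      have h2 : PhP S φ M ≤ Real.exp (v O + ε) := by
        rw [← Real.exp_log (PhP_pos hk0 h hM.2.2)]
        refine Real.exp_le_exp.2 ?_
        linarith [(abs_le.1 h1).2]
      calc GG φ₀ (toR M) * PhP S φ M ≤ Real.exp (L + (-ε - v O)) * Real.exp (v O + ε) :=
            mul_le_mul hL h2 (PhP_pos hk0 h hM.2.2).le (Real.exp_pos _).le
        _ = Real.exp L := by
            rw [← Real.exp_add]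
            congr 1
            ring
    have hin2 : ∀ O ∈ T, XO θ H Q O (Real.exp L) ⊆ CNT θ Q O (GG φ₀) (L + (ε - v O)) := by
      rintro O hO _ ⟨M, hM, rfl, hL⟩
      refine ⟨M, hM, rfl, ?_⟩
      rw [val_eq hM.2.1] at hL
      have h1 := hv O hO M hM
      have h2 : Real.exp (v O - ε) ≤ PhP S φ M := by
        rw [← Real.exp_log (PhP_pos hk0 h hM.2.2)]
        refine Real.exp_le_exp.2 ?_
        linarith [(abs_le.1 h1).1]
      have h3 : GG φ₀ (toR M) * Real.exp (v O - ε) ≤ Real.exp L :=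
        (mul_le_mul_of_nonneg_left h2 (GG_nonneg hk0 hki hθ h₀ (gen_toR hM.2.1))).trans hL
      rw [← le_div_iff₀ (Real.exp_pos _), ← Real.exp_sub] at h3
      refine h3.trans (Real.exp_le_exp.2 (le_of_eq ?_))
      ring
    have hXO : ∀ O, XO θ H Q O (Real.exp L) ⊆ PTq H (Real.exp L) := by
      intro O
      rw [hPT Q]
      rintro _ ⟨M, hM, rfl, hL⟩
      exact ⟨M, ⟨trivial, hM.2⟩, rfl, hL⟩
    have hcov : PTq H (Real.exp L) ⊆ ⋃ O ∈ T, XO θ H Q O (Real.exp L) := by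
      rw [hPT Q]
      rintro _ ⟨M, hM, rfl, hL⟩
      rw [Set.mem_iUnion₂]
      exact ⟨Orb Q (red Q M), mem_image_of_mem _ (mem_univ _), M, ⟨Orb_self Q _, hM.2⟩, rfl, hL⟩
    have hdis : ∀ O ∈ T, ∀ O' ∈ T, O ≠ O' → Disjoint (CNT θ Q O (GG φ₀) (L + (-ε - v O)))
        (CNT θ Q O' (GG φ₀) (L + (-ε - v O'))) := by
      intro O hO O' hO' hne
      rw [Set.disjoint_left]
      rintro _ ⟨M, hM, rfl, -⟩ ⟨M', hM', hc, -⟩
      apply hne
      obtain ⟨g, e, h1, h2, h3⟩ := uniq (by omega) hθ hM.2.2 hM'.2.2 (cls_eq hc)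
      have h4 : ARI θ Q O M' := ARI_eqv (hTinv O hO) ⟨g, e, h1, h2, h3⟩ hM
      obtain ⟨R, rfl⟩ := hTO O hO
      obtain ⟨R', rfl⟩ := hTO O' hO'
      rw [← Orb_eq h4.1, ← Orb_eq hM'.1]
    constructor
    · have h1 : ∑ O ∈ T, (CNT θ Q O (GG φ₀) (L + (-ε - v O))).ncard ≤
          (PTq H (Real.exp L)).ncard :=
        card_disj T _ _ hdis (fun O hO => (hin1 O hO).trans (hXO O)) (hfin L)
      rw [hF]
      simp only
      rw [← sum_div]
      refine div_le_div_of_nonneg_right ?_ hden.le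
      exact_mod_cast h1
    · have h1 : (PTq H (Real.exp L)).ncard ≤ ∑ O ∈ T, (XO θ H Q O (Real.exp L)).ncard :=
        ncard_biU T _ _ hcov fun O _ => (hfin L).subset (hXO O)
      have h2 : ∑ O ∈ T, (XO θ H Q O (Real.exp L)).ncard ≤
          ∑ O ∈ T, (CNT θ Q O (GG φ₀) (L + (ε - v O))).ncard :=
        sum_le_sum fun O hO => Set.ncard_le_ncard (hin2 O hO)
          (CNT_fin hk hm hι hθ h₀ Q O _)
      rw [hF]
      simp only
      rw [← sum_div]
      refine div_le_div_of_nonneg_right ?_ hden.le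
      exact_mod_cast h1.trans h2
  -- positivity
  have hpos : 0 < c := by
    have hne : Nonempty ι := Fintype.card_pos_iff.1 (by omega)
    obtain ⟨o⟩ := hne
    have hwo := adm_wo hk0 hki o
    obtain ⟨c₀, -, hc₀, hlim⟩ := arch_count hk hm h5 hι hwo
      (lf_one (k := k) (wo k o) (K := ℝ)) (Q := 1) one_pos (O := Set.univ)
      (fun g ε _ _ R _ => trivial)
    have hc₀' := hc₀ ⟨o, mkd_wo o⟩ rfl rfl
    set K₀ : ℝ := c₂ * MΦ with hK₀
    have hK₀0 : 0 < K₀ := by positivity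
    have hHK : ∀ V : Matrix (Fin k) ι ℚ, Gen V → H V ≤ K₀ ∧ 0 < H V := by
      intro V hV
      obtain ⟨M₀, hM₀, h1⟩ := exists_int hV
      obtain ⟨M, hM, h2, h3⟩ := exists_stab hk0 hki hθ hM₀
      have h4 := h1.trans h2
      have h6 := h₀.pos (toR M) (sst_of_gen hk0 hki hθ (gen_toR hM))
      have h7 := PhP_pos hk0 h h3
      rw [hH, ← hrel V _ hV h4, HH_toQ]
      exact ⟨mul_le_mul (hb _ (gen_toR hM)).2 (hΦ M h3).2 h7.le hc₂.le, mul_pos h6 h7⟩
    have h1 := shift hlim (-Real.log K₀)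
    have h2 : 0 < c₀ * Real.exp (-Real.log K₀) := mul_pos hc₀' (Real.exp_pos _)
    refine lt_of_lt_of_le h2 (le_of_tendsto_of_tendsto h1 hc ?_)
    filter_upwards [eventually_gt_atTop (0 : ℝ)] with L hL
    refine div_le_div_of_nonneg_right ?_ (by positivity)
    refine Nat.cast_le.2 (Set.ncard_le_ncard ?_ (hfin L))
    rintro _ ⟨M, hM, rfl, hML⟩
    have hV : Gen (toQ M) := by
      intro f hf
      rw [toQ_mnr]
      exact_mod_cast hM.2.1 f hf
    refine ⟨toQ M, hV, rfl, ?_⟩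
    rw [GG_gen (gen_toR hM.2.1), mul_one, ← hq_int hk0 hki hwo hM.2.2] at hML
    have h3 : Real.exp (L + -Real.log K₀) = Real.exp L / K₀ := by
      rw [Real.exp_add, Real.exp_neg, Real.exp_log hK₀0]
      rfl
    rw [h3, le_div_iff₀ hK₀0] at hML
    refine le_trans ?_ hML
    refine mul_le_mul_of_nonneg_left (hHK _ hV).1 ?_
    rw [hq_int hk0 hki hwo hM.2.2]
    exact std_nonneg _
  refine ⟨c, hpos, ?_⟩
  refine (hc.comp Real.tendsto_log_atTop).congr' ?_
  filter_upwards [eventually_gt_atTop (0 : ℝ)] with B hB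
  simp only [hF, Function.comp_apply]
  rw [Real.exp_log hB]

end

end Run7.h3.PM
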