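import Pool.Agent.Run7.h3.PM.Lnb

set_option autoImplicit false
set_option linter.unusedSectionVars false
set_option linter.unusedVariables false

/-! The number of the matrices in a box which are unstable modulo some large prime, for one
basis matrix. -/

namespace Run7.h3.PM

open Finset Module Filter Topology Run7.h3.GT

/-- instability modulo `p` -/
def Uns {ι : Type} (θ : ι → ℕ) (p : ℕ) {k : ℕ} [Fintype ι] (M : Matrix (Fin k) ι ℤ) : Prop :=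
  ∃ h : p.Prime, haveI : Fact p.Prime := ⟨h⟩; ¬ Sst θ (red p M)

/-- all the minors are nonzero -/
def Gnr {k : ℕ} {ι : Type} (M : Matrix (Fin k) ι ℤ) : Prop :=
  ∀ f : Fin k → ι, Function.Injective f → mnr M f ≠ 0

/-- a kernel vector with a zero coordinate -/
def Ker0 (p : ℕ) {k : ℕ} (V : Matrix (Fin k) (Fin k) ℤ) : Prop :=
  ∃ u : Fin k → ZMod p, u ≠ 0 ∧ (red p V).mulVec u = 0 ∧ ∃ i, u i = 0

section

variable {k m : ℕ}

/-- the pairs of minors -/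
abbrev Evt (k m : ℕ) := (Fin k → Fin k ⊕ Fin m) × (Fin k × Fin k) × (Fin k × Fin k) × (Fin m × Fin m)

/-- the admissible pairs of minors -/
def Evt.ok (e : Evt k m) : Prop :=
  e.1 e.2.1.1 = Sum.inl e.2.2.1.1 ∧ e.1 e.2.1.2 = Sum.inl e.2.2.1.2 ∧
    (∀ l, e.1 l ≠ Sum.inr e.2.2.2.1) ∧ (∀ l, e.1 l ≠ Sum.inr e.2.2.2.2) ∧
    (e.2.1.1, e.2.2.2.1) ≠ (e.2.1.2, e.2.2.2.2)

/-- the first minor -/
def Evt.d1 (e : Evt k m) (M : Matrix (Fin k) (Fin k ⊕ Fin m) ℤ) : ℤ :=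
  mnr M (Function.update e.1 e.2.1.1 (Sum.inr e.2.2.2.1))

/-- the second minor -/
def Evt.d2 (e : Evt k m) (M : Matrix (Fin k) (Fin k ⊕ Fin m) ℤ) : ℤ :=
  mnr M (Function.update e.1 e.2.1.2 (Sum.inr e.2.2.2.2))

theorem mnr_inl (V : Matrix (Fin k) (Fin k) ℤ) (Z : Fin m → Fin k → ℤ) :
    mnr (MM V Z) Sum.inl = V.det := rfl

theorem red_dvd (p : ℕ) {ι : Type} (M : Matrix (Fin k) ι ℤ) (f : Fin k → ι) :
    mnr (red p M) f = 0 ↔ (p : ℤ) ∣ mnr M f := by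
  rw [red_mnr, ZMod.intCast_zmod_eq_zero_iff_dvd]

/-- the decomposition -/
theorem bad_cases {θ : Fin k ⊕ Fin m → ℕ} (hk : 2 ≤ k) (hm : 2 ≤ m) (h5 : 5 ≤ k + m)
    (hθ : Adm k θ) (V : Matrix (Fin k) (Fin k) ℤ) (Z : Fin m → Fin k → ℤ)
    {p : ℕ} (hp : p.Prime) (hu : Uns θ p (MM V Z)) :
    (¬ (p : ℤ) ∣ V.det ∧ ∃ e : Evt k m, e.ok ∧ ¬ (p : ℤ) ∣ mnr (MM V Z) e.1 ∧
      (p : ℤ) ∣ e.d1 (MM V Z) ∧ (p : ℤ) ∣ e.d2 (MM V Z)) ∨
    ((p : ℤ) ∣ V.det ∧ Ker0 p V) ∨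
    ((p : ℤ) ∣ V.det ∧ (∀ u : Fin k → ZMod p, (red p V).mulVec u = 0 → u ≠ 0 → ∀ i, u i ≠ 0) ∧
      ∃ (j : Fin m) (T : Set (Fin k ⊕ Fin m)), T.ncard < k ∧ Sum.inr j ∉ T ∧
        (haveI : Fact p.Prime := ⟨hp⟩; (red p (MM V Z)).col (Sum.inr j) ∈
          Submodule.span (ZMod p) ((red p (MM V Z)).col '' T))) := by
  have : Fact p.Prime := ⟨hp⟩
  obtain ⟨_, hu⟩ := hu
  by_cases hD : (p : ℤ) ∣ V.det
  · right
    by_cases hK : Ker0 p V
    · exact Or.inl ⟨hD, hK⟩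
    · right
      have hker : ∀ u : Fin k → ZMod p, (red p V).mulVec u = 0 → u ≠ 0 → ∀ i, u i ≠ 0 := by
        intro u h1 h2 i h3
        exact hK ⟨u, h2, h1, i, h3⟩
      refine ⟨hD, hker, unst_sing hk hm h5 hθ (M := red p (MM V Z)) hker hu⟩
  · left
    refine ⟨hD, ?_⟩
    have h1 : mnr (red p (MM V Z)) Sum.inl ≠ 0 := by
      rw [ne_eq, red_dvd, mnr_inl]
      exact hD
    obtain ⟨f, l₁, l₂, i₁, i₂, j₁, j₂, g1, g2, g3, g4, g5, g6, g7, g8⟩ := unst_unit hk hm h5 hθ h1 hu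
    rw [ne_eq, red_dvd] at g1
    rw [red_dvd] at g7 g8
    exact ⟨(f, (l₁, l₂), (i₁, i₂), (j₁, j₂)), ⟨g2, g3, g4, g5, g6⟩, g1, g7, g8⟩

theorem update_inj {f : Fin k → Fin k ⊕ Fin m} (hf : Function.Injective f) {l : Fin k} {j : Fin m}
    (hj : ∀ l, f l ≠ Sum.inr j) : Function.Injective (Function.update f l (Sum.inr j)) := by
  intro a b hab
  by_cases ha : a = l
  · by_cases hb : b = l
    · rw [ha, hb]
    · rw [ha, Function.update_self, Function.update_of_ne hb] at hab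
      exact absurd hab.symm (hj b)
  · by_cases hb : b = l
    · rw [hb, Function.update_self, Function.update_of_ne ha] at hab
      exact absurd hab (hj a)
    · rw [Function.update_of_ne ha, Function.update_of_ne hb] at hab
      exact hf hab

open Classical in
/-- the number of the unstable matrices -/
theorem bad_N {θ : Fin k ⊕ Fin m → ℕ} (hk : 2 ≤ k) (hm : 2 ≤ m) (h5 : 5 ≤ k + m)
    (hθ : Adm k θ) : ∃ K : ℝ, 0 < K ∧
    ∀ (V : Matrix (Fin k) (Fin k) ℤ) (hV : V.det ≠ 0) (Q : ℕ) (hQ : 0 < Q)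
      (Z₀ : Fin m → Fin k → ℤ) (a b : Fin k → Fin m → ℝ) (lam : ℕ) (hlam : 2 ≤ lam)
      (hl : ∀ i j, lam ≤ ⌊(b i j - a i j) / Q⌋₊) (A : ℕ)
      (hA : ∀ Z ∈ BX V Q Z₀ a b, ∀ g, (mnr (MM V Z) g).natAbs ≤ lam ^ A)
      (hD : V.det.natAbs ≤ lam ^ A) (z : ℕ) (hz : 1 ≤ z),
      ({Z ∈ BX V Q Z₀ a b | Gnr (MM V Z) ∧ ∃ p : ℕ, z < p ∧ ¬ p ∣ Q ∧ Uns θ p (MM V Z)}.ncard : ℝ) ≤
        (K / z + K * A / lam + K * ∑ p ∈ (Finset.Ioc z lam).filter (fun p : ℕ => p.Prime ∧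
          (p : ℤ) ∣ V.det ∧ ¬ p ∣ Q), (1 : ℝ) / p +
          (if ∃ p : ℕ, p.Prime ∧ z < p ∧ ¬ p ∣ Q ∧ (p : ℤ) ∣ V.det ∧ Ker0 p V then 1 else 0)) *
          (CC V Q a b : ℝ) := by
  set nE : ℝ := (Fintype.card (Evt k m) : ℝ) with hnE
  set nT : ℝ := (Fintype.card (Fin m × Set (Fin k ⊕ Fin m)) : ℝ) with hnT
  have hnE0 : 0 ≤ nE := Nat.cast_nonneg _
  have hnT0 : 0 ≤ nT := Nat.cast_nonneg _
  refine ⟨9 * nE + (3 * k + 1) * nT + 1, by positivity, ?_⟩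
  intro V hV Q hQ Z₀ a b lam hlam hl A hA hD z hz
  have hlam1 : 1 ≤ lam := by omega
  have hlam' : (0 : ℝ) < lam := by
    have : 0 < lam := by omega
    exact_mod_cast this
  have hz' : (0 : ℝ) < z := by exact_mod_cast hz
  have hfin := BX_fin hV hQ Z₀ a b
  set B := BX V Q Z₀ a b with hB
  set C : ℝ := (CC V Q a b : ℝ) with hC
  have hC0 : 0 ≤ C := Nat.cast_nonneg _
  have hBC : (B.ncard : ℝ) ≤ C := by
    rw [hC, hB]
    exact Nat.cast_le.2 (BX_le hV hQ Z₀ a b)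
  -- the sets
  set S1 : ℕ × Evt k m → Set (Fin m → Fin k → ℤ) := fun x => {Z ∈ B |
    ¬ (x.1 : ℤ) ∣ mnr (MM V Z) x.2.1 ∧ (x.1 : ℤ) ∣ x.2.d1 (MM V Z) ∧ (x.1 : ℤ) ∣ x.2.d2 (MM V Z)}
    with hS1
  set S2 : Evt k m → Set (Fin m → Fin k → ℤ) := fun e => {Z ∈ B | e.d2 (MM V Z) ≠ 0 ∧
      ∃ p : ℕ, p.Prime ∧ lam < p ∧ ¬ p ∣ Q ∧ ¬ (p : ℤ) ∣ mnr (MM V Z) e.1 ∧
      (p : ℤ) ∣ e.d1 (MM V Z) ∧ (p : ℤ) ∣ e.d2 (MM V Z)} with hS2
  set S3 : ℕ × (Fin m × Set (Fin k ⊕ Fin m)) → Set (Fin m → Fin k → ℤ) := fun x => {Z ∈ B |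
    ∃ h : x.1.Prime, haveI : Fact x.1.Prime := ⟨h⟩; (red x.1 (MM V Z)).col (Sum.inr x.2.1) ∈
      Submodule.span (ZMod x.1) ((red x.1 (MM V Z)).col '' x.2.2)} with hS3
  set I1 : Finset (ℕ × Evt k m) := (Finset.Ioc z lam ×ˢ univ).filter fun x => x.1.Prime ∧
    ¬ x.1 ∣ Q ∧ x.2.ok with hI1
  set I2 : Finset (Evt k m) := univ.filter fun e => e.ok with hI2
  set I3 : Finset (ℕ × (Fin m × Set (Fin k ⊕ Fin m))) :=
    (V.det.natAbs.primeFactors ×ˢ univ).filter fun x => z < x.1 ∧ ¬ x.1 ∣ Q ∧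
      (∀ u : Fin k → ZMod x.1, (red x.1 V).mulVec u = 0 → u ≠ 0 → ∀ i, u i ≠ 0) ∧
      x.2.2.ncard < k ∧ Sum.inr x.2.1 ∉ x.2.2 with hI3
  set S4 : Set (Fin m → Fin k → ℤ) := if ∃ p : ℕ, p.Prime ∧ z < p ∧ ¬ p ∣ Q ∧ (p : ℤ) ∣ V.det ∧
    Ker0 p V then B else ∅ with hS4
  have hsub : {Z ∈ B | Gnr (MM V Z) ∧ ∃ p : ℕ, z < p ∧ ¬ p ∣ Q ∧ Uns θ p (MM V Z)} ⊆
      ((⋃ x ∈ I1, S1 x) ∪ (⋃ e ∈ I2, S2 e)) ∪ ((⋃ x ∈ I3, S3 x) ∪ S4) := by
    rintro Z ⟨hZ, hG, p, hp1, hp2, hp3⟩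
    have hp : p.Prime := hp3.1
    rcases bad_cases hk hm h5 hθ V Z hp hp3 with ⟨h1, e, he, h2, h3, h4⟩ | ⟨h1, h2⟩ | ⟨h1, h2, j, T, h3, h4, h5⟩
    · left
      rcases le_or_gt p lam with hpl | hpl
      · left
        rw [Set.mem_iUnion₂]
        refine ⟨(p, e), ?_, hZ, h2, h3, h4⟩
        rw [hI1, mem_filter, mem_product, Finset.mem_Ioc]
        exact ⟨⟨⟨hp1, hpl⟩, mem_univ _⟩, hp, hp2, he⟩
      · right
        rw [Set.mem_iUnion₂]
        refine ⟨e, mem_filter.2 ⟨mem_univ _, he⟩, hZ, ?_, p, hp, hpl, hp2, h2, h3, h4⟩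
        refine hG _ (update_inj ?_ he.2.2.2.1)
        by_contra hni
        apply h2
        rw [mnr_zero _ _ hni]
        exact dvd_zero _
    · right
      right
      rw [hS4, if_pos ⟨p, hp, hp1, hp2, h1, h2⟩]
      exact hZ
    · right
      left
      rw [Set.mem_iUnion₂]
      refine ⟨(p, (j, T)), ?_, hZ, hp, h5⟩
      rw [hI3, mem_filter, mem_product, Nat.mem_primeFactors]
      exact ⟨⟨⟨hp, Int.natCast_dvd.1 h1, Int.natAbs_ne_zero.2 hV⟩, mem_univ _⟩, hp1, hp2, h2, h3, h4⟩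
  -- the bounds
  have f1 : ∀ x, (S1 x).Finite := fun x => hfin.subset (Set.sep_subset _ _)
  have f2 : ∀ x, (S2 x).Finite := fun x => hfin.subset (Set.sep_subset _ _)
  have f3 : ∀ x, (S3 x).Finite := fun x => hfin.subset (Set.sep_subset _ _)
  have f4 : S4.Finite := by
    rw [hS4]
    split_ifs
    · exact hfin
    · exact Set.finite_empty
  have g1 := ncard_biU I1 S1 _ subset_rfl fun x _ => f1 x
  have g2 := ncard_biU I2 S2 _ subset_rfl fun x _ => f2 x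
  have g3 := ncard_biU I3 S3 _ subset_rfl fun x _ => f3 x
  have u1 : (⋃ x ∈ I1, S1 x).Finite := Set.Finite.biUnion (Finset.finite_toSet I1) fun x _ => f1 x
  have u2 : (⋃ x ∈ I2, S2 x).Finite := Set.Finite.biUnion (Finset.finite_toSet I2) fun x _ => f2 x
  have u3 : (⋃ x ∈ I3, S3 x).Finite := Set.Finite.biUnion (Finset.finite_toSet I3) fun x _ => f3 x
  have hN : {Z ∈ B | Gnr (MM V Z) ∧ ∃ p : ℕ, z < p ∧ ¬ p ∣ Q ∧ Uns θ p (MM V Z)}.ncard ≤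
      (∑ x ∈ I1, (S1 x).ncard + ∑ e ∈ I2, (S2 e).ncard) + (∑ x ∈ I3, (S3 x).ncard + S4.ncard) := by
    refine (Set.ncard_le_ncard hsub ((u1.union u2).union (u3.union f4))).trans ?_
    refine (Set.ncard_union_le _ _).trans (Nat.add_le_add ?_ ?_)
    · exact (Set.ncard_union_le _ _).trans (Nat.add_le_add g1 g2)
    · exact (Set.ncard_union_le _ _).trans (Nat.add_le_add_right g3 _)
  have hNr : ({Z ∈ B | Gnr (MM V Z) ∧ ∃ p : ℕ, z < p ∧ ¬ p ∣ Q ∧ Uns θ p (MM V Z)}.ncard : ℝ) ≤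
      (∑ x ∈ I1, ((S1 x).ncard : ℝ) + ∑ e ∈ I2, ((S2 e).ncard : ℝ)) +
        (∑ x ∈ I3, ((S3 x).ncard : ℝ) + (S4.ncard : ℝ)) := by exact_mod_cast hN
  refine hNr.trans ?_
  -- first
  have b1 : ∑ x ∈ I1, ((S1 x).ncard : ℝ) ≤ 9 * nE / z * C := by
    have h1 : ∀ x ∈ I1, ((S1 x).ncard : ℝ) ≤ 9 * ((x.1 : ℝ) ^ 2)⁻¹ * C := by
      rintro ⟨p, e⟩ hx
      rw [hI1, mem_filter, mem_product, Finset.mem_Ioc] at hx
      obtain ⟨⟨⟨hx1, hx2⟩, -⟩, hp, hpQ, he⟩ := hx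
      simp only at hx1 hx2 hp hpQ he
      have hp0 : (0 : ℝ) < p := by exact_mod_cast hp.pos
      have hpl : (p : ℝ) ≤ lam := by exact_mod_cast hx2
      have h2 := two_small hV hQ Z₀ a b hlam1 hl hp hpQ he.1 he.2.1 he.2.2.1 he.2.2.2.1 he.2.2.2.2
      have h3 : (2 / p + 1 / lam : ℝ) ^ 2 ≤ 9 * ((p : ℝ) ^ 2)⁻¹ := by
        have h4 : (2 / p + 1 / lam : ℝ) ≤ 3 / p := by
          have : (1 : ℝ) / lam ≤ 1 / p := one_div_le_one_div_of_le hp0 hpl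
          calc (2 / p + 1 / lam : ℝ) ≤ 2 / p + 1 / p := by linarith
            _ = 3 / p := by ring
        calc (2 / p + 1 / lam : ℝ) ^ 2 ≤ (3 / p) ^ 2 := pow_le_pow_left₀ (by positivity) h4 2
          _ = _ := by
              rw [div_pow, ← div_eq_mul_inv]
              norm_num
      calc ((S1 (p, e)).ncard : ℝ) ≤ (2 / p + 1 / lam) ^ 2 * (B.ncard : ℝ) := h2
        _ ≤ (9 * ((p : ℝ) ^ 2)⁻¹) * C := by gcongr
    refine (sum_le_sum h1).trans ?_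
    have h2 : ∑ x ∈ I1, 9 * ((x.1 : ℝ) ^ 2)⁻¹ * C ≤
        ∑ x ∈ Finset.Ioc z lam ×ˢ (univ : Finset (Evt k m)), 9 * ((x.1 : ℝ) ^ 2)⁻¹ * C :=
      sum_le_sum_of_subset_of_nonneg (filter_subset _ _) fun _ _ _ => by positivity
    refine h2.trans ?_
    rw [sum_product]
    have h3 : ∀ p ∈ Finset.Ioc z lam, ∑ e : Evt k m, 9 * ((p : ℝ) ^ 2)⁻¹ * C =
        9 * nE * C * ((p : ℝ) ^ 2)⁻¹ := by
      intro p _
      rw [sum_const, card_univ, nsmul_eq_mul]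
      ring
    rw [sum_congr rfl h3, ← mul_sum]
    have h4 : ∑ p ∈ Finset.Ioc z lam, ((p : ℝ) ^ 2)⁻¹ ≤ 1 / z := by
      rcases le_or_gt z lam with hzl | hzl
      · refine (sum_Ioc_inv_sq_le_sub (by omega) hzl).trans ?_
        rw [one_div]
        have : (0 : ℝ) ≤ (lam : ℝ)⁻¹ := by positivity
        linarith
      · rw [Finset.Ioc_eq_empty (by omega), sum_empty]
        positivity
    calc 9 * nE * C * ∑ p ∈ Finset.Ioc z lam, ((p : ℝ) ^ 2)⁻¹ ≤ 9 * nE * C * (1 / z) := by gcongr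
      _ = _ := by ring
  -- second
  have b2 : ∑ e ∈ I2, ((S2 e).ncard : ℝ) ≤ 3 * nE * A / lam * C := by
    have h1 : ∀ e ∈ I2, ((S2 e).ncard : ℝ) ≤ A * (3 / lam) * C := by
      intro e he
      have he := (mem_filter.1 he).2
      refine (two_large hV hQ Z₀ a b hlam hl (A := A) he.1 he.2.2.1 he.2.2.2.2
        (fun Z hZ => hA Z hZ _)).trans ?_
      exact mul_le_mul_of_nonneg_left hBC (by positivity)
    refine (sum_le_sum h1).trans ?_
    rw [sum_const, nsmul_eq_mul]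
    have h2 : (I2.card : ℝ) ≤ nE := by
      rw [hnE]
      exact_mod_cast card_le_univ I2
    calc (I2.card : ℝ) * (A * (3 / lam) * C) ≤ nE * (A * (3 / lam) * C) :=
          mul_le_mul_of_nonneg_right h2 (by positivity)
      _ = _ := by ring
  -- third
  have b3 : ∑ x ∈ I3, ((S3 x).ncard : ℝ) ≤ ((3 * k + 1) * nT * A / lam + (3 * k + 1) * nT *
      ∑ p ∈ (Finset.Ioc z lam).filter (fun p : ℕ => p.Prime ∧
          (p : ℤ) ∣ V.det ∧ ¬ p ∣ Q), (1 : ℝ) / p) * C := by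
    have h1 : ∀ x ∈ I3, ((S3 x).ncard : ℝ) ≤
        (3 * k + 1) * (if x.1 ≤ lam then (1 : ℝ) / x.1 else 1 / lam) * C := by
      rintro ⟨p, j, T⟩ hx
      rw [hI3, mem_filter, mem_product, Nat.mem_primeFactors] at hx
      obtain ⟨⟨⟨hp, hpD, -⟩, -⟩, hx1, hx2, hx3, hx4, hx5⟩ := hx
      simp only at hp hpD hx1 hx2 hx3 hx4 hx5
      have hp0 : (0 : ℝ) < p := by exact_mod_cast hp.pos
      have h2 := sing_event hk hV hQ Z₀ a b hlam1 hl hp hx2 (Int.natCast_dvd.2 hpD) hx3 hx4 hx5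
      have h3 : S3 (p, j, T) = {Z ∈ BX V Q Z₀ a b | haveI : Fact p.Prime := ⟨hp⟩;
          (red p (MM V Z)).col (Sum.inr j) ∈
          Submodule.span (ZMod p) ((red p (MM V Z)).col '' T)} := by
        ext Z
        constructor
        · rintro ⟨g1, _, g2⟩
          exact ⟨g1, g2⟩
        · rintro ⟨g1, g2⟩
          exact ⟨g1, hp, g2⟩
      rw [h3]
      refine h2.trans (mul_le_mul_of_nonneg_right ?_ hC0)
      simp only
      split_ifs with hpl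
      · have hpl' : (p : ℝ) ≤ lam := by exact_mod_cast hpl
        have h4 : (1 : ℝ) / lam ≤ 1 / p := one_div_le_one_div_of_le hp0 hpl'
        have h5 : (2 : ℝ) / p = 2 * (1 / p) := by ring
        rw [h5]
        nlinarith [show (0 : ℝ) ≤ k from Nat.cast_nonneg k]
      · have hpl' : (lam : ℝ) ≤ p := by
          have : lam ≤ p := by omega
          exact_mod_cast this
        have h4 : (1 : ℝ) / p ≤ 1 / lam := one_div_le_one_div_of_le hlam' hpl'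
        have h5 : (2 : ℝ) / p = 2 * (1 / p) := by ring
        rw [h5]
        nlinarith [show (0 : ℝ) ≤ k from Nat.cast_nonneg k]
    refine (sum_le_sum h1).trans ?_
    set PF := V.det.natAbs.primeFactors.filter fun p => z < p ∧ ¬ p ∣ Q with hPF
    have h2 : ∑ x ∈ I3, (3 * k + 1) * (if x.1 ≤ lam then (1 : ℝ) / x.1 else 1 / lam) * C ≤
        ∑ x ∈ PF ×ˢ (univ : Finset (Fin m × Set (Fin k ⊕ Fin m))),
          (3 * k + 1) * (if x.1 ≤ lam then (1 : ℝ) / x.1 else 1 / lam) * C := by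
      refine sum_le_sum_of_subset_of_nonneg ?_ fun _ _ _ => ?_
      · intro x hx
        rw [hI3, mem_filter, mem_product] at hx
        rw [mem_product, hPF, mem_filter]
        exact ⟨⟨hx.1.1, hx.2.1, hx.2.2.1⟩, mem_univ _⟩
      · split_ifs <;> positivity
    refine h2.trans ?_
    rw [sum_product]
    have h3 : ∀ p ∈ PF, ∑ x : Fin m × Set (Fin k ⊕ Fin m),
        (3 * (k : ℝ) + 1) * (if p ≤ lam then (1 : ℝ) / p else 1 / lam) * C =
        ((3 * k + 1) * nT * C) * (if p ≤ lam then (1 : ℝ) / p else 1 / lam) := by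
      intro p _
      rw [sum_const, card_univ, nsmul_eq_mul]
      ring
    simp only
    rw [sum_congr rfl h3, ← mul_sum]
    have h4 : ∑ p ∈ PF, (if p ≤ lam then (1 : ℝ) / p else 1 / lam) ≤
        A / lam + ∑ p ∈ (Finset.Ioc z lam).filter (fun p : ℕ => p.Prime ∧
          (p : ℤ) ∣ V.det ∧ ¬ p ∣ Q), (1 : ℝ) / p := by
      rw [← sum_filter_add_sum_filter_not PF (fun p => p ≤ lam), add_comm]
      refine add_le_add ?_ ?_
      · rw [sum_congr rfl (g := fun _ => (1 : ℝ) / lam) fun p hp => if_neg (mem_filter.1 hp).2,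
          sum_const, nsmul_eq_mul]
        have h5 : ((PF.filter fun p => ¬ p ≤ lam).card : ℝ) ≤ A := by
          have h6 := card_primes hlam (Int.natAbs_ne_zero.2 hV) hD
          have h7 : (PF.filter fun p => ¬ p ≤ lam) ⊆ V.det.natAbs.primeFactors.filter
              fun p => lam < p := by
            intro p hp
            rw [mem_filter, hPF, mem_filter] at hp
            exact mem_filter.2 ⟨hp.1.1, not_le.1 hp.2⟩
          exact_mod_cast (card_le_card h7).trans h6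
        rw [mul_one_div]
        exact div_le_div_of_nonneg_right h5 hlam'.le
      · rw [sum_congr rfl (g := fun p : ℕ => (1 : ℝ) / p) fun p hp => if_pos (mem_filter.1 hp).2]
        refine sum_le_sum_of_subset_of_nonneg ?_ fun _ _ _ => by positivity
        intro p hp
        rw [mem_filter, hPF, mem_filter, Nat.mem_primeFactors] at hp
        rw [mem_filter, Finset.mem_Ioc]
        exact ⟨⟨hp.1.2.1, hp.2⟩, hp.1.1.1, Int.natCast_dvd.2 hp.1.1.2.1, hp.1.2.2⟩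
    calc (3 * k + 1) * nT * C * ∑ p ∈ PF, (if p ≤ lam then (1 : ℝ) / p else 1 / lam) ≤
        (3 * k + 1) * nT * C * (A / lam + ∑ p ∈ (Finset.Ioc z lam).filter (fun p : ℕ => p.Prime ∧
          (p : ℤ) ∣ V.det ∧ ¬ p ∣ Q), (1 : ℝ) / p) := by gcongr
      _ = _ := by ring
  -- fourth
  have b4 : (S4.ncard : ℝ) ≤ (if ∃ p : ℕ, p.Prime ∧ z < p ∧ ¬ p ∣ Q ∧ (p : ℤ) ∣ V.det ∧
      Ker0 p V then 1 else 0) * C := by
    rw [hS4]
    split_ifs
    · rw [one_mul]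
      exact hBC
    · simp
  have hs0 : (0 : ℝ) ≤ ∑ p ∈ (Finset.Ioc z lam).filter (fun p : ℕ => p.Prime ∧
          (p : ℤ) ∣ V.det ∧ ¬ p ∣ Q), (1 : ℝ) / p := sum_nonneg fun _ _ => by positivity
  set s := ∑ p ∈ (Finset.Ioc z lam).filter (fun p : ℕ => p.Prime ∧
          (p : ℤ) ∣ V.det ∧ ¬ p ∣ Q), (1 : ℝ) / p with hs
  set i4 : ℝ := if ∃ p : ℕ, p.Prime ∧ z < p ∧ ¬ p ∣ Q ∧ (p : ℤ) ∣ V.det ∧
      Ker0 p V then 1 else 0 with hi4
  have hk0 : (0 : ℝ) ≤ k := Nat.cast_nonneg _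
  have c1 : 9 * nE / z ≤ (9 * nE + (3 * k + 1) * nT + 1) / z := by
    refine div_le_div_of_nonneg_right ?_ hz'.le
    have : 0 ≤ (3 * (k : ℝ) + 1) * nT := by positivity
    linarith
  have c2 : 3 * nE * A / lam + (3 * k + 1) * nT * A / lam ≤
      (9 * nE + (3 * k + 1) * nT + 1) * A / lam := by
    rw [← add_div]
    refine div_le_div_of_nonneg_right ?_ hlam'.le
    have hA0 : (0 : ℝ) ≤ A := Nat.cast_nonneg _
    nlinarith [mul_nonneg hnE0 hA0]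
  have c3 : (3 * k + 1) * nT * s ≤ (9 * nE + (3 * k + 1) * nT + 1) * s := by
    refine mul_le_mul_of_nonneg_right ?_ hs0
    linarith
  have c4 : (9 * nE / z + 3 * nE * A / lam + ((3 * k + 1) * nT * A / lam + (3 * k + 1) * nT * s) +
      i4) * C ≤ ((9 * nE + (3 * k + 1) * nT + 1) / z + (9 * nE + (3 * k + 1) * nT + 1) * A / lam +
      (9 * nE + (3 * k + 1) * nT + 1) * s + i4) * C :=
    mul_le_mul_of_nonneg_right (by linarith) hC0
  refine le_trans ?_ c4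
  linarith

end

end Run7.h3.PM
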