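import Pool.Agent.Run7.h3.PM.Gl

set_option autoImplicit false
set_option linter.unusedSectionVars false
set_option linter.unusedVariables false

/-! Counting in boxes, for one basis matrix. -/

namespace Run7.h3.PM

open Finset Module Filter Topology

section

variable {k : ℕ}

/-- the number of the unit cell -/
noncomputable def cel (Q : ℕ) (a : ℝ) (c : ℝ) : ℕ := (⌈(c - a) / Q⌉ - 1).toNat

theorem cel_spec {Q : ℕ} (hQ : 0 < Q) {a c : ℝ} (hac : a < c) (t : ℕ) :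
    cel Q a c = t ↔ c ∈ Set.Ioc (a + Q * t) (a + Q * t + Q) := by
  have hQ' : (0 : ℝ) < Q := by exact_mod_cast hQ
  have h0 : 0 < (c - a) / Q := div_pos (by linarith) hQ'
  have h1 : 1 ≤ ⌈(c - a) / Q⌉ := Int.one_le_ceil_iff.2 h0
  unfold cel
  have h2 : (⌈(c - a) / Q⌉ - 1).toNat = t ↔ ⌈(c - a) / Q⌉ = (t : ℤ) + 1 := by omega
  rw [h2, Int.ceil_eq_iff, Set.mem_Ioc]
  push_cast
  rw [lt_div_iff₀ hQ', div_le_iff₀ hQ']
  constructor
  · rintro ⟨h3, h4⟩
    constructor <;> nlinarith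
  · rintro ⟨h3, h4⟩
    constructor <;> nlinarith

theorem cel_lt {Q : ℕ} (hQ : 0 < Q) {a b c : ℝ} (h : c ∈ Set.Ioc a b) :
    cel Q a c < ⌈(b - a) / Q⌉₊ := by
  have hQ' : (0 : ℝ) < Q := by exact_mod_cast hQ
  have h1 := (cel_spec hQ h.1 _).1 rfl
  rw [Nat.lt_ceil, lt_div_iff₀ hQ']
  have h2 := h1.1
  have h3 := h.2
  nlinarith

/-- the points in a box -/
def bxp (V : Matrix (Fin k) (Fin k) ℤ) (A : (Fin k → ℤ) → Prop) (a b : Fin k → ℝ) :
    Set (Fin k → ℤ) := {z | A z ∧ ∀ i, cf V z i ∈ Set.Ioc (a i) (b i)}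

theorem bxp_le {V : Matrix (Fin k) (Fin k) ℤ} {A : (Fin k → ℤ) → Prop} {Q : ℕ} (hQ : 0 < Q)
    {c : ℕ} (h : ∀ x : Fin k → ℝ, (bxp V A x fun i => x i + Q).Finite ∧
      (bxp V A x fun i => x i + Q).ncard ≤ c) (a b : Fin k → ℝ) :
    (bxp V A a b).Finite ∧ (bxp V A a b).ncard ≤ c * ∏ i, ⌈(b i - a i) / Q⌉₊ := by
  classical
  set T : Finset (Fin k → ℕ) := Fintype.piFinset fun i => range ⌈(b i - a i) / Q⌉₊ with hT
  set F : (Fin k → ℤ) → (Fin k → ℕ) := fun z i => cel Q (a i) (cf V z i) with hF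
  have hsub : bxp V A a b ⊆ ⋃ t ∈ T, bxp V A (fun i => a i + Q * t i) fun i => a i + Q * t i + Q := by
    rintro z ⟨hz1, hz2⟩
    rw [Set.mem_iUnion₂]
    refine ⟨F z, ?_, hz1, fun i => ?_⟩
    · rw [hT, Fintype.mem_piFinset]
      intro i
      exact mem_range.2 (cel_lt hQ (hz2 i))
    · exact (cel_spec hQ (hz2 i).1 _).1 rfl
  have hfin : (⋃ t ∈ T, bxp V A (fun i => a i + Q * t i) fun i => a i + Q * t i + Q).Finite :=
    Set.Finite.biUnion (Finset.finite_toSet T) fun t _ => (h _).1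
  refine ⟨hfin.subset hsub, ?_⟩
  refine (Set.ncard_le_ncard hsub hfin).trans ?_
  have h2 : (⋃ t ∈ T, bxp V A (fun i => a i + Q * t i) fun i => a i + Q * t i + Q).ncard ≤
      ∑ t ∈ T, (bxp V A (fun i => a i + Q * t i) fun i => a i + Q * t i + Q).ncard := by
    clear_value T
    clear hsub hfin hT
    induction T using Finset.induction_on with
    | empty => simp
    | insert t T ht ih =>
      rw [Finset.set_biUnion_insert, sum_insert ht]
      exact (Set.ncard_union_le _ _).trans (Nat.add_le_add_left ih _)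
  refine h2.trans ((sum_le_sum fun t _ => (h _).2).trans (le_of_eq ?_))
  rw [sum_const, smul_eq_mul, mul_comm, hT, Fintype.card_piFinset]
  congr 1
  exact prod_congr rfl fun i _ => card_range _

theorem bxp_ge {V : Matrix (Fin k) (Fin k) ℤ} {A : (Fin k → ℤ) → Prop} {Q : ℕ} (hQ : 0 < Q)
    {c : ℕ} (h : ∀ x : Fin k → ℝ, (bxp V A x fun i => x i + Q).Finite ∧
      c ≤ (bxp V A x fun i => x i + Q).ncard) (a b : Fin k → ℝ)
    (hfin : (bxp V A a b).Finite) :
    c * ∏ i, ⌊(b i - a i) / Q⌋₊ ≤ (bxp V A a b).ncard := by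
  classical
  have hQ' : (0 : ℝ) < Q := by exact_mod_cast hQ
  set T : Finset (Fin k → ℕ) := Fintype.piFinset fun i => range ⌊(b i - a i) / Q⌋₊ with hT
  set F : (Fin k → ℤ) → (Fin k → ℕ) := fun z i => cel Q (a i) (cf V z i) with hF
  have h1 : ∀ t ∈ T, bxp V A (fun i => a i + Q * t i) (fun i => a i + Q * t i + Q) ⊆
      bxp V A a b := by
    rintro t ht z ⟨hz1, hz2⟩
    refine ⟨hz1, fun i => ?_⟩
    have h2 := hz2 i
    have h3 : t i + 1 ≤ ⌊(b i - a i) / Q⌋₊ := by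
      rw [hT, Fintype.mem_piFinset] at ht
      exact mem_range.1 (ht i)
    have hb : 0 ≤ (b i - a i) / Q := by
      by_contra hcon
      push Not at hcon
      rw [Nat.floor_of_nonpos hcon.le] at h3
      omega
    have h4 : ((t i + 1 : ℕ) : ℝ) ≤ (b i - a i) / Q := (Nat.le_floor_iff hb).1 h3
    rw [le_div_iff₀ hQ'] at h4
    push_cast at h4
    have h5 : (0 : ℝ) ≤ Q * t i := by positivity
    exact ⟨by linarith [h2.1], by nlinarith [h2.2]⟩
  set U : Finset (Fin k → ℤ) := hfin.toFinset with hU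
  have h3 : ∀ t ∈ T, c ≤ (U.filter fun z => F z = t).card := by
    intro t ht
    refine (h (fun i => a i + Q * t i)).2.trans ?_
    rw [← Set.ncard_coe_finset]
    refine Set.ncard_le_ncard ?_ (Finset.finite_toSet _)
    intro z hz
    have hz' := h1 t ht hz
    rw [mem_coe, mem_filter, hU, Set.Finite.mem_toFinset]
    refine ⟨hz', ?_⟩
    funext i
    exact (cel_spec hQ (hz'.2 i).1 _).2 (hz.2 i)
  have h4 : T.card * c ≤ U.card := by
    calc T.card * c = ∑ t ∈ T, c := by rw [sum_const, smul_eq_mul]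
      _ ≤ ∑ t ∈ T, (U.filter fun z => F z = t).card := sum_le_sum h3
      _ = ((U.filter fun z => F z ∈ T)).card := by
          rw [card_eq_sum_card_fiberwise (f := F) (t := T) (s := U.filter fun z => F z ∈ T)]
          · refine sum_congr rfl fun t ht => ?_
            congr 1
            ext z
            simp only [mem_filter]
            constructor
            · rintro ⟨h5, h6⟩
              exact ⟨⟨h5, h6 ▸ ht⟩, h6⟩
            · rintro ⟨⟨h5, -⟩, h6⟩
              exact ⟨h5, h6⟩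
          · intro z hz
            exact (mem_filter.1 hz).2
      _ ≤ U.card := card_le_card (filter_subset _ _)
  rw [Set.ncard_eq_toFinset_card _ hfin, ← hU]
  refine le_trans (le_of_eq ?_) h4
  rw [mul_comm, hT, Fintype.card_piFinset]
  congr 1
  exact prod_congr rfl fun i _ => (card_range _).symm

/-- the residue condition -/
def rcn (Q : ℕ) (z₀ : Fin k → ℤ) (z : Fin k → ℤ) : Prop := ∀ i, (Q : ℤ) ∣ z i - z₀ i

theorem cube_res {V : Matrix (Fin k) (Fin k) ℤ} (hV : V.det ≠ 0) {Q : ℕ} (hQ : 0 < Q)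
    (z₀ : Fin k → ℤ) (x : Fin k → ℝ) : (bxp V (rcn Q z₀) x fun i => x i + Q).Finite ∧
      (bxp V (rcn Q z₀) x fun i => x i + Q).ncard = V.det.natAbs := card_cube_res hV hQ z₀ x

theorem bxp_res_fin {V : Matrix (Fin k) (Fin k) ℤ} (hV : V.det ≠ 0) {Q : ℕ} (hQ : 0 < Q)
    (z₀ : Fin k → ℤ) (a b : Fin k → ℝ) : (bxp V (rcn Q z₀) a b).Finite :=
  (bxp_le hQ (fun x => ⟨(cube_res hV hQ z₀ x).1, (cube_res hV hQ z₀ x).2.le⟩) a b).1

theorem bxp_res_le {V : Matrix (Fin k) (Fin k) ℤ} (hV : V.det ≠ 0) {Q : ℕ} (hQ : 0 < Q)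
    (z₀ : Fin k → ℤ) (a b : Fin k → ℝ) :
    (bxp V (rcn Q z₀) a b).ncard ≤ V.det.natAbs * ∏ i, ⌈(b i - a i) / Q⌉₊ :=
  (bxp_le hQ (fun x => ⟨(cube_res hV hQ z₀ x).1, (cube_res hV hQ z₀ x).2.le⟩) a b).2

theorem bxp_res_ge {V : Matrix (Fin k) (Fin k) ℤ} (hV : V.det ≠ 0) {Q : ℕ} (hQ : 0 < Q)
    (z₀ : Fin k → ℤ) (a b : Fin k → ℝ) :
    V.det.natAbs * ∏ i, ⌊(b i - a i) / Q⌋₊ ≤ (bxp V (rcn Q z₀) a b).ncard :=
  bxp_ge hQ (fun x => ⟨(cube_res hV hQ z₀ x).1, (cube_res hV hQ z₀ x).2.ge⟩) a b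
    (bxp_res_fin hV hQ z₀ a b)

end

section

variable {k m : ℕ}

/-- the matrices in a box, with given residue; the matrix is the family of its columns -/
def BX (V : Matrix (Fin k) (Fin k) ℤ) (Q : ℕ) (Z₀ : Fin m → Fin k → ℤ)
    (a b : Fin k → Fin m → ℝ) : Set (Fin m → Fin k → ℤ) :=
  {Z | ∀ j, Z j ∈ bxp V (rcn Q (Z₀ j)) (fun i => a i j) (fun i => b i j)}

theorem BX_eq (V : Matrix (Fin k) (Fin k) ℤ) (Q : ℕ) (Z₀ : Fin m → Fin k → ℤ)
    (a b : Fin k → Fin m → ℝ) : BX V Q Z₀ a b =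
      Set.pi Set.univ fun j => bxp V (rcn Q (Z₀ j)) (fun i => a i j) (fun i => b i j) := by
  ext Z
  simp [BX]

theorem BX_fin {V : Matrix (Fin k) (Fin k) ℤ} (hV : V.det ≠ 0) {Q : ℕ} (hQ : 0 < Q)
    (Z₀ : Fin m → Fin k → ℤ) (a b : Fin k → Fin m → ℝ) : (BX V Q Z₀ a b).Finite := by
  rw [BX_eq]
  exact Set.Finite.pi fun j => bxp_res_fin hV hQ _ _ _

theorem ncard_pi {α β : Type} [Fintype α] (S : α → Set β) (hS : ∀ a, (S a).Finite) :
    (Set.pi Set.univ S).ncard = ∏ a, (S a).ncard := by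
  classical
  have h1 : Set.pi Set.univ S = (Fintype.piFinset fun a => (hS a).toFinset : Finset (α → β)) := by
    ext x
    simp
  rw [h1, Set.ncard_coe_finset, Fintype.card_piFinset]
  exact prod_congr rfl fun a _ => (Set.ncard_eq_toFinset_card _ (hS a)).symm

theorem BX_card {V : Matrix (Fin k) (Fin k) ℤ} (hV : V.det ≠ 0) {Q : ℕ} (hQ : 0 < Q)
    (Z₀ : Fin m → Fin k → ℤ) (a b : Fin k → Fin m → ℝ) :
    (BX V Q Z₀ a b).ncard = ∏ j, (bxp V (rcn Q (Z₀ j)) (fun i => a i j) (fun i => b i j)).ncard := by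
  rw [BX_eq, ncard_pi _ fun j => bxp_res_fin hV hQ _ _ _]

theorem BX_le {V : Matrix (Fin k) (Fin k) ℤ} (hV : V.det ≠ 0) {Q : ℕ} (hQ : 0 < Q)
    (Z₀ : Fin m → Fin k → ℤ) (a b : Fin k → Fin m → ℝ) :
    (BX V Q Z₀ a b).ncard ≤ V.det.natAbs ^ m * ∏ j, ∏ i, ⌈(b i j - a i j) / Q⌉₊ := by
  rw [BX_card hV hQ]
  refine (prod_le_prod' fun j _ => bxp_res_le hV hQ _ _ _).trans (le_of_eq ?_)
  rw [prod_mul_distrib, prod_const, card_univ, Fintype.card_fin]

theorem BX_ge {V : Matrix (Fin k) (Fin k) ℤ} (hV : V.det ≠ 0) {Q : ℕ} (hQ : 0 < Q)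
    (Z₀ : Fin m → Fin k → ℤ) (a b : Fin k → Fin m → ℝ) :
    V.det.natAbs ^ m * ∏ j, ∏ i, ⌊(b i j - a i j) / Q⌋₊ ≤ (BX V Q Z₀ a b).ncard := by
  rw [BX_card hV hQ]
  refine le_trans (le_of_eq ?_) (prod_le_prod' fun j _ => bxp_res_ge hV hQ _ _ _)
  rw [prod_mul_distrib, prod_const, card_univ, Fintype.card_fin]

/-- the shift of the column `j` by `t Q` times the column `i` of `V` -/
def shf (V : Matrix (Fin k) (Fin k) ℤ) (Q : ℕ) (i : Fin k) (j : Fin m) (t : ℤ)
    (Z : Fin m → Fin k → ℤ) : Fin m → Fin k → ℤ :=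
  Function.update Z j (Z j + (t * Q) • fun l => V l i)

theorem shf_self (V : Matrix (Fin k) (Fin k) ℤ) (Q : ℕ) (i : Fin k) (j : Fin m) (t : ℤ)
    (Z : Fin m → Fin k → ℤ) : shf V Q i j t Z j = Z j + (t * Q) • fun l => V l i := by
  unfold shf
  rw [Function.update_self]

theorem shf_of_ne (V : Matrix (Fin k) (Fin k) ℤ) (Q : ℕ) (i : Fin k) {j j' : Fin m} (t : ℤ)
    (Z : Fin m → Fin k → ℤ) (h : j' ≠ j) : shf V Q i j t Z j' = Z j' := by
  unfold shf
  rw [Function.update_of_ne h]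

theorem shf_add (V : Matrix (Fin k) (Fin k) ℤ) (Q : ℕ) (i : Fin k) (j : Fin m) (t t' : ℤ)
    (Z : Fin m → Fin k → ℤ) : shf V Q i j t (shf V Q i j t' Z) = shf V Q i j (t + t') Z := by
  unfold shf
  rw [Function.update_self, Function.update_idem]
  congr 1
  funext l
  simp only [Pi.add_apply, Pi.smul_apply, smul_eq_mul]
  ring

theorem shf_zero (V : Matrix (Fin k) (Fin k) ℤ) (Q : ℕ) (i : Fin k) (j : Fin m)
    (Z : Fin m → Fin k → ℤ) : shf V Q i j 0 Z = Z := by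
  unfold shf
  simp

theorem cf_shf {V : Matrix (Fin k) (Fin k) ℤ} (hV : V.det ≠ 0) (Q : ℕ) (i : Fin k) (j : Fin m)
    (t : ℤ) (Z : Fin m → Fin k → ℤ) (i' : Fin k) :
    cf V (shf V Q i j t Z j) i' = cf V (Z j) i' + if i' = i then (t : ℝ) * Q else 0 := by
  rw [shf_self, cf_add, cf_smul]
  have h1 : (fun l => V l i) = V.mulVec (Pi.single i 1) := by
    funext l
    rw [Matrix.mulVec_single_one]
    rfl
  rw [h1, Pi.add_apply, Pi.smul_apply, cf_mulVec hV, smul_eq_mul, Pi.single_apply]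
  split_ifs <;> push_cast <;> ring

theorem rcn_shf {V : Matrix (Fin k) (Fin k) ℤ} (Q : ℕ) (i : Fin k) (j : Fin m) (t : ℤ)
    (Z : Fin m → Fin k → ℤ) (z₀ : Fin k → ℤ) (h : rcn Q z₀ (Z j)) : rcn Q z₀ (shf V Q i j t Z j) := by
  intro l
  rw [shf_self]
  have h1 := h l
  have h2 : (Z j + (t * Q) • fun l => V l i) l - z₀ l = (Z j l - z₀ l) + Q * (t * V l i) := by
    simp only [Pi.add_apply, Pi.smul_apply, smul_eq_mul]
    ring
  rw [h2]
  exact dvd_add h1 (dvd_mul_right _ _)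

/-- the line lemma -/
theorem line {V : Matrix (Fin k) (Fin k) ℤ} (hV : V.det ≠ 0) {Q : ℕ} (hQ : 0 < Q)
    (Z₀ : Fin m → Fin k → ℤ) (a b : Fin k → Fin m → ℝ) (i : Fin k) (j : Fin m)
    (R P : (Fin m → Fin k → ℤ) → Prop) (hR : ∀ Z t, R Z → R (shf V Q i j t Z)) (h : ℕ)
    (hP : ∀ Z ∈ BX V Q Z₀ a b, R Z →
      {t : ℤ | shf V Q i j t Z ∈ BX V Q Z₀ a b ∧ P (shf V Q i j t Z)}.ncard ≤ h) :
    {Z ∈ BX V Q Z₀ a b | R Z ∧ P Z}.ncard * ⌊(b i j - a i j) / Q⌋₊ ≤
      h * {Z ∈ BX V Q Z₀ a b | R Z}.ncard := by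
  classical
  have hQ' : (0 : ℝ) < Q := by exact_mod_cast hQ
  have hfin := BX_fin hV hQ Z₀ a b
  set U : Finset (Fin m → Fin k → ℤ) := hfin.toFinset with hU
  have hmem : ∀ Z, Z ∈ U ↔ Z ∈ BX V Q Z₀ a b := fun Z => Set.Finite.mem_toFinset _
  have e1 : {Z ∈ BX V Q Z₀ a b | R Z ∧ P Z}.ncard = (U.filter fun Z => R Z ∧ P Z).card := by
    rw [← Set.ncard_coe_finset]
    congr 1
    ext Z
    simp [hmem]
  have e2 : {Z ∈ BX V Q Z₀ a b | R Z}.ncard = (U.filter fun Z => R Z).card := by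
    rw [← Set.ncard_coe_finset]
    congr 1
    ext Z
    simp [hmem]
  rw [e1, e2]
  set M := ⌊(b i j - a i j) / Q⌋₊ with hM
  rcases Nat.eq_zero_or_pos M with hM0 | hM0
  · rw [hM0, mul_zero]
    exact Nat.zero_le _
  -- the base point
  set π : (Fin m → Fin k → ℤ) → (Fin m → Fin k → ℤ) :=
    fun Z => shf V Q i j (-(cel Q (a i j) (cf V (Z j) i) : ℤ)) Z with hπ
  have hb : 0 ≤ (b i j - a i j) / Q := by
    by_contra hcon
    push Not at hcon
    rw [hM, Nat.floor_of_nonpos hcon.le] at hM0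
    omega
  have hMle : (M : ℝ) * Q ≤ b i j - a i j := by
    rw [← le_div_iff₀ hQ']
    exact Nat.floor_le hb
  have hMle' : (Q : ℝ) ≤ b i j - a i j := by
    have : (1 : ℝ) ≤ M := by exact_mod_cast hM0
    nlinarith
  have hπ0 : ∀ Z ∈ BX V Q Z₀ a b, cf V (π Z j) i ∈ Set.Ioc (a i j) (a i j + Q) := by
    intro Z hZ
    have h1 := (cel_spec hQ ((hZ j).2 i).1 _).1 rfl
    simp only [hπ]
    rw [cf_shf hV, if_pos rfl]
    push_cast
    constructor
    · linarith [h1.1]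
    · linarith [h1.2]
  have hshf : ∀ Z ∈ BX V Q Z₀ a b, ∀ t : ℤ, cf V (shf V Q i j t Z j) i ∈ Set.Ioc (a i j) (b i j) →
      shf V Q i j t Z ∈ BX V Q Z₀ a b := by
    intro Z hZ t ht j'
    by_cases hj : j' = j
    · subst hj
      refine ⟨rcn_shf Q i j' t Z _ (hZ j').1, fun i' => ?_⟩
      by_cases hi : i' = i
      · subst hi
        exact ht
      · rw [cf_shf hV, if_neg hi, add_zero]
        exact (hZ j').2 i'
    · rw [shf_of_ne _ _ _ _ _ hj]
      exact hZ j'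
  have hπmem : ∀ Z ∈ BX V Q Z₀ a b, π Z ∈ BX V Q Z₀ a b := by
    intro Z hZ
    refine hshf Z hZ _ ?_
    have h1 := hπ0 Z hZ
    exact ⟨h1.1, h1.2.trans (by linarith)⟩
  set W : Finset (Fin m → Fin k → ℤ) := (U.filter fun Z => R Z).image π with hW
  have hWm : ∀ Y ∈ W, Y ∈ BX V Q Z₀ a b ∧ R Y ∧ cf V (Y j) i ∈ Set.Ioc (a i j) (a i j + Q) := by
    intro Y hY
    obtain ⟨Z, hZ, rfl⟩ := mem_image.1 hY
    obtain ⟨h1, h2⟩ := mem_filter.1 hZ
    rw [hmem] at h1
    exact ⟨hπmem Z h1, hR _ _ h2, hπ0 Z h1⟩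
  -- upper bound
  have hup : (U.filter fun Z => R Z ∧ P Z).card ≤ h * W.card := by
    rw [card_eq_sum_card_fiberwise (f := π) (t := W)]
    · rw [mul_comm, ← smul_eq_mul, ← sum_const]
      refine sum_le_sum fun Y hY => ?_
      obtain ⟨h1, h2, h3⟩ := hWm Y hY
      refine le_trans ?_ (hP Y h1 h2)
      rw [← Set.ncard_coe_finset]
      have hfin2 : {t : ℤ | shf V Q i j t Y ∈ BX V Q Z₀ a b ∧ P (shf V Q i j t Y)}.Finite := by
        refine Set.Finite.subset (Set.finite_Icc (-(⌈((b i j - a i j) / Q)⌉ + 1)) (⌈((b i j - a i j) / Q)⌉ + 1)) ?_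
        rintro t ⟨ht, -⟩
        have h4 := (ht j).2 i
        rw [cf_shf hV, if_pos rfl] at h4
        have h5 : (t : ℝ) ≤ (b i j - a i j) / Q := by
          rw [le_div_iff₀ hQ']
          linarith [h4.2, h3.1]
        have h6 : -((b i j - a i j) / Q) - 1 ≤ t := by
          have : -(Q : ℝ) ≤ t * Q := by linarith [h4.1, h3.2]
          have h7 : (-1 : ℝ) ≤ t := by
            by_contra hc
            push Not at hc
            nlinarith
          linarith
        have h7 := Int.le_ceil ((b i j - a i j) / Q)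
        rw [Set.mem_Icc]
        constructor
        · have : (-((⌈((b i j - a i j) / Q)⌉ : ℤ) + 1) : ℝ) ≤ t := by linarith
          exact_mod_cast this
        · have : (t : ℝ) ≤ (⌈((b i j - a i j) / Q)⌉ : ℤ) + 1 := by linarith
          exact_mod_cast this
      refine Set.ncard_le_ncard_of_injOn (fun Z => (cel Q (a i j) (cf V (Z j) i) : ℤ)) ?_ ?_ hfin2
      · intro Z hZ
        rw [mem_coe, mem_filter, mem_filter, hmem] at hZ
        obtain ⟨⟨h5, h6, h7⟩, h8⟩ := hZ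
        have h9 : shf V Q i j (cel Q (a i j) (cf V (Z j) i) : ℤ) Y = Z := by
          rw [← h8]
          simp only [hπ]
          rw [shf_add, add_neg_cancel, shf_zero]
        rw [Set.mem_setOf_eq, h9]
        exact ⟨h5, h7⟩
      · intro Z hZ Z' hZ' heq
        rw [mem_coe, mem_filter, mem_filter, hmem] at hZ hZ'
        simp only at heq
        have h9 : ∀ Z, π Z = Y → shf V Q i j (cel Q (a i j) (cf V (Z j) i) : ℤ) Y = Z := by
          intro Z h8
          rw [← h8]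
          simp only [hπ]
          rw [shf_add, add_neg_cancel, shf_zero]
        rw [← h9 Z hZ.2, ← h9 Z' hZ'.2, heq]
    · intro Z hZ
      rw [mem_coe, mem_filter] at hZ
      exact mem_coe.2 (mem_image_of_mem _ (mem_filter.2 ⟨hZ.1, hZ.2.1⟩))
  -- lower bound
  have hlow : M * W.card ≤ (U.filter fun Z => R Z).card := by
    rw [card_eq_sum_card_fiberwise (f := π) (t := W) (s := U.filter fun Z => R Z)]
    · rw [mul_comm, ← smul_eq_mul, ← sum_const]
      refine sum_le_sum fun Y hY => ?_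
      obtain ⟨h1, h2, h3⟩ := hWm Y hY
      rw [← card_range M]
      refine card_le_card_of_injOn (fun t => shf V Q i j (t : ℤ) Y) ?_ ?_
      · intro t ht
        have ht' : t + 1 ≤ M := mem_range.1 (mem_coe.1 ht)
        have ht2 : ((t : ℝ) + 1) ≤ M := by exact_mod_cast ht'
        have h4 : cf V (shf V Q i j (t : ℤ) Y j) i ∈
            Set.Ioc (a i j + Q * t) (a i j + Q * t + Q) := by
          rw [cf_shf hV, if_pos rfl]
          push_cast
          constructor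
          · linarith [h3.1]
          · linarith [h3.2]
        have h5 : cf V (shf V Q i j (t : ℤ) Y j) i ∈ Set.Ioc (a i j) (b i j) := by
          have : (0 : ℝ) ≤ Q * t := by positivity
          refine ⟨by linarith [h4.1], h4.2.trans ?_⟩
          nlinarith
        rw [mem_coe, mem_filter, mem_filter, hmem]
        refine ⟨⟨hshf Y h1 _ h5, hR _ _ h2⟩, ?_⟩
        simp only [hπ]
        rw [(cel_spec hQ h5.1 t).2 h4, shf_add, neg_add_cancel, shf_zero]
      · intro t ht t' ht' heq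
        simp only at heq
        have h6 := congrArg (fun Z => cf V (Z j) i) heq
        rw [cf_shf hV, cf_shf hV, if_pos rfl, if_pos rfl] at h6
        have h7 : (((t : ℤ) : ℝ)) * Q = ((t' : ℤ) : ℝ) * Q := by linarith
        have h8 := mul_right_cancel₀ hQ'.ne' h7
        exact_mod_cast h8
    · intro Z hZ
      exact mem_coe.2 (mem_image_of_mem _ hZ)
  calc (U.filter fun Z => R Z ∧ P Z).card * M ≤ h * W.card * M := Nat.mul_le_mul_right _ hup
    _ = h * (M * W.card) := by ring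
    _ ≤ _ := Nat.mul_le_mul_left _ hlow

end

end Run7.h3.PM
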