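import Pool.Agent.Run7.h3.PM.Nge

set_option autoImplicit false
set_option linter.unusedSectionVars false
set_option linter.unusedVariables false

/-! Upper bounds for the number of the matrices with bounded minors. -/

namespace Run7.h3.PM

open Finset Module Filter Topology Run7.h3.GT

section

/-- a dyadic sum -/
theorem dyadic {α : Type} (S : Finset α) (u : α → ℝ) {k : ℕ} (hk : 0 < k) {K R : ℝ} (hK : 0 ≤ K)
    (hR : 1 ≤ R) (hu : ∀ x ∈ S, u x ≤ R)
    (hc : ∀ T : ℝ, 1 ≤ T → ((S.filter fun x => u x ≤ T).card : ℝ) ≤ K * T ^ k) :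
    ∑ x ∈ S, ((max (u x) 1) ^ (k - 1))⁻¹ ≤ 2 ^ (k + 1) * K * R := by
  classical
  have h1 : ∀ J : ℕ, ∑ x ∈ S.filter (fun x => u x ≤ 2 ^ J), ((max (u x) 1) ^ (k - 1))⁻¹ ≤
      K * 2 ^ k * 2 ^ J := by
    intro J
    induction J with
    | zero =>
      rw [pow_zero, mul_one]
      have h2 : ∑ x ∈ S.filter (fun x => u x ≤ 1), ((max (u x) 1) ^ (k - 1))⁻¹ ≤
          ∑ x ∈ S.filter (fun x => u x ≤ 1), (1 : ℝ) := by
        refine sum_le_sum fun x _ => ?_
        exact inv_le_one_of_one_le₀ (one_le_pow₀ (le_max_right _ _))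
      refine h2.trans ?_
      rw [sum_const, nsmul_eq_mul, mul_one]
      refine (hc 1 le_rfl).trans ?_
      rw [one_pow, mul_one]
      exact le_mul_of_one_le_right hK (one_le_pow₀ (by norm_num))
    | succ J ih =>
      have h2 : S.filter (fun x => u x ≤ 2 ^ (J + 1)) = S.filter (fun x => u x ≤ 2 ^ J) ∪
          (S.filter (fun x => u x ≤ 2 ^ (J + 1))).filter (fun x => 2 ^ J < u x) := by
        ext x
        simp only [mem_filter, mem_union]
        constructor
        · rintro ⟨g1, g2⟩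
          by_cases h : u x ≤ 2 ^ J
          · exact Or.inl ⟨g1, h⟩
          · exact Or.inr ⟨⟨g1, g2⟩, not_le.1 h⟩
        · rintro (⟨g1, g2⟩ | ⟨g1, -⟩)
          · exact ⟨g1, g2.trans (pow_le_pow_right₀ (by norm_num) (by omega))⟩
          · exact g1
      rw [h2, sum_union]
      · have h3 : ∑ x ∈ (S.filter (fun x => u x ≤ 2 ^ (J + 1))).filter (fun x => 2 ^ J < u x),
            ((max (u x) 1) ^ (k - 1))⁻¹ ≤ ∑ x ∈ (S.filter (fun x => u x ≤ 2 ^ (J + 1))).filter
              (fun x => 2 ^ J < u x), (((2 : ℝ) ^ J) ^ (k - 1))⁻¹ := by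
          refine sum_le_sum fun x hx => ?_
          have hx2 := (mem_filter.1 hx).2
          refine inv_anti₀ (by positivity) ?_
          exact pow_le_pow_left₀ (by positivity) (hx2.le.trans (le_max_left _ _)) _
        rw [sum_const, nsmul_eq_mul] at h3
        have h4 : (((S.filter (fun x => u x ≤ 2 ^ (J + 1))).filter (fun x => 2 ^ J < u x)).card : ℝ) ≤
            K * (2 ^ (J + 1)) ^ k := by
          refine le_trans ?_ (hc (2 ^ (J + 1)) (one_le_pow₀ (by norm_num)))
          have h7 : ((S.filter (fun x => u x ≤ 2 ^ (J + 1))).filter (fun x => 2 ^ J < u x)).card ≤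
              (S.filter (fun x => u x ≤ 2 ^ (J + 1))).card := card_le_card (filter_subset _ _)
          exact Nat.cast_le.2 h7
        have h5 : K * ((2 : ℝ) ^ (J + 1)) ^ k * (((2 : ℝ) ^ J) ^ (k - 1))⁻¹ = K * 2 ^ k * 2 ^ J := by
          obtain ⟨k', rfl⟩ : ∃ k', k = k' + 1 := ⟨k - 1, by omega⟩
          rw [Nat.add_sub_cancel]
          field_simp
          ring
        have h6 : (((S.filter (fun x => u x ≤ 2 ^ (J + 1))).filter
            (fun x => 2 ^ J < u x)).card : ℝ) * (((2 : ℝ) ^ J) ^ (k - 1))⁻¹ ≤ K * 2 ^ k * 2 ^ J := by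
          rw [← h5]
          exact mul_le_mul_of_nonneg_right h4 (by positivity)
        calc _ ≤ K * 2 ^ k * 2 ^ J + K * 2 ^ k * 2 ^ J := add_le_add ih (h3.trans h6)
          _ = _ := by ring
      · rw [disjoint_left]
        intro x hx hx'
        exact absurd (mem_filter.1 hx).2 (not_le.2 (mem_filter.1 hx').2)
  obtain ⟨J, hJ1, hJ2⟩ : ∃ J : ℕ, R ≤ 2 ^ J ∧ (2 : ℝ) ^ J ≤ 2 * R := by
    obtain ⟨J, hJ⟩ := exists_nat_pow_near hR (show (1 : ℝ) < 2 by norm_num)
    refine ⟨J + 1, hJ.2.le, ?_⟩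
    rw [pow_succ]
    linarith [hJ.1]
  have h2 := h1 J
  rw [filter_true_of_mem (fun x hx => (hu x hx).trans hJ1)] at h2
  refine h2.trans ?_
  calc K * 2 ^ k * 2 ^ J ≤ K * 2 ^ k * (2 * R) := by gcongr
    _ = _ := by ring

variable {k m : ℕ}

/-- replacing a column -/
theorem det_updateCol {V : Matrix (Fin k) (Fin k) ℤ} (hV : V.det ≠ 0) (z : Fin k → ℤ) (i : Fin k) :
    (((V.updateCol i z).det : ℤ) : ℝ) = ((V.det : ℤ) : ℝ) * cf V z i := by
  have h1 := Matrix.det_smul_inv_mulVec_eq_cramer (V.map (Int.cast : ℤ → ℝ)) (fun i => (z i : ℝ))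
    (isUnit_real hV)
  have h2 := congrFun h1 i
  rw [Matrix.cramer_apply] at h2
  have h3 : (V.map (Int.cast : ℤ → ℝ)).det = ((V.det : ℤ) : ℝ) :=
    ((Int.castRingHom ℝ).map_det V).symm
  have h4 : ((V.map (Int.cast : ℤ → ℝ)).updateCol i fun i => (z i : ℝ)) =
      (V.updateCol i z).map (Int.cast : ℤ → ℝ) := by
    ext a b
    by_cases hb : b = i
    · subst hb
      simp [Matrix.updateCol_apply]
    · simp [Matrix.updateCol_apply, hb]
  have h5 : ((V.updateCol i z).map (Int.cast : ℤ → ℝ)).det = (((V.updateCol i z).det : ℤ) : ℝ) :=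
    ((Int.castRingHom ℝ).map_det _).symm
  rw [h4, h5] at h2
  rw [← h2, Pi.smul_apply, smul_eq_mul, h3]
  rfl

/-- the columns with bounded minors -/
def ZS (V : Matrix (Fin k) (Fin k) ℤ) (a : Fin k → ℝ) (b : Fin m → ℝ) :
    Set (Fin m → Fin k → ℤ) :=
  {Z | ∀ f : Fin k → Fin k ⊕ Fin m, |((mnr (MM V Z) f : ℤ) : ℝ)| ≤ Real.exp (∑ l, Sum.elim a b (f l))}

theorem ZS_sub {m' : ℕ} {V V' : Matrix (Fin k) (Fin k) ℤ} {a a' : Fin k → ℝ} {b : Fin m → ℝ}
    {b' : Fin m' → ℝ} {Z : Fin m → Fin k → ℤ} {Z' : Fin m' → Fin k → ℤ}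
    (φ : Fin k ⊕ Fin m' → Fin k ⊕ Fin m) (h1 : (MM V Z).submatrix id φ = MM V' Z')
    (h2 : ∀ x, Sum.elim a b (φ x) = Sum.elim a' b' x) (h : Z ∈ ZS V a b) : Z' ∈ ZS V' a' b' := by
  intro f
  have h3 := h (φ ∘ f)
  have h4 : mnr (MM V Z) (φ ∘ f) = mnr (MM V' Z') f := by
    rw [← h1]
    rfl
  rw [h4] at h3
  refine h3.trans (le_of_eq ?_)
  congr 1
  exact sum_congr rfl fun l _ => h2 (f l)

theorem det_le {V : Matrix (Fin k) (Fin k) ℤ} {a : Fin k → ℝ} {b : Fin m → ℝ}
    {Z : Fin m → Fin k → ℤ} (h : Z ∈ ZS V a b) : |((V.det : ℤ) : ℝ)| ≤ Real.exp (∑ i, a i) :=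
  h Sum.inl

theorem cf_le {V : Matrix (Fin k) (Fin k) ℤ} (hV : V.det ≠ 0) {a : Fin k → ℝ} {b : Fin m → ℝ}
    {Z : Fin m → Fin k → ℤ} (h : Z ∈ ZS V a b) (i : Fin k) (j : Fin m) :
    |((V.det : ℤ) : ℝ)| * |cf V (Z j) i| ≤ Real.exp (∑ i, a i) * Real.exp (b j - a i) := by
  have h1 := h (Function.update Sum.inl i (Sum.inr j))
  have h2 : mnr (MM V Z) (Function.update Sum.inl i (Sum.inr j)) = (V.updateCol i (Z j)).det := by
    unfold mnr
    congr 1
    ext l i'
    by_cases hi : i' = i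
    · subst hi
      simp [Matrix.updateCol_apply, MM_inr]
    · simp [Matrix.updateCol_apply, hi, MM_inl]
  rw [h2, det_updateCol hV, abs_mul] at h1
  refine h1.trans (le_of_eq ?_)
  rw [← Real.exp_add]
  congr 1
  rw [← add_sum_erase univ _ (mem_univ i), ← add_sum_erase univ a (mem_univ i),
    Function.update_self, Sum.elim_inr]
  have h3 : ∑ x ∈ univ.erase i, Sum.elim a b (Function.update Sum.inl i (Sum.inr j) x) =
      ∑ x ∈ univ.erase i, a x := by
    refine sum_congr rfl fun x hx => ?_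
    rw [Function.update_of_ne (ne_of_mem_erase hx), Sum.elim_inl]
  rw [h3]
  ring

/-- the number of the vectors in a box -/
theorem box_one {V : Matrix (Fin k) (Fin k) ℤ} (hV : V.det ≠ 0) {t : Fin k → ℝ} (ht : ∀ i, 1 ≤ t i) :
    {z : Fin k → ℤ | ∀ i, |cf V z i| ≤ t i}.Finite ∧
    ({z : Fin k → ℤ | ∀ i, |cf V z i| ≤ t i}.ncard : ℝ) ≤
      |((V.det : ℤ) : ℝ)| * (4 ^ k * ∏ i, t i) := by
  have h1 := bxp_le (V := V) (A := rcn 1 (0 : Fin k → ℤ)) one_pos
    (fun x => ⟨(cube_res hV one_pos 0 x).1, (cube_res hV one_pos 0 x).2.le⟩)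
    (fun i => -(2 * t i)) (fun i => t i)
  have h2 : {z : Fin k → ℤ | ∀ i, |cf V z i| ≤ t i} ⊆
      bxp V (rcn 1 (0 : Fin k → ℤ)) (fun i => -(2 * t i)) (fun i => t i) := by
    intro z hz
    refine ⟨fun i => by simp, fun i => ?_⟩
    have h3 := abs_le.1 (hz i)
    have h4 := ht i
    refine ⟨?_, h3.2⟩
    have h5 := h3.1
    linarith
  refine ⟨h1.1.subset h2, ?_⟩
  have h3 : ({z : Fin k → ℤ | ∀ i, |cf V z i| ≤ t i}.ncard : ℝ) ≤
      ((V.det.natAbs * ∏ i, ⌈(t i - -(2 * t i)) / ((1 : ℕ) : ℝ)⌉₊ : ℕ) : ℝ) := by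
    exact_mod_cast (Set.ncard_le_ncard h2 h1.1).trans h1.2
  refine h3.trans ?_
  rw [Nat.cast_mul, Nat.cast_prod]
  have h4 : ((V.det.natAbs : ℕ) : ℝ) = |((V.det : ℤ) : ℝ)| := by
    rw [Nat.cast_natAbs, Int.cast_abs]
  rw [h4]
  refine mul_le_mul_of_nonneg_left ?_ (abs_nonneg ((V.det : ℤ) : ℝ))
  have h5 : (4 : ℝ) ^ k * ∏ i, t i = ∏ i, (4 * t i) := by
    rw [prod_mul_distrib, prod_const, card_univ, Fintype.card_fin]
  rw [h5]
  refine prod_le_prod (fun i _ => by positivity) fun i _ => ?_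
  have h6 := ht i
  have h8 : (t i - -(2 * t i)) / ((1 : ℕ) : ℝ) = 3 * t i := by
    rw [Nat.cast_one, div_one]
    ring
  rw [h8]
  have h7 := Nat.ceil_lt_add_one (a := 3 * t i) (by linarith)
  linarith

/-- the number of the remaining columns -/
theorem cell_V (hk : 0 < k) : ∀ m : ℕ, ∃ C : ℝ, 0 < C ∧ ∀ (V : Matrix (Fin k) (Fin k) ℤ)
    (hV : V.det ≠ 0) (a : Fin k → ℝ) (b : Fin m → ℝ) (hb : Monotone b) (hab : ∀ i j, a i ≤ b j),
    (ZS V a b).Finite ∧ ((ZS V a b).ncard : ℝ) ≤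
      C * (Real.exp (∑ i, a i) / |((V.det : ℤ) : ℝ)|) ^ (k - 1) * Real.exp (k * ∑ j, b j) := by
  classical
  intro m
  induction m with
  | zero =>
    refine ⟨1, one_pos, fun V hV a b hb hab => ⟨Set.toFinite _, ?_⟩⟩
    have hD : (0 : ℝ) < |((V.det : ℤ) : ℝ)| := abs_pos.2 (by exact_mod_cast hV)
    by_cases hne : (ZS V a b).Nonempty
    · obtain ⟨Z, hZ⟩ := hne
      have h1 := det_le hZ
      have h2 : 1 ≤ Real.exp (∑ i, a i) / |((V.det : ℤ) : ℝ)| := (one_le_div hD).2 h1
      have h3 : ((ZS V a b).ncard : ℝ) ≤ 1 := by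
        have : (ZS V a b).ncard ≤ 1 := Set.ncard_le_one_of_subsingleton _
        exact_mod_cast this
      refine h3.trans ?_
      have h4 : ∑ j, b j = 0 := Fintype.sum_empty _
      rw [h4, mul_zero, Real.exp_zero, mul_one, one_mul]
      exact one_le_pow₀ h2
    · rw [Set.not_nonempty_iff_eq_empty.1 hne, Set.ncard_empty, Nat.cast_zero]
      positivity
  | succ m ih =>
    obtain ⟨C, hC, ihC⟩ := ih
    refine ⟨C * (2 ^ (k + 1) * 4 ^ k), by positivity, fun V hV a b hb hab => ?_⟩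
    have hD : (0 : ℝ) < |((V.det : ℤ) : ℝ)| := abs_pos.2 (by exact_mod_cast hV)
    set R := Real.exp (∑ i, a i) / |((V.det : ℤ) : ℝ)| with hR
    have hR0 : 0 < R := by positivity
    by_cases hR1 : 1 ≤ R
    swap
    · have hemp : ZS V a b = ∅ := by
        rw [Set.eq_empty_iff_forall_notMem]
        intro Z hZ
        exact hR1 ((one_le_div hD).2 (det_le hZ))
      rw [hemp]
      refine ⟨Set.finite_empty, ?_⟩
      rw [Set.ncard_empty, Nat.cast_zero]
      positivity
    haveI : Nonempty (Fin k) := ⟨⟨0, hk⟩⟩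
    -- the first column
    set u : (Fin k → ℤ) → ℝ := fun z => univ.sup' univ_nonempty
      fun i => |cf V z i| * Real.exp (a i - b 0) with hu
    have hule : ∀ (z : Fin k → ℤ) (T : ℝ), u z ≤ T ↔ ∀ i, |cf V z i| ≤ T * Real.exp (b 0 - a i) := by
      intro z T
      simp only [hu]
      rw [sup'_le_iff]
      have h1 : ∀ i, |cf V z i| * Real.exp (a i - b 0) ≤ T ↔
          |cf V z i| ≤ T * Real.exp (b 0 - a i) := by
        intro i
        have h2 : Real.exp (b 0 - a i) = (Real.exp (a i - b 0))⁻¹ := by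
          rw [← Real.exp_neg]
          ring_nf
        rw [h2, ← div_eq_mul_inv, le_div_iff₀ (Real.exp_pos _)]
      exact ⟨fun h i => (h1 i).1 (h i (mem_univ i)), fun h i _ => (h1 i).2 (h i)⟩
    have hbox : ∀ T : ℝ, 1 ≤ T → {z | u z ≤ T}.Finite ∧
        ({z | u z ≤ T}.ncard : ℝ) ≤ (4 ^ k * Real.exp (k * b 0) / R) * T ^ k := by
      intro T hT
      have h1 := box_one hV (t := fun i => T * Real.exp (b 0 - a i)) fun i => by
        have h2 : 1 ≤ Real.exp (b 0 - a i) := by
          rw [Real.one_le_exp_iff]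
          linarith [hab i 0]
        exact one_le_mul_of_one_le_of_one_le hT h2
      have h2 : {z | u z ≤ T} = {z : Fin k → ℤ | ∀ i, |cf V z i| ≤ T * Real.exp (b 0 - a i)} := by
        ext z
        exact hule z T
      rw [h2]
      refine ⟨h1.1, h1.2.trans (le_of_eq ?_)⟩
      rw [prod_mul_distrib, prod_const, card_univ, Fintype.card_fin, ← Real.exp_sum,
        sum_sub_distrib, sum_const, card_univ, Fintype.card_fin, nsmul_eq_mul, Real.exp_sub, hR]
      field_simp
    obtain ⟨hSf, -⟩ := hbox R hR1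
    set S := hSf.toFinset with hS
    have hmS : ∀ z, z ∈ S ↔ u z ≤ R := fun z => by rw [hS, Set.Finite.mem_toFinset]; rfl
    -- the remaining columns
    set b' : Fin m → ℝ := fun j => b j.succ with hb'
    have hb'm : Monotone b' := fun j j' h => hb (Fin.succ_le_succ_iff.2 h)
    have hrest : ∀ z, ∃ (V' : Matrix (Fin k) (Fin k) ℤ) (a' : Fin k → ℝ), V'.det ≠ 0 ∧
        (∀ i j, a' i ≤ b' j) ∧ Real.exp (∑ i, a' i) / |((V'.det : ℤ) : ℝ)| = R / max (u z) 1 ∧
        ∀ Z' : Fin m → Fin k → ℤ, (Fin.cons z Z' : Fin (m + 1) → Fin k → ℤ) ∈ ZS V a b →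
          Z' ∈ ZS V' a' b' := by
      intro z
      by_cases huz : 1 ≤ u z
      · obtain ⟨i, -, hi⟩ := exists_mem_eq_sup' univ_nonempty
          fun i => |cf V z i| * Real.exp (a i - b 0)
        have hi' : u z = |cf V z i| * Real.exp (a i - b 0) := hi
        have hdet : |(((V.updateCol i z).det : ℤ) : ℝ)| =
            |((V.det : ℤ) : ℝ)| * (u z * Real.exp (b 0 - a i)) := by
          rw [det_updateCol hV, abs_mul, hi', mul_assoc, ← Real.exp_add]
          ring_nf
          rw [Real.exp_zero, mul_one]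
        have hpos : 0 < |(((V.updateCol i z).det : ℤ) : ℝ)| := by
          rw [hdet]
          have : 0 < u z := by linarith
          positivity
        refine ⟨V.updateCol i z, Function.update a i (b 0), ?_, ?_, ?_, ?_⟩
        · intro h0
          rw [h0] at hpos
          simp at hpos
        · intro i' j
          by_cases hi' : i' = i
          · subst hi'
            rw [Function.update_self]
            exact hb (Fin.zero_le _)
          · rw [Function.update_of_ne hi']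
            exact hab _ _
        · rw [hdet, max_eq_left huz, sum_update_of_mem (mem_univ i), hR]
          have h2 : ∑ x ∈ univ \ {i}, a x = (∑ x, a x) - a i := by
            rw [sdiff_singleton_eq_erase, ← add_sum_erase univ a (mem_univ i)]
            ring
          rw [h2]
          have h3 : b 0 + (∑ x, a x - a i) = ∑ x, a x + (b 0 - a i) := by ring
          rw [h3, Real.exp_add]
          have : 0 < u z := by linarith
          have := Real.exp_pos (b 0 - a i)
          field_simp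
        · intro Z' hZ'
          refine ZS_sub (Sum.elim (fun i' => if i' = i then Sum.inr 0 else Sum.inl i')
            fun j => Sum.inr j.succ) ?_ ?_ hZ'
          · ext l x
            rcases x with i' | j
            · by_cases hi' : i' = i
              · subst hi'
                simp [MM_inl, MM_inr, Matrix.updateCol_apply]
              · simp [MM_inl, Matrix.updateCol_apply, hi']
            · simp [MM_inr]
          · intro x
            rcases x with i' | j
            · by_cases hi' : i' = i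
              · subst hi'
                simp
              · simp [hi']
            · simp [hb']
      · refine ⟨V, a, hV, fun i j => hab _ _, ?_, ?_⟩
        · rw [max_eq_right (not_le.1 huz).le, div_one]
        · intro Z' hZ'
          refine ZS_sub (Sum.elim Sum.inl fun j => Sum.inr j.succ) ?_ ?_ hZ'
          · ext l x
            rcases x with i' | j
            · simp [MM_inl]
            · simp [MM_inr]
          · intro x
            rcases x with i' | j
            · simp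
            · simp [hb']
    have hfib : ∀ z, {Z' : Fin m → Fin k → ℤ | (Fin.cons z Z' : Fin (m + 1) → Fin k → ℤ) ∈
        ZS V a b}.Finite ∧ ({Z' : Fin m → Fin k → ℤ | (Fin.cons z Z' : Fin (m + 1) → Fin k → ℤ) ∈
        ZS V a b}.ncard : ℝ) ≤ C * (R / max (u z) 1) ^ (k - 1) * Real.exp (k * ∑ j, b' j) := by
      intro z
      obtain ⟨V', a', h1, h2, h3, h4⟩ := hrest z
      obtain ⟨h5, h6⟩ := ihC V' h1 a' b' hb'm h2
      refine ⟨h5.subset h4, ?_⟩
      rw [h3] at h6
      refine le_trans ?_ h6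
      exact_mod_cast Set.ncard_le_ncard h4 h5
    have hcov : ZS V a b ⊆ ⋃ z ∈ S, (fun Z' => (Fin.cons z Z' : Fin (m + 1) → Fin k → ℤ)) ''
        {Z' : Fin m → Fin k → ℤ | (Fin.cons z Z' : Fin (m + 1) → Fin k → ℤ) ∈ ZS V a b} := by
      intro Z hZ
      rw [Set.mem_iUnion₂]
      refine ⟨Z 0, ?_, Fin.tail Z, ?_, Fin.cons_self_tail Z⟩
      · rw [hmS, hule]
        intro i
        have h1 := cf_le hV hZ i 0
        rw [hR, div_mul_eq_mul_div, le_div_iff₀ hD, mul_comm]
        exact h1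
      · change (Fin.cons (Z 0) (Fin.tail Z) : Fin (m + 1) → Fin k → ℤ) ∈ ZS V a b
        rw [Fin.cons_self_tail]
        exact hZ
    have hfin : ∀ z ∈ S, ((fun Z' => (Fin.cons z Z' : Fin (m + 1) → Fin k → ℤ)) ''
        {Z' : Fin m → Fin k → ℤ | (Fin.cons z Z' : Fin (m + 1) → Fin k → ℤ) ∈ ZS V a b}).Finite :=
      fun z _ => (hfib z).1.image _
    have hfinU := Set.Finite.biUnion (Finset.finite_toSet S) hfin
    refine ⟨hfinU.subset hcov, ?_⟩
    have h1 : ((ZS V a b).ncard : ℝ) ≤ ∑ z ∈ S, C * (R / max (u z) 1) ^ (k - 1) *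
        Real.exp (k * ∑ j, b' j) := by
      have h2 : (ZS V a b).ncard ≤ ∑ z ∈ S, ((fun Z' => (Fin.cons z Z' : Fin (m + 1) → Fin k → ℤ)) ''
        {Z' : Fin m → Fin k → ℤ | (Fin.cons z Z' : Fin (m + 1) → Fin k → ℤ) ∈ ZS V a b}).ncard :=
        ncard_biU S _ _ hcov hfin
      have h3 : ((ZS V a b).ncard : ℝ) ≤ ((∑ z ∈ S, ((fun Z' =>
          (Fin.cons z Z' : Fin (m + 1) → Fin k → ℤ)) '' {Z' : Fin m → Fin k → ℤ |
          (Fin.cons z Z' : Fin (m + 1) → Fin k → ℤ) ∈ ZS V a b}).ncard : ℕ) : ℝ) := by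
        exact_mod_cast h2
      refine h3.trans ?_
      push_cast
      refine sum_le_sum fun z _ => ?_
      refine le_trans ?_ (hfib z).2
      exact Nat.cast_le.2 (Set.ncard_image_le (hfib z).1)
    refine h1.trans ?_
    have h2 : ∑ z ∈ S, C * (R / max (u z) 1) ^ (k - 1) * Real.exp (k * ∑ j, b' j) =
        C * R ^ (k - 1) * Real.exp (k * ∑ j, b' j) * ∑ z ∈ S, ((max (u z) 1) ^ (k - 1))⁻¹ := by
      rw [Finset.mul_sum S (fun z => ((max (u z) 1) ^ (k - 1))⁻¹)
        (C * R ^ (k - 1) * Real.exp (k * ∑ j, b' j))]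
      refine sum_congr rfl fun z _ => ?_
      rw [div_pow]
      ring
    rw [h2]
    have h3 := dyadic S u hk (K := 4 ^ k * Real.exp (k * b 0) / R) (by positivity) hR1
      (fun z hz => (hmS z).1 hz) (fun T hT => by
        refine le_trans ?_ (hbox T hT).2
        have h4 : ((S.filter fun x => u x ≤ T : Finset (Fin k → ℤ)) : Set (Fin k → ℤ)) ⊆
            {z | u z ≤ T} := by
          intro z hz
          rw [mem_coe, mem_filter] at hz
          exact hz.2
        have h5 := Set.ncard_le_ncard h4 (hbox T hT).1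
        rw [Set.ncard_coe_finset] at h5
        exact_mod_cast h5)
    calc _ ≤ C * R ^ (k - 1) * Real.exp (k * ∑ j, b' j) *
        (2 ^ (k + 1) * (4 ^ k * Real.exp (k * b 0) / R) * R) :=
          mul_le_mul_of_nonneg_left h3 (by positivity)
      _ = _ := by
          rw [Fin.sum_univ_succ b, mul_add, Real.exp_add]
          simp only [hb']
          field_simp

/-- the number of the matrices with bounded minors and small first minor -/
theorem cell_low (hk : 0 < k) (m : ℕ) : ∃ C : ℝ, 0 < C ∧ ∀ (a : Fin k → ℝ) (b : Fin m → ℝ)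
    (hb : Monotone b) (hab : ∀ i j, a i ≤ b j) (η : ℝ) (hη : 0 < η),
    {P : Pt k m | (P.1.idx : ℝ) ≤ η * Real.exp (∑ i, a i) ∧ P.2 ∈ ZS (VN P.1) a b}.Finite ∧
    ({P : Pt k m | (P.1.idx : ℝ) ≤ η * Real.exp (∑ i, a i) ∧
      P.2 ∈ ZS (VN P.1) a b}.ncard : ℝ) ≤
      C * η * Real.exp (k * (∑ i, a i + ∑ j, b j)) := by
  classical
  obtain ⟨C, hC, hc⟩ := cell_V hk m
  obtain ⟨C₁, hC₁, hw⟩ := wsum_le k 0
  refine ⟨C * (2 ^ (k + 1) * C₁), by positivity, fun a b hb hab η hη => ?_⟩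
  set Y := η * Real.exp (∑ i, a i) with hY
  set X := {P : Pt k m | (P.1.idx : ℝ) ≤ Y ∧ P.2 ∈ ZS (VN P.1) a b} with hX
  set U := (finite_le k Y).toFinset with hU
  have hmU : ∀ N, N ∈ U ↔ (N.idx : ℝ) ≤ Y := fun N => by rw [hU, Set.Finite.mem_toFinset]; rfl
  have hXf : X.Finite := by
    refine Set.Finite.subset (Set.Finite.biUnion (Finset.finite_toSet U) fun N _ =>
      ((hc (VN N) (VN_det_ne N) a b hb hab).1).image (Prod.mk N)) ?_
    rintro ⟨N, Z⟩ ⟨h1, h2⟩
    rw [Set.mem_iUnion₂]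
    exact ⟨N, by rw [mem_coe, hmU]; exact h1, Z, h2, rfl⟩
  refine ⟨hXf, ?_⟩
  rw [ncard_fib hXf U (fun P hP => (hmU _).2 hP.1)]
  push_cast
  have hidx : ∀ N : SLg (Fin k → ℤ), |(((VN N).det : ℤ) : ℝ)| = N.idx := by
    intro N
    rw [← VN_det N, Nat.cast_natAbs]
    push_cast
    rfl
  have h1 : ∀ N ∈ U, (({Z | (N, Z) ∈ X}.ncard : ℕ) : ℝ) ≤
      C * Real.exp (∑ i, a i) ^ (k - 1) * Real.exp (k * ∑ j, b j) *
        ((max (N.idx : ℝ) 1) ^ (k - 1))⁻¹ := by
    intro N hN
    obtain ⟨h2, h3⟩ := hc (VN N) (VN_det_ne N) a b hb hab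
    have h4 : (({Z | (N, Z) ∈ X}.ncard : ℕ) : ℝ) ≤ ((ZS (VN N) a b).ncard : ℝ) := by
      have : {Z | (N, Z) ∈ X} ⊆ ZS (VN N) a b := fun Z hZ => hZ.2
      exact_mod_cast Set.ncard_le_ncard this h2
    refine h4.trans (h3.trans (le_of_eq ?_))
    rw [hidx, max_eq_left N.one_le, div_pow]
    ring
  refine (sum_le_sum h1).trans ?_
  rw [← mul_sum]
  by_cases hY1 : 1 ≤ Y
  · have h2 := dyadic U (fun N => (N.idx : ℝ)) hk hC₁.le hY1 (fun N hN => (hmU N).1 hN)
      (fun T hT => by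
        have h3 := hw T (by linarith)
        rw [wsum_eq_sum, Nat.add_zero] at h3
        simp only [pow_zero, mul_one, sum_const, nsmul_eq_mul] at h3
        refine le_trans ?_ h3
        have h4 : U.filter (fun N => (N.idx : ℝ) ≤ T) ⊆ (finite_le k T).toFinset := by
          intro N hN
          rw [Set.Finite.mem_toFinset]
          exact (mem_filter.1 hN).2
        exact_mod_cast card_le_card h4)
    calc _ ≤ C * Real.exp (∑ i, a i) ^ (k - 1) * Real.exp (k * ∑ j, b j) *
        (2 ^ (k + 1) * C₁ * Y) := mul_le_mul_of_nonneg_left h2 (by positivity)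
      _ = _ := by
          rw [hY, mul_add, Real.exp_add]
          obtain ⟨k', rfl⟩ : ∃ k', k = k' + 1 := ⟨k - 1, by omega⟩
          rw [Nat.add_sub_cancel]
          have h5 : Real.exp (((k' + 1 : ℕ) : ℝ) * ∑ i, a i) = Real.exp (∑ i, a i) ^ k' *
              Real.exp (∑ i, a i) := by
            rw [← pow_succ, ← Real.exp_nat_mul]
          rw [h5]
          ring
  · have h2 : U = ∅ := by
      rw [eq_empty_iff_forall_notMem]
      intro N hN
      exact hY1 (N.one_le.trans ((hmU N).1 hN))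
    rw [h2, sum_empty, mul_zero]
    positivity

end

end Run7.h3.PM
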