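import Pool.Agent.Run7.h3.PM.Cel

set_option autoImplicit false
set_option linter.unusedSectionVars false
set_option linter.unusedVariables false

/-! The matrices with bounded minors: small minors are rare. -/

namespace Run7.h3.PM

open Finset Module Filter Topology Run7.h3.GT

section

variable {k m : ℕ}

theorem idx_eq (N : SLg (Fin k → ℤ)) : |(((VN N).det : ℤ) : ℝ)| = N.idx := by
  rw [← VN_det N, Nat.cast_natAbs, Int.cast_abs]

theorem sum_elim_std {a : Fin k → ℝ} {b : Fin m → ℝ} {f : Fin k → Fin k ⊕ Fin m} (hf : Std f) :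
    Real.exp (∑ l, Sum.elim a b (f l)) = Real.exp (∑ i, a i) * sc (fun i j => Real.exp (b j - a i)) f := by
  unfold sc
  have h1 : ∏ l, Sum.elim (fun _ => (1 : ℝ)) (fun j => Real.exp (b j - a l)) (f l) =
      Real.exp (∑ l, (Sum.elim a b (f l) - a l)) := by
    rw [Real.exp_sum]
    refine prod_congr rfl fun l _ => ?_
    rcases hf.2 l with h | ⟨j, h⟩
    · rw [h, Sum.elim_inl, Sum.elim_inl, sub_self, Real.exp_zero]
    · rw [h, Sum.elim_inr, Sum.elim_inr]
  rw [h1, ← Real.exp_add, sum_sub_distrib]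
  congr 1
  ring

/-- small minors are rare -/
theorem cell_bad (hk : 0 < k) (m : ℕ) {ε : ℝ} (hε : 0 < ε) : ∃ η : ℝ, 0 < η ∧ η ≤ 1 ∧ ∃ s₀ : ℝ,
    1 ≤ s₀ ∧ ∀ (a : Fin k → ℝ) (b : Fin m → ℝ) (hb : Monotone b)
      (hab : ∀ i j, Real.log s₀ ≤ b j - a i),
      {P : Pt k m | P.2 ∈ ZS (VN P.1) a b ∧ ∃ f : Fin k → Fin k ⊕ Fin m, Function.Injective f ∧
        |((mnr (MM (VN P.1) P.2) f : ℤ) : ℝ)| < η * Real.exp (∑ l, Sum.elim a b (f l))}.Finite ∧
      ({P : Pt k m | P.2 ∈ ZS (VN P.1) a b ∧ ∃ f : Fin k → Fin k ⊕ Fin m, Function.Injective f ∧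
        |((mnr (MM (VN P.1) P.2) f : ℤ) : ℝ)| < η * Real.exp (∑ l, Sum.elim a b (f l))}.ncard : ℝ) ≤
      ε * Real.exp (k * (∑ i, a i + ∑ j, b j)) := by
  classical
  obtain ⟨C, hC, hlow⟩ := cell_low hk m
  obtain ⟨C', hC', hsm⟩ := sml_total (m := m) hk
  set η₁ : ℝ := ε / (2 * C) with hη₁
  have hη₁0 : 0 < η₁ := by positivity
  set R : ℝ := max 1 η₁⁻¹ with hR
  have hR1 : 1 ≤ R := le_max_left _ _
  set B : ℝ := C' * R * (6 * R) ^ (k * m) with hB
  have hB0 : 0 < B := by positivity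
  set θ : ℝ := min 1 (ε / (8 * B)) with hθ
  have hθ0 : 0 < θ := lt_min one_pos (by positivity)
  have hθ1 : θ ≤ 1 := min_le_left _ _
  set s₀ : ℝ := max 1 (4 * B / ε) with hs₀
  have hs₀1 : 1 ≤ s₀ := le_max_left _ _
  refine ⟨min 1 (1 / 2 * θ ^ k * η₁), lt_min one_pos (by positivity), min_le_left _ _, s₀, hs₀1,
    fun a b hb hab => ?_⟩
  set η : ℝ := min 1 (1 / 2 * θ ^ k * η₁) with hη
  have hηle : η ≤ 1 / 2 * θ ^ k * η₁ := min_le_right _ _
  set X := {P : Pt k m | P.2 ∈ ZS (VN P.1) a b ∧ ∃ f : Fin k → Fin k ⊕ Fin m,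
    Function.Injective f ∧ |((mnr (MM (VN P.1) P.2) f : ℤ) : ℝ)| <
      η * Real.exp (∑ l, Sum.elim a b (f l))} with hX
  have hexp : ∀ i j, s₀ ≤ Real.exp (b j - a i) := by
    intro i j
    have h1 := Real.exp_le_exp.2 (hab i j)
    rwa [Real.exp_log (by linarith)] at h1
  have hab' : ∀ i j, a i ≤ b j := by
    intro i j
    have h1 := hab i j
    have h2 := Real.log_nonneg hs₀1
    linarith
  set σ : Cx k m → ℝ := fun ν => match ν with
    | none => Real.exp ((k + m : ℕ) * ∑ i, a i)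
    | some (i, j) => Real.exp (b j - a i) with hσ
  have hσn : σ none = Real.exp ((k + m : ℕ) * ∑ i, a i) := rfl
  have hσs : ∀ i j, σ (some (i, j)) = Real.exp (b j - a i) := fun i j => rfl
  obtain ⟨f1, f2⟩ := hlow a b hb hab' η₁ hη₁0
  obtain ⟨g1, g2⟩ := hsm σ s₀ hs₀1 (by rw [hσn]; exact Real.exp_pos _)
    (fun i j => by rw [hσs]; exact hexp i j) R hR1 θ hθ0
  have hsub : X ⊆ {P : Pt k m | (P.1.idx : ℝ) ≤ η₁ * Real.exp (∑ i, a i) ∧
      P.2 ∈ ZS (VN P.1) a b} ∪ SmS σ R θ := by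
    rintro ⟨N, Z⟩ ⟨hZ, f, hf, hfm⟩
    by_cases hN : (N.idx : ℝ) ≤ η₁ * Real.exp (∑ i, a i)
    · exact Or.inl ⟨hN, hZ⟩
    · right
      push Not at hN
      have hD := det_le hZ
      rw [idx_eq] at hD
      have hN0 : (0 : ℝ) < N.idx := by exact_mod_cast N.idx_pos
      refine ⟨?_, fun i j => ?_, ?_⟩
      · rw [hσn, Real.exp_nat_mul]
        have h1 : (N.idx : ℝ) ^ (k + m) ≤ Real.exp (∑ i, a i) ^ (k + m) :=
          pow_le_pow_left₀ hN0.le hD _
        refine h1.trans ?_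
        exact le_mul_of_one_le_left (by positivity) hR1
      · rw [hσs]
        have h1 := cf_le (VN_det_ne N) hZ i j
        rw [idx_eq] at h1
        have h2 : η₁ * Real.exp (∑ i, a i) * |cf (VN N) (Z j) i| ≤
            Real.exp (∑ i, a i) * Real.exp (b j - a i) :=
          (mul_le_mul_of_nonneg_right hN.le (abs_nonneg _)).trans h1
        have h3 : η₁ * |cf (VN N) (Z j) i| ≤ Real.exp (b j - a i) := by
          refine le_of_mul_le_mul_left ?_ (Real.exp_pos (∑ i, a i))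
          calc _ = η₁ * Real.exp (∑ i, a i) * |cf (VN N) (Z j) i| := by ring
            _ ≤ _ := h2
        have h4 : |cf (VN N) (Z j) i| ≤ η₁⁻¹ * Real.exp (b j - a i) := by
          rw [← div_eq_inv_mul, le_div_iff₀ hη₁0]
          linarith
        exact h4.trans (mul_le_mul_of_nonneg_right (le_max_right _ _) (Real.exp_pos _).le)
      · obtain ⟨π, hπ⟩ := exists_std hf
        refine ⟨f ∘ π, hπ, ?_⟩
        unfold Sml
        rw [← Int.cast_abs, abs_mnr_comp, Int.cast_abs]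
        have h1 : ∑ l, Sum.elim a b (f l) = ∑ l, Sum.elim a b ((f ∘ π) l) :=
          (Equiv.sum_comp π fun l => Sum.elim a b (f l)).symm
        rw [h1, sum_elim_std hπ] at hfm
        refine hfm.le.trans ?_
        have hsc : 0 < sc (fun i j => Real.exp (b j - a i)) (f ∘ π) :=
          sc_pos (fun i j => Real.exp_pos _) _
        have h2 : θ ^ k ≤ θ ^ nr (f ∘ π) := by
          refine pow_le_pow_of_le_one hθ0.le hθ1 ?_
          unfold nr
          refine (card_le_univ _).trans ?_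
          rw [Fintype.card_fin]
        have hsc' : sc (fun i j => σ (some (i, j))) (f ∘ π) =
            sc (fun i j => Real.exp (b j - a i)) (f ∘ π) := rfl
        rw [idx_eq, hsc']
        calc η * (Real.exp (∑ i, a i) * sc (fun i j => Real.exp (b j - a i)) (f ∘ π)) ≤
            (1 / 2 * θ ^ k * η₁) * (Real.exp (∑ i, a i) *
              sc (fun i j => Real.exp (b j - a i)) (f ∘ π)) := by
              refine mul_le_mul_of_nonneg_right hηle (by positivity)
          _ = 1 / 2 * θ ^ k * ((η₁ * Real.exp (∑ i, a i)) *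
              sc (fun i j => Real.exp (b j - a i)) (f ∘ π)) := by ring
          _ ≤ 1 / 2 * θ ^ nr (f ∘ π) * ((N.idx : ℝ) *
              sc (fun i j => Real.exp (b j - a i)) (f ∘ π)) := by
              gcongr
  have hXf := (f1.union g1).subset hsub
  refine ⟨hXf, ?_⟩
  have h1 : (X.ncard : ℝ) ≤ (({P : Pt k m | (P.1.idx : ℝ) ≤ η₁ * Real.exp (∑ i, a i) ∧
      P.2 ∈ ZS (VN P.1) a b}.ncard + (SmS σ R θ).ncard : ℕ) : ℝ) := by
    exact_mod_cast (Set.ncard_le_ncard hsub (f1.union g1)).trans (Set.ncard_union_le _ _)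
  refine h1.trans ?_
  rw [Nat.cast_add]
  have h2 : C * η₁ = ε / 2 := by
    rw [hη₁]
    field_simp
  rw [h2] at f2
  have h3 : ∏ ν, σ ν = Real.exp (k * (∑ i, a i + ∑ j, b j)) := by
    rw [Fintype.prod_option, hσn, Fintype.prod_prod_type]
    have h4 : ∏ i, ∏ j, σ (some (i, j)) = Real.exp (∑ i : Fin k, ∑ j : Fin m, (b j - a i)) := by
      rw [Real.exp_sum]
      refine prod_congr rfl fun i _ => ?_
      rw [Real.exp_sum]
    rw [h4, ← Real.exp_add]
    congr 1
    simp only [sum_sub_distrib, sum_const, card_univ, Fintype.card_fin, nsmul_eq_mul]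
    rw [← mul_sum]
    push_cast
    ring
  rw [h3] at g2
  have h5 : C' * R * (6 * R) ^ (k * m) * (2 * θ + 1 / s₀) ≤ ε / 2 := by
    have h6 : 1 / s₀ ≤ ε / (4 * B) := by
      rw [div_le_div_iff₀ (by linarith) (by positivity)]
      have h7 : 4 * B / ε ≤ s₀ := le_max_right _ _
      rw [div_le_iff₀ hε] at h7
      linarith
    have h8 : θ ≤ ε / (8 * B) := min_le_right _ _
    calc C' * R * (6 * R) ^ (k * m) * (2 * θ + 1 / s₀) ≤ B * (2 * (ε / (8 * B)) + ε / (4 * B)) := by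
          rw [hB] at *
          gcongr
      _ = ε / 2 := by
          field_simp
          ring
  have h6 := g2.trans (mul_le_mul_of_nonneg_right h5 (Real.exp_pos _).le)
  linarith

/-- the number of all matrices with bounded minors -/
theorem cell_all (hk : 0 < k) (m : ℕ) : ∃ C : ℝ, 0 < C ∧ ∀ (a : Fin k → ℝ) (b : Fin m → ℝ)
    (hb : Monotone b) (hab : ∀ i j, a i ≤ b j),
    {P : Pt k m | P.2 ∈ ZS (VN P.1) a b}.Finite ∧
    ({P : Pt k m | P.2 ∈ ZS (VN P.1) a b}.ncard : ℝ) ≤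
      C * Real.exp (k * (∑ i, a i + ∑ j, b j)) := by
  obtain ⟨C, hC, h⟩ := cell_low hk m
  refine ⟨C, hC, fun a b hb hab => ?_⟩
  have h1 := h a b hb hab 1 one_pos
  have h2 : {P : Pt k m | (P.1.idx : ℝ) ≤ 1 * Real.exp (∑ i, a i) ∧ P.2 ∈ ZS (VN P.1) a b} =
      {P : Pt k m | P.2 ∈ ZS (VN P.1) a b} := by
    ext ⟨N, Z⟩
    constructor
    · exact fun h => h.2
    · intro hZ
      refine ⟨?_, hZ⟩
      have hZ' : Z ∈ ZS (VN N) a b := hZ
      have h3 := det_le hZ'
      rw [idx_eq] at h3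
      rw [one_mul]
      exact h3
  rw [h2, mul_one] at h1
  exact h1

end

end Run7.h3.PM
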