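import Pool.Agent.Run7.h3.PM.Stb
import Pool.Agent.Run7.h3.PM.Cel2

set_option autoImplicit false
set_option linter.unusedSectionVars false
set_option linter.unusedVariables false

/-! Classes of matrices and their normal forms. -/

namespace Run7.h3.PM

open Finset Module Filter Topology Run7.h3.GT

section

variable {k m : ℕ} {ι : Type}

/-- the class of a matrix -/
def cls [Fintype ι] [DecidableEq ι] (M : Matrix (Fin k) ι ℤ) : Set (Matrix (Fin k) ι ℚ) :=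
  {V | GT.Rel (id : ι → ι) (toQ M) V}

/-- the matrix of a point -/
noncomputable def mt (e : Fin k ⊕ Fin m ≃ ι) (P : Pt k m) : Matrix (Fin k) ι ℤ :=
  (MM (VN P.1) P.2).submatrix id e.symm

theorem mt_sub (e : Fin k ⊕ Fin m ≃ ι) (P : Pt k m) :
    (mt e P).submatrix id e = MM (VN P.1) P.2 := by
  ext l x
  simp [mt]

theorem mnr_mt (e : Fin k ⊕ Fin m ≃ ι) (P : Pt k m) (f : Fin k → Fin k ⊕ Fin m) :
    mnr (mt e P) (e ∘ f) = mnr (MM (VN P.1) P.2) f := by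
  rw [← mt_sub e P]
  rfl

theorem mnr_mt' (e : Fin k ⊕ Fin m ≃ ι) (P : Pt k m) (f : Fin k → ι) :
    mnr (mt e P) f = mnr (MM (VN P.1) P.2) (e.symm ∘ f) := by
  rfl

theorem toQ_mul (g : Matrix (Fin k) (Fin k) ℤ) (M : Matrix (Fin k) ι ℤ) :
    toQ (g * M) = g.map (Int.cast : ℤ → ℚ) * toQ M :=
  Matrix.map_mul (L := g) (M := M) (f := Int.castRingHom ℚ)

theorem det_mapQ (g : Matrix (Fin k) (Fin k) ℤ) :
    (g.map (Int.cast : ℤ → ℚ)).det = ((g.det : ℤ) : ℚ) :=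
  ((Int.castRingHom ℚ).map_det g).symm

theorem natAbs_ne {d : ℤ} (h : d.natAbs = 1) : d ≠ 0 := by
  intro h0
  rw [h0] at h
  simp at h

theorem exists_VN {V : Matrix (Fin k) (Fin k) ℤ} (hV : V.det ≠ 0) :
    ∃ (N : SLg (Fin k → ℤ)) (g : Matrix (Fin k) (Fin k) ℤ), g.det.natAbs = 1 ∧ g * V = VN N := by
  have hVt : V.transpose.det ≠ 0 := by rwa [Matrix.det_transpose]
  have h1 := RV_index hVt
  rw [Matrix.det_transpose] at h1
  have h0 : (RV V.transpose).index ≠ 0 := by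
    rw [h1]
    exact Int.natAbs_ne_zero.2 hV
  set N : SLg (Fin k → ℤ) := ⟨RV V.transpose, h0⟩ with hN
  have h2 : ∀ i, ∃ u : Fin k → ℤ, V.transpose.mulVec u = VN N i := by
    intro i
    have h3 : VN N i ∈ RV V.transpose := mem_Nrow N i
    exact mem_RV.1 h3
  choose u hu using h2
  have h3 : Matrix.of u * V = VN N := by
    ext i j
    rw [← hu i, Matrix.mulVec_transpose]
    rfl
  refine ⟨N, Matrix.of u, ?_, h3⟩
  have h4 : (VN N).det.natAbs = V.det.natAbs := by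
    rw [VN_det]
    exact h1
  rw [← h3, Matrix.det_mul, Int.natAbs_mul] at h4
  exact Nat.eq_of_mul_eq_mul_right (Int.natAbs_pos.2 hV) (by rw [h4, one_mul])

theorem exists_inv {g : Matrix (Fin k) (Fin k) ℤ} (hg : g.det.natAbs = 1) :
    ∃ g' : Matrix (Fin k) (Fin k) ℤ, g' * g = 1 ∧ g * g' = 1 := by
  have h1 : IsUnit g.det := Int.isUnit_iff_natAbs_eq.2 hg
  exact ⟨g⁻¹, Matrix.nonsing_inv_mul g h1, Matrix.mul_nonsing_inv g h1⟩

theorem VN_inj {N N' : SLg (Fin k → ℤ)} {g : Matrix (Fin k) (Fin k) ℤ} (hg : g.det.natAbs = 1)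
    (h : g * VN N = VN N') : N = N' := by
  have key : ∀ {N N' : SLg (Fin k → ℤ)} {g : Matrix (Fin k) (Fin k) ℤ}, g * VN N = VN N' →
      N'.1 ≤ N.1 := by
    intro N N' g h v hv
    obtain ⟨a, rfl⟩ := (mem_N N' v).1 hv
    rw [mem_N]
    refine ⟨Matrix.vecMul a g, ?_⟩
    have h1 := Matrix.vecMul_eq_sum a (VN N')
    have h2 := Matrix.vecMul_eq_sum (Matrix.vecMul a g) (VN N)
    rw [Matrix.vecMul_vecMul, h] at h2
    exact h1.symm.trans h2
  obtain ⟨g', h1, h2⟩ := exists_inv hg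
  have h3 : g' * VN N' = VN N := by
    rw [← h, ← Matrix.mul_assoc, h1, Matrix.one_mul]
  exact Subtype.ext (le_antisymm (key h3) (key h))

theorem cls_mul {g : Matrix (Fin k) (Fin k) ℤ} [Fintype ι] [DecidableEq ι] (hg : g.det ≠ 0)
    (M : Matrix (Fin k) ι ℤ) : cls (g * M) = cls M := by
  have h1 : GT.Rel (id : ι → ι) (toQ M) (toQ (g * M)) := by
    refine ⟨g.map (Int.cast : ℤ → ℚ), fun _ => 1, ?_, fun _ => one_ne_zero, ?_⟩
    · rw [det_mapQ]
      exact_mod_cast hg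
    · rw [toQ_mul]
      have h3 : (Matrix.diagonal fun _ => 1 : Matrix ι ι ℚ) = 1 := Matrix.diagonal_one
      rw [h3, Matrix.mul_one]
  unfold cls
  exact h1.eq.symm

theorem cls_sign [Fintype ι] [DecidableEq ι] (M : Matrix (Fin k) ι ℤ) {ε : ι → ℤ}
    (hε : ∀ x, ε x ≠ 0) : cls (M * Matrix.diagonal ε) = cls M := by
  have h1 : GT.Rel (id : ι → ι) (toQ M) (toQ (M * Matrix.diagonal ε)) := by
    refine ⟨1, fun x => (ε x : ℚ), ?_, fun x => Int.cast_ne_zero.2 (hε x), ?_⟩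
    · rw [Matrix.det_one]
      exact one_ne_zero
    · rw [Matrix.one_mul]
      ext l x
      rw [Matrix.mul_diagonal]
      unfold toQ
      rw [Matrix.map_apply, Matrix.mul_diagonal, Matrix.map_apply]
      push_cast
      rfl
  unfold cls
  exact h1.eq.symm

theorem cls_eq [Fintype ι] [DecidableEq ι] {M M' : Matrix (Fin k) ι ℤ} (h : cls M = cls M') :
    GT.Rel (id : ι → ι) (toQ M) (toQ M') := by
  have h1 : toQ M' ∈ cls M' := by
    refine ⟨1, fun _ => 1, ?_, fun _ => one_ne_zero, ?_⟩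
    · rw [Matrix.det_one]
      exact one_ne_zero
    · have h3 : (Matrix.diagonal fun _ => 1 : Matrix ι ι ℚ) = 1 := Matrix.diagonal_one
      rw [h3, Matrix.mul_one, Matrix.one_mul]
  rw [← h] at h1
  exact h1

theorem abs_mnr_mul [Fintype ι] {g : Matrix (Fin k) (Fin k) ℤ} (hg : g.det.natAbs = 1)
    (M : Matrix (Fin k) ι ℤ) (f : Fin k → ι) : |mnr (g * M) f| = |mnr M f| := by
  rw [mnr_mul, abs_mul, Int.abs_eq_natAbs g.det, hg]
  simp

/-- every matrix has a normal form -/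
theorem exists_pt [Fintype ι] (e : Fin k ⊕ Fin m ≃ ι) {M : Matrix (Fin k) ι ℤ} (hM : Gnr M) :
    ∃ (P : Pt k m) (g : Matrix (Fin k) (Fin k) ℤ), g.det.natAbs = 1 ∧ g * M = mt e P := by
  have h1 : (M.submatrix id (e ∘ Sum.inl)).det ≠ 0 :=
    hM (e ∘ Sum.inl) (e.injective.comp Sum.inl_injective)
  obtain ⟨N, g, hg, hN⟩ := exists_VN h1
  refine ⟨(N, fun j l => (g * M) l (e (Sum.inr j))), g, hg, ?_⟩
  ext l x
  obtain ⟨x, rfl⟩ := e.surjective x
  have h2 : mt e (N, fun j l => (g * M) l (e (Sum.inr j))) l (e x) =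
      MM (VN N) (fun j l => (g * M) l (e (Sum.inr j))) l x := by
    simp [mt]
  rw [h2]
  rcases x with i | j
  · rw [MM_inl, ← hN]
    rfl
  · rfl

/-- sorting -/
theorem exists_sort [Fintype ι] (y : ι → ℝ) (hι : Fintype.card ι = k + m) :
    ∃ e : Fin k ⊕ Fin m ≃ ι, Monotone (fun j => y (e (Sum.inr j))) ∧
      ∀ i j, y (e (Sum.inl i)) ≤ y (e (Sum.inr j)) := by
  have e₀ : Fin (k + m) ≃ ι := (Fintype.equivFinOfCardEq hι).symm
  set s := Tuple.sort (y ∘ e₀) with hs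
  have hmon : Monotone ((y ∘ e₀) ∘ s) := Tuple.monotone_sort (y ∘ e₀)
  refine ⟨(finSumFinEquiv.trans s).trans e₀, ?_, ?_⟩
  · intro j j' hj
    have h1 : Fin.natAdd k j ≤ Fin.natAdd k j' := by
      rw [Fin.le_def]
      simp only [Fin.val_natAdd]
      have : (j : ℕ) ≤ j' := hj
      omega
    have := hmon h1
    simpa using this
  · intro i j
    have h1 : Fin.castAdd m i ≤ Fin.natAdd k j := by
      rw [Fin.le_def]
      simp only [Fin.val_natAdd, Fin.val_castAdd]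
      have := i.2
      omega
    have := hmon h1
    simpa using this

theorem sum_sort [Fintype ι] (y : ι → ℝ) (e : Fin k ⊕ Fin m ≃ ι) :
    ∑ i, y (e (Sum.inl i)) + ∑ j, y (e (Sum.inr j)) = ∑ x, y x := by
  rw [← Equiv.sum_comp e y, Fintype.sum_sum_type]

theorem elim_sort (y : ι → ℝ) (e : Fin k ⊕ Fin m ≃ ι) (x : Fin k ⊕ Fin m) :
    Sum.elim (fun i => y (e (Sum.inl i))) (fun j => y (e (Sum.inr j))) x = y (e x) := by
  rcases x with i | j <;> rfl

/-- the classes with bounded minors -/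
theorem cell_cls (hk : 0 < k) [Fintype ι] [DecidableEq ι] (hι : Fintype.card ι = k + m) :
    ∃ C : ℝ, 0 < C ∧ ∀ y : ι → ℝ,
    {P : Set (Matrix (Fin k) ι ℚ) | ∃ M, Gnr M ∧ P = cls M ∧
      ∀ f : Fin k → ι, |((mnr M f : ℤ) : ℝ)| ≤ Real.exp (∑ l, y (f l))}.Finite ∧
    ({P : Set (Matrix (Fin k) ι ℚ) | ∃ M, Gnr M ∧ P = cls M ∧
      ∀ f : Fin k → ι, |((mnr M f : ℤ) : ℝ)| ≤ Real.exp (∑ l, y (f l))}.ncard : ℝ) ≤
      C * Real.exp (k * ∑ x, y x) := by
  classical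
  obtain ⟨C, hC, h⟩ := cell_all hk m
  refine ⟨C, hC, fun y => ?_⟩
  obtain ⟨e, he1, he2⟩ := exists_sort (k := k) (m := m) y hι
  obtain ⟨h1, h2⟩ := h (fun i => y (e (Sum.inl i))) (fun j => y (e (Sum.inr j))) he1 he2
  rw [sum_sort] at h2
  have hsub : {P : Set (Matrix (Fin k) ι ℚ) | ∃ M, Gnr M ∧ P = cls M ∧
      ∀ f : Fin k → ι, |((mnr M f : ℤ) : ℝ)| ≤ Real.exp (∑ l, y (f l))} ⊆
      (fun P : Pt k m => cls (mt e P)) '' {P : Pt k m | P.2 ∈ ZS (VN P.1)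
        (fun i => y (e (Sum.inl i))) (fun j => y (e (Sum.inr j)))} := by
    rintro _ ⟨M, hM, rfl, hf⟩
    obtain ⟨P, g, hg, hP⟩ := exists_pt e hM
    refine ⟨P, fun f => ?_, ?_⟩
    · rw [← mnr_mt e P, ← Int.cast_abs, ← hP, abs_mnr_mul hg, Int.cast_abs]
      refine (hf (e ∘ f)).trans (le_of_eq ?_)
      congr 1
      exact sum_congr rfl fun l _ => (elim_sort y e (f l)).symm
    · simp only
      rw [← hP, cls_mul (natAbs_ne hg)]
  refine ⟨(h1.image _).subset hsub, ?_⟩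
  refine le_trans ?_ h2
  exact_mod_cast (Set.ncard_le_ncard hsub (h1.image _)).trans (Set.ncard_image_le h1)

/-- the classes with bounded minors and a small minor -/
theorem cell_cls_bad (hk : 0 < k) [Fintype ι] [DecidableEq ι] (hι : Fintype.card ι = k + m) {ε : ℝ}
    (hε : 0 < ε) : ∃ η : ℝ, 0 < η ∧ η ≤ 1 ∧ ∃ s₀ : ℝ, 0 ≤ s₀ ∧ ∀ y : ι → ℝ,
    (∀ x x', x ≠ x' → s₀ ≤ |y x - y x'|) →
    {P : Set (Matrix (Fin k) ι ℚ) | ∃ M, Gnr M ∧ P = cls M ∧
      (∀ f : Fin k → ι, |((mnr M f : ℤ) : ℝ)| ≤ Real.exp (∑ l, y (f l))) ∧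
      ∃ f : Fin k → ι, Function.Injective f ∧
        |((mnr M f : ℤ) : ℝ)| < η * Real.exp (∑ l, y (f l))}.Finite ∧
    ({P : Set (Matrix (Fin k) ι ℚ) | ∃ M, Gnr M ∧ P = cls M ∧
      (∀ f : Fin k → ι, |((mnr M f : ℤ) : ℝ)| ≤ Real.exp (∑ l, y (f l))) ∧
      ∃ f : Fin k → ι, Function.Injective f ∧
        |((mnr M f : ℤ) : ℝ)| < η * Real.exp (∑ l, y (f l))}.ncard : ℝ) ≤
      ε * Real.exp (k * ∑ x, y x) := by
  classical
  obtain ⟨η, hη, hη1, s₀, hs₀, h⟩ := cell_bad hk m hε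
  refine ⟨η, hη, hη1, Real.log s₀, Real.log_nonneg hs₀, fun y hy => ?_⟩
  obtain ⟨e, he1, he2⟩ := exists_sort (k := k) (m := m) y hι
  obtain ⟨h1, h2⟩ := h (fun i => y (e (Sum.inl i))) (fun j => y (e (Sum.inr j))) he1 fun i j => by
    have h3 := hy (e (Sum.inr j)) (e (Sum.inl i)) fun h => Sum.inr_ne_inl (e.injective h)
    rwa [abs_of_nonneg (sub_nonneg.2 (he2 i j))] at h3
  rw [sum_sort] at h2
  set X := {P : Pt k m | P.2 ∈ ZS (VN P.1) (fun i => y (e (Sum.inl i)))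
    (fun j => y (e (Sum.inr j))) ∧ ∃ f : Fin k → Fin k ⊕ Fin m, Function.Injective f ∧
    |((mnr (MM (VN P.1) P.2) f : ℤ) : ℝ)| < η * Real.exp (∑ l, Sum.elim
      (fun i => y (e (Sum.inl i))) (fun j => y (e (Sum.inr j))) (f l))} with hX
  have hsub : {P : Set (Matrix (Fin k) ι ℚ) | ∃ M, Gnr M ∧ P = cls M ∧
      (∀ f : Fin k → ι, |((mnr M f : ℤ) : ℝ)| ≤ Real.exp (∑ l, y (f l))) ∧
      ∃ f : Fin k → ι, Function.Injective f ∧
        |((mnr M f : ℤ) : ℝ)| < η * Real.exp (∑ l, y (f l))} ⊆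
      (fun P : Pt k m => cls (mt e P)) '' X := by
    rintro _ ⟨M, hM, rfl, hf, f₀, hf₀, hf₁⟩
    obtain ⟨P, g, hg, hP⟩ := exists_pt e hM
    refine ⟨P, ⟨fun f => ?_, e.symm ∘ f₀, e.symm.injective.comp hf₀, ?_⟩, ?_⟩
    · rw [← mnr_mt e P, ← Int.cast_abs, ← hP, abs_mnr_mul hg, Int.cast_abs]
      refine (hf (e ∘ f)).trans (le_of_eq ?_)
      congr 1
      exact sum_congr rfl fun l _ => (elim_sort y e (f l)).symm
    · rw [← mnr_mt' e P, ← Int.cast_abs, ← hP, abs_mnr_mul hg, Int.cast_abs]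
      refine hf₁.trans_le (le_of_eq ?_)
      congr 2
      refine sum_congr rfl fun l _ => ?_
      rw [elim_sort]
      simp
    · simp only
      rw [← hP, cls_mul (natAbs_ne hg)]
  refine ⟨(h1.image _).subset hsub, ?_⟩
  refine le_trans ?_ h2
  exact_mod_cast (Set.ncard_le_ncard hsub (h1.image _)).trans (Set.ncard_image_le h1)

end

end Run7.h3.PM
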