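import Pool.Agent.Run7.h3.PM.Lat

set_option autoImplicit false
set_option linter.unusedSectionVars false
set_option linter.unusedVariables false

/-! Integral points in the cubes of a basis. -/

namespace Run7.h3.PM

open Finset Module Filter Topology

section

variable {k : ℕ}

/-- the coordinates in the basis given by the columns of `V` -/
noncomputable def cf (V : Matrix (Fin k) (Fin k) ℤ) (z : Fin k → ℤ) : Fin k → ℝ :=
  (V.map (Int.cast : ℤ → ℝ))⁻¹.mulVec fun i => (z i : ℝ)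

theorem isUnit_real {V : Matrix (Fin k) (Fin k) ℤ} (hV : V.det ≠ 0) :
    IsUnit (V.map (Int.cast : ℤ → ℝ)).det := by
  have h1 : (V.map (Int.cast : ℤ → ℝ)).det = ((V.det : ℤ) : ℝ) :=
    ((Int.castRingHom ℝ).map_det V).symm
  rw [h1]
  exact isUnit_iff_ne_zero.2 (by exact_mod_cast hV)

theorem cf_add (V : Matrix (Fin k) (Fin k) ℤ) (z z' : Fin k → ℤ) :
    cf V (z + z') = cf V z + cf V z' := by
  unfold cf
  rw [← Matrix.mulVec_add]
  congr 1
  funext i
  simp

theorem cf_sub (V : Matrix (Fin k) (Fin k) ℤ) (z z' : Fin k → ℤ) :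
    cf V (z - z') = cf V z - cf V z' := by
  unfold cf
  rw [← Matrix.mulVec_sub]
  congr 1
  funext i
  simp

theorem cf_smul (V : Matrix (Fin k) (Fin k) ℤ) (c : ℤ) (z : Fin k → ℤ) :
    cf V (c • z) = (c : ℝ) • cf V z := by
  unfold cf
  rw [← Matrix.mulVec_smul]
  congr 1
  funext i
  simp

theorem cf_mulVec {V : Matrix (Fin k) (Fin k) ℤ} (hV : V.det ≠ 0) (u : Fin k → ℤ) (i : Fin k) :
    cf V (V.mulVec u) i = u i := by
  have h1 : (fun i => ((V.mulVec u i : ℤ) : ℝ)) =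
      (V.map (Int.cast : ℤ → ℝ)).mulVec fun i => (u i : ℝ) := by
    funext i
    simp [Matrix.mulVec, dotProduct]
  unfold cf
  rw [h1, Matrix.mulVec_mulVec, Matrix.nonsing_inv_mul _ (isUnit_real hV), Matrix.one_mulVec]

/-- the vector from its coordinates -/
theorem mul_cf {V : Matrix (Fin k) (Fin k) ℤ} (hV : V.det ≠ 0) (z : Fin k → ℤ) (i : Fin k) :
    (z i : ℝ) = ∑ j, (V i j : ℝ) * cf V z j := by
  have h1 : (V.map (Int.cast : ℤ → ℝ)).mulVec (cf V z) = fun i => (z i : ℝ) := by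
    unfold cf
    rw [Matrix.mulVec_mulVec, Matrix.mul_nonsing_inv _ (isUnit_real hV), Matrix.one_mulVec]
  have h2 := congrFun h1 i
  rw [← h2]
  simp [Matrix.mulVec, dotProduct]

/-- the lattice generated by the columns -/
def RV (V : Matrix (Fin k) (Fin k) ℤ) : AddSubgroup (Fin k → ℤ) :=
  (LinearMap.range (Matrix.toLin' V)).toAddSubgroup

theorem mem_RV {V : Matrix (Fin k) (Fin k) ℤ} {z : Fin k → ℤ} :
    z ∈ RV V ↔ ∃ u, V.mulVec u = z := by
  unfold RV
  rw [Submodule.mem_toAddSubgroup, LinearMap.mem_range]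
  simp [Matrix.toLin'_apply]

theorem RV_index {V : Matrix (Fin k) (Fin k) ℤ} (hV : V.det ≠ 0) :
    (RV V).index = V.det.natAbs := by
  have hinj : Function.Injective (Matrix.toLin' V) := by
    intro x y h
    rw [Matrix.toLin'_apply, Matrix.toLin'_apply] at h
    funext i
    have h1 := cf_mulVec hV x i
    have h2 := cf_mulVec hV y i
    rw [h] at h1
    exact_mod_cast h1.symm.trans h2
  set e : (Fin k → ℤ) ≃ₗ[ℤ] (LinearMap.range (Matrix.toLin' V)) :=
    LinearEquiv.ofInjective _ hinj with he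
  have h1 := Submodule.natAbs_det_equiv (LinearMap.range (Matrix.toLin' V)) e
  have h2 : (LinearMap.range (Matrix.toLin' V)).subtype ∘ₗ
      AddMonoidHom.toIntLinearMap (e : (Fin k → ℤ) →+ (LinearMap.range (Matrix.toLin' V))) =
      Matrix.toLin' V := by
    apply LinearMap.ext
    intro x
    rfl
  rw [h2, LinearMap.det_toLin'] at h1
  rw [h1]
  rfl

/-- the points of a coset in a unit cube -/
theorem card_cube {V : Matrix (Fin k) (Fin k) ℤ} (hV : V.det ≠ 0) (H : AddSubgroup (Fin k → ℤ))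
    (hH : RV V ≤ H) (w₀ : Fin k → ℤ) (x : Fin k → ℝ) :
    {w : Fin k → ℤ | w - w₀ ∈ H ∧ ∀ i, cf V w i ∈ Set.Ioc (x i) (x i + 1)}.Finite ∧
    {w : Fin k → ℤ | w - w₀ ∈ H ∧ ∀ i, cf V w i ∈ Set.Ioc (x i) (x i + 1)}.ncard * H.index =
      V.det.natAbs := by
  set S := {w : Fin k → ℤ | w - w₀ ∈ H ∧ ∀ i, cf V w i ∈ Set.Ioc (x i) (x i + 1)} with hS
  have hR0 : (RV V).index ≠ 0 := by
    rw [RV_index hV]
    exact Int.natAbs_ne_zero.2 hV
  have hrel : (RV V).relIndex H ≠ 0 := by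
    intro h
    have := AddSubgroup.relIndex_mul_index hH
    rw [h, zero_mul] at this
    exact hR0 this.symm
  -- the map to the quotient
  set f : S → H ⧸ ((RV V).addSubgroupOf H) := fun w => QuotientAddGroup.mk ⟨w.1 - w₀, w.2.1⟩ with hf
  have hinj : Function.Injective f := by
    intro w w' h
    simp only [hf] at h
    rw [QuotientAddGroup.eq] at h
    have h1 : w'.1 - w.1 ∈ RV V := by
      have h2 : (-(⟨w.1 - w₀, w.2.1⟩ : H) + ⟨w'.1 - w₀, w'.2.1⟩ : H) ∈ (RV V).addSubgroupOf H := h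
      rw [AddSubgroup.mem_addSubgroupOf] at h2
      have h3 : ((-(⟨w.1 - w₀, w.2.1⟩ : H) + ⟨w'.1 - w₀, w'.2.1⟩ : H) : Fin k → ℤ) =
          w'.1 - w.1 := by
        change -(w.1 - w₀) + (w'.1 - w₀) = _
        abel
      rwa [h3] at h2
    obtain ⟨u, hu⟩ := mem_RV.1 h1
    have h4 : u = 0 := by
      funext i
      have h5 := cf_mulVec hV u i
      rw [hu, cf_sub] at h5
      have h6 := w.2.2 i
      have h7 := w'.2.2 i
      simp only [Pi.sub_apply] at h5
      have h8 : |(u i : ℝ)| < 1 := by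
        rw [← h5, abs_lt]
        constructor <;> linarith [h6.1, h6.2, h7.1, h7.2]
      have h9 : |u i| < 1 := by exact_mod_cast h8
      simpa using Int.abs_lt_one_iff.1 h9
    rw [h4, Matrix.mulVec_zero] at hu
    apply Subtype.ext
    exact (sub_eq_zero.1 hu.symm).symm
  have hsurj : Function.Surjective f := by
    intro c
    obtain ⟨⟨h, hh⟩, rfl⟩ := QuotientAddGroup.mk_surjective c
    have h1 : ∀ i, ∃ u : ℤ, cf V (h + w₀) i - u ∈ Set.Ioc (x i) (x i + 1) := by
      intro i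
      obtain ⟨u, hu, -⟩ := existsUnique_sub_zsmul_mem_Ioc one_pos (cf V (h + w₀) i) (x i)
      refine ⟨u, ?_⟩
      simpa using hu
    choose u hu using h1
    have h2 : h - V.mulVec u ∈ H := H.sub_mem hh (hH (mem_RV.2 ⟨u, rfl⟩))
    refine ⟨⟨h + w₀ - V.mulVec u, ?_, fun i => ?_⟩, ?_⟩
    · have : h + w₀ - V.mulVec u - w₀ = h - V.mulVec u := by abel
      rw [this]
      exact h2
    · rw [cf_sub, Pi.sub_apply, cf_mulVec hV]
      exact hu i
    · simp only [hf]
      rw [QuotientAddGroup.eq, AddSubgroup.mem_addSubgroupOf]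
      change -(h + w₀ - V.mulVec u - w₀) + h ∈ RV V
      have : -(h + w₀ - V.mulVec u - w₀) + h = V.mulVec u := by abel
      rw [this]
      exact mem_RV.2 ⟨u, rfl⟩
  have hcard : Nat.card S = (RV V).relIndex H := Nat.card_congr (Equiv.ofBijective f ⟨hinj, hsurj⟩)
  have hfin : S.Finite := by
    have : Finite S := Nat.finite_of_card_ne_zero (by rw [hcard]; exact hrel)
    exact Set.toFinite S
  refine ⟨hfin, ?_⟩
  have : S.ncard = (RV V).relIndex H := hcard
  rw [this, AddSubgroup.relIndex_mul_index hH, RV_index hV]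

/-- the points with given residue in a cube -/
theorem card_cube_res {V : Matrix (Fin k) (Fin k) ℤ} (hV : V.det ≠ 0) {Q : ℕ} (hQ : 0 < Q)
    (z₀ : Fin k → ℤ) (x : Fin k → ℝ) :
    {z : Fin k → ℤ | (∀ i, (Q : ℤ) ∣ z i - z₀ i) ∧ ∀ i, cf V z i ∈ Set.Ioc (x i) (x i + Q)}.Finite ∧
    {z : Fin k → ℤ | (∀ i, (Q : ℤ) ∣ z i - z₀ i) ∧
      ∀ i, cf V z i ∈ Set.Ioc (x i) (x i + Q)}.ncard = V.det.natAbs := by
  have hQ' : (0 : ℝ) < Q := by exact_mod_cast hQ
  obtain ⟨h1, h2⟩ := card_cube hV ⊤ le_top 0 (fun i => (x i - cf V z₀ i) / Q)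
  set S := {w : Fin k → ℤ | w - 0 ∈ (⊤ : AddSubgroup (Fin k → ℤ)) ∧
    ∀ i, cf V w i ∈ Set.Ioc ((x i - cf V z₀ i) / Q) ((x i - cf V z₀ i) / Q + 1)} with hS
  have h3 : {z : Fin k → ℤ | (∀ i, (Q : ℤ) ∣ z i - z₀ i) ∧
      ∀ i, cf V z i ∈ Set.Ioc (x i) (x i + Q)} = (fun w : Fin k → ℤ => z₀ + (Q : ℤ) • w) '' S := by
    ext z
    constructor
    · rintro ⟨hz1, hz2⟩
      choose w hw using hz1
      have hz : z = z₀ + (Q : ℤ) • w := by
        funext i
        have := hw i
        simp only [Pi.add_apply, Pi.smul_apply, smul_eq_mul]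
        linarith
      refine ⟨w, ⟨AddSubgroup.mem_top _, fun i => ?_⟩, hz.symm⟩
      have h4 := hz2 i
      rw [hz, cf_add, cf_smul] at h4
      simp only [Pi.add_apply, Pi.smul_apply, smul_eq_mul, Set.mem_Ioc, Int.cast_natCast] at h4
      rw [Set.mem_Ioc, div_lt_iff₀ hQ', ← sub_le_iff_le_add, le_div_iff₀ hQ']
      constructor
      · linarith
      · linarith
    · rintro ⟨w, ⟨-, hw⟩, rfl⟩
      refine ⟨fun i => ?_, fun i => ?_⟩
      · simp
      · have h4 := hw i
        rw [Set.mem_Ioc, div_lt_iff₀ hQ', ← sub_le_iff_le_add, le_div_iff₀ hQ'] at h4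
        rw [cf_add, cf_smul]
        simp only [Pi.add_apply, Pi.smul_apply, smul_eq_mul, Set.mem_Ioc, Int.cast_natCast]
        constructor
        · linarith
        · linarith
  rw [h3]
  have hinj : Function.Injective (fun w : Fin k → ℤ => z₀ + (Q : ℤ) • w) := by
    intro w w' h
    funext i
    have h5 := congrFun h i
    simp only [Pi.add_apply, Pi.smul_apply, smul_eq_mul] at h5
    have h6 : (Q : ℤ) ≠ 0 := by exact_mod_cast hQ.ne'
    exact mul_left_cancel₀ h6 (add_left_cancel h5)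
  refine ⟨h1.image _, ?_⟩
  rw [Set.ncard_image_of_injective _ hinj]
  simpa using h2

end

end Run7.h3.PM
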