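import Pool.Agent.Run7.h3.PM.Sub

set_option autoImplicit false
set_option linter.unusedSectionVars false
set_option linter.unusedVariables false

/-! Matrices with small minors are rare. -/

namespace Run7.h3.PM

open Finset Module Filter Topology Run7.h3.GT

section

variable {k m : ℕ}

/-- standard position of the columns -/
def Std (f : Fin k → Fin k ⊕ Fin m) : Prop :=
  Function.Injective f ∧ ∀ l, f l = Sum.inl l ∨ ∃ j, f l = Sum.inr j

/-- every minor is in standard position, up to sign -/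
theorem exists_std {f : Fin k → Fin k ⊕ Fin m} (hf : Function.Injective f) :
    ∃ π : Equiv.Perm (Fin k), Std (f ∘ π) := by
  classical
  let p : Fin k → Prop := fun l => ∃ l', f l' = Sum.inl l
  let q : Fin k → Prop := fun l' => ∃ l, f l' = Sum.inl l
  choose g hg using fun l : {l // p l} => l.2
  set e : {l // p l} ≃ {l' // q l'} := Equiv.ofBijective (fun l => ⟨g l, ⟨l, hg l⟩⟩) ⟨by
    intro l l' h
    have h1 : g l = g l' := congrArg Subtype.val h
    apply Subtype.ext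
    apply Sum.inl_injective (β := Fin m)
    rw [← hg l, ← hg l', h1], by
    rintro ⟨l', l, hl⟩
    refine ⟨⟨l, l', hl⟩, ?_⟩
    apply Subtype.ext
    apply hf
    change f (g ⟨l, l', hl⟩) = f l'
    rw [hg ⟨l, l', hl⟩, hl]⟩ with he
  refine ⟨e.extendSubtype, hf.comp e.extendSubtype.injective, fun l => ?_⟩
  by_cases hl : p l
  · left
    change f (e.extendSubtype l) = _
    rw [e.extendSubtype_apply_of_mem l hl]
    exact hg ⟨l, hl⟩
  · right
    have h1 := e.extendSubtype_not_mem l hl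
    change ∃ j, f (e.extendSubtype l) = Sum.inr j
    rcases h : f (e.extendSubtype l) with i | j
    · exact absurd ⟨i, h⟩ h1
    · exact ⟨j, rfl⟩

theorem mnr_comp {R ι : Type} [CommRing R] (M : Matrix (Fin k) ι R) (f : Fin k → ι)
    (π : Equiv.Perm (Fin k)) : mnr M (f ∘ π) = ((Equiv.Perm.sign π : ℤ) : R) * mnr M f := by
  unfold mnr
  have h1 : M.submatrix id (f ∘ π) = (M.submatrix id f).submatrix id π := rfl
  rw [h1, Matrix.det_permute']

theorem abs_mnr_comp {ι : Type} (M : Matrix (Fin k) ι ℤ) (f : Fin k → ι)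
    (π : Equiv.Perm (Fin k)) : |mnr M (f ∘ π)| = |mnr M f| := by
  rw [mnr_comp, abs_mul]
  rcases Int.units_eq_one_or (Equiv.Perm.sign π) with h | h <;> rw [h] <;> simp

/-- the number of the new columns -/
def nr (f : Fin k → Fin k ⊕ Fin m) : ℕ := (univ.filter fun l => (f l).isRight = true).card

/-- the expected size of a minor -/
def sc (s : Fin k → Fin m → ℝ) (f : Fin k → Fin k ⊕ Fin m) : ℝ :=
  ∏ l, Sum.elim (fun _ => 1) (fun j => s l j) (f l)

theorem sc_update (s : Fin k → Fin m → ℝ) (f : Fin k → Fin k ⊕ Fin m) {l : Fin k} {j : Fin m}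
    (h : f l = Sum.inr j) : sc s f = sc s (Function.update f l (Sum.inl l)) * s l j := by
  unfold sc
  rw [← mul_prod_erase univ _ (mem_univ l), ← mul_prod_erase univ (fun l' =>
    Sum.elim (fun _ => 1) (fun j => s l' j) (Function.update f l (Sum.inl l) l')) (mem_univ l),
    Function.update_self, h]
  have h1 : ∏ l' ∈ univ.erase l, Sum.elim (fun _ => (1 : ℝ)) (fun j => s l' j)
      (Function.update f l (Sum.inl l) l') =
      ∏ l' ∈ univ.erase l, Sum.elim (fun _ => (1 : ℝ)) (fun j => s l' j) (f l') := by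
    refine prod_congr rfl fun l' hl' => ?_
    rw [Function.update_of_ne (ne_of_mem_erase hl')]
  rw [h1]
  simp only [Sum.elim_inr, Sum.elim_inl]
  ring

theorem sc_pos {s : Fin k → Fin m → ℝ} (hs : ∀ i j, 0 < s i j) (f : Fin k → Fin k ⊕ Fin m) :
    0 < sc s f := by
  unfold sc
  refine prod_pos fun l _ => ?_
  rcases f l with i | j
  · exact one_pos
  · exact hs l j

theorem nr_update (f : Fin k → Fin k ⊕ Fin m) {l : Fin k} {j : Fin m}
    (h : f l = Sum.inr j) : nr f = nr (Function.update f l (Sum.inl l)) + 1 := by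
  unfold nr
  have h1 : (univ.filter fun l' => (f l').isRight = true) =
      insert l (univ.filter fun l' => (Function.update f l (Sum.inl l) l').isRight = true) := by
    ext l'
    simp only [mem_filter, mem_univ, true_and, mem_insert]
    by_cases hl : l' = l
    · subst hl
      simp [h]
    · rw [Function.update_of_ne hl]
      simp [hl]
  rw [h1, card_insert_of_notMem]
  simp

theorem std_update {f : Fin k → Fin k ⊕ Fin m} (hf : Std f) {l : Fin k} {j : Fin m}
    (h : f l = Sum.inr j) : Std (Function.update f l (Sum.inl l)) ∧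
      (∀ l', Function.update f l (Sum.inl l) l' ≠ Sum.inr j) := by
  have hno : ∀ l', l' ≠ l → f l' ≠ Sum.inl l := by
    intro l' hl' h1
    rcases hf.2 l' with h2 | ⟨j', h2⟩
    · rw [h1] at h2
      exact hl' (Sum.inl_injective h2).symm
    · rw [h1] at h2
      exact Sum.inl_ne_inr h2
  refine ⟨⟨?_, fun l' => ?_⟩, fun l' => ?_⟩
  · intro a b hab
    by_cases ha : a = l
    · by_cases hb : b = l
      · rw [ha, hb]
      · rw [ha, Function.update_self, Function.update_of_ne hb] at hab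
        exact absurd hab.symm (hno b hb)
    · by_cases hb : b = l
      · rw [hb, Function.update_self, Function.update_of_ne ha] at hab
        exact absurd hab (hno a ha)
      · rw [Function.update_of_ne ha, Function.update_of_ne hb] at hab
        exact hf.1 hab
  · by_cases hl : l' = l
    · subst hl
      left
      rw [Function.update_self]
    · rw [Function.update_of_ne hl]
      exact hf.2 l'
  · by_cases hl : l' = l
    · subst hl
      rw [Function.update_self]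
      exact Sum.inl_ne_inr
    · rw [Function.update_of_ne hl]
      intro h1
      exact hl (hf.1 (h1.trans h.symm))

/-- small minors -/
def Sml (V : Matrix (Fin k) (Fin k) ℤ) (s : Fin k → Fin m → ℝ) (θ : ℝ)
    (f : Fin k → Fin k ⊕ Fin m) (Z : Fin m → Fin k → ℤ) : Prop :=
  |((mnr (MM V Z) f : ℤ) : ℝ)| ≤ 1 / 2 * θ ^ nr f * (|((V.det : ℤ) : ℝ)| * sc s f)

theorem icc_int (y : ℝ) {L : ℝ} (hL : 0 ≤ L) : {t : ℤ | y ≤ t ∧ (t : ℝ) ≤ y + L}.Finite ∧
    {t : ℤ | y ≤ t ∧ (t : ℝ) ≤ y + L}.ncard ≤ ⌊L⌋₊ + 1 := by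
  have h1 : {t : ℤ | y ≤ t ∧ (t : ℝ) ≤ y + L} = (Finset.Icc ⌈y⌉ ⌊y + L⌋ : Finset ℤ) := by
    ext s
    simp only [coe_Icc, Set.mem_Icc, Int.le_floor, Int.ceil_le]
    rfl
  rw [h1]
  refine ⟨Finset.finite_toSet _, ?_⟩
  rw [Set.ncard_coe_finset, Int.card_Icc]
  have h2 : ⌊y + L⌋ - ⌈y⌉ ≤ ⌊L⌋ := by
    rw [Int.le_floor]
    push_cast
    linarith [Int.floor_le (y + L), Int.le_ceil y]
  have h3 : (⌊L⌋₊ : ℤ) = ⌊L⌋ := Int.natCast_floor_eq_floor hL
  omega

theorem sml_step {V : Matrix (Fin k) (Fin k) ℤ} (hV : V.det ≠ 0) {s : Fin k → Fin m → ℝ}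
    (hs : ∀ i j, 1 ≤ s i j) {R : ℝ} (hR : 1 ≤ R) {θ : ℝ} (hθ : 0 < θ) {f : Fin k → Fin k ⊕ Fin m}
    (hf : Std f) {l : Fin k} {j : Fin m} (h : f l = Sum.inr j) :
    ({Z ∈ BX V 1 (0 : Fin m → Fin k → ℤ) (fun i j => -(R * s i j)) (fun i j => R * s i j) |
      ¬ Sml V s θ (Function.update f l (Sum.inl l)) Z ∧ Sml V s θ f Z}.ncard : ℝ) ≤
      (2 * θ + 1 / s l j) * ((BX V 1 (0 : Fin m → Fin k → ℤ) (fun i j => -(R * s i j))
        (fun i j => R * s i j)).ncard : ℝ) := by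
  set f' := Function.update f l (Sum.inl l) with hf'
  obtain ⟨hst, hno⟩ := std_update hf h
  have hff : f = Function.update f' l (Sum.inr j) := by
    rw [hf', Function.update_idem, ← h, Function.update_eq_self]
  have hf'l : f' l = Sum.inl l := by rw [hf', Function.update_self]
  set a : Fin k → Fin m → ℝ := fun i j => -(R * s i j) with ha
  set b : Fin k → Fin m → ℝ := fun i j => R * s i j with hb
  have hfin := BX_fin hV one_pos (0 : Fin m → Fin k → ℤ) a b
  have hD : (0 : ℝ) < |((V.det : ℤ) : ℝ)| := by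
    rw [abs_pos]
    exact_mod_cast hV
  have hs0 : ∀ i j, 0 < s i j := fun i j => lt_of_lt_of_le one_pos (hs i j)
  have hsc := sc_pos hs0 f'
  have h1 := line hV one_pos (0 : Fin m → Fin k → ℤ) a b l j
    (fun Z => ¬ Sml V s θ f' Z) (fun Z => Sml V s θ f Z)
    (fun Z t hZ => by
      unfold Sml at hZ ⊢
      rw [mnr_shf_of V 1 t Z hno]
      exact hZ) (⌊2 * θ * s l j⌋₊ + 1) (fun Z hZ hR' => by
        unfold Sml at hR'
        push Not at hR'
        set x : ℝ := ((mnr (MM V Z) f : ℤ) : ℝ) with hx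
        set u : ℝ := ((mnr (MM V Z) f' : ℤ) : ℝ) with hu
        set c : ℝ := 1 / 2 * θ ^ nr f * (|((V.det : ℤ) : ℝ)| * sc s f) with hc
        have hu0 : 0 < |u| := lt_of_le_of_lt (by positivity) hR'
        have hcu : c ≤ θ * s l j * |u| := by
          rw [hc, nr_update f h, sc_update s f h, ← hf', pow_succ]
          have := mul_le_mul_of_nonneg_left hR'.le (show 0 ≤ θ * s l j from
            mul_nonneg hθ.le (hs0 l j).le)
          linarith
        have hmn : ∀ t : ℤ, ((mnr (MM V (shf V 1 l j t Z)) f : ℤ) : ℝ) = x + t * u := by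
          intro t
          rw [hff, mnr_shf_self V 1 t Z hno hf'l, ← hff]
          push_cast
          ring
        -- an interval
        have hex : ∃ y : ℝ, {t : ℤ | shf V 1 l j t Z ∈ BX V 1 (0 : Fin m → Fin k → ℤ) a b ∧
            Sml V s θ f (shf V 1 l j t Z)} ⊆
            {t : ℤ | y ≤ t ∧ (t : ℝ) ≤ y + 2 * θ * s l j} := by
          rcases lt_or_gt_of_ne (show u ≠ 0 from abs_pos.1 hu0) with hneg | hpos
          · refine ⟨(c - x) / u, ?_⟩
            rintro t ⟨-, ht⟩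
            unfold Sml at ht
            rw [hmn, ← hc, abs_le] at ht
            rw [abs_of_neg hneg] at hcu
            constructor
            · rw [div_le_iff_of_neg hneg]
              linarith [ht.2]
            · have h3 : (t : ℝ) ≤ (-c - x) / u := by
                rw [le_div_iff_of_neg hneg]
                linarith [ht.1]
              have h4 : (-c - x) / u - (c - x) / u ≤ 2 * θ * s l j := by
                rw [← sub_div, div_le_iff_of_neg hneg]
                linarith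
              linarith
          · refine ⟨(-c - x) / u, ?_⟩
            rintro t ⟨-, ht⟩
            unfold Sml at ht
            rw [hmn, ← hc, abs_le] at ht
            rw [abs_of_pos hpos] at hcu
            constructor
            · rw [div_le_iff₀ hpos]
              linarith [ht.1]
            · have h3 : (t : ℝ) ≤ (c - x) / u := by
                rw [le_div_iff₀ hpos]
                linarith [ht.2]
              have h4 : (c - x) / u - (-c - x) / u ≤ 2 * θ * s l j := by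
                rw [← sub_div, div_le_iff₀ hpos]
                linarith
              linarith
        obtain ⟨y, hy⟩ := hex
        obtain ⟨g1, g2⟩ := icc_int y (show 0 ≤ 2 * θ * s l j by
          have := (hs0 l j).le
          positivity)
        exact (Set.ncard_le_ncard hy g1).trans g2)
  have hs1 := hs l j
  have hY0 : (0 : ℝ) ≤ ({Z ∈ BX V 1 (0 : Fin m → Fin k → ℤ) a b | ¬ Sml V s θ f' Z}.ncard : ℝ) :=
    Nat.cast_nonneg _
  have h2 : ({Z ∈ BX V 1 (0 : Fin m → Fin k → ℤ) a b | ¬ Sml V s θ f' Z ∧ Sml V s θ f Z}.ncard : ℝ) *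
      (⌊(b l j - a l j) / (1 : ℕ)⌋₊ : ℝ) ≤ (⌊2 * θ * s l j⌋₊ + 1) *
      ({Z ∈ BX V 1 (0 : Fin m → Fin k → ℤ) a b | ¬ Sml V s θ f' Z}.ncard : ℝ) := by
    exact_mod_cast h1
  have h3 : s l j ≤ (⌊(b l j - a l j) / (1 : ℕ)⌋₊ : ℝ) := by
    have h4 := Nat.lt_floor_add_one ((b l j - a l j) / ((1 : ℕ) : ℝ))
    have h5 : (b l j - a l j) / ((1 : ℕ) : ℝ) = 2 * (R * s l j) := by
      simp only [ha, hb]
      push_cast
      ring
    rw [h5] at h4 ⊢
    have h6 : s l j ≤ R * s l j := by nlinarith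
    linarith
  have h4 : (⌊2 * θ * s l j⌋₊ : ℝ) ≤ 2 * θ * s l j := Nat.floor_le (by
    have := (hs0 l j).le
    positivity)
  have h5 : ({Z ∈ BX V 1 (0 : Fin m → Fin k → ℤ) a b | ¬ Sml V s θ f' Z ∧ Sml V s θ f Z}.ncard : ℝ) *
      s l j ≤ ((2 * θ + 1 / s l j) *
      ({Z ∈ BX V 1 (0 : Fin m → Fin k → ℤ) a b | ¬ Sml V s θ f' Z}.ncard : ℝ)) * s l j := by
    calc _ ≤ ({Z ∈ BX V 1 (0 : Fin m → Fin k → ℤ) a b | ¬ Sml V s θ f' Z ∧
          Sml V s θ f Z}.ncard : ℝ) * (⌊(b l j - a l j) / (1 : ℕ)⌋₊ : ℝ) :=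
          mul_le_mul_of_nonneg_left h3 (Nat.cast_nonneg _)
      _ ≤ _ := h2
      _ ≤ (2 * θ * s l j + 1) *
          ({Z ∈ BX V 1 (0 : Fin m → Fin k → ℤ) a b | ¬ Sml V s θ f' Z}.ncard : ℝ) :=
          mul_le_mul_of_nonneg_right (by linarith) hY0
      _ = _ := by
          have := (hs0 l j).ne'
          field_simp
  refine (le_of_mul_le_mul_right h5 (hs0 l j)).trans ?_
  refine mul_le_mul_of_nonneg_left ?_ (by
    have := (hs0 l j).le
    positivity)
  exact_mod_cast Set.ncard_le_ncard (Set.sep_subset _ _) hfin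

/-- small minors are rare, for one lattice -/
theorem sml_N {V : Matrix (Fin k) (Fin k) ℤ} (hV : V.det ≠ 0) {s : Fin k → Fin m → ℝ} {s₀ : ℝ}
    (hs₀ : 1 ≤ s₀) (hs : ∀ i j, s₀ ≤ s i j) {R : ℝ} (hR : 1 ≤ R) {θ : ℝ} (hθ : 0 < θ) :
    ({Z ∈ BX V 1 (0 : Fin m → Fin k → ℤ) (fun i j => -(R * s i j)) (fun i j => R * s i j) |
      ∃ f : Fin k → Fin k ⊕ Fin m, Std f ∧ Sml V s θ f Z}.ncard : ℝ) ≤
      (Fintype.card (Fin k → Fin k ⊕ Fin m) * k * (2 * θ + 1 / s₀)) *
      ((BX V 1 (0 : Fin m → Fin k → ℤ) (fun i j => -(R * s i j))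
        (fun i j => R * s i j)).ncard : ℝ) := by
  classical
  set B := BX V 1 (0 : Fin m → Fin k → ℤ) (fun i j => -(R * s i j)) (fun i j => R * s i j) with hB
  have hfin : B.Finite := BX_fin hV one_pos _ _ _
  have hD : (0 : ℝ) < |((V.det : ℤ) : ℝ)| := by
    rw [abs_pos]
    exact_mod_cast hV
  have hs1 : ∀ i j, 1 ≤ s i j := fun i j => hs₀.trans (hs i j)
  set I : Finset ((Fin k → Fin k ⊕ Fin m) × Fin k) := univ.filter fun x =>
    Std x.1 ∧ ∃ j, x.1 x.2 = Sum.inr j with hI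
  set S : (Fin k → Fin k ⊕ Fin m) × Fin k → Set (Fin m → Fin k → ℤ) := fun x =>
    {Z ∈ B | ¬ Sml V s θ (Function.update x.1 x.2 (Sum.inl x.2)) Z ∧ Sml V s θ x.1 Z} with hS
  have hsub : {Z ∈ B | ∃ f : Fin k → Fin k ⊕ Fin m, Std f ∧ Sml V s θ f Z} ⊆ ⋃ x ∈ I, S x := by
    rintro Z ⟨hZ, hex⟩
    obtain ⟨f, ⟨hf1, hf2⟩, hmin⟩ := Set.exists_min_image {f : Fin k → Fin k ⊕ Fin m | Std f ∧
      Sml V s θ f Z} nr (Set.toFinite _) hex
    have hex2 : ∃ l j, f l = Sum.inr j := by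
      by_contra hcon
      push Not at hcon
      have h1 : f = Sum.inl := by
        funext l
        rcases hf1.2 l with h2 | ⟨j, h2⟩
        · exact h2
        · exact absurd h2 (hcon l j)
      have h2 := hf2
      unfold Sml at h2
      rw [h1, mnr_inl] at h2
      have h3 : nr (Sum.inl : Fin k → Fin k ⊕ Fin m) = 0 := by
        unfold nr
        rw [card_eq_zero, filter_eq_empty_iff]
        intro l _
        simp
      have h4 : sc s (Sum.inl : Fin k → Fin k ⊕ Fin m) = 1 := by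
        unfold sc
        exact prod_eq_one fun l _ => rfl
      rw [h3, h4] at h2
      linarith
    obtain ⟨l, j, hlj⟩ := hex2
    rw [Set.mem_iUnion₂]
    refine ⟨(f, l), mem_filter.2 ⟨mem_univ _, hf1, j, hlj⟩, hZ, fun hcon => ?_, hf2⟩
    have h1 := hmin _ ⟨(std_update hf1 hlj).1, hcon⟩
    have h2 := nr_update f hlj
    omega
  have h1 := ncard_biU I S _ hsub fun x _ => hfin.subset (Set.sep_subset _ _)
  have h2 : ∀ x ∈ I, ((S x).ncard : ℝ) ≤ (2 * θ + 1 / s₀) * (B.ncard : ℝ) := by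
    rintro ⟨f, l⟩ hx
    obtain ⟨-, hf, j, hj⟩ := mem_filter.1 hx
    refine (sml_step hV hs1 hR hθ hf hj).trans ?_
    refine mul_le_mul_of_nonneg_right ?_ (Nat.cast_nonneg _)
    have : (1 : ℝ) / s l j ≤ 1 / s₀ := one_div_le_one_div_of_le (by linarith) (hs l j)
    linarith
  calc _ ≤ ∑ x ∈ I, ((S x).ncard : ℝ) := by exact_mod_cast h1
    _ ≤ ∑ x ∈ I, (2 * θ + 1 / s₀) * (B.ncard : ℝ) := sum_le_sum h2
    _ = (I.card : ℝ) * ((2 * θ + 1 / s₀) * (B.ncard : ℝ)) := by rw [sum_const, nsmul_eq_mul]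
    _ ≤ (Fintype.card (Fin k → Fin k ⊕ Fin m) * k) * ((2 * θ + 1 / s₀) * (B.ncard : ℝ)) := by
        refine mul_le_mul_of_nonneg_right ?_ (by positivity)
        have h3 := card_le_univ I
        rw [Fintype.card_prod, Fintype.card_fin] at h3
        exact_mod_cast h3
    _ = _ := by ring

/-- points with small minors -/
def SmS (σ : Cx k m → ℝ) (R θ : ℝ) : Set (Pt k m) :=
  {P | (P.1.idx : ℝ) ^ (k + m) ≤ R * σ none ∧ (∀ i j, |cf (VN P.1) (P.2 j) i| ≤ R * σ (some (i, j))) ∧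
    ∃ f : Fin k → Fin k ⊕ Fin m, Std f ∧ Sml (VN P.1) (fun i j => σ (some (i, j))) θ f P.2}

theorem box_card_le {V : Matrix (Fin k) (Fin k) ℤ} (hV : V.det ≠ 0) {s : Fin k → Fin m → ℝ}
    (hs : ∀ i j, 1 ≤ s i j) {R : ℝ} (hR : 1 ≤ R) :
    ((BX V 1 (0 : Fin m → Fin k → ℤ) (fun i j => -(R * s i j)) (fun i j => R * s i j)).ncard : ℝ) ≤
      ((V.det.natAbs : ℕ) : ℝ) ^ m * ((3 * R) ^ (k * m) * ∏ j, ∏ i, s i j) := by
  have h1 : ((BX V 1 (0 : Fin m → Fin k → ℤ) (fun i j => -(R * s i j))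
      (fun i j => R * s i j)).ncard : ℝ) ≤ ((V.det.natAbs : ℕ) : ℝ) ^ m *
      ∏ j, ∏ i, (⌈(R * s i j - -(R * s i j)) / (1 : ℕ)⌉₊ : ℝ) := by
    exact_mod_cast BX_le hV one_pos (0 : Fin m → Fin k → ℤ) (fun i j => -(R * s i j))
      (fun i j => R * s i j)
  refine h1.trans (mul_le_mul_of_nonneg_left ?_ (by positivity))
  have h2 : ∀ (i : Fin k) (j : Fin m), (⌈(R * s i j - -(R * s i j)) / (1 : ℕ)⌉₊ : ℝ) ≤ 3 * R * s i j := by
    intro i j
    have hs1 := hs i j
    have h3 : (R * s i j - -(R * s i j)) / ((1 : ℕ) : ℝ) = 2 * (R * s i j) := by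
      push_cast
      ring
    rw [h3]
    have h4 := (Nat.ceil_lt_add_one (show 0 ≤ 2 * (R * s i j) by positivity)).le
    nlinarith
  calc ∏ j, ∏ i, (⌈(R * s i j - -(R * s i j)) / (1 : ℕ)⌉₊ : ℝ) ≤ ∏ j : Fin m, ∏ i : Fin k, (3 * R * s i j) :=
        prod_le_prod (fun _ _ => prod_nonneg fun _ _ => Nat.cast_nonneg _) fun j _ =>
          prod_le_prod (fun _ _ => Nat.cast_nonneg _) fun i _ => h2 i j
    _ = _ := by
        simp_rw [prod_mul_distrib, prod_const, card_univ, Fintype.card_fin]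
        ring

/-- small minors are rare -/
theorem sml_total (hk : 0 < k) : ∃ C : ℝ, 0 < C ∧ ∀ (σ : Cx k m → ℝ) (s₀ : ℝ) (hs₀ : 1 ≤ s₀)
    (hσ0 : 0 < σ none) (hσ : ∀ i j, s₀ ≤ σ (some (i, j))) (R : ℝ) (hR : 1 ≤ R) (θ : ℝ) (hθ : 0 < θ),
    (SmS σ R θ).Finite ∧ ((SmS σ R θ).ncard : ℝ) ≤
      C * R * (6 * R) ^ (k * m) * (2 * θ + 1 / s₀) * ∏ ν, σ ν := by
  classical
  have hn : 0 < k + m := by omega
  obtain ⟨C, hC, hCb⟩ := wsn_le_const (m := m) hk
  set nf : ℝ := Fintype.card (Fin k → Fin k ⊕ Fin m) * k with hnf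
  have hnf0 : 0 ≤ nf := by positivity
  refine ⟨C * (nf + 1), by positivity, ?_⟩
  intro σ s₀ hs₀ hσ0 hσ R hR θ hθ
  set s : Fin k → Fin m → ℝ := fun i j => σ (some (i, j)) with hs
  have hs1 : ∀ i j, 1 ≤ 2 * s i j := fun i j => by
    have := hs₀.trans (hσ i j)
    simp only [hs]
    linarith
  have hs1' : ∀ i j, 1 ≤ s i j := fun i j => hs₀.trans (hσ i j)
  set y := R * σ none with hy
  have hy0 : 0 < y := mul_pos (by linarith) hσ0
  set U : Finset (SLg (Fin k → ℤ)) := (finite_pow_le k hn y).toFinset with hU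
  have hUm : ∀ N, N ∈ U ↔ (N.idx : ℝ) ^ (k + m) ≤ y := by
    intro N
    rw [hU, Set.Finite.mem_toFinset]
    rfl
  have hBf : ∀ N : SLg (Fin k → ℤ), (BX (VN N) 1 (0 : Fin m → Fin k → ℤ)
      (fun i j => -(2 * R * s i j)) (fun i j => 2 * R * s i j)).Finite := fun N =>
    BX_fin (VN_det_ne N) one_pos _ _ _
  have hmem : ∀ N Z, (N, Z) ∈ SmS σ R θ → Z ∈ {Z ∈ BX (VN N) 1 (0 : Fin m → Fin k → ℤ)
      (fun i j => -(2 * R * s i j)) (fun i j => 2 * R * s i j) |
      ∃ f : Fin k → Fin k ⊕ Fin m, Std f ∧ Sml (VN N) s θ f Z} := by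
    rintro N Z ⟨h1, h2, h3⟩
    refine ⟨fun j => ⟨fun i => by simp, fun i => ?_⟩, h3⟩
    have h4 := abs_le.1 (h2 i j)
    have h5 := hs1' i j
    simp only [hs] at h5 ⊢
    constructor
    · nlinarith [h4.1]
    · nlinarith [h4.2]
  have hfin : (SmS σ R θ).Finite := by
    refine Set.Finite.subset (Set.Finite.biUnion (Finset.finite_toSet U) fun N _ =>
      (hBf N).image (Prod.mk N)) ?_
    rintro ⟨N, Z⟩ hP
    rw [Set.mem_iUnion₂]
    exact ⟨N, (hUm N).2 hP.1, Z, (hmem N Z hP).1, rfl⟩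
  refine ⟨hfin, ?_⟩
  rw [ncard_fib hfin U (fun P hP => (hUm _).2 hP.1)]
  push_cast
  have h1 : ∀ N ∈ U, ({Z | (N, Z) ∈ SmS σ R θ}.ncard : ℝ) ≤
      (nf * (2 * θ + 1 / s₀) * ((6 * R) ^ (k * m) * ∏ j, ∏ i, s i j)) * (1 * (N.idx : ℝ) ^ m) := by
    intro N _
    have g1 : ({Z | (N, Z) ∈ SmS σ R θ}.ncard : ℝ) ≤ ({Z ∈ BX (VN N) 1 (0 : Fin m → Fin k → ℤ)
      (fun i j => -(2 * R * s i j)) (fun i j => 2 * R * s i j) |
      ∃ f : Fin k → Fin k ⊕ Fin m, Std f ∧ Sml (VN N) s θ f Z}.ncard : ℝ) := by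
      exact_mod_cast Set.ncard_le_ncard (fun Z hZ => hmem N Z hZ)
        ((hBf N).subset (Set.sep_subset _ _))
    have g2 := sml_N (VN_det_ne N) hs₀ (s := s) hσ (R := 2 * R) (by linarith) hθ
    have g3 := box_card_le (VN_det_ne N) hs1' (R := 2 * R) (by linarith)
    rw [VN_det] at g3
    refine g1.trans (g2.trans ?_)
    rw [← hnf]
    calc nf * (2 * θ + 1 / s₀) * _ ≤ nf * (2 * θ + 1 / s₀) * ((N.idx : ℝ) ^ m *
          ((3 * (2 * R)) ^ (k * m) * ∏ j, ∏ i, s i j)) :=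
          mul_le_mul_of_nonneg_left g3 (by positivity)
      _ = _ := by ring
  refine (sum_le_sum h1).trans ?_
  rw [← mul_sum, hU, ← wsn_sum hn]
  have h2 := hCb (fun _ => 1) (fun _ => le_rfl) y hy0.le
  have hw0 : 0 ≤ wsn k (k + m) m (fun _ => 1) y := wsn_nonneg hn (fun _ => zero_le_one) m y
  have hp : 0 ≤ ∏ j : Fin m, ∏ i : Fin k, s i j :=
    prod_nonneg fun j _ => prod_nonneg fun i _ => by
      have := hs1' i j
      linarith
  have hprod : ∏ ν, σ ν = σ none * ∏ j : Fin m, ∏ i : Fin k, s i j := by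
    rw [Fintype.prod_option, Fintype.prod_prod_type, Finset.prod_comm]
  calc nf * (2 * θ + 1 / s₀) * ((6 * R) ^ (k * m) * ∏ j, ∏ i, s i j) *
        wsn k (k + m) m (fun _ => 1) y ≤
      (nf + 1) * (2 * θ + 1 / s₀) * ((6 * R) ^ (k * m) * ∏ j, ∏ i, s i j) * (C * y) := by
        gcongr
        linarith
    _ = _ := by
        rw [hprod, hy]
        ring

end

end Run7.h3.PM
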