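import Pool.Agent.Run7.h3.PM.Sub

set_option autoImplicit false
set_option linter.unusedSectionVars false
set_option linter.unusedVariables false

/-! The sieve for large primes. -/

namespace Run7.h3.PM

open Finset Module Filter Topology Run7.h3.GT

section

variable {k m : ℕ}

/-- minors are bounded -/
theorem minor_bound {V : Matrix (Fin k) (Fin k) ℤ} (hV : V.det ≠ 0) (Z : Fin m → Fin k → ℤ) {S : ℝ}
    (hS : 1 ≤ S) (hZ : ∀ j i, |cf V (Z j) i| ≤ S) (g : Fin k → Fin k ⊕ Fin m) :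
    |((mnr (MM V Z) g : ℤ) : ℝ)| ≤ |((V.det : ℤ) : ℝ)| * (k.factorial * S ^ k) := by
  set G : Matrix (Fin k) (Fin k) ℝ := Matrix.of fun i l =>
    Sum.elim (fun i' => if i = i' then (1 : ℝ) else 0) (fun j => cf V (Z j) i) (g l) with hG
  have h1 : ((MM V Z).submatrix id g).map (Int.cast : ℤ → ℝ) = V.map (Int.cast : ℤ → ℝ) * G := by
    ext i l
    rw [Matrix.mul_apply, Matrix.map_apply, Matrix.submatrix_apply]
    simp only [hG, Matrix.of_apply, Matrix.map_apply, id]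
    rcases h : g l with i' | j
    · simp only [Sum.elim_inl, mul_ite, mul_one, mul_zero, sum_ite_eq', mem_univ, if_true]
      rfl
    · simp only [Sum.elim_inr]
      exact mul_cf hV (Z j) i
  have h2 : ((mnr (MM V Z) g : ℤ) : ℝ) = ((V.det : ℤ) : ℝ) * G.det := by
    have h3 : ((mnr (MM V Z) g : ℤ) : ℝ) =
        (((MM V Z).submatrix id g).map (Int.cast : ℤ → ℝ)).det :=
      (Int.castRingHom ℝ).map_det _
    have h4 : ((V.det : ℤ) : ℝ) = (V.map (Int.cast : ℤ → ℝ)).det := (Int.castRingHom ℝ).map_det V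
    rw [h3, h1, Matrix.det_mul, h4]
  rw [h2, abs_mul]
  refine mul_le_mul_of_nonneg_left ?_ (abs_nonneg _)
  have h3 := Matrix.det_le (A := G) (abv := AbsoluteValue.abs) (x := S) (fun i l => by
    simp only [AbsoluteValue.abs_apply, hG, Matrix.of_apply]
    rcases g l with i' | j
    · simp only [Sum.elim_inl]
      split_ifs
      · simpa using hS
      · simpa using (by linarith : (0 : ℝ) ≤ S)
    · exact hZ j i)
  simpa using h3

/-- the bad points -/
def BadS (th : Fin k ⊕ Fin m → ℕ) (σ : Cx k m → ℝ) (R : ℝ) (Q : ℕ) (C₀ : Fin m → Fin k → ℤ) (z : ℕ) : Set (Pt k m) :=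
  {P | (fun ν => co P ν / σ ν) ∈ Ib (fun ν => if ν = none then 0 else -R) (fun _ => R) ∧
    Nat.Coprime P.1.idx Q ∧ (∀ j, rcn Q ((VN P.1).mulVec (C₀ j)) (P.2 j)) ∧
    Gnr (MM (VN P.1) P.2) ∧ ∃ p : ℕ, z < p ∧ ¬ p ∣ Q ∧ Uns th p (MM (VN P.1) P.2)}

open Classical in
theorem bad_sum {th : Fin k ⊕ Fin m → ℕ} (hk : 2 ≤ k) (hm : 2 ≤ m) (h5 : 5 ≤ k + m)
    (hth : Adm k th) : ∃ K : ℝ, 0 < K ∧
    ∀ (Q : ℕ) (hQ : 0 < Q) (C₀ : Fin m → Fin k → ℤ) (σ : Cx k m → ℝ) (hσ : ∀ ν, 0 < σ ν)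
      (R : ℝ) (hR : 1 ≤ R) (lam : ℕ) (hlam : 2 ≤ lam)
      (hl : ∀ i j, lam ≤ ⌊(R * σ (some (i, j)) - -(R * σ (some (i, j)))) / Q⌋₊) (A₁ : ℕ)
      (hlk : (k.factorial : ℝ) ≤ lam) (hlσ : ∀ ν, R * σ ν ≤ (lam : ℝ) ^ A₁) (z : ℕ) (hz : 1 ≤ z),
      ((BadS th σ R Q C₀ z).ncard : ℝ) ≤
        (∏ j : Fin m, ∏ i : Fin k, (⌈(R * σ (some (i, j)) - -(R * σ (some (i, j)))) / Q⌉₊ : ℝ)) *
        ((K / z + K * ((A₁ + 1 + A₁ * k : ℕ) : ℝ) / lam) *
          wsn k (k + m) m (cw k Q) (R * σ none) + K * Gz k m Q z (R * σ none)) := by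
  obtain ⟨K, hK, hbad⟩ := bad_N (k := k) (m := m) hk hm h5 hth
  have hn : 0 < k + m := by omega
  have hk0 : (0 : ℝ) ≤ k := Nat.cast_nonneg k
  refine ⟨K + K * k + k ^ 2, by positivity, ?_⟩
  intro Q hQ C₀ σ hσ R hR lam hlam hl A₁ hlk hlσ z hz
  have hlam1 : (1 : ℝ) ≤ lam := by
    have : 1 ≤ lam := by omega
    exact_mod_cast this
  have hlam0 : (0 : ℝ) < lam := by linarith
  have hz0 : (0 : ℝ) < z := by exact_mod_cast hz
  set y := R * σ none with hy
  have hy0 : 0 < y := mul_pos (by linarith) (hσ none)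
  set A : ℕ := A₁ + 1 + A₁ * k with hA
  set Pr : ℝ := ∏ j : Fin m, ∏ i : Fin k,
    (⌈(R * σ (some (i, j)) - -(R * σ (some (i, j)))) / Q⌉₊ : ℝ) with hPr
  have hPr0 : 0 ≤ Pr := prod_nonneg fun _ _ => prod_nonneg fun _ _ => Nat.cast_nonneg _
  set U : Finset (SLg (Fin k → ℤ)) := (finite_pow_le k hn y).toFinset with hU
  have hUm : ∀ N, N ∈ U ↔ (N.idx : ℝ) ^ (k + m) ≤ y := by
    intro N
    rw [hU, Set.Finite.mem_toFinset]
    rfl
  have hbd : Bornology.IsBounded (Ib (fun ν : Cx k m => if ν = none then 0 else -R) fun _ => R) := by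
    refine (Metric.isBounded_Icc (fun ν : Cx k m => if ν = none then 0 else -R) fun _ => R).subset ?_
    intro x hx
    exact ⟨fun i => (hx i).1.le, fun i => (hx i).2⟩
  have hfin : (BadS th σ R Q C₀ z).Finite :=
    (TS_fin (by omega) hσ hbd (fun _ => True)).subset fun P hP => ⟨hP.1, trivial⟩
  have hmemU : ∀ P ∈ BadS th σ R Q C₀ z, P.1 ∈ U := by
    intro P hP
    rw [hUm]
    have h1 := (hP.1 none).2
    rw [div_le_iff₀ (hσ none)] at h1
    exact h1
  set P : ℕ := ⌈y⌉₊ with hP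
  -- the fibre
  have hfib : ∀ N ∈ U, ({Z | (N, Z) ∈ BadS th σ R Q C₀ z}.ncard : ℝ) ≤ cw k Q N *
      ((K / z + K * A / lam + K * ∑ p ∈ (Finset.Ioc z lam).filter (fun p : ℕ => p.Prime ∧
          ¬ p ∣ Q), (if (p : ℤ) ∣ (VN N).det then (1 : ℝ) / p else 0) +
          ∑ p ∈ (Finset.Ioc z P).filter (fun p : ℕ => p.Prime ∧ ¬ p ∣ Q),
            (if Ker0 p (VN N) then 1 else 0)) * ((N.idx : ℝ) ^ m * Pr)) := by
    intro N hN
    have hNy := (hUm N).1 hN
    have hNid : (N.idx : ℝ) ≤ y := idx_pow_le hn hNy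
    by_cases hcop : Nat.Coprime N.idx Q
    · have hV := VN_det_ne N
      set Z₀ : Fin m → Fin k → ℤ := fun j => (VN N).mulVec (C₀ j) with hZ₀
      set a : Fin k → Fin m → ℝ := fun i j => -(R * σ (some (i, j))) with ha
      set b : Fin k → Fin m → ℝ := fun i j => R * σ (some (i, j)) with hb
      have hdet : |(((VN N).det : ℤ) : ℝ)| = N.idx := by
        rw [← Int.cast_abs, Int.abs_eq_natAbs, VN_det]
        simp
      have hs1 : (1 : ℝ) ≤ (lam : ℝ) ^ A₁ := one_le_pow₀ hlam1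
      have hmin : ∀ Z ∈ BX (VN N) Q Z₀ a b, ∀ g, (mnr (MM (VN N) Z) g).natAbs ≤ lam ^ A := by
        intro Z hZ g
        have h1 := minor_bound hV Z hs1 (fun j i => by
          have h2 := (hZ j).2 i
          simp only [ha, hb] at h2
          rw [abs_le]
          constructor
          · linarith [h2.1, hlσ (some (i, j))]
          · linarith [h2.2, hlσ (some (i, j))]) g
        rw [hdet] at h1
        have h2 : |((mnr (MM (VN N) Z) g : ℤ) : ℝ)| ≤ (lam : ℝ) ^ A := by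
          refine h1.trans ?_
          rw [hA, pow_add, pow_add, pow_one, pow_mul]
          have h3 : (N.idx : ℝ) ≤ (lam : ℝ) ^ A₁ := hNid.trans (hlσ none)
          calc (N.idx : ℝ) * (k.factorial * ((lam : ℝ) ^ A₁) ^ k) ≤
              (lam : ℝ) ^ A₁ * (lam * ((lam : ℝ) ^ A₁) ^ k) := by gcongr
            _ = _ := by ring
        have h3 : (((mnr (MM (VN N) Z) g).natAbs : ℕ) : ℝ) ≤ ((lam ^ A : ℕ) : ℝ) := by
          rw [Nat.cast_natAbs, Int.cast_abs]
          push_cast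
          exact h2
        exact_mod_cast h3
      have hD : (VN N).det.natAbs ≤ lam ^ A := by
        rw [VN_det]
        have h1 : (N.idx : ℝ) ≤ ((lam ^ A : ℕ) : ℝ) := by
          push_cast
          refine hNid.trans ((hlσ none).trans ?_)
          exact pow_le_pow_right₀ hlam1 (by omega)
        exact_mod_cast h1
      have h1 := hbad (VN N) hV Q hQ Z₀ a b lam hlam hl A hmin hD z hz
      have hsub : {Z | (N, Z) ∈ BadS th σ R Q C₀ z} ⊆ {Z ∈ BX (VN N) Q Z₀ a b |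
          Gnr (MM (VN N) Z) ∧ ∃ p : ℕ, z < p ∧ ¬ p ∣ Q ∧ Uns th p (MM (VN N) Z)} := by
        rintro Z ⟨g1, g2, g3, g4, g5⟩
        refine ⟨fun j => ⟨g3 j, fun i => ?_⟩, g4, g5⟩
        have g6 := g1 (some (i, j))
        rw [Set.mem_Ioc, lt_div_iff₀ (hσ _), div_le_iff₀ (hσ _)] at g6
        simp only [reduceCtorEq, if_false] at g6
        rw [neg_mul] at g6
        exact g6
      have h2 : ({Z | (N, Z) ∈ BadS th σ R Q C₀ z}.ncard : ℝ) ≤
          ({Z ∈ BX (VN N) Q Z₀ a b |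
          Gnr (MM (VN N) Z) ∧ ∃ p : ℕ, z < p ∧ ¬ p ∣ Q ∧ Uns th p (MM (VN N) Z)}.ncard : ℝ) := by
        exact_mod_cast Set.ncard_le_ncard hsub ((BX_fin hV hQ Z₀ a b).subset (Set.sep_subset _ _))
      refine h2.trans (h1.trans ?_)
      have hcw : cw k Q N = 1 := if_pos hcop
      have hCC : (CC (VN N) Q a b : ℝ) = (N.idx : ℝ) ^ m * Pr := by
        unfold CC
        rw [VN_det]
        push_cast
        rfl
      rw [hcw, one_mul, hCC]
      refine mul_le_mul_of_nonneg_right ?_ (by positivity)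
      have h3 : ∑ p ∈ (Finset.Ioc z lam).filter (fun p : ℕ => p.Prime ∧
          (p : ℤ) ∣ (VN N).det ∧ ¬ p ∣ Q), (1 : ℝ) / p = ∑ p ∈ (Finset.Ioc z lam).filter
            (fun p : ℕ => p.Prime ∧ ¬ p ∣ Q), (if (p : ℤ) ∣ (VN N).det then (1 : ℝ) / p else 0) := by
        rw [← sum_filter, filter_filter]
        refine sum_congr ?_ fun _ _ => rfl
        ext p
        simp only [mem_filter]
        tauto
      have h4 : (if ∃ p : ℕ, p.Prime ∧ z < p ∧ ¬ p ∣ Q ∧ (p : ℤ) ∣ (VN N).det ∧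
          Ker0 p (VN N) then (1 : ℝ) else 0) ≤
          ∑ p ∈ (Finset.Ioc z P).filter (fun p : ℕ => p.Prime ∧ ¬ p ∣ Q),
            (if Ker0 p (VN N) then 1 else 0) := by
        split_ifs with hex
        · obtain ⟨p, hp1, hp2, hp3, hp4, hp5⟩ := hex
          have hpP : p ≤ P := by
            have h5 : p ∣ N.idx := by
              rw [← VN_det]
              exact Int.natCast_dvd.1 hp4
            have h6 : p ≤ N.idx := Nat.le_of_dvd N.idx_pos h5
            have h7 : (p : ℝ) ≤ y := le_trans (by exact_mod_cast h6) hNid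
            exact_mod_cast h7.trans (Nat.le_ceil y)
          have hmem : p ∈ (Finset.Ioc z P).filter (fun p : ℕ => p.Prime ∧ ¬ p ∣ Q) := by
            rw [mem_filter, Finset.mem_Ioc]
            exact ⟨⟨hp2, hpP⟩, hp1, hp3⟩
          refine le_trans (le_of_eq ?_) (single_le_sum (f := fun p : ℕ =>
            if Ker0 p (VN N) then (1 : ℝ) else 0) (fun q _ => ?_) hmem)
          · exact (if_pos hp5).symm
          · change (0 : ℝ) ≤ if Ker0 q (VN N) then (1 : ℝ) else 0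
            split_ifs <;> norm_num
        · exact sum_nonneg fun q _ => by split_ifs <;> norm_num
      rw [h3]
      linarith
    · have h0 : {Z | (N, Z) ∈ BadS th σ R Q C₀ z} = ∅ := by
        rw [Set.eq_empty_iff_forall_notMem]
        intro Z hZ
        exact hcop hZ.2.1
      rw [h0]
      have hcw : cw k Q N = 0 := if_neg hcop
      simp [hcw]
  rw [ncard_fib hfin U hmemU]
  push_cast
  refine (sum_le_sum hfib).trans ?_
  -- distribute
  set X1 := (Finset.Ioc z lam).filter (fun p : ℕ => p.Prime ∧ ¬ p ∣ Q) with hX1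
  set X2 := (Finset.Ioc z P).filter (fun p : ℕ => p.Prime ∧ ¬ p ∣ Q) with hX2
  have e1 : ∑ N ∈ U, cw k Q N *
      ((K / z + K * A / lam + K * ∑ p ∈ X1, (if (p : ℤ) ∣ (VN N).det then (1 : ℝ) / p else 0) +
          ∑ p ∈ X2, (if Ker0 p (VN N) then 1 else 0)) * ((N.idx : ℝ) ^ m * Pr)) =
      Pr * ((K / z + K * A / lam) * wsn k (k + m) m (cw k Q) y +
        (K * ∑ p ∈ X1, (1 : ℝ) / p * wsn k (k + m) m
          (fun N => if (p : ℤ) ∣ (VN N).det then cw k Q N else 0) y +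
        ∑ p ∈ X2, wsn k (k + m) m (fun N => if Ker0 p (VN N) then cw k Q N else 0) y)) := by
    simp_rw [wsn_sum hn, ← hU]
    rw [mul_add, mul_add]
    have t1 : ∑ N ∈ U, cw k Q N * ((K / z + K * A / lam + K * ∑ p ∈ X1,
        (if (p : ℤ) ∣ (VN N).det then (1 : ℝ) / p else 0) +
          ∑ p ∈ X2, (if Ker0 p (VN N) then 1 else 0)) * ((N.idx : ℝ) ^ m * Pr)) =
        ∑ N ∈ U, Pr * ((K / z + K * A / lam) * (cw k Q N * (N.idx : ℝ) ^ m)) +
        (∑ N ∈ U, Pr * (K * ∑ p ∈ X1, (1 : ℝ) / p *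
          ((if (p : ℤ) ∣ (VN N).det then cw k Q N else 0) * (N.idx : ℝ) ^ m)) +
        ∑ N ∈ U, Pr * ∑ p ∈ X2, ((if Ker0 p (VN N) then cw k Q N else 0) * (N.idx : ℝ) ^ m)) := by
      rw [← sum_add_distrib, ← sum_add_distrib]
      refine sum_congr rfl fun N _ => ?_
      have s1 : ∑ p ∈ X1, (1 : ℝ) / p *
          ((if (p : ℤ) ∣ (VN N).det then cw k Q N else 0) * (N.idx : ℝ) ^ m) =
          (cw k Q N * (N.idx : ℝ) ^ m) *
            ∑ p ∈ X1, (if (p : ℤ) ∣ (VN N).det then (1 : ℝ) / p else 0) := by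
        rw [mul_sum]
        refine sum_congr rfl fun p _ => ?_
        split_ifs <;> ring
      have s2 : ∑ p ∈ X2, ((if Ker0 p (VN N) then cw k Q N else 0) * (N.idx : ℝ) ^ m) =
          (cw k Q N * (N.idx : ℝ) ^ m) * ∑ p ∈ X2, (if Ker0 p (VN N) then (1 : ℝ) else 0) := by
        rw [mul_sum]
        refine sum_congr rfl fun p _ => ?_
        split_ifs <;> ring
      rw [s1, s2]
      ring
    rw [t1, ← mul_sum, ← mul_sum, ← mul_sum, ← mul_sum, ← mul_sum]
    congr 2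
    · congr 1
      rw [sum_comm]
      congr 1
      refine sum_congr rfl fun p _ => ?_
      rw [mul_sum]
    · rw [sum_comm]
  rw [e1]
  refine mul_le_mul_of_nonneg_left ?_ hPr0
  have hG0 : ∀ p : ℕ, 0 ≤ (if z < p then (p : ℝ) ^ (k + m - 2) *
      wsn k (k + m) m (cw k Q) (y / (p : ℝ) ^ (k + m)) else 0) := by
    intro p
    split_ifs
    · exact mul_nonneg (by positivity) (wsn_nonneg hn (cw_nonneg k Q) m _)
    · exact le_rfl
  have hGs := Gz_summable (m := m) hk Q z hy0.le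
  have e2 : ∑ p ∈ X1, (1 : ℝ) / p * wsn k (k + m) m
      (fun N => if (p : ℤ) ∣ (VN N).det then cw k Q N else 0) y ≤ k * Gz k m Q z y := by
    have h1 : ∀ p ∈ X1, (1 : ℝ) / p * wsn k (k + m) m
        (fun N => if (p : ℤ) ∣ (VN N).det then cw k Q N else 0) y ≤
        k * (if z < p then (p : ℝ) ^ (k + m - 2) *
          wsn k (k + m) m (cw k Q) (y / (p : ℝ) ^ (k + m)) else 0) := by
      intro p hp
      rw [hX1, mem_filter, Finset.mem_Ioc] at hp
      obtain ⟨⟨hp1, hp2⟩, hp3, hp4⟩ := hp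
      have hp0 : (0 : ℝ) < p := by exact_mod_cast hp3.pos
      rw [if_pos hp1]
      have h2 := wsn_dvd (k := k) (m := m) (by omega) hp3 hp4 y
      calc (1 : ℝ) / p * wsn k (k + m) m
            (fun N => if (p : ℤ) ∣ (VN N).det then cw k Q N else 0) y ≤
          (1 : ℝ) / p * (k * (p : ℝ) ^ (k - 1 + m) *
            wsn k (k + m) m (cw k Q) (y / (p : ℝ) ^ (k + m))) :=
            mul_le_mul_of_nonneg_left h2 (by positivity)
        _ = _ := by
            have h3 : (p : ℝ) ^ (k - 1 + m) = (p : ℝ) ^ (k + m - 2) * p := by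
              rw [← pow_succ]
              congr 1
              omega
            rw [h3]
            field_simp
    refine (sum_le_sum h1).trans ?_
    rw [← mul_sum]
    exact mul_le_mul_of_nonneg_left (hGs.sum_le_tsum _ fun p _ => hG0 p) hk0
  have e3 : ∑ p ∈ X2, wsn k (k + m) m (fun N => if Ker0 p (VN N) then cw k Q N else 0) y ≤
      k ^ 2 * Gz k m Q z y := by
    have h1 : ∀ p ∈ X2, wsn k (k + m) m (fun N => if Ker0 p (VN N) then cw k Q N else 0) y ≤
        (k : ℝ) ^ 2 * (if z < p then (p : ℝ) ^ (k + m - 2) *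
          wsn k (k + m) m (cw k Q) (y / (p : ℝ) ^ (k + m)) else 0) := by
      intro p hp
      rw [hX2, mem_filter, Finset.mem_Ioc] at hp
      obtain ⟨⟨hp1, hp2⟩, hp3, hp4⟩ := hp
      rw [if_pos hp1]
      have h2 := wsn_ker (k := k) (m := m) (by omega) hp3 hp4 y
      refine h2.trans (le_of_eq ?_)
      have h3 : k - 2 + m = k + m - 2 := by omega
      rw [h3]
      ring
    refine (sum_le_sum h1).trans ?_
    rw [← mul_sum]
    exact mul_le_mul_of_nonneg_left (hGs.sum_le_tsum _ fun p _ => hG0 p) (by positivity)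
  have hGz0 : 0 ≤ Gz k m Q z y := tsum_nonneg hG0
  have haQ : 0 ≤ wsn k (k + m) m (cw k Q) y := wsn_nonneg hn (cw_nonneg k Q) m y
  have e4 : (K / z + K * A / lam) ≤
      (K + K * k + k ^ 2) / z + (K + K * k + k ^ 2) * A / lam := by
    have h1 : K ≤ K + K * k + k ^ 2 := by
      have : 0 ≤ K * (k : ℝ) + k ^ 2 := by positivity
      linarith
    gcongr
  have e5 : K * ∑ p ∈ X1, (1 : ℝ) / p * wsn k (k + m) m
      (fun N => if (p : ℤ) ∣ (VN N).det then cw k Q N else 0) y ≤ K * (k * Gz k m Q z y) :=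
    mul_le_mul_of_nonneg_left e2 hK.le
  have e6 := mul_le_mul_of_nonneg_right e4 haQ
  nlinarith [mul_nonneg hK.le hGz0]

/-- the sieve -/
theorem sieve {th : Fin k ⊕ Fin m → ℕ} (hk : 2 ≤ k) (hm : 2 ≤ m) (h5 : 5 ≤ k + m)
    (hth : Adm k th) : ∃ K : ℝ, 0 < K ∧
    ∀ (Q : ℕ) (hQ : 0 < Q) (κ : ℝ)
      (hκ : Tendsto (fun y : ℝ => wsn k (k + m) m (cw k Q) y / y) atTop (𝓝 κ))
      (C₀ : Fin m → Fin k → ℤ) (F : Filter (Cx k m → ℝ)) (hF : ∀ ν, Tendsto (fun σ => σ ν) F atTop)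
      (A₀ : ℕ) (hA : ∀ᶠ σ in F, ∀ ν ν', σ ν ≤ (σ ν') ^ A₀) (R : ℝ) (hR : 1 ≤ R) (z : ℕ)
      (hz : 1 ≤ z) (ε : ℝ) (hε : 0 < ε), ∀ᶠ σ in F, ((BadS th σ R Q C₀ z).ncard : ℝ) ≤
        (K * κ * R * (2 * R / Q) ^ (k * m) / z + ε) * ∏ ν, σ ν := by
  classical
  obtain ⟨K, hK, hsum⟩ := bad_sum (k := k) (m := m) hk hm h5 hth
  have hn : 0 < k + m := by omega
  refine ⟨2 * K, by positivity, ?_⟩
  intro Q hQ κ hκ C₀ F hF A₀ hA R hR z hz ε hε
  have hQ' : (0 : ℝ) < Q := by exact_mod_cast hQ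
  have hz0 : (0 : ℝ) < z := by exact_mod_cast hz
  have hκ0 : 0 ≤ κ := by
    refine ge_of_tendsto hκ ?_
    filter_upwards [eventually_gt_atTop 0] with y hy
    exact div_nonneg (wsn_nonneg hn (cw_nonneg k Q) m y) hy.le
  have hne : (univ : Finset (Fin k × Fin m)).Nonempty := ⟨(⟨0, by omega⟩, ⟨0, by omega⟩), mem_univ _⟩
  set lm : (Cx k m → ℝ) → ℕ := fun σ => (univ : Finset (Fin k × Fin m)).inf' hne fun x =>
    ⌊(R * σ (some x) - -(R * σ (some x))) / Q⌋₊ with hlm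
  have hfl : ∀ x : Fin k × Fin m, Tendsto (fun σ : Cx k m → ℝ =>
      ⌊(R * σ (some x) - -(R * σ (some x))) / Q⌋₊) F atTop := by
    intro x
    refine tendsto_nat_floor_atTop.comp ?_
    have h1 : Tendsto (fun σ : Cx k m → ℝ => (2 * R / Q) * σ (some x)) F atTop :=
      Tendsto.const_mul_atTop (by positivity) (hF (some x))
    refine h1.congr fun σ => ?_
    field_simp
    ring
  have hlmt : Tendsto lm F atTop := by
    rw [tendsto_atTop]
    intro B
    have h1 : ∀ᶠ σ in F, ∀ x : Fin k × Fin m, B ≤ ⌊(R * σ (some x) - -(R * σ (some x))) / Q⌋₊ := by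
      rw [eventually_all]
      exact fun x => (hfl x).eventually_ge_atTop B
    filter_upwards [h1] with σ h
    exact le_inf' _ _ fun x _ => h x
  -- the limit of the bound
  set A : ℕ := (2 * A₀ + 1) + 1 + (2 * A₀ + 1) * k with hAdef
  have hcl : ∀ i j, Tendsto (fun σ : Cx k m → ℝ =>
      (⌈(R * σ (some (i, j)) - -(R * σ (some (i, j)))) / Q⌉₊ : ℝ) /
        σ (some (i, j))) F (𝓝 (2 * R / Q)) := by
    intro i j
    have h1 := (tendsto_nat_ceil_mul_div_atTop (R := ℝ) (a := 2 * R / Q)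
      (by positivity)).comp (hF (some (i, j)))
    refine h1.congr fun σ => ?_
    simp only [Function.comp]
    congr 3
    ring
  have hw : Tendsto (fun σ : Cx k m → ℝ => wsn k (k + m) m (cw k Q) (R * σ none) / σ none) F
      (𝓝 (κ * R)) := by
    have h1 := (hκ.comp (Tendsto.const_mul_atTop (show 0 < R by linarith) (hF none))).mul_const R
    refine h1.congr fun σ => ?_
    simp only [Function.comp]
    field_simp
  set τ := ∑' p : ℕ, (if z < p then ((p : ℝ) ^ 2)⁻¹ else 0) with hτ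
  have hg : Tendsto (fun σ : Cx k m → ℝ => Gz k m Q z (R * σ none) / σ none) F
      (𝓝 (κ * τ * R)) := by
    have h1 := ((Gz_tendsto (m := m) hk (z := z) hκ).comp
      (Tendsto.const_mul_atTop (show 0 < R by linarith) (hF none))).mul_const R
    refine h1.congr fun σ => ?_
    simp only [Function.comp]
    field_simp
  have hla : Tendsto (fun σ : Cx k m → ℝ => K * (A : ℝ) / (lm σ : ℝ)) F (𝓝 0) :=
    (tendsto_const_nhds.div_atTop tendsto_natCast_atTop_atTop).comp hlmt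
  have hT : Tendsto (fun σ : Cx k m → ℝ => (∏ j : Fin m, ∏ i : Fin k,
      ((⌈(R * σ (some (i, j)) - -(R * σ (some (i, j)))) / Q⌉₊ : ℝ) / σ (some (i, j)))) *
      ((K / z + K * (A : ℝ) / (lm σ : ℝ)) * (wsn k (k + m) m (cw k Q) (R * σ none) / σ none) +
        K * (Gz k m Q z (R * σ none) / σ none))) F
      (𝓝 ((∏ j : Fin m, ∏ i : Fin k, (2 * R / Q)) * ((K / z + 0) * (κ * R) + K * (κ * τ * R)))) :=
    (tendsto_finsetProd _ fun j _ => tendsto_finsetProd _ fun i _ => hcl i j).mul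
      (((tendsto_const_nhds.add hla).mul hw).add (hg.const_mul K))
  have hlim : (∏ j : Fin m, ∏ i : Fin k, (2 * R / Q)) * ((K / z + 0) * (κ * R) + K * (κ * τ * R)) <
      2 * K * κ * R * (2 * R / Q) ^ (k * m) / z + ε := by
    simp_rw [prod_const, card_univ, Fintype.card_fin]
    rw [← pow_mul, add_zero]
    have h1 : τ ≤ 1 / z := tsum_tail hz
    have h2 : K * (κ * τ * R) ≤ K * (κ * (1 / z) * R) := by
      have : 0 ≤ R := by linarith
      gcongr
    have h3 : (0 : ℝ) ≤ (2 * R / Q) ^ (k * m) := by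
      have : 0 ≤ R := by linarith
      positivity
    calc (2 * R / Q) ^ (k * m) * (K / z * (κ * R) + K * (κ * τ * R)) ≤
        (2 * R / Q) ^ (k * m) * (K / z * (κ * R) + K * (κ * (1 / z) * R)) := by gcongr
      _ = 2 * K * κ * R * (2 * R / Q) ^ (k * m) / z := by ring
      _ < _ := by linarith
  have hpos : ∀ᶠ σ in F, ∀ ν, 0 < σ ν := by
    rw [eventually_all]
    exact fun ν => (hF ν).eventually_gt_atTop 0
  filter_upwards [hT.eventually (eventually_lt_nhds hlim), hpos, hA,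
    hlmt.eventually_ge_atTop (max (max 2 k.factorial) (max (2 * Q) ⌈R⌉₊))] with σ h1 h2 h3 h4
  have hl2 : 2 ≤ lm σ := le_trans (le_trans (le_max_left _ _) (le_max_left _ _)) h4
  have hlk : k.factorial ≤ lm σ := le_trans (le_trans (le_max_right _ _) (le_max_left _ _)) h4
  have hlQ : 2 * Q ≤ lm σ := le_trans (le_trans (le_max_left _ _) (le_max_right _ _)) h4
  have hlR : ⌈R⌉₊ ≤ lm σ := le_trans (le_trans (le_max_right _ _) (le_max_right _ _)) h4
  have hlR' : R ≤ lm σ := (Nat.le_ceil R).trans (by exact_mod_cast hlR)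
  have hlam1 : (1 : ℝ) ≤ lm σ := by
    have : 1 ≤ lm σ := by omega
    exact_mod_cast this
  have hall : ∀ i j, lm σ ≤ ⌊(R * σ (some (i, j)) - -(R * σ (some (i, j)))) / Q⌋₊ := fun i j =>
    inf'_le (fun x : Fin k × Fin m => ⌊(R * σ (some x) - -(R * σ (some x))) / Q⌋₊) (mem_univ (i, j))
  obtain ⟨x₀, -, hx₀⟩ := exists_mem_eq_inf' hne fun x : Fin k × Fin m =>
    ⌊(R * σ (some x) - -(R * σ (some x))) / Q⌋₊
  have hx₁ : σ (some x₀) ≤ (lm σ : ℝ) ^ 2 := by
    have h5 : (R * σ (some x₀) - -(R * σ (some x₀))) / Q < (lm σ : ℝ) + 1 := by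
      rw [hlm]
      simp only
      rw [hx₀]
      exact Nat.lt_floor_add_one _
    rw [div_lt_iff₀ hQ'] at h5
    have h6 : ((2 * Q : ℕ) : ℝ) ≤ lm σ := by exact_mod_cast hlQ
    push_cast at h6
    have h7 : 2 * σ (some x₀) ≤ R * σ (some x₀) - -(R * σ (some x₀)) := by
      have := h2 (some x₀)
      nlinarith
    nlinarith
  have hσle : ∀ ν, R * σ ν ≤ (lm σ : ℝ) ^ (2 * A₀ + 1) := by
    intro ν
    have h5 := h3 ν (some x₀)
    have h6 : (σ (some x₀)) ^ A₀ ≤ ((lm σ : ℝ) ^ 2) ^ A₀ :=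
      pow_le_pow_left₀ (h2 _).le hx₁ _
    rw [← pow_mul] at h6
    rw [pow_succ, mul_comm R]
    exact mul_le_mul (h5.trans h6) hlR' (by linarith) (by positivity)
  have hb := hsum Q hQ C₀ σ h2 R hR (lm σ) hl2 hall (2 * A₀ + 1) (by exact_mod_cast hlk) hσle z hz
  refine hb.trans ?_
  have hprod : ∏ ν, σ ν = σ none * ∏ j : Fin m, ∏ i : Fin k, σ (some (i, j)) := by
    rw [Fintype.prod_option, Fintype.prod_prod_type, Finset.prod_comm]
  have hp1 : 0 < ∏ j : Fin m, ∏ i : Fin k, σ (some (i, j)) :=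
    prod_pos fun j _ => prod_pos fun i _ => h2 _
  have hp0 := h2 none
  rw [← hAdef]
  have h5 := mul_le_mul_of_nonneg_right h1.le (show 0 ≤ ∏ ν, σ ν by rw [hprod]; positivity)
  refine le_trans (le_of_eq ?_) h5
  rw [hprod]
  simp_rw [prod_div_distrib]
  generalize (∏ j : Fin m, ∏ i : Fin k,
    (⌈(R * σ (some (i, j)) - -(R * σ (some (i, j)))) / Q⌉₊ : ℝ)) = X
  field_simp

end

end Run7.h3.PM
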