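import Pool.Agent.Run7.h3.PM.Pos
import Pool.Agent.Run7.h3.PM.Sie
import Pool.Agent.Run7.h3.PM.Nge

set_option autoImplicit false
set_option linter.unusedSectionVars false
set_option linter.unusedVariables false

/-! Equidistribution of the matrices which are semistable modulo all primes. -/

namespace Run7.h3.PM

open Finset Module Filter Topology MeasureTheory Run7.h3.GT

section

variable {k m : ℕ} {th : Fin k ⊕ Fin m → ℕ}

theorem red_eq_iff {ι : Type} (d : ℕ) (M M' : Matrix (Fin k) ι ℤ) :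
    red d M = red d M' ↔ ∀ l x, (d : ℤ) ∣ M l x - M' l x := by
  constructor
  · intro h l x
    have h1 := congrFun (congrFun h l) x
    rw [← ZMod.intCast_zmod_eq_zero_iff_dvd, Int.cast_sub, sub_eq_zero]
    exact h1
  · intro h
    ext l x
    have h1 := h l x
    rw [← ZMod.intCast_zmod_eq_zero_iff_dvd, Int.cast_sub, sub_eq_zero] at h1
    exact h1

theorem red_of_dvd {ι : Type} {d R : ℕ} (hd : d ∣ R) {M M' : Matrix (Fin k) ι ℤ}
    (h : red R M = red R M') : red d M = red d M' := by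
  rw [red_eq_iff] at h ⊢
  exact fun l x => (Int.natCast_dvd_natCast.2 hd).trans (h l x)

theorem Uns_congr {ι : Type} [Fintype ι] {th : ι → ℕ} {p : ℕ} {M M' : Matrix (Fin k) ι ℤ}
    (h : red p M = red p M') : Uns th p M ↔ Uns th p M' := by
  unfold Uns
  rw [h]

/-- the arithmetic conditions -/
def Ar (th : Fin k ⊕ Fin m → ℕ) (Q : ℕ) (O : Set (Matrix (Fin k) (Fin k ⊕ Fin m) (ZMod Q))) (z : ℕ)
    (M : Matrix (Fin k) (Fin k ⊕ Fin m) ℤ) : Prop := red Q M ∈ O ∧ ∀ p, p ≤ z → ¬ Uns th p M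

/-- all the conditions -/
def ArG (th : Fin k ⊕ Fin m → ℕ) (Q : ℕ) (O : Set (Matrix (Fin k) (Fin k ⊕ Fin m) (ZMod Q)))
    (M : Matrix (Fin k) (Fin k ⊕ Fin m) ℤ) : Prop := red Q M ∈ O ∧ Gnr M ∧ ∀ p, ¬ Uns th p M

/-- invariance under the left action -/
def Inv (Q : ℕ) (O : Set (Matrix (Fin k) (Fin k ⊕ Fin m) (ZMod Q))) : Prop :=
  ∀ g : Matrix (Fin k) (Fin k) (ZMod Q), IsUnit g.det → ∀ M ∈ O, g * M ∈ O

/-- the residues which satisfy the conditions -/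
def Sz (th : Fin k ⊕ Fin m → ℕ) (Q : ℕ) (O : Set (Matrix (Fin k) (Fin k ⊕ Fin m) (ZMod Q))) (z : ℕ) :
    Set (Matrix (Fin k) (Fin k ⊕ Fin m) (ZMod (Q * z.factorial))) :=
  {N | ∃ M' : Matrix (Fin k) (Fin k ⊕ Fin m) ℤ, red (Q * z.factorial) M' = N ∧ Ar th Q O z M'}

theorem mem_Sz {Q : ℕ} {O : Set (Matrix (Fin k) (Fin k ⊕ Fin m) (ZMod Q))} {z : ℕ}
    (M : Matrix (Fin k) (Fin k ⊕ Fin m) ℤ) : red (Q * z.factorial) M ∈ Sz th Q O z ↔ Ar th Q O z M := by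
  constructor
  · rintro ⟨M', h1, h2, h3⟩
    refine ⟨?_, fun p hp hu => h3 p hp ?_⟩
    · rw [← red_of_dvd (dvd_mul_right Q z.factorial) h1]
      exact h2
    · have hpp : p.Prime := hu.1
      have hd : p ∣ Q * z.factorial := ((Nat.Prime.dvd_factorial hpp).2 hp).mul_left Q
      exact (Uns_congr (red_of_dvd hd h1)).2 hu
  · intro h
    exact ⟨M, rfl, h⟩

theorem unit_red {d R : ℕ} (hd : d ∣ R) {g : Matrix (Fin k) (Fin k) ℤ}
    (h : IsUnit (red R g).det) : IsUnit (red d g).det := by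
  have h1 : (red R g).det = ((g.det : ℤ) : ZMod R) := ((Int.castRingHom (ZMod R)).map_det g).symm
  have h2 : (red d g).det = ((g.det : ℤ) : ZMod d) := ((Int.castRingHom (ZMod d)).map_det g).symm
  have h3 := h.map (ZMod.castHom hd (ZMod d))
  rw [h1, map_intCast] at h3
  rw [h2]
  exact h3

theorem Uns_mul {ι : Type} [Fintype ι] {th : ι → ℕ} {p : ℕ} {g : Matrix (Fin k) (Fin k) ℤ}
    {M : Matrix (Fin k) ι ℤ} (hg : p.Prime → IsUnit (red p g).det) (h : ¬ Uns th p M) :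
    ¬ Uns th p (g * M) := by
  rintro ⟨hp, hu⟩
  have : Fact p.Prime := ⟨hp⟩
  apply hu
  have h1 : Sst th (red p M) := by
    by_contra hns
    exact h ⟨hp, hns⟩
  have h2 : red p (g * M) = red p g * red p M :=
    Matrix.map_mul (L := g) (M := M) (f := Int.castRingHom (ZMod p))
  rw [h2]
  exact h1.mul (hg hp)

theorem Sz_inv {Q : ℕ} (hQ : 0 < Q) {O : Set (Matrix (Fin k) (Fin k ⊕ Fin m) (ZMod Q))}
    (hO : Inv Q O) (z : ℕ) : Inv (Q * z.factorial) (Sz th Q O z) := by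
  intro g hg M hM
  obtain ⟨M', rfl, h2, h3⟩ := hM
  have : NeZero (Q * z.factorial) := ⟨(Nat.mul_pos hQ (Nat.factorial_pos z)).ne'⟩
  choose g' hg' using fun x : Fin k × Fin k => ZMod.intCast_surjective (g x.1 x.2)
  set G : Matrix (Fin k) (Fin k) ℤ := Matrix.of fun i j => g' (i, j) with hG
  have h4 : red (Q * z.factorial) G = g := by
    ext i j
    exact hg' (i, j)
  rw [← h4] at hg
  have hmul : ∀ d, red d (G * M') = red d G * red d M' := fun d =>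
    Matrix.map_mul (L := G) (M := M') (f := Int.castRingHom (ZMod d))
  refine ⟨G * M', ?_, ?_, fun p hp => ?_⟩
  · rw [hmul, h4]
  · rw [hmul]
    exact hO _ (unit_red (dvd_mul_right Q z.factorial) hg) _ h2
  · refine Uns_mul (fun hpp => ?_) (h3 p hp)
    exact unit_red (((Nat.Prime.dvd_factorial hpp).2 hp).mul_left Q) hg

/-- vanishing minors are small -/
theorem sml_of_not {V : Matrix (Fin k) (Fin k) ℤ} {Z : Fin m → Fin k → ℤ}
    (h : ¬ Gnr (MM V Z)) {s : Fin k → Fin m → ℝ} (hs : ∀ i j, 0 < s i j) {θ : ℝ} (hθ : 0 < θ) :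
    ∃ f : Fin k → Fin k ⊕ Fin m, Std f ∧ Sml V s θ f Z := by
  unfold Gnr at h
  push Not at h
  obtain ⟨f, hf, h0⟩ := h
  obtain ⟨π, hπ⟩ := exists_std hf
  refine ⟨f ∘ π, hπ, ?_⟩
  unfold Sml
  rw [mnr_comp, h0, mul_zero, Int.cast_zero, abs_zero]
  have := sc_pos hs (f ∘ π)
  positivity

theorem ps_pos {F : Filter (Cx k m → ℝ)} (hF : ∀ ν, Tendsto (fun σ => σ ν) F atTop) (B : ℝ) :
    ∀ᶠ σ in F, ∀ ν, B ≤ σ ν := by
  rw [eventually_all]
  exact fun ν => (hF ν).eventually_ge_atTop B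

/-- the comparison of the counts: a general form -/
theorem compare (hk : 2 ≤ k) (hm : 2 ≤ m) (h5 : 5 ≤ k + m) (hth : Adm k th) : ∃ K : ℝ, 0 < K ∧
    ∀ (Q : ℕ) (hQ : 0 < Q) (κ : ℝ)
      (hκ : Tendsto (fun y : ℝ => wsn k (k + m) m (cw k Q) y / y) atTop (𝓝 κ))
      (C₀ : Fin m → Fin k → ℤ) (F : Filter (Cx k m → ℝ)) (hF : ∀ ν, Tendsto (fun σ => σ ν) F atTop)
      (A₀ : ℕ) (hA : ∀ᶠ σ in F, ∀ ν ν', σ ν ≤ (σ ν') ^ A₀) (R : ℝ) (hR : 1 ≤ R) (z : ℕ)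
      (hz : 1 ≤ z) (A A' : Matrix (Fin k) (Fin k ⊕ Fin m) ℤ → Prop)
      (hAA : ∀ (N : SLg (Fin k → ℤ)) (Z : Fin m → Fin k → ℤ), A (MM (VN N) Z) → Gnr (MM (VN N) Z) →
        ¬ A' (MM (VN N) Z) → Nat.Coprime N.idx Q ∧ (∀ j, rcn Q ((VN N).mulVec (C₀ j)) (Z j)) ∧
          ∃ p : ℕ, z < p ∧ ¬ p ∣ Q ∧ Uns th p (MM (VN N) Z))
      (a b : Cx k m → ℝ) (ha : 0 ≤ a none) (haR : ∀ ν, -R ≤ a ν) (hbR : ∀ ν, b ν ≤ R)
      (ε : ℝ) (hε : 0 < ε), ∀ᶠ σ in F, ((TS σ (Ib a b) A).ncard : ℝ) / ∏ ν, σ ν ≤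
        ((TS σ (Ib a b) A').ncard : ℝ) / ∏ ν, σ ν + K * κ * R * (2 * R / Q) ^ (k * m) / z + ε := by
  classical
  obtain ⟨K, hK, hs⟩ := sieve (k := k) (m := m) hk hm h5 hth
  obtain ⟨C, hC, hsm⟩ := sml_total (k := k) (m := m) (by omega)
  refine ⟨K, hK, ?_⟩
  intro Q hQ κ hκ C₀ F hF A₀ hA R hR z hz A A' hAA a b ha haR hbR ε hε
  set B : ℝ := C * R * (6 * R) ^ (k * m) with hB
  have hB0 : 0 < B := by positivity
  set θ : ℝ := ε / (8 * B) with hθ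
  have hθ0 : 0 < θ := by positivity
  have hbd : Bornology.IsBounded (Ib a b) := by
    refine (Metric.isBounded_Icc a b).subset ?_
    intro x hx
    exact ⟨fun i => (hx i).1.le, fun i => (hx i).2⟩
  filter_upwards [hs Q hQ κ hκ C₀ F hF A₀ hA R hR z hz (ε / 2) (half_pos hε),
    ps_pos hF (max 1 (4 * B / ε))] with σ h1 h2
  have hσ1 : ∀ ν, 1 ≤ σ ν := fun ν => (le_max_left _ _).trans (h2 ν)
  have hσ0 : ∀ ν, 0 < σ ν := fun ν => lt_of_lt_of_le one_pos (hσ1 ν)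
  have hp0 : 0 < ∏ ν, σ ν := prod_pos fun ν _ => hσ0 ν
  obtain ⟨g1, g2⟩ := hsm σ (max 1 (4 * B / ε)) (le_max_left _ _) (hσ0 none)
    (fun i j => h2 (some (i, j))) R hR θ hθ0
  have hsub : TS σ (Ib a b) A ⊆ (TS σ (Ib a b) A' ∪ BadS th σ R Q C₀ z) ∪ SmS σ R θ := by
    rintro ⟨N, Z⟩ ⟨hx, hA1⟩
    have hxn := hx none
    have hx0 : ∀ ν, |co (N, Z) ν| ≤ R * σ ν := by
      intro ν
      have h3 := hx ν
      rw [Set.mem_Ioc, lt_div_iff₀ (hσ0 ν), div_le_iff₀ (hσ0 ν)] at h3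
      rw [abs_le]
      have h4 := mul_le_mul_of_nonneg_right (haR ν) (hσ0 ν).le
      have h5 := mul_le_mul_of_nonneg_right (hbR ν) (hσ0 ν).le
      constructor
      · linarith [h3.1]
      · linarith [h3.2]
    by_cases hG : Gnr (MM (VN N) Z)
    · left
      by_cases hA2 : A' (MM (VN N) Z)
      · exact Or.inl ⟨hx, hA2⟩
      · right
        obtain ⟨e1, e2, e3⟩ := hAA N Z hA1 hG hA2
        refine ⟨fun ν => ?_, e1, e2, hG, e3⟩
        have h3 := hx ν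
        rcases ν with _ | x
        · simp only [if_pos]
          exact ⟨lt_of_le_of_lt ha h3.1, h3.2.trans (hbR none)⟩
        · simp only [reduceCtorEq, if_false]
          exact ⟨lt_of_le_of_lt (haR _) h3.1, h3.2.trans (hbR _)⟩
    · right
      refine ⟨?_, fun i j => hx0 (some (i, j)), sml_of_not hG (fun i j => hσ0 _) hθ0⟩
      exact (le_abs_self _).trans (hx0 none)
  have f1 : (TS σ (Ib a b) A').Finite := TS_fin (by omega) hσ0 hbd _
  have f2 : (BadS th σ R Q C₀ z).Finite := by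
    have hbd2 : Bornology.IsBounded (Ib (fun ν : Cx k m => if ν = none then 0 else -R) fun _ => R) := by
      refine (Metric.isBounded_Icc (fun ν : Cx k m => if ν = none then 0 else -R) fun _ => R).subset ?_
      intro x hx
      exact ⟨fun i => (hx i).1.le, fun i => (hx i).2⟩
    exact (TS_fin (by omega) hσ0 hbd2 (fun _ => True)).subset fun P hP => ⟨hP.1, trivial⟩
  have h3 : (TS σ (Ib a b) A).ncard ≤ (TS σ (Ib a b) A').ncard + (BadS th σ R Q C₀ z).ncard +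
      (SmS σ R θ).ncard := by
    refine (Set.ncard_le_ncard hsub ((f1.union f2).union g1)).trans ?_
    refine (Set.ncard_union_le _ _).trans (Nat.add_le_add_right (Set.ncard_union_le _ _) _)
  have h4 : ((TS σ (Ib a b) A).ncard : ℝ) ≤ ((TS σ (Ib a b) A').ncard : ℝ) +
      ((BadS th σ R Q C₀ z).ncard : ℝ) + ((SmS σ R θ).ncard : ℝ) := by exact_mod_cast h3
  have h5 : B * (2 * θ + 1 / max 1 (4 * B / ε)) ≤ ε / 2 := by
    have h6 : 1 / max 1 (4 * B / ε) ≤ ε / (4 * B) := by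
      rw [div_le_div_iff₀ (by positivity) (by positivity)]
      have h7 := le_max_right 1 (4 * B / ε)
      rw [div_le_iff₀ hε] at h7
      linarith
    calc B * (2 * θ + 1 / max 1 (4 * B / ε)) ≤ B * (2 * θ + ε / (4 * B)) := by gcongr
      _ = ε / 2 := by
          rw [hθ]
          field_simp
          ring
  rw [div_le_iff₀ hp0]
  have h6 : (((TS σ (Ib a b) A').ncard : ℝ) / ∏ ν, σ ν + K * κ * R * (2 * R / Q) ^ (k * m) / z + ε) *
      ∏ ν, σ ν = ((TS σ (Ib a b) A').ncard : ℝ) +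
      (K * κ * R * (2 * R / Q) ^ (k * m) / z + ε / 2) * ∏ ν, σ ν + ε / 2 * ∏ ν, σ ν := by
    field_simp
    ring
  rw [h6]
  have h7 : ((SmS σ R θ).ncard : ℝ) ≤ ε / 2 * ∏ ν, σ ν := by
    refine g2.trans ?_
    rw [← hB]
    exact mul_le_mul_of_nonneg_right h5 hp0.le
  linarith

theorem TS_div_mono {σ : Cx k m → ℝ} (hk : 0 < k) (hσ : ∀ ν, 0 < σ ν) {E E' : Set (Cx k m → ℝ)}
    (hE : Bornology.IsBounded E') (hEE : E ⊆ E') {A A' : Matrix (Fin k) (Fin k ⊕ Fin m) ℤ → Prop}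
    (hAA : ∀ M, A M → A' M) : ((TS σ E A).ncard : ℝ) / ∏ ν, σ ν ≤
      ((TS σ E' A').ncard : ℝ) / ∏ ν, σ ν := by
  have hp0 : 0 < ∏ ν, σ ν := prod_pos fun ν _ => hσ ν
  refine div_le_div_of_nonneg_right ?_ hp0.le
  have h : TS σ E A ⊆ TS σ E' A' := fun P hP => ⟨hEE hP.1, hAA _ hP.2⟩
  exact_mod_cast Set.ncard_le_ncard h (TS_fin hk hσ hE _)

/-- the diagonal -/
def dg0 (k m : ℕ) : Filter (Cx k m → ℝ) := Filter.map (fun (t : ℝ) _ => t) atTop

instance : (dg0 k m).NeBot := by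
  unfold dg0
  infer_instance

theorem dg0_tendsto (ν : Cx k m) : Tendsto (fun σ : Cx k m → ℝ => σ ν) (dg0 k m) atTop := by
  unfold dg0
  rw [tendsto_map'_iff]
  exact tendsto_id

theorem dg0_pow : ∀ᶠ σ in dg0 k m, ∀ ν ν', σ ν ≤ (σ ν') ^ 1 := by
  unfold dg0
  rw [eventually_map]
  exact Eventually.of_forall fun t ν ν' => by simp

/-- the asymptotics for boxes -/
theorem eqd_box (hk : 2 ≤ k) (hm : 2 ≤ m) (h5 : 5 ≤ k + m) (hth : Adm k th) {Q : ℕ} (hQ : 0 < Q)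
    {O : Set (Matrix (Fin k) (Fin k ⊕ Fin m) (ZMod Q))} (hO : Inv Q O) :
    ∃ κ : ℝ, 0 ≤ κ ∧ ∀ (F : Filter (Cx k m → ℝ)) (hF : ∀ ν, Tendsto (fun σ => σ ν) F atTop)
      (A₀ : ℕ) (hA : ∀ᶠ σ in F, ∀ ν ν', σ ν ≤ (σ ν') ^ A₀) (a b : Cx k m → ℝ) (ha : 0 ≤ a none)
      (hab : ∀ ν, a ν ≤ b ν),
      Tendsto (fun σ => ((TS σ (Ib a b) (ArG th Q O)).ncard : ℝ) / ∏ ν, σ ν) F
        (𝓝 (κ * (volume (Ib a b)).toReal)) := by
  classical
  obtain ⟨K, hK, hcmp⟩ := compare (k := k) (m := m) hk hm h5 hth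
  obtain ⟨κ₁, hκ₁0, hκ₁⟩ := cw_tendsto (k := k) (by omega) m one_pos
  have hQz : ∀ z : ℕ, 0 < Q * z.factorial := fun z => Nat.mul_pos hQ (Nat.factorial_pos z)
  choose κz hκz0 hκz1 hκz2 using fun z : ℕ =>
    box_tendsto (k := k) (m := m) (by omega) (hQz z) (Sz_inv hQ hO z)
  have hpred : ∀ z : ℕ, (fun M : Matrix (Fin k) (Fin k ⊕ Fin m) ℤ =>
      M.map (Int.cast : ℤ → ZMod (Q * z.factorial)) ∈ Sz th Q O z) = Ar th Q O z := by
    intro z
    funext M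
    exact propext (mem_Sz M)
  -- monotonicity in z
  have hanti : Antitone κz := by
    intro z z' hzz
    have h1 := hκz2 z (dg0 k m) dg0_tendsto (fun _ => 0) (fun _ => 1) le_rfl (fun _ => zero_le_one)
    have h2 := hκz2 z' (dg0 k m) dg0_tendsto (fun _ => 0) (fun _ => 1) le_rfl (fun _ => zero_le_one)
    have h3 : (volume (Ib (fun _ : Cx k m => (0 : ℝ)) fun _ => 1)).toReal = 1 := by
      rw [Ib_vol (fun _ => zero_le_one)]
      simp
    rw [h3, mul_one, hpred] at h1 h2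
    refine le_of_tendsto_of_tendsto h2 h1 ?_
    filter_upwards [ps_pos (k := k) (m := m) dg0_tendsto 1] with σ hσ
    refine TS_div_mono (by omega) (fun ν => lt_of_lt_of_le one_pos (hσ ν)) ?_ subset_rfl ?_
    · refine (Metric.isBounded_Icc (fun _ : Cx k m => (0 : ℝ)) fun _ => 1).subset ?_
      intro x hx
      exact ⟨fun i => (hx i).1.le, fun i => (hx i).2⟩
    · rintro M ⟨g1, g2⟩
      exact ⟨g1, fun p hp => g2 p (hp.trans hzz)⟩
  have hbdd : BddBelow (Set.range κz) := ⟨0, by rintro _ ⟨z, rfl⟩; exact hκz0 z⟩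
  have hlim := tendsto_atTop_ciInf hanti hbdd
  set κ := ⨅ z, κz z with hκ
  refine ⟨κ, le_ciInf hκz0, ?_⟩
  intro F hF A₀ hA a b ha hab
  set v := (volume (Ib a b)).toReal with hv
  have hv0 : 0 ≤ v := ENNReal.toReal_nonneg
  obtain ⟨R, hR1, haR, hbR⟩ : ∃ R : ℝ, 1 ≤ R ∧ (∀ ν, -R ≤ a ν) ∧ ∀ ν, b ν ≤ R := by
    refine ⟨1 + ∑ ν, |a ν| + ∑ ν, |b ν|, ?_, fun ν => ?_, fun ν => ?_⟩
    · have h1 : 0 ≤ ∑ ν, |a ν| := sum_nonneg fun _ _ => abs_nonneg _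
      have h2 : 0 ≤ ∑ ν, |b ν| := sum_nonneg fun _ _ => abs_nonneg _
      linarith
    · have h1 : |a ν| ≤ ∑ ν, |a ν| := single_le_sum (f := fun ν => |a ν|) (fun _ _ => abs_nonneg _)
        (mem_univ ν)
      have h2 : 0 ≤ ∑ ν, |b ν| := sum_nonneg fun _ _ => abs_nonneg _
      linarith [neg_abs_le (a ν)]
    · have h1 : |b ν| ≤ ∑ ν, |b ν| := single_le_sum (f := fun ν => |b ν|) (fun _ _ => abs_nonneg _)
        (mem_univ ν)
      have h2 : 0 ≤ ∑ ν, |a ν| := sum_nonneg fun _ _ => abs_nonneg _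
      linarith [le_abs_self (b ν)]
  have hbd : Bornology.IsBounded (Ib a b) := by
    refine (Metric.isBounded_Icc a b).subset ?_
    intro x hx
    exact ⟨fun i => (hx i).1.le, fun i => (hx i).2⟩
  rw [Metric.tendsto_nhds]
  intro ε hε
  -- choose z
  set L : ℝ := K * κ₁ * R * (2 * R / (1 : ℕ)) ^ (k * m) with hL
  have hL0 : 0 ≤ L := by positivity
  obtain ⟨z, hz1, hz2, hz3⟩ : ∃ z : ℕ, 1 ≤ z ∧ L / z < ε / 8 ∧ |κz z - κ| * v < ε / 8 := by
    have e1 : ∀ᶠ z : ℕ in atTop, L / (z : ℝ) < ε / 8 :=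
      (tendsto_const_nhds.div_atTop tendsto_natCast_atTop_atTop).eventually
        (eventually_lt_nhds (show (0 : ℝ) < ε / 8 by positivity))
    have e2 : ∀ᶠ z : ℕ in atTop, |κz z - κ| * v < ε / 8 := by
      have h1 : Tendsto (fun z => |κz z - κ| * v) atTop (𝓝 (|κ - κ| * v)) :=
        ((hlim.sub_const κ).abs).mul_const v
      rw [sub_self, abs_zero, zero_mul] at h1
      exact h1.eventually (eventually_lt_nhds (show (0 : ℝ) < ε / 8 by positivity))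
    obtain ⟨z, h1, h2, h3⟩ := ((eventually_ge_atTop 1).and (e1.and e2)).exists
    exact ⟨z, h1, h2, h3⟩
  have hTz := hκz2 z F hF a b ha hab
  rw [hpred] at hTz
  have hTz' := (Metric.tendsto_nhds.1 hTz) (ε / 8) (by positivity)
  have hc := hcmp 1 one_pos κ₁ hκ₁ (fun _ => 0) F hF A₀ hA R hR1 z hz1 (Ar th Q O z) (ArG th Q O)
    (fun N Z g1 g2 g3 => by
      refine ⟨Nat.coprime_one_right _, fun j i => by simp, ?_⟩
      have h1 : ∃ p, Uns th p (MM (VN N) Z) := by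
        by_contra hcon
        push Not at hcon
        exact g3 ⟨g1.1, g2, hcon⟩
      obtain ⟨p, hp⟩ := h1
      refine ⟨p, ?_, ?_, hp⟩
      · by_contra hpz
        exact g1.2 p (not_lt.1 hpz) hp
      · intro h2
        exact hp.1.one_lt.ne' (Nat.dvd_one.1 h2)) a b ha haR hbR (ε / 8) (by positivity)
  filter_upwards [hTz', hc, ps_pos hF 1] with σ h1 h2 h3
  have hσ0 : ∀ ν, 0 < σ ν := fun ν => lt_of_lt_of_le one_pos (h3 ν)
  have h4 : ((TS σ (Ib a b) (ArG th Q O)).ncard : ℝ) / ∏ ν, σ ν ≤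
      ((TS σ (Ib a b) (Ar th Q O z)).ncard : ℝ) / ∏ ν, σ ν :=
    TS_div_mono (by omega) hσ0 hbd subset_rfl fun M hM => ⟨hM.1, fun p _ => hM.2.2 p⟩
  rw [← hL] at h2
  rw [Real.dist_eq, abs_lt] at h1 ⊢
  rw [← hv] at h1
  have h5 : |κz z * v - κ * v| < ε / 8 := by
    rw [← sub_mul, abs_mul, abs_of_nonneg hv0]
    exact hz3
  rw [abs_lt] at h5
  constructor
  · linarith [h1.1, h5.1]
  · linarith [h1.2, h5.2]

/-- the asymptotics for sets with null boundary -/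
theorem eqd (hk : 2 ≤ k) (hm : 2 ≤ m) (h5 : 5 ≤ k + m) (hth : Adm k th) {Q : ℕ} (hQ : 0 < Q)
    {O : Set (Matrix (Fin k) (Fin k ⊕ Fin m) (ZMod Q))} (hO : Inv Q O) :
    ∃ κ : ℝ, 0 ≤ κ ∧ (∀ (a b : Cx k m → ℝ), 0 ≤ a none → (∀ ν, a ν ≤ b ν) →
      Tendsto (fun σ => ((TS σ (Ib a b) (ArG th Q O)).ncard : ℝ) / ∏ ν, σ ν) (dg0 k m)
        (𝓝 (κ * (volume (Ib a b)).toReal))) ∧
      ∀ (F : Filter (Cx k m → ℝ)) (hF : ∀ ν, Tendsto (fun σ => σ ν) F atTop)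
      (A₀ : ℕ) (hA : ∀ᶠ σ in F, ∀ ν ν', σ ν ≤ (σ ν') ^ A₀) (E : Set (Cx k m → ℝ))
      (hE : Bornology.IsBounded E) (r : ℝ) (hr : 0 < r) (hpos : ∀ x ∈ E, r < x none)
      (hfr : volume (frontier E) = 0),
      Tendsto (fun σ => ((TS σ E (ArG th Q O)).ncard : ℝ) / ∏ ν, σ ν) F
        (𝓝 (κ * (volume E).toReal)) := by
  classical
  obtain ⟨κ, hκ, hbox⟩ := eqd_box hk hm h5 hth hQ hO
  refine ⟨κ, hκ, fun a b ha hab => hbox (dg0 k m) dg0_tendsto 1 dg0_pow a b ha hab, ?_⟩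
  intro F hF A₀ hA E hE r hr hpos hfr
  refine jor (fun σ E => ((TS σ E (ArG th Q O)).ncard : ℝ) / ∏ ν, σ ν) κ hκ none ?_ ?_ ?_
    (fun a b ha hab => hbox F hF A₀ hA a b ha hab) hE hr hpos hfr
  · filter_upwards [ps_pos hF 1] with σ h3 S S' hS' hSS
    exact TS_div_mono (by omega) (fun ν => lt_of_lt_of_le one_pos (h3 ν)) hS' hSS fun M hM => hM
  · filter_upwards [ps_pos hF 1] with σ h3 h B
    have hσ0 : ∀ ν, 0 < σ ν := fun ν => lt_of_lt_of_le one_pos (h3 ν)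
    have hp0 : 0 < ∏ ν, σ ν := prod_pos fun ν _ => hσ0 ν
    rw [← sum_div]
    refine div_le_div_of_nonneg_right ?_ hp0.le
    have h4 := ncard_biU B (fun a => TS σ (Gb h a) (ArG th Q O)) (TS σ (⋃ a ∈ B, Gb h a) (ArG th Q O)) (by
      rintro P ⟨g1, g2⟩
      rw [Set.mem_iUnion₂] at g1
      obtain ⟨a, ha, g1⟩ := g1
      rw [Set.mem_iUnion₂]
      exact ⟨a, ha, g1, g2⟩) (fun a _ => by
        refine TS_fin (by omega) hσ0 ?_ _
        unfold Gb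
        refine (Metric.isBounded_Icc (fun i => h * (a i : ℝ)) fun i => h * (a i + 1)).subset ?_
        intro x hx
        exact ⟨fun i => (hx i).1.le, fun i => (hx i).2⟩)
    exact_mod_cast h4
  · filter_upwards [ps_pos hF 1] with σ h3 S S' hS' hSS
    have hσ0 : ∀ ν, 0 < σ ν := fun ν => lt_of_lt_of_le one_pos (h3 ν)
    have hp0 : 0 < ∏ ν, σ ν := prod_pos fun ν _ => hσ0 ν
    rw [← add_div]
    refine div_le_div_of_nonneg_right ?_ hp0.le
    have h4 : TS σ S' (ArG th Q O) ⊆ TS σ S (ArG th Q O) ∪ TS σ (S' \ S) (ArG th Q O) := by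
      rintro P ⟨g1, g2⟩
      by_cases h5 : (fun ν => co P ν / σ ν) ∈ S
      · exact Or.inl ⟨h5, g2⟩
      · exact Or.inr ⟨⟨g1, h5⟩, g2⟩
    have f1 : (TS σ S (ArG th Q O)).Finite := TS_fin (by omega) hσ0 (hS'.subset hSS) _
    have f2 : (TS σ (S' \ S) (ArG th Q O)).Finite :=
      TS_fin (by omega) hσ0 (hS'.subset Set.sdiff_subset) _
    exact_mod_cast (Set.ncard_le_ncard h4 (f1.union f2)).trans (Set.ncard_union_le _ _)

end

end Run7.h3.PM
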