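import Pool.Agent.Run7.h3.PM.Eqd

set_option autoImplicit false
set_option linter.unusedSectionVars false
set_option linter.unusedVariables false

/-! Equidistribution: positivity of the constant, uniformity. -/

namespace Run7.h3.PM

open Finset Module Filter Topology MeasureTheory Run7.h3.GT

section

variable {k m : ℕ} {th : Fin k ⊕ Fin m → ℕ}

/-- a class of the residues -/
def Cls (q : ℕ) (C : Fin m → Fin k → ℤ) : Set (Matrix (Fin k) (Fin k ⊕ Fin m) (ZMod q)) :=
  {N | ∃ g : Matrix (Fin k) (Fin k) (ZMod q), IsUnit g.det ∧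
    N = g * red q (MM (1 : Matrix (Fin k) (Fin k) ℤ) C)}

theorem Cls_inv (q : ℕ) (C : Fin m → Fin k → ℤ) : Inv q (Cls q C) := by
  rintro g hg M ⟨g', hg', rfl⟩
  refine ⟨g * g', ?_, (Matrix.mul_assoc _ _ _).symm⟩
  rw [Matrix.det_mul]
  exact hg.mul hg'

theorem red_MM (q : ℕ) (V : Matrix (Fin k) (Fin k) ℤ) (C : Fin m → Fin k → ℤ) :
    red q (MM V C) = MM (red q V) fun j l => ((C j l : ℤ) : ZMod q) := by
  unfold red
  rw [MM_map]

theorem red_one (q : ℕ) : red q (1 : Matrix (Fin k) (Fin k) ℤ) = 1 := by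
  unfold red
  ext i j
  by_cases h : i = j
  · subst h
    simp
  · simp [h]

theorem mem_Cls {q : ℕ} (C : Fin m → Fin k → ℤ) (V : Matrix (Fin k) (Fin k) (ZMod q))
    (c : Fin m → Fin k → ZMod q) : MM V c ∈ Cls q C ↔
      IsUnit V.det ∧ c = fun j => V.mulVec fun l => ((C j l : ℤ) : ZMod q) := by
  have key : ∀ g : Matrix (Fin k) (Fin k) (ZMod q), g * red q (MM (1 : Matrix (Fin k) (Fin k) ℤ) C) =
      MM g fun j => g.mulVec fun l => ((C j l : ℤ) : ZMod q) := by
    intro g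
    rw [red_MM, red_one, mul_MM, Matrix.mul_one]
  constructor
  · rintro ⟨g, hg, h⟩
    rw [key] at h
    have h1 : V = g := by
      ext l i
      exact congrFun (congrFun h l) (Sum.inl i)
    subst h1
    refine ⟨hg, ?_⟩
    funext j l
    exact congrFun (congrFun h l) (Sum.inr j)
  · rintro ⟨h1, rfl⟩
    exact ⟨V, h1, (key V).symm⟩

theorem unit_VN {q : ℕ} (N : SLg (Fin k → ℤ)) :
    IsUnit ((VN N).map (Int.cast : ℤ → ZMod q)).det ↔ Nat.Coprime N.idx q := by
  have h1 : ((VN N).map (Int.cast : ℤ → ZMod q)).det = (((VN N).det : ℤ) : ZMod q) :=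
    ((Int.castRingHom (ZMod q)).map_det (VN N)).symm
  rw [h1, ← VN_det N, ← ZMod.isUnit_iff_coprime]
  rcases Int.natAbs_eq (VN N).det with h | h
  · conv_lhs => rw [h]
    rw [Int.cast_natCast]
  · conv_lhs => rw [h]
    rw [Int.cast_neg, Int.cast_natCast, IsUnit.neg_iff]

theorem Wr_Cls {q : ℕ} (C : Fin m → Fin k → ℤ) (N : SLg (Fin k → ℤ)) :
    (Wr q (Cls q C) N : ℝ) = cw k q N := by
  unfold Wr cw
  by_cases h : Nat.Coprime N.idx q
  · rw [if_pos h]
    have h1 : {c : Fin m → Fin k → ZMod q | MM ((VN N).map (Int.cast : ℤ → ZMod q)) c ∈ Cls q C} =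
        {fun j => ((VN N).map (Int.cast : ℤ → ZMod q)).mulVec fun l => ((C j l : ℤ) : ZMod q)} := by
      ext c
      change MM ((VN N).map (Int.cast : ℤ → ZMod q)) c ∈ Cls q C ↔ _
      rw [mem_Cls, unit_VN, Set.mem_singleton_iff]
      exact ⟨fun h => h.2, fun h' => ⟨h, h'⟩⟩
    rw [h1, Set.ncard_singleton, Nat.cast_one]
  · rw [if_neg h]
    have h1 : {c : Fin m → Fin k → ZMod q | MM ((VN N).map (Int.cast : ℤ → ZMod q)) c ∈ Cls q C} =
        ∅ := by
      ext c
      change MM ((VN N).map (Int.cast : ℤ → ZMod q)) c ∈ Cls q C ↔ _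
      rw [mem_Cls, unit_VN]
      simp [h]
    rw [h1, Set.ncard_empty, Nat.cast_zero]

/-- the density of all semistable matrices is positive -/
theorem eqd_pos (hk : 2 ≤ k) (hm : 2 ≤ m) (h5 : 5 ≤ k + m) (hth : Adm k th) {i₀ : Fin k}
    (hmk : Mkd th (Sum.inl i₀)) {κ : ℝ} (hκ : ∀ (a b : Cx k m → ℝ), 0 ≤ a none →
    (∀ ν, a ν ≤ b ν) → Tendsto (fun σ => ((TS σ (Ib a b) (ArG th 1 Set.univ)).ncard : ℝ) / ∏ ν, σ ν)
      (dg0 k m) (𝓝 (κ * (volume (Ib a b)).toReal))) : 0 < κ := by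
  classical
  obtain ⟨K, hK, hcmp⟩ := compare (k := k) (m := m) hk hm h5 hth
  obtain ⟨z, hz⟩ := exists_nat_gt (max 1 K)
  have hz1 : (1 : ℝ) < z := lt_of_le_of_lt (le_max_left _ _) hz
  have hz1' : 1 ≤ z := by exact_mod_cast hz1.le
  have hzK : K < z := lt_of_le_of_lt (le_max_right _ _) hz
  set q := z.factorial with hq
  have hq0 : 0 < q := Nat.factorial_pos z
  have hq0' : (0 : ℝ) < q := by exact_mod_cast hq0
  obtain ⟨C, hC⟩ := exists_C₀ (k := k) (m := m) (by omega) (by omega) hth hmk ((range (z + 1)).filter Nat.Prime)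
    fun p hp => (mem_filter.1 hp).2
  obtain ⟨κ₁, hκ₁0, hκ₁⟩ := cw_tendsto (k := k) (by omega) m hq0
  have hκ₁p := cw_pos (k := k) (by omega) hq0 hκ₁
  obtain ⟨κ₂, hκ₂0, hκ₂, hbox⟩ := box_tendsto (k := k) (m := m) (by omega) hq0 (Cls_inv q C)
  have heq : κ₂ * (q : ℝ) ^ (k * m) = κ₁ := by
    refine tendsto_nhds_unique hκ₂ ?_
    have h1 : (fun N : SLg (Fin k → ℤ) => (Wr q (Cls q C) N : ℝ)) = cw k q := by
      funext N
      exact Wr_Cls C N
    rw [h1]
    exact hκ₁
  set a : Cx k m → ℝ := fun ν => if ν = none then 0 else -1 with ha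
  set b : Cx k m → ℝ := fun _ => 1 with hb
  have ha0 : a none = 0 := by simp [ha]
  have hab : ∀ ν, a ν ≤ b ν := by
    intro ν
    simp only [ha, hb]
    split_ifs <;> norm_num
  have haR : ∀ ν, -1 ≤ a ν := by
    intro ν
    simp only [ha]
    split_ifs <;> norm_num
  have hvol : (volume (Ib a b)).toReal = 2 ^ (k * m) := by
    rw [Ib_vol hab]
    rw [Fintype.prod_option]
    simp only [ha, hb, if_pos, reduceCtorEq, if_false]
    rw [prod_const, card_univ, Fintype.card_prod, Fintype.card_fin, Fintype.card_fin]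
    norm_num
  have h1 := hκ a b ha0.ge hab
  have h2 := hbox (dg0 k m) dg0_tendsto a b ha0.ge hab
  rw [hvol] at h1 h2
  have h3 : κ₂ * 2 ^ (k * m) ≤ κ * 2 ^ (k * m) + K * κ₁ * 1 * (2 * 1 / (q : ℝ)) ^ (k * m) / z := by
    refine le_of_forall_pos_le_add fun ε hε => ?_
    have hc := hcmp q hq0 κ₁ hκ₁ C (dg0 k m) dg0_tendsto 1 dg0_pow 1 le_rfl z hz1'
      (fun M => M.map (Int.cast : ℤ → ZMod q) ∈ Cls q C) (ArG th 1 Set.univ) (by
        intro N Z g1 g2 g3
        have g1' : MM ((VN N).map (Int.cast : ℤ → ZMod q)) (fun j l => ((Z j l : ℤ) : ZMod q)) ∈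
            Cls q C := by
          rw [← MM_map]
          exact g1
        rw [mem_Cls, unit_VN] at g1'
        obtain ⟨e1, e2⟩ := g1'
        refine ⟨e1, ?_, ?_⟩
        · intro j i
          have e3 := congrFun (congrFun e2 j) i
          rw [← ZMod.intCast_zmod_eq_zero_iff_dvd, Int.cast_sub, sub_eq_zero, e3]
          simp only [Matrix.mulVec, dotProduct, Matrix.map_apply]
          push_cast
          rfl
        · have h1 : ∃ p, Uns th p (MM (VN N) Z) := by
            by_contra hcon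
            push Not at hcon
            exact g3 ⟨trivial, g2, hcon⟩
          obtain ⟨p, hp⟩ := h1
          have hzp : z < p := by
            by_contra hpz
            push Not at hpz
            have hpq : p ∣ q := (Nat.Prime.dvd_factorial hp.1).2 hpz
            refine hC p (mem_filter.2 ⟨mem_range.2 (by omega), hp.1⟩) ?_
            by_contra hns
            have f1 : IsUnit (red p (VN N)).det := by
              refine unit_red hpq ?_
              exact unit_VN N |>.2 e1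
            have f2 := Uns_mul (g := VN N) (fun _ => f1) hns
            rw [mul_MM, Matrix.mul_one] at f2
            apply f2
            refine (Uns_congr (p := p) ?_).1 hp
            rw [red_eq_iff]
            intro l x
            rcases x with i | j
            · simp [MM_inl]
            · rw [MM_inr, MM_inr]
              have e3 := congrFun (congrFun e2 j) l
              refine (Int.natCast_dvd_natCast.2 hpq).trans ?_
              rw [← ZMod.intCast_zmod_eq_zero_iff_dvd, Int.cast_sub, sub_eq_zero, e3]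
              simp only [Matrix.mulVec, dotProduct, Matrix.map_apply]
              push_cast
              rfl
          refine ⟨p, hzp, fun hpq => ?_, hp⟩
          have := (Nat.Prime.dvd_factorial hp.1).1 hpq
          omega) a b ha0.ge haR (fun _ => le_rfl) ε hε
    have h4 := le_of_tendsto_of_tendsto h2 ((h1.add_const _).add_const _) hc
    linarith
  have h5 : K * κ₁ * 1 * (2 * 1 / (q : ℝ)) ^ (k * m) / z = κ₂ * 2 ^ (k * m) * (K / z) := by
    rw [← heq, div_pow]
    field_simp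
  rw [h5] at h3
  have hκ₂p : 0 < κ₂ := by
    by_contra h0
    have h6 : κ₂ = 0 := le_antisymm (not_lt.1 h0) hκ₂0
    rw [h6, zero_mul] at heq
    exact hκ₁p.ne heq
  have h7 : K / z < 1 := (div_lt_one (by linarith)).2 hzK
  have h8 : 0 < κ₂ * 2 ^ (k * m) * (1 - K / z) := by
    have : 0 < 1 - K / (z : ℝ) := by linarith
    positivity
  have h9 : 0 < κ * 2 ^ (k * m) := by nlinarith
  exact pos_of_mul_pos_left h9 (by positivity)

/-- the filter of the large parameters -/
def FL (k m A₀ : ℕ) : Filter (Cx k m → ℝ) :=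
  (⨅ ν : Cx k m, Filter.comap (fun σ => σ ν) atTop) ⊓ 𝓟 {σ | ∀ ν ν', σ ν ≤ (σ ν') ^ A₀}

theorem FL_tendsto (A₀ : ℕ) (ν : Cx k m) :
    Tendsto (fun σ : Cx k m → ℝ => σ ν) (FL k m A₀) atTop :=
  (tendsto_comap.mono_left (iInf_le _ ν)).mono_left inf_le_left

theorem FL_pow (A₀ : ℕ) : ∀ᶠ σ in FL k m A₀, ∀ ν ν', σ ν ≤ (σ ν') ^ A₀ :=
  Filter.mem_of_superset (mem_inf_of_right (mem_principal_self _)) subset_rfl

theorem FL_ev {A₀ : ℕ} {P : (Cx k m → ℝ) → Prop} (h : ∀ᶠ σ in FL k m A₀, P σ) :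
    ∃ t : ℝ, ∀ σ : Cx k m → ℝ, (∀ ν, t ≤ σ ν) → (∀ ν ν', σ ν ≤ (σ ν') ^ A₀) → P σ := by
  unfold FL at h
  rw [eventually_inf_principal] at h
  rw [Filter.Eventually, Filter.mem_iInf_of_finite] at h
  obtain ⟨f, hf, hfi⟩ := h
  have h1 : ∀ ν, ∃ t : ℝ, ∀ σ : Cx k m → ℝ, t ≤ σ ν → σ ∈ f ν := by
    intro ν
    obtain ⟨u, hu, huf⟩ := hf ν
    obtain ⟨t, ht⟩ := mem_atTop_sets.1 hu
    exact ⟨t, fun σ hσ => huf (ht _ hσ)⟩
  choose t ht using h1
  refine ⟨∑ ν, |t ν|, fun σ h2 h3 => ?_⟩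
  have h4 : σ ∈ ⋂ ν, f ν := by
    rw [Set.mem_iInter]
    intro ν
    refine ht ν σ ?_
    refine (le_abs_self _).trans (le_trans ?_ (h2 ν))
    exact single_le_sum (f := fun ν => |t ν|) (fun _ _ => abs_nonneg _) (mem_univ ν)
  rw [← hfi] at h4
  exact h4 h3

end

end Run7.h3.PM
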