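import Pool.Agent.Run7.h3.PM.Res
import Pool.Agent.Run7.h3.PM.Cube

set_option autoImplicit false
set_option linter.unusedSectionVars false
set_option linter.unusedVariables false

/-! Bases of subgroups with the same reduction modulo `Q`. -/

namespace Run7.h3.PM

open Finset Module Filter Topology

theorem exists_inj {K E : Type} [Field K] [AddCommGroup E] [Module K E] [FiniteDimensional K E]
    (f g : E →ₗ[K] E) (h : LinearMap.ker f ⊓ LinearMap.ker g = ⊥) :
    ∃ U : E →ₗ[K] E, Function.Injective (f + U ∘ₗ g) := by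
  obtain ⟨C, hC⟩ := Submodule.exists_isCompl (LinearMap.range f)
  have h1 : finrank K (LinearMap.ker f) = finrank K C := by
    have h2 := LinearMap.finrank_range_add_finrank_ker f
    have h3 := Submodule.finrank_add_eq_of_isCompl hC
    omega
  set θ : (LinearMap.ker f) ≃ₗ[K] C := LinearEquiv.ofFinrankEq _ _ h1 with hθ
  have hinj : Function.Injective (g ∘ₗ (LinearMap.ker f).subtype) := by
    rw [← LinearMap.ker_eq_bot, eq_bot_iff]
    intro x hx
    rw [LinearMap.mem_ker] at hx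
    have h4 : (x : E) ∈ LinearMap.ker f ⊓ LinearMap.ker g := ⟨x.2, hx⟩
    rw [h, Submodule.mem_bot] at h4
    rw [Submodule.mem_bot]
    exact Subtype.ext h4
  obtain ⟨u, hu⟩ := LinearMap.exists_leftInverse_of_injective _ (LinearMap.ker_eq_bot.2 hinj)
  refine ⟨C.subtype ∘ₗ θ.toLinearMap ∘ₗ u, ?_⟩
  rw [← LinearMap.ker_eq_bot, eq_bot_iff]
  intro x hx
  rw [LinearMap.mem_ker] at hx
  have h5 : f x = -((θ (u (g x)) : C) : E) := eq_neg_of_add_eq_zero_left hx
  have h6 : f x ∈ LinearMap.range f ⊓ C := ⟨⟨x, rfl⟩, by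
    rw [h5]
    exact C.neg_mem (θ (u (g x))).2⟩
  rw [hC.inf_eq_bot, Submodule.mem_bot] at h6
  have h7 : x ∈ LinearMap.ker f := h6
  have h8 : u (g x) = ⟨x, h7⟩ := LinearMap.congr_fun hu ⟨x, h7⟩
  rw [h6, h8] at h5
  have h9 : ((θ ⟨x, h7⟩ : C) : E) = 0 := neg_eq_zero.1 h5.symm
  have h10 : θ ⟨x, h7⟩ = 0 := Subtype.ext h9
  have h11 := θ.map_eq_zero_iff.1 h10
  rw [Submodule.mem_bot]
  exact congrArg Subtype.val h11

theorem exists_field {p k : ℕ} [Fact p.Prime] (A A' : Matrix (Fin k) (Fin k) (ZMod p)) :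
    ∃ U : Matrix (Fin k) (Fin k) (ZMod p), (A + U * (1 - A' * A)).det ≠ 0 := by
  obtain ⟨U, hU⟩ := exists_inj (Matrix.toLin' A) (Matrix.toLin' (1 - A' * A)) (by
    rw [eq_bot_iff]
    rintro x ⟨h1, h2⟩
    have h1' : A.mulVec x = 0 := by
      have := h1
      rw [SetLike.mem_coe, LinearMap.mem_ker, Matrix.toLin'_apply] at this
      exact this
    have h2' : (1 - A' * A).mulVec x = 0 := by
      have := h2
      rw [SetLike.mem_coe, LinearMap.mem_ker, Matrix.toLin'_apply] at this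
      exact this
    rw [Matrix.sub_mulVec, Matrix.one_mulVec, ← Matrix.mulVec_mulVec, h1', Matrix.mulVec_zero,
      sub_zero] at h2'
    rw [Submodule.mem_bot]
    exact h2')
  refine ⟨LinearMap.toMatrix' U, ?_⟩
  intro h0
  obtain ⟨v, hv0, hv⟩ := Matrix.exists_mulVec_eq_zero_iff.2 h0
  refine hv0 (hU ?_)
  rw [map_zero, LinearMap.add_apply, LinearMap.comp_apply, Matrix.toLin'_apply,
    Matrix.toLin'_apply]
  rw [Matrix.add_mulVec, ← Matrix.mulVec_mulVec] at hv
  rw [← hv]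
  congr 1
  rw [LinearMap.toMatrix'_mulVec]

/-- simultaneous congruences -/
theorem crt {α : Type} (t : Finset ℕ) (ht : ∀ p ∈ t, p.Prime) (c : ℕ → α → ℤ) :
    ∃ u : α → ℤ, ∀ p ∈ t, ∀ a, (p : ℤ) ∣ u a - c p a := by
  classical
  induction t using Finset.induction_on with
  | empty => exact ⟨fun _ => 0, by simp⟩
  | insert q t hq ih =>
    obtain ⟨u, hu⟩ := ih fun p hp => ht p (mem_insert_of_mem hp)
    have hcop : Nat.Coprime q (∏ p ∈ t, p) := by
      refine Nat.Coprime.prod_right fun p hp => ?_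
      refine (Nat.coprime_primes (ht q (mem_insert_self _ _)) (ht p (mem_insert_of_mem hp))).2 ?_
      rintro rfl
      exact hq hp
    obtain ⟨a, b, hab⟩ := Nat.isCoprime_iff_coprime.2 hcop
    refine ⟨fun x => u x * (a * q) + c q x * (b * (∏ p ∈ t, p : ℕ)), fun p hp x => ?_⟩
    rcases mem_insert.1 hp with rfl | hp
    · refine ⟨u x * a - c p x * a, ?_⟩
      linear_combination (c p x) * hab
    · obtain ⟨y, hy⟩ := hu p hp x
      obtain ⟨z, hz⟩ := dvd_prod_of_mem (fun p => p) hp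
      refine ⟨y - u x * (b * z) + c q x * (b * z), ?_⟩
      rw [hz] at hab ⊢
      push_cast at hab ⊢
      linear_combination hy + (u x) * hab

theorem isUnit_of_primes {Q : ℕ} (hQ : 0 < Q) (d : ℤ) (h : ∀ p : ℕ, p.Prime → p ∣ Q → ¬ (p : ℤ) ∣ d) :
    IsUnit ((d : ℤ) : ZMod Q) := by
  have h1 : Nat.Coprime d.natAbs Q := by
    rw [Nat.coprime_iff_gcd_eq_one]
    by_contra hc
    obtain ⟨p, hp, hpd⟩ := Nat.exists_prime_and_dvd hc
    refine h p hp (hpd.trans (Nat.gcd_dvd_right _ _)) ?_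
    rw [← Int.dvd_natAbs]
    exact Int.natCast_dvd_natCast.2 (hpd.trans (Nat.gcd_dvd_left _ _))
  have h2 := (ZMod.isUnit_iff_coprime d.natAbs Q).2 h1
  rcases Int.natAbs_eq d with h3 | h3
  · rw [h3]
    simpa using h2
  · rw [h3]
    simpa using h2.neg

/-- the basis matrix -/
noncomputable def VN {k : ℕ} (N : SLg (Fin k → ℤ)) : Matrix (Fin k) (Fin k) ℤ :=
  Matrix.of fun i => ((Classical.choice (exists_basis N.1 N.2) i : N.1) : Fin k → ℤ)

theorem VN_det {k : ℕ} (N : SLg (Fin k → ℤ)) : (VN N).det.natAbs = N.idx := by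
  have h1 := AddSubgroup.index_eq_natAbs_det (Pi.basisFun ℤ (Fin k)) N.1
    (Classical.choice (exists_basis N.1 N.2))
  change _ = N.1.index
  rw [h1, Pi.basisFun_det_apply]
  rfl

theorem VN_det_ne {k : ℕ} (N : SLg (Fin k → ℤ)) : (VN N).det ≠ 0 := by
  intro h
  have := VN_det N
  rw [h] at this
  have h2 := N.idx_pos
  simp at this
  omega

theorem mem_N {k : ℕ} (N : SLg (Fin k → ℤ)) (v : Fin k → ℤ) :
    v ∈ N.1 ↔ ∃ c : Fin k → ℤ, v = ∑ i, c i • (VN N) i := by
  set b := Classical.choice (exists_basis N.1 N.2) with hb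
  constructor
  · intro hv
    refine ⟨fun i => b.repr ⟨v, hv⟩ i, ?_⟩
    have h1 := b.sum_repr ⟨v, hv⟩
    have h2 := congrArg (N.1.subtype) h1
    rw [map_sum] at h2
    exact h2.symm
  · rintro ⟨c, rfl⟩
    refine AddSubgroup.sum_mem _ fun i _ => zsmul_mem ?_ _
    exact (b i).2

theorem mem_Nrow {k : ℕ} (N : SLg (Fin k → ℤ)) (i : Fin k) : (VN N) i ∈ N.1 :=
  (mem_N N _).2 ⟨Pi.single i 1, by
    rw [Finset.sum_eq_single i]
    · simp
    · intro j _ hj
      simp [hj]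
    · intro h
      exact absurd (mem_univ _) h⟩

/-- reductions of basis matrices -/
theorem exists_gl {k Q : ℕ} (hQ : 0 < Q) (N N' : SLg (Fin k → ℤ))
    (h : N.1 ⊔ Qs k Q = N'.1 ⊔ Qs k Q) :
    ∃ g : Matrix (Fin k) (Fin k) (ZMod Q), IsUnit g.det ∧
      (VN N').map (Int.cast : ℤ → ZMod Q) = g * (VN N).map (Int.cast : ℤ → ZMod Q) := by
  have aux : ∀ N N' : SLg (Fin k → ℤ), N.1 ⊔ Qs k Q = N'.1 ⊔ Qs k Q →
      ∃ A : Matrix (Fin k) (Fin k) ℤ, (VN N').map (Int.cast : ℤ → ZMod Q) =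
        A.map (Int.cast : ℤ → ZMod Q) * (VN N).map (Int.cast : ℤ → ZMod Q) := by
    intro N N' h
    have h1 : ∀ i, ∃ c : Fin k → ℤ, ∀ j, (((VN N') i j : ℤ) : ZMod Q) =
        ∑ l, (c l : ZMod Q) * ((VN N l j : ℤ) : ZMod Q) := by
      intro i
      have h2 : (VN N') i ∈ N.1 ⊔ Qs k Q := by
        rw [h]
        exact AddSubgroup.mem_sup_left (mem_Nrow N' i)
      obtain ⟨x, hx, y, hy, hxy⟩ := AddSubgroup.mem_sup.1 h2
      obtain ⟨c, hc⟩ := (mem_N N x).1 hx
      refine ⟨c, fun j => ?_⟩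
      have h3 : (VN N') i j = x j + y j := by
        rw [← hxy]
        rfl
      have h4 : ((y j : ℤ) : ZMod Q) = 0 := (ZMod.intCast_zmod_eq_zero_iff_dvd _ _).2 (hy j)
      rw [h3, Int.cast_add, h4, add_zero, hc, Finset.sum_apply]
      push_cast
      refine sum_congr rfl fun l _ => ?_
      rw [Pi.smul_apply, smul_eq_mul]
      push_cast
      rfl
    choose A hA using h1
    refine ⟨Matrix.of A, ?_⟩
    funext i j
    rw [Matrix.mul_apply]
    exact hA i j
  obtain ⟨A, hA⟩ := aux N N' h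
  obtain ⟨A', hA'⟩ := aux N' N h.symm
  have hp : ∀ p : ℕ, ∃ U : Matrix (Fin k) (Fin k) ℤ, p.Prime →
      ¬ (p : ℤ) ∣ (A + U * (1 - A' * A)).det := by
    intro p
    by_cases hp : p.Prime
    · have : Fact p.Prime := ⟨hp⟩
      obtain ⟨U, hU⟩ := exists_field (A.map (Int.cast : ℤ → ZMod p)) (A'.map (Int.cast : ℤ → ZMod p))
      choose U' hU' using fun q : Fin k × Fin k => ZMod.intCast_surjective (U q.1 q.2)
      refine ⟨Matrix.of fun i j => U' (i, j), fun _ hd => hU ?_⟩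
      rw [← ZMod.intCast_zmod_eq_zero_iff_dvd] at hd
      rw [← hd]
      have h5 : (((A + (Matrix.of fun i j => U' (i, j)) * (1 - A' * A)).det : ℤ) : ZMod p) =
          ((Int.castRingHom (ZMod p)).mapMatrix (A + (Matrix.of fun i j => U' (i, j)) *
            (1 - A' * A))).det := (Int.castRingHom (ZMod p)).map_det _
      rw [h5, map_add, map_mul, map_sub, map_mul, map_one]
      congr 3
      funext i j
      exact (hU' (i, j)).symm
    · exact ⟨0, fun h => absurd h hp⟩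
  choose U hU using hp
  obtain ⟨W, hW⟩ := crt (α := Fin k × Fin k) Q.primeFactors (fun p hp => Nat.prime_of_mem_primeFactors hp)
    (fun p q => U p q.1 q.2)
  set W' : Matrix (Fin k) (Fin k) ℤ := Matrix.of fun i j => W (i, j) with hW'
  have h6 : ∀ p : ℕ, p.Prime → p ∣ Q → ¬ (p : ℤ) ∣ (A + W' * (1 - A' * A)).det := by
    intro p hp hpQ hd
    refine hU p hp ?_
    rw [← ZMod.intCast_zmod_eq_zero_iff_dvd] at hd ⊢
    have e : ∀ X : Matrix (Fin k) (Fin k) ℤ, (((A + X * (1 - A' * A)).det : ℤ) : ZMod p) =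
        ((Int.castRingHom (ZMod p)).mapMatrix A + (Int.castRingHom (ZMod p)).mapMatrix X *
          (Int.castRingHom (ZMod p)).mapMatrix (1 - A' * A)).det := by
      intro X
      rw [← map_mul, ← map_add]
      exact (Int.castRingHom (ZMod p)).map_det _
    rw [e] at hd ⊢
    have h7 : (Int.castRingHom (ZMod p)).mapMatrix (U p) =
        (Int.castRingHom (ZMod p)).mapMatrix W' := by
      funext i j
      have h8 := hW p (Nat.mem_primeFactors.2 ⟨hp, hpQ, hQ.ne'⟩) (i, j)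
      rw [← ZMod.intCast_zmod_eq_zero_iff_dvd, Int.cast_sub, sub_eq_zero] at h8
      exact h8.symm
    rw [h7]
    exact hd
  have h9 := isUnit_of_primes hQ _ h6
  have h10 : (((A + W' * (1 - A' * A)).det : ℤ) : ZMod Q) =
      ((Int.castRingHom (ZMod Q)).mapMatrix (A + W' * (1 - A' * A))).det :=
    (Int.castRingHom (ZMod Q)).map_det _
  refine ⟨(Int.castRingHom (ZMod Q)).mapMatrix (A + W' * (1 - A' * A)), by rwa [h10] at h9, ?_⟩
  rw [map_add, map_mul, map_sub, map_mul, map_one]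
  have hA1 : (VN N').map (Int.cast : ℤ → ZMod Q) = (Int.castRingHom (ZMod Q)).mapMatrix A *
      (VN N).map (Int.cast : ℤ → ZMod Q) := hA
  have hA2 : (VN N).map (Int.cast : ℤ → ZMod Q) = (Int.castRingHom (ZMod Q)).mapMatrix A' *
      (VN N').map (Int.cast : ℤ → ZMod Q) := hA'
  rw [add_mul, ← hA1, mul_assoc, sub_mul, one_mul, mul_assoc, ← hA1, ← hA2, sub_self, mul_zero,
    add_zero]

end Run7.h3.PM
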