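import Pool.Agent.Run7.h3.PM.Tail

set_option autoImplicit false
set_option linter.unusedSectionVars false
set_option linter.unusedVariables false

/-! The total number of the classes; most of the classes are well placed. -/

namespace Run7.h3.PM

open Finset Module Filter Topology Run7.h3.GT

section

variable {k m : ℕ} {ι : Type} [Fintype ι] [DecidableEq ι]

/-- the strips -/
def Strp (k : ℕ) (w : ℝ) (y : ι → ℤ) : Prop :=
  (∃ x x', x ≠ x' ∧ |(y x : ℝ) - y x'| < w) ∨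
    ∃ f : Fin k → ι, Function.Injective f ∧ ∑ l, (y (f l) : ℝ) < w

theorem strips (hk : 2 ≤ k) (hki : k + 2 ≤ Fintype.card ι) {A' : ℝ} (hA' : 0 ≤ A') :
    ∃ C : ℝ, 0 < C ∧ ∀ L : ℝ, 1 ≤ L → ∀ δ : ℝ, 0 < δ → 1 ≤ δ * L → ∀ Z : Finset (ι → ℤ),
      (∀ y ∈ Z, Ycl k (L + A') y ∧ Strp k (δ * L) y) →
      ∑ y ∈ Z, Real.exp (k * ∑ x, (y x : ℝ)) ≤
        C * δ * Real.exp L * L ^ (Fintype.card ι - 1) := by
  classical
  set n := Fintype.card ι with hn
  have he1 : (0 : ℝ) < 1 - Real.exp (-1) := by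
    have : Real.exp (-1) < 1 := by
      rw [← Real.exp_zero]
      exact Real.exp_lt_exp.2 (by norm_num)
    linarith
  set C₃ : ℝ := 2 * (k + n) * (1 + A') + 3 with hC₃
  have hC₃0 : 0 < C₃ := by positivity
  set c₀ : ℝ := ((Fintype.card ((ι × ι) ⊕ (Fin k → ι)) : ℕ) : ℝ) with hc₀
  have hc₀0 : 0 ≤ c₀ := Nat.cast_nonneg _
  refine ⟨(c₀ + 1) * (C₃ ^ (n - 2) * 5 * Real.exp A' * (1 - Real.exp (-1))⁻¹), by positivity,
    fun L hL δ hδ hδL Z hZ => ?_⟩
  have hLA : 0 ≤ L + A' := by linarith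
  set N : ℕ := ⌈(k + n) * (L + A')⌉₊ with hN
  set W : ℕ := ⌈δ * L⌉₊ with hW
  have hNle : (2 * (N : ℝ) + 1) ≤ C₃ * L := by
    have h1 : (N : ℝ) < (k + n) * (L + A') + 1 := Nat.ceil_lt_add_one (by positivity)
    have h2 : (k + n : ℝ) * (L + A') ≤ (k + n) * ((1 + A') * L) := by
      refine mul_le_mul_of_nonneg_left ?_ (by positivity)
      nlinarith
    calc 2 * (N : ℝ) + 1 ≤ 2 * ((k + n) * ((1 + A') * L) + 1) + 1 := by linarith
      _ = 2 * (k + n) * (1 + A') * L + 3 := by ring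
      _ ≤ 2 * (k + n) * (1 + A') * L + 3 * L := by linarith
      _ = C₃ * L := by rw [hC₃]; ring
  have hWle : (2 * (W : ℝ) + 1) ≤ 5 * (δ * L) := by
    have h1 : (W : ℝ) < δ * L + 1 := Nat.ceil_lt_add_one (by positivity)
    linarith
  set bd : ℝ := (2 * (N : ℝ) + 1) ^ (n - 2) * (2 * W + 1) * Real.exp (L + A') *
    (1 - Real.exp (-1))⁻¹ with hbd
  have hbd0 : 0 ≤ bd := by positivity
  have hY2 : ∀ y ∈ Z, ∀ x, |y x| ≤ N := by
    intro y hy x
    have h1 := Ycl_fin (by omega) (by omega) hLA y (hZ y hy).1 x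
    have h2 : |(y x : ℝ)| ≤ (N : ℝ) := h1.trans (Nat.le_ceil _)
    have h3 : ((|y x| : ℤ) : ℝ) ≤ ((N : ℤ) : ℝ) := by
      push_cast
      exact h2
    exact_mod_cast h3
  set T : (ι × ι) ⊕ (Fin k → ι) → (ι → ℤ) → Prop := fun p y => Sum.elim
    (fun p : ι × ι => p.1 ≠ p.2 ∧ |(y p.1 : ℝ) - y p.2| < δ * L)
    (fun f : Fin k → ι => Function.Injective f ∧ ∑ l, (y (f l) : ℝ) < δ * L) p with hT
  have hT1 : ∀ y ∈ Z, ∃ p, T p y := by
    intro y hy
    rcases (hZ y hy).2 with ⟨x, x', h1, h2⟩ | ⟨f, h1, h2⟩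
    · exact ⟨Sum.inl (x, x'), h1, h2⟩
    · exact ⟨Sum.inr f, h1, h2⟩
  have hcast : ∀ (a b : ℤ) (h : |(a : ℝ) - b| < δ * L), |a - b| ≤ (W : ℤ) := by
    intro a b h
    have h1 : |(a : ℝ) - b| ≤ W := h.le.trans (Nat.le_ceil _)
    have h2 : ((|a - b| : ℤ) : ℝ) ≤ ((W : ℤ) : ℝ) := by
      push_cast
      exact h1
    exact_mod_cast h2
  have hpart : ∀ p, ∑ y ∈ Z.filter (T p), Real.exp (k * ∑ x, (y x : ℝ)) ≤ bd := by
    intro p
    rcases p with ⟨x, x'⟩ | f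
    · by_cases hx : x = x'
      · have h0 : Z.filter (T (Sum.inl (x, x'))) = ∅ := by
          rw [eq_empty_iff_forall_notMem]
          intro y hy
          exact (mem_filter.1 hy).2.1 hx
        rw [h0, sum_empty]
        exact hbd0
      · obtain ⟨x'', hx''⟩ : ∃ x'' : ι, x'' ∉ ({x, x'} : Finset ι) := by
          by_contra hcon
          push Not at hcon
          have h1 : (univ : Finset ι) ⊆ {x, x'} := fun z _ => hcon z
          have h2 := card_le_card h1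
          rw [card_univ, card_pair hx] at h2
          omega
        rw [mem_insert, mem_singleton, not_or] at hx''
        refine strip_sum (k := k) (by omega) (x₁ := x) (x₂ := x'') (Ne.symm hx''.1) (fun y => y x')
          (fun y y' h => h x' (Ne.symm hx) (Ne.symm hx''.2)) N W (L + A') _
          (fun y hy => (hZ y (mem_filter.1 hy).1).1.2)
          (fun y hy => hY2 y (mem_filter.1 hy).1) fun y hy => ?_
        exact hcast _ _ (mem_filter.1 hy).2.2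
    · by_cases hf : Function.Injective f
      · obtain ⟨x'', hx''⟩ : ∃ x'' : ι, x'' ∉ univ.image f := by
          by_contra hcon
          push Not at hcon
          have h1 : (univ : Finset ι) ⊆ univ.image f := fun z _ => hcon z
          have h2 := card_le_card h1
          rw [card_univ, card_image_of_injective _ hf, card_univ, Fintype.card_fin] at h2
          omega
        have hx2 : ∀ l, f l ≠ x'' := fun l h => hx'' (mem_image.2 ⟨l, mem_univ _, h⟩)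
        set l₀ : Fin k := ⟨0, by omega⟩ with hl₀
        refine strip_sum (k := k) (by omega) (x₁ := f l₀) (x₂ := x'') (hx2 l₀)
          (fun y => -∑ l ∈ univ.erase l₀, y (f l)) (fun y y' h => ?_) N W (L + A') _
          (fun y hy => (hZ y (mem_filter.1 hy).1).1.2)
          (fun y hy => hY2 y (mem_filter.1 hy).1) fun y hy => ?_
        · congr 1
          refine sum_congr rfl fun l hl => ?_
          exact h (f l) (fun h1 => ne_of_mem_erase hl (hf h1)) (hx2 l)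
        · have h1 := (mem_filter.1 hy).2.2
          have h2 := (hZ y (mem_filter.1 hy).1).1.1 f hf
          refine hcast _ _ ?_
          rw [← add_sum_erase univ _ (mem_univ l₀)] at h1 h2
          push_cast
          rw [sub_neg_eq_add, abs_of_nonneg h2]
          exact h1
      · have h0 : Z.filter (T (Sum.inr f)) = ∅ := by
          rw [eq_empty_iff_forall_notMem]
          intro y hy
          exact hf (mem_filter.1 hy).2.1
        rw [h0, sum_empty]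
        exact hbd0
  have h1 : ∑ y ∈ Z, Real.exp (k * ∑ x, (y x : ℝ)) ≤
      ∑ p : (ι × ι) ⊕ (Fin k → ι), ∑ y ∈ Z.filter (T p), Real.exp (k * ∑ x, (y x : ℝ)) := by
    have h2 : ∀ p, ∑ y ∈ Z.filter (T p), Real.exp (k * ∑ x, (y x : ℝ)) =
        ∑ y ∈ Z, if T p y then Real.exp (k * ∑ x, (y x : ℝ)) else 0 := fun p => sum_filter _ _
    rw [sum_congr rfl fun p _ => h2 p, Finset.sum_comm]
    refine sum_le_sum fun y hy => ?_
    obtain ⟨p, hp⟩ := hT1 y hy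
    refine le_trans (le_of_eq ?_) (single_le_sum (f := fun p =>
      if T p y then Real.exp (k * ∑ x, (y x : ℝ)) else 0) (fun p _ => ?_) (mem_univ p))
    · rw [if_pos hp]
    · split_ifs
      · exact (Real.exp_pos _).le
      · exact le_rfl
  refine h1.trans ((sum_le_sum fun p _ => hpart p).trans ?_)
  rw [sum_const, card_univ, nsmul_eq_mul]
  have h2 : bd ≤ (C₃ ^ (n - 2) * 5 * Real.exp A' * (1 - Real.exp (-1))⁻¹) *
      (δ * Real.exp L * L ^ (n - 1)) := by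
    have h3 : L ^ (n - 1) = L ^ (n - 2) * L := by
      rw [← pow_succ]
      congr 1
      omega
    calc bd ≤ (C₃ * L) ^ (n - 2) * (5 * (δ * L)) * Real.exp (L + A') * (1 - Real.exp (-1))⁻¹ := by
          rw [hbd]
          gcongr
      _ = _ := by
          rw [h3, mul_pow, Real.exp_add]
          ring
  calc c₀ * bd ≤ (c₀ + 1) * ((C₃ ^ (n - 2) * 5 * Real.exp A' * (1 - Real.exp (-1))⁻¹) *
      (δ * Real.exp L * L ^ (n - 1))) := by
        refine mul_le_mul (by linarith) h2 hbd0 (by positivity)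
    _ = _ := by ring

/-- every matrix is in a cell -/
theorem exists_cell (hk : 0 < k) (hki : k ≤ Fintype.card ι) {c₁ : ℝ} (hc₁ : 0 < c₁) :
    ∃ A' : ℝ, 0 ≤ A' ∧ ∀ (L : ℝ) (M : Matrix (Fin k) ι ℤ), Gnr M →
      (∀ e : Mon k (id : ι → ι) fun _ => k, c₁ * |((mono M e : ℤ) : ℝ)| ≤ Real.exp L) →
      ∃ y : ι → ℤ, Ycl k (L + A') y ∧
        ∀ f : Fin k → ι, |((mnr M f : ℤ) : ℝ)| ≤ Real.exp (∑ l, (y (f l) : ℝ)) := by
  obtain ⟨C, hC, h⟩ := arch_int (ι := ι) hk hki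
  have hk' : (0 : ℝ) < k := by exact_mod_cast hk
  have hC0 : 0 < C := by linarith
  refine ⟨max 0 (k * Fintype.card ι + Real.log (C / c₁)), le_max_left _ _, fun L M hM hL => ?_⟩
  obtain ⟨y, h1, e, he⟩ := h M hM
  have h2 : ∀ f : Fin k → ι, |((mnr M f : ℤ) : ℝ)| ≤ Real.exp (∑ l, ((⌈y (f l)⌉ : ℤ) : ℝ)) := by
    intro f
    refine (h1 f).trans (Real.exp_le_exp.2 ?_)
    exact sum_le_sum fun l _ => Int.le_ceil _
  refine ⟨fun x => ⌈y x⌉, ⟨fun f hf => ?_, ?_⟩, h2⟩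
  · have h3 : (1 : ℝ) ≤ |((mnr M f : ℤ) : ℝ)| := by
      have := Int.one_le_abs (hM f hf)
      exact_mod_cast this
    exact Real.one_le_exp_iff.1 (h3.trans (h2 f))
  · have h3 : Real.exp (k * ∑ x, y x) ≤ C / c₁ * Real.exp L := by
      have h4 := hL e
      calc Real.exp (k * ∑ x, y x) ≤ C * |((mono M e : ℤ) : ℝ)| := he
        _ = C / c₁ * (c₁ * |((mono M e : ℤ) : ℝ)|) := by field_simp
        _ ≤ _ := mul_le_mul_of_nonneg_left h4 (by positivity)
    have h4 : k * ∑ x, y x ≤ Real.log (C / c₁) + L := by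
      rw [← Real.exp_le_exp, Real.exp_add, Real.exp_log (by positivity)]
      exact h3
    have h5 : ∑ x, ((⌈y x⌉ : ℤ) : ℝ) ≤ ∑ x, y x + Fintype.card ι := by
      have h6 : ∑ x, ((⌈y x⌉ : ℤ) : ℝ) ≤ ∑ x, (y x + 1) :=
        sum_le_sum fun x _ => (Int.ceil_lt_add_one _).le
      rw [sum_add_distrib, sum_const, card_univ, nsmul_eq_mul, mul_one] at h6
      exact h6
    have h6 := mul_le_mul_of_nonneg_left h5 hk'.le
    have h7 := le_max_right 0 (k * Fintype.card ι + Real.log (C / c₁))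
    rw [mul_add] at h6
    linarith

/-- the classes with bounded monomials -/
def CB (c₁ L : ℝ) : Set (Set (Matrix (Fin k) ι ℚ)) :=
  {P | ∃ M, Gnr M ∧ P = cls M ∧
    ∀ e : Mon k (id : ι → ι) fun _ => k, c₁ * |((mono M e : ℤ) : ℝ)| ≤ Real.exp L}

/-- the total number of the classes -/
theorem tot_le (hk : 0 < k) (hι : Fintype.card ι = k + m) (hm : 0 < m) {c₁ : ℝ} (hc₁ : 0 < c₁) :
    ∃ C : ℝ, 0 < C ∧ ∀ L : ℝ, 0 ≤ L → (CB (k := k) (ι := ι) c₁ L).Finite ∧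
      ((CB (k := k) (ι := ι) c₁ L).ncard : ℝ) ≤
        C * Real.exp L * (1 + L) ^ (Fintype.card ι - 1) := by
  classical
  obtain ⟨A', hA', hcell⟩ := exists_cell (ι := ι) hk (by omega) hc₁
  obtain ⟨C, hC, hc⟩ := cell_cls (ι := ι) hk hι
  obtain ⟨C', hC', hs⟩ := cells_sum (ι := ι) hk (by omega)
  refine ⟨C * C' * Real.exp A' * (1 + A') ^ (Fintype.card ι - 1), by positivity, fun L hL => ?_⟩
  obtain ⟨Z, hZ1, hZ2⟩ := hs (L + A') (by linarith)
  have hsub : CB (k := k) (ι := ι) c₁ L ⊆ ⋃ y ∈ Z,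
      {P : Set (Matrix (Fin k) ι ℚ) | ∃ M, Gnr M ∧ P = cls M ∧
        ∀ f : Fin k → ι, |((mnr M f : ℤ) : ℝ)| ≤ Real.exp (∑ l, ((y (f l) : ℤ) : ℝ))} := by
    rintro _ ⟨M, hM, rfl, hL⟩
    obtain ⟨y, hy1, hy2⟩ := hcell L M hM hL
    rw [Set.mem_iUnion₂]
    exact ⟨y, (hZ1 y).2 hy1, M, hM, rfl, hy2⟩
  have hfin : ∀ y ∈ Z, {P : Set (Matrix (Fin k) ι ℚ) | ∃ M, Gnr M ∧ P = cls M ∧
        ∀ f : Fin k → ι, |((mnr M f : ℤ) : ℝ)| ≤ Real.exp (∑ l, ((y (f l) : ℤ) : ℝ))}.Finite :=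
    fun y _ => (hc fun x => (y x : ℝ)).1
  refine ⟨(Set.Finite.biUnion (Finset.finite_toSet Z) hfin).subset hsub, ?_⟩
  have h1 := ncard_biU Z _ _ hsub hfin
  have h2 : ((CB (k := k) (ι := ι) c₁ L).ncard : ℝ) ≤ ∑ y ∈ Z, C * Real.exp (k * ∑ x, (y x : ℝ)) := by
    refine le_trans (Nat.cast_le.2 h1) ?_
    rw [Nat.cast_sum]
    exact sum_le_sum fun y _ => (hc fun x => (y x : ℝ)).2
  refine h2.trans ?_
  rw [← mul_sum]
  have h3 : (1 + (L + A')) ^ (Fintype.card ι - 1) ≤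
      ((1 + A') * (1 + L)) ^ (Fintype.card ι - 1) := by
    refine pow_le_pow_left₀ (by linarith) ?_ _
    nlinarith
  calc C * ∑ y ∈ Z, Real.exp (k * ∑ x, (y x : ℝ)) ≤
      C * (C' * Real.exp (L + A') * ((1 + A') * (1 + L)) ^ (Fintype.card ι - 1)) := by
        refine mul_le_mul_of_nonneg_left (hZ2.trans ?_) hC.le
        exact mul_le_mul_of_nonneg_left h3 (by positivity)
    _ = _ := by
        rw [mul_pow, Real.exp_add]
        ring

/-- well placed matrices -/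
def Nice (w η : ℝ) (M : Matrix (Fin k) ι ℤ) : Prop :=
  ∃ y : ι → ℤ, (∀ f : Fin k → ι, |((mnr M f : ℤ) : ℝ)| ≤ Real.exp (∑ l, (y (f l) : ℝ))) ∧
    (∀ x x', x ≠ x' → w ≤ |(y x : ℝ) - y x'|) ∧
    (∀ f : Fin k → ι, Function.Injective f → w ≤ ∑ l, (y (f l) : ℝ)) ∧
    ∀ f : Fin k → ι, Function.Injective f →
      η * Real.exp (∑ l, (y (f l) : ℝ)) ≤ |((mnr M f : ℤ) : ℝ)|

/-- most classes are well placed -/
theorem nice_most (hk : 2 ≤ k) (hι : Fintype.card ι = k + m) (hm : 2 ≤ m) {c₁ : ℝ} (hc₁ : 0 < c₁)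
    {ε : ℝ} (hε : 0 < ε) : ∃ δ : ℝ, 0 < δ ∧ ∃ η : ℝ, 0 < η ∧ η ≤ 1 ∧ ∃ L₀ : ℝ, 1 ≤ L₀ ∧
    ∀ L : ℝ, L₀ ≤ L →
      ({P : Set (Matrix (Fin k) ι ℚ) | ∃ M, Gnr M ∧ P = cls M ∧
        (∀ e : Mon k (id : ι → ι) fun _ => k, c₁ * |((mono M e : ℤ) : ℝ)| ≤ Real.exp L) ∧
        ¬ Nice (δ * L) η M}.ncard : ℝ) ≤ ε * Real.exp L * L ^ (Fintype.card ι - 1) := by
  classical
  obtain ⟨A', hA', hcell⟩ := exists_cell (k := k) (ι := ι) (by omega) (by omega) hc₁
  obtain ⟨C, hC, hc⟩ := cell_cls (k := k) (ι := ι) (by omega) hι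
  obtain ⟨C', hC', hs⟩ := cells_sum (k := k) (ι := ι) (by omega) (by omega)
  obtain ⟨C₂, hC₂, hst⟩ := strips (k := k) (ι := ι) hk (by omega) hA'
  set D : ℝ := C' * Real.exp A' * (2 * (1 + A')) ^ (Fintype.card ι - 1) with hD
  have hD0 : 0 < D := by positivity
  obtain ⟨η, hη, hη1, s₀, hs₀, hbad⟩ := cell_cls_bad (k := k) (ι := ι) (by omega) hι
    (show 0 < ε / (2 * D) by positivity)
  set δ : ℝ := ε / (2 * (C * C₂)) with hδ
  have hδ0 : 0 < δ := by positivity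
  refine ⟨δ, hδ0, η, hη, hη1, max 1 (max (1 / δ) (s₀ / δ)), le_max_left _ _, fun L hL => ?_⟩
  have hL1 : 1 ≤ L := (le_max_left _ _).trans hL
  have hL2 : 1 ≤ δ * L := by
    have h1 : 1 / δ ≤ L := ((le_max_left _ _).trans (le_max_right _ _)).trans hL
    rw [div_le_iff₀ hδ0] at h1
    linarith
  have hL3 : s₀ ≤ δ * L := by
    have h1 : s₀ / δ ≤ L := ((le_max_right _ _).trans (le_max_right _ _)).trans hL
    rw [div_le_iff₀ hδ0] at h1
    linarith
  obtain ⟨Z, hZ1, hZ2⟩ := hs (L + A') (by linarith)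
  set X := {P : Set (Matrix (Fin k) ι ℚ) | ∃ M, Gnr M ∧ P = cls M ∧
        (∀ e : Mon k (id : ι → ι) fun _ => k, c₁ * |((mono M e : ℤ) : ℝ)| ≤ Real.exp L) ∧
        ¬ Nice (δ * L) η M} with hX
  set S₁ : (ι → ℤ) → Set (Set (Matrix (Fin k) ι ℚ)) := fun y => {P | ∃ M, Gnr M ∧ P = cls M ∧
    ∀ f : Fin k → ι, |((mnr M f : ℤ) : ℝ)| ≤ Real.exp (∑ l, ((y (f l) : ℤ) : ℝ))} with hS₁
  set S₂ : (ι → ℤ) → Set (Set (Matrix (Fin k) ι ℚ)) := fun y => {P | ∃ M, Gnr M ∧ P = cls M ∧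
    (∀ f : Fin k → ι, |((mnr M f : ℤ) : ℝ)| ≤ Real.exp (∑ l, ((y (f l) : ℤ) : ℝ))) ∧
      ∃ f : Fin k → ι, Function.Injective f ∧
        |((mnr M f : ℤ) : ℝ)| < η * Real.exp (∑ l, ((y (f l) : ℤ) : ℝ))} with hS₂
  have hoff : ∀ y : ι → ℤ, ¬ Strp k (δ * L) y → ∀ x x', x ≠ x' → s₀ ≤ |(y x : ℝ) - y x'| := by
    intro y hy x x' hxx
    by_contra hcon
    push Not at hcon
    exact hy (Or.inl ⟨x, x', hxx, hcon.trans_le hL3⟩)
  have hf1 : ∀ y ∈ Z.filter (Strp k (δ * L)), (S₁ y).Finite := fun y _ =>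
    (hc fun x => (y x : ℝ)).1
  have hf2 : ∀ y ∈ Z.filter (fun y => ¬ Strp k (δ * L) y), (S₂ y).Finite := fun y hy =>
    (hbad (fun x => (y x : ℝ)) (hoff y (mem_filter.1 hy).2)).1
  have hsub : X ⊆ (⋃ y ∈ Z.filter (Strp k (δ * L)), S₁ y) ∪
      ⋃ y ∈ Z.filter (fun y => ¬ Strp k (δ * L) y), S₂ y := by
    rintro _ ⟨M, hM, rfl, hL', hnice⟩
    obtain ⟨y, hy1, hy2⟩ := hcell L M hM hL'
    by_cases hstr : Strp k (δ * L) y
    · left
      rw [Set.mem_iUnion₂]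
      exact ⟨y, mem_filter.2 ⟨(hZ1 y).2 hy1, hstr⟩, M, hM, rfl, hy2⟩
    · right
      rw [Set.mem_iUnion₂]
      refine ⟨y, mem_filter.2 ⟨(hZ1 y).2 hy1, hstr⟩, M, hM, rfl, hy2, ?_⟩
      by_contra hcon
      push Not at hcon
      apply hnice
      refine ⟨y, hy2, fun x x' hxx => ?_, fun f hf => ?_, fun f hf => hcon f hf⟩
      · by_contra h1
        push Not at h1
        exact hstr (Or.inl ⟨x, x', hxx, h1⟩)
      · by_contra h1
        push Not at h1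
        exact hstr (Or.inr ⟨f, hf, h1⟩)
  have hF1 := Set.Finite.biUnion (Finset.finite_toSet (Z.filter (Strp k (δ * L)))) hf1
  have hF2 := Set.Finite.biUnion
    (Finset.finite_toSet (Z.filter (fun y => ¬ Strp k (δ * L) y))) hf2
  have h1 : X.ncard ≤ ∑ y ∈ Z.filter (Strp k (δ * L)), (S₁ y).ncard +
      ∑ y ∈ Z.filter (fun y => ¬ Strp k (δ * L) y), (S₂ y).ncard := by
    refine (Set.ncard_le_ncard hsub (hF1.union hF2)).trans ((Set.ncard_union_le _ _).trans ?_)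
    exact Nat.add_le_add (ncard_biU _ _ _ subset_rfl hf1) (ncard_biU _ _ _ subset_rfl hf2)
  have h2 : (X.ncard : ℝ) ≤ ∑ y ∈ Z.filter (Strp k (δ * L)), C * Real.exp (k * ∑ x, (y x : ℝ)) +
      ∑ y ∈ Z.filter (fun y => ¬ Strp k (δ * L) y),
        ε / (2 * D) * Real.exp (k * ∑ x, (y x : ℝ)) := by
    refine le_trans (Nat.cast_le.2 h1) ?_
    rw [Nat.cast_add, Nat.cast_sum, Nat.cast_sum]
    refine add_le_add (sum_le_sum fun y _ => (hc fun x => (y x : ℝ)).2)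
      (sum_le_sum fun y hy => ?_)
    exact (hbad (fun x => (y x : ℝ)) (hoff y (mem_filter.1 hy).2)).2
  refine h2.trans ?_
  rw [← mul_sum, ← mul_sum]
  have h3 := hst L hL1 δ hδ0 hL2 (Z.filter (Strp k (δ * L))) fun y hy =>
    ⟨(hZ1 y).1 (mem_filter.1 hy).1, (mem_filter.1 hy).2⟩
  have h4 : ∑ y ∈ Z.filter (fun y => ¬ Strp k (δ * L) y), Real.exp (k * ∑ x, (y x : ℝ)) ≤
      D * (Real.exp L * L ^ (Fintype.card ι - 1)) := by
    have h5 : ∑ y ∈ Z.filter (fun y => ¬ Strp k (δ * L) y), Real.exp (k * ∑ x, (y x : ℝ)) ≤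
        ∑ y ∈ Z, Real.exp (k * ∑ x, (y x : ℝ)) :=
      sum_le_sum_of_subset_of_nonneg (filter_subset _ _) fun _ _ _ => (Real.exp_pos _).le
    refine h5.trans (hZ2.trans ?_)
    have h6 : (1 + (L + A')) ^ (Fintype.card ι - 1) ≤
        (2 * (1 + A') * L) ^ (Fintype.card ι - 1) := by
      refine pow_le_pow_left₀ (by linarith) ?_ _
      nlinarith
    calc C' * Real.exp (L + A') * (1 + (L + A')) ^ (Fintype.card ι - 1) ≤
        C' * Real.exp (L + A') * (2 * (1 + A') * L) ^ (Fintype.card ι - 1) :=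
          mul_le_mul_of_nonneg_left h6 (by positivity)
      _ = _ := by
          rw [Real.exp_add, mul_pow, hD]
          ring
  calc C * ∑ y ∈ Z.filter (Strp k (δ * L)), Real.exp (k * ∑ x, (y x : ℝ)) +
      ε / (2 * D) * ∑ y ∈ Z.filter (fun y => ¬ Strp k (δ * L) y),
        Real.exp (k * ∑ x, (y x : ℝ)) ≤
      C * (C₂ * δ * Real.exp L * L ^ (Fintype.card ι - 1)) +
        ε / (2 * D) * (D * (Real.exp L * L ^ (Fintype.card ι - 1))) :=
        add_le_add (mul_le_mul_of_nonneg_left h3 hC.le)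
          (mul_le_mul_of_nonneg_left h4 (by positivity))
    _ = _ := by
        rw [hδ]
        field_simp
        ring

end

end Run7.h3.PM
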