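import Pool.Agent.Run7.h3.PM.Eqp
import Pool.Agent.Run7.h3.PM.Tail2

set_option autoImplicit false
set_option linter.unusedSectionVars false
set_option linter.unusedVariables false

/-! The exponential cells and the polytope. -/

namespace Run7.h3.PM

open Finset Module Filter Topology MeasureTheory Run7.h3.GT

section

variable {k m' : ℕ}

/-- the exponents of the columns -/
def bet (w : Fin k ⊕ Fin m' → ℝ) : Fin (m' + 1) → ℝ := Fin.cons 0 fun j => w (Sum.inr j)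

theorem bet_zero (w : Fin k ⊕ Fin m' → ℝ) : bet w 0 = 0 := rfl

theorem bet_succ (w : Fin k ⊕ Fin m' → ℝ) (j : Fin m') : bet w j.succ = w (Sum.inr j) := rfl

theorem bet_lin (a b : ℝ) (w w' : Fin k ⊕ Fin m' → ℝ) (j : Fin (m' + 1)) :
    bet (fun x => a * w x + b * w' x) j = a * bet w j + b * bet w' j := by
  refine Fin.cases ?_ (fun j => ?_) j
  · rw [bet_zero, bet_zero, bet_zero]
    ring
  · rw [bet_succ, bet_succ, bet_succ]

theorem bet_smul (a : ℝ) (w : Fin k ⊕ Fin m' → ℝ) (j : Fin (m' + 1)) :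
    bet (fun x => a * w x) j = a * bet w j := by
  have := bet_lin a 0 w 0 j
  simpa using this

/-- the weight of the exponents -/
noncomputable def Wt (w : Fin k ⊕ Fin m' → ℝ) : ℝ := ∑ i, ∑ j, (w (Sum.inl i) + bet w j)

theorem Wt_lin (a b : ℝ) (w w' : Fin k ⊕ Fin m' → ℝ) :
    Wt (fun x => a * w x + b * w' x) = a * Wt w + b * Wt w' := by
  unfold Wt
  rw [mul_sum, mul_sum, ← sum_add_distrib]
  refine sum_congr rfl fun i _ => ?_
  rw [mul_sum, mul_sum, ← sum_add_distrib]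
  refine sum_congr rfl fun j _ => ?_
  rw [bet_lin]
  ring

theorem Wt_smul (a : ℝ) (w : Fin k ⊕ Fin m' → ℝ) : Wt (fun x => a * w x) = a * Wt w := by
  have := Wt_lin a 0 w 0
  simpa using this

/-- the sizes -/
noncomputable def sg (t : ℝ) (w : Fin k ⊕ Fin m' → ℝ) : Cx k (m' + 1) → ℝ
  | none => Real.exp (t - Wt w)
  | some (i, j) => Real.exp (w (Sum.inl i) + bet w j)

theorem sg_pos (t : ℝ) (w : Fin k ⊕ Fin m' → ℝ) (ν : Cx k (m' + 1)) : 0 < sg t w ν := by
  rcases ν with _ | ⟨i, j⟩ <;> exact Real.exp_pos _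

theorem sg_prod (t : ℝ) (w : Fin k ⊕ Fin m' → ℝ) : ∏ ν, sg t w ν = Real.exp t := by
  rw [Fintype.prod_option, Fintype.prod_prod_type]
  have h1 : ∏ i, ∏ j, sg t w (some (i, j)) = Real.exp (Wt w) := by
    unfold Wt
    rw [Real.exp_sum]
    refine prod_congr rfl fun i _ => ?_
    rw [Real.exp_sum]
    rfl
  rw [h1]
  change Real.exp (t - Wt w) * Real.exp (Wt w) = Real.exp t
  rw [← Real.exp_add]
  congr 1
  ring

/-- the polytope -/
def Pol (k m' : ℕ) (δ : ℝ) : Set (Fin k ⊕ Fin m' → ℝ) :=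
  {w | (∀ i j, δ ≤ w (Sum.inl i) + bet w j) ∧ Wt w ≤ 1 - δ}

theorem continuous_bet (j : Fin (m' + 1)) : Continuous fun w : Fin k ⊕ Fin m' → ℝ => bet w j := by
  refine Fin.cases ?_ (fun j => ?_) j
  · exact continuous_const
  · exact continuous_apply (Sum.inr j)

theorem continuous_Wt : Continuous fun w : Fin k ⊕ Fin m' → ℝ => Wt w := by
  unfold Wt
  refine continuous_finsetSum _ fun i _ => continuous_finsetSum _ fun j _ => ?_
  exact (continuous_apply _).add (continuous_bet j)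

theorem Pol_closed (δ : ℝ) : IsClosed (Pol k m' δ) := by
  have h1 : Pol k m' δ = (⋂ i, ⋂ j, {w | δ ≤ w (Sum.inl i) + bet w j}) ∩ {w | Wt w ≤ 1 - δ} := by
    ext w
    constructor
    · rintro ⟨h1, h2⟩
      refine ⟨?_, h2⟩
      rw [Set.mem_iInter₂]
      exact h1
    · rintro ⟨h1, h2⟩
      rw [Set.mem_iInter₂] at h1
      exact ⟨h1, h2⟩
  rw [h1]
  refine (isClosed_iInter fun i => isClosed_iInter fun j => ?_).inter ?_
  · exact isClosed_le continuous_const ((continuous_apply _).add (continuous_bet j))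
  · exact isClosed_le continuous_Wt continuous_const

theorem Pol_convex (δ : ℝ) : Convex ℝ (Pol k m' δ) := by
  intro w hw w' hw' a b ha hb hab
  have h1 : a • w + b • w' = fun x => a * w x + b * w' x := by
    funext x
    simp
  rw [h1]
  refine ⟨fun i j => ?_, ?_⟩
  · rw [bet_lin]
    have h2 := mul_le_mul_of_nonneg_left (hw.1 i j) ha
    have h3 := mul_le_mul_of_nonneg_left (hw'.1 i j) hb
    have h4 : a * δ + b * δ = δ := by rw [← add_mul, hab, one_mul]
    nlinarith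
  · rw [Wt_lin]
    have h2 := mul_le_mul_of_nonneg_left hw.2 ha
    have h3 := mul_le_mul_of_nonneg_left hw'.2 hb
    have h4 : a * (1 - δ) + b * (1 - δ) = 1 - δ := by rw [← add_mul, hab, one_mul]
    linarith

/-- bounds of the exponents -/
theorem exp_bounds {w : Fin k ⊕ Fin m' → ℝ} {c u : ℝ} (hc : 0 ≤ c)
    (h1 : ∀ i j, c ≤ w (Sum.inl i) + bet w j) (h2 : Wt w ≤ u) :
    (∀ i j, w (Sum.inl i) + bet w j ≤ u) ∧ 0 ≤ Wt w := by
  have h3 : ∀ i j, 0 ≤ w (Sum.inl i) + bet w j := fun i j => hc.trans (h1 i j)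
  refine ⟨fun i j => ?_, sum_nonneg fun i _ => sum_nonneg fun j _ => h3 i j⟩
  refine le_trans ?_ h2
  refine le_trans ?_ (single_le_sum (f := fun i => ∑ j, (w (Sum.inl i) + bet w j))
    (fun i _ => sum_nonneg fun j _ => h3 i j) (mem_univ i))
  exact single_le_sum (f := fun j => w (Sum.inl i) + bet w j) (fun j _ => h3 i j) (mem_univ j)

theorem abs_le_of (hk : 0 < k) {w : Fin k ⊕ Fin m' → ℝ} {c u : ℝ} (hc : 0 ≤ c)
    (h1 : ∀ i j, c ≤ w (Sum.inl i) + bet w j) (h2 : Wt w ≤ u) (x : Fin k ⊕ Fin m') :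
    |w x| ≤ u := by
  obtain ⟨h3, -⟩ := exp_bounds hc h1 h2
  have h4 : ∀ i, 0 ≤ w (Sum.inl i) ∧ w (Sum.inl i) ≤ u := by
    intro i
    have e1 := h1 i 0
    have e2 := h3 i 0
    rw [bet_zero, add_zero] at e1 e2
    exact ⟨hc.trans e1, e2⟩
  rcases x with i | j
  · rw [abs_of_nonneg (h4 i).1]
    exact (h4 i).2
  · have e1 := h1 ⟨0, hk⟩ j.succ
    have e2 := h3 ⟨0, hk⟩ j.succ
    rw [bet_succ] at e1 e2
    have e3 := h4 ⟨0, hk⟩
    rw [abs_le]
    constructor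
    · linarith
    · linarith

theorem Pol_bdd (hk : 0 < k) {δ : ℝ} (hδ : 0 ≤ δ) : Bornology.IsBounded (Pol k m' δ) := by
  refine (Metric.isBounded_Icc (fun _ : Fin k ⊕ Fin m' => -(1 - δ)) fun _ => 1 - δ).subset ?_
  intro w hw
  have h1 := abs_le_of hk hδ hw.1 hw.2
  exact ⟨fun x => (abs_le.1 (h1 x)).1, fun x => (abs_le.1 (h1 x)).2⟩

/-- the integral points of the dilated polytope -/
def Lam (k m' : ℕ) (δ : ℝ) (N : ℕ) (w : Fin k ⊕ Fin m' → ℤ) : Prop :=
  (∀ i j, δ * N ≤ (w (Sum.inl i) : ℝ) + bet (fun x => (w x : ℝ)) j) ∧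
    Wt (fun x => (w x : ℝ)) ≤ (1 - δ) * N

theorem Lam_fin (hk : 0 < k) {δ : ℝ} (hδ : 0 ≤ δ) (N : ℕ) : {w | Lam k m' δ N w}.Finite := by
  have h1 : {w : Fin k ⊕ Fin m' → ℤ | Lam k m' δ N w} ⊆
      (Fintype.piFinset fun _ : Fin k ⊕ Fin m' => Icc (-⌈(1 - δ) * N⌉) ⌈(1 - δ) * N⌉ :
        Finset (Fin k ⊕ Fin m' → ℤ)) := by
    intro w hw
    rw [mem_coe, Fintype.mem_piFinset]
    intro x
    have h2 := abs_le_of hk (w := fun x => (w x : ℝ)) (show 0 ≤ δ * N by positivity) hw.1 hw.2 x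
    have h3 := abs_le.1 (h2.trans (Int.le_ceil _))
    rw [mem_Icc]
    constructor
    · exact_mod_cast h3.1
    · exact_mod_cast h3.2
  exact (Finset.finite_toSet _).subset h1

theorem Lam_count (hk : 0 < k) {δ : ℝ} (hδ : 0 ≤ δ) :
    Tendsto (fun N : ℕ => ((Lam_fin (m' := m') hk hδ N).toFinset.card : ℝ) / (N : ℝ) ^ (k + m'))
      atTop (𝓝 (volume.real (Pol k m' δ))) := by
  have h1 := tendsto_card_div_pow_atTop_volume (Pol k m' δ) (Pol_bdd hk hδ)
    (Pol_closed δ).measurableSet ((Pol_convex δ).addHaar_frontier _)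
  have hcard : Fintype.card (Fin k ⊕ Fin m') = k + m' := by
    rw [Fintype.card_sum, Fintype.card_fin, Fintype.card_fin]
  rw [hcard] at h1
  refine h1.congr' ?_
  filter_upwards [eventually_ge_atTop 1] with N hN
  have hN0 : (0 : ℝ) < N := by exact_mod_cast hN
  congr 2
  rw [← Set.ncard_eq_toFinset_card _ (Lam_fin hk hδ N), ← Nat.card_coe_set_eq, eq_comm]
  refine Nat.card_congr (Equiv.ofBijective (fun w => ⟨fun x => (N : ℝ)⁻¹ * (w.1 x : ℝ), ?_, ?_⟩)
    ⟨?_, ?_⟩)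
  · obtain ⟨h2, h3⟩ := w.2
    refine ⟨fun i j => ?_, ?_⟩
    · rw [bet_smul (N : ℝ)⁻¹ fun x => (w.1 x : ℝ), ← mul_add, ← div_eq_inv_mul, le_div_iff₀ hN0]
      exact h2 i j
    · rw [Wt_smul (N : ℝ)⁻¹ fun x => (w.1 x : ℝ), ← div_eq_inv_mul, div_le_iff₀ hN0]
      exact h3
  · refine ⟨fun x => (w.1 x : ℝ), ?_, ?_⟩
    · rw [SetLike.mem_coe, Submodule.mem_span_range_iff_exists_fun]
      refine ⟨w.1, ?_⟩
      funext x
      rw [Finset.sum_apply, Finset.sum_eq_single x]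
      · simp
      · intro b _ hb
        simp [hb.symm]
      · intro h
        exact absurd (mem_univ _) h
    · funext x
      simp
  · intro w w' h
    apply Subtype.ext
    funext x
    have h2 := congrFun (congrArg Subtype.val h) x
    simp only at h2
    have h3 := mul_left_cancel₀ (inv_ne_zero hN0.ne') h2
    exact_mod_cast h3
  · rintro ⟨v, ⟨h2, h3⟩, u, hu, rfl⟩
    rw [SetLike.mem_coe, Submodule.mem_span_range_iff_exists_fun] at hu
    obtain ⟨w, rfl⟩ := hu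
    have hw : ∀ x, (∑ i, w i • (Pi.basisFun ℝ (Fin k ⊕ Fin m')) i) x = (w x : ℝ) := by
      intro x
      rw [Finset.sum_apply, Finset.sum_eq_single x]
      · simp
      · intro b _ hb
        simp [hb.symm]
      · intro h
        exact absurd (mem_univ _) h
    have hw' : ((N : ℝ)⁻¹ • ∑ i, w i • (Pi.basisFun ℝ (Fin k ⊕ Fin m')) i) =
        fun x => (N : ℝ)⁻¹ * (w x : ℝ) := by
      funext x
      rw [Pi.smul_apply, hw, smul_eq_mul]
    refine ⟨⟨w, ?_, ?_⟩, ?_⟩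
    · intro i j
      have e1 := h2 i j
      simp only at e1
      rw [hw', bet_smul (N : ℝ)⁻¹ fun x => (w x : ℝ), ← mul_add, ← div_eq_inv_mul,
        le_div_iff₀ hN0] at e1
      exact e1
    · simp only at h3
      rw [hw', Wt_smul (N : ℝ)⁻¹ fun x => (w x : ℝ), ← div_eq_inv_mul, div_le_iff₀ hN0] at h3
      exact h3
    · apply Subtype.ext
      exact hw'.symm

/-- the polytope has positive volume -/
theorem Pol_pos (hk : 0 < k) : ∃ δ₀ : ℝ, 0 < δ₀ ∧ ∀ δ : ℝ, 0 ≤ δ → δ ≤ δ₀ →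
    0 < volume.real (Pol k m' δ) := by
  set d : ℝ := k * (m' + 1 : ℕ) with hd
  have hk' : (1 : ℝ) ≤ k := by exact_mod_cast hk
  have hd1 : 1 ≤ d := by
    rw [hd]
    push_cast
    have : (0 : ℝ) ≤ m' := Nat.cast_nonneg _
    nlinarith
  refine ⟨1 / (4 * d), by positivity, fun δ hδ hδ1 => ?_⟩
  set w₀ : Fin k ⊕ Fin m' → ℝ := Sum.elim (fun _ => 1 / (2 * d)) fun _ => 0 with hw₀
  have hb0 : ∀ j, bet w₀ j = 0 := by
    intro j
    refine Fin.cases ?_ (fun j => ?_) j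
    · rfl
    · rw [bet_succ, hw₀, Sum.elim_inr]
  have hd4 : 1 / (4 * d) < 1 / (2 * d) := by
    rw [div_lt_div_iff₀ (by positivity) (by positivity)]
    linarith
  have hd5 : 1 / (4 * d) ≤ 1 / 4 := by
    rw [div_le_div_iff₀ (by positivity) (by norm_num)]
    linarith
  have hW0 : Wt w₀ = 1 / 2 := by
    have h0 : ∀ (i : Fin k) j, w₀ (Sum.inl i) + bet w₀ j = 1 / (2 * d) := by
      intro i j
      rw [hb0, add_zero]
      rfl
    unfold Wt
    simp only [h0, sum_const, card_univ, Fintype.card_fin, nsmul_eq_mul]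
    rw [← mul_assoc, ← hd]
    field_simp
  have hopen : IsOpen {w : Fin k ⊕ Fin m' → ℝ | (∀ i j, δ < w (Sum.inl i) + bet w j) ∧
      Wt w < 1 - δ} := by
    have h1 : {w : Fin k ⊕ Fin m' → ℝ | (∀ i j, δ < w (Sum.inl i) + bet w j) ∧ Wt w < 1 - δ} =
        (⋂ i, ⋂ j, {w | δ < w (Sum.inl i) + bet w j}) ∩ {w | Wt w < 1 - δ} := by
      ext w
      constructor
      · rintro ⟨h1, h2⟩
        refine ⟨?_, h2⟩
        rw [Set.mem_iInter₂]
        exact h1
      · rintro ⟨h1, h2⟩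
        rw [Set.mem_iInter₂] at h1
        exact ⟨h1, h2⟩
    rw [h1]
    refine (isOpen_iInter_of_finite fun i => isOpen_iInter_of_finite fun j => ?_).inter ?_
    · exact isOpen_lt continuous_const ((continuous_apply _).add (continuous_bet j))
    · exact isOpen_lt continuous_Wt continuous_const
  have hmem : w₀ ∈ {w : Fin k ⊕ Fin m' → ℝ | (∀ i j, δ < w (Sum.inl i) + bet w j) ∧
      Wt w < 1 - δ} := by
    refine ⟨fun i j => ?_, ?_⟩
    · rw [hb0, add_zero, hw₀, Sum.elim_inl]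
      linarith
    · rw [hW0]
      linarith
  have h1 : 0 < volume {w : Fin k ⊕ Fin m' → ℝ | (∀ i j, δ < w (Sum.inl i) + bet w j) ∧
      Wt w < 1 - δ} := hopen.measure_pos _ ⟨w₀, hmem⟩
  have h2 : {w : Fin k ⊕ Fin m' → ℝ | (∀ i j, δ < w (Sum.inl i) + bet w j) ∧ Wt w < 1 - δ} ⊆
      Pol k m' δ := fun w hw => ⟨fun i j => (hw.1 i j).le, hw.2.le⟩
  have h3 : volume (Pol k m' δ) ≠ ⊤ := (Pol_bdd hk hδ).measure_lt_top.ne
  exact ENNReal.toReal_pos (lt_of_lt_of_le h1 (measure_mono h2)).ne' h3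

end

end Run7.h3.PM
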