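import Pool.Agent.Run7.h3.PM.Good1

set_option autoImplicit false
set_option linter.unusedSectionVars false
set_option linter.unusedVariables false

/-! The number of the points in the good cells. -/

namespace Run7.h3.PM

open Finset Module Filter Topology MeasureTheory Run7.h3.GT

section

variable {k m' : ℕ}

/-- the window -/
def Win (i₀ : Fin k) (x : Cx k (m' + 1) → ℝ) : Prop :=
  (1 < x none ∧ x none ≤ Real.exp 1) ∧ (∀ i, 1 < x (some (i, 0)) ∧ x (some (i, 0)) ≤ Real.exp 1) ∧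
    ∀ j, 1 < x (some (i₀, j)) ∧ x (some (i₀, j)) ≤ Real.exp 1

/-- the points of the good cells -/
def GS (δ s : ℝ) (J : ℕ) (E : ℤ → Set (Cx k (m' + 1) → ℝ))
    (A : Matrix (Fin k) (Fin k ⊕ Fin (m' + 1)) ℤ → Prop) (L : ℝ) : Set (Pt k (m' + 1)) :=
  {P | ∃ j : ℤ, (-(J : ℤ) ≤ j ∧ j ≤ J) ∧ ∃ w : Fin k ⊕ Fin m' → ℤ, Lam k m' δ ⌊L⌋₊ w ∧
    P ∈ TS (sg (L + s - j) fun x => (w x : ℝ)) (E j) A}

theorem exp_win {c p p' : ℝ} (h1 : 1 < c / Real.exp p) (h2 : c / Real.exp p' ≤ Real.exp 1) :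
    p < p' + 1 := by
  rw [lt_div_iff₀ (Real.exp_pos _), one_mul] at h1
  rw [div_le_iff₀ (Real.exp_pos _), ← Real.exp_add] at h2
  have h3 := Real.exp_lt_exp.1 (h1.trans_le h2)
  linarith

theorem exp_win_eq {c p p' : ℝ} (h1 : 1 < c / Real.exp p) (h2 : c / Real.exp p ≤ Real.exp 1)
    (h1' : 1 < c / Real.exp p') (h2' : c / Real.exp p' ≤ Real.exp 1) (a b : ℤ)
    (h : p - p' = (a : ℝ) - b) : a = b := by
  have h3 := exp_win h1 h2'
  have h4 := exp_win h1' h2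
  have h5 : (a : ℝ) - b < 1 := by linarith
  have h6 : (b : ℝ) - a < 1 := by linarith
  have h7 : a - b < 1 := by exact_mod_cast h5
  have h8 : b - a < 1 := by exact_mod_cast h6
  omega

theorem cell_uniq {i₀ : Fin k} {T : ℝ} {P : Pt k (m' + 1)} {E E' : Set (Cx k (m' + 1) → ℝ)}
    {A A' : Matrix (Fin k) (Fin k ⊕ Fin (m' + 1)) ℤ → Prop} (hE : ∀ x ∈ E, Win i₀ x)
    (hE' : ∀ x ∈ E', Win i₀ x) {j j' : ℤ} {w w' : Fin k ⊕ Fin m' → ℤ}
    (h : P ∈ TS (sg (T - j) fun x => (w x : ℝ)) E A)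
    (h' : P ∈ TS (sg (T - j') fun x => (w' x : ℝ)) E' A') : j = j' ∧ w = w' := by
  have h1 := hE _ h.1
  have h2 := hE' _ h'.1
  have e1 : ∀ i, w (Sum.inl i) = w' (Sum.inl i) := by
    intro i
    have f1 := h1.2.1 i
    have f2 := h2.2.1 i
    refine exp_win_eq (c := co P (some (i, 0))) f1.1 f1.2 f2.1 f2.2 _ _ ?_
    rw [bet_zero, bet_zero, add_zero, add_zero]
  have e2 : w = w' := by
    funext x
    rcases x with i | j₁
    · exact e1 i
    · have f1 := h1.2.2 j₁.succ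
      have f2 := h2.2.2 j₁.succ
      refine exp_win_eq (c := co P (some (i₀, j₁.succ))) f1.1 f1.2 f2.1 f2.2 _ _ ?_
      have e3 : ((w (Sum.inl i₀) : ℤ) : ℝ) = w' (Sum.inl i₀) := by rw [e1 i₀]
      rw [bet_succ, bet_succ]
      linarith
  refine ⟨?_, e2⟩
  subst e2
  have f1 := h1.1
  have f2 := h2.1
  have f3 : j' = j := by
    refine exp_win_eq (c := co P none) f1.1 f1.2 f2.1 f2.2 _ _ ?_
    ring
  exact f3.symm

theorem GS_ncard (hk : 0 < k) {i₀ : Fin k} {δ s : ℝ} (hδ : 0 ≤ δ) {J : ℕ}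
    {E : ℤ → Set (Cx k (m' + 1) → ℝ)} (hE : ∀ j, ∀ x ∈ E j, Win i₀ x)
    (hEb : ∀ j, Bornology.IsBounded (E j))
    (A : Matrix (Fin k) (Fin k ⊕ Fin (m' + 1)) ℤ → Prop) (L : ℝ) :
    (GS δ s J E A L).Finite ∧ (GS δ s J E A L).ncard = ∑ j ∈ Icc (-(J : ℤ)) J,
      ∑ w ∈ (Lam_fin (m' := m') hk hδ ⌊L⌋₊).toFinset,
        (TS (sg (L + s - j) fun x => (w x : ℝ)) (E j) A).ncard := by
  classical
  set X : Finset (ℤ × (Fin k ⊕ Fin m' → ℤ)) :=
    Icc (-(J : ℤ)) J ×ˢ (Lam_fin (m' := m') hk hδ ⌊L⌋₊).toFinset with hX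
  have hfin : ∀ p : ℤ × (Fin k ⊕ Fin m' → ℤ),
      (TS (sg (L + s - p.1) fun x => (p.2 x : ℝ)) (E p.1) A).Finite := fun p =>
    TS_fin hk (fun ν => sg_pos _ _ ν) (hEb p.1) A
  have h1 : GS δ s J E A L = ((X.biUnion fun p => (hfin p).toFinset : Finset (Pt k (m' + 1))) :
      Set (Pt k (m' + 1))) := by
    ext P
    rw [mem_coe, mem_biUnion]
    constructor
    · rintro ⟨j, hj, w, hw, hP⟩
      refine ⟨(j, w), ?_, ?_⟩
      · rw [hX, mem_product, mem_Icc, Set.Finite.mem_toFinset]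
        exact ⟨hj, hw⟩
      · rw [Set.Finite.mem_toFinset]
        exact hP
    · rintro ⟨⟨j, w⟩, hp, hP⟩
      rw [hX, mem_product, mem_Icc, Set.Finite.mem_toFinset] at hp
      rw [Set.Finite.mem_toFinset] at hP
      exact ⟨j, hp.1, w, hp.2, hP⟩
  rw [h1]
  refine ⟨Finset.finite_toSet _, ?_⟩
  rw [Set.ncard_coe_finset, card_biUnion]
  · rw [hX, sum_product]
    refine sum_congr rfl fun j _ => sum_congr rfl fun w _ => ?_
    exact (Set.ncard_eq_toFinset_card _ (hfin (j, w))).symm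
  · rintro ⟨j, w⟩ hp ⟨j', w'⟩ hp' hne
    rw [Function.onFun, disjoint_left]
    intro P hP hP'
    rw [Set.Finite.mem_toFinset] at hP hP'
    obtain ⟨e1, e2⟩ := cell_uniq (i₀ := i₀) (hE j) (hE j') hP hP'
    exact hne (Prod.ext e1 e2)

/-- the sizes in the dilated polytope -/
theorem sg_bounds {δ : ℝ} (hδ : 0 < δ) (hδ1 : δ < 1) (s : ℝ) (j : ℤ) (t : ℝ) :
    ∃ A₀ : ℕ, ∀ᶠ L : ℝ in atTop, ∀ w : Fin k ⊕ Fin m' → ℤ, Lam k m' δ ⌊L⌋₊ w →
      (∀ ν, t ≤ sg (L + s - j) (fun x => (w x : ℝ)) ν) ∧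
      ∀ ν ν', sg (L + s - j) (fun x => (w x : ℝ)) ν ≤
        (sg (L + s - j) (fun x => (w x : ℝ)) ν') ^ A₀ := by
  set c : ℝ := |s| + |(j : ℝ)| with hc
  have hc0 : 0 ≤ c := by positivity
  have hsj : |s - j| ≤ c := abs_sub s j
  have hsj' := abs_le.1 hsj
  set A₀ : ℕ := ⌈2 / δ⌉₊ with hA₀
  have hA : 2 / δ ≤ A₀ := Nat.le_ceil _
  have hA' : 2 ≤ A₀ * δ := by rwa [div_le_iff₀ hδ] at hA
  refine ⟨A₀, ?_⟩
  filter_upwards [eventually_ge_atTop (max 1 (max ((|t| + c) / δ + 1) (2 + A₀ * c + c)))] with L hL w hw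
  have hL1 : 1 ≤ L := (le_max_left _ _).trans hL
  have hL2 : (|t| + c) / δ + 1 ≤ L := ((le_max_left _ _).trans (le_max_right _ _)).trans hL
  have hL3 : 2 + A₀ * c + c ≤ L := ((le_max_right _ _).trans (le_max_right _ _)).trans hL
  have hN1 : (⌊L⌋₊ : ℝ) ≤ L := Nat.floor_le (by linarith)
  have hN2 : L - 1 < (⌊L⌋₊ : ℝ) := by
    have := Nat.lt_floor_add_one L
    linarith
  have hN0 : (0 : ℝ) ≤ ⌊L⌋₊ := Nat.cast_nonneg _
  obtain ⟨h1, h2⟩ := hw
  obtain ⟨h3, h4⟩ := exp_bounds (w := fun x => (w x : ℝ)) (c := δ * ⌊L⌋₊)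
    (u := (1 - δ) * ⌊L⌋₊) (by positivity) h1 h2
  have hlow : ∀ ν, Real.exp (δ * (L - 1) - c) ≤ sg (L + s - j) (fun x => (w x : ℝ)) ν := by
    intro ν
    rcases ν with _ | ⟨i, j'⟩
    · refine Real.exp_le_exp.2 ?_
      have e1 : (1 - δ) * (⌊L⌋₊ : ℝ) ≤ (1 - δ) * L :=
        mul_le_mul_of_nonneg_left hN1 (by linarith)
      linarith [hsj'.1]
    · refine Real.exp_le_exp.2 ?_
      have e1 : δ * (L - 1) ≤ δ * ⌊L⌋₊ := mul_le_mul_of_nonneg_left hN2.le hδ.le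
      have e2 := h1 i j'
      linarith
  have hup : ∀ ν, sg (L + s - j) (fun x => (w x : ℝ)) ν ≤ Real.exp (L + c) := by
    intro ν
    rcases ν with _ | ⟨i, j'⟩
    · refine Real.exp_le_exp.2 ?_
      linarith [hsj'.2]
    · refine Real.exp_le_exp.2 ?_
      have e2 := h3 i j'
      have e3 : (1 - δ) * (⌊L⌋₊ : ℝ) ≤ 1 * L := mul_le_mul (by linarith) hN1 hN0 zero_le_one
      linarith
  refine ⟨fun ν => ?_, fun ν ν' => ?_⟩
  · refine le_trans ?_ (hlow ν)
    have e1 : |t| ≤ δ * (L - 1) - c := by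
      have e2 : (|t| + c) / δ ≤ L - 1 := by linarith
      rw [div_le_iff₀ hδ] at e2
      linarith
    have e2 := Real.add_one_le_exp (δ * (L - 1) - c)
    linarith [le_abs_self t]
  · refine (hup ν).trans ?_
    refine le_trans ?_ (pow_le_pow_left₀ (Real.exp_pos _).le (hlow ν') A₀)
    rw [← Real.exp_nat_mul]
    refine Real.exp_le_exp.2 ?_
    have e1 : 2 * (L - 1) ≤ A₀ * δ * (L - 1) := mul_le_mul_of_nonneg_right hA' (by linarith)
    nlinarith

/-- the number of the points in the good cells -/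
theorem GS_count {th : Fin k ⊕ Fin (m' + 1) → ℕ} (hk : 2 ≤ k) (hm : 1 ≤ m')
    (h5 : 5 ≤ k + (m' + 1)) (hth : Adm k th) {Q : ℕ} (hQ : 0 < Q)
    {O : Set (Matrix (Fin k) (Fin k ⊕ Fin (m' + 1)) (ZMod Q))} (hO : Inv Q O) :
    ∃ κ : ℝ, 0 ≤ κ ∧ (∀ i : Fin k, Mkd th (Sum.inl i) → Q = 1 → O = Set.univ → 0 < κ) ∧
      ∀ (i₀ : Fin k)
      (E : ℤ → Set (Cx k (m' + 1) → ℝ)) (hE : ∀ j, ∀ x ∈ E j, Win i₀ x)
      (hEb : ∀ j, Bornology.IsBounded (E j)) (hfr : ∀ j, volume (frontier (E j)) = 0)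
      (δ : ℝ) (hδ : 0 < δ) (hδ1 : δ < 1) (s : ℝ) (J : ℕ),
      Tendsto (fun L : ℝ => ((GS δ s J E (ArG th Q O) L).ncard : ℝ) /
        (Real.exp L * L ^ (k + m'))) atTop (𝓝 (∑ j ∈ Icc (-(J : ℤ)) J,
          Real.exp (s - j) * (κ * (volume (E j)).toReal) * volume.real (Pol k m' δ))) := by
  classical
  obtain ⟨κ, hκ, hbox, heqd⟩ := eqd (k := k) (m := m' + 1) hk (by omega) h5 hth hQ hO
  refine ⟨κ, hκ, ?_, ?_⟩
  · rintro i hmk rfl rfl
    exact eqd_pos hk (by omega) h5 hth hmk hbox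
  intro i₀ E hE hEb hfr δ hδ hδ1 s J
  have hk0 : 0 < k := by omega
  have hterm : ∀ j : ℤ, Tendsto (fun L : ℝ => (∑ w ∈ (Lam_fin (m' := m') hk0 hδ.le ⌊L⌋₊).toFinset,
      ((TS (sg (L + s - j) fun x => (w x : ℝ)) (E j) (ArG th Q O)).ncard : ℝ)) /
        (Real.exp L * L ^ (k + m'))) atTop (𝓝 (Real.exp (s - j) * (κ * (volume (E j)).toReal) *
          volume.real (Pol k m' δ))) := by
    intro j
    set v := κ * (volume (E j)).toReal with hv
    set V := volume.real (Pol k m' δ) with hV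
    have hV0 : 0 ≤ V := measureReal_nonneg
    have hΛ : Tendsto (fun L : ℝ => ((Lam_fin (m' := m') hk0 hδ.le ⌊L⌋₊).toFinset.card : ℝ) /
        L ^ (k + m')) atTop (𝓝 V) := by
      have h1 := (Lam_count (m' := m') hk0 hδ.le).comp tendsto_nat_floor_atTop (α := ℝ)
      have h2 : Tendsto (fun L : ℝ => ((⌊L⌋₊ : ℝ) / L) ^ (k + m')) atTop (𝓝 (1 ^ (k + m'))) :=
        (tendsto_nat_floor_div_atTop (R := ℝ)).pow _
      rw [one_pow] at h2
      have h3 := h1.mul h2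
      rw [mul_one] at h3
      refine h3.congr' ?_
      filter_upwards [eventually_ge_atTop (1 : ℝ)] with L hL
      have hN : (0 : ℝ) < ⌊L⌋₊ := by
        have : 1 ≤ ⌊L⌋₊ := Nat.le_floor (by simpa using hL)
        exact_mod_cast this
      simp only [Function.comp_apply]
      rw [div_pow, div_mul_div_cancel₀ (by positivity)]
    have hmain : Tendsto (fun L : ℝ => (∑ w ∈ (Lam_fin (m' := m') hk0 hδ.le ⌊L⌋₊).toFinset,
        ((TS (sg (L + s - j) fun x => (w x : ℝ)) (E j) (ArG th Q O)).ncard : ℝ)) /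
        (Real.exp L * L ^ (k + m')) - Real.exp (s - j) * v *
        (((Lam_fin (m' := m') hk0 hδ.le ⌊L⌋₊).toFinset.card : ℝ) / L ^ (k + m'))) atTop (𝓝 0) := by
      rw [Metric.tendsto_nhds]
      intro ε hε
      set ε₁ : ℝ := ε / (2 * (Real.exp (s - j) * (V + 1))) with hε₁
      have hε₁0 : 0 < ε₁ := by positivity
      obtain ⟨A₀, hA₀⟩ := sg_bounds (k := k) (m' := m') hδ hδ1 s j 1
      have h1 := heqd (FL k (m' + 1) A₀) (fun ν => FL_tendsto A₀ ν) A₀ (FL_pow A₀) (E j) (hEb j) 1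
        one_pos (fun x hx => (hE j x hx).1.1) (hfr j)
      rw [Metric.tendsto_nhds] at h1
      obtain ⟨t, ht⟩ := FL_ev (h1 ε₁ hε₁0)
      obtain ⟨A₁, hA₁⟩ := sg_bounds (k := k) (m' := m') hδ hδ1 s j t
      filter_upwards [hA₀, hA₁, hΛ.eventually (eventually_lt_nhds (show V < V + 1 by linarith)),
        eventually_ge_atTop (1 : ℝ)] with L h2 h3 h4 hL1
      have hL0 : 0 < L := by linarith
      set Λ := (Lam_fin (m' := m') hk0 hδ.le ⌊L⌋₊).toFinset with hΛd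
      have hw : ∀ w ∈ Λ, |((TS (sg (L + s - j) fun x => (w x : ℝ)) (E j) (ArG th Q O)).ncard : ℝ) -
          v * Real.exp (L + s - j)| ≤ ε₁ * Real.exp (L + s - j) := by
        intro w hw
        have hw' : Lam k m' δ ⌊L⌋₊ w := by
          rw [hΛd, Set.Finite.mem_toFinset] at hw
          exact hw
        have h5 := ht (sg (L + s - j) fun x => (w x : ℝ)) (h3 w hw').1 (h2 w hw').2
        rw [Real.dist_eq, sg_prod] at h5
        have h6 := Real.exp_pos (L + s - j)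
        have h7 : ((TS (sg (L + s - j) fun x => (w x : ℝ)) (E j) (ArG th Q O)).ncard : ℝ) -
            v * Real.exp (L + s - j) =
            (((TS (sg (L + s - j) fun x => (w x : ℝ)) (E j) (ArG th Q O)).ncard : ℝ) /
              Real.exp (L + s - j) - v) * Real.exp (L + s - j) := by
          field_simp
        rw [h7, abs_mul, abs_of_pos h6]
        exact mul_le_mul_of_nonneg_right h5.le h6.le
      have hsum : |∑ w ∈ Λ, ((TS (sg (L + s - j) fun x => (w x : ℝ)) (E j)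
          (ArG th Q O)).ncard : ℝ) - Λ.card * (v * Real.exp (L + s - j))| ≤
          Λ.card * (ε₁ * Real.exp (L + s - j)) := by
        have h5 : ∑ w ∈ Λ, ((TS (sg (L + s - j) fun x => (w x : ℝ)) (E j)
            (ArG th Q O)).ncard : ℝ) - Λ.card * (v * Real.exp (L + s - j)) =
            ∑ w ∈ Λ, (((TS (sg (L + s - j) fun x => (w x : ℝ)) (E j) (ArG th Q O)).ncard : ℝ) -
              v * Real.exp (L + s - j)) := by
          rw [sum_sub_distrib, sum_const, nsmul_eq_mul]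
        rw [h5]
        refine (abs_sum_le_sum_abs _ _).trans ((sum_le_sum hw).trans ?_)
        rw [sum_const, nsmul_eq_mul]
      rw [Real.dist_eq, sub_zero]
      have hexp : Real.exp (L + s - j) = Real.exp L * Real.exp (s - j) := by
        rw [← Real.exp_add]
        congr 1
        ring
      have h8 : (∑ w ∈ Λ, ((TS (sg (L + s - j) fun x => (w x : ℝ)) (E j) (ArG th Q O)).ncard : ℝ)) /
          (Real.exp L * L ^ (k + m')) - Real.exp (s - j) * v * ((Λ.card : ℝ) / L ^ (k + m')) =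
          (∑ w ∈ Λ, ((TS (sg (L + s - j) fun x => (w x : ℝ)) (E j) (ArG th Q O)).ncard : ℝ) -
            Λ.card * (v * Real.exp (L + s - j))) / (Real.exp L * L ^ (k + m')) := by
        rw [hexp]
        have := Real.exp_pos L
        field_simp
      rw [h8, abs_div, abs_of_pos (show 0 < Real.exp L * L ^ (k + m') by positivity)]
      have h9 : |∑ w ∈ Λ, ((TS (sg (L + s - j) fun x => (w x : ℝ)) (E j)
          (ArG th Q O)).ncard : ℝ) - Λ.card * (v * Real.exp (L + s - j))| /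
            (Real.exp L * L ^ (k + m')) ≤ ε₁ * Real.exp (s - j) * ((Λ.card : ℝ) / L ^ (k + m')) := by
        rw [div_le_iff₀ (by positivity)]
        refine hsum.trans (le_of_eq ?_)
        rw [hexp]
        field_simp
      refine lt_of_le_of_lt h9 ?_
      have h10 : ε₁ * Real.exp (s - j) * ((Λ.card : ℝ) / L ^ (k + m')) ≤
          ε₁ * Real.exp (s - j) * (V + 1) := by
        refine mul_le_mul_of_nonneg_left h4.le (by positivity)
      refine lt_of_le_of_lt h10 ?_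
      have h11 : ε₁ * Real.exp (s - j) * (V + 1) = ε / 2 := by
        rw [hε₁]
        field_simp
      rw [h11]
      linarith
    have h2 := hmain.add (hΛ.const_mul (Real.exp (s - j) * v))
    rw [zero_add] at h2
    refine h2.congr fun L => ?_
    ring
  have h1 := tendsto_finsetSum (Icc (-(J : ℤ)) J) fun j _ => hterm j
  refine h1.congr fun L => ?_
  rw [← sum_div, (GS_ncard (s := s) (J := J) hk0 (i₀ := i₀) hδ.le hE hEb (ArG th Q O) L).2]
  rw [Nat.cast_sum]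
  congr 1
  refine sum_congr rfl fun j _ => ?_
  rw [Nat.cast_sum]

end

end Run7.h3.PM
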