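import Pool.Agent.Run7.h3.PM.Good2

set_option autoImplicit false
set_option linter.unusedSectionVars false
set_option linter.unusedVariables false

/-! The sets in the good cells. -/

namespace Run7.h3.PM

open Finset Module Filter Topology MeasureTheory Run7.h3.GT

section

variable {k m : ℕ} {ι : Type} [Fintype ι] [DecidableEq ι]

/-- homogeneous functions -/
def Hom (G : Matrix (Fin k) ι ℝ → ℝ) : Prop :=
  ∀ (g : Matrix (Fin k) (Fin k) ℝ) (τ : ι → ℝ) (M : Matrix (Fin k) ι ℝ), g.det ≠ 0 →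
    (∀ x, τ x ≠ 0) → G (g * M * Matrix.diagonal τ) =
      |g.det| ^ Fintype.card ι * (∏ x, |τ x| ^ k) * G M

/-- the real matrix -/
def toR (M : Matrix (Fin k) ι ℤ) : Matrix (Fin k) ι ℝ := M.map (Int.cast : ℤ → ℝ)

theorem toR_mnr (M : Matrix (Fin k) ι ℤ) (f : Fin k → ι) : mnr (toR M) f = ((mnr M f : ℤ) : ℝ) :=
  (mnr_map (Int.castRingHom ℝ) M f).symm

theorem toR_mul (g : Matrix (Fin k) (Fin k) ℤ) (M : Matrix (Fin k) ι ℤ) :
    toR (g * M) = g.map (Int.cast : ℤ → ℝ) * toR M :=
  Matrix.map_mul (L := g) (M := M) (f := Int.castRingHom ℝ)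

theorem det_mapR (g : Matrix (Fin k) (Fin k) ℤ) :
    (g.map (Int.cast : ℤ → ℝ)).det = ((g.det : ℤ) : ℝ) :=
  ((Int.castRingHom ℝ).map_det g).symm

/-- the real matrix with unit block -/
def XX (x : Cx k m → ℝ) : Matrix (Fin k) (Fin k ⊕ Fin m) ℝ := MM 1 (fun j i => x (some (i, j)))

theorem form (N : SLg (Fin k → ℤ)) (Z : Fin m → Fin k → ℤ) :
    toR (MM (VN N) Z) = (VN N).map (Int.cast : ℤ → ℝ) * MM 1 (fun j i => cf (VN N) (Z j) i) := by
  ext l x
  rcases x with i | j
  · rw [mul_MM, MM_inl, Matrix.mul_one]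
    rfl
  · rw [mul_MM, MM_inr]
    change ((Z j l : ℤ) : ℝ) = _
    rw [mul_cf (VN_det_ne N) (Z j) l]
    rfl

variable {m' : ℕ}

/-- the scaling of the columns -/
noncomputable def tau (w : Fin k ⊕ Fin m' → ℝ) : Fin k ⊕ Fin (m' + 1) → ℝ :=
  Sum.elim (fun i => Real.exp (-w (Sum.inl i))) fun j => Real.exp (bet w j)

theorem tau_pos (w : Fin k ⊕ Fin m' → ℝ) (x : Fin k ⊕ Fin (m' + 1)) : 0 < tau w x := by
  rcases x with i | j <;> exact Real.exp_pos _

theorem scale_XX (w : Fin k ⊕ Fin m' → ℝ) (t : ℝ) (c : Cx k (m' + 1) → ℝ) :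
    MM 1 (fun j i => c (some (i, j))) = Matrix.diagonal (fun i => Real.exp (w (Sum.inl i))) *
      XX (fun ν => c ν / sg t w ν) * Matrix.diagonal (tau w) := by
  ext l x
  rw [Matrix.mul_diagonal, Matrix.diagonal_mul]
  rcases x with i | j
  · unfold XX
    rw [MM_inl, MM_inl]
    by_cases h : l = i
    · subst h
      rw [Matrix.one_apply_eq, mul_one]
      unfold tau
      rw [Sum.elim_inl, ← Real.exp_add, add_neg_cancel, Real.exp_zero]
    · rw [Matrix.one_apply_ne h, mul_zero, zero_mul]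
  · unfold XX
    rw [MM_inr, MM_inr]
    change c (some (l, j)) = Real.exp (w (Sum.inl l)) *
      (c (some (l, j)) / Real.exp (w (Sum.inl l) + bet w j)) * Real.exp (bet w j)
    rw [Real.exp_add]
    have := Real.exp_pos (w (Sum.inl l))
    have := Real.exp_pos (bet w j)
    field_simp

/-- the coordinates in a cell -/
noncomputable def xc (t : ℝ) (w : Fin k ⊕ Fin m' → ℝ) (P : Pt k (m' + 1)) : Cx k (m' + 1) → ℝ :=
  fun ν => co P ν / sg t w ν

theorem form' (t : ℝ) (w : Fin k ⊕ Fin m' → ℝ) (P : Pt k (m' + 1)) :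
    toR (MM (VN P.1) P.2) = ((VN P.1).map (Int.cast : ℤ → ℝ) *
      Matrix.diagonal (fun i => Real.exp (w (Sum.inl i)))) * XX (xc t w P) *
        Matrix.diagonal (tau w) := by
  rw [form]
  have h1 := scale_XX w t (co P)
  have h2 : (fun (j : Fin (m' + 1)) (i : Fin k) => co P (some (i, j))) =
      fun j i => cf (VN P.1) (P.2 j) i := rfl
  rw [h2] at h1
  rw [h1]
  unfold xc
  simp only [Matrix.mul_assoc]

theorem det_VNR (N : SLg (Fin k → ℤ)) : |((VN N).map (Int.cast : ℤ → ℝ)).det| = N.idx := by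
  rw [det_mapR, idx_eq]

theorem Wt_eq (w : Fin k ⊕ Fin m' → ℝ) :
    Wt w = (m' + 1 : ℕ) * ∑ i, w (Sum.inl i) + k * ∑ j, bet w j := by
  unfold Wt
  simp only [sum_add_distrib, sum_const, card_univ, Fintype.card_fin, nsmul_eq_mul]
  rw [← mul_sum]

/-- the value of a homogeneous function -/
theorem G_co {G : Matrix (Fin k) (Fin k ⊕ Fin (m' + 1)) ℝ → ℝ} (hG : Hom G) (t : ℝ)
    (w : Fin k ⊕ Fin m' → ℝ) (P : Pt k (m' + 1)) :
    G (toR (MM (VN P.1) P.2)) = Real.exp t * (xc t w P none * G (XX (xc t w P))) := by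
  have hdet : ((VN P.1).map (Int.cast : ℤ → ℝ) *
      Matrix.diagonal (fun i => Real.exp (w (Sum.inl i)))).det ≠ 0 := by
    rw [Matrix.det_mul, Matrix.det_diagonal, ← Real.exp_sum, det_mapR]
    refine mul_ne_zero ?_ (Real.exp_pos _).ne'
    exact_mod_cast VN_det_ne P.1
  rw [form' t w P, hG _ _ _ hdet fun x => (tau_pos w x).ne']
  rw [Matrix.det_mul, abs_mul, det_VNR, Matrix.det_diagonal, ← Real.exp_sum,
    abs_of_pos (Real.exp_pos _)]
  have h1 : Fintype.card (Fin k ⊕ Fin (m' + 1)) = k + (m' + 1) := by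
    rw [Fintype.card_sum, Fintype.card_fin, Fintype.card_fin]
  rw [h1, mul_pow]
  have h2 : ∏ x, |tau w x| ^ k = Real.exp (k * (∑ j, bet w j - ∑ i, w (Sum.inl i))) := by
    have h3 : ∀ x, |tau w x| ^ k = tau w x ^ k := fun x => by rw [abs_of_pos (tau_pos w x)]
    rw [prod_congr rfl fun x _ => h3 x, prod_pow, Fintype.prod_sum_type, Real.exp_nat_mul]
    congr 1
    unfold tau
    simp only [Sum.elim_inl, Sum.elim_inr]
    rw [← Real.exp_sum, ← Real.exp_sum, ← Real.exp_add, sum_neg_distrib]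
    congr 1
    ring
  rw [h2]
  have h3 : xc t w P none = (P.1.idx : ℝ) ^ (k + (m' + 1)) / Real.exp (t - Wt w) := rfl
  rw [h3, ← Real.exp_nat_mul]
  have h4 : Real.exp (t - Wt w) ≠ 0 := (Real.exp_pos _).ne'
  have h5 : Real.exp t = Real.exp (t - Wt w) * (Real.exp (((k + (m' + 1) : ℕ) : ℝ) *
      ∑ i, w (Sum.inl i)) * Real.exp (k * (∑ j, bet w j - ∑ i, w (Sum.inl i)))) := by
    rw [← Real.exp_add, ← Real.exp_add, Wt_eq]
    congr 1
    push_cast
    ring
  rw [h5]
  field_simp

/-- the value of a minor -/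
theorem mnr_co (t : ℝ) (w : Fin k ⊕ Fin m' → ℝ) (P : Pt k (m' + 1))
    {f : Fin k → Fin k ⊕ Fin (m' + 1)} (hf : Std f) :
    |((mnr (MM (VN P.1) P.2) f : ℤ) : ℝ)| = (P.1.idx : ℝ) *
      sc (fun i j => Real.exp (w (Sum.inl i) + bet w j)) f * |mnr (XX (xc t w P)) f| := by
  rw [← toR_mnr, form' t w P]
  have h1 : ((VN P.1).map (Int.cast : ℤ → ℝ) *
      Matrix.diagonal (fun i => Real.exp (w (Sum.inl i)))) * XX (xc t w P) *
        Matrix.diagonal (tau w) = Matrix.of fun j i => (((VN P.1).map (Int.cast : ℤ → ℝ) *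
      Matrix.diagonal (fun i => Real.exp (w (Sum.inl i)))) * XX (xc t w P)) j i * tau w i := by
    ext a b
    rw [Matrix.mul_diagonal]
    rfl
  rw [h1, mnr_scale, mnr_mul, Matrix.det_mul, Matrix.det_diagonal, abs_mul, abs_mul, abs_mul,
    det_VNR]
  have h2 : |∏ l, tau w (f l)| * |∏ i, Real.exp (w (Sum.inl i))| =
      sc (fun i j => Real.exp (w (Sum.inl i) + bet w j)) f := by
    rw [abs_of_pos (prod_pos fun l _ => tau_pos w (f l)),
      abs_of_pos (prod_pos fun i _ => Real.exp_pos _), ← prod_mul_distrib]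
    unfold sc
    refine prod_congr rfl fun l _ => ?_
    rcases hf.2 l with h | ⟨j, h⟩
    · rw [h]
      unfold tau
      rw [Sum.elim_inl, Sum.elim_inl, ← Real.exp_add, neg_add_cancel, Real.exp_zero]
    · rw [h]
      unfold tau
      rw [Sum.elim_inr, Sum.elim_inr, ← Real.exp_add, add_comm]
  rw [← h2]
  ring

/-- the window with bounded minors -/
def WE (i₀ : Fin k) (η : ℝ) : Set (Cx k (m' + 1) → ℝ) :=
  {x | Win i₀ x ∧ ∀ f : Fin k → Fin k ⊕ Fin (m' + 1), Function.Injective f →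
    η ≤ |mnr (XX x) f| ∧ |mnr (XX x) f| ≤ η⁻¹}

/-- the window with bounded height -/
def EE (i₀ : Fin k) (η : ℝ) (G : Matrix (Fin k) (Fin k ⊕ Fin (m' + 1)) ℝ → ℝ) (u : ℝ) :
    Set (Cx k (m' + 1) → ℝ) := {x | x ∈ WE i₀ η ∧ x none * G (XX x) ≤ u}

theorem mnr_XX (x : Cx k m → ℝ) (i : Fin k) (j : Fin m) :
    mnr (XX x) (Function.update Sum.inl i (Sum.inr j)) = x (some (i, j)) := by
  have h2 : mnr (XX x) (Function.update Sum.inl i (Sum.inr j)) =
      ((1 : Matrix (Fin k) (Fin k) ℝ).updateCol i fun l => x (some (l, j))).det := by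
    unfold mnr XX
    congr 1
    ext l i'
    by_cases hi : i' = i
    · subst hi
      simp [MM_inr]
    · simp [hi, MM_inl]
  rw [h2, ← Matrix.cramer_apply, Matrix.cramer_one]
  rfl

theorem upd_inj (i : Fin k) (j : Fin m) :
    Function.Injective (Function.update (Sum.inl : Fin k → Fin k ⊕ Fin m) i (Sum.inr j)) := by
  intro a b h
  by_cases ha : a = i
  · by_cases hb : b = i
    · rw [ha, hb]
    · rw [ha, Function.update_self, Function.update_of_ne hb] at h
      exact absurd h (by simp)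
  · by_cases hb : b = i
    · rw [hb, Function.update_self, Function.update_of_ne ha] at h
      exact absurd h (by simp)
    · rw [Function.update_of_ne ha, Function.update_of_ne hb] at h
      exact Sum.inl_injective h

theorem WE_bdd (i₀ : Fin k) (η : ℝ) : Bornology.IsBounded (WE (m' := m') i₀ η) := by
  refine (Metric.isBounded_Icc (fun _ => -(Real.exp 1 + |η⁻¹|)) fun _ =>
    Real.exp 1 + |η⁻¹|).subset ?_
  intro x hx
  have he := Real.exp_pos 1
  have h1 : ∀ ν, |x ν| ≤ Real.exp 1 + |η⁻¹| := by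
    intro ν
    rcases ν with _ | ⟨i, j⟩
    · rw [abs_of_pos (by linarith [hx.1.1.1])]
      linarith [hx.1.1.2, abs_nonneg η⁻¹]
    · have h2 := (hx.2 _ (upd_inj i j)).2
      rw [mnr_XX] at h2
      linarith [le_abs_self η⁻¹]
  exact ⟨fun ν => (abs_le.1 (h1 ν)).1, fun ν => (abs_le.1 (h1 ν)).2⟩

theorem continuous_XX : Continuous fun x : Cx k m → ℝ => XX x := by
  refine continuous_matrix fun l y => ?_
  rcases y with i | j
  · exact continuous_const
  · exact continuous_apply (some (l, j))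

theorem continuous_mnrR (f : Fin k → ι) :
    Continuous fun M : Matrix (Fin k) ι ℝ => mnr M f := by
  unfold mnr
  exact Continuous.matrix_det (Continuous.matrix_submatrix continuous_id id f)

theorem null_frontier_inter {α : Type} [TopologicalSpace α] [MeasurableSpace α] {μ : Measure α}
    {s t : Set α} (hs : μ (frontier s) = 0) (ht : μ (frontier t) = 0) :
    μ (frontier (s ∩ t)) = 0 := by
  refine measure_mono_null (t := frontier s ∪ frontier t) ?_ (measure_union_null hs ht)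
  refine (frontier_inter_subset s t).trans ?_
  rintro x (h | h)
  · exact Or.inl h.1
  · exact Or.inr h.2

theorem null_frontier_iInter {α β : Type} [TopologicalSpace α] [MeasurableSpace α] {μ : Measure α}
    [Fintype β] {s : β → Set α} (hs : ∀ b, μ (frontier (s b)) = 0) :
    μ (frontier (⋂ b, s b)) = 0 := by
  classical
  have h1 : ∀ t : Finset β, μ (frontier (⋂ b ∈ t, s b)) = 0 := by
    intro t
    induction t using Finset.induction_on with
    | empty => simp
    | insert b t hb ih =>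
      rw [Finset.set_biInter_insert]
      exact null_frontier_inter (hs b) ih
  have h2 := h1 univ
  simpa using h2

/-- level sets of continuous functions -/
theorem null_frontier_le {n : Type} [Fintype n] {g : (n → ℝ) → ℝ} (hg : Continuous g) :
    ∃ S : Set ℝ, S.Countable ∧ ∀ c ∉ S, volume (frontier {x | g x ≤ c}) = 0 ∧
      volume (frontier {x | c ≤ g x}) = 0 := by
  refine ⟨{t | 0 < volume {x | g x = t}}, Measure.countable_meas_level_set_pos hg.measurable,
    fun c hc => ?_⟩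
  have h0 : volume {x | g x = c} = 0 := by
    by_contra h
    exact hc (pos_iff_ne_zero.2 h)
  refine ⟨measure_mono_null (frontier_le_subset_eq hg continuous_const) h0,
    measure_mono_null (frontier_le_subset_eq continuous_const hg) ?_⟩
  have h1 : {x : n → ℝ | c = g x} = {x | g x = c} := by
    ext x
    exact eq_comm
  rw [h1]
  exact h0

theorem null_win (ν : Cx k (m' + 1)) :
    volume (frontier {x : Cx k (m' + 1) → ℝ | 1 < x ν ∧ x ν ≤ Real.exp 1}) = 0 := by
  have h1 : ∀ c : ℝ, volume {x : Cx k (m' + 1) → ℝ | x ν = c} = 0 := fun c => by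
    rw [volume_pi]
    exact Measure.pi_hyperplane (fun _ : Cx k (m' + 1) => (volume : Measure ℝ)) ν c
  have h2 : {x : Cx k (m' + 1) → ℝ | 1 < x ν ∧ x ν ≤ Real.exp 1} =
      {x | x ν ≤ 1}ᶜ ∩ {x | x ν ≤ Real.exp 1} := by
    ext x
    constructor
    · rintro ⟨h1, h2⟩
      exact ⟨not_le.2 h1, h2⟩
    · rintro ⟨h1, h2⟩
      exact ⟨not_le.1 h1, h2⟩
  rw [h2]
  refine null_frontier_inter ?_ ?_
  · rw [frontier_compl]
    exact measure_mono_null (frontier_le_subset_eq (continuous_apply ν) continuous_const) (h1 1)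
  · exact measure_mono_null (frontier_le_subset_eq (continuous_apply ν) continuous_const)
      (h1 (Real.exp 1))

theorem WE_null (i₀ : Fin k) : ∃ S : Set ℝ, S.Countable ∧ ∀ η, 0 < η → η ∉ S →
    volume (frontier (WE (m' := m') i₀ η)) = 0 := by
  classical
  have hcont : ∀ f : Fin k → Fin k ⊕ Fin (m' + 1), Continuous fun x : Cx k (m' + 1) → ℝ =>
      |mnr (XX x) f| := fun f => ((continuous_mnrR f).comp continuous_XX).abs
  choose S hS1 hS2 using fun f => null_frontier_le (hcont f)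
  refine ⟨⋃ f, (S f ∪ (fun t : ℝ => t⁻¹) ⁻¹' S f), ?_, fun η hη hηS => ?_⟩
  · refine Set.countable_iUnion fun f => (hS1 f).union ?_
    exact (hS1 f).preimage_of_injOn (inv_injective.injOn)
  · rw [Set.mem_iUnion, not_exists] at hηS
    have hw : WE (m' := m') i₀ η = ({x | 1 < x none ∧ x none ≤ Real.exp 1} ∩
        ((⋂ i, {x | 1 < x (some (i, 0)) ∧ x (some (i, 0)) ≤ Real.exp 1}) ∩
        ⋂ j, {x | 1 < x (some (i₀, j)) ∧ x (some (i₀, j)) ≤ Real.exp 1})) ∩
        ⋂ f : {f : Fin k → Fin k ⊕ Fin (m' + 1) // Function.Injective f},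
          ({x | η ≤ |mnr (XX x) f.1|} ∩ {x | |mnr (XX x) f.1| ≤ η⁻¹}) := by
      ext x
      constructor
      · rintro ⟨⟨h1, h2, h3⟩, h4⟩
        refine ⟨⟨h1, Set.mem_iInter.2 h2, Set.mem_iInter.2 h3⟩, Set.mem_iInter.2 fun f => ?_⟩
        exact ⟨(h4 f.1 f.2).1, (h4 f.1 f.2).2⟩
      · rintro ⟨⟨h1, h2, h3⟩, h4⟩
        refine ⟨⟨h1, Set.mem_iInter.1 h2, Set.mem_iInter.1 h3⟩, fun f hf => ?_⟩
        have h5 := Set.mem_iInter.1 h4 ⟨f, hf⟩
        exact ⟨h5.1, h5.2⟩
    rw [hw]
    refine null_frontier_inter (null_frontier_inter (null_win _) (null_frontier_inter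
      (null_frontier_iInter fun i => null_win _) (null_frontier_iInter fun j => null_win _)))
      (null_frontier_iInter fun f => null_frontier_inter ?_ ?_)
    · exact (hS2 f.1 η fun h => hηS f.1 (Or.inl h)).2
    · exact (hS2 f.1 η⁻¹ fun h => hηS f.1 (Or.inr h)).1

/-- the generic locus -/
def UU (k m : ℕ) : Set (Cx k m → ℝ) :=
  {x | ∀ f : Fin k → Fin k ⊕ Fin m, Function.Injective f → mnr (XX x) f ≠ 0}

theorem UU_open : IsOpen (UU k m) := by
  have h1 : UU k m = ⋂ f : {f : Fin k → Fin k ⊕ Fin m // Function.Injective f},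
      {x | mnr (XX x) f.1 ≠ 0} := by
    ext x
    rw [Set.mem_iInter]
    exact ⟨fun h f => h f.1 f.2, fun h f hf => h ⟨f, hf⟩⟩
  rw [h1]
  refine isOpen_iInter_of_finite fun f => ?_
  exact isOpen_ne_fun ((continuous_mnrR f.1).comp continuous_XX) continuous_const

theorem closure_WE (i₀ : Fin k) {η : ℝ} (hη : 0 < η) :
    closure (WE (m' := m') i₀ η) ⊆ UU k (m' + 1) := by
  have h1 : IsClosed {x : Cx k (m' + 1) → ℝ | ∀ f : Fin k → Fin k ⊕ Fin (m' + 1),
      Function.Injective f → η ≤ |mnr (XX x) f|} := by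
    have h2 : {x : Cx k (m' + 1) → ℝ | ∀ f : Fin k → Fin k ⊕ Fin (m' + 1),
      Function.Injective f → η ≤ |mnr (XX x) f|} =
        ⋂ f : {f : Fin k → Fin k ⊕ Fin (m' + 1) // Function.Injective f},
          {x | η ≤ |mnr (XX x) f.1|} := by
      ext x
      rw [Set.mem_iInter]
      exact ⟨fun h f => h f.1 f.2, fun h f hf => h ⟨f, hf⟩⟩
    rw [h2]
    exact isClosed_iInter fun f =>
      isClosed_le continuous_const ((continuous_mnrR f.1).comp continuous_XX).abs
  have h2 := closure_minimal (s := WE (m' := m') i₀ η) (fun x hx f hf => (hx.2 f hf).1) h1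
  intro x hx f hf h0
  have h3 := h2 hx f hf
  rw [h0, abs_zero] at h3
  linarith

theorem EE_null (i₀ : Fin k) {η : ℝ} (hη : 0 < η)
    (hW : volume (frontier (WE (m' := m') i₀ η)) = 0)
    {G : Matrix (Fin k) (Fin k ⊕ Fin (m' + 1)) ℝ → ℝ}
    (hG : ContinuousOn (fun x : Cx k (m' + 1) → ℝ => G (XX x)) (UU k (m' + 1))) :
    ∃ S : Set ℝ, S.Countable ∧ ∀ u ∉ S, volume (frontier (EE i₀ η G u)) = 0 := by
  classical
  set U := UU k (m' + 1) with hU
  set g : (Cx k (m' + 1) → ℝ) → ℝ := fun x => x none * G (XX x) with hg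
  have hgc : ContinuousOn g U := (continuous_apply none).continuousOn.mul hG
  have hmeas : Measurable (U.piecewise g fun _ => 0) :=
    ContinuousOn.measurable_piecewise hgc continuousOn_const UU_open.measurableSet
  refine ⟨{t | 0 < volume {x | U.piecewise g (fun _ => 0) x = t}},
    Measure.countable_meas_level_set_pos hmeas, fun u hu => ?_⟩
  have h0 : volume {x | U.piecewise g (fun _ => 0) x = u} = 0 := by
    by_contra h
    exact hu (pos_iff_ne_zero.2 h)
  refine measure_mono_null (t := frontier (WE (m' := m') i₀ η) ∪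
    {x | U.piecewise g (fun _ => 0) x = u}) ?_ (measure_union_null hW h0)
  intro x hx
  have hxc : x ∈ closure (WE (m' := m') i₀ η) :=
    closure_mono (fun y (hy : y ∈ EE i₀ η G u) => hy.1) hx.1
  have hxU : x ∈ U := closure_WE i₀ hη hxc
  by_cases hxf : x ∈ frontier (WE (m' := m') i₀ η)
  · exact Or.inl hxf
  right
  have hxi : x ∈ interior (WE (m' := m') i₀ η) := by
    by_contra h
    exact hxf ⟨hxc, h⟩
  change U.piecewise g (fun _ => 0) x = u
  rw [Set.piecewise_eq_of_mem _ _ _ hxU]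
  have hgx : ContinuousAt g x := hgc.continuousAt (UU_open.mem_nhds hxU)
  rcases lt_trichotomy (g x) u with h | h | h
  · exfalso
    apply hx.2
    rw [mem_interior_iff_mem_nhds]
    filter_upwards [mem_interior_iff_mem_nhds.1 hxi, hgx.eventually (eventually_lt_nhds h)]
      with y hy1 hy2
    exact ⟨hy1, hy2.le⟩
  · exact h
  · exfalso
    have h1 : ∀ᶠ y in 𝓝 x, y ∉ EE i₀ η G u := by
      filter_upwards [hgx.eventually (eventually_gt_nhds h)] with y hy hyE
      exact absurd hyE.2 (not_le.2 hy)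
    exact (mem_closure_iff_frequently.1 hx.1) h1

end

end Run7.h3.PM
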