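import Pool.Agent.Run7.h3.PM.Good3

set_option autoImplicit false
set_option linter.unusedSectionVars false
set_option linter.unusedVariables false

/-! The classes of the points in the good cells. -/

namespace Run7.h3.PM

open Finset Module Filter Topology MeasureTheory Run7.h3.GT

section

variable {k m m' : ℕ} {ι : Type} [Fintype ι] [DecidableEq ι]

theorem Sst_re {K : Type} [Field K] {κ : Type} [Fintype κ] (θ : ι → ℕ) (e : κ ≃ ι)
    (M : Matrix (Fin k) ι K) : Sst (θ ∘ e) (M.submatrix id e) ↔ Sst θ M := by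
  constructor
  · intro h
    have h1 := h.reix e.symm
    have h2 : (θ ∘ e) ∘ e.symm = θ := by
      funext x
      simp
    have h3 : (M.submatrix id e).submatrix id e.symm = M := by
      ext a b
      simp
    rwa [h2, h3] at h1
  · intro h
    exact h.reix e

theorem Uns_re {κ : Type} [Fintype κ] (θ : ι → ℕ) (e : κ ≃ ι) (p : ℕ) (M : Matrix (Fin k) ι ℤ) :
    Uns (θ ∘ e) p (M.submatrix id e) ↔ Uns θ p M := by
  unfold Uns
  constructor
  · rintro ⟨hp, h⟩
    have : Fact p.Prime := ⟨hp⟩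
    exact ⟨hp, fun h' => h ((Sst_re θ e (red p M)).2 h')⟩
  · rintro ⟨hp, h⟩
    have : Fact p.Prime := ⟨hp⟩
    exact ⟨hp, fun h' => h ((Sst_re θ e (red p M)).1 h')⟩

theorem Adm.re {κ : Type} [Fintype κ] {θ : ι → ℕ} (h : Adm k θ) (e : κ ≃ ι) : Adm k (θ ∘ e) := by
  have hs : ∑ x, (θ ∘ e) x = ∑ x, θ x := e.sum_comp θ
  have hc : Fintype.card κ = Fintype.card ι := Fintype.card_congr e
  have ht : ∀ S : Set κ, tw (θ ∘ e) S = tw θ (e.symm ⁻¹' S) := by
    intro S
    have h1 := tw_pre θ e (e.symm ⁻¹' S)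
    have h2 : e ⁻¹' (e.symm ⁻¹' S) = S := by
      ext x
      simp
    rwa [h2] at h1
  have hn : ∀ S : Set κ, (e.symm ⁻¹' S).ncard = S.ncard := fun S =>
    Set.ncard_preimage_of_injective_subset_range e.symm.injective (by simp)
  refine ⟨fun x => h.pos _, fun S r hr h1 => ?_, fun S r h1 => ?_, fun S r hr h1 => ?_⟩
  · rw [hs, ht] at h1
    exact h.gen _ r hr h1
  · rw [hs, ht] at h1
    rw [hc, ← hn]
    exact h.near _ r h1
  · rw [hc, ← hn] at h1
    rw [hs, ht]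
    exact h.near' _ r hr h1

theorem Gnr_re {κ : Type} (e : κ ≃ ι) (M : Matrix (Fin k) ι ℤ) :
    Gnr (M.submatrix id e) ↔ Gnr M := by
  constructor
  · intro h f hf
    have h1 := h (e.symm ∘ f) (e.symm.injective.comp hf)
    have h2 : mnr (M.submatrix id e) (e.symm ∘ f) = mnr M f := by
      unfold mnr
      congr 1
      ext a b
      simp
    rwa [h2] at h1
  · intro h f hf
    exact h (e ∘ f) (e.injective.comp hf)

theorem Sst.sgn {K : Type} [Field K] {θ : ι → ℕ} {M : Matrix (Fin k) ι K} (h : Sst θ M)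
    {t : ι → K} (ht : ∀ x, t x ≠ 0) : Sst θ (M * Matrix.diagonal t) := by
  intro W
  have h1 : {x : ι | (M * Matrix.diagonal t).col x ∈ W} = {x : ι | M.col x ∈ W} := by
    ext x
    change (M * Matrix.diagonal t).col x ∈ W ↔ M.col x ∈ W
    have h2 : (M * Matrix.diagonal t).col x = t x • M.col x := by
      funext l
      rw [Matrix.col_apply, Matrix.mul_diagonal, Pi.smul_apply, Matrix.col_apply, smul_eq_mul,
        mul_comm]
    rw [h2]
    exact W.smul_mem_iff (ht x)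
  rw [h1]
  exact h W

/-- signs -/
def Sgn (ε : ι → ℤ) : Prop := ∀ x, ε x = 1 ∨ ε x = -1

theorem Sgn.ne {ε : ι → ℤ} (h : Sgn ε) (x : ι) : ε x ≠ 0 := by
  rcases h x with h | h <;> rw [h] <;> norm_num

theorem Sgn.sq {ε : ι → ℤ} (h : Sgn ε) (x : ι) : ε x * ε x = 1 := by
  rcases h x with h | h <;> rw [h] <;> norm_num

theorem Uns_sgn {θ : ι → ℕ} {p : ℕ} {M : Matrix (Fin k) ι ℤ} {ε : ι → ℤ} (hε : Sgn ε)
    (h : ¬ Uns θ p M) : ¬ Uns θ p (M * Matrix.diagonal ε) := by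
  rintro ⟨hp, hu⟩
  have : Fact p.Prime := ⟨hp⟩
  apply hu
  have h1 : Sst θ (red p M) := by
    by_contra hns
    exact h ⟨hp, hns⟩
  have h2 : red p (M * Matrix.diagonal ε) = red p M * Matrix.diagonal fun x => ((ε x : ℤ) : ZMod p) := by
    ext l x
    rw [Matrix.mul_diagonal]
    unfold red
    rw [Matrix.map_apply, Matrix.mul_diagonal, Matrix.map_apply]
    push_cast
    rfl
  rw [h2]
  refine h1.sgn fun x => ?_
  rcases hε x with h | h <;> rw [h] <;> simp

theorem mnr_sgn (M : Matrix (Fin k) ι ℤ) {ε : ι → ℤ} (hε : Sgn ε) (f : Fin k → ι) :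
    |mnr (M * Matrix.diagonal ε) f| = |mnr M f| := by
  have h1 : M * Matrix.diagonal ε = Matrix.of fun j i => M j i * ε i := by
    ext a b
    rw [Matrix.mul_diagonal]
    rfl
  rw [h1, mnr_scale, abs_mul, abs_prod]
  have h2 : ∀ l, |ε (f l)| = 1 := by
    intro l
    rcases hε (f l) with h | h <;> rw [h] <;> norm_num
  rw [prod_congr rfl fun l _ => h2 l, prod_const_one, one_mul]

/-- equivalent integral matrices -/
def Eqv (M M' : Matrix (Fin k) ι ℤ) : Prop :=
  ∃ (g : Matrix (Fin k) (Fin k) ℤ) (ε : ι → ℤ), g.det.natAbs = 1 ∧ Sgn ε ∧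
    M' = g * M * Matrix.diagonal ε

theorem Eqv.mnr {M M' : Matrix (Fin k) ι ℤ} (h : Eqv M M') (f : Fin k → ι) :
    |mnr M' f| = |mnr M f| := by
  obtain ⟨g, ε, hg, hε, rfl⟩ := h
  rw [mnr_sgn _ hε, abs_mnr_mul hg]

theorem Eqv.gnr {M M' : Matrix (Fin k) ι ℤ} (h : Eqv M M') (hM : Gnr M) : Gnr M' := by
  intro f hf h0
  have h1 := h.mnr f
  rw [h0, abs_zero] at h1
  exact hM f hf (abs_eq_zero.1 h1.symm)

theorem Eqv.uns {θ : ι → ℕ} {M M' : Matrix (Fin k) ι ℤ} (h : Eqv M M') {p : ℕ}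
    (hM : ¬ Uns θ p M) : ¬ Uns θ p M' := by
  obtain ⟨g, ε, hg, hε, rfl⟩ := h
  refine Uns_sgn hε (Uns_mul (fun hp => ?_) hM)
  have h1 : (red p g).det = ((g.det : ℤ) : ZMod p) := ((Int.castRingHom (ZMod p)).map_det g).symm
  rw [h1]
  have h2 : IsUnit g.det := Int.isUnit_iff_natAbs_eq.2 hg
  exact h2.map (Int.castRingHom (ZMod p))

theorem Eqv.cls {M M' : Matrix (Fin k) ι ℤ} (h : Eqv M M') : cls M' = cls M := by
  obtain ⟨g, ε, hg, hε, rfl⟩ := h
  rw [cls_sign _ hε.ne, cls_mul (natAbs_ne hg)]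

theorem Eqv.trans {M M' M'' : Matrix (Fin k) ι ℤ} (h : Eqv M M') (h' : Eqv M' M'') :
    Eqv M M'' := by
  obtain ⟨g, ε, hg, hε, rfl⟩ := h
  obtain ⟨g', ε', hg', hε', rfl⟩ := h'
  refine ⟨g' * g, fun x => ε x * ε' x, ?_, fun x => ?_, ?_⟩
  · rw [Matrix.det_mul, Int.natAbs_mul, hg, hg']
  · change ε x * ε' x = 1 ∨ ε x * ε' x = -1
    rcases hε x with h | h <;> rcases hε' x with h' | h' <;> rw [h, h'] <;> norm_num
  · rw [← Matrix.diagonal_mul_diagonal]
    simp only [Matrix.mul_assoc]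

theorem Eqv.symm {M M' : Matrix (Fin k) ι ℤ} (h : Eqv M M') : Eqv M' M := by
  obtain ⟨g, ε, hg, hε, rfl⟩ := h
  obtain ⟨g', h1, h2⟩ := exists_inv hg
  refine ⟨g', ε, ?_, hε, ?_⟩
  · have h3 := congrArg Matrix.det h1
    rw [Matrix.det_mul, Matrix.det_one] at h3
    have h4 := congrArg Int.natAbs h3
    rw [Int.natAbs_mul, hg, mul_one] at h4
    simpa using h4
  · have h3 : Matrix.diagonal ε * Matrix.diagonal ε = (1 : Matrix ι ι ℤ) := by
      rw [Matrix.diagonal_mul_diagonal, ← Matrix.diagonal_one]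
      congr 1
      funext x
      exact hε.sq x
    calc M = g' * g * M * (Matrix.diagonal ε * Matrix.diagonal ε) := by
          rw [h1, h3, Matrix.one_mul, Matrix.mul_one]
      _ = _ := by simp only [Matrix.mul_assoc]

/-- uniqueness of coordinates -/
theorem cf_of {V : Matrix (Fin k) (Fin k) ℤ} (hV : V.det ≠ 0) {z : Fin k → ℤ} {c : Fin k → ℝ}
    (h : ∀ l, (z l : ℝ) = ∑ i, (V l i : ℝ) * c i) : cf V z = c := by
  unfold cf
  have h1 : (fun i => (z i : ℝ)) = (V.map (Int.cast : ℤ → ℝ)).mulVec c := by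
    funext l
    rw [h l]
    rfl
  rw [h1, Matrix.mulVec_mulVec, Matrix.nonsing_inv_mul _ (isUnit_real hV), Matrix.one_mulVec]

/-- the coordinates of equivalent points -/
theorem cf_eqv {P P' : Pt k m} {g : Matrix (Fin k) (Fin k) ℤ} {ε : Fin k ⊕ Fin m → ℤ}
    (hε : Sgn ε) (h : MM (VN P'.1) P'.2 = g * MM (VN P.1) P.2 * Matrix.diagonal ε) (i : Fin k)
    (j : Fin m) : co P' (some (i, j)) =
      (ε (Sum.inl i) : ℝ) * ε (Sum.inr j) * co P (some (i, j)) := by
  have h1 : ∀ l i, VN P'.1 l i = (g * VN P.1) l i * ε (Sum.inl i) := by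
    intro l i
    have h2 := congrFun (congrFun h l) (Sum.inl i)
    rw [Matrix.mul_diagonal, mul_MM, MM_inl, MM_inl] at h2
    exact h2
  have h2 : ∀ l, P'.2 j l = (g.mulVec (P.2 j)) l * ε (Sum.inr j) := by
    intro l
    have h2 := congrFun (congrFun h l) (Sum.inr j)
    rw [Matrix.mul_diagonal, mul_MM, MM_inr, MM_inr] at h2
    exact h2
  have h3 : cf (VN P'.1) (P'.2 j) = fun i => (ε (Sum.inl i) : ℝ) * ε (Sum.inr j) *
      cf (VN P.1) (P.2 j) i := by
    refine cf_of (VN_det_ne _) fun l => ?_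
    rw [h2 l]
    have h4 : ∀ i, (VN P'.1 l i : ℝ) * ((ε (Sum.inl i) : ℝ) * ε (Sum.inr j) *
        cf (VN P.1) (P.2 j) i) = (ε (Sum.inr j) : ℝ) * (((g * VN P.1) l i : ℤ) *
          cf (VN P.1) (P.2 j) i) := by
      intro i
      have h5 : (ε (Sum.inl i) : ℝ) * ε (Sum.inl i) = 1 := by exact_mod_cast hε.sq (Sum.inl i)
      rw [h1 l i]
      push_cast
      linear_combination (((g * VN P.1) l i : ℤ) : ℝ) * ε (Sum.inr j) *
        cf (VN P.1) (P.2 j) i * h5
    rw [sum_congr rfl fun i _ => h4 i, ← mul_sum]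
    have h6 : (((g.mulVec (P.2 j)) l : ℤ) : ℝ) = ∑ i, (((g * VN P.1) l i : ℤ) : ℝ) *
        cf (VN P.1) (P.2 j) i := by
      have h7 : ∀ i, (((g * VN P.1) l i : ℤ) : ℝ) * cf (VN P.1) (P.2 j) i =
          ∑ l', (g l l' : ℝ) * ((VN P.1 l' i : ℝ) * cf (VN P.1) (P.2 j) i) := by
        intro i
        rw [Matrix.mul_apply]
        push_cast
        rw [sum_mul]
        exact sum_congr rfl fun l' _ => by ring
      rw [sum_congr rfl fun i _ => h7 i, Finset.sum_comm]
      simp only [Matrix.mulVec, dotProduct]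
      push_cast
      refine sum_congr rfl fun l' _ => ?_
      rw [← mul_sum, ← mul_cf (VN_det_ne _)]
    rw [Int.cast_mul, h6]
    ring
  exact congrFun h3 i

/-- reindexed equivalences -/
theorem eqv_re (e : Fin k ⊕ Fin m ≃ ι) {P P' : Pt k m} (h : Eqv (mt e P) (mt e P')) :
    ∃ (g : Matrix (Fin k) (Fin k) ℤ) (ε : Fin k ⊕ Fin m → ℤ), g.det.natAbs = 1 ∧ Sgn ε ∧
      MM (VN P'.1) P'.2 = g * MM (VN P.1) P.2 * Matrix.diagonal ε := by
  obtain ⟨g, ε, hg, hε, h⟩ := h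
  refine ⟨g, ε ∘ e, hg, fun x => hε (e x), ?_⟩
  rw [← mt_sub e P', ← mt_sub e P, h]
  ext l x
  rw [Matrix.mul_diagonal, Matrix.submatrix_apply, Matrix.mul_diagonal]
  rfl

/-- positive points -/
def Pst (i₀ : Fin k) (P : Pt k (m' + 1)) : Prop :=
  (∀ i, 0 < co P (some (i, 0))) ∧ ∀ j, 0 < co P (some (i₀, j))

/-- a class contains at most one positive point -/
theorem pt_uniq {i₀ : Fin k} (e : Fin k ⊕ Fin (m' + 1) ≃ ι) {P P' : Pt k (m' + 1)}
    (hP : Pst i₀ P) (hP' : Pst i₀ P') (h : Eqv (mt e P) (mt e P')) : P = P' := by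
  obtain ⟨g, ε, hg, hε, h⟩ := eqv_re e h
  have h1 := fun i j => cf_eqv hε h i j
  have key : ∀ x y : Fin k ⊕ Fin (m' + 1), 0 < (ε x : ℝ) * ε y → ε x = ε y := by
    intro x y hxy
    rcases hε x with h | h <;> rcases hε y with h' | h'
    · rw [h, h']
    · rw [h, h'] at hxy
      norm_num at hxy
    · rw [h, h'] at hxy
      norm_num at hxy
    · rw [h, h']
  have h2 : ∀ i, ε (Sum.inl i) = ε (Sum.inr 0) := by
    intro i
    refine key _ _ ?_
    have e1 := hP'.1 i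
    rw [h1] at e1
    exact pos_of_mul_pos_left e1 (hP.1 i).le
  have h3 : ∀ j, ε (Sum.inr j) = ε (Sum.inl i₀) := by
    intro j
    refine (key _ _ ?_).symm
    have e1 := hP'.2 j
    rw [h1] at e1
    exact pos_of_mul_pos_left e1 (hP.2 j).le
  set u := ε (Sum.inl i₀) with hu
  have h4 : ∀ x, ε x = u := by
    intro x
    rcases x with i | j
    · rw [h2, h3]
    · exact h3 j
  have hu1 : u = 1 ∨ u = -1 := hε (Sum.inl i₀)
  have h5 : MM (VN P'.1) P'.2 = (u • g) * MM (VN P.1) P.2 := by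
    rw [h]
    ext l x
    rw [Matrix.mul_diagonal, h4, Matrix.smul_mul, Matrix.smul_apply, smul_eq_mul, mul_comm]
  have hug : (u • g).det.natAbs = 1 := by
    rw [Matrix.det_smul, Int.natAbs_mul, hg, mul_one, Int.natAbs_pow]
    rcases hu1 with h | h <;> rw [h] <;> simp
  rw [mul_MM] at h5
  have h6 : (u • g) * VN P.1 = VN P'.1 := by
    ext l i
    exact (congrFun (congrFun h5 l) (Sum.inl i)).symm
  have h7 : P.1 = P'.1 := VN_inj hug h6
  have h8 : u • g = 1 := by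
    rw [← h7] at h6
    have h9 : (u • g - 1) * VN P.1 = 0 := by
      rw [Matrix.sub_mul, h6, Matrix.one_mul, sub_self]
    have h10 : ((u • g - 1) * VN P.1) * (VN P.1).adjugate = 0 := by rw [h9, Matrix.zero_mul]
    rw [Matrix.mul_assoc, Matrix.mul_adjugate, Matrix.mul_smul, Matrix.mul_one] at h10
    have h11 := (smul_eq_zero.1 h10).resolve_left (VN_det_ne P.1)
    exact sub_eq_zero.1 h11
  refine Prod.ext h7 ?_
  funext j l
  have h9 := congrFun (congrFun h5 l) (Sum.inr j)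
  rw [MM_inr, MM_inr, h8, Matrix.one_mulVec] at h9
  exact h9.symm

/-- every class contains a positive point -/
theorem exists_pst {i₀ : Fin k} (e : Fin k ⊕ Fin (m' + 1) ≃ ι) {M : Matrix (Fin k) ι ℤ}
    (hM : Gnr M) : ∃ P : Pt k (m' + 1), Pst i₀ P ∧ Eqv M (mt e P) := by
  classical
  obtain ⟨P₁, g₁, hg₁, hP₁⟩ := exists_pt e hM
  have hE1 : Eqv M (mt e P₁) := ⟨g₁, fun _ => 1, hg₁, fun _ => Or.inl rfl, by
    rw [hP₁, show (Matrix.diagonal fun _ => (1 : ℤ) : Matrix ι ι ℤ) = 1 from Matrix.diagonal_one,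
      Matrix.mul_one]⟩
  have hG1 := hE1.gnr hM
  have hc : ∀ i j, co P₁ (some (i, j)) ≠ 0 := by
    intro i j h0
    have h1 : mnr (mt e P₁) (e ∘ Function.update Sum.inl i (Sum.inr j)) ≠ 0 :=
      hG1 _ (e.injective.comp (upd_inj i j))
    rw [mnr_mt] at h1
    have h2 : mnr (MM (VN P₁.1) P₁.2) (Function.update Sum.inl i (Sum.inr j)) =
        ((VN P₁.1).updateCol i (P₁.2 j)).det := by
      unfold mnr
      congr 1
      ext l i'
      by_cases hi : i' = i
      · subst hi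
        simp [MM_inr]
      · simp [hi, MM_inl]
    have h3 := det_updateCol (VN_det_ne P₁.1) (P₁.2 j) i
    have h4 : cf (VN P₁.1) (P₁.2 j) i = 0 := h0
    rw [h4, mul_zero, ← h2] at h3
    exact h1 (by exact_mod_cast h3)
  set sn : ℝ → ℤ := fun x => if 0 < x then 1 else -1 with hsn
  have hsn1 : ∀ x, sn x = 1 ∨ sn x = -1 := by
    intro x
    simp only [hsn]
    split_ifs <;> simp
  have hsn2 : ∀ x, x ≠ 0 → 0 < (sn x : ℝ) * x := by
    intro x hx
    simp only [hsn]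
    split_ifs with h
    · push_cast
      linarith
    · push_cast
      rcases lt_or_gt_of_ne hx with h' | h'
      · linarith
      · exact absurd h' h
  set ε : Fin k ⊕ Fin (m' + 1) → ℤ := Sum.elim (fun i => sn (co P₁ (some (i, 0))))
    fun j => sn (co P₁ (some (i₀, j))) * sn (co P₁ (some (i₀, 0))) with hε
  have hεs : Sgn ε := by
    intro x
    rcases x with i | j
    · exact hsn1 _
    · change sn (co P₁ (some (i₀, j))) * sn (co P₁ (some (i₀, 0))) = 1 ∨
        sn (co P₁ (some (i₀, j))) * sn (co P₁ (some (i₀, 0))) = -1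
      rcases hsn1 (co P₁ (some (i₀, j))) with h | h <;>
        rcases hsn1 (co P₁ (some (i₀, 0))) with h' | h' <;> rw [h, h'] <;> norm_num
  have hεe : Sgn (ε ∘ e.symm) := fun x => hεs (e.symm x)
  have hE2 : Eqv (mt e P₁) (mt e P₁ * Matrix.diagonal (ε ∘ e.symm)) :=
    ⟨1, ε ∘ e.symm, by simp, hεe, by rw [Matrix.one_mul]⟩
  obtain ⟨P, g, hg, hP⟩ := exists_pt e (hE2.gnr hG1)
  have hE3 : Eqv (mt e P₁) (mt e P) := ⟨g, ε ∘ e.symm, hg, hεe, by
    rw [Matrix.mul_assoc]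
    exact hP.symm⟩
  have hform : MM (VN P.1) P.2 = g * MM (VN P₁.1) P₁.2 * Matrix.diagonal ε := by
    rw [← mt_sub e P, ← hP, ← mt_sub e P₁]
    ext l x
    rw [Matrix.mul_diagonal, ← Matrix.mul_assoc, Matrix.submatrix_apply, Matrix.mul_diagonal]
    simp only [Function.comp_apply, Equiv.symm_apply_apply]
    rfl
  refine ⟨P, ⟨fun i => ?_, fun j => ?_⟩, hE1.trans hE3⟩
  · rw [cf_eqv hεs hform]
    have h1 : (ε (Sum.inl i) : ℝ) * ε (Sum.inr 0) = sn (co P₁ (some (i, 0))) := by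
      have h2 : ε (Sum.inl i) * ε (Sum.inr 0) = sn (co P₁ (some (i, 0))) := by
        change sn (co P₁ (some (i, 0))) * (sn (co P₁ (some (i₀, 0))) *
          sn (co P₁ (some (i₀, 0)))) = _
        rcases hsn1 (co P₁ (some (i₀, 0))) with h | h <;> rw [h] <;> simp
      exact_mod_cast h2
    rw [h1]
    exact hsn2 _ (hc _ _)
  · rw [cf_eqv hεs hform]
    have h1 : (ε (Sum.inl i₀) : ℝ) * ε (Sum.inr j) = sn (co P₁ (some (i₀, j))) := by
      have h2 : ε (Sum.inl i₀) * ε (Sum.inr j) = sn (co P₁ (some (i₀, j))) := by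
        change sn (co P₁ (some (i₀, 0))) * (sn (co P₁ (some (i₀, j))) *
          sn (co P₁ (some (i₀, 0)))) = _
        rcases hsn1 (co P₁ (some (i₀, 0))) with h | h <;> rw [h] <;> simp
      exact_mod_cast h2
    rw [h1]
    exact hsn2 _ (hc _ _)

end

end Run7.h3.PM
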