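import Pool.Agent.Run7.h3.PM.Good4

set_option autoImplicit false
set_option linter.unusedSectionVars false
set_option linter.unusedVariables false

/-! Well placed matrices are in the good cells. -/

namespace Run7.h3.PM

open Finset Module Filter Topology MeasureTheory Run7.h3.GT

section

variable {k m m' : ℕ} {ι : Type} [Fintype ι] [DecidableEq ι]

theorem sc_exp (u : Fin k → Fin m → ℝ) (f : Fin k → Fin k ⊕ Fin m) :
    sc (fun i j => Real.exp (u i j)) f =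
      Real.exp (∑ l, Sum.elim (fun _ => 0) (fun j => u l j) (f l)) := by
  unfold sc
  rw [Real.exp_sum]
  refine prod_congr rfl fun l _ => ?_
  rcases f l with i | j
  · simp
  · simp

theorem std_inl : Std (Sum.inl : Fin k → Fin k ⊕ Fin m) :=
  ⟨Sum.inl_injective, fun l => Or.inl rfl⟩

theorem std_upd (i : Fin k) (j : Fin m) :
    Std (Function.update (Sum.inl : Fin k → Fin k ⊕ Fin m) i (Sum.inr j)) := by
  refine ⟨upd_inj i j, fun l => ?_⟩
  by_cases h : l = i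
  · right
    exact ⟨j, by rw [h, Function.update_self]⟩
  · left
    rw [Function.update_of_ne h]

theorem mnr_inlP (P : Pt k m) : |((mnr (MM (VN P.1) P.2) Sum.inl : ℤ) : ℝ)| = P.1.idx := by
  have h1 : mnr (MM (VN P.1) P.2) Sum.inl = (VN P.1).det := by
    unfold mnr
    congr 1
  rw [h1, idx_eq]

theorem mnr_upd (P : Pt k m) (i : Fin k) (j : Fin m) :
    |((mnr (MM (VN P.1) P.2) (Function.update Sum.inl i (Sum.inr j)) : ℤ) : ℝ)| =
      P.1.idx * |co P (some (i, j))| := by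
  have h2 : mnr (MM (VN P.1) P.2) (Function.update Sum.inl i (Sum.inr j)) =
      ((VN P.1).updateCol i (P.2 j)).det := by
    unfold mnr
    congr 1
    ext l i'
    by_cases hi : i' = i
    · subst hi
      simp [MM_inr]
    · simp [hi, MM_inl]
  rw [h2, det_updateCol (VN_det_ne P.1), abs_mul, idx_eq]
  rfl

theorem sum_upd (a : Fin k → ℝ) (b : Fin m → ℝ) (i : Fin k) (j : Fin m) :
    ∑ l, Sum.elim a b (Function.update (Sum.inl : Fin k → Fin k ⊕ Fin m) i (Sum.inr j) l) =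
      ∑ l, a l + (b j - a i) := by
  rw [← add_sum_erase univ _ (mem_univ i), ← add_sum_erase univ a (mem_univ i),
    Function.update_self, Sum.elim_inr]
  have h3 : ∑ x ∈ univ.erase i, Sum.elim a b (Function.update Sum.inl i (Sum.inr j) x) =
      ∑ x ∈ univ.erase i, a x := by
    refine sum_congr rfl fun x hx => ?_
    rw [Function.update_of_ne (ne_of_mem_erase hx), Sum.elim_inl]
  rw [h3]
  ring

theorem sum_std (a : Fin k → ℝ) (b : Fin m → ℝ) {f : Fin k → Fin k ⊕ Fin m} (hf : Std f) :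
    ∑ l, Sum.elim a b (f l) = ∑ l, a l +
      ∑ l, Sum.elim (fun _ => 0) (fun j => b j - a l) (f l) := by
  rw [← sum_add_distrib]
  refine sum_congr rfl fun l _ => ?_
  rcases hf.2 l with h | ⟨j, h⟩
  · rw [h, Sum.elim_inl, Sum.elim_inl, add_zero]
  · rw [h, Sum.elim_inr, Sum.elim_inr]
    ring

theorem abs_mnr_compR {ι : Type} (M : Matrix (Fin k) ι ℝ) (f : Fin k → ι)
    (π : Equiv.Perm (Fin k)) : |mnr M (f ∘ π)| = |mnr M f| := by
  rw [mnr_comp, abs_mul]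
  rcases Int.units_eq_one_or (Equiv.Perm.sign π) with h | h <;> rw [h] <;> simp

/-- the function in the standard coordinates -/
def Ge (e : Fin k ⊕ Fin m ≃ ι) (G : Matrix (Fin k) ι ℝ → ℝ) :
    Matrix (Fin k) (Fin k ⊕ Fin m) ℝ → ℝ := fun M => G (M.submatrix id e.symm)

theorem Ge_hom (e : Fin k ⊕ Fin m ≃ ι) {G : Matrix (Fin k) ι ℝ → ℝ} (hG : Hom G) :
    Hom (Ge e G) := by
  intro g τ M hg hτ
  unfold Ge
  have h1 : (g * M * Matrix.diagonal τ).submatrix id e.symm =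
      g * (M.submatrix id e.symm) * Matrix.diagonal (τ ∘ e.symm) := by
    ext l x
    rw [Matrix.submatrix_apply, Matrix.mul_diagonal, Matrix.mul_diagonal]
    rfl
  rw [h1, hG g (τ ∘ e.symm) _ hg fun x => hτ (e.symm x), Fintype.card_congr e.symm]
  congr 2
  exact Equiv.prod_comp e.symm fun x => |τ x| ^ k

theorem Ge_toR (e : Fin k ⊕ Fin m ≃ ι) (G : Matrix (Fin k) ι ℝ → ℝ) (P : Pt k m) :
    Ge e G (toR (MM (VN P.1) P.2)) = G (toR (mt e P)) := rfl

theorem Hom.eqv {G : Matrix (Fin k) ι ℝ → ℝ} (hG : Hom G) {M M' : Matrix (Fin k) ι ℤ}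
    (h : Eqv M M') : G (toR M') = G (toR M) := by
  obtain ⟨g, ε, hg, hε, rfl⟩ := h
  have h1 : toR (g * M * Matrix.diagonal ε) =
      g.map (Int.cast : ℤ → ℝ) * toR M * Matrix.diagonal fun x => (ε x : ℝ) := by
    rw [← toR_mul]
    ext l x
    rw [Matrix.mul_diagonal]
    unfold toR
    rw [Matrix.map_apply, Matrix.mul_diagonal, Matrix.map_apply]
    push_cast
    rfl
  have hd : |(g.map (Int.cast : ℤ → ℝ)).det| = 1 := by
    rw [det_mapR, ← Int.cast_abs, Int.abs_eq_natAbs, hg]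
    simp
  have he : ∀ x, |((ε x : ℤ) : ℝ)| = 1 := by
    intro x
    rcases hε x with h | h <;> rw [h] <;> simp
  rw [h1, hG]
  · rw [hd, one_pow, one_mul, prod_congr rfl fun x _ => by rw [he x, one_pow], prod_const_one,
      one_mul]
  · intro h0
    rw [h0] at hd
    simp at hd
  · intro x h0
    have := he x
    rw [h0] at this
    simp at this

/-- the condition on the residues in the standard coordinates -/
def Oe {Q : ℕ} (e : Fin k ⊕ Fin m ≃ ι) (O : Set (Matrix (Fin k) ι (ZMod Q))) :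
    Set (Matrix (Fin k) (Fin k ⊕ Fin m) (ZMod Q)) := {R | R.submatrix id e.symm ∈ O}

/-- invariant conditions -/
def InvS (Q : ℕ) (O : Set (Matrix (Fin k) ι (ZMod Q))) : Prop :=
  ∀ (g : Matrix (Fin k) (Fin k) (ZMod Q)) (ε : ι → ℤ), IsUnit g.det → Sgn ε → ∀ R ∈ O,
    g * R * Matrix.diagonal (fun x => ((ε x : ℤ) : ZMod Q)) ∈ O

theorem Oe_inv {Q : ℕ} (e : Fin k ⊕ Fin m ≃ ι) {O : Set (Matrix (Fin k) ι (ZMod Q))}
    (hO : InvS Q O) : Inv Q (Oe e O) := by
  intro g hg R hR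
  have h1 := hO g (fun _ => 1) hg (fun _ => Or.inl rfl) _ hR
  have h2 : (Matrix.diagonal (fun x : ι => (((1 : ℤ) : ℤ) : ZMod Q))) = 1 := by
    rw [Int.cast_one]
    exact Matrix.diagonal_one
  rw [h2, Matrix.mul_one] at h1
  exact h1

/-- the matrices which we count -/
def ARI (θ : ι → ℕ) (Q : ℕ) (O : Set (Matrix (Fin k) ι (ZMod Q))) (M : Matrix (Fin k) ι ℤ) : Prop :=
  red Q M ∈ O ∧ Gnr M ∧ ∀ p, ¬ Uns θ p M

theorem ARI_mt {θ : ι → ℕ} {Q : ℕ} {O : Set (Matrix (Fin k) ι (ZMod Q))} (e : Fin k ⊕ Fin m ≃ ι) (P : Pt k m) :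
    ArG (θ ∘ e) Q (Oe e O) (MM (VN P.1) P.2) ↔ ARI θ Q O (mt e P) := by
  have h1 : Gnr (mt e P) ↔ Gnr (MM (VN P.1) P.2) := Gnr_re e.symm _
  have h0 : (θ ∘ e) ∘ e.symm = θ := by
    funext x
    simp
  have h2 : ∀ p, Uns θ p (mt e P) ↔ Uns (θ ∘ e) p (MM (VN P.1) P.2) := by
    intro p
    have h3 := Uns_re (θ ∘ e) e.symm p (MM (VN P.1) P.2)
    rw [h0] at h3
    exact h3
  unfold ArG ARI
  rw [h1]
  simp only [h2]
  rfl

theorem ARI_eqv {θ : ι → ℕ} {Q : ℕ} {O : Set (Matrix (Fin k) ι (ZMod Q))} (hO : InvS Q O)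
    {M M' : Matrix (Fin k) ι ℤ} (h : Eqv M M') (hM : ARI θ Q O M) : ARI θ Q O M' := by
  refine ⟨?_, h.gnr hM.2.1, fun p => h.uns (hM.2.2 p)⟩
  obtain ⟨g, ε, hg, hε, rfl⟩ := h
  have h1 : red Q (g * M * Matrix.diagonal ε) =
      red Q g * red Q M * Matrix.diagonal (fun x => ((ε x : ℤ) : ZMod Q)) := by
    rw [← red_mul]
    ext l x
    rw [Matrix.mul_diagonal]
    unfold red
    rw [Matrix.map_apply, Matrix.mul_diagonal, Matrix.map_apply]
    push_cast
    rfl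
  rw [h1]
  refine hO _ _ ?_ hε _ hM.1
  have h2 : (red Q g).det = ((g.det : ℤ) : ZMod Q) := ((Int.castRingHom (ZMod Q)).map_det g).symm
  rw [h2]
  have h3 : IsUnit g.det := Int.isUnit_iff_natAbs_eq.2 hg
  exact h3.map (Int.castRingHom (ZMod Q))

/-- bounds for the height in the window -/
theorem Ge_bounds (hk : 0 < k) (hι : Fintype.card ι = k + (m' + 1)) {G : Matrix (Fin k) ι ℝ → ℝ}
    {c₁ c₂ : ℝ} (hc₁ : 0 < c₁) (hc₂ : 0 < c₂)
    (hG1 : ∀ M : Matrix (Fin k) ι ℝ, Gen M → ∀ a : Mon k (id : ι → ι) fun _ => k,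
      c₁ * |mono M a| ≤ G M)
    (hG2 : ∀ M : Matrix (Fin k) ι ℝ, Gen M → ∃ a : Mon k (id : ι → ι) fun _ => k,
      G M ≤ c₂ * |mono M a|) (e : Fin k ⊕ Fin (m' + 1) ≃ ι) {i₀ : Fin k} {η : ℝ} (hη : 0 < η)
    {x : Cx k (m' + 1) → ℝ} (hx : x ∈ WE i₀ η) :
    c₁ * η ^ (k + (m' + 1)) ≤ Ge e G (XX x) ∧ Ge e G (XX x) ≤ c₂ * (η⁻¹) ^ (k + (m' + 1)) := by
  classical
  set M : Matrix (Fin k) ι ℝ := (XX x).submatrix id e.symm with hM
  have hmn : ∀ f, mnr M f = mnr (XX x) (e.symm ∘ f) := fun f => rfl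
  have hb : ∀ f : Fin k → ι, Function.Injective f → η ≤ |mnr M f| ∧ |mnr M f| ≤ η⁻¹ := by
    intro f hf
    rw [hmn]
    exact hx.2 _ (e.symm.injective.comp hf)
  have hgen : Gen M := by
    intro f hf h0
    have := (hb f hf).1
    rw [h0, abs_zero] at this
    linarith
  have hsum : ∀ a : Mon k (id : ι → ι) fun _ => k, ∑ f, a.1 f = k + (m' + 1) := by
    intro a
    rw [← hι]
    exact sum_mon hk (by rw [sum_const, card_univ, smul_eq_mul, mul_comm]) a
  constructor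
  · obtain ⟨a, ha⟩ := gen_mono (β := (id : ι → ι)) (d := fun _ => k) (N := Fintype.card ι) hk
      (by omega) (by rw [sum_const, card_univ, smul_eq_mul, mul_comm]) (fun b => by
        rw [filt_card, one_mul]
        omega) M hgen
    refine le_trans ?_ (hG1 M hgen a)
    refine mul_le_mul_of_nonneg_left ?_ hc₁.le
    unfold mono
    rw [abs_prod, ← hsum a, ← prod_pow_eq_pow_sum]
    refine prod_le_prod (fun f _ => by positivity) fun f _ => ?_
    rw [abs_pow]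
    by_cases hf : Function.Injective f
    · exact pow_le_pow_left₀ hη.le (hb f hf).1 _
    · have h0 : a.1 f = 0 := by
        by_contra h
        apply ha
        unfold mono
        refine prod_eq_zero (mem_univ f) ?_
        rw [mnr_zero M f hf, zero_pow h]
      rw [h0, pow_zero, pow_zero]
  · obtain ⟨a, ha⟩ := hG2 M hgen
    refine ha.trans (mul_le_mul_of_nonneg_left ?_ hc₂.le)
    unfold mono
    rw [abs_prod, ← hsum a, ← prod_pow_eq_pow_sum]
    refine prod_le_prod (fun f _ => abs_nonneg _) fun f _ => ?_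
    rw [abs_pow]
    refine pow_le_pow_left₀ (abs_nonneg _) ?_ _
    by_cases hf : Function.Injective f
    · exact (hb f hf).2
    · rw [mnr_zero M f hf, abs_zero]
      exact inv_nonneg.2 hη.le

/-- the first minor is strictly minimal -/
theorem min_strict {δ η : ℝ} (hδ : 0 < δ) (hη : 0 < η) (s : ℝ) (J : ℕ) (i₀ : Fin k) :
    ∀ᶠ L : ℝ in atTop, ∀ (e : Fin k ⊕ Fin (m' + 1) ≃ ι) (E : ℤ → Set (Cx k (m' + 1) → ℝ))
      (hE : ∀ j, E j ⊆ WE i₀ η) (A : Matrix (Fin k) (Fin k ⊕ Fin (m' + 1)) ℤ → Prop),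
      ∀ P ∈ GS δ s J E A L, ∀ f : Fin k → ι, Function.Injective f →
        Set.range f ≠ Set.range (e ∘ Sum.inl) →
          |mnr (mt e P) (e ∘ Sum.inl)| < |mnr (mt e P) f| := by
  filter_upwards [eventually_ge_atTop (max 1 (1 + (1 - Real.log η) / δ))] with L hL e E hE A P hP f hf
    hr
  have hL1 : 1 ≤ L := (le_max_left _ _).trans hL
  have hL2 : 1 + (1 - Real.log η) / δ ≤ L := (le_max_right _ _).trans hL
  obtain ⟨j, hj, w, hw, hPT⟩ := hP
  set x := xc (L + s - j) (fun x => (w x : ℝ)) P with hx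
  have hxE : x ∈ WE i₀ η := hE j hPT.1
  obtain ⟨π, hπ⟩ := exists_std (k := k) (m := m' + 1) (e.symm.injective.comp hf)
  have hD : (0 : ℝ) < P.1.idx := by exact_mod_cast P.1.idx_pos
  have h1 : |((mnr (mt e P) f : ℤ) : ℝ)| =
      |((mnr (MM (VN P.1) P.2) ((e.symm ∘ f) ∘ π) : ℤ) : ℝ)| := by
    rw [← Int.cast_abs, ← Int.cast_abs, abs_mnr_comp, mnr_mt']
  have h2 : |((mnr (mt e P) (e ∘ Sum.inl) : ℤ) : ℝ)| = P.1.idx := by
    rw [mnr_mt, mnr_inlP]
  have hex : ∃ l j', ((e.symm ∘ f) ∘ π) l = Sum.inr j' := by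
    by_contra hcon
    push Not at hcon
    apply hr
    have h3 : ∀ l, f (π l) = e (Sum.inl l) := by
      intro l
      rcases hπ.2 l with h | ⟨j', h⟩
      · rw [← h]
        simp
      · exact absurd h (hcon l j')
    ext y
    constructor
    · rintro ⟨l, rfl⟩
      exact ⟨π.symm l, by simp [← h3]⟩
    · rintro ⟨l, rfl⟩
      exact ⟨π l, h3 l⟩
  obtain ⟨l, j', hl⟩ := hex
  have hNN : (0 : ℝ) ≤ ⌊L⌋₊ := Nat.cast_nonneg _
  have hN2 : L - 1 < (⌊L⌋₊ : ℝ) := by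
    have := Nat.lt_floor_add_one L
    linarith
  have h3 : δ * ⌊L⌋₊ ≤ ∑ l, Sum.elim (fun _ => (0 : ℝ))
      (fun j => (w (Sum.inl l) : ℝ) + bet (fun x => (w x : ℝ)) j) (((e.symm ∘ f) ∘ π) l) := by
    refine le_trans ?_ (single_le_sum (f := fun l => Sum.elim (fun _ => (0 : ℝ))
      (fun j => (w (Sum.inl l) : ℝ) + bet (fun x => (w x : ℝ)) j) (((e.symm ∘ f) ∘ π) l))
      (fun l _ => ?_) (mem_univ l))
    · rw [hl, Sum.elim_inr]
      exact hw.1 l j'
    · rcases ((e.symm ∘ f) ∘ π) l with i | j₂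
      · exact le_rfl
      · rw [Sum.elim_inr]
        exact le_trans (by positivity) (hw.1 l j₂)
  have h4 := mnr_co (L + s - j) (fun x => (w x : ℝ)) P hπ
  rw [sc_exp] at h4
  have h5 : η ≤ |mnr (XX x) ((e.symm ∘ f) ∘ π)| := (hxE.2 _ hπ.1).1
  have h6 : (1 : ℝ) < Real.exp (δ * ⌊L⌋₊) * η := by
    have h7 : (1 - Real.log η) / δ ≤ L - 1 := by linarith
    rw [div_le_iff₀ hδ] at h7
    have h8 : δ * (L - 1) ≤ δ * ⌊L⌋₊ := mul_le_mul_of_nonneg_left hN2.le hδ.le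
    have h9 : (0 : ℝ) < δ * ⌊L⌋₊ + Real.log η := by linarith
    have h10 : Real.exp (δ * ⌊L⌋₊) * η = Real.exp (δ * ⌊L⌋₊ + Real.log η) := by
      rw [Real.exp_add, Real.exp_log hη]
    rw [h10]
    exact Real.one_lt_exp_iff.2 h9
  have h7 : (P.1.idx : ℝ) < |((mnr (mt e P) f : ℤ) : ℝ)| := by
    rw [h1, h4, mul_assoc]
    refine lt_mul_of_one_lt_right hD (lt_of_lt_of_le h6 ?_)
    exact mul_le_mul (Real.exp_le_exp.2 h3) h5 hη.le (Real.exp_pos _).le
  rw [← h2] at h7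
  rw [← Int.cast_abs, ← Int.cast_abs] at h7
  exact_mod_cast h7

end

end Run7.h3.PM
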