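import Pool.Agent.Run7.h3.PM.Good5

set_option autoImplicit false
set_option linter.unusedSectionVars false
set_option linter.unusedVariables false

/-! Well placed matrices are in the good cells. -/

namespace Run7.h3.PM

open Finset Module Filter Topology MeasureTheory Run7.h3.GT

section

variable {k m m' : ℕ} {ι : Type} [Fintype ι] [DecidableEq ι]

/-- integral exponents -/
theorem exists_exps (i₀ : Fin k) {c : Fin k → Fin (m' + 1) → ℝ}
    {u : Fin k → Fin (m' + 1) → ℝ} {lam : ℝ}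
    (h1 : ∀ i, |Real.log (c i 0) - u i 0| ≤ lam) (h2 : ∀ j, |Real.log (c i₀ j) - u i₀ j| ≤ lam)
    (hu : ∀ i j, u i j = u i 0 + u i₀ j - u i₀ 0) :
    ∃ w : Fin k ⊕ Fin m' → ℤ, (∀ i, (w (Sum.inl i) : ℝ) < Real.log (c i 0) ∧
        Real.log (c i 0) ≤ w (Sum.inl i) + 1) ∧
      (∀ j, (w (Sum.inl i₀) : ℝ) + bet (fun x => (w x : ℝ)) j < Real.log (c i₀ j) ∧
        Real.log (c i₀ j) ≤ w (Sum.inl i₀) + bet (fun x => (w x : ℝ)) j + 1) ∧
      ∀ i j, |(w (Sum.inl i) : ℝ) + bet (fun x => (w x : ℝ)) j - u i j| ≤ 3 * (lam + 1) := by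
  set w : Fin k ⊕ Fin m' → ℤ := Sum.elim (fun i => ⌈Real.log (c i 0)⌉ - 1)
    fun j => ⌈Real.log (c i₀ j.succ)⌉ - 1 - (⌈Real.log (c i₀ 0)⌉ - 1) with hw
  have key : ∀ x : ℝ, ((⌈x⌉ - 1 : ℤ) : ℝ) < x ∧ x ≤ ((⌈x⌉ - 1 : ℤ) : ℝ) + 1 := by
    intro x
    push_cast
    constructor
    · linarith [Int.ceil_lt_add_one x]
    · linarith [Int.le_ceil x]
  have e1 : ∀ i, (w (Sum.inl i) : ℝ) < Real.log (c i 0) ∧
      Real.log (c i 0) ≤ w (Sum.inl i) + 1 := fun i => key (Real.log (c i 0))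
  have e2 : ∀ j, (w (Sum.inl i₀) : ℝ) + bet (fun x => (w x : ℝ)) j =
      ((⌈Real.log (c i₀ j)⌉ - 1 : ℤ) : ℝ) := by
    intro j
    refine Fin.cases ?_ (fun j => ?_) j
    · rw [bet_zero, add_zero]
      rfl
    · rw [bet_succ]
      have h3 : ((w (Sum.inr j) : ℤ) : ℝ) = ((⌈Real.log (c i₀ j.succ)⌉ - 1 : ℤ) : ℝ) -
          ((w (Sum.inl i₀) : ℤ) : ℝ) := by
        have h4 : w (Sum.inr j) = (⌈Real.log (c i₀ j.succ)⌉ - 1) - w (Sum.inl i₀) := rfl
        rw [h4]
        push_cast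
        ring
      rw [h3]
      ring
  have e3 : ∀ j, (w (Sum.inl i₀) : ℝ) + bet (fun x => (w x : ℝ)) j < Real.log (c i₀ j) ∧
      Real.log (c i₀ j) ≤ w (Sum.inl i₀) + bet (fun x => (w x : ℝ)) j + 1 := by
    intro j
    rw [e2 j]
    exact key _
  refine ⟨w, e1, e3, fun i j => ?_⟩
  have f1 := e1 i
  have f2 := e3 j
  have f3 := e1 i₀
  have f4 := abs_le.1 (h1 i)
  have f5 := abs_le.1 (h2 j)
  have f6 := abs_le.1 (h1 i₀)
  rw [hu i j, abs_le]
  constructor
  · linarith [f1.2, f2.2, f3.1, f4.1, f5.1, f6.2]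
  · linarith [f1.1, f2.1, f3.2, f4.2, f5.2, f6.1]

/-- well placed matrices are in the good cells -/
theorem nice_good {θ : ι → ℕ} (hk : 0 < k) (hι : Fintype.card ι = k + (m' + 1)) {Q : ℕ}
    {O : Set (Matrix (Fin k) ι (ZMod Q))} (hO : InvS Q O) {G : Matrix (Fin k) ι ℝ → ℝ}
    (hG : Hom G) {c₁ c₂ : ℝ} (hc₁ : 0 < c₁) (hc₂ : 0 < c₂)
    (hG1 : ∀ M : Matrix (Fin k) ι ℝ, Gen M → ∀ a : Mon k (id : ι → ι) fun _ => k,
      c₁ * |mono M a| ≤ G M)
    (hG2 : ∀ M : Matrix (Fin k) ι ℝ, Gen M → ∃ a : Mon k (id : ι → ι) fun _ => k,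
      G M ≤ c₂ * |mono M a|) (i₀ : Fin k) {δ₁ η₁ : ℝ} (hη₁ : 0 < η₁) (hη₁1 : η₁ ≤ 1)
    {δ : ℝ} (hδ : 0 < δ) (hδδ : δ < δ₁) (hδ1 : δ < 1) {η : ℝ} (hη : 0 < η)
    (hηη : η ≤ η₁ * Real.exp (-(k * (3 * (1 - Real.log η₁))))) (s : ℝ) :
    ∃ C : ℝ, ∀ J : ℕ, C ≤ J → ∀ᶠ L : ℝ in atTop, ∀ (e : Fin k ⊕ Fin (m' + 1) ≃ ι)
      (M : Matrix (Fin k) ι ℤ), ARI θ Q O M → G (toR M) ≤ Real.exp L →
      Real.exp (L - J + C) < G (toR M) → ∀ y : ι → ℤ,
      (∀ f : Fin k → ι, |((mnr M f : ℤ) : ℝ)| ≤ Real.exp (∑ l, (y (f l) : ℝ))) →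
      (∀ x x', x ≠ x' → δ₁ * L ≤ |(y x : ℝ) - y x'|) →
      (∀ f : Fin k → ι, Function.Injective f → δ₁ * L ≤ ∑ l, (y (f l) : ℝ)) →
      (∀ f : Fin k → ι, Function.Injective f →
        η₁ * Real.exp (∑ l, (y (f l) : ℝ)) ≤ |((mnr M f : ℤ) : ℝ)|) →
      (∀ i j, y (e (Sum.inl i)) ≤ y (e (Sum.inr j))) →
      ∃ P ∈ GS δ s J (fun j => EE i₀ η (Ge e G) (Real.exp (j - s))) (ArG (θ ∘ e) Q (Oe e O)) L,
        cls M = cls (mt e P) := by
  classical
  set n : ℕ := k + (m' + 1) with hn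
  set lam : ℝ := -Real.log η₁ with hlam
  have hlam0 : 0 ≤ lam := by
    rw [hlam]
    linarith [Real.log_nonpos hη₁.le hη₁1]
  have hη₁e : η₁ = Real.exp (-lam) := by rw [hlam, neg_neg, Real.exp_log hη₁]
  have hηη' : η ≤ Real.exp (-lam - k * (3 * (lam + 1))) := by
    refine hηη.trans (le_of_eq ?_)
    rw [hη₁e, ← Real.exp_add, Real.log_exp]
    congr 1
    ring
  have hδ₁ : 0 < δ₁ := by linarith
  have hη1 : η ≤ 1 := by
    refine hηη'.trans ?_
    rw [Real.exp_le_one_iff]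
    have : (0 : ℝ) ≤ k * (3 * (lam + 1)) := by positivity
    linarith
  set g₁ : ℝ := Real.log (c₁ * η ^ n) with hg₁
  set g₂ : ℝ := Real.log (c₂ * (η⁻¹) ^ n) with hg₂
  have hg₁e : Real.exp g₁ = c₁ * η ^ n := Real.exp_log (by positivity)
  have hg₂e : Real.exp g₂ = c₂ * (η⁻¹) ^ n := Real.exp_log (by positivity)
  refine ⟨max (-s - g₁) (s + 1 + g₂), fun J hJ => ?_⟩
  have hJ1 : -s - g₁ ≤ J := (le_max_left _ _).trans hJ
  have hn1 : (1 : ℝ) ≤ n := by
    have : 1 ≤ n := by omega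
    exact_mod_cast this
  filter_upwards [eventually_ge_atTop (max 1 (max (3 * (lam + 1) / (δ₁ - δ))
    ((n * lam - g₁ + 1) / (δ₁ - δ))))] with L hL e M hM hGL hGL' y hy1 hy2 hy3 hy4 hy5
  have hL1 : 1 ≤ L := (le_max_left _ _).trans hL
  have hL2 : 3 * (lam + 1) / (δ₁ - δ) ≤ L :=
    ((le_max_left _ _).trans (le_max_right _ _)).trans hL
  have hL3 : (n * lam - g₁ + 1) / (δ₁ - δ) ≤ L :=
    ((le_max_right _ _).trans (le_max_right _ _)).trans hL
  rw [div_le_iff₀ (by linarith)] at hL2 hL3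
  have hNN : (0 : ℝ) ≤ ⌊L⌋₊ := Nat.cast_nonneg _
  have hN1 : (⌊L⌋₊ : ℝ) ≤ L := Nat.floor_le (by linarith)
  have hN2 : L - 1 < (⌊L⌋₊ : ℝ) := by
    have := Nat.lt_floor_add_one L
    linarith
  obtain ⟨P, hPst, hEq⟩ := exists_pst (m' := m') (i₀ := i₀) e hM.2.1
  have hPA : ARI θ Q O (mt e P) := ARI_eqv hO hEq hM
  have hPA' : ArG (θ ∘ e) Q (Oe e O) (MM (VN P.1) P.2) := (ARI_mt e P).2 hPA
  -- the data of the cell
  set a : Fin k → ℝ := fun i => (y (e (Sum.inl i)) : ℝ) with ha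
  set b : Fin (m' + 1) → ℝ := fun j => (y (e (Sum.inr j)) : ℝ) with hb
  have hab : ∀ i j, δ₁ * L ≤ b j - a i := by
    intro i j
    have h1 := hy2 (e (Sum.inr j)) (e (Sum.inl i)) fun h => Sum.inr_ne_inl (e.injective h)
    have h2 : a i ≤ b j := by
      have := hy5 i j
      simp only [ha, hb]
      exact_mod_cast this
    rwa [abs_of_nonneg (sub_nonneg.2 h2)] at h1
  have hel : ∀ x : Fin k ⊕ Fin (m' + 1), Sum.elim a b x = (y (e x) : ℝ) := by
    intro x
    rcases x with i | j <;> rfl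
  have hmE : ∀ f : Fin k → Fin k ⊕ Fin (m' + 1),
      |((mnr (MM (VN P.1) P.2) f : ℤ) : ℝ)| = |((mnr M (e ∘ f) : ℤ) : ℝ)| := by
    intro f
    rw [← mnr_mt e P, ← Int.cast_abs, hEq.mnr, Int.cast_abs]
  have hup : ∀ f : Fin k → Fin k ⊕ Fin (m' + 1),
      |((mnr (MM (VN P.1) P.2) f : ℤ) : ℝ)| ≤ Real.exp (∑ l, Sum.elim a b (f l)) := by
    intro f
    rw [hmE]
    refine (hy1 (e ∘ f)).trans (le_of_eq ?_)
    congr 1
    exact sum_congr rfl fun l _ => (hel (f l)).symm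
  have hlo : ∀ f : Fin k → Fin k ⊕ Fin (m' + 1), Function.Injective f →
      Real.exp (-lam + ∑ l, Sum.elim a b (f l)) ≤ |((mnr (MM (VN P.1) P.2) f : ℤ) : ℝ)| := by
    intro f hf
    rw [hmE, Real.exp_add, ← hη₁e]
    refine le_trans (le_of_eq ?_) (hy4 (e ∘ f) (e.injective.comp hf))
    congr 2
    exact sum_congr rfl fun l _ => hel (f l)
  set A₀ : ℝ := ∑ i, a i with hA₀
  have hD0 : (0 : ℝ) < P.1.idx := by exact_mod_cast P.1.idx_pos
  have hD1 : (P.1.idx : ℝ) ≤ Real.exp A₀ := by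
    have := hup Sum.inl
    rw [mnr_inlP] at this
    exact this
  have hD2 : Real.exp (-lam + A₀) ≤ P.1.idx := by
    have := hlo Sum.inl Sum.inl_injective
    rw [mnr_inlP] at this
    exact this
  have hDl1 : Real.log P.1.idx ≤ A₀ := by
    rw [← Real.exp_le_exp, Real.exp_log hD0]
    exact hD1
  have hDl2 : -lam + A₀ ≤ Real.log P.1.idx := by
    rw [← Real.exp_le_exp, Real.exp_log hD0]
    exact hD2
  -- the coordinates
  have hcl : ∀ i j, 0 < co P (some (i, j)) →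
      |Real.log (co P (some (i, j))) - (b j - a i)| ≤ lam := by
    intro i j hpos
    have h1 := hup (Function.update Sum.inl i (Sum.inr j))
    have h2 := hlo _ (upd_inj i j)
    rw [mnr_upd, sum_upd, abs_of_pos hpos] at h1 h2
    have h3 : (P.1.idx : ℝ) * co P (some (i, j)) =
        Real.exp (Real.log P.1.idx + Real.log (co P (some (i, j)))) := by
      rw [Real.exp_add, Real.exp_log hD0, Real.exp_log hpos]
    rw [h3, Real.exp_le_exp] at h1 h2
    rw [abs_le]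
    constructor
    · linarith
    · linarith
  obtain ⟨w, hw1, hw2, hw3⟩ := exists_exps i₀ (c := fun i j => co P (some (i, j)))
    (u := fun i j => b j - a i) (lam := lam) (fun i => hcl i 0 (hPst.1 i))
    (fun j => hcl i₀ j (hPst.2 j)) (fun i j => by ring)
  set W : Fin k ⊕ Fin m' → ℝ := fun x => (w x : ℝ) with hW
  set T : ℝ := L + s - Wt W - Real.log (co P none) with hT
  have hco : co P none = (P.1.idx : ℝ) ^ n := rfl
  have hco0 : 0 < co P none := by
    rw [hco]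
    positivity
  set j : ℤ := ⌊T⌋ + 1 with hj
  have hj1 : T < j := by
    rw [hj]
    push_cast
    exact Int.lt_floor_add_one T
  have hj2 : (j : ℝ) ≤ T + 1 := by
    rw [hj]
    push_cast
    linarith [Int.floor_le T]
  set x := xc (L + s - j) W P with hx
  have hxn : x none = Real.exp (Real.log (co P none) - (L + s - j - Wt W)) := by
    rw [Real.exp_sub, Real.exp_log hco0]
    rfl
  have hxs : ∀ i j', 0 < co P (some (i, j')) → x (some (i, j')) =
      Real.exp (Real.log (co P (some (i, j'))) - (W (Sum.inl i) + bet W j')) := by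
    intro i j' hpos
    rw [Real.exp_sub, Real.exp_log hpos]
    rfl
  have hwin : Win i₀ x := by
    refine ⟨?_, fun i => ?_, fun j' => ?_⟩
    · rw [hxn]
      constructor
      · rw [Real.one_lt_exp_iff]
        linarith
      · rw [Real.exp_le_exp]
        linarith
    · rw [hxs i 0 (hPst.1 i), bet_zero, add_zero]
      constructor
      · rw [Real.one_lt_exp_iff]
        linarith [(hw1 i).1]
      · rw [Real.exp_le_exp]
        linarith [(hw1 i).2]
    · rw [hxs i₀ j' (hPst.2 j')]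
      constructor
      · rw [Real.one_lt_exp_iff]
        linarith [(hw2 j').1]
      · rw [Real.exp_le_exp]
        linarith [(hw2 j').2]
  -- the minors
  have hminS : ∀ f : Fin k → Fin k ⊕ Fin (m' + 1), Std f →
      η ≤ |mnr (XX x) f| ∧ |mnr (XX x) f| ≤ η⁻¹ := by
    intro f hf
    have h1 := mnr_co (L + s - j) W P hf
    rw [sc_exp] at h1
    have h2 := hup f
    have h3 := hlo f hf.1
    rw [sum_std a b hf] at h2 h3
    set S₁ := ∑ l, Sum.elim (fun _ => (0 : ℝ)) (fun j => b j - a l) (f l) with hS₁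
    set S₂ := ∑ l, Sum.elim (fun _ => (0 : ℝ)) (fun j => W (Sum.inl l) + bet W j) (f l) with hS₂
    have h4 : |S₂ - S₁| ≤ k * (3 * (lam + 1)) := by
      rw [hS₁, hS₂, ← sum_sub_distrib]
      refine (abs_sum_le_sum_abs _ _).trans ?_
      have h5 : ∀ l ∈ (univ : Finset (Fin k)), |Sum.elim (fun _ => (0 : ℝ))
          (fun j => W (Sum.inl l) + bet W j) (f l) - Sum.elim (fun _ => (0 : ℝ))
            (fun j => b j - a l) (f l)| ≤ 3 * (lam + 1) := by
        intro l _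
        rcases f l with i | j'
        · rw [Sum.elim_inl, Sum.elim_inl, sub_self, abs_zero]
          positivity
        · rw [Sum.elim_inr, Sum.elim_inr]
          exact hw3 l j'
      refine (sum_le_sum h5).trans ?_
      rw [sum_const, card_univ, Fintype.card_fin, nsmul_eq_mul]
    have h5 := abs_le.1 h4
    rw [h1] at h2 h3
    have h6 : Real.exp (-lam + A₀ + S₂) ≤ (P.1.idx : ℝ) * Real.exp S₂ := by
      rw [Real.exp_add]
      exact mul_le_mul_of_nonneg_right hD2 (Real.exp_pos _).le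
    have h7 : (P.1.idx : ℝ) * Real.exp S₂ ≤ Real.exp (A₀ + S₂) := by
      rw [Real.exp_add]
      exact mul_le_mul_of_nonneg_right hD1 (Real.exp_pos _).le
    constructor
    · have h8 : Real.exp (-lam + (A₀ + S₁)) ≤ Real.exp (A₀ + S₂) * |mnr (XX x) f| :=
        h3.trans (mul_le_mul_of_nonneg_right h7 (abs_nonneg _))
      have h9 : Real.exp (-lam + (A₀ + S₁) - (A₀ + S₂)) ≤ |mnr (XX x) f| := by
        rw [Real.exp_sub, div_le_iff₀ (Real.exp_pos _)]
        linarith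
      refine le_trans (hηη'.trans (Real.exp_le_exp.2 ?_)) h9
      linarith [h5.2]
    · have h8 : Real.exp (-lam + A₀ + S₂) * |mnr (XX x) f| ≤ Real.exp (A₀ + S₁) :=
        (mul_le_mul_of_nonneg_right h6 (abs_nonneg _)).trans h2
      have h9 : |mnr (XX x) f| ≤ Real.exp (A₀ + S₁ - (-lam + A₀ + S₂)) := by
        rw [Real.exp_sub, le_div_iff₀ (Real.exp_pos _)]
        linarith
      refine h9.trans ?_
      have h10 : Real.exp (lam + k * (3 * (lam + 1))) ≤ η⁻¹ := by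
        rw [le_inv_comm₀ (Real.exp_pos _) hη, ← Real.exp_neg]
        refine hηη'.trans (Real.exp_le_exp.2 ?_)
        linarith
      refine le_trans (Real.exp_le_exp.2 ?_) h10
      linarith [h5.1]
  have hxW : x ∈ WE i₀ η := by
    refine ⟨hwin, fun f hf => ?_⟩
    obtain ⟨π, hπ⟩ := exists_std hf
    have h1 := hminS _ hπ
    rw [abs_mnr_compR] at h1
    exact h1
  -- the height
  obtain ⟨hGe1, hGe2⟩ := Ge_bounds hk hι hc₁ hc₂ hG1 hG2 e hη hxW
  rw [← hn] at hGe1 hGe2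
  have hGv : G (toR M) = Real.exp (L + s - j) * (x none * Ge e G (XX x)) := by
    rw [← hG.eqv hEq, ← Ge_toR e G P]
    exact G_co (Ge_hom e hG) (L + s - j) W P
  have hxn1 : 1 < x none := hwin.1.1
  have hxn2 : x none ≤ Real.exp 1 := hwin.1.2
  have hlow : Real.exp (L + s - j + (Real.log (co P none) - (L + s - j - Wt W)) + g₁) ≤
      G (toR M) := by
    rw [hGv, Real.exp_add, Real.exp_add, ← hxn, hg₁e, mul_assoc]
    refine mul_le_mul_of_nonneg_left ?_ (Real.exp_pos _).le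
    exact mul_le_mul_of_nonneg_left hGe1 (by linarith)
  have hA₀L : δ₁ * L ≤ A₀ := by
    have h1 := hy3 (e ∘ Sum.inl) (e.injective.comp Sum.inl_injective)
    exact h1
  have hlogco : Real.log (co P none) = n * Real.log P.1.idx := by
    rw [hco, Real.log_pow]
  have hWt : Wt W ≤ (1 - δ) * ⌊L⌋₊ := by
    have h1 := Real.exp_le_exp.1 (hlow.trans hGL)
    have h2 : (n : ℝ) * (-lam + δ₁ * L) ≤ n * Real.log P.1.idx :=
      mul_le_mul_of_nonneg_left (by linarith) (by linarith)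
    have h3 : (n : ℝ) * (δ₁ * L) ≥ 1 * (δ₁ * L) :=
      mul_le_mul_of_nonneg_right hn1 (by positivity)
    have h4 : (1 - δ) * (L - 1) ≤ (1 - δ) * ⌊L⌋₊ :=
      mul_le_mul_of_nonneg_left hN2.le (by linarith)
    nlinarith
  have hLam : Lam k m' δ ⌊L⌋₊ w := by
    refine ⟨fun i j' => ?_, hWt⟩
    have h1 := (abs_le.1 (hw3 i j')).1
    have h2 := hab i j'
    have h3 : δ * (⌊L⌋₊ : ℝ) ≤ δ * L := mul_le_mul_of_nonneg_left hN1 hδ.le
    nlinarith
  refine ⟨P, ⟨j, ⟨?_, ?_⟩, w, hLam, ⟨⟨hxW, ?_⟩, hPA'⟩⟩, hEq.cls.symm⟩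
  · -- lower bound for j
    have h1 : Real.exp (L + s - j + g₁) ≤ Real.exp L := by
      refine le_trans ?_ hGL
      rw [hGv, Real.exp_add, hg₁e]
      refine mul_le_mul_of_nonneg_left ?_ (Real.exp_pos _).le
      calc c₁ * η ^ n ≤ Ge e G (XX x) := hGe1
        _ = 1 * Ge e G (XX x) := (one_mul _).symm
        _ ≤ x none * Ge e G (XX x) := mul_le_mul_of_nonneg_right hxn1.le
            (le_trans (by positivity) hGe1)
    have h2 := Real.exp_le_exp.1 h1
    have h3 : -(J : ℝ) ≤ j := by linarith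
    exact_mod_cast h3
  · -- upper bound for j
    have h1 : G (toR M) ≤ Real.exp (L + s - j + 1 + g₂) := by
      rw [hGv, Real.exp_add, Real.exp_add, hg₂e, mul_assoc]
      refine mul_le_mul_of_nonneg_left ?_ (Real.exp_pos _).le
      exact mul_le_mul hxn2 hGe2 (le_trans (by positivity) hGe1) (Real.exp_pos _).le
    have h2 := Real.exp_lt_exp.1 (hGL'.trans_le h1)
    have h3 := le_max_right (-s - g₁) (s + 1 + g₂)
    have h4 : (j : ℝ) < J := by linarith
    have h5 : j < J := by exact_mod_cast h4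
    exact h5.le
  · have h1 : Real.exp (L + s - j) * (x none * Ge e G (XX x)) ≤ Real.exp L := by
      rw [← hGv]
      exact hGL
    have h2 : Real.exp L = Real.exp (L + s - j) * Real.exp (j - s) := by
      rw [← Real.exp_add]
      congr 1
      ring
    rw [h2] at h1
    exact le_of_mul_le_mul_left h1 (Real.exp_pos _)

end

end Run7.h3.PM
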