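import Pool.Agent.Run7.h3.PM.Good6

set_option autoImplicit false
set_option linter.unusedSectionVars false
set_option linter.unusedVariables false

/-! Positivity of the volumes, choice of the parameters. -/

namespace Run7.h3.PM

open Finset Module Filter Topology MeasureTheory Run7.h3.GT

section

variable {k m m' : ℕ}

/-- a generic point -/
theorem exists_UU : (UU k m).Nonempty := by
  obtain ⟨M₀, hM₀⟩ := exists_gnr k (ι := Fin k ⊕ Fin m)
  set V : Matrix (Fin k) (Fin k) ℤ := M₀.submatrix id Sum.inl with hV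
  have hV0 : V.det ≠ 0 := hM₀ Sum.inl Sum.inl_injective
  set x : Cx k m → ℝ := fun ν => match ν with
    | none => 0
    | some (i, j) => cf V (fun l => M₀ l (Sum.inr j)) i with hx
  refine ⟨x, fun f hf h0 => ?_⟩
  have h1 : M₀.map (Int.cast : ℤ → ℝ) = V.map (Int.cast : ℤ → ℝ) * XX x := by
    ext l y
    unfold XX
    rw [mul_MM]
    rcases y with i | j
    · rw [MM_inl, Matrix.mul_one]
      rfl
    · rw [MM_inr]
      change ((M₀ l (Sum.inr j) : ℤ) : ℝ) = _
      exact mul_cf hV0 (fun l => M₀ l (Sum.inr j)) l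
  have h2 : mnr (M₀.map (Int.cast : ℤ → ℝ)) f = ((mnr M₀ f : ℤ) : ℝ) :=
    (mnr_map (Int.castRingHom ℝ) M₀ f).symm
  rw [h1, mnr_mul, h0, mul_zero] at h2
  exact hM₀ f hf (by exact_mod_cast h2.symm)

/-- generic points are dense -/
theorem exists_UU_near {U : Set (Cx k m → ℝ)} (hU : IsOpen U) {x₁ : Cx k m → ℝ} (hx₁ : x₁ ∈ U) :
    ∃ x ∈ U, x ∈ UU k m := by
  classical
  obtain ⟨x₀, hx₀⟩ := exists_UU (k := k) (m := m)
  set γ : ℝ → Cx k m → ℝ := fun t ν => x₁ ν + t * (x₀ ν - x₁ ν) with hγ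
  have hγc : Continuous γ := continuous_pi fun ν => by fun_prop
  have hγ0 : γ 0 = x₁ := by
    funext ν
    simp [hγ]
  have hγ1 : γ 1 = x₀ := by
    funext ν
    simp [hγ]
  -- the minors are polynomials
  set Pm : Matrix (Fin k) (Fin k ⊕ Fin m) (Polynomial ℝ) := MM 1 fun j i =>
    Polynomial.C (x₁ (some (i, j))) + Polynomial.X *
      Polynomial.C (x₀ (some (i, j)) - x₁ (some (i, j))) with hPm
  have hev : ∀ (t : ℝ) (f : Fin k → Fin k ⊕ Fin m),
      Polynomial.eval t (mnr Pm f) = mnr (XX (γ t)) f := by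
    intro t f
    have h1 := mnr_map (Polynomial.evalRingHom t) Pm f
    rw [Polynomial.coe_evalRingHom] at h1
    rw [h1]
    congr 1
    ext l y
    rw [Matrix.map_apply]
    unfold XX
    rcases y with i | j
    · rw [hPm, MM_inl, MM_inl]
      by_cases h : l = i
      · subst h
        simp
      · simp [Matrix.one_apply_ne h]
    · rw [hPm, MM_inr, MM_inr]
      simp [hγ]
  set p : Polynomial ℝ := ∏ f ∈ univ.filter (fun f : Fin k → Fin k ⊕ Fin m => Function.Injective f),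
    mnr Pm f with hp
  have hp0 : p ≠ 0 := by
    intro h0
    have h1 : Polynomial.eval 1 p = 0 := by rw [h0, Polynomial.eval_zero]
    rw [hp, Polynomial.eval_prod, prod_eq_zero_iff] at h1
    obtain ⟨f, hf, h2⟩ := h1
    rw [hev, hγ1] at h2
    exact hx₀ f (mem_filter.1 hf).2 h2
  have hfin : {t : ℝ | p.IsRoot t}.Finite := Polynomial.finite_setOfPred_isRoot hp0
  have hev2 : ∀ᶠ t in 𝓝 (0 : ℝ), γ t ∈ U := by
    refine hγc.continuousAt.eventually_mem ?_
    rw [hγ0]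
    exact hU.mem_nhds hx₁
  obtain ⟨r, hr, hr2⟩ := Metric.eventually_nhds_iff.1 hev2
  obtain ⟨t, ht, htp⟩ := ((Set.Ioo_infinite hr).sdiff hfin).nonempty
  refine ⟨γ t, hr2 ?_, fun f hf h0 => ?_⟩
  · rw [Real.dist_eq, sub_zero, abs_of_pos ht.1]
    exact ht.2
  · apply htp
    change Polynomial.eval t p = 0
    rw [hp, Polynomial.eval_prod, prod_eq_zero_iff]
    exact ⟨f, mem_filter.2 ⟨mem_univ _, hf⟩, by rw [hev]; exact h0⟩

/-- the volumes are positive -/
theorem EE_pos (i₀ : Fin k) {G : Matrix (Fin k) (Fin k ⊕ Fin (m' + 1)) ℝ → ℝ}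
    (hG : ContinuousOn (fun x : Cx k (m' + 1) → ℝ => G (XX x)) (UU k (m' + 1))) :
    ∃ η₀ : ℝ, 0 < η₀ ∧ ∃ u₀ : ℝ, ∀ η : ℝ, 0 < η → η ≤ η₀ → ∀ u : ℝ, u₀ ≤ u →
      0 < (volume (EE i₀ η G u)).toReal := by
  classical
  set W : Set (Cx k (m' + 1) → ℝ) := Set.pi Set.univ fun _ => Set.Ioo 1 (Real.exp 1) with hW
  have hWo : IsOpen W := isOpen_set_pi Set.finite_univ fun _ _ => isOpen_Ioo
  have he : (1 : ℝ) < Real.exp 1 := Real.one_lt_exp_iff.2 one_pos
  obtain ⟨x, hxW, hxU⟩ := exists_UU_near hWo (x₁ := fun _ => (1 + Real.exp 1) / 2)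
    (fun ν _ => ⟨by linarith, by linarith⟩)
  -- a lower bound for the minors
  obtain ⟨η₀, hη₀, hη₀1⟩ : ∃ η₀ : ℝ, 0 < η₀ ∧ ∀ f : Fin k → Fin k ⊕ Fin (m' + 1),
      Function.Injective f → η₀ < |mnr (XX x) f| ∧ |mnr (XX x) f| < η₀⁻¹ := by
    have h1 : ∀ f : Fin k → Fin k ⊕ Fin (m' + 1), ∃ c : ℝ, 0 < c ∧ (Function.Injective f →
        ∀ c', 0 < c' → c' ≤ c → c' < |mnr (XX x) f| ∧ |mnr (XX x) f| < c'⁻¹) := by
      intro f
      by_cases hf : Function.Injective f
      · have h2 : 0 < |mnr (XX x) f| := abs_pos.2 (hxU f hf)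
        refine ⟨min (|mnr (XX x) f| / 2) (1 / (2 * |mnr (XX x) f|)), by positivity,
          fun _ c' hc' hc'' => ⟨?_, ?_⟩⟩
        · have h3 := hc''.trans (min_le_left _ _)
          linarith
        · have h3 := hc''.trans (min_le_right _ _)
          rw [lt_inv_comm₀ h2 hc']
          refine lt_of_le_of_lt h3 ?_
          rw [one_div, mul_inv]
          have h4 : 0 < |mnr (XX x) f|⁻¹ := inv_pos.2 h2
          linarith
      · exact ⟨1, one_pos, fun h => absurd h hf⟩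
    choose c hc1 hc2 using h1
    have hs0 : ∀ f ∈ (univ : Finset (Fin k → Fin k ⊕ Fin (m' + 1))), 0 ≤ (c f)⁻¹ := fun f _ =>
      (inv_pos.2 (hc1 f)).le
    have hs : 0 ≤ ∑ f, (c f)⁻¹ := sum_nonneg hs0
    refine ⟨(1 + ∑ f, (c f)⁻¹)⁻¹, by positivity, fun f hf => ?_⟩
    refine hc2 f hf _ (by positivity) ?_
    rw [inv_le_comm₀ (by positivity) (hc1 f)]
    have h2 := single_le_sum hs0 (mem_univ f)
    linarith
  refine ⟨η₀, hη₀, |x none * G (XX x)| + 1, fun η hη hηη u hu => ?_⟩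
  have hgc : ContinuousAt (fun y : Cx k (m' + 1) → ℝ => y none * G (XX y)) x :=
    (continuous_apply none).continuousAt.mul (hG.continuousAt (UU_open.mem_nhds hxU))
  have hgu : x none * G (XX x) < u := by
    have := le_abs_self (x none * G (XX x))
    linarith
  have hnear : EE i₀ η G u ∈ 𝓝 x := by
    have h1 : ∀ᶠ y in 𝓝 x, y ∈ W := hWo.mem_nhds hxW
    have h2 : ∀ᶠ y in 𝓝 x, ∀ f : Fin k → Fin k ⊕ Fin (m' + 1), Function.Injective f →
        η ≤ |mnr (XX y) f| ∧ |mnr (XX y) f| ≤ η⁻¹ := by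
      rw [eventually_all]
      intro f
      by_cases hf : Function.Injective f
      · have hc : ContinuousAt (fun y : Cx k (m' + 1) → ℝ => |mnr (XX y) f|) x :=
          ((continuous_mnrR f).comp continuous_XX).abs.continuousAt
        have h3 := hη₀1 f hf
        have h4 : η₀⁻¹ ≤ η⁻¹ := inv_anti₀ hη hηη
        filter_upwards [hc.eventually (eventually_gt_nhds (lt_of_le_of_lt hηη h3.1)),
          hc.eventually (eventually_lt_nhds (lt_of_lt_of_le h3.2 h4))] with y h5 h6 _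
        exact ⟨h5.le, h6.le⟩
      · exact Eventually.of_forall fun y h => absurd h hf
    filter_upwards [h1, h2, hgc.eventually (eventually_lt_nhds hgu)] with y h3 h4 h5
    have h6 : ∀ ν, 1 < y ν ∧ y ν ≤ Real.exp 1 := fun ν =>
      ⟨(h3 ν (Set.mem_univ ν)).1, (h3 ν (Set.mem_univ ν)).2.le⟩
    exact ⟨⟨⟨h6 _, fun i => h6 _, fun j => h6 _⟩, h4⟩, h5.le⟩
  have h1 : 0 < volume (EE i₀ η G u) := by
    refine lt_of_lt_of_le ?_ (measure_mono interior_subset)
    exact isOpen_interior.measure_pos _ ⟨x, mem_interior_iff_mem_nhds.2 hnear⟩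
  have h2 : volume (EE i₀ η G u) ≠ ⊤ :=
    ((WE_bdd i₀ η).subset fun y hy => hy.1).measure_lt_top.ne
  exact ENNReal.toReal_pos h1.ne' h2

/-- real numbers outside of a countable set -/
theorem exists_off {S : Set ℝ} (hS : S.Countable) {a b : ℝ} (hab : a < b) :
    ∃ x, a < x ∧ x < b ∧ x ∉ S := by
  by_contra hcon
  push Not at hcon
  have h1 : Set.Ioo a b ⊆ S := fun x hx => hcon x hx.1 hx.2
  have h2 : volume (Set.Ioo a b) = 0 := (hS.mono h1).measure_zero _
  rw [Real.volume_Ioo, ENNReal.ofReal_eq_zero] at h2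
  linarith

/-- a good anchor -/
theorem exists_anchor {α : Type} [Fintype α] {S : α → Set ℝ} (hS : ∀ a, (S a).Countable) :
    ∃ s : ℝ, ∀ (a : α) (j : ℤ), Real.exp (j - s) ∉ S a := by
  have h1 : (⋃ a : α, ⋃ j : ℤ, (fun s : ℝ => Real.exp (j - s)) ⁻¹' S a).Countable := by
    refine Set.countable_iUnion fun a => Set.countable_iUnion fun j => ?_
    refine (hS a).preimage_of_injOn ?_
    intro s _ s' _ h
    have h2 := Real.exp_injective h
    linarith
  obtain ⟨s, -, -, hs⟩ := exists_off h1 (show (0 : ℝ) < 1 by norm_num)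
  refine ⟨s, fun a j h => hs ?_⟩
  rw [Set.mem_iUnion₂]
  exact ⟨a, j, h⟩

end

end Run7.h3.PM
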