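import Mathlib

set_option autoImplicit false
set_option linter.unusedSectionVars false
set_option linter.unusedVariables false

/-! Equidistribution in boxes implies equidistribution in sets with null boundary. -/

namespace Run7.h3.PM

open Finset MeasureTheory Filter Topology

section

variable {ι : Type} [Fintype ι] [DecidableEq ι]

/-- half open boxes -/
def Ib (a b : ι → ℝ) : Set (ι → ℝ) := {x | ∀ i, x i ∈ Set.Ioc (a i) (b i)}

theorem Ib_eq (a b : ι → ℝ) : Ib a b = Set.pi Set.univ fun i => Set.Ioc (a i) (b i) := by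
  ext x
  simp [Ib]

theorem Ib_meas (a b : ι → ℝ) : MeasurableSet (Ib a b) := by
  rw [Ib_eq]
  exact MeasurableSet.univ_pi fun i => measurableSet_Ioc

theorem Ib_vol {a b : ι → ℝ} (h : ∀ i, a i ≤ b i) :
    (volume (Ib a b)).toReal = ∏ i, (b i - a i) := by
  rw [Ib_eq, Real.volume_pi_Ioc_toReal h]

theorem Ib_vol_ne_top (a b : ι → ℝ) : volume (Ib a b) ≠ ⊤ := by
  rw [Ib_eq, Real.volume_pi_Ioc]
  exact ENNReal.prod_ne_top fun i _ => ENNReal.ofReal_ne_top

/-- the grid -/
def Gb (h : ℝ) (a : ι → ℤ) : Set (ι → ℝ) := Ib (fun i => h * a i) fun i => h * (a i + 1)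

theorem mem_Gb {h : ℝ} (hh : 0 < h) {x : ι → ℝ} {a : ι → ℤ} :
    x ∈ Gb h a ↔ a = fun i => ⌈x i / h⌉ - 1 := by
  unfold Gb Ib
  constructor
  · intro hx
    funext i
    have h1 := hx i
    have h2 : ⌈x i / h⌉ = a i + 1 := by
      rw [Int.ceil_eq_iff]
      push_cast
      rw [lt_div_iff₀ hh, div_le_iff₀ hh]
      constructor
      · linarith [h1.1]
      · linarith [h1.2]
    omega
  · rintro rfl i
    have h1 := Int.ceil_lt_add_one (x i / h)
    have h2 := Int.le_ceil (x i / h)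
    rw [div_le_iff₀ hh] at h2
    have h3 : ((⌈x i / h⌉ : ℝ) - 1) * h < x i := by
      rw [← lt_div_iff₀ hh]
      linarith
    rw [Set.mem_Ioc]
    push_cast
    constructor
    · linarith
    · linarith

theorem Gb_vol {h : ℝ} (hh : 0 < h) (a : ι → ℤ) :
    (volume (Gb h a)).toReal = h ^ Fintype.card ι := by
  unfold Gb
  rw [Ib_vol (fun i => by nlinarith)]
  rw [prod_congr rfl (g := fun _ => h) fun i _ => by ring, prod_const, card_univ]

/-- covering of a compact set by boxes -/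
theorem exists_cover {K U : Set (ι → ℝ)} (hK : IsCompact K) (hU : IsOpen U) (hKU : K ⊆ U) :
    ∃ (h : ℝ) (A : Finset (ι → ℤ)), 0 < h ∧ K ⊆ ⋃ a ∈ A, Gb h a ∧
      (∀ a ∈ A, (Gb h a ∩ K).Nonempty) ∧ (⋃ a ∈ A, Gb h a) ⊆ U := by
  obtain ⟨δ, hδ, hδU⟩ := hK.exists_thickening_subset_open hU hKU
  set h : ℝ := δ / 2 with hh
  have hh0 : 0 < h := by positivity
  obtain ⟨R, hR⟩ := hK.isBounded.exists_norm_le
  set cl : (ι → ℝ) → (ι → ℤ) := fun x i => ⌈x i / h⌉ - 1 with hcl
  have hfin : (cl '' K).Finite := by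
    refine Set.Finite.subset (Set.Finite.pi' (t := fun _ : ι =>
      Set.Icc (⌈-R / h⌉ - 1) (⌈R / h⌉ - 1)) fun i => Set.finite_Icc _ _) ?_
    rintro _ ⟨x, hx, rfl⟩ i
    have h1 := (norm_le_pi_norm x i).trans (hR x hx)
    rw [Real.norm_eq_abs, abs_le] at h1
    have h2 : ⌈-R / h⌉ ≤ ⌈x i / h⌉ := Int.ceil_le_ceil (by gcongr; exact h1.1)
    have h3 : ⌈x i / h⌉ ≤ ⌈R / h⌉ := Int.ceil_le_ceil (by gcongr; exact h1.2)
    rw [Set.mem_Icc]
    constructor <;> simp only [hcl] <;> omega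
  refine ⟨h, hfin.toFinset, hh0, ?_, ?_, ?_⟩
  · intro x hx
    rw [Set.mem_iUnion₂]
    exact ⟨cl x, by rw [Set.Finite.mem_toFinset]; exact ⟨x, hx, rfl⟩, (mem_Gb hh0).2 rfl⟩
  · intro a ha
    rw [Set.Finite.mem_toFinset] at ha
    obtain ⟨x, hx, rfl⟩ := ha
    exact ⟨x, (mem_Gb hh0).2 rfl, hx⟩
  · intro y hy
    rw [Set.mem_iUnion₂] at hy
    obtain ⟨a, ha, hya⟩ := hy
    rw [Set.Finite.mem_toFinset] at ha
    obtain ⟨x, hx, rfl⟩ := ha
    apply hδU
    rw [Metric.mem_thickening_iff]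
    refine ⟨x, hx, ?_⟩
    rw [dist_pi_lt_iff hδ]
    intro i
    have h1 : x ∈ Gb h (cl x) := (mem_Gb hh0).2 rfl
    have h2 := h1 i
    have h3 := hya i
    rw [Real.dist_eq, abs_lt]
    constructor <;> linarith [h2.1, h2.2, h3.1, h3.2]

theorem sum_vol_Gb {h : ℝ} (hh : 0 < h) (A : Finset (ι → ℤ)) :
    ∑ a ∈ A, (volume (Gb h a)).toReal = (volume (⋃ a ∈ A, Gb h a)).toReal := by
  rw [measure_biUnion_finset]
  · exact (ENNReal.toReal_sum fun a _ => Ib_vol_ne_top (fun i => h * (a i : ℝ)) _).symm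
  · intro a _ b _ hab
    rw [Function.onFun, Set.disjoint_left]
    intro x hxa hxb
    exact hab (((mem_Gb hh).1 hxa).trans ((mem_Gb hh).1 hxb).symm)
  · intro a _
    exact Ib_meas _ _

/-- the upper bound for compact sets -/
theorem jor_compact {Ω : Type} {F : Filter Ω} (ν : Ω → Set (ι → ℝ) → ℝ) (κ : ℝ) (hκ : 0 ≤ κ)
    (i₀ : ι)
    (hmono : ∀ᶠ σ in F, ∀ S S' : Set (ι → ℝ), Bornology.IsBounded S' → S ⊆ S' → ν σ S ≤ ν σ S')
    (hsub : ∀ᶠ σ in F, ∀ (h : ℝ) (A : Finset (ι → ℤ)),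
      ν σ (⋃ a ∈ A, Gb h a) ≤ ∑ a ∈ A, ν σ (Gb h a))
    (hbox : ∀ a b : ι → ℝ, 0 ≤ a i₀ → (∀ i, a i ≤ b i) →
      Tendsto (fun σ => ν σ (Ib a b)) F (𝓝 (κ * (volume (Ib a b)).toReal)))
    {K : Set (ι → ℝ)} (hK : IsCompact K) (hpos : ∀ x ∈ K, 0 < x i₀) {ε : ℝ} (hε : 0 < ε) :
    ∀ᶠ σ in F, ν σ K ≤ κ * (volume K).toReal + ε := by
  set ε' : ℝ := ε / (2 * (κ + 1)) with hε'
  have hε'0 : 0 < ε' := by positivity
  have hKt : volume K ≠ ⊤ := hK.measure_lt_top.ne
  obtain ⟨U, hKU, hU, hUv⟩ := K.exists_isOpen_lt_add hKt (ε := ENNReal.ofReal ε') (by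
    rw [ne_eq, ENNReal.ofReal_eq_zero, not_le]
    exact hε'0)
  obtain ⟨h, A, hh, h1, h2, h3⟩ := exists_cover hK hU hKU
  have h4 : (volume (⋃ a ∈ A, Gb h a)).toReal ≤ (volume K).toReal + ε' := by
    rw [← ENNReal.toReal_ofReal hε'0.le, ← ENNReal.toReal_add hKt ENNReal.ofReal_ne_top]
    refine ENNReal.toReal_mono (ENNReal.add_ne_top.2 ⟨hKt, ENNReal.ofReal_ne_top⟩) ?_
    exact (measure_mono h3).trans hUv.le
  have h5 : Tendsto (fun σ => ∑ a ∈ A, ν σ (Gb h a)) F
      (𝓝 (∑ a ∈ A, κ * (volume (Gb h a)).toReal)) := by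
    refine tendsto_finsetSum _ fun a ha => hbox _ _ ?_ fun i => by nlinarith
    obtain ⟨x, hx1, hx2⟩ := h2 a ha
    have h6 := hpos x hx2
    have h7 := (hx1 i₀).2
    have h8 : (0 : ℝ) < a i₀ + 1 := by
      by_contra hc
      push Not at hc
      nlinarith
    have h9 : 0 ≤ a i₀ := by
      have : (0 : ℤ) < a i₀ + 1 := by exact_mod_cast h8
      omega
    have h10 : (0 : ℝ) ≤ a i₀ := by exact_mod_cast h9
    positivity
  rw [← mul_sum, sum_vol_Gb hh] at h5
  have h6 : κ * (volume (⋃ a ∈ A, Gb h a)).toReal < κ * (volume K).toReal + ε := by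
    have h7 : κ * (volume (⋃ a ∈ A, Gb h a)).toReal ≤ κ * ((volume K).toReal + ε') :=
      mul_le_mul_of_nonneg_left h4 hκ
    have h8 : κ * ε' < ε := by
      rw [hε', mul_div_assoc', div_lt_iff₀ (by positivity)]
      nlinarith
    linarith
  have hb : Bornology.IsBounded (⋃ a ∈ A, Gb h a) := by
    rw [Bornology.isBounded_biUnion_finset]
    intro a _
    unfold Gb
    refine (Metric.isBounded_Icc (fun i => h * (a i : ℝ)) fun i => h * (a i + 1)).subset ?_
    intro x hx
    exact ⟨fun i => (hx i).1.le, fun i => (hx i).2⟩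
  filter_upwards [hmono, hsub, h5.eventually (eventually_lt_nhds h6)] with σ hm hs hl
  calc ν σ K ≤ ν σ (⋃ a ∈ A, Gb h a) := hm _ _ hb h1
    _ ≤ _ := hs h A
    _ ≤ _ := hl.le

/-- sets with null boundary -/
theorem jor {Ω : Type} {F : Filter Ω} (ν : Ω → Set (ι → ℝ) → ℝ) (κ : ℝ) (hκ : 0 ≤ κ)
    (i₀ : ι)
    (hmono : ∀ᶠ σ in F, ∀ S S' : Set (ι → ℝ), Bornology.IsBounded S' → S ⊆ S' → ν σ S ≤ ν σ S')
    (hsub : ∀ᶠ σ in F, ∀ (h : ℝ) (A : Finset (ι → ℤ)),
      ν σ (⋃ a ∈ A, Gb h a) ≤ ∑ a ∈ A, ν σ (Gb h a))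
    (hdiff : ∀ᶠ σ in F, ∀ S S' : Set (ι → ℝ), Bornology.IsBounded S' → S ⊆ S' →
      ν σ S' ≤ ν σ S + ν σ (S' \ S))
    (hbox : ∀ a b : ι → ℝ, 0 ≤ a i₀ → (∀ i, a i ≤ b i) →
      Tendsto (fun σ => ν σ (Ib a b)) F (𝓝 (κ * (volume (Ib a b)).toReal)))
    {E : Set (ι → ℝ)} (hb : Bornology.IsBounded E) {r : ℝ} (hr : 0 < r) (hpos : ∀ x ∈ E, r < x i₀)
    (hfr : volume (frontier E) = 0) :
    Tendsto (fun σ => ν σ E) F (𝓝 (κ * (volume E).toReal)) := by
  -- the closure
  have hc1 : IsCompact (closure E) := hb.isCompact_closure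
  have hcpos : ∀ x ∈ closure E, r ≤ x i₀ := by
    intro x hx
    have h1 : closure E ⊆ {x | r ≤ x i₀} := closure_minimal (fun x hx => (hpos x hx).le)
      (isClosed_le continuous_const (continuous_apply i₀))
    exact h1 hx
  have hvc : volume (closure E) = volume E := by
    refine le_antisymm ?_ (measure_mono subset_closure)
    rw [closure_eq_self_union_frontier]
    refine (measure_union_le _ _).trans ?_
    rw [hfr, add_zero]
  have hvt : volume E ≠ ⊤ := by
    rw [← hvc]
    exact hc1.measure_lt_top.ne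
  obtain ⟨R, hR⟩ := hb.exists_norm_le
  set R' : ℝ := max R r + 1 with hR'
  have hRr : r < R' := by
    have := le_max_right R r
    linarith
  have hRR : R < R' := by
    have := le_max_left R r
    linarith
  have hR0 : 0 < R' := by linarith
  set a : ι → ℝ := fun i => if i = i₀ then r else -R' with ha
  set b : ι → ℝ := fun _ => R' with hbdef
  have hab : ∀ i, a i ≤ b i := by
    intro i
    simp only [ha, hbdef]
    split_ifs <;> linarith
  set B := Ib a b with hB
  have hEB : E ⊆ B := by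
    intro x hx i
    have h1 := (norm_le_pi_norm x i).trans (hR x hx)
    rw [Real.norm_eq_abs, abs_le] at h1
    simp only [ha, hbdef]
    split_ifs with hi
    · subst hi
      exact ⟨hpos x hx, by linarith⟩
    · exact ⟨by linarith, by linarith⟩
  have hBb : Bornology.IsBounded B := by
    refine (Metric.isBounded_Icc a b).subset ?_
    intro x hx
    exact ⟨fun i => (hx i).1.le, fun i => (hx i).2⟩
  have ha0 : 0 ≤ a i₀ := by
    simp only [ha, if_pos]
    exact hr.le
  have hBl := hbox a b ha0 hab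
  -- the complement
  set K := closure (B \ E) with hK
  have hKc : IsCompact K := (hBb.subset Set.sdiff_subset).isCompact_closure
  have hKp : ∀ x ∈ K, 0 < x i₀ := by
    intro x hx
    have h1 : closure (B \ E) ⊆ {x | r ≤ x i₀} := by
      refine closure_minimal (fun x hx => ?_) (isClosed_le continuous_const (continuous_apply i₀))
      have h2 := (hx.1 i₀).1
      simp only [ha, if_pos] at h2
      exact h2.le
    exact lt_of_lt_of_le hr (h1 hx)
  have hKv : (volume K).toReal ≤ (volume B).toReal - (volume E).toReal := by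
    have h1 : K ⊆ closure B \ interior E := by
      intro x hx
      refine ⟨closure_mono Set.sdiff_subset hx, fun hi => ?_⟩
      have h2 : (interior E ∩ (B \ E)).Nonempty :=
        mem_closure_iff.1 hx _ isOpen_interior hi
      obtain ⟨y, hy1, hy2⟩ := h2
      exact hy2.2 (interior_subset hy1)
    have h2 : volume (closure B) = volume B := by
      refine le_antisymm ?_ (measure_mono subset_closure)
      have h3 : closure B ⊆ Set.Icc a b := closure_minimal
        (fun x hx => ⟨fun i => (hx i).1.le, fun i => (hx i).2⟩) isClosed_Icc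
      refine (measure_mono h3).trans ?_
      rw [hB, Ib_eq, Real.volume_Icc_pi, Real.volume_pi_Ioc]
    have h3 : volume (interior E) = volume E := by
      refine le_antisymm (measure_mono interior_subset) ?_
      have h4 : E ⊆ interior E ∪ frontier E := by
        intro x hx
        by_cases hi : x ∈ interior E
        · exact Or.inl hi
        · exact Or.inr ⟨subset_closure hx, hi⟩
      refine (measure_mono h4).trans ((measure_union_le _ _).trans ?_)
      rw [hfr, add_zero]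
    have h4 : volume (closure B \ interior E) = volume B - volume E := by
      rw [measure_sdiff (interior_subset.trans (hEB.trans subset_closure))
        isOpen_interior.measurableSet.nullMeasurableSet (by rw [h3]; exact hvt), h2, h3]
    have h5 : volume K ≤ volume B - volume E := (measure_mono h1).trans h4.le
    have hBt : volume B ≠ ⊤ := Ib_vol_ne_top a b
    rw [← ENNReal.toReal_sub_of_le (measure_mono hEB) hBt]
    exact ENNReal.toReal_mono (ENNReal.sub_ne_top hBt) h5
  rw [Metric.tendsto_nhds]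
  intro ε hε
  have hup := jor_compact ν κ hκ i₀ hmono hsub hbox hc1
    (fun x hx => lt_of_lt_of_le hr (hcpos x hx)) (half_pos hε)
  have hlo := jor_compact ν κ hκ i₀ hmono hsub hbox hKc hKp (show 0 < ε / 4 by positivity)
  have hBl' := hBl.eventually (eventually_gt_nhds (show κ * (volume B).toReal - ε / 4 <
    κ * (volume B).toReal by linarith))
  filter_upwards [hup, hlo, hBl', hmono, hdiff] with σ h1 h2 h3 h4 h5
  rw [hvc] at h1
  have h6 := h4 E (closure E) hc1.isBounded subset_closure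
  have h7 := h5 E B hBb hEB
  have h8 := h4 (B \ E) K hKc.isBounded subset_closure
  have h9 : κ * (volume K).toReal ≤ κ * ((volume B).toReal - (volume E).toReal) :=
    mul_le_mul_of_nonneg_left hKv hκ
  rw [Real.dist_eq, abs_lt]
  constructor <;> nlinarith

end

end Run7.h3.PM
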