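import Mathlib

set_option autoImplicit false
set_option linter.unusedSectionVars false
set_option linter.unusedVariables false

/-! Subgroups of finite index of `ℤ ^ k`, counted with weights. -/

namespace Run7.h3.PM

open Finset Module Filter Topology

/-- the subgroups of finite index -/
def SLg (G : Type) [AddCommGroup G] : Type := {N : AddSubgroup G // N.index ≠ 0}

section

variable {G : Type} [AddCommGroup G]

/-- the index -/
noncomputable def SLg.idx (N : SLg G) : ℕ := N.1.index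

theorem SLg.idx_pos (N : SLg G) : 0 < N.idx := Nat.pos_of_ne_zero N.2

theorem SLg.one_le (N : SLg G) : (1 : ℝ) ≤ N.idx := by exact_mod_cast N.idx_pos

/-- isomorphic groups -/
noncomputable def SLg.congr {G' : Type} [AddCommGroup G'] (e : G ≃+ G') : SLg G ≃ SLg G' where
  toFun N := ⟨N.1.map (e : G →+ G'), by
    rw [AddSubgroup.index_map_equiv]
    exact N.2⟩
  invFun N := ⟨N.1.map (e.symm : G' →+ G), by
    rw [AddSubgroup.index_map_equiv]
    exact N.2⟩
  left_inv N := by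
    apply Subtype.ext
    simp only
    rw [AddSubgroup.map_map]
    convert! AddSubgroup.map_id N.1
    ext x
    simp
  right_inv N := by
    apply Subtype.ext
    simp only
    rw [AddSubgroup.map_map]
    convert! AddSubgroup.map_id N.1
    ext x
    simp

theorem SLg.congr_idx {G' : Type} [AddCommGroup G'] (e : G ≃+ G') (N : SLg G) :
    (SLg.congr e N).idx = N.idx := AddSubgroup.index_map_equiv N.1 e

/-- the subgroup of `ℤ × G` with the projection `H`, the intersection `d ℤ` with `ℤ` and the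
class of the lifting `φ` -/
def mkN (H : AddSubgroup G) (d : ℕ) (φ : H →+ ZMod d) : AddSubgroup (ℤ × G) where
  carrier := {x | ∃ h : x.2 ∈ H, ((x.1 : ℤ) : ZMod d) = φ ⟨x.2, h⟩}
  zero_mem' := ⟨H.zero_mem, by
    have : (⟨0, H.zero_mem⟩ : H) = 0 := rfl
    rw [show (⟨(0 : ℤ × G).2, H.zero_mem⟩ : H) = 0 from rfl, map_zero]
    simp⟩
  add_mem' := by
    rintro x y ⟨hx, hx'⟩ ⟨hy, hy'⟩
    refine ⟨H.add_mem hx hy, ?_⟩
    rw [show (⟨(x + y).2, H.add_mem hx hy⟩ : H) = ⟨x.2, hx⟩ + ⟨y.2, hy⟩ from rfl, map_add, ← hx',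
      ← hy', Prod.fst_add]
    push_cast
    rfl
  neg_mem' := by
    rintro x ⟨hx, hx'⟩
    refine ⟨H.neg_mem hx, ?_⟩
    rw [show (⟨(-x).2, H.neg_mem hx⟩ : H) = -⟨x.2, hx⟩ from rfl, map_neg, ← hx', Prod.fst_neg]
    push_cast
    rfl

theorem mem_mkN {H : AddSubgroup G} {d : ℕ} {φ : H →+ ZMod d} {x : ℤ × G} :
    x ∈ mkN H d φ ↔ ∃ h : x.2 ∈ H, ((x.1 : ℤ) : ZMod d) = φ ⟨x.2, h⟩ := Iff.rfl

theorem index_mkN (H : AddSubgroup G) {d : ℕ} (hd : 0 < d) (φ : H →+ ZMod d) :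
    (mkN H d φ).index = d * H.index := by
  have : NeZero d := ⟨hd.ne'⟩
  set P : AddSubgroup (ℤ × G) := H.comap (AddMonoidHom.snd ℤ G) with hP
  have hle : mkN H d φ ≤ P := by
    rintro x ⟨hx, -⟩
    exact hx
  have h1 : P.index = H.index := by
    rw [hP]
    exact AddSubgroup.index_comap_of_surjective H (fun g => ⟨(0, g), rfl⟩)
  have h2 : (mkN H d φ).relIndex P = d := by
    set ψ : P →+ ZMod d :=
      { toFun := fun x => ((x.1.1 : ℤ) : ZMod d) - φ ⟨x.1.2, x.2⟩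
        map_zero' := by
          rw [show (⟨((0 : P) : ℤ × G).2, (0 : P).2⟩ : H) = 0 from rfl, map_zero]
          simp
        map_add' := by
          intro x y
          rw [show (⟨((x + y : P) : ℤ × G).2, (x + y : P).2⟩ : H) =
            ⟨x.1.2, x.2⟩ + ⟨y.1.2, y.2⟩ from rfl, map_add]
          simp only [AddSubgroup.coe_add, Prod.fst_add]
          push_cast
          ring } with hψ
    have hker : ψ.ker = (mkN H d φ).addSubgroupOf P := by
      ext x
      rw [AddMonoidHom.mem_ker, AddSubgroup.mem_addSubgroupOf, mem_mkN]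
      change ((x.1.1 : ℤ) : ZMod d) - φ ⟨x.1.2, x.2⟩ = 0 ↔ _
      rw [sub_eq_zero]
      exact ⟨fun h => ⟨x.2, h⟩, fun ⟨_, h⟩ => h⟩
    have hsurj : Function.Surjective ψ := by
      intro c
      obtain ⟨t, ht⟩ := ZMod.intCast_surjective c
      refine ⟨⟨(t, 0), H.zero_mem⟩, ?_⟩
      change ((t : ℤ) : ZMod d) - φ ⟨0, _⟩ = c
      rw [show (⟨0, H.zero_mem⟩ : H) = 0 from rfl, map_zero, sub_zero, ht]
    rw [AddSubgroup.relIndex, ← hker, AddSubgroup.index_ker, AddMonoidHom.range_eq_top.2 hsurj]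
    rw [Nat.card_congr AddSubgroup.topEquiv.toEquiv, Nat.card_zmod]
  rw [← AddSubgroup.relIndex_mul_index hle, h1, h2]

/-- the classification of the subgroups of finite index of `ℤ × G` -/
noncomputable def Phi (G : Type) [AddCommGroup G] :
    (Σ H : SLg G, Σ d : ℕ+, (H.1 →+ ZMod d)) → SLg (ℤ × G) :=
  fun p => ⟨mkN p.1.1 p.2.1 p.2.2, by
    rw [index_mkN _ p.2.1.pos]
    exact mul_ne_zero p.2.1.ne_zero p.1.2⟩

theorem Phi_idx (p : Σ H : SLg G, Σ d : ℕ+, (H.1 →+ ZMod d)) :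
    (Phi G p).idx = p.2.1 * p.1.idx := index_mkN _ p.2.1.pos _

theorem Phi_inj : Function.Injective (Phi G) := by
  rintro ⟨⟨H, hH⟩, d, φ⟩ ⟨⟨H', hH'⟩, d', φ'⟩ h
  have h0 : mkN H d φ = mkN H' d' φ' := congrArg Subtype.val h
  have e1 : ∀ {H : AddSubgroup G} {d : ℕ} [NeZero d] (φ : H →+ ZMod d) (g : G),
      g ∈ H ↔ ∃ t : ℤ, (t, g) ∈ mkN H d φ := by
    intro H d _ φ g
    constructor
    · intro hg
      obtain ⟨t, ht⟩ := ZMod.intCast_surjective (φ ⟨g, hg⟩)
      exact ⟨t, hg, ht⟩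
    · rintro ⟨t, hg, _⟩
      exact hg
  have e2 : ∀ {H : AddSubgroup G} {d : ℕ} (φ : H →+ ZMod d) (t : ℤ),
      (t, (0 : G)) ∈ mkN H d φ ↔ (d : ℤ) ∣ t := by
    intro H d φ t
    rw [mem_mkN, ← ZMod.intCast_zmod_eq_zero_iff_dvd]
    constructor
    · rintro ⟨h1, h2⟩
      rw [show (⟨((t, (0 : G)) : ℤ × G).2, h1⟩ : H) = 0 from rfl, map_zero] at h2
      exact h2
    · intro h2
      refine ⟨H.zero_mem, ?_⟩
      rw [show (⟨((t, (0 : G)) : ℤ × G).2, H.zero_mem⟩ : H) = 0 from rfl, map_zero]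
      exact h2
  have hHH : H = H' := by
    ext g
    rw [e1 φ g, e1 φ' g, h0]
  subst hHH
  have hdd : (d : ℕ) = d' := by
    have h1 := (e2 φ (d : ℕ)).2 dvd_rfl
    have h2 := (e2 φ' (d' : ℕ)).2 dvd_rfl
    rw [h0, e2] at h1
    rw [← h0, e2] at h2
    exact Nat.dvd_antisymm (Int.natCast_dvd_natCast.1 h2) (Int.natCast_dvd_natCast.1 h1)
  have hdd' : d = d' := PNat.coe_injective hdd
  subst hdd'
  have : φ = φ' := by
    ext g
    obtain ⟨t, ht⟩ := ZMod.intCast_surjective (φ g)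
    have h1 : ((t, g.1) : ℤ × G) ∈ mkN H d φ := ⟨g.2, ht⟩
    rw [h0] at h1
    obtain ⟨h2, h3⟩ := h1
    rw [← ht]
    exact h3
  subst this
  rfl

theorem Phi_surj : Function.Surjective (Phi G) := by
  rintro ⟨N, hN⟩
  set H : AddSubgroup G := N.map (AddMonoidHom.snd ℤ G) with hH
  have hH0 : H.index ≠ 0 := by
    intro h0
    have h1 := AddSubgroup.index_map_dvd N (f := AddMonoidHom.snd ℤ G) (fun g => ⟨(0, g), rfl⟩)
    rw [← hH, h0] at h1
    exact hN (Nat.eq_zero_of_zero_dvd h1)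
  set K : AddSubgroup ℤ := N.comap (AddMonoidHom.inl ℤ G) with hK
  obtain ⟨a, ha⟩ := Int.subgroup_cyclic K
  have hK' : ∀ t : ℤ, (t, (0 : G)) ∈ N ↔ a ∣ t := by
    intro t
    have h1 : (t, (0 : G)) ∈ N ↔ t ∈ K := Iff.rfl
    rw [h1, ha, AddSubgroup.mem_closure_singleton]
    constructor
    · rintro ⟨n, rfl⟩
      exact ⟨n, by simp [mul_comm]⟩
    · rintro ⟨n, rfl⟩
      exact ⟨n, by simp [mul_comm]⟩
  have ha0 : a ≠ 0 := by
    rintro rfl
    have h1 : ∀ t : ℤ, (t, (0 : G)) ∈ N → t = 0 := fun t ht => by simpa using (hK' t).1 ht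
    have h2 := AddSubgroup.nsmul_index_mem (H := N) (1, (0 : G))
    have h3 : N.index • ((1 : ℤ), (0 : G)) = ((N.index : ℤ), (0 : G)) := by
      simp
    rw [h3] at h2
    have := h1 _ h2
    exact hN (by exact_mod_cast this)
  obtain ⟨d, hd⟩ : ∃ d : ℕ+, (d : ℕ) = a.natAbs := ⟨⟨a.natAbs, Int.natAbs_pos.2 ha0⟩, rfl⟩
  have hKd : ∀ t : ℤ, (t, (0 : G)) ∈ N ↔ ((d : ℕ) : ℤ) ∣ t := by
    intro t
    rw [hK', hd, Int.natAbs_dvd]
  have hex : ∀ h : H, ∃ t : ℤ, (t, (h : G)) ∈ N := by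
    rintro ⟨h, hh⟩
    obtain ⟨⟨t, g⟩, h1, h2⟩ := AddSubgroup.mem_map.1 hh
    simp only [AddMonoidHom.coe_snd] at h2
    exact ⟨t, by subst h2; exact h1⟩
  choose s hs using hex
  have huniq : ∀ (h : H) (t : ℤ), (t, (h : G)) ∈ N → ((t : ℤ) : ZMod d) = (s h : ℤ) := by
    intro h t ht
    have h1 := N.sub_mem ht (hs h)
    simp only [Prod.mk_sub_mk, sub_self] at h1
    rw [hKd] at h1
    rw [← sub_eq_zero, ← Int.cast_sub, ZMod.intCast_zmod_eq_zero_iff_dvd]
    exact h1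
  set φ : H →+ ZMod d := AddMonoidHom.mk' (fun h => ((s h : ℤ) : ZMod d)) (by
    intro x y
    have h1 := N.add_mem (hs x) (hs y)
    have h2 : ((s x, (x : G)) + (s y, (y : G)) : ℤ × G) = (s x + s y, ((x + y : H) : G)) := rfl
    rw [h2] at h1
    have h3 := huniq (x + y) (s x + s y) h1
    rw [← h3]
    push_cast
    rfl) with hφ
  refine ⟨⟨⟨H, hH0⟩, d, φ⟩, ?_⟩
  apply Subtype.ext
  change mkN H d φ = N
  ext ⟨t, g⟩
  rw [mem_mkN]
  constructor
  · rintro ⟨h1, h2⟩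
    have h3 := hs ⟨g, h1⟩
    have h4 : ((t : ℤ) : ZMod d) = ((s ⟨g, h1⟩ : ℤ) : ZMod d) := h2
    rw [← sub_eq_zero, ← Int.cast_sub, ZMod.intCast_zmod_eq_zero_iff_dvd, ← hKd] at h4
    have h5 := N.add_mem h4 h3
    simpa using h5
  · intro h1
    have h2 : g ∈ H := AddSubgroup.mem_map.2 ⟨(t, g), h1, rfl⟩
    exact ⟨h2, huniq ⟨g, h2⟩ t h1⟩

end

/-- a subgroup of finite index is free of the same rank -/
theorem exists_basis {k : ℕ} (N : AddSubgroup (Fin k → ℤ)) (hN : N.index ≠ 0) :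
    Nonempty (Basis (Fin k) ℤ N) := by
  obtain ⟨r, b⟩ := Submodule.basisOfPid (Pi.basisFun ℤ (Fin k)) (AddSubgroup.toIntSubmodule N)
  have b' : Basis (Fin r) ℤ N := b
  have : Module.Free ℤ N := Module.Free.of_basis b'
  have : Module.Finite ℤ N := Module.Finite.of_basis b'
  have h1 : finrank ℤ N = r := by
    rw [finrank_eq_card_basis b', Fintype.card_fin]
  have h2 : finrank ℤ N ≤ k := by
    have := LinearMap.finrank_le_finrank_of_injective (R := ℤ) (M := N) (M' := Fin k → ℤ)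
      (f := (AddSubgroup.toIntSubmodule N).subtype) Subtype.val_injective
    simpa using this
  have h3 : k ≤ finrank ℤ N := by
    set f : (Fin k → ℤ) →ₗ[ℤ] N := LinearMap.codRestrict (AddSubgroup.toIntSubmodule N)
      ((N.index : ℤ) • LinearMap.id) (fun x => by
        have := AddSubgroup.nsmul_index_mem (H := N) x
        change ((N.index : ℤ) • x) ∈ N
        rwa [natCast_zsmul]) with hf
    have hinj : Function.Injective f := by
      intro x y h
      have h4 : (N.index : ℤ) • x = (N.index : ℤ) • y := congrArg Subtype.val h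
      have h5 : (N.index : ℤ) ≠ 0 := by exact_mod_cast hN
      exact smul_right_injective _ h5 h4
    have := LinearMap.finrank_le_finrank_of_injective hinj
    simpa using this
  have h4 : r = k := by omega
  subst h4
  exact ⟨b'⟩

theorem card_hom {k : ℕ} (N : SLg (Fin k → ℤ)) (d : ℕ+) :
    Nat.card (N.1 →+ ZMod d) = (d : ℕ) ^ k := by
  obtain ⟨b⟩ := exists_basis N.1 N.2
  have e1 : (N.1 →+ ZMod d) ≃ (N.1 →ₗ[ℤ] ZMod d) :=
    (addMonoidHomLequivInt (A := N.1) (B := ZMod d) ℤ).toEquiv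
  have e2 : (N.1 →ₗ[ℤ] ZMod d) ≃ (Fin k → ZMod d) := (b.constr ℤ).symm.toEquiv
  rw [Nat.card_congr (e1.trans e2), Nat.card_fun, Nat.card_zmod, Nat.card_fin]

/-- the last coordinates -/
def consE (k : ℕ) : (Fin (k + 1) → ℤ) ≃+ ℤ × (Fin k → ℤ) where
  toFun x := (x 0, fun i => x i.succ)
  invFun p := Fin.cons p.1 p.2
  left_inv x := by
    funext i
    refine Fin.cases ?_ (fun i => ?_) i <;> simp
  right_inv p := by simp
  map_add' x y := rfl

/-- the recursion -/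
theorem tsum_rec {k : ℕ} (f : ℕ → ENNReal) :
    ∑' N : SLg (Fin (k + 1) → ℤ), f N.idx =
      ∑' H : SLg (Fin k → ℤ), ∑' d : ℕ+, ((d : ℕ) : ENNReal) ^ k * f (d * H.idx) := by
  have h1 : ∑' N : SLg (Fin (k + 1) → ℤ), f N.idx = ∑' N : SLg (ℤ × (Fin k → ℤ)), f N.idx := by
    rw [← (SLg.congr (consE k)).tsum_eq]
    refine tsum_congr fun N => ?_
    rw [SLg.congr_idx]
  rw [h1, ← (Equiv.ofBijective _ ⟨Phi_inj (G := Fin k → ℤ), Phi_surj⟩).tsum_eq, ENNReal.tsum_sigma']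
  refine tsum_congr fun H => ?_
  rw [ENNReal.tsum_sigma']
  refine tsum_congr fun d => ?_
  have h2 : ∀ φ : H.1 →+ ZMod d, f (Equiv.ofBijective (Phi (Fin k → ℤ)) ⟨Phi_inj, Phi_surj⟩
      ⟨H, d, φ⟩).idx = f (d * H.idx) := by
    intro φ
    rw [Equiv.ofBijective_apply, Phi_idx]
  rw [tsum_congr h2]
  have hc := card_hom H d
  have : Finite (H.1 →+ ZMod d) := by
    refine Nat.finite_of_card_ne_zero ?_
    rw [hc]
    exact pow_ne_zero _ d.ne_zero
  have := Fintype.ofFinite (H.1 →+ ZMod d)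
  rw [tsum_fintype, sum_const, card_univ, nsmul_eq_mul, ← Nat.card_eq_fintype_card, hc]
  push_cast
  rfl

end Run7.h3.PM
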