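import Pool.Agent.Run7.h3.PM.Lat

set_option autoImplicit false
set_option linter.unusedSectionVars false
set_option linter.unusedVariables false

/-! The number of the subgroups of `ℤ ^ k` of index at most `x`, with weights. -/

namespace Run7.h3.PM

open Finset Module Filter Topology

instance : Unique (SLg (Fin 0 → ℤ)) where
  default := ⟨⊤, by simp⟩
  uniq N := by
    apply Subtype.ext
    exact Subsingleton.elim _ _

theorem zeta_lt_top (k : ℕ) : ∀ s : ℕ, k + 1 ≤ s →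
    ∑' N : SLg (Fin k → ℤ), (((N.idx : ℕ) : ENNReal) ^ s)⁻¹ ≠ ⊤ := by
  induction k with
  | zero =>
    intro s hs
    rw [tsum_fintype, Fintype.sum_unique]
    have : (0 : ENNReal) < ((default : SLg (Fin 0 → ℤ)).idx : ENNReal) := by
      exact_mod_cast (default : SLg (Fin 0 → ℤ)).idx_pos
    simp only [ne_eq, ENNReal.inv_eq_top, pow_eq_zero_iff', this.ne', false_and, not_false_eq_true]
  | succ k ih =>
    intro s hs
    rw [tsum_rec (fun n => (((n : ℕ) : ENNReal) ^ s)⁻¹)]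
    have h1 : ∀ (H : SLg (Fin k → ℤ)) (d : ℕ+), ((d : ℕ) : ENNReal) ^ k *
        ((((d * H.idx : ℕ) : ℕ) : ENNReal) ^ s)⁻¹ ≤
        ((((d : ℕ) : ENNReal) ^ 2)⁻¹) * (((H.idx : ℕ) : ENNReal) ^ s)⁻¹ := by
      intro H d
      have hd0 : ((d : ℕ) : ENNReal) ≠ 0 := by exact_mod_cast d.ne_zero
      have hdt : ((d : ℕ) : ENNReal) ≠ ⊤ := ENNReal.natCast_ne_top _
      have hd1 : (1 : ENNReal) ≤ ((d : ℕ) : ENNReal) := by exact_mod_cast d.one_le
      have hh0 : ((H.idx : ℕ) : ENNReal) ≠ 0 := by exact_mod_cast H.idx_pos.ne'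
      rw [Nat.cast_mul, mul_pow, ENNReal.mul_inv (Or.inl (pow_ne_zero _ hd0))
        (Or.inl (ENNReal.pow_ne_top hdt)), ← mul_assoc]
      refine mul_le_mul_left ?_ _
      obtain ⟨t, rfl⟩ := Nat.exists_eq_add_of_le hs
      have h2 : ((d : ℕ) : ENNReal) ^ (k + 1 + 1 + t) = ((d : ℕ) : ENNReal) ^ k *
          (((d : ℕ) : ENNReal) ^ 2 * ((d : ℕ) : ENNReal) ^ t) := by ring
      rw [h2, ENNReal.mul_inv (Or.inl (pow_ne_zero _ hd0)) (Or.inl (ENNReal.pow_ne_top hdt)),
        ← mul_assoc, ENNReal.mul_inv_cancel (pow_ne_zero _ hd0) (ENNReal.pow_ne_top hdt), one_mul]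
      refine ENNReal.inv_le_inv.2 ?_
      calc ((d : ℕ) : ENNReal) ^ 2 = ((d : ℕ) : ENNReal) ^ 2 * 1 := (mul_one _).symm
        _ ≤ _ := mul_le_mul_right (one_le_pow₀ hd1) _
    have h2 : ∑' d : ℕ+, (((d : ℕ) : ENNReal) ^ 2)⁻¹ ≠ ⊤ := by
      have h3 : Summable fun d : ℕ => 1 / ((d : ℝ) + 1) ^ 2 := by
        have := (summable_nat_add_iff (f := fun n : ℕ => 1 / (n : ℝ) ^ 2) 1).2
          (Real.summable_one_div_nat_pow.2 (by norm_num))
        simpa using this
      have h4 : ∑' d : ℕ, ENNReal.ofReal (1 / ((d : ℝ) + 1) ^ 2) ≠ ⊤ := h3.tsum_ofReal_ne_top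
      rw [tsum_pnat_eq_tsum_succ (f := fun n : ℕ => ((n : ENNReal) ^ 2)⁻¹)]
      refine ne_of_eq_of_ne (tsum_congr fun d => ?_) h4
      rw [ENNReal.ofReal_div_of_pos (by positivity), ENNReal.ofReal_one, one_div,
        ENNReal.ofReal_pow (by positivity)]
      congr 2
      rw [show ((d : ℝ) + 1) = ((d + 1 : ℕ) : ℝ) by push_cast; ring, ENNReal.ofReal_natCast]
    refine ne_top_of_le_ne_top ?_ (ENNReal.tsum_le_tsum fun H => ENNReal.tsum_le_tsum fun d => h1 H d)
    simp_rw [ENNReal.tsum_mul_right]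
    rw [ENNReal.tsum_mul_left]
    exact ENNReal.mul_ne_top h2 (ih s (by omega))

theorem zeta_summable (k : ℕ) : Summable fun N : SLg (Fin k → ℤ) => 1 / (N.idx : ℝ) ^ (k + 1) := by
  have h := zeta_lt_top k (k + 1) le_rfl
  have h2 := ENNReal.summable_toReal h
  refine h2.congr fun N => ?_
  rw [ENNReal.toReal_inv, ENNReal.toReal_pow, ENNReal.toReal_natCast, one_div]

theorem finite_le (k : ℕ) (x : ℝ) : {N : SLg (Fin k → ℤ) | (N.idx : ℝ) ≤ x}.Finite := by
  rcases le_or_gt x 0 with hx | hx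
  · refine Set.finite_empty.subset fun N hN => ?_
    have h1 := N.one_le
    have h2 : (N.idx : ℝ) ≤ x := hN
    linarith
  have h := zeta_lt_top k (k + 1) le_rfl
  have h2 := ENNReal.finite_const_le_of_tsum_ne_top h (ε := ((ENNReal.ofReal x) ^ (k + 1))⁻¹) (by
    rw [ne_eq, ENNReal.inv_eq_zero]
    exact ENNReal.pow_ne_top ENNReal.ofReal_ne_top)
  refine h2.subset fun N hN => ?_
  have h3 : (N.idx : ℝ) ≤ x := hN
  rw [Set.mem_setOf_eq]
  refine ENNReal.inv_le_inv.2 (pow_le_pow_left₀ (by positivity) ?_ _)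
  rw [← ENNReal.ofReal_natCast]
  exact ENNReal.ofReal_le_ofReal h3

/-- weighted sums over the subgroups of index at most `x` -/
noncomputable def wsum (k : ℕ) (w : SLg (Fin k → ℤ) → ℝ) (p : ℕ) (x : ℝ) : ℝ :=
  ∑' N : SLg (Fin k → ℤ), if (N.idx : ℝ) ≤ x then w N * (N.idx : ℝ) ^ p else 0

theorem wsum_summable {k : ℕ} (w : SLg (Fin k → ℤ) → ℝ) (p : ℕ) (x : ℝ) :
    Summable fun N : SLg (Fin k → ℤ) => if (N.idx : ℝ) ≤ x then w N * (N.idx : ℝ) ^ p else 0 := by
  classical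
  refine summable_of_ne_finset_zero (s := (finite_le k x).toFinset) fun N hN => ?_
  rw [if_neg]
  simpa using hN

theorem wsum_eq_sum {k : ℕ} (w : SLg (Fin k → ℤ) → ℝ) (p : ℕ) (x : ℝ) :
    wsum k w p x = ∑ N ∈ (finite_le k x).toFinset, w N * (N.idx : ℝ) ^ p := by
  classical
  unfold wsum
  rw [tsum_eq_sum (s := (finite_le k x).toFinset)]
  · refine sum_congr rfl fun N hN => ?_
    rw [if_pos]
    simpa using hN
  · intro N hN
    rw [if_neg]
    simpa using hN

/-- sums of powers -/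
noncomputable def PP (q : ℕ) (y : ℝ) : ℝ := ∑ d ∈ range ⌊y⌋₊, ((d : ℝ) + 1) ^ q

theorem PP_nonneg (q : ℕ) (y : ℝ) : 0 ≤ PP q y := sum_nonneg fun _ _ => by positivity

theorem PP_le (q : ℕ) {y : ℝ} (hy : 0 ≤ y) : PP q y ≤ y ^ (q + 1) := by
  unfold PP
  have h1 : ∀ d ∈ range ⌊y⌋₊, ((d : ℝ) + 1) ^ q ≤ y ^ q := by
    intro d hd
    refine pow_le_pow_left₀ (by positivity) ?_ _
    have h2 : d + 1 ≤ ⌊y⌋₊ := mem_range.1 hd
    have h3 : ((d + 1 : ℕ) : ℝ) ≤ (⌊y⌋₊ : ℝ) := by exact_mod_cast h2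
    push_cast at h3
    exact h3.trans (Nat.floor_le hy)
  refine (sum_le_sum h1).trans ?_
  rw [sum_const, card_range, nsmul_eq_mul, pow_succ, mul_comm]
  exact mul_le_mul_of_nonneg_left (Nat.floor_le hy) (by positivity)

theorem pow_diff (q : ℕ) {a : ℝ} (ha : 0 ≤ a) :
    ((q : ℝ) + 1) * a ^ q ≤ (a + 1) ^ (q + 1) - a ^ (q + 1) ∧
      (a + 1) ^ (q + 1) - a ^ (q + 1) ≤ ((q : ℝ) + 1) * (a + 1) ^ q := by
  induction q with
  | zero => constructor <;> simp
  | succ q ih =>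
    obtain ⟨h1, h2⟩ := ih
    have e1 : (a + 1) ^ (q + 1 + 1) - a ^ (q + 1 + 1) =
        a * ((a + 1) ^ (q + 1) - a ^ (q + 1)) + (a + 1) ^ (q + 1) := by ring
    have e2 : (a + 1) ^ (q + 1 + 1) - a ^ (q + 1 + 1) =
        (a + 1) * ((a + 1) ^ (q + 1) - a ^ (q + 1)) + a ^ (q + 1) := by ring
    have h3 : a ^ (q + 1) ≤ (a + 1) ^ (q + 1) := pow_le_pow_left₀ ha (by linarith) _
    push_cast
    constructor
    · rw [e1]
      have h4 := mul_le_mul_of_nonneg_left h1 ha
      have h5 : a * (((q : ℝ) + 1) * a ^ q) = ((q : ℝ) + 1) * a ^ (q + 1) := by ring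
      nlinarith
    · rw [e2]
      have h4 := mul_le_mul_of_nonneg_left h2 (show 0 ≤ a + 1 by linarith)
      have h5 : (a + 1) * (((q : ℝ) + 1) * (a + 1) ^ q) = ((q : ℝ) + 1) * (a + 1) ^ (q + 1) := by
        ring
      nlinarith

theorem sum_pow_bounds (q n : ℕ) :
    (n : ℝ) ^ (q + 1) ≤ ((q : ℝ) + 1) * ∑ d ∈ range n, ((d : ℝ) + 1) ^ q ∧
      ((q : ℝ) + 1) * ∑ d ∈ range n, ((d : ℝ) + 1) ^ q ≤ ((n : ℝ) + 1) ^ (q + 1) := by
  constructor
  · induction n with
    | zero => simp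
    | succ n ih =>
      rw [sum_range_succ, mul_add]
      have h1 := (pow_diff q (a := (n : ℝ)) (Nat.cast_nonneg _)).2
      push_cast
      linarith
  · induction n with
    | zero => simp
    | succ n ih =>
      rw [sum_range_succ, mul_add]
      have h1 := (pow_diff q (a := (n : ℝ) + 1) (by positivity)).1
      push_cast
      linarith

theorem PP_tendsto (q : ℕ) : Tendsto (fun y : ℝ => PP q y / y ^ (q + 1)) atTop
    (𝓝 (1 / ((q : ℝ) + 1))) := by
  have hq : (0 : ℝ) < (q : ℝ) + 1 := by positivity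
  have h1 : Tendsto (fun y : ℝ => (1 / ((q : ℝ) + 1)) * ((y - 1) / y) ^ (q + 1)) atTop
      (𝓝 ((1 / ((q : ℝ) + 1)) * (1 - 0) ^ (q + 1))) := by
    refine Tendsto.const_mul _ (Tendsto.pow ?_ _)
    have : Tendsto (fun y : ℝ => 1 - y⁻¹) atTop (𝓝 (1 - 0)) :=
      tendsto_const_nhds.sub tendsto_inv_atTop_zero
    refine this.congr' ?_
    filter_upwards [eventually_gt_atTop 0] with y hy
    field_simp
  have h2 : Tendsto (fun y : ℝ => (1 / ((q : ℝ) + 1)) * ((y + 1) / y) ^ (q + 1)) atTop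
      (𝓝 ((1 / ((q : ℝ) + 1)) * (1 + 0) ^ (q + 1))) := by
    refine Tendsto.const_mul _ (Tendsto.pow ?_ _)
    have : Tendsto (fun y : ℝ => 1 + y⁻¹) atTop (𝓝 (1 + 0)) :=
      tendsto_const_nhds.add tendsto_inv_atTop_zero
    refine this.congr' ?_
    filter_upwards [eventually_gt_atTop 0] with y hy
    field_simp
  simp only [sub_zero, add_zero, one_pow, mul_one] at h1 h2
  refine tendsto_of_tendsto_of_tendsto_of_le_of_le' h1 h2 ?_ ?_
  · filter_upwards [eventually_ge_atTop 1] with y hy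
    have h3 := (sum_pow_bounds q ⌊y⌋₊).1
    have h4 : (y - 1) ^ (q + 1) ≤ (⌊y⌋₊ : ℝ) ^ (q + 1) :=
      pow_le_pow_left₀ (by linarith) (by linarith [Nat.lt_floor_add_one y]) _
    unfold PP
    rw [div_pow, one_div, inv_mul_eq_div, div_div, div_le_div_iff₀ (by positivity) (by positivity)]
    have h5 : 0 ≤ y ^ (q + 1) := by positivity
    nlinarith
  · filter_upwards [eventually_ge_atTop 1] with y hy
    have h3 := (sum_pow_bounds q ⌊y⌋₊).2
    have h4 : ((⌊y⌋₊ : ℝ) + 1) ^ (q + 1) ≤ (y + 1) ^ (q + 1) :=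
      pow_le_pow_left₀ (by positivity) (by linarith [Nat.floor_le (show 0 ≤ y by linarith)]) _
    unfold PP
    rw [div_pow, one_div, inv_mul_eq_div, div_div, div_le_div_iff₀ (by positivity) (by positivity)]
    have h5 : 0 ≤ y ^ (q + 1) := by positivity
    nlinarith

theorem wsum_rec (k p : ℕ) {x : ℝ} (hx : 0 ≤ x) :
    wsum (k + 1) (fun _ => 1) p x =
      ∑' H : SLg (Fin k → ℤ), (H.idx : ℝ) ^ p * PP (k + p) (x / H.idx) := by
  classical
  set f : ℕ → ENNReal := fun n => if (n : ℝ) ≤ x then (n : ENNReal) ^ p else 0 with hf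
  have hft : ∀ n, f n ≠ ⊤ := by
    intro n
    simp only [hf]
    split_ifs
    · exact ENNReal.pow_ne_top (ENNReal.natCast_ne_top _)
    · exact ENNReal.zero_ne_top
  have h1 := tsum_rec (k := k) f
  have h2 : wsum (k + 1) (fun _ => 1) p x =
      (∑' N : SLg (Fin (k + 1) → ℤ), f N.idx).toReal := by
    rw [ENNReal.tsum_toReal_eq fun N => hft _]
    refine tsum_congr fun N => ?_
    simp only [hf]
    split_ifs
    · rw [ENNReal.toReal_pow, ENNReal.toReal_natCast, one_mul]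
    · rfl
  have h3 : ∀ H : SLg (Fin k → ℤ), ∑' d : ℕ+, ((d : ℕ) : ENNReal) ^ k * f (d * H.idx) =
      ENNReal.ofReal ((H.idx : ℝ) ^ p * PP (k + p) (x / H.idx)) := by
    intro H
    have hH : (0 : ℝ) < H.idx := by exact_mod_cast H.idx_pos
    rw [tsum_pnat_eq_tsum_succ (f := fun n : ℕ => (n : ENNReal) ^ k * f (n * H.idx)),
      tsum_eq_sum (s := range ⌊x / H.idx⌋₊)]
    · unfold PP
      rw [mul_sum, ENNReal.ofReal_sum_of_nonneg fun _ _ => by positivity]
      refine sum_congr rfl fun d hd => ?_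
      have h4 : d + 1 ≤ ⌊x / H.idx⌋₊ := mem_range.1 hd
      have h5 : ((d + 1 : ℕ) : ℝ) ≤ x / H.idx :=
        (Nat.le_floor_iff (by positivity)).1 h4
      rw [le_div_iff₀ hH] at h5
      have h6 : (((d + 1) * H.idx : ℕ) : ℝ) ≤ x := by
        push_cast at h5 ⊢
        exact h5
      simp only [hf]
      rw [if_pos h6]
      have h7 : ((d + 1 : ℕ) : ENNReal) ^ k * (((d + 1) * H.idx : ℕ) : ENNReal) ^ p =
          ENNReal.ofReal ((((d + 1 : ℕ) ^ k * ((d + 1) * H.idx) ^ p : ℕ) : ℝ)) := by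
        rw [ENNReal.ofReal_natCast]
        push_cast
        ring
      rw [h7]
      congr 1
      push_cast
      rw [mul_pow, pow_add]
      ring
    · intro d hd
      have h4 : ⌊x / H.idx⌋₊ < d + 1 := by
        rw [mem_range] at hd
        omega
      have h5 : ¬ ((((d + 1) * H.idx : ℕ) : ℝ) ≤ x) := by
        intro h6
        have h7 : ((d + 1 : ℕ) : ℝ) ≤ x / H.idx := by
          rw [le_div_iff₀ hH]
          push_cast at h6 ⊢
          exact h6
        have h8 := Nat.le_floor h7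
        omega
      simp only [hf]
      rw [if_neg h5, mul_zero]
  rw [h2, h1, tsum_congr h3, ENNReal.tsum_toReal_eq fun H => ENNReal.ofReal_ne_top]
  refine tsum_congr fun H => ?_
  rw [ENNReal.toReal_ofReal (mul_nonneg (by positivity) (PP_nonneg _ _))]

/-- the constant -/
noncomputable def kap (k p : ℕ) : ℝ :=
  ∑' H : SLg (Fin k → ℤ), 1 / (H.idx : ℝ) ^ (k + 1) * (1 / (((k + p : ℕ) : ℝ) + 1))

theorem kap_pos (k p : ℕ) : 0 < kap k p := by
  obtain ⟨N₀⟩ : Nonempty (SLg (Fin k → ℤ)) := ⟨⟨⊤, by simp⟩⟩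
  refine ((zeta_summable k).mul_right _).tsum_pos (fun N => by positivity) N₀ ?_
  have : (0 : ℝ) < (N₀.idx : ℝ) := by
    exact_mod_cast N₀.idx_pos
  positivity

theorem wsum_tendsto (k p : ℕ) :
    Tendsto (fun x : ℝ => wsum (k + 1) (fun _ => 1) p x / x ^ (k + p + 1)) atTop
      (𝓝 (kap k p)) := by
  have h1 : Tendsto (fun x : ℝ => ∑' H : SLg (Fin k → ℤ),
      (H.idx : ℝ) ^ p * PP (k + p) (x / H.idx) / x ^ (k + p + 1)) atTop (𝓝 (kap k p)) := by
    refine tendsto_tsum_of_dominated_convergence (zeta_summable k) (fun H => ?_) ?_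
    · have hH : (0 : ℝ) < H.idx := by exact_mod_cast H.idx_pos
      have h2 : Tendsto (fun x : ℝ => 1 / (H.idx : ℝ) ^ (k + 1) *
          (PP (k + p) (x / H.idx) / (x / H.idx) ^ (k + p + 1))) atTop
          (𝓝 (1 / (H.idx : ℝ) ^ (k + 1) * (1 / (((k + p : ℕ) : ℝ) + 1)))) :=
        Tendsto.const_mul _ ((PP_tendsto (k + p)).comp (tendsto_id.atTop_div_const hH))
      refine h2.congr' ?_
      filter_upwards [eventually_gt_atTop 0] with x hx
      generalize PP (k + p) (x / H.idx) = P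
      rw [div_pow]
      have e : (H.idx : ℝ) ^ (k + p + 1) = (H.idx : ℝ) ^ (k + 1) * (H.idx : ℝ) ^ p := by ring
      rw [e]
      field_simp
    · filter_upwards [eventually_gt_atTop 0] with x hx H
      have hH : (0 : ℝ) < H.idx := by exact_mod_cast H.idx_pos
      rw [Real.norm_of_nonneg (div_nonneg (mul_nonneg (by positivity) (PP_nonneg _ _))
        (by positivity))]
      have h3 := PP_le (k + p) (show 0 ≤ x / H.idx by positivity)
      rw [div_le_iff₀ (by positivity)]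
      calc (H.idx : ℝ) ^ p * PP (k + p) (x / H.idx) ≤
            (H.idx : ℝ) ^ p * (x / H.idx) ^ (k + p + 1) :=
            mul_le_mul_of_nonneg_left h3 (by positivity)
        _ = _ := by
            rw [div_pow]
            have : (H.idx : ℝ) ^ (k + p + 1) = (H.idx : ℝ) ^ (k + 1) * (H.idx : ℝ) ^ p := by ring
            rw [this]
            field_simp
  refine h1.congr' ?_
  filter_upwards [eventually_ge_atTop 0] with x hx
  rw [tsum_div_const, wsum_rec k p hx]

theorem wsum_mono {k : ℕ} {w w' : SLg (Fin k → ℤ) → ℝ} (h : ∀ N, w N ≤ w' N) (p : ℕ) (x : ℝ) :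
    wsum k w p x ≤ wsum k w' p x := by
  refine (wsum_summable w p x).tsum_le_tsum (fun N => ?_) (wsum_summable w' p x)
  split_ifs
  · exact mul_le_mul_of_nonneg_right (h N) (by positivity)
  · exact le_rfl

theorem wsum_nonneg {k : ℕ} {w : SLg (Fin k → ℤ) → ℝ} (h : ∀ N, 0 ≤ w N) (p : ℕ) (x : ℝ) :
    0 ≤ wsum k w p x := by
  refine tsum_nonneg fun N => ?_
  split_ifs
  · exact mul_nonneg (h N) (by positivity)
  · exact le_rfl

theorem wsum_mono_x {k : ℕ} {w : SLg (Fin k → ℤ) → ℝ} (h : ∀ N, 0 ≤ w N) (p : ℕ) {x y : ℝ}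
    (hxy : x ≤ y) : wsum k w p x ≤ wsum k w p y := by
  refine (wsum_summable w p x).tsum_le_tsum (fun N => ?_) (wsum_summable w p y)
  split_ifs with h1 h2
  · exact le_rfl
  · exact absurd (h1.trans hxy) h2
  · exact mul_nonneg (h N) (by positivity)
  · exact le_rfl

/-- the upper bound -/
theorem wsum_le (k p : ℕ) : ∃ C : ℝ, 0 < C ∧ ∀ x : ℝ, 0 ≤ x →
    wsum k (fun _ => 1) p x ≤ C * x ^ (k + p) := by
  rcases k with _ | k
  · refine ⟨1, one_pos, fun x hx => ?_⟩
    unfold wsum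
    rw [tsum_fintype, Fintype.sum_unique]
    split_ifs with h
    · rw [one_mul, one_mul, zero_add]
      exact pow_le_pow_left₀ (by positivity) h _
    · positivity
  · set Z := ∑' H : SLg (Fin k → ℤ), 1 / (H.idx : ℝ) ^ (k + 1) with hZ
    have hZ0 : 0 ≤ Z := tsum_nonneg fun _ => by positivity
    refine ⟨Z + 1, by positivity, fun x hx => ?_⟩
    rw [wsum_rec k p hx]
    have h1 : ∀ H : SLg (Fin k → ℤ), (H.idx : ℝ) ^ p * PP (k + p) (x / H.idx) ≤
        1 / (H.idx : ℝ) ^ (k + 1) * x ^ (k + 1 + p) := by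
      intro H
      have hH : (0 : ℝ) < H.idx := by exact_mod_cast H.idx_pos
      have h3 := PP_le (k + p) (show 0 ≤ x / H.idx by positivity)
      calc (H.idx : ℝ) ^ p * PP (k + p) (x / H.idx) ≤
            (H.idx : ℝ) ^ p * (x / H.idx) ^ (k + p + 1) :=
            mul_le_mul_of_nonneg_left h3 (by positivity)
        _ = _ := by
            rw [div_pow]
            have : (H.idx : ℝ) ^ (k + p + 1) = (H.idx : ℝ) ^ (k + 1) * (H.idx : ℝ) ^ p := by ring
            rw [this]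
            field_simp
            ring
    have h2 : Summable fun H : SLg (Fin k → ℤ) => (H.idx : ℝ) ^ p * PP (k + p) (x / H.idx) :=
      Summable.of_nonneg_of_le (fun H => mul_nonneg (by positivity) (PP_nonneg _ _)) h1
        ((zeta_summable k).mul_right _)
    refine (h2.tsum_le_tsum h1 ((zeta_summable k).mul_right _)).trans ?_
    rw [tsum_mul_right]
    refine mul_le_mul_of_nonneg_right (by linarith) (by positivity)

end Run7.h3.PM
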