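import Pool.Agent.Run7.h3.PM.Lns

set_option autoImplicit false
set_option linter.unusedSectionVars false
set_option linter.unusedVariables false

/-! Matrices in a box which are unstable modulo a prime, for a singular basis matrix. -/

namespace Run7.h3.PM

open Finset Module Filter Topology Run7.h3.GT

section

variable {k m : ℕ}

/-- reduction of vectors -/
def rdv (p : ℕ) (z : Fin k → ℤ) : Fin k → ZMod p := fun i => ((z i : ℤ) : ZMod p)

theorem rdv_add (p : ℕ) (z z' : Fin k → ℤ) : rdv p (z + z') = rdv p z + rdv p z' := by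
  funext i
  simp [rdv]

theorem rdv_sub (p : ℕ) (z z' : Fin k → ℤ) : rdv p (z - z') = rdv p z - rdv p z' := by
  funext i
  simp [rdv]

theorem rdv_smul (p : ℕ) (c : ℤ) (z : Fin k → ℤ) : rdv p (c • z) = ((c : ℤ) : ZMod p) • rdv p z := by
  funext i
  simp [rdv]

theorem rdv_surj (p : ℕ) [NeZero p] (c : Fin k → ZMod p) : ∃ z, rdv p z = c := by
  choose v hv using fun i => ZMod.intCast_surjective (c i)
  exact ⟨v, funext hv⟩

/-- the integral vectors in the kernel of a functional modulo `p` -/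
def Hp (p : ℕ) (φ : (Fin k → ZMod p) →+ ZMod p) : AddSubgroup (Fin k → ℤ) where
  carrier := {z | φ (rdv p z) = 0}
  zero_mem' := by
    have : rdv p (0 : Fin k → ℤ) = 0 := by
      funext i
      simp [rdv]
    change φ (rdv p 0) = 0
    rw [this, map_zero]
  add_mem' := fun {x y} hx hy => by
    change φ (rdv p (x + y)) = 0
    rw [rdv_add, map_add]
    have h1 : φ (rdv p x) = 0 := hx
    have h2 : φ (rdv p y) = 0 := hy
    rw [h1, h2, add_zero]
  neg_mem' := fun {x} hx => by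
    change φ (rdv p (-x)) = 0
    have h1 : φ (rdv p x) = 0 := hx
    have h2 : rdv p (-x) = - rdv p x := by
      funext i
      simp [rdv]
    rw [h2, map_neg, h1, neg_zero]

theorem mem_Hp {p : ℕ} {φ : (Fin k → ZMod p) →+ ZMod p} {z : Fin k → ℤ} :
    z ∈ Hp p φ ↔ φ (rdv p z) = 0 := Iff.rfl

theorem Hp_index {p : ℕ} [Fact p.Prime] {φ : (Fin k → ZMod p) →ₗ[ZMod p] ZMod p} (hφ : φ ≠ 0) :
    (Hp p (φ : (Fin k → ZMod p) →+ ZMod p)).index = p := by
  have hs : Function.Surjective φ := LinearMap.surjective hφ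
  set ψ : (Fin k → ℤ) →+ ZMod p := AddMonoidHom.mk' (fun z => φ (rdv p z)) (fun x y => by
    rw [rdv_add, map_add]) with hψ
  have hker : ψ.ker = Hp p (φ : (Fin k → ZMod p) →+ ZMod p) := by
    ext z
    rw [AddMonoidHom.mem_ker, mem_Hp]
    rfl
  have hsurj : Function.Surjective ψ := by
    intro c
    obtain ⟨v, hv⟩ := hs c
    obtain ⟨z, hz⟩ := rdv_surj p v
    exact ⟨z, by rw [← hv, ← hz]; rfl⟩
  rw [← hker, AddSubgroup.index_ker, AddMonoidHom.range_eq_top.2 hsurj,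
    Nat.card_congr AddSubgroup.topEquiv.toEquiv, Nat.card_zmod]

theorem cube_H {V : Matrix (Fin k) (Fin k) ℤ} (hV : V.det ≠ 0) {Q : ℕ} (hQ : 0 < Q)
    {p : ℕ} [Fact p.Prime] (hpQ : ¬ p ∣ Q) {φ : (Fin k → ZMod p) →ₗ[ZMod p] ZMod p} (hφ : φ ≠ 0)
    (hφV : ∀ i, φ (rdv p fun l => V l i) = 0) (z₀ : Fin k → ℤ) (x : Fin k → ℝ) :
    (bxp V (fun z => rcn Q z₀ z ∧ φ (rdv p z) = 0) x fun i => x i + Q).Finite ∧
      (bxp V (fun z => rcn Q z₀ z ∧ φ (rdv p z) = 0) x fun i => x i + Q).ncard * p ≤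
        V.det.natAbs := by
  have hQ' : (0 : ℝ) < Q := by exact_mod_cast hQ
  have hfin : (bxp V (fun z => rcn Q z₀ z ∧ φ (rdv p z) = 0) x fun i => x i + Q).Finite :=
    (cube_res hV hQ z₀ x).1.subset fun z hz => ⟨hz.1.1, hz.2⟩
  refine ⟨hfin, ?_⟩
  rcases (bxp V (fun z => rcn Q z₀ z ∧ φ (rdv p z) = 0) x fun i => x i + Q).eq_empty_or_nonempty
    with h0 | ⟨z₁, hz₁⟩
  · rw [h0]
    simp
  set H := Hp p (φ : (Fin k → ZMod p) →+ ZMod p) with hH
  have hRV : RV V ≤ H := by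
    intro z hz
    obtain ⟨u, rfl⟩ := mem_RV.1 hz
    rw [hH, mem_Hp]
    have h1 : V.mulVec u = ∑ i, u i • fun l => V l i := by
      funext l
      rw [Finset.sum_apply]
      simp [Matrix.mulVec, dotProduct, mul_comm]
    have h2 : ∀ z : Fin k → ℤ, (φ : (Fin k → ZMod p) →+ ZMod p) (rdv p z) = φ (rdv p z) :=
      fun _ => rfl
    rw [h2, h1]
    have h3 : rdv p (∑ i, u i • fun l => V l i) =
        ∑ i, ((u i : ℤ) : ZMod p) • rdv p fun l => V l i := by
      funext l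
      simp [rdv]
    rw [h3, map_sum]
    refine sum_eq_zero fun i _ => ?_
    rw [map_smul, hφV i, smul_zero]
  obtain ⟨h1, h2⟩ := card_cube hV H hRV 0 (fun i => (x i - cf V z₁ i) / Q)
  rw [hH, Hp_index hφ, ← hH] at h2
  rw [← h2]
  refine Nat.mul_le_mul_right _ ?_
  have hsub : (bxp V (fun z => rcn Q z₀ z ∧ φ (rdv p z) = 0) x fun i => x i + Q) ⊆
      (fun w : Fin k → ℤ => z₁ + (Q : ℤ) • w) '' {w : Fin k → ℤ | w - 0 ∈ H ∧
        ∀ i, cf V w i ∈ Set.Ioc ((x i - cf V z₁ i) / Q) ((x i - cf V z₁ i) / Q + 1)} := by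
    rintro z ⟨⟨hz1, hz2⟩, hz3⟩
    have hd : ∀ i, (Q : ℤ) ∣ z i - z₁ i := by
      intro i
      have := dvd_sub (hz1 i) (hz₁.1.1 i)
      rwa [sub_sub_sub_cancel_right] at this
    choose w hw using hd
    have hz : z = z₁ + (Q : ℤ) • w := by
      funext i
      have := hw i
      simp only [Pi.add_apply, Pi.smul_apply, smul_eq_mul]
      linarith
    refine ⟨w, ⟨?_, fun i => ?_⟩, hz.symm⟩
    · rw [sub_zero, hH, mem_Hp]
      change φ (rdv p w) = 0
      have h3 : φ (rdv p z) = φ (rdv p z₁) + (((Q : ℤ) : ℤ) : ZMod p) * φ (rdv p w) := by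
        rw [hz, rdv_add, rdv_smul, map_add, map_smul, smul_eq_mul]
      rw [hz2, hz₁.1.2, zero_add] at h3
      rcases mul_eq_zero.1 h3.symm with h4 | h4
      · exfalso
        rw [Int.cast_natCast, ZMod.natCast_eq_zero_iff] at h4
        exact hpQ h4
      · exact h4
    · have h4 := hz3 i
      rw [hz, cf_add, cf_smul] at h4
      simp only [Pi.add_apply, Pi.smul_apply, smul_eq_mul, Set.mem_Ioc, Int.cast_natCast] at h4
      rw [Set.mem_Ioc, div_lt_iff₀ hQ', ← sub_le_iff_le_add, le_div_iff₀ hQ']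
      constructor
      · linarith
      · linarith
  exact (Set.ncard_le_ncard hsub (h1.image _)).trans (Set.ncard_image_le h1)

/-- the expected bound for the number of points -/
noncomputable def CC (V : Matrix (Fin k) (Fin k) ℤ) (Q : ℕ) (a b : Fin k → Fin m → ℝ) : ℕ :=
  V.det.natAbs ^ m * ∏ j, ∏ i, ⌈(b i j - a i j) / Q⌉₊

theorem BX_H {V : Matrix (Fin k) (Fin k) ℤ} (hV : V.det ≠ 0) {Q : ℕ} (hQ : 0 < Q)
    {p : ℕ} [Fact p.Prime] (hpQ : ¬ p ∣ Q) {φ : (Fin k → ZMod p) →ₗ[ZMod p] ZMod p} (hφ : φ ≠ 0)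
    (hφV : ∀ i, φ (rdv p fun l => V l i) = 0) (Z₀ : Fin m → Fin k → ℤ)
    (a b : Fin k → Fin m → ℝ) (j : Fin m) :
    {Z ∈ BX V Q Z₀ a b | φ (rdv p (Z j)) = 0}.ncard * p ≤ CC V Q a b := by
  classical
  have hp : 0 < p := (Fact.out : p.Prime).pos
  set A : Fin m → (Fin k → ℤ) → Prop := fun j' z => rcn Q (Z₀ j') z ∧ (j' = j → φ (rdv p z) = 0)
    with hA
  have heq : {Z ∈ BX V Q Z₀ a b | φ (rdv p (Z j)) = 0} =
      Set.pi Set.univ fun j' => bxp V (A j') (fun i => a i j') (fun i => b i j') := by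
    ext Z
    rw [Set.mem_univ_pi]
    constructor
    · rintro ⟨h1, h2⟩ j'
      refine ⟨⟨(h1 j').1, ?_⟩, (h1 j').2⟩
      rintro rfl
      exact h2
    · intro h
      exact ⟨fun j' => ⟨(h j').1.1, (h j').2⟩, (h j).1.2 rfl⟩
  have hfin : ∀ j', (bxp V (A j') (fun i => a i j') (fun i => b i j')).Finite := fun j' =>
    (bxp_res_fin hV hQ (Z₀ j') _ _).subset fun z hz => ⟨hz.1.1, hz.2⟩
  rw [heq, ncard_pi _ hfin, ← mul_prod_erase univ _ (mem_univ j)]
  have h1 : (bxp V (A j) (fun i => a i j) (fun i => b i j)).ncard * p ≤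
      V.det.natAbs * ∏ i, ⌈(b i j - a i j) / Q⌉₊ := by
    have hAj : A j = fun z => rcn Q (Z₀ j) z ∧ φ (rdv p z) = 0 := by
      funext z
      simp [hA]
    rw [hAj]
    have h2 := (bxp_le (V := V) (A := fun z => rcn Q (Z₀ j) z ∧ φ (rdv p z) = 0) hQ
      (c := V.det.natAbs / p) (fun x => ⟨(cube_H hV hQ hpQ hφ hφV (Z₀ j) x).1, by
        rw [Nat.le_div_iff_mul_le hp]
        exact (cube_H hV hQ hpQ hφ hφV (Z₀ j) x).2⟩) (fun i => a i j) fun i => b i j).2
    calc _ ≤ V.det.natAbs / p * (∏ i, ⌈(b i j - a i j) / Q⌉₊) * p := Nat.mul_le_mul_right _ h2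
      _ = V.det.natAbs / p * p * ∏ i, ⌈(b i j - a i j) / Q⌉₊ := by ring
      _ ≤ _ := Nat.mul_le_mul_right _ (Nat.div_mul_le_self _ _)
  have h2 : ∏ j' ∈ univ.erase j, (bxp V (A j') (fun i => a i j') (fun i => b i j')).ncard ≤
      ∏ j' ∈ univ.erase j, (V.det.natAbs * ∏ i, ⌈(b i j' - a i j') / Q⌉₊) := by
    refine prod_le_prod' fun j' _ => ?_
    have h4 : bxp V (A j') (fun i => a i j') (fun i => b i j') ⊆
        bxp V (rcn Q (Z₀ j')) (fun i => a i j') (fun i => b i j') := fun z hz => ⟨hz.1.1, hz.2⟩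
    exact (Set.ncard_le_ncard h4
      (bxp_res_fin hV hQ (Z₀ j') _ _)).trans (bxp_res_le hV hQ (Z₀ j') _ _)
  have h3 : CC V Q a b = (V.det.natAbs * ∏ i, ⌈(b i j - a i j) / Q⌉₊) *
      ∏ j' ∈ univ.erase j, (V.det.natAbs * ∏ i, ⌈(b i j' - a i j') / Q⌉₊) := by
    rw [mul_prod_erase univ (fun j' => V.det.natAbs * ∏ i, ⌈(b i j' - a i j') / Q⌉₊) (mem_univ j),
      prod_mul_distrib, prod_const, card_univ, Fintype.card_fin]
    rfl
  rw [h3]
  calc _ = (bxp V (A j) (fun i => a i j) (fun i => b i j)).ncard * p *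
        ∏ j' ∈ univ.erase j, (bxp V (A j') (fun i => a i j') (fun i => b i j')).ncard := by ring
    _ ≤ _ := Nat.mul_le_mul h1 h2

theorem red_col_inr (p : ℕ) (V : Matrix (Fin k) (Fin k) ℤ) (Z : Fin m → Fin k → ℤ) (j : Fin m) :
    (red p (MM V Z)).col (Sum.inr j) = rdv p (Z j) := rfl

theorem red_col_inl (p : ℕ) (V : Matrix (Fin k) (Fin k) ℤ) (Z : Fin m → Fin k → ℤ) (i : Fin k) :
    (red p (MM V Z)).col (Sum.inl i) = rdv p fun l => V l i := rfl

theorem span_shf (p : ℕ) (V : Matrix (Fin k) (Fin k) ℤ) (Q : ℕ) {i : Fin k} {j : Fin m}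
    {T : Set (Fin k ⊕ Fin m)} (hj : Sum.inr j ∉ T) (t : ℤ) (Z : Fin m → Fin k → ℤ) :
    (red p (MM V (shf V Q i j t Z))).col '' T = (red p (MM V Z)).col '' T := by
  refine Set.image_congr fun x hx => ?_
  rcases x with i' | j'
  · rfl
  · rw [red_col_inr, red_col_inr, shf_of_ne]
    rintro rfl
    exact hj hx

/-- the event for singular matrices -/
theorem sing_event (hk : 2 ≤ k) {V : Matrix (Fin k) (Fin k) ℤ} (hV : V.det ≠ 0) {Q : ℕ}
    (hQ : 0 < Q) (Z₀ : Fin m → Fin k → ℤ)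
    (a b : Fin k → Fin m → ℝ) {lam : ℕ} (hlam : 1 ≤ lam)
    (hl : ∀ i j, lam ≤ ⌊(b i j - a i j) / Q⌋₊) {p : ℕ} (hp : p.Prime) (hpQ : ¬ p ∣ Q)
    (hpD : (p : ℤ) ∣ V.det)
    (hker : ∀ u : Fin k → ZMod p, (red p V).mulVec u = 0 → u ≠ 0 → ∀ i, u i ≠ 0)
    {j : Fin m} {T : Set (Fin k ⊕ Fin m)} (hT : T.ncard < k) (hj : Sum.inr j ∉ T) :
    ({Z ∈ BX V Q Z₀ a b | haveI : Fact p.Prime := ⟨hp⟩; (red p (MM V Z)).col (Sum.inr j) ∈
      Submodule.span (ZMod p) ((red p (MM V Z)).col '' T)}.ncard : ℝ) ≤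
      (k * (2 / p + 1 / lam) + 1 / p) * (CC V Q a b : ℝ) := by
  classical
  have : Fact p.Prime := ⟨hp⟩
  have hp0 : (0 : ℝ) < p := by exact_mod_cast hp.pos
  have hfin := BX_fin hV hQ Z₀ a b
  set W : (Fin m → Fin k → ℤ) → Submodule (ZMod p) (Fin k → ZMod p) :=
    fun Z => Submodule.span (ZMod p) ((red p (MM V Z)).col '' T) with hW
  have hWs : ∀ Z i t, W (shf V Q i j t Z) = W Z := by
    intro Z i t
    simp only [hW]
    rw [span_shf p V Q hj]
  -- first case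
  have h1 : ∀ i, ({Z ∈ BX V Q Z₀ a b | (rdv p fun l => V l i) ∉ W Z ∧
      rdv p (Z j) ∈ W Z}.ncard : ℝ) ≤ (2 / p + 1 / lam) * ((BX V Q Z₀ a b).ncard : ℝ) := by
    intro i
    have e1 := line_real hV hQ Z₀ a b hlam (hl i j)
      (fun Z => (rdv p fun l => V l i) ∉ W Z) (fun Z => rdv p (Z j) ∈ W Z)
      (fun Z t h => by rw [hWs]; exact h) hp.pos 1
      (fun Z hZ hR => by
        rw [one_mul]
        rcases Set.eq_empty_or_nonempty {t : ℤ | shf V Q i j t Z ∈ BX V Q Z₀ a b ∧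
          rdv p (shf V Q i j t Z j) ∈ W (shf V Q i j t Z)} with h0 | ⟨t₀, ht₀⟩
        · rw [h0]
          simp
        · obtain ⟨g1, g2⟩ := ioc_res hQ hp.pos (a i j) (b i j) (cf V (Z j) i) t₀
          refine (Set.ncard_le_ncard ?_ g1).trans g2
          rintro t ⟨ht1, ht2⟩
          refine ⟨?_, ?_⟩
          · have h6 := (ht1 j).2 i
            rw [cf_shf hV, if_pos rfl] at h6
            exact h6
          · by_contra hnd
            have h7 := ht₀.2
            rw [hWs] at ht2 h7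
            have h8 := (W Z).sub_mem ht2 h7
            rw [shf_self, shf_self, ← rdv_sub] at h8
            have h9 : (Z j + (t * Q) • fun l => V l i) - (Z j + (t₀ * Q) • fun l => V l i) =
                ((t - t₀) * Q) • fun l => V l i := by
              funext l
              simp only [Pi.sub_apply, Pi.add_apply, Pi.smul_apply, smul_eq_mul]
              ring
            rw [h9, rdv_smul] at h8
            have h10 : ((((t - t₀) * Q : ℤ)) : ZMod p) ≠ 0 := by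
              rw [ne_eq, ZMod.intCast_zmod_eq_zero_iff_dvd]
              intro h
              rcases (Nat.prime_iff_prime_int.1 hp).dvd_or_dvd h with h | h
              · exact hnd h
              · exact hpQ (Int.natCast_dvd_natCast.1 h)
            exact hR (((W Z).smul_mem_iff h10).1 h8))
    rw [Nat.cast_one, one_mul] at e1
    refine e1.trans (mul_le_mul_of_nonneg_left ?_ (by positivity))
    exact_mod_cast Set.ncard_le_ncard (Set.sep_subset _ _) hfin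
  -- second case
  have hdet : (red p V).det = 0 := by
    have h2 : (red p V).det = ((V.det : ℤ) : ZMod p) := ((Int.castRingHom (ZMod p)).map_det V).symm
    rw [h2]
    exact (ZMod.intCast_zmod_eq_zero_iff_dvd _ _).2 hpD
  obtain ⟨φ, hφ0, hφ1, hφ2⟩ := exists_fun hk hdet hker
  have h2 := BX_H hV hQ hpQ hφ0 hφ1 Z₀ a b j
  have h3 : ({Z ∈ BX V Q Z₀ a b | φ (rdv p (Z j)) = 0}.ncard : ℝ) ≤ 1 / p * (CC V Q a b : ℝ) := by
    rw [one_div, inv_mul_eq_div, le_div_iff₀ hp0]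
    exact_mod_cast h2
  have hsub : {Z ∈ BX V Q Z₀ a b | (red p (MM V Z)).col (Sum.inr j) ∈
      Submodule.span (ZMod p) ((red p (MM V Z)).col '' T)} ⊆
      (⋃ i ∈ (univ : Finset (Fin k)), {Z ∈ BX V Q Z₀ a b | (rdv p fun l => V l i) ∉ W Z ∧
        rdv p (Z j) ∈ W Z}) ∪ {Z ∈ BX V Q Z₀ a b | φ (rdv p (Z j)) = 0} := by
    rintro Z ⟨hZ, hZ2⟩
    by_cases hall : ∀ i, (rdv p fun l => V l i) ∈ W Z
    · right
      refine ⟨hZ, hφ2 (W Z) hall ?_ _ hZ2⟩
      intro htop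
      have h4 : finrank (ZMod p) (W Z) ≤ T.ncard := by
        have h5 : ((red p (MM V Z)).col '' T).ncard ≤ T.ncard := Set.ncard_image_le (Set.toFinite _)
        refine le_trans ?_ h5
        have h6 := finrank_span_le_card (R := ZMod p) ((red p (MM V Z)).col '' T)
        rwa [← Set.ncard_eq_toFinset_card'] at h6
      rw [htop, finrank_top, Module.finrank_fin_fun] at h4
      omega
    · left
      push Not at hall
      obtain ⟨i, hi⟩ := hall
      rw [Set.mem_iUnion₂]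
      exact ⟨i, mem_univ _, hZ, hi, hZ2⟩
  have hfin2 : ((⋃ i ∈ (univ : Finset (Fin k)), {Z ∈ BX V Q Z₀ a b | (rdv p fun l => V l i) ∉ W Z ∧
        rdv p (Z j) ∈ W Z}) ∪ {Z ∈ BX V Q Z₀ a b | φ (rdv p (Z j)) = 0}).Finite := by
    refine hfin.subset ?_
    rintro Z (hZ | hZ)
    · rw [Set.mem_iUnion₂] at hZ
      obtain ⟨i, -, hZ⟩ := hZ
      exact hZ.1
    · exact hZ.1
  have h4 := (Set.ncard_le_ncard hsub hfin2).trans (Set.ncard_union_le _ _)
  have h5 := ncard_biU (univ : Finset (Fin k)) (fun i => {Z ∈ BX V Q Z₀ a b |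
    (rdv p fun l => V l i) ∉ W Z ∧ rdv p (Z j) ∈ W Z}) _ subset_rfl
    (fun i _ => hfin.subset (Set.sep_subset _ _))
  have h6 : ((BX V Q Z₀ a b).ncard : ℝ) ≤ (CC V Q a b : ℝ) := by
    exact_mod_cast BX_le hV hQ Z₀ a b
  have h7 : (({Z ∈ BX V Q Z₀ a b | (red p (MM V Z)).col (Sum.inr j) ∈
      Submodule.span (ZMod p) ((red p (MM V Z)).col '' T)}.ncard : ℕ) : ℝ) ≤
      ((∑ i : Fin k, {Z ∈ BX V Q Z₀ a b | (rdv p fun l => V l i) ∉ W Z ∧
        rdv p (Z j) ∈ W Z}.ncard : ℕ) : ℝ) + (({Z ∈ BX V Q Z₀ a b | φ (rdv p (Z j)) = 0}.ncard : ℕ) : ℝ) := by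
    exact_mod_cast h4.trans (Nat.add_le_add_right h5 _)
  refine h7.trans ?_
  push_cast
  have h8 : ∑ i : Fin k, ({Z ∈ BX V Q Z₀ a b | (rdv p fun l => V l i) ∉ W Z ∧
        rdv p (Z j) ∈ W Z}.ncard : ℝ) ≤ k * ((2 / p + 1 / lam) * (CC V Q a b : ℝ)) := by
    refine (sum_le_sum fun i _ => (h1 i).trans (mul_le_mul_of_nonneg_left h6
      (by positivity))).trans (le_of_eq ?_)
    rw [sum_const, card_univ, Fintype.card_fin, nsmul_eq_mul]
  linarith

end

end Run7.h3.PM
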