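import Pool.Agent.Run7.h3.GT.Defs

set_option autoImplicit false
set_option linter.unusedSectionVars false
set_option linter.unusedVariables false

/-! Unstable matrices over a field. -/

namespace Run7.h3.PM

open Finset Module Run7.h3.GT

/-- the weight of a set -/
noncomputable def tw {ι : Type} [Fintype ι] (θ : ι → ℕ) (S : Set ι) : ℕ := ∑ x, S.indicator θ x

/-- semistability of the columns of a matrix -/
def Sst {K : Type} [Field K] {k : ℕ} {ι : Type} [Fintype ι] (θ : ι → ℕ)
    (M : Matrix (Fin k) ι K) : Prop :=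
  ∀ W : Submodule K (Fin k → K), k * tw θ {x : ι | M.col x ∈ W} ≤ (∑ x, θ x) * finrank K W

/-- admissible weights -/
structure Adm (k : ℕ) {ι : Type} [Fintype ι] (θ : ι → ℕ) : Prop where
  pos : ∀ x, 0 < θ x
  gen : ∀ (S : Set ι) (r : ℕ), r < k → k * tw θ S = (∑ x, θ x) * r → r = 0
  near : ∀ (S : Set ι) (r : ℕ), (∑ x, θ x) * r < k * tw θ S → Fintype.card ι * r ≤ k * S.ncard
  near' : ∀ (S : Set ι) (r : ℕ), r ≤ k → Fintype.card ι * r < k * S.ncard →
    (∑ x, θ x) * r < k * tw θ S

theorem tw_mono {ι : Type} [Fintype ι] (θ : ι → ℕ) {S T : Set ι} (h : S ⊆ T) :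
    tw θ S ≤ tw θ T := by
  unfold tw
  exact sum_le_sum fun x _ => Set.indicator_le_indicator_of_subset h (fun _ => Nat.zero_le _) x

theorem tw_le {ι : Type} [Fintype ι] (θ : ι → ℕ) (S : Set ι) : tw θ S ≤ ∑ x, θ x := by
  unfold tw
  exact sum_le_sum fun x _ => Set.indicator_le_self' (fun _ _ => Nat.zero_le _) x

theorem tw_empty {ι : Type} [Fintype ι] (θ : ι → ℕ) : tw θ ∅ = 0 := by
  unfold tw
  simp

theorem tw_univ {ι : Type} [Fintype ι] (θ : ι → ℕ) : tw θ Set.univ = ∑ x, θ x := by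
  unfold tw
  simp

theorem le_tw {ι : Type} [Fintype ι] (θ : ι → ℕ) {S : Set ι} {x : ι} (hx : x ∈ S) :
    θ x ≤ tw θ S := by
  unfold tw
  refine le_trans (le_of_eq ?_) (single_le_sum (f := fun x => S.indicator θ x)
    (fun _ _ => Nat.zero_le _) (mem_univ x))
  exact (Set.indicator_of_mem hx θ).symm

theorem tw_compl {ι : Type} [Fintype ι] (θ : ι → ℕ) (S : Set ι) :
    tw θ S + tw θ Sᶜ = ∑ x, θ x := by
  unfold tw
  rw [← sum_add_distrib]
  refine sum_congr rfl fun x _ => ?_
  exact congrFun (Set.indicator_self_add_compl S θ) x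

theorem Adm.le_sum {k : ℕ} {ι : Type} [Fintype ι] {θ : ι → ℕ} (h : Adm k θ)
    (hki : k < Fintype.card ι) (x : ι) : k * θ x ≤ ∑ x, θ x := by
  by_contra hc
  push Not at hc
  have h1 := h.near {x} 1 (by
    rw [mul_one]
    exact hc.trans_le (Nat.mul_le_mul_left _ (le_tw θ (Set.mem_singleton x))))
  rw [Set.ncard_singleton] at h1
  omega

theorem Adm.use {k : ℕ} {ι : Type} [Fintype ι] {θ : ι → ℕ} (h : Adm k θ) {S : Set ι} {r : ℕ}
    (hS : (∑ x, θ x) * r < k * tw θ S) :
    Fintype.card ι * r ≤ k * S.ncard ∧ r < k ∧ 0 < S.ncard := by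
  refine ⟨h.near S r hS, ?_, ?_⟩
  · by_contra hc
    push Not at hc
    have h1 := tw_le θ S
    have h2 : k * tw θ S ≤ k * ∑ x, θ x := Nat.mul_le_mul_left _ h1
    have h3 : (∑ x, θ x) * k ≤ (∑ x, θ x) * r := Nat.mul_le_mul_left _ hc
    have h4 : k * ∑ x, θ x = (∑ x, θ x) * k := mul_comm _ _
    omega
  · rw [Set.ncard_pos]
    by_contra hc
    rw [Set.not_nonempty_iff_eq_empty] at hc
    rw [hc, tw_empty, mul_zero] at hS
    omega

section

variable {K : Type} [Field K] {k : ℕ} {ι : Type} [Fintype ι] {θ : ι → ℕ}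

theorem rk_indep {E : Type} [AddCommGroup E] [Module K E] {v : ι → E} {s : Set ι}
    (h : LinearIndepOn K v s) : finrank K (Submodule.span K (v '' s)) = s.ncard := by
  classical
  have h1 : LinearIndependent K fun x : s => v x := h
  have h2 := finrank_span_eq_card h1
  have h3 : Set.range (fun x : s => v x) = v '' s := by
    ext y
    simp
  rw [h3] at h2
  rw [h2, Set.ncard_eq_toFinset_card' s, Set.toFinset_card]

theorem exists_S {M : Matrix (Fin k) ι K} (h : ¬ Sst θ M) : ∃ S : Set ι,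
    (∀ x, M.col x ∈ Submodule.span K (M.col '' S) → x ∈ S) ∧
    (∑ x, θ x) * finrank K (Submodule.span K (M.col '' S)) < k * tw θ S := by
  unfold Sst at h
  push Not at h
  obtain ⟨W, hW⟩ := h
  set S := {x : ι | M.col x ∈ W} with hS
  have hle : Submodule.span K (M.col '' S) ≤ W := by
    rw [Submodule.span_le]
    rintro _ ⟨x, hx, rfl⟩
    exact hx
  refine ⟨S, fun x hx => hle hx, lt_of_le_of_lt ?_ hW⟩
  exact Nat.mul_le_mul_left _ (Submodule.finrank_mono hle)

theorem mnr_ne_iff (M : Matrix (Fin k) ι K) (f : Fin k → ι) :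
    mnr M f ≠ 0 ↔ LinearIndependent K fun l => M.col (f l) := by
  have h1 : (M.submatrix id f).col = fun l => M.col (f l) := rfl
  rw [← h1, Matrix.linearIndependent_cols_iff_isUnit, Matrix.isUnit_iff_isUnit_det,
    isUnit_iff_ne_zero]
  rfl

end

section

variable {K : Type} [Field K] {k m : ℕ} {θ : Fin k ⊕ Fin m → ℕ}

theorem unst_unit (hk : 2 ≤ k) (hm : 2 ≤ m) (h5 : 5 ≤ k + m) (hθ : Adm k θ)
    {M : Matrix (Fin k) (Fin k ⊕ Fin m) K} (hV : mnr M Sum.inl ≠ 0) (h : ¬ Sst θ M) :
    ∃ (f : Fin k → Fin k ⊕ Fin m) (l₁ l₂ i₁ i₂ : Fin k) (j₁ j₂ : Fin m), mnr M f ≠ 0 ∧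
      f l₁ = Sum.inl i₁ ∧ f l₂ = Sum.inl i₂ ∧ (∀ l, f l ≠ Sum.inr j₁) ∧ (∀ l, f l ≠ Sum.inr j₂) ∧
      (l₁, j₁) ≠ (l₂, j₂) ∧ mnr M (Function.update f l₁ (Sum.inr j₁)) = 0 ∧
      mnr M (Function.update f l₂ (Sum.inr j₂)) = 0 := by
  classical
  obtain ⟨S, hS1, hS2⟩ := exists_S h
  obtain ⟨hS2, hrk, hSne⟩ := hθ.use hS2
  set v : Fin k ⊕ Fin m → (Fin k → K) := M.col with hv
  have hLI := (mnr_ne_iff M _).1 hV
  have hLI' : LinearIndepOn K v (Set.range (Sum.inl : Fin k → Fin k ⊕ Fin m)) :=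
    (linearIndepOn_range_iff Sum.inl_injective v).2 hLI
  set A₀ : Set (Fin k ⊕ Fin m) := S ∩ Set.range Sum.inl with hA₀
  have hA₀i : LinearIndepOn K v A₀ := hLI'.mono Set.inter_subset_right
  have hA₀S : A₀ ⊆ S := Set.inter_subset_left
  set A₁ := hA₀i.extend hA₀S with hA₁
  have h01 : A₀ ⊆ A₁ := hA₀i.subset_extend hA₀S
  have h1S : A₁ ⊆ S := hA₀i.extend_subset hA₀S
  have hA₁i : LinearIndepOn K v A₁ := hA₀i.linearIndepOn_extend hA₀S
  have hA₁s : Submodule.span K (v '' A₁) = Submodule.span K (v '' S) :=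
    hA₀i.span_image_extend_eq_span_image hA₀S
  have h1u : A₁ ⊆ A₁ ∪ Set.range (Sum.inl : Fin k → Fin k ⊕ Fin m) := Set.subset_union_left
  set A₂ := hA₁i.extend h1u with hA₂
  have h12 : A₁ ⊆ A₂ := hA₁i.subset_extend h1u
  have h2u : A₂ ⊆ A₁ ∪ Set.range Sum.inl := hA₁i.extend_subset h1u
  have hA₂i : LinearIndepOn K v A₂ := hA₁i.linearIndepOn_extend h1u
  have hA₂s : Submodule.span K (v '' A₂) = ⊤ := by
    rw [hA₁i.span_image_extend_eq_span_image h1u, eq_top_iff]
    have h3 : finrank K (Submodule.span K (v '' Set.range (Sum.inl : Fin k → Fin k ⊕ Fin m))) = k := by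
      rw [rk_indep hLI']
      rw [← Set.image_univ, Set.ncard_image_of_injective _ Sum.inl_injective, Set.ncard_univ,
        Nat.card_eq_fintype_card, Fintype.card_fin]
    have h4 : Submodule.span K (v '' Set.range (Sum.inl : Fin k → Fin k ⊕ Fin m)) = ⊤ :=
      Submodule.eq_top_of_finrank_eq (by rw [h3]; simp)
    rw [← h4]
    exact Submodule.span_mono (Set.image_mono Set.subset_union_right)
  have hA₂c : A₂.ncard = k := by
    rw [← rk_indep hA₂i, hA₂s]
    simp
  -- the function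
  obtain ⟨e⟩ : Nonempty (Fin k ≃ A₂) := by
    refine ⟨(Fintype.equivFinOfCardEq ?_).symm⟩
    rw [← Nat.card_eq_fintype_card]
    exact hA₂c
  set f : Fin k → Fin k ⊕ Fin m := fun l => (e l : Fin k ⊕ Fin m) with hf
  have hfi : Function.Injective f := fun a b hab => e.injective (Subtype.ext hab)
  have hfr : ∀ x, x ∈ A₂ ↔ ∃ l, f l = x := by
    intro x
    constructor
    · intro hx
      exact ⟨e.symm ⟨x, hx⟩, by simp [hf]⟩
    · rintro ⟨l, rfl⟩
      exact (e l).2
  have hmf : mnr M f ≠ 0 := by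
    rw [mnr_ne_iff]
    exact LinearIndependent.comp hA₂i e e.injective
  -- zero minors
  have hzero : ∀ l x, f l ∉ A₁ → x ∈ S → mnr M (Function.update f l x) = 0 := by
    intro l x hl hx
    by_contra hne
    rw [← ne_eq, mnr_ne_iff] at hne
    have h3 := hne.notMem_span_image (s := {l}ᶜ) (x := l) (by simp)
    simp only [Function.update_self] at h3
    apply h3
    have h4 : v x ∈ Submodule.span K (v '' A₁) := by
      rw [hA₁s]
      exact Submodule.subset_span ⟨x, hx, rfl⟩
    refine Submodule.span_mono ?_ h4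
    rintro _ ⟨y, hy, rfl⟩
    obtain ⟨l', hl'⟩ := (hfr y).1 (h12 hy)
    have hne' : l' ≠ l := by
      rintro rfl
      exact hl (hl' ▸ hy)
    refine ⟨l', by simpa using hne', ?_⟩
    simp only
    rw [Function.update_of_ne hne', hl']
  set L : Finset (Fin k) := univ.filter fun l => f l ∉ A₁ with hL
  set J : Finset (Fin m) := univ.filter fun j => (Sum.inr j : Fin k ⊕ Fin m) ∈ S ∧
    (Sum.inr j : Fin k ⊕ Fin m) ∉ A₁ with hJ
  have hLc : A₁.ncard + L.card = k := by
    have h3 : A₁ = f '' {l | f l ∈ A₁} := by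
      ext x
      constructor
      · intro hx
        obtain ⟨l, hl⟩ := (hfr x).1 (h12 hx)
        exact ⟨l, by change f l ∈ A₁; rw [hl]; exact hx, hl⟩
      · rintro ⟨l, hl, rfl⟩
        exact hl
    have h4 : A₁.ncard = (univ.filter fun l => f l ∈ A₁).card := by
      rw [h3, Set.ncard_image_of_injective _ hfi, ← h3, ← Set.ncard_coe_finset]
      congr 1
      ext l
      simp
    rw [h4, hL]
    have := card_filter_add_card_filter_not (s := (univ : Finset (Fin k))) (fun l => f l ∈ A₁)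
    rw [this, card_univ, Fintype.card_fin]
  have hJc : S.ncard = A₁.ncard + J.card := by
    have h3 : S \ A₁ = Sum.inr '' (J : Set (Fin m)) := by
      ext x
      constructor
      · rintro ⟨hx1, hx2⟩
        rcases x with i | j
        · exact absurd (h01 ⟨hx1, i, rfl⟩) hx2
        · exact ⟨j, by rw [hJ, mem_coe, mem_filter]; exact ⟨mem_univ _, hx1, hx2⟩, rfl⟩
      · rintro ⟨j, hj, rfl⟩
        rw [hJ, mem_coe, mem_filter] at hj
        exact hj.2
    rw [← Set.ncard_sdiff_add_ncard_of_subset h1S, h3, Set.ncard_image_of_injective _ Sum.inr_injective,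
      Set.ncard_coe_finset]
    ring
  have hr : finrank K (Submodule.span K (v '' S)) = A₁.ncard := by
    rw [← hA₁s, rk_indep hA₁i]
  rw [hr] at hrk
  rw [hr, hJc, Fintype.card_sum, Fintype.card_fin, Fintype.card_fin] at hS2
  have hJm : J.card ≤ m := by
    have := card_le_univ J
    rwa [Fintype.card_fin] at this
  have hLJ : 1 < (L ×ˢ J).card := by
    rw [card_product]
    by_contra hc
    push Not at hc
    have hmr : m * A₁.ncard ≤ k * J.card := by nlinarith
    have hJ0 : 0 < J.card := by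
      rcases Nat.eq_zero_or_pos J.card with h0 | h0
      · rw [h0, mul_zero] at hmr
        have h1 : A₁.ncard = 0 := by
          rcases Nat.mul_eq_zero.1 (Nat.le_zero.1 hmr) with h2 | h2
          · omega
          · exact h2
        rw [hJc, h1, h0] at hSne
        omega
      · exact h0
    have hL0 : 0 < L.card := by omega
    have hL1 : L.card = 1 := by nlinarith
    have hJ1 : J.card = 1 := by nlinarith
    rw [hL1] at hLc
    rw [hJ1] at hmr
    obtain ⟨k', rfl⟩ : ∃ k', k = k' + 2 := ⟨k - 2, by omega⟩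
    have hA : A₁.ncard = k' + 1 := by omega
    rw [hA] at hmr
    rcases Nat.eq_zero_or_pos k' with h0 | h0
    · subst h0
      omega
    · have h6 : 2 * (k' + 1) ≤ m * (k' + 1) := Nat.mul_le_mul_right _ hm
      omega
  obtain ⟨⟨l₁, j₁⟩, h1, ⟨l₂, j₂⟩, h2, hne⟩ := Finset.one_lt_card.1 hLJ
  rw [mem_product, hL, hJ, mem_filter, mem_filter] at h1 h2
  have hinl : ∀ l, f l ∉ A₁ → ∃ i, f l = Sum.inl i := by
    intro l hl
    rcases h2u ((hfr (f l)).2 ⟨l, rfl⟩) with h3 | ⟨i, hi⟩
    · exact absurd h3 hl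
    · exact ⟨i, hi.symm⟩
  obtain ⟨i₁, hi₁⟩ := hinl l₁ h1.1.2
  obtain ⟨i₂, hi₂⟩ := hinl l₂ h2.1.2
  have hnr : ∀ j : Fin m, (Sum.inr j : Fin k ⊕ Fin m) ∉ A₁ → ∀ l, f l ≠ Sum.inr j := by
    intro j hj l hl
    by_cases h3 : f l ∈ A₁
    · rw [hl] at h3
      exact hj h3
    · obtain ⟨i, hi⟩ := hinl l h3
      rw [hi] at hl
      exact Sum.inl_ne_inr hl
  exact ⟨f, l₁, l₂, i₁, i₂, j₁, j₂, hmf, hi₁, hi₂, hnr j₁ h1.2.2.2, hnr j₂ h2.2.2.2, hne,
    hzero l₁ _ h1.1.2 h1.2.2.1, hzero l₂ _ h2.1.2 h2.2.2.1⟩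

/-- singular, with kernel vectors of full support -/
theorem unst_sing (hk : 2 ≤ k) (hm : 2 ≤ m) (h5 : 5 ≤ k + m) (hθ : Adm k θ)
    {M : Matrix (Fin k) (Fin k ⊕ Fin m) K}
    (hker : ∀ u : Fin k → K, (M.submatrix id Sum.inl).mulVec u = 0 → u ≠ 0 → ∀ i, u i ≠ 0)
    (h : ¬ Sst θ M) :
    ∃ (j : Fin m) (T : Set (Fin k ⊕ Fin m)), T.ncard < k ∧ Sum.inr j ∉ T ∧
      M.col (Sum.inr j) ∈ Submodule.span K (M.col '' T) := by
  classical
  obtain ⟨S, hS1, hS2⟩ := exists_S h
  obtain ⟨hS2, hrk, hSne⟩ := hθ.use hS2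
  set v : Fin k ⊕ Fin m → (Fin k → K) := M.col with hv
  set SV : Set (Fin k ⊕ Fin m) := S ∩ Set.range Sum.inl with hSV
  have he : LinearIndepOn K v (∅ : Set (Fin k ⊕ Fin m)) := linearIndepOn_empty K v
  set B₀ := he.extend (Set.empty_subset SV) with hB₀
  have hB₀S : B₀ ⊆ SV := he.extend_subset _
  have hB₀i : LinearIndepOn K v B₀ := he.linearIndepOn_extend _
  have hB₀s : Submodule.span K (v '' B₀) = Submodule.span K (v '' SV) :=
    he.span_image_extend_eq_span_image _
  have hBS : B₀ ⊆ S := hB₀S.trans Set.inter_subset_left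
  set A₁ := hB₀i.extend hBS with hA₁
  have h01 : B₀ ⊆ A₁ := hB₀i.subset_extend hBS
  have h1S : A₁ ⊆ S := hB₀i.extend_subset hBS
  have hA₁i : LinearIndepOn K v A₁ := hB₀i.linearIndepOn_extend hBS
  have hA₁s : Submodule.span K (v '' A₁) = Submodule.span K (v '' S) :=
    hB₀i.span_image_extend_eq_span_image hBS
  have hr : finrank K (Submodule.span K (v '' S)) = A₁.ncard := by
    rw [← hA₁s, rk_indep hA₁i]
  rw [hr] at hrk
  rw [hr, Fintype.card_sum, Fintype.card_fin, Fintype.card_fin] at hS2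
  by_cases hex : ∃ j : Fin m, (Sum.inr j : Fin k ⊕ Fin m) ∈ S ∧ (Sum.inr j : Fin k ⊕ Fin m) ∉ A₁
  · obtain ⟨j, hj1, hj2⟩ := hex
    refine ⟨j, A₁, hrk, hj2, ?_⟩
    rw [hA₁s]
    exact Submodule.subset_span ⟨_, hj1, rfl⟩
  · exfalso
    push Not at hex
    have hcs : S.ncard = (S \ A₁).ncard + A₁.ncard :=
      (Set.ncard_sdiff_add_ncard_of_subset h1S).symm
    have hne : (S \ A₁).Nonempty := by
      rw [← Set.ncard_pos]
      rcases Nat.eq_zero_or_pos (S \ A₁).ncard with h0 | h0
      · rw [h0, zero_add] at hcs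
        rw [hcs] at hS2 hSne
        nlinarith
      · exact h0
    obtain ⟨x, hx1, hx2⟩ := hne
    obtain ⟨i₀, rfl⟩ : ∃ i₀ : Fin k, x = Sum.inl i₀ := by
      rcases x with i | j
      · exact ⟨i, rfl⟩
      · exact absurd (hex j hx1) hx2
    have hx3 : v (Sum.inl i₀) ∈ Submodule.span K (v '' B₀) := by
      rw [hB₀s]
      exact Submodule.subset_span ⟨_, ⟨hx1, i₀, rfl⟩, rfl⟩
    have hfull : ∀ i : Fin k, i ≠ i₀ → (Sum.inl i : Fin k ⊕ Fin m) ∈ B₀ := by
      intro i₁ hi₁
      by_contra hc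
      -- the columns different from i₁ are independent
      have hLI : LinearIndependent K fun i : {i : Fin k // i ≠ i₁} => v (Sum.inl i.1) := by
        rw [Fintype.linearIndependent_iff]
        intro g hg
        set u : Fin k → K := fun i => if hi : i ≠ i₁ then g ⟨i, hi⟩ else 0 with hu
        have hu0 : (M.submatrix id Sum.inl).mulVec u = 0 := by
          funext l
          have h3 := congrFun hg l
          rw [Finset.sum_apply, Pi.zero_apply] at h3
          rw [Pi.zero_apply, ← h3]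
          unfold Matrix.mulVec dotProduct
          rw [← Finset.sum_filter_add_sum_filter_not univ (fun i => i ≠ i₁)]
          have h4 : ∑ i ∈ univ.filter (fun i => ¬ i ≠ i₁), M.submatrix id Sum.inl l i * u i = 0 := by
            refine sum_eq_zero fun i hi => ?_
            simp only [hu]
            rw [dif_neg (mem_filter.1 hi).2, mul_zero]
          rw [h4, add_zero]
          refine sum_bij' (fun i hi => (⟨i, (mem_filter.1 hi).2⟩ : {i : Fin k // i ≠ i₁}))
            (fun i _ => i.1) ?_ ?_ ?_ ?_ ?_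
          · intro i _
            exact mem_univ _
          · intro i _
            exact mem_filter.2 ⟨mem_univ _, i.2⟩
          · intro i _
            rfl
          · intro i _
            rfl
          · intro i hi
            simp only [hu]
            rw [dif_pos (mem_filter.1 hi).2, Pi.smul_apply, smul_eq_mul, mul_comm]
            rfl
        by_contra hne
        push Not at hne
        obtain ⟨i, hi⟩ := hne
        have hun : u ≠ 0 := by
          intro h0
          apply hi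
          have := congrFun h0 i.1
          simp only [hu] at this
          rw [dif_pos i.2] at this
          exact this
        have := hker u hu0 hun i₁
        simp [hu] at this
      have hn := hLI.notMem_span_image (s := {i | i.1 ≠ i₀}) (x := ⟨i₀, hi₁.symm⟩) (by simp)
      apply hn
      refine Submodule.span_mono ?_ hx3
      rintro _ ⟨y, hy, rfl⟩
      obtain ⟨i, rfl⟩ := (hB₀S hy).2
      have hne1 : i ≠ i₁ := by
        rintro rfl
        exact hc hy
      have hne2 : i ≠ i₀ := by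
        rintro rfl
        exact hx2 (h01 hy)
      exact ⟨⟨i, hne1⟩, hne2, rfl⟩
    have hB₀c : k - 1 ≤ B₀.ncard := by
      have h3 : Sum.inl '' ({i₀}ᶜ : Set (Fin k)) ⊆ B₀ := by
        rintro _ ⟨i, hi, rfl⟩
        exact hfull i hi
      have h4 := Set.ncard_le_ncard h3 (Set.toFinite _)
      rw [Set.ncard_image_of_injective _ Sum.inl_injective, Set.ncard_compl,
        Set.ncard_singleton, Nat.card_eq_fintype_card, Fintype.card_fin] at h4
      exact h4
    have hAB : A₁ = B₀ := by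
      refine (Set.eq_of_subset_of_ncard_le h01 ?_ (Set.toFinite _)).symm
      omega
    have hSinl : S ⊆ Set.range (Sum.inl : Fin k → Fin k ⊕ Fin m) := by
      intro y hy
      rcases y with i | j
      · exact ⟨i, rfl⟩
      · have h3 := hex j hy
        rw [hAB] at h3
        exact absurd (hB₀S h3).2 (by simp)
    have hSk : S.ncard ≤ k := by
      have h3 := Set.ncard_le_ncard hSinl (Set.toFinite _)
      rw [← Set.image_univ, Set.ncard_image_of_injective _ Sum.inl_injective, Set.ncard_univ,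
        Nat.card_eq_fintype_card, Fintype.card_fin] at h3
      exact h3
    have hA1 : A₁.ncard = k - 1 := by
      rw [hAB] at hrk ⊢
      omega
    rw [hA1] at hS2
    have h7 : k * S.ncard ≤ k * k := Nat.mul_le_mul_left _ hSk
    obtain ⟨k', rfl⟩ : ∃ k', k = k' + 2 := ⟨k - 2, by omega⟩
    have h6 : k' + 2 - 1 = k' + 1 := by omega
    rw [h6] at hS2
    rcases Nat.eq_zero_or_pos k' with h0 | h0
    · subst h0
      omega
    · have h8 : 2 * (k' + 1) ≤ m * (k' + 1) := Nat.mul_le_mul_right _ hm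
      nlinarith

/-- the functional vanishing on the columns -/
theorem exists_fun (hk : 2 ≤ k) {V : Matrix (Fin k) (Fin k) K} (hV : V.det = 0)
    (hker : ∀ u : Fin k → K, V.mulVec u = 0 → u ≠ 0 → ∀ i, u i ≠ 0) :
    ∃ φ : (Fin k → K) →ₗ[K] K, φ ≠ 0 ∧ (∀ i, φ (V.col i) = 0) ∧
      ∀ W : Submodule K (Fin k → K), (∀ i, V.col i ∈ W) → W ≠ ⊤ → ∀ w ∈ W, φ w = 0 := by
  classical
  have hk' : Nonempty (Fin k) := ⟨⟨0, by omega⟩⟩
  set i₀ : Fin k := hk'.some
  set U : Submodule K (Fin k → K) := LinearMap.range V.mulVecLin with hU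
  have hUc : ∀ W : Submodule K (Fin k → K), (∀ i, V.col i ∈ W) → U ≤ W := by
    intro W hW
    rw [hU, Matrix.range_mulVecLin, Submodule.span_le]
    rintro _ ⟨i, rfl⟩
    exact hW i
  have hUi : ∀ i, V.col i ∈ U := by
    intro i
    rw [hU, Matrix.range_mulVecLin]
    exact Submodule.subset_span ⟨i, rfl⟩
  have hkerdim : finrank K (LinearMap.ker V.mulVecLin) ≤ 1 := by
    by_cases hex : ∃ u : Fin k → K, u ≠ 0 ∧ V.mulVec u = 0
    · obtain ⟨u, hu0, hu⟩ := hex
      refine finrank_le_one ⟨u, by rw [LinearMap.mem_ker, Matrix.mulVecLin_apply]; exact hu⟩ ?_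
      rintro ⟨w, hw⟩
      rw [LinearMap.mem_ker, Matrix.mulVecLin_apply] at hw
      refine ⟨w i₀ / u i₀, ?_⟩
      apply Subtype.ext
      change (w i₀ / u i₀) • u = w
      by_contra hne
      have h1 : V.mulVec (w - (w i₀ / u i₀) • u) = 0 := by
        rw [Matrix.mulVec_sub, Matrix.mulVec_smul, hw, hu, smul_zero, sub_zero]
      have h2 : w - (w i₀ / u i₀) • u ≠ 0 := by
        intro h0
        exact hne (sub_eq_zero.1 h0).symm
      have h3 := hker _ h1 h2 i₀
      apply h3
      rw [Pi.sub_apply, Pi.smul_apply, smul_eq_mul, div_mul_cancel₀ _ (hker u hu hu0 i₀), sub_self]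
    · push Not at hex
      have : LinearMap.ker V.mulVecLin = ⊥ := by
        rw [eq_bot_iff]
        intro w hw
        rw [LinearMap.mem_ker, Matrix.mulVecLin_apply] at hw
        rw [Submodule.mem_bot]
        by_contra hne
        exact hex w hne hw
      rw [this, finrank_bot]
      exact Nat.zero_le _
  have hUdim : k ≤ finrank K U + 1 := by
    have h1 := LinearMap.finrank_range_add_finrank_ker V.mulVecLin
    rw [Module.finrank_fin_fun, ← hU] at h1
    omega
  have hUt : U < ⊤ := by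
    rw [lt_top_iff_ne_top]
    intro htop
    obtain ⟨u, hu0, hu⟩ := Matrix.exists_mulVec_eq_zero_iff.2 hV
    have h1 := LinearMap.finrank_range_add_finrank_ker V.mulVecLin
    rw [Module.finrank_fin_fun, ← hU, htop, finrank_top, Module.finrank_fin_fun] at h1
    have h2 : finrank K (LinearMap.ker V.mulVecLin) = 0 := by omega
    have h3 := Submodule.finrank_eq_zero.1 h2
    have h4 : u ∈ LinearMap.ker V.mulVecLin := by
      rw [LinearMap.mem_ker, Matrix.mulVecLin_apply]
      exact hu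
    rw [h3, Submodule.mem_bot] at h4
    exact hu0 h4
  obtain ⟨φ, hφ, hφU⟩ := Submodule.exists_le_ker_of_lt_top U hUt
  refine ⟨φ, hφ, fun i => hφU (hUi i), fun W hW hWt w hw => ?_⟩
  have h1 : W = U := by
    refine (Submodule.eq_of_le_of_finrank_le (hUc W hW) ?_).symm
    have h2 : finrank K W < finrank K (Fin k → K) := Submodule.finrank_lt hWt
    rw [Module.finrank_fin_fun] at h2
    omega
  rw [h1] at hw
  exact hφU hw

end

end Run7.h3.PM
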