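import Pool.Agent.Run7.h3.PM.Tbx
import Pool.Agent.Run7.h3.PM.Sst

set_option autoImplicit false
set_option linter.unusedSectionVars false
set_option linter.unusedVariables false

/-! Matrices in a box which are unstable modulo a prime, for one basis matrix. -/

namespace Run7.h3.PM

open Finset Module Filter Topology Run7.h3.GT

theorem ncard_biU {α β : Type} (t : Finset α) (S : α → Set β) (X : Set β) (h : X ⊆ ⋃ a ∈ t, S a)
    (hS : ∀ a ∈ t, (S a).Finite) : X.ncard ≤ ∑ a ∈ t, (S a).ncard := by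
  classical
  have hfin : (⋃ a ∈ t, S a).Finite := Set.Finite.biUnion (Finset.finite_toSet t) fun a ha =>
    hS a ha
  refine (Set.ncard_le_ncard h hfin).trans ?_
  clear h hfin
  induction t using Finset.induction_on with
  | empty => simp
  | insert a t ha ih =>
    rw [Finset.set_biUnion_insert, sum_insert ha]
    refine (Set.ncard_union_le _ _).trans (Nat.add_le_add_left (ih fun b hb => ?_) _)
    exact hS b (mem_insert_of_mem hb)

/-- integers in an interval -/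
theorem ioc_int (x y : ℝ) : {s : ℤ | x < s ∧ (s : ℝ) ≤ y}.Finite ∧
    {s : ℤ | x < s ∧ (s : ℝ) ≤ y}.ncard ≤ ⌈y - x⌉₊ := by
  have h1 : {s : ℤ | x < s ∧ (s : ℝ) ≤ y} = (Finset.Ioc ⌊x⌋ ⌊y⌋ : Finset ℤ) := by
    ext s
    simp only [coe_Ioc, Set.mem_Ioc, Int.le_floor, Int.floor_lt]
    rfl
  rw [h1]
  refine ⟨Finset.finite_toSet _, ?_⟩
  rw [Set.ncard_coe_finset, Int.card_Ioc]
  have h2 : ((⌊y⌋ - ⌊x⌋ : ℤ) : ℝ) < y - x + 1 := by
    push_cast
    linarith [Int.floor_le y, Int.lt_floor_add_one x]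
  have h3 : (⌊y⌋ - ⌊x⌋ : ℤ) ≤ ⌈y - x⌉ := by
    have h4 : ((⌊y⌋ - ⌊x⌋ : ℤ) : ℝ) < ((⌈y - x⌉ + 1 : ℤ) : ℝ) := by
      push_cast at h2 ⊢
      linarith [Int.le_ceil (y - x)]
    have h5 : (⌊y⌋ - ⌊x⌋ : ℤ) < ⌈y - x⌉ + 1 := by exact_mod_cast h4
    omega
  have h4 : (⌈y - x⌉).toNat = ⌈y - x⌉₊ := rfl
  omega

/-- integers in an interval with given residue -/
theorem ioc_res {Q p : ℕ} (hQ : 0 < Q) (hp : 0 < p) (a b c : ℝ) (r : ℤ) :
    {t : ℤ | c + t * Q ∈ Set.Ioc a b ∧ (p : ℤ) ∣ t - r}.Finite ∧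
    {t : ℤ | c + t * Q ∈ Set.Ioc a b ∧ (p : ℤ) ∣ t - r}.ncard ≤ ⌈(b - a) / (p * Q)⌉₊ := by
  have hQ' : (0 : ℝ) < Q := by exact_mod_cast hQ
  have hp' : (0 : ℝ) < p := by exact_mod_cast hp
  obtain ⟨h1, h2⟩ := ioc_int ((a - c - r * Q) / (p * Q)) ((b - c - r * Q) / (p * Q))
  have h3 : {t : ℤ | c + t * Q ∈ Set.Ioc a b ∧ (p : ℤ) ∣ t - r} ⊆
      (fun s : ℤ => r + p * s) '' {s : ℤ | (a - c - r * Q) / (p * Q) < s ∧
        (s : ℝ) ≤ (b - c - r * Q) / (p * Q)} := by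
    rintro t ⟨ht1, s, hs⟩
    refine ⟨s, ?_, by linarith⟩
    have ht : (t : ℝ) = r + p * s := by
      have : t = r + p * s := by linarith
      rw [this]
      push_cast
      ring
    rw [ht] at ht1
    constructor
    · rw [div_lt_iff₀ (by positivity)]
      linarith [ht1.1]
    · rw [le_div_iff₀ (by positivity)]
      linarith [ht1.2]
  have hfin := h1.image (fun s : ℤ => r + p * s)
  refine ⟨hfin.subset h3, (Set.ncard_le_ncard h3 hfin).trans ((Set.ncard_image_le h1).trans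
    (h2.trans (le_of_eq ?_)))⟩
  congr 1
  field_simp
  ring

section

variable {k m : ℕ}

/-- the reduction -/
def red (p : ℕ) {ι : Type} (M : Matrix (Fin k) ι ℤ) : Matrix (Fin k) ι (ZMod p) :=
  M.map (Int.cast : ℤ → ZMod p)

theorem red_mnr (p : ℕ) {ι : Type} (M : Matrix (Fin k) ι ℤ) (f : Fin k → ι) :
    mnr (red p M) f = ((mnr M f : ℤ) : ZMod p) := by
  have := (Int.castRingHom (ZMod p)).map_det (M.submatrix id f)
  exact this.symm

theorem sub_update {R ι : Type} [DecidableEq ι] (M : Matrix (Fin k) ι R) (f : Fin k → ι)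
    (l : Fin k) (x : ι) : M.submatrix id (Function.update f l x) =
      (M.submatrix id f).updateCol l (fun i => M i x) := by
  ext i j
  by_cases h : j = l
  · subst h
    simp [Matrix.updateCol_apply]
  · simp [Matrix.updateCol_apply, h]

variable (V : Matrix (Fin k) (Fin k) ℤ) (Q : ℕ)

theorem mnr_shf_of {i : Fin k} {j : Fin m} (t : ℤ) (Z : Fin m → Fin k → ℤ)
    {g : Fin k → Fin k ⊕ Fin m} (hg : ∀ l, g l ≠ Sum.inr j) :
    mnr (MM V (shf V Q i j t Z)) g = mnr (MM V Z) g := by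
  unfold mnr
  congr 1
  ext a l
  rw [Matrix.submatrix_apply, Matrix.submatrix_apply]
  rcases h : g l with i' | j'
  · rfl
  · rw [MM_inr, MM_inr]
    have hne : j' ≠ j := by
      rintro rfl
      exact hg l h
    rw [shf_of_ne _ _ _ _ _ hne]

theorem mnr_shf {i : Fin k} {j : Fin m} (t : ℤ) (Z : Fin m → Fin k → ℤ)
    {f : Fin k → Fin k ⊕ Fin m} (hf : ∀ l, f l ≠ Sum.inr j) (l : Fin k) :
    mnr (MM V (shf V Q i j t Z)) (Function.update f l (Sum.inr j)) =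
      mnr (MM V Z) (Function.update f l (Sum.inr j)) +
        t * Q * mnr (MM V Z) (Function.update f l (Sum.inl i)) := by
  unfold mnr
  rw [sub_update, sub_update, sub_update]
  have h1 : (MM V (shf V Q i j t Z)).submatrix id f = (MM V Z).submatrix id f := by
    ext a l'
    rw [Matrix.submatrix_apply, Matrix.submatrix_apply]
    rcases h : f l' with i' | j'
    · rfl
    · rw [MM_inr, MM_inr]
      have hne : j' ≠ j := by
        rintro rfl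
        exact hf l' h
      rw [shf_of_ne _ _ _ _ _ hne]
  rw [h1]
  have h2 : (fun a => MM V (shf V Q i j t Z) a (Sum.inr j)) =
      (fun a => MM V Z a (Sum.inr j)) + (t * Q) • fun a => MM V Z a (Sum.inl i) := by
    funext a
    rw [MM_inr, shf_self]
    rfl
  rw [h2, Matrix.det_updateCol_add, Matrix.det_updateCol_smul]

theorem mnr_shf_self {i : Fin k} {j : Fin m} (t : ℤ) (Z : Fin m → Fin k → ℤ)
    {f : Fin k → Fin k ⊕ Fin m} (hf : ∀ l, f l ≠ Sum.inr j) {l : Fin k} (hl : f l = Sum.inl i) :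
    mnr (MM V (shf V Q i j t Z)) (Function.update f l (Sum.inr j)) =
      mnr (MM V Z) (Function.update f l (Sum.inr j)) + t * Q * mnr (MM V Z) f := by
  rw [mnr_shf V Q t Z hf l]
  congr 3
  rw [← hl, Function.update_eq_self]

theorem mnr_shf_ne {i : Fin k} {j : Fin m} (t : ℤ) (Z : Fin m → Fin k → ℤ)
    {f : Fin k → Fin k ⊕ Fin m} (hf : ∀ l, f l ≠ Sum.inr j) {l l' : Fin k} (hl : f l = Sum.inl i)
    (hne : l ≠ l') :
    mnr (MM V (shf V Q i j t Z)) (Function.update f l' (Sum.inr j)) =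
      mnr (MM V Z) (Function.update f l' (Sum.inr j)) := by
  rw [mnr_shf V Q t Z hf l']
  rw [mnr_zero (MM V Z) (Function.update f l' (Sum.inl i)), mul_zero, add_zero]
  intro hinj
  apply hne
  apply hinj
  rw [Function.update_of_ne hne, hl, Function.update_self]

/-- the second minor does not change under the first shift -/
theorem mnr_inv {f : Fin k → Fin k ⊕ Fin m} {l₁ l₂ i₁ : Fin k} {j₁ j₂ : Fin m}
    (h1 : f l₁ = Sum.inl i₁) (h3 : ∀ l, f l ≠ Sum.inr j₁) (hne : (l₁, j₁) ≠ (l₂, j₂)) (t : ℤ)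
    (Z : Fin m → Fin k → ℤ) :
    mnr (MM V (shf V Q i₁ j₁ t Z)) (Function.update f l₂ (Sum.inr j₂)) =
      mnr (MM V Z) (Function.update f l₂ (Sum.inr j₂)) := by
  by_cases hj : j₁ = j₂
  · subst hj
    have hl : l₁ ≠ l₂ := by
      rintro rfl
      exact hne rfl
    exact mnr_shf_ne V Q t Z h3 h1 hl
  · refine mnr_shf_of V Q t Z fun l => ?_
    by_cases hl : l = l₂
    · subst hl
      rw [Function.update_self]
      intro h
      exact hj (Sum.inr_injective h).symm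
    · rw [Function.update_of_ne hl]
      exact h3 l

variable {V Q}

/-- the line estimate, in real form -/
theorem line_real (hV : V.det ≠ 0) (hQ : 0 < Q) (Z₀ : Fin m → Fin k → ℤ)
    (a b : Fin k → Fin m → ℝ) {lam : ℕ} (hlam : 1 ≤ lam) {i : Fin k} {j : Fin m}
    (hl : lam ≤ ⌊(b i j - a i j) / Q⌋₊) (R P : (Fin m → Fin k → ℤ) → Prop)
    (hR : ∀ Z t, R Z → R (shf V Q i j t Z)) {p : ℕ} (hp : 0 < p) (c : ℕ)
    (hP : ∀ Z ∈ BX V Q Z₀ a b, R Z →
      {t : ℤ | shf V Q i j t Z ∈ BX V Q Z₀ a b ∧ P (shf V Q i j t Z)}.ncard ≤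
        c * ⌈(b i j - a i j) / (p * Q)⌉₊) :
    ({Z ∈ BX V Q Z₀ a b | R Z ∧ P Z}.ncard : ℝ) ≤
      c * (2 / p + 1 / lam) * ({Z ∈ BX V Q Z₀ a b | R Z}.ncard : ℝ) := by
  have hQ' : (0 : ℝ) < Q := by exact_mod_cast hQ
  have hp' : (0 : ℝ) < p := by exact_mod_cast hp
  have hlam' : (1 : ℝ) ≤ lam := by exact_mod_cast hlam
  have h1 := line hV hQ Z₀ a b i j R P hR _ hP
  set fl := ⌊(b i j - a i j) / Q⌋₊ with hfl
  have hfl1 : (1 : ℝ) ≤ fl := by
    have : 1 ≤ fl := hlam.trans hl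
    exact_mod_cast this
  have hfll : (lam : ℝ) ≤ fl := by exact_mod_cast hl
  have h2 : (b i j - a i j) / Q < fl + 1 := Nat.lt_floor_add_one _
  have h3 : (0 : ℝ) ≤ (b i j - a i j) / Q := by
    by_contra hc
    push Not at hc
    rw [hfl, Nat.floor_of_nonpos hc.le] at hfl1
    norm_num at hfl1
  have h4 : (⌈(b i j - a i j) / (p * Q)⌉₊ : ℝ) ≤ (2 / p + 1 / lam) * fl := by
    have h5 : (b i j - a i j) / (p * Q) = (b i j - a i j) / Q / p := by
      field_simp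
    have h6 := (Nat.ceil_lt_add_one (show 0 ≤ (b i j - a i j) / (p * Q) by
      rw [h5]; positivity)).le
    refine h6.trans ?_
    rw [h5, add_mul]
    have h7 : (b i j - a i j) / Q / p ≤ 2 / p * fl := by
      rw [div_mul_eq_mul_div]
      exact div_le_div_of_nonneg_right (by linarith) hp'.le
    have h8 : (1 : ℝ) ≤ 1 / lam * fl := by
      rw [one_div, inv_mul_eq_div, le_div_iff₀ (by linarith)]
      linarith
    linarith
  have h5 : ({Z ∈ BX V Q Z₀ a b | R Z ∧ P Z}.ncard : ℝ) * fl ≤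
      c * ⌈(b i j - a i j) / (p * Q)⌉₊ * ({Z ∈ BX V Q Z₀ a b | R Z}.ncard : ℝ) := by
    exact_mod_cast h1
  have h6 : (c : ℝ) * ⌈(b i j - a i j) / (p * Q)⌉₊ * ({Z ∈ BX V Q Z₀ a b | R Z}.ncard : ℝ) ≤
      c * ((2 / p + 1 / lam) * fl) * ({Z ∈ BX V Q Z₀ a b | R Z}.ncard : ℝ) := by
    gcongr
  have h7 : ({Z ∈ BX V Q Z₀ a b | R Z ∧ P Z}.ncard : ℝ) * fl ≤
      (c * (2 / p + 1 / lam) * ({Z ∈ BX V Q Z₀ a b | R Z}.ncard : ℝ)) * fl := by
    refine h5.trans (h6.trans (le_of_eq ?_))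
    ring
  exact le_of_mul_le_mul_right h7 (by linarith)

theorem solve_res {p : ℕ} (hp : p.Prime) {u d : ℤ} (hu : ¬ (p : ℤ) ∣ u) :
    ∃ r : ℤ, ∀ t : ℤ, (p : ℤ) ∣ d + t * u → (p : ℤ) ∣ t - r := by
  have hcop : IsCoprime (p : ℤ) u := (Nat.prime_iff_prime_int.1 hp).coprime_iff_not_dvd.2 hu
  obtain ⟨x, y, hxy⟩ := hcop
  refine ⟨-(d * y), fun t ht => ?_⟩
  obtain ⟨c, hc⟩ := ht
  refine ⟨c * y + t * x, ?_⟩
  linear_combination y * hc - t * hxy

/-- the shifts for which a minor is divisible by `p` -/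
theorem line_dvd (hV : V.det ≠ 0) (hQ : 0 < Q) (Z₀ : Fin m → Fin k → ℤ)
    (a b : Fin k → Fin m → ℝ) {p : ℕ} (hp : p.Prime) (hpQ : ¬ p ∣ Q)
    {f : Fin k → Fin k ⊕ Fin m} {l i : Fin k} {j : Fin m}
    (h1 : f l = Sum.inl i) (h3 : ∀ l, f l ≠ Sum.inr j) (Z : Fin m → Fin k → ℤ)
    (hf : ¬ (p : ℤ) ∣ mnr (MM V Z) f) :
    {t : ℤ | shf V Q i j t Z ∈ BX V Q Z₀ a b ∧
      (p : ℤ) ∣ mnr (MM V (shf V Q i j t Z)) (Function.update f l (Sum.inr j))}.Finite ∧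
    {t : ℤ | shf V Q i j t Z ∈ BX V Q Z₀ a b ∧
      (p : ℤ) ∣ mnr (MM V (shf V Q i j t Z)) (Function.update f l (Sum.inr j))}.ncard ≤
        ⌈(b i j - a i j) / (p * Q)⌉₊ := by
  have hu : ¬ (p : ℤ) ∣ Q * mnr (MM V Z) f := by
    intro h
    rcases (Nat.prime_iff_prime_int.1 hp).dvd_or_dvd h with h | h
    · exact hpQ (Int.natCast_dvd_natCast.1 h)
    · exact hf h
  obtain ⟨r, hr⟩ := solve_res (d := mnr (MM V Z) (Function.update f l (Sum.inr j))) hp hu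
  obtain ⟨h4, h5⟩ := ioc_res hQ hp.pos (a i j) (b i j) (cf V (Z j) i) r
  have hsub : {t : ℤ | shf V Q i j t Z ∈ BX V Q Z₀ a b ∧
      (p : ℤ) ∣ mnr (MM V (shf V Q i j t Z)) (Function.update f l (Sum.inr j))} ⊆
      {t : ℤ | cf V (Z j) i + t * Q ∈ Set.Ioc (a i j) (b i j) ∧ (p : ℤ) ∣ t - r} := by
    rintro t ⟨ht1, ht2⟩
    refine ⟨?_, hr t ?_⟩
    · have h6 := (ht1 j).2 i
      rw [cf_shf hV, if_pos rfl] at h6
      exact h6
    · rw [mnr_shf_self V Q t Z h3 h1] at ht2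
      rw [← mul_assoc]
      exact ht2
  exact ⟨h4.subset hsub, (Set.ncard_le_ncard hsub h4).trans h5⟩

/-- two minors divisible by a small prime -/
theorem two_small (hV : V.det ≠ 0) (hQ : 0 < Q) (Z₀ : Fin m → Fin k → ℤ)
    (a b : Fin k → Fin m → ℝ) {lam : ℕ} (hlam : 1 ≤ lam)
    (hl : ∀ i j, lam ≤ ⌊(b i j - a i j) / Q⌋₊) {p : ℕ} (hp : p.Prime) (hpQ : ¬ p ∣ Q)
    {f : Fin k → Fin k ⊕ Fin m} {l₁ l₂ i₁ i₂ : Fin k} {j₁ j₂ : Fin m}
    (h1 : f l₁ = Sum.inl i₁) (h2 : f l₂ = Sum.inl i₂) (h3 : ∀ l, f l ≠ Sum.inr j₁)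
    (h4 : ∀ l, f l ≠ Sum.inr j₂) (hne : (l₁, j₁) ≠ (l₂, j₂)) :
    ({Z ∈ BX V Q Z₀ a b | ¬ (p : ℤ) ∣ mnr (MM V Z) f ∧
      (p : ℤ) ∣ mnr (MM V Z) (Function.update f l₁ (Sum.inr j₁)) ∧
      (p : ℤ) ∣ mnr (MM V Z) (Function.update f l₂ (Sum.inr j₂))}.ncard : ℝ) ≤
      (2 / p + 1 / lam) ^ 2 * ((BX V Q Z₀ a b).ncard : ℝ) := by
  have hfin := BX_fin hV hQ Z₀ a b
  have e1 := line_real hV hQ Z₀ a b hlam (hl i₁ j₁)
    (fun Z => ¬ (p : ℤ) ∣ mnr (MM V Z) f ∧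
      (p : ℤ) ∣ mnr (MM V Z) (Function.update f l₂ (Sum.inr j₂)))
    (fun Z => (p : ℤ) ∣ mnr (MM V Z) (Function.update f l₁ (Sum.inr j₁)))
    (fun Z t h => by
      rw [mnr_shf_of V Q t Z h3, mnr_inv V Q h1 h3 hne]
      exact h) hp.pos 1
    (fun Z hZ hR => by
      rw [one_mul]
      exact (line_dvd hV hQ Z₀ a b hp hpQ h1 h3 Z hR.1).2)
  have e2 := line_real hV hQ Z₀ a b hlam (hl i₂ j₂)
    (fun Z => ¬ (p : ℤ) ∣ mnr (MM V Z) f)
    (fun Z => (p : ℤ) ∣ mnr (MM V Z) (Function.update f l₂ (Sum.inr j₂)))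
    (fun Z t h => by
      rw [mnr_shf_of V Q t Z h4]
      exact h) hp.pos 1
    (fun Z hZ hR => by
      rw [one_mul]
      exact (line_dvd hV hQ Z₀ a b hp hpQ h2 h4 Z hR).2)
  rw [Nat.cast_one, one_mul] at e1 e2
  have e3 : ({Z ∈ BX V Q Z₀ a b | ¬ (p : ℤ) ∣ mnr (MM V Z) f}.ncard : ℝ) ≤
      ((BX V Q Z₀ a b).ncard : ℝ) := by
    exact_mod_cast Set.ncard_le_ncard (Set.sep_subset _ _) hfin
  have hpos : (0 : ℝ) ≤ 2 / p + 1 / lam := by positivity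
  have e4 : {Z ∈ BX V Q Z₀ a b | ¬ (p : ℤ) ∣ mnr (MM V Z) f ∧
      (p : ℤ) ∣ mnr (MM V Z) (Function.update f l₁ (Sum.inr j₁)) ∧
      (p : ℤ) ∣ mnr (MM V Z) (Function.update f l₂ (Sum.inr j₂))} =
      {Z ∈ BX V Q Z₀ a b | (¬ (p : ℤ) ∣ mnr (MM V Z) f ∧
        (p : ℤ) ∣ mnr (MM V Z) (Function.update f l₂ (Sum.inr j₂))) ∧
        (p : ℤ) ∣ mnr (MM V Z) (Function.update f l₁ (Sum.inr j₁))} := by
    ext Z
    constructor
    · rintro ⟨g1, g2, g3, g4⟩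
      exact ⟨g1, ⟨g2, g4⟩, g3⟩
    · rintro ⟨g1, ⟨g2, g4⟩, g3⟩
      exact ⟨g1, g2, g3, g4⟩
  rw [e4]
  calc _ ≤ (2 / p + 1 / lam) * ({Z ∈ BX V Q Z₀ a b | ¬ (p : ℤ) ∣ mnr (MM V Z) f ∧
        (p : ℤ) ∣ mnr (MM V Z) (Function.update f l₂ (Sum.inr j₂))}.ncard : ℝ) := e1
    _ ≤ (2 / p + 1 / lam) * ((2 / p + 1 / lam) * ((BX V Q Z₀ a b).ncard : ℝ)) :=
        mul_le_mul_of_nonneg_left (e2.trans (mul_le_mul_of_nonneg_left e3 hpos)) hpos
    _ = _ := by ring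

/-- the number of the large primes dividing a number -/
theorem card_primes {lam : ℕ} (hlam : 2 ≤ lam) {A : ℕ} {d : ℕ} (hd : d ≠ 0) (hdA : d ≤ lam ^ A) :
    (d.primeFactors.filter fun p => lam < p).card ≤ A := by
  by_contra hc
  push Not at hc
  have h1 : ∏ p ∈ d.primeFactors.filter (fun p => lam < p), p ≤ d := by
    refine (Nat.le_of_dvd (Nat.pos_of_ne_zero hd) ?_)
    refine (Finset.prod_dvd_prod_of_subset _ _ _ (filter_subset _ _)).trans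
      (Nat.prod_primeFactors_dvd d)
  have h2 : lam ^ (d.primeFactors.filter fun p => lam < p).card ≤
      ∏ p ∈ d.primeFactors.filter (fun p => lam < p), p := by
    rw [← prod_const]
    exact prod_le_prod' fun p hp => (mem_filter.1 hp).2.le
  have h3 : lam ^ A < lam ^ (d.primeFactors.filter fun p => lam < p).card :=
    Nat.pow_lt_pow_right (by omega) hc
  omega

/-- two minors divisible by a large prime -/
theorem two_large (hV : V.det ≠ 0) (hQ : 0 < Q) (Z₀ : Fin m → Fin k → ℤ)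
    (a b : Fin k → Fin m → ℝ) {lam : ℕ} (hlam : 2 ≤ lam)
    (hl : ∀ i j, lam ≤ ⌊(b i j - a i j) / Q⌋₊) {A : ℕ}
    {f : Fin k → Fin k ⊕ Fin m} {l₁ l₂ i₁ : Fin k} {j₁ j₂ : Fin m}
    (h1 : f l₁ = Sum.inl i₁) (h3 : ∀ l, f l ≠ Sum.inr j₁) (hne : (l₁, j₁) ≠ (l₂, j₂))
    (hA : ∀ Z ∈ BX V Q Z₀ a b,
      (mnr (MM V Z) (Function.update f l₂ (Sum.inr j₂))).natAbs ≤ lam ^ A) :
    ({Z ∈ BX V Q Z₀ a b | mnr (MM V Z) (Function.update f l₂ (Sum.inr j₂)) ≠ 0 ∧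
      ∃ p : ℕ, p.Prime ∧ lam < p ∧ ¬ p ∣ Q ∧ ¬ (p : ℤ) ∣ mnr (MM V Z) f ∧
      (p : ℤ) ∣ mnr (MM V Z) (Function.update f l₁ (Sum.inr j₁)) ∧
      (p : ℤ) ∣ mnr (MM V Z) (Function.update f l₂ (Sum.inr j₂))}.ncard : ℝ) ≤
      A * (3 / lam) * ((BX V Q Z₀ a b).ncard : ℝ) := by
  classical
  have hQ' : (0 : ℝ) < Q := by exact_mod_cast hQ
  have hfin := BX_fin hV hQ Z₀ a b
  have e1 := line_real hV hQ Z₀ a b (by omega) (hl i₁ j₁)
    (fun Z => mnr (MM V Z) (Function.update f l₂ (Sum.inr j₂)) ≠ 0)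
    (fun Z => ∃ p : ℕ, p.Prime ∧ lam < p ∧ ¬ p ∣ Q ∧ ¬ (p : ℤ) ∣ mnr (MM V Z) f ∧
      (p : ℤ) ∣ mnr (MM V Z) (Function.update f l₁ (Sum.inr j₁)) ∧
      (p : ℤ) ∣ mnr (MM V Z) (Function.update f l₂ (Sum.inr j₂)))
    (fun Z t h => by
      rw [mnr_inv V Q h1 h3 hne]
      exact h) (show 0 < lam by omega) A
    (fun Z hZ hR => by
      set d := (mnr (MM V Z) (Function.update f l₂ (Sum.inr j₂))).natAbs with hd
      have hd0 : d ≠ 0 := Int.natAbs_ne_zero.2 hR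
      set PF := (d.primeFactors.filter fun p => lam < p).filter fun p =>
        ¬ p ∣ Q ∧ ¬ (p : ℤ) ∣ mnr (MM V Z) f with hPF
      have hc : PF.card ≤ A := (card_le_card (filter_subset _ _)).trans
        (card_primes hlam hd0 (hA Z hZ))
      have hmem : ∀ p ∈ PF, p.Prime ∧ lam < p ∧ ¬ p ∣ Q ∧ ¬ (p : ℤ) ∣ mnr (MM V Z) f := by
        intro p hp
        rw [hPF, mem_filter, mem_filter] at hp
        exact ⟨Nat.prime_of_mem_primeFactors hp.1.1, hp.1.2, hp.2.1, hp.2.2⟩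
      refine (ncard_biU PF (fun p => {t : ℤ | shf V Q i₁ j₁ t Z ∈ BX V Q Z₀ a b ∧
        (p : ℤ) ∣ mnr (MM V (shf V Q i₁ j₁ t Z)) (Function.update f l₁ (Sum.inr j₁))}) _ ?_
        (fun p hp => ?_)).trans ?_
      · rintro t ⟨ht1, p, hp1, hp2, hp3, hp4, hp5, hp6⟩
        rw [mnr_shf_of V Q t Z h3] at hp4
        rw [mnr_inv V Q h1 h3 hne] at hp6
        rw [Set.mem_iUnion₂]
        refine ⟨p, ?_, ht1, hp5⟩
        rw [hPF, mem_filter, mem_filter, Nat.mem_primeFactors]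
        refine ⟨⟨⟨hp1, ?_, hd0⟩, hp2⟩, hp3, hp4⟩
        rw [hd]
        exact Int.natCast_dvd.1 hp6
      · obtain ⟨g1, g2, g3, g4⟩ := hmem p hp
        exact (line_dvd hV hQ Z₀ a b g1 g3 h1 h3 Z g4).1
      · refine (sum_le_card_nsmul PF _ ⌈(b i₁ j₁ - a i₁ j₁) / (lam * Q)⌉₊ fun p hp => ?_).trans ?_
        · obtain ⟨g1, g2, g3, g4⟩ := hmem p hp
          refine ((line_dvd hV hQ Z₀ a b g1 g3 h1 h3 Z g4).2).trans (Nat.ceil_mono ?_)
          have g5 : (lam : ℝ) ≤ p := by exact_mod_cast g2.le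
          have g6 : (0 : ℝ) < lam := by
            have : 0 < lam := by omega
            exact_mod_cast this
          refine div_le_div_of_nonneg_left ?_ (by positivity) (by gcongr)
          have g7 := hl i₁ j₁
          by_contra hcon
          push Not at hcon
          rw [Nat.floor_of_nonpos (div_nonpos_of_nonpos_of_nonneg hcon.le hQ'.le)] at g7
          omega
        · rw [smul_eq_mul]
          exact Nat.mul_le_mul_right _ hc)
  have e2 : ({Z ∈ BX V Q Z₀ a b |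
      mnr (MM V Z) (Function.update f l₂ (Sum.inr j₂)) ≠ 0}.ncard : ℝ) ≤
      ((BX V Q Z₀ a b).ncard : ℝ) := by
    exact_mod_cast Set.ncard_le_ncard (Set.sep_subset _ _) hfin
  refine e1.trans ?_
  have e3 : (2 : ℝ) / lam + 1 / lam = 3 / lam := by ring
  rw [e3]
  exact mul_le_mul_of_nonneg_left e2 (by positivity)

end

end Run7.h3.PM
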