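import Pool.Agent.Run7.h3.PM.Good7

set_option autoImplicit false
set_option linter.unusedSectionVars false
set_option linter.unusedVariables false

/-! The asymptotic formula with a condition on residues and an archimedean factor. -/

namespace Run7.h3.PM

open Finset Module Filter Topology MeasureTheory Run7.h3.GT

section

variable {k m' : ℕ} {ι : Type} [Fintype ι] [DecidableEq ι]

/-- the classes which we count -/
def CNT (θ : ι → ℕ) (Q : ℕ) (O : Set (Matrix (Fin k) ι (ZMod Q))) (G : Matrix (Fin k) ι ℝ → ℝ) (L : ℝ) :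
    Set (Set (Matrix (Fin k) ι ℚ)) :=
  {P | ∃ M : Matrix (Fin k) ι ℤ, ARI θ Q O M ∧ P = cls M ∧ G (toR M) ≤ Real.exp L}

theorem gen_toR {M : Matrix (Fin k) ι ℤ} (hM : Gnr M) : Gen (toR M) := by
  intro f hf
  rw [toR_mnr]
  exact_mod_cast hM f hf

theorem mono_toR (M : Matrix (Fin k) ι ℤ) (a : Mon k (id : ι → ι) fun _ => k) :
    mono (toR M) a = ((mono M a : ℤ) : ℝ) := (mono_map (Int.castRingHom ℝ) M a).symm

theorem CNT_sub {θ : ι → ℕ} {Q : ℕ} {O : Set (Matrix (Fin k) ι (ZMod Q))} {G : Matrix (Fin k) ι ℝ → ℝ}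
    {c₁ : ℝ} (hG1 : ∀ M : Matrix (Fin k) ι ℝ, Gen M → ∀ a : Mon k (id : ι → ι) fun _ => k,
      c₁ * |mono M a| ≤ G M) (L : ℝ) : CNT θ Q O G L ⊆ CB c₁ L := by
  rintro _ ⟨M, hM, rfl, hL⟩
  refine ⟨M, hM.2.1, rfl, fun a => ?_⟩
  rw [← mono_toR]
  exact (hG1 _ (gen_toR hM.2.1) a).trans hL

/-- a choice of the coordinates for each set of columns -/
theorem exists_eI (hι : Fintype.card ι = k + (m' + 1)) (I : Finset ι) (hI : I.card = k) :
    ∃ e : Fin k ⊕ Fin (m' + 1) ≃ ι, Set.range (e ∘ Sum.inl) = (I : Set ι) := by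
  classical
  have h1 : Fintype.card {x // x ∈ I} = k := by rw [Fintype.card_coe, hI]
  have h2 : Fintype.card {x // ¬ x ∈ I} = m' + 1 := by
    rw [Fintype.card_subtype_compl, h1, hι]
    omega
  set e₁ : Fin k ≃ {x // x ∈ I} := (Fintype.equivFinOfCardEq h1).symm with he₁
  set e₂ : Fin (m' + 1) ≃ {x // ¬ x ∈ I} := (Fintype.equivFinOfCardEq h2).symm with he₂
  refine ⟨(Equiv.sumCongr e₁ e₂).trans (Equiv.sumCompl (fun x => x ∈ I)), ?_⟩
  ext x
  constructor
  · rintro ⟨i, rfl⟩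
    simp only [Function.comp_apply, Equiv.trans_apply, Equiv.sumCongr_apply, Sum.map_inl,
      Equiv.sumCompl_apply_inl]
    exact (e₁ i).2
  · intro hx
    refine ⟨e₁.symm ⟨x, hx⟩, ?_⟩
    simp only [Function.comp_apply, Equiv.trans_apply, Equiv.sumCongr_apply, Sum.map_inl,
      Equiv.sumCompl_apply_inl, Equiv.apply_symm_apply]

/-- the parameters of the good cells -/
theorem good_lower {θ : ι → ℕ} (hk : 2 ≤ k) (hι : Fintype.card ι = k + (m' + 1))
    (hθ : Adm k θ) {Q : ℕ} {O : Set (Matrix (Fin k) ι (ZMod Q))}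
    (hO : InvS Q O) {G : Matrix (Fin k) ι ℝ → ℝ} (hG : Hom G) {c₁ : ℝ} (hc₁ : 0 < c₁)
    (hG1 : ∀ M : Matrix (Fin k) ι ℝ, Gen M → ∀ a : Mon k (id : ι → ι) fun _ => k,
      c₁ * |mono M a| ≤ G M) (i₀ : Fin k) (eI : {I : Finset ι // I.card = k} → Fin k ⊕ Fin (m' + 1) ≃ ι)
    (heI : ∀ I, Set.range (eI I ∘ Sum.inl) = (I.1 : Set ι)) {δ η : ℝ} (hδ : 0 < δ) (hη : 0 < η)
    (s : ℝ) (J : ℕ) : ∀ᶠ L : ℝ in atTop, ∑ I : {I : Finset ι // I.card = k},
      (GS δ s J (fun j => EE i₀ η (Ge (eI I) G) (Real.exp (j - s)))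
        (ArG (θ ∘ eI I) Q (Oe (eI I) O)) L).ncard ≤ (CNT θ Q O G L).ncard := by
  classical
  obtain ⟨C, hC, htot⟩ := tot_le (k := k) (ι := ι) (m := m' + 1) (by omega) hι (by omega) hc₁
  filter_upwards [min_strict (k := k) (m' := m') (ι := ι) hδ hη s J i₀, eventually_ge_atTop 0]
    with L hmin hL0
  set E : {I : Finset ι // I.card = k} → ℤ → Set (Cx k (m' + 1) → ℝ) :=
    fun I j => EE i₀ η (Ge (eI I) G) (Real.exp (j - s)) with hE
  have hEW : ∀ I j, E I j ⊆ WE i₀ η := fun I j x hx => hx.1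
  have hwin : ∀ I j, ∀ x ∈ E I j, Win i₀ x := fun I j x hx => hx.1.1
  set S : {I : Finset ι // I.card = k} → Set (Pt k (m' + 1)) := fun I =>
    GS δ s J (E I) (ArG (θ ∘ eI I) Q (Oe (eI I) O)) L with hS
  have hSf : ∀ I, (S I).Finite := fun I => (GS_ncard (s := s) (J := J) (i₀ := i₀) (by omega) hδ.le
    (hwin I) (fun j => (WE_bdd i₀ η).subset (hEW I j)) _ L).1
  have hSA : ∀ I, ∀ P ∈ S I, ARI θ Q O (mt (eI I) P) := by
    rintro I P ⟨j, hj, w, hw, hP⟩
    exact (ARI_mt (eI I) P).1 hP.2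
  have hSP : ∀ I, ∀ P ∈ S I, Pst i₀ P := by
    rintro I P ⟨j, hj, w, hw, hP⟩
    have h1 := hwin I j _ hP.1
    refine ⟨fun i => ?_, fun j' => ?_⟩
    · have h2 := (h1.2.1 i).1
      rw [lt_div_iff₀ (sg_pos _ _ _), one_mul] at h2
      exact lt_trans (sg_pos _ _ _) h2
    · have h2 := (h1.2.2 j').1
      rw [lt_div_iff₀ (sg_pos _ _ _), one_mul] at h2
      exact lt_trans (sg_pos _ _ _) h2
  have hEqv : ∀ {M M' : Matrix (Fin k) ι ℤ}, ARI θ Q O M → ARI θ Q O M' → cls M = cls M' →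
      Eqv M M' := by
    intro M M' hM hM' h
    obtain ⟨g, ε, h1, h2, h3⟩ := uniq (by omega) hθ hM.2.2 hM'.2.2 (cls_eq h)
    exact ⟨g, ε, h1, h2, h3⟩
  set X : {I : Finset ι // I.card = k} → Set (Set (Matrix (Fin k) ι ℚ)) := fun I =>
    (fun P => cls (mt (eI I) P)) '' S I with hX
  have hXc : ∀ I, (X I).ncard = (S I).ncard := by
    intro I
    refine Set.InjOn.ncard_image ?_
    intro P hP P' hP' h
    exact pt_uniq (eI I) (hSP I P hP) (hSP I P' hP') (hEqv (hSA I P hP) (hSA I P' hP') h)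
  have hXf : ∀ I, (X I).Finite := fun I => (hSf I).image _
  have hdisj : ∀ I I', I ≠ I' → Disjoint (X I) (X I') := by
    intro I I' hne
    rw [Set.disjoint_left]
    rintro _ ⟨P, hP, rfl⟩ ⟨P', hP', h⟩
    have h1 := hEqv (hSA I' P' hP') (hSA I P hP) h
    have hr : Set.range (eI I' ∘ Sum.inl) ≠ Set.range (eI I ∘ Sum.inl) := by
      rw [heI, heI]
      intro h2
      exact hne (Subtype.ext (Finset.coe_injective h2)).symm
    have h2 := hmin (eI I) (E I) (hEW I) _ P hP (eI I' ∘ Sum.inl)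
      ((eI I').injective.comp Sum.inl_injective) hr
    have h3 := hmin (eI I') (E I') (hEW I') _ P' hP' (eI I ∘ Sum.inl)
      ((eI I).injective.comp Sum.inl_injective) hr.symm
    rw [h1.mnr, h1.mnr] at h2
    exact absurd h2 (not_lt.2 h3.le)
  have hsub : ∀ I, X I ⊆ CNT θ Q O G L := by
    rintro I _ ⟨P, hP, rfl⟩
    refine ⟨mt (eI I) P, hSA I P hP, rfl, ?_⟩
    obtain ⟨j, hj, w, hw, hPT⟩ := hP
    have h1 := G_co (Ge_hom (eI I) hG) (L + s - j) (fun x => (w x : ℝ)) P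
    rw [Ge_toR] at h1
    rw [h1]
    have h2 : xc (L + s - j) (fun x => (w x : ℝ)) P none *
        Ge (eI I) G (XX (xc (L + s - j) (fun x => (w x : ℝ)) P)) ≤ Real.exp (j - s) := hPT.1.2
    refine (mul_le_mul_of_nonneg_left h2 (Real.exp_pos _).le).trans (le_of_eq ?_)
    rw [← Real.exp_add]
    congr 1
    ring
  have hCf : (CNT θ Q O G L).Finite := (htot L hL0).1.subset (CNT_sub hG1 L)
  have h1 : ∑ I, (S I).ncard = ∑ I, (X I).ncard := sum_congr rfl fun I _ => (hXc I).symm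
  change ∑ I, (S I).ncard ≤ _
  rw [h1]
  have h2 : ∑ I, (X I).ncard = (univ.biUnion fun I => (hXf I).toFinset).card := by
    rw [card_biUnion]
    · exact sum_congr rfl fun I _ => Set.ncard_eq_toFinset_card _ (hXf I)
    · intro I _ I' _ hne
      rw [Function.onFun, disjoint_left]
      intro P hP hP'
      rw [Set.Finite.mem_toFinset] at hP hP'
      exact Set.disjoint_left.1 (hdisj I I' hne) hP hP'
  rw [h2, Set.ncard_eq_toFinset_card _ hCf]
  refine card_le_card ?_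
  intro P hP
  rw [mem_biUnion] at hP
  obtain ⟨I, -, hP⟩ := hP
  rw [Set.Finite.mem_toFinset] at hP ⊢
  exact hsub I hP

/-- convergence from approximations -/
theorem conv_of {F : ℝ → ℝ} (h : ∀ ε : ℝ, 0 < ε → ∃ A : ℝ, ∀ᶠ L in atTop, |F L - A| ≤ ε) :
    ∃ c : ℝ, Tendsto F atTop (𝓝 c) := by
  refine cauchy_map_iff_exists_tendsto.1 ?_
  rw [Metric.cauchy_iff]
  refine ⟨inferInstance, fun ε hε => ?_⟩
  obtain ⟨A, hA⟩ := h (ε / 3) (by positivity)
  refine ⟨{x | |x - A| ≤ ε / 3}, hA, fun x hx y hy => ?_⟩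
  have h1 : |x - A| ≤ ε / 3 := hx
  have h2 : |y - A| ≤ ε / 3 := hy
  rw [Real.dist_eq]
  have h3 : x - y = (x - A) - (y - A) := by ring
  rw [h3]
  refine lt_of_le_of_lt (abs_sub _ _) ?_
  linarith

/-- the asymptotic formula -/
theorem main_count {θ : ι → ℕ} (hk : 2 ≤ k) (hm : 1 ≤ m') (h5 : 5 ≤ k + (m' + 1))
    (hι : Fintype.card ι = k + (m' + 1)) (hθ : Adm k θ) {Q : ℕ} (hQ : 0 < Q)
    {O : Set (Matrix (Fin k) ι (ZMod Q))} (hO : InvS Q O) {G : Matrix (Fin k) ι ℝ → ℝ}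
    (hG : Hom G) {c₁ c₂ : ℝ} (hc₁ : 0 < c₁) (hc₂ : 0 < c₂)
    (hG1 : ∀ M : Matrix (Fin k) ι ℝ, Gen M → ∀ a : Mon k (id : ι → ι) fun _ => k,
      c₁ * |mono M a| ≤ G M)
    (hG2 : ∀ M : Matrix (Fin k) ι ℝ, Gen M → ∃ a : Mon k (id : ι → ι) fun _ => k,
      G M ≤ c₂ * |mono M a|)
    (hGc : ∀ e : Fin k ⊕ Fin (m' + 1) ≃ ι,
      ContinuousOn (fun x : Cx k (m' + 1) → ℝ => Ge e G (XX x)) (UU k (m' + 1))) :
    ∃ c : ℝ, 0 ≤ c ∧ ((∃ o, Mkd θ o) → Q = 1 → O = Set.univ → 0 < c) ∧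
      Tendsto (fun L : ℝ => ((CNT θ Q O G L).ncard : ℝ) / (Real.exp L * L ^ (k + m'))) atTop (𝓝 c) := by
  classical
  have hk0 : 0 < k := by omega
  set i₀ : Fin k := ⟨0, hk0⟩ with hi₀
  choose eI heI using fun I : {I : Finset ι // I.card = k} => exists_eI (m' := m') hι I.1 I.2
  choose κ hκ0 hκpos hκ using fun I : {I : Finset ι // I.card = k} =>
    GS_count (k := k) (m' := m') hk hm h5 (hθ.re (eI I)) hQ (Oe_inv (eI I) hO)
  obtain ⟨C₀, hC₀, htot⟩ := tot_le (k := k) (ι := ι) (m := m' + 1) hk0 hι (by omega) hc₁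
  have hcard1 : Fintype.card ι - 1 = k + m' := by omega
  obtain ⟨S, hS, hWE⟩ := WE_null (m' := m') i₀
  set F : ℝ → ℝ := fun L => ((CNT θ Q O G L).ncard : ℝ) / (Real.exp L * L ^ (k + m')) with hF
  have hF0 : ∀ᶠ L in atTop, 0 ≤ F L := by
    filter_upwards [eventually_ge_atTop (0 : ℝ)] with L hL
    positivity
  -- the limits of the main terms
  have hlim : ∀ (δ : ℝ) (hδ : 0 < δ) (hδ1 : δ < 1) (η : ℝ) (hη : 0 < η) (hηS : η ∉ S),
      ∃ s : ℝ, ∀ J : ℕ, Tendsto (fun L : ℝ => (∑ I : {I : Finset ι // I.card = k},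
        ((GS δ s J (fun j => EE i₀ η (Ge (eI I) G) (Real.exp (j - s)))
          (ArG (θ ∘ eI I) Q (Oe (eI I) O)) L).ncard : ℝ)) / (Real.exp L * L ^ (k + m'))) atTop
        (𝓝 (∑ I : {I : Finset ι // I.card = k}, ∑ j ∈ Icc (-(J : ℤ)) J, Real.exp (s - j) *
          (κ I * (volume (EE i₀ η (Ge (eI I) G) (Real.exp (j - s)))).toReal) *
            volume.real (Pol k m' δ))) := by
    intro δ hδ hδ1 η hη hηS
    choose SI hSI1 hSI2 using fun I : {I : Finset ι // I.card = k} =>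
      EE_null i₀ hη (hWE η hη hηS) (hGc (eI I))
    obtain ⟨s, hs⟩ := exists_anchor hSI1
    refine ⟨s, fun J => ?_⟩
    have h1 := tendsto_finsetSum (univ : Finset {I : Finset ι // I.card = k}) fun I _ =>
      hκ I i₀ (fun j => EE i₀ η (Ge (eI I) G) (Real.exp (j - s))) (fun j x hx => hx.1.1)
        (fun j => (WE_bdd i₀ η).subset fun x hx => hx.1) (fun j => hSI2 I _ (hs I j)) δ hδ hδ1 s J
    refine h1.congr fun L => ?_
    rw [sum_div]
  have happrox : ∀ ε : ℝ, 0 < ε → ∃ A : ℝ, ∀ᶠ L in atTop, |F L - A| ≤ ε := by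
    intro ε hε
    obtain ⟨δ₁, hδ₁, η₁, hη₁, hη₁1, L₀, hL₀, hbad⟩ := nice_most (k := k) (ι := ι) (m := m' + 1) hk
      hι (by omega) hc₁ (show 0 < ε / 4 by positivity)
    set δ : ℝ := min δ₁ 1 / 2 with hδ
    have hδ0 : 0 < δ := by positivity
    have hδδ : δ < δ₁ := by
      have : min δ₁ 1 ≤ δ₁ := min_le_left _ _
      linarith
    have hδ1 : δ < 1 := by
      have : min δ₁ 1 ≤ 1 := min_le_right _ _
      linarith
    obtain ⟨η, hη0, hη1, hηS⟩ := exists_off hS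
      (show (0 : ℝ) < η₁ * Real.exp (-(k * (3 * (1 - Real.log η₁)))) by positivity)
    obtain ⟨s, hs⟩ := hlim δ hδ0 hδ1 η hη0 hηS
    obtain ⟨C, hC⟩ := nice_good hk0 hι hO hG hc₁ hc₂ hG1 hG2 i₀ hη₁ hη₁1 hδ0 hδδ hδ1 hη0
      hη1.le s
    -- the choice of `J`
    obtain ⟨J, hJC, hJ⟩ : ∃ J : ℕ, C ≤ J ∧
        C₀ * Real.exp (C - J) * 2 ^ (k + m') ≤ ε / 4 := by
      have h1 : Tendsto (fun J : ℕ => C₀ * Real.exp (C - J) * 2 ^ (k + m')) atTop (𝓝 0) := by
        have h2 : Tendsto (fun J : ℕ => Real.exp (C - J)) atTop (𝓝 0) := by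
          refine Real.tendsto_exp_atBot.comp ?_
          exact tendsto_const_nhds.add_atBot
            (tendsto_neg_atTop_atBot.comp tendsto_natCast_atTop_atTop)
        have h3 := (h2.const_mul C₀).mul_const ((2 : ℝ) ^ (k + m'))
        rwa [mul_zero, zero_mul] at h3
      have h2 := h1.eventually (eventually_lt_nhds (show (0 : ℝ) < ε / 4 by positivity))
      obtain ⟨J, hJ1, hJ2⟩ := ((tendsto_natCast_atTop_atTop (R := ℝ)).eventually_ge_atTop C |>.and
        h2).exists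
      exact ⟨J, hJ1, hJ2.le⟩
    set A := ∑ I : {I : Finset ι // I.card = k}, ∑ j ∈ Icc (-(J : ℤ)) J, Real.exp (s - j) *
          (κ I * (volume (EE i₀ η (Ge (eI I) G) (Real.exp (j - s)))).toReal) *
            volume.real (Pol k m' δ) with hA
    have hlimJ := hs J
    refine ⟨A, ?_⟩
    have hclose := (Metric.tendsto_nhds.1 hlimJ) (ε / 4) (by positivity)
    filter_upwards [hclose, good_lower hk hι hθ hO hG hc₁ hG1 i₀ eI heI hδ0 hη0 s J,
      hC J hJC, eventually_ge_atTop (max L₀ (max 1 (J - C)))] with L h1 h2 h3 hL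
    have hL1 : L₀ ≤ L := (le_max_left _ _).trans hL
    have hL2 : 1 ≤ L := ((le_max_left _ _).trans (le_max_right _ _)).trans hL
    have hL3 : (J : ℝ) - C ≤ L := ((le_max_right _ _).trans (le_max_right _ _)).trans hL
    set S' : {I : Finset ι // I.card = k} → Set (Pt k (m' + 1)) := fun I =>
      GS δ s J (fun j => EE i₀ η (Ge (eI I) G) (Real.exp (j - s))) (ArG (θ ∘ eI I) Q (Oe (eI I) O)) L with hS'
    have hSf : ∀ I, (S' I).Finite := fun I => (GS_ncard (s := s) (J := J) (i₀ := i₀) hk0 hδ0.le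
      (fun j x hx => hx.1.1) (fun j => (WE_bdd i₀ η).subset fun x hx => hx.1) _ L).1
    set Bd := {P : Set (Matrix (Fin k) ι ℚ) | ∃ M, Gnr M ∧ P = cls M ∧
        (∀ e : Mon k (id : ι → ι) fun _ => k, c₁ * |((mono M e : ℤ) : ℝ)| ≤ Real.exp L) ∧
        ¬ Nice (δ₁ * L) η₁ M} with hBd
    have hsub : CNT θ Q O G L ⊆ ((⋃ I ∈ (univ : Finset {I : Finset ι // I.card = k}),
        (fun P => cls (mt (eI I) P)) '' S' I) ∪ Bd) ∪ CB c₁ (L - J + C) := by
      rintro _ ⟨M, hM, rfl, hGM⟩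
      by_cases hsm : G (toR M) ≤ Real.exp (L - J + C)
      · right
        exact CNT_sub (θ := θ) (O := O) hG1 (L - J + C) ⟨M, hM, rfl, hsm⟩
      left
      by_cases hni : Nice (δ₁ * L) η₁ M
      swap
      · right
        refine ⟨M, hM.2.1, rfl, fun a => ?_, hni⟩
        rw [← mono_toR]
        exact (hG1 _ (gen_toR hM.2.1) a).trans hGM
      left
      obtain ⟨y, hy1, hy2, hy3, hy4⟩ := hni
      obtain ⟨e₀, -, he₀⟩ := exists_sort (k := k) (m := m' + 1) (fun x => (y x : ℝ)) hι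
      set I : Finset ι := univ.image (e₀ ∘ Sum.inl) with hI
      have hIc : I.card = k := by
        rw [hI, card_image_of_injective _ (e₀.injective.comp Sum.inl_injective), card_univ,
          Fintype.card_fin]
      have hmI : ∀ x, x ∈ I ↔ ∃ i, e₀ (Sum.inl i) = x := by
        intro x
        rw [hI, mem_image]
        simp
      have hord : ∀ i j, y (eI ⟨I, hIc⟩ (Sum.inl i)) ≤ y (eI ⟨I, hIc⟩ (Sum.inr j)) := by
        intro i j
        have h4 : eI ⟨I, hIc⟩ (Sum.inl i) ∈ I := by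
          have h5 : (eI ⟨I, hIc⟩ ∘ Sum.inl) i ∈ Set.range (eI ⟨I, hIc⟩ ∘ Sum.inl) := ⟨i, rfl⟩
          rw [heI] at h5
          exact h5
        have h6 : eI ⟨I, hIc⟩ (Sum.inr j) ∉ I := by
          intro h5
          have h7 : eI ⟨I, hIc⟩ (Sum.inr j) ∈ Set.range (eI ⟨I, hIc⟩ ∘ Sum.inl) := by
            rw [heI]
            exact h5
          obtain ⟨i', hi'⟩ := h7
          exact Sum.inl_ne_inr ((eI ⟨I, hIc⟩).injective hi')
        obtain ⟨i', hi'⟩ := (hmI _).1 h4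
        obtain ⟨z, hz⟩ := e₀.surjective (eI ⟨I, hIc⟩ (Sum.inr j))
        rcases z with i'' | j'
        · exact absurd ((hmI _).2 ⟨i'', hz⟩) h6
        · rw [← hi', ← hz]
          have := he₀ i' j'
          exact_mod_cast this
      obtain ⟨P, hP, hPc⟩ := h3 (eI ⟨I, hIc⟩) M hM hGM (not_le.1 hsm) y hy1 hy2 hy3 hy4 hord
      rw [Set.mem_iUnion₂]
      exact ⟨⟨I, hIc⟩, mem_univ _, P, hP, hPc.symm⟩
    have hfinI : ∀ I ∈ (univ : Finset {I : Finset ι // I.card = k}),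
        ((fun P => cls (mt (eI I) P)) '' S' I).Finite := fun I _ => (hSf I).image _
    have hBf : Bd.Finite := (htot L (by linarith)).1.subset (by
      rintro _ ⟨M, hM, rfl, h4, -⟩
      exact ⟨M, hM, rfl, h4⟩)
    have hTf := htot (L - J + C) (by linarith)
    have hfin := ((Set.Finite.biUnion (Finset.finite_toSet _) hfinI).union hBf).union hTf.1
    have h4 : (CNT θ Q O G L).ncard ≤ ∑ I, (S' I).ncard + Bd.ncard +
        (CB (k := k) (ι := ι) c₁ (L - J + C)).ncard := by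
      refine (Set.ncard_le_ncard hsub hfin).trans ((Set.ncard_union_le _ _).trans ?_)
      refine Nat.add_le_add_right ((Set.ncard_union_le _ _).trans ?_) _
      refine Nat.add_le_add_right ((ncard_biU _ _ _ subset_rfl hfinI).trans ?_) _
      exact sum_le_sum fun I _ => Set.ncard_image_le (hSf I)
    have hB := hbad L hL1
    rw [hcard1] at hB
    have hT := hTf.2
    rw [hcard1] at hT
    have hden : 0 < Real.exp L * L ^ (k + m') := by positivity
    have hT2 : ((CB (k := k) (ι := ι) c₁ (L - J + C)).ncard : ℝ) ≤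
        ε / 4 * (Real.exp L * L ^ (k + m')) := by
      refine hT.trans ?_
      have h5 : Real.exp (L - J + C) = Real.exp (C - J) * Real.exp L := by
        rw [← Real.exp_add]
        congr 1
        ring
      have h6 : (1 + (L - J + C)) ^ (k + m') ≤ (2 * L) ^ (k + m') := by
        refine pow_le_pow_left₀ (by linarith) ?_ _
        linarith
      calc C₀ * Real.exp (L - J + C) * (1 + (L - J + C)) ^ (k + m') ≤
          C₀ * Real.exp (L - J + C) * (2 * L) ^ (k + m') :=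
            mul_le_mul_of_nonneg_left h6 (by positivity)
        _ = (C₀ * Real.exp (C - J) * 2 ^ (k + m')) * (Real.exp L * L ^ (k + m')) := by
            rw [h5, mul_pow]
            ring
        _ ≤ _ := mul_le_mul_of_nonneg_right hJ hden.le
    have h5 : ((CNT θ Q O G L).ncard : ℝ) ≤ ∑ I, ((S' I).ncard : ℝ) + Bd.ncard +
        ((CB (k := k) (ι := ι) c₁ (L - J + C)).ncard : ℝ) := by
      exact_mod_cast h4
    have h6 : ∑ I, ((S' I).ncard : ℝ) ≤ ((CNT θ Q O G L).ncard : ℝ) := by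
      exact_mod_cast h2
    have h7 : F L ≤ (∑ I, ((S' I).ncard : ℝ)) / (Real.exp L * L ^ (k + m')) + ε / 2 := by
      rw [hF]
      simp only
      rw [div_le_iff₀ hden]
      have h8 : ((∑ I, ((S' I).ncard : ℝ)) / (Real.exp L * L ^ (k + m')) + ε / 2) *
          (Real.exp L * L ^ (k + m')) = ∑ I, ((S' I).ncard : ℝ) +
            (ε / 4 * (Real.exp L * L ^ (k + m')) + ε / 4 * (Real.exp L * L ^ (k + m'))) := by
        field_simp
        ring
      rw [h8]
      have h9 : ε / 4 * Real.exp L * L ^ (k + m') = ε / 4 * (Real.exp L * L ^ (k + m')) := by ring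
      rw [h9] at hB
      linarith
    have h8 : (∑ I, ((S' I).ncard : ℝ)) / (Real.exp L * L ^ (k + m')) ≤ F L := by
      rw [hF]
      exact div_le_div_of_nonneg_right h6 hden.le
    rw [Real.dist_eq, abs_lt] at h1
    rw [abs_le]
    constructor
    · linarith [h1.1]
    · linarith [h1.2]
  obtain ⟨c, hc⟩ := conv_of happrox
  have hc0 : 0 ≤ c := ge_of_tendsto hc hF0
  refine ⟨c, hc0, ?_, hc⟩
  rintro ⟨o, hmk⟩ hQ1 hOu
  -- positivity
  obtain ⟨δ₀, hδ₀, hPol⟩ := Pol_pos (k := k) (m' := m') hk0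
  set δ : ℝ := min δ₀ 1 / 2 with hδ
  have hδ0 : 0 < δ := by positivity
  have hδδ : δ ≤ δ₀ := by
    have : min δ₀ 1 ≤ δ₀ := min_le_left _ _
    linarith
  have hδ1 : δ < 1 := by
    have : min δ₀ 1 ≤ 1 := min_le_right _ _
    linarith
  have hP := hPol δ hδ0.le hδδ
  choose ηI hηI uI huI using fun I : {I : Finset ι // I.card = k} => EE_pos i₀ (hGc (eI I))
  obtain ⟨I₁, hoI, hI₁⟩ : ∃ I : Finset ι, o ∈ I ∧ I.card = k := by
    obtain ⟨I, hI0, -, hI⟩ := Finset.exists_subsuperset_card_eq (s := ({o} : Finset ι))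
      (t := univ) (n := k) (subset_univ _) (by rw [card_singleton]; omega) (by
      rw [card_univ]
      omega)
    exact ⟨I, hI0 (mem_singleton_self o), hI⟩
  set I₂ : {I : Finset ι // I.card = k} := ⟨I₁, hI₁⟩ with hI₂
  obtain ⟨η, hη0, hη1, hηS⟩ := exists_off hS (hηI I₂)
  obtain ⟨s, hs⟩ := hlim δ hδ0 hδ1 η hη0 hηS
  obtain ⟨J, hJ⟩ := exists_nat_ge (s + Real.log (max 1 (uI I₂)))
  have hlim2 := hs J
  have hOe : Oe (eI I₂) O = Set.univ := by
    ext R
    constructor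
    · intro _
      trivial
    · intro _
      change R.submatrix id (eI I₂).symm ∈ O
      rw [hOu]
      trivial
  obtain ⟨i₁, hi₁⟩ : ∃ i, eI I₂ (Sum.inl i) = o := by
    have h1 : o ∈ Set.range (eI I₂ ∘ Sum.inl) := by
      rw [heI]
      exact hoI
    exact h1
  have hκp : 0 < κ I₂ := hκpos I₂ i₁ (fun x y hx hy => hmk _ _
    (fun h => hx ((eI I₂).injective (h.trans hi₁.symm)))
    (fun h => hy ((eI I₂).injective (h.trans hi₁.symm)))) hQ1 hOe
  have huJ : uI I₂ ≤ Real.exp ((J : ℤ) - s) := by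
    have h1 : Real.log (max 1 (uI I₂)) ≤ ((J : ℤ) : ℝ) - s := by
      push_cast
      linarith
    have h2 := Real.exp_le_exp.2 h1
    rw [Real.exp_log (lt_of_lt_of_le one_pos (le_max_left _ _))] at h2
    exact (le_max_right _ _).trans h2
  have hvp := huI I₂ η hη0 hη1.le _ huJ
  have hpos : 0 < ∑ I : {I : Finset ι // I.card = k}, ∑ j ∈ Icc (-(J : ℤ)) J, Real.exp (s - j) *
      (κ I * (volume (EE i₀ η (Ge (eI I) G) (Real.exp (j - s)))).toReal) *
        volume.real (Pol k m' δ) := by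
    have hnn : ∀ I : {I : Finset ι // I.card = k}, ∀ j ∈ Icc (-(J : ℤ)) J, 0 ≤ Real.exp (s - j) *
        (κ I * (volume (EE i₀ η (Ge (eI I) G) (Real.exp (j - s)))).toReal) *
        volume.real (Pol k m' δ) := by
      intro I j _
      have h1 := hκ0 I
      have h2 : 0 ≤ (volume (EE i₀ η (Ge (eI I) G) (Real.exp (j - s)))).toReal :=
        ENNReal.toReal_nonneg
      positivity
    refine lt_of_lt_of_le ?_ (single_le_sum (f := fun I => ∑ j ∈ Icc (-(J : ℤ)) J,
      Real.exp (s - j) * (κ I * (volume (EE i₀ η (Ge (eI I) G) (Real.exp (j - s)))).toReal) *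
        volume.real (Pol k m' δ)) (fun I _ => sum_nonneg (hnn I)) (mem_univ I₂))
    refine lt_of_lt_of_le ?_ (single_le_sum (hnn I₂) (a := (J : ℤ)) (by
      rw [mem_Icc]
      omega))
    positivity
  refine lt_of_lt_of_le hpos (le_of_tendsto_of_tendsto hlim2 hc ?_)
  filter_upwards [good_lower hk hι hθ hO hG hc₁ hG1 i₀ eI heI hδ0 hη0 s J,
    eventually_ge_atTop (1 : ℝ)] with L h2 hL
  refine div_le_div_of_nonneg_right ?_ (by positivity)
  exact_mod_cast h2

end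

end Run7.h3.PM
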