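import Pool.Agent.Run7.h3.PM.Bad

set_option autoImplicit false
set_option linter.unusedSectionVars false
set_option linter.unusedVariables false

/-! Weighted sums over the lattices which are singular modulo a prime. -/

namespace Run7.h3.PM

open Finset Module Filter Topology

open Classical in
/-- the subgroups of a subgroup -/
theorem wsn_sub {k n : ℕ} (H : SLg (Fin k → ℤ)) (p : ℕ) (c : ℕ → ℝ) (y : ℝ) :
    wsn k n p (fun N => if N.1 ≤ H.1 then c N.idx else 0) y =
      (H.idx : ℝ) ^ p * wsn k n p (fun N => c (N.idx * H.idx)) (y / (H.idx : ℝ) ^ n) := by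
  have hH : (0 : ℝ) < H.idx := by exact_mod_cast H.idx_pos
  obtain ⟨b⟩ := exists_basis H.1 H.2
  have e0 : H.1 ≃+ (Fin k → ℤ) := b.equivFun.toAddEquiv
  have hidx : ∀ N : AddSubgroup (Fin k → ℤ), N ≤ H.1 →
      (N.addSubgroupOf H.1).index * H.idx = N.index := fun N hN =>
    AddSubgroup.relIndex_mul_index hN
  let E : {N : SLg (Fin k → ℤ) // N.1 ≤ H.1} ≃ SLg H.1 :=
    { toFun := fun N => ⟨N.1.1.addSubgroupOf H.1, fun h => N.1.2 (by
        rw [← hidx _ N.2, h, zero_mul])⟩
      invFun := fun N => ⟨⟨N.1.map H.1.subtype, by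
        have h1 : (N.1.map H.1.subtype) ≤ H.1 := by
          rintro _ ⟨y, -, rfl⟩
          exact y.2
        have h2 : (N.1.map H.1.subtype).addSubgroupOf H.1 = N.1 := by
          rw [AddSubgroup.addSubgroupOf, AddSubgroup.comap_map_eq_self_of_injective
            (AddSubgroup.subtype_injective _)]
        rw [← hidx _ h1, h2]
        exact mul_ne_zero N.2 H.idx_pos.ne'⟩, by
          rintro _ ⟨y, -, rfl⟩
          exact y.2⟩
      left_inv := by
        rintro ⟨⟨N, hN⟩, hle⟩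
        apply Subtype.ext
        apply Subtype.ext
        simp only
        rw [AddSubgroup.addSubgroupOf_map_subtype]
        exact inf_eq_left.2 hle
      right_inv := by
        rintro ⟨N, hN⟩
        apply Subtype.ext
        simp only
        rw [AddSubgroup.addSubgroupOf, AddSubgroup.comap_map_eq_self_of_injective
            (AddSubgroup.subtype_injective _)] }
  have hE : ∀ N : {N : SLg (Fin k → ℤ) // N.1 ≤ H.1}, N.1.idx = (E N).idx * H.idx := by
    intro N
    exact (hidx _ N.2).symm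
  unfold wsn
  have h1 : ∑' N : SLg (Fin k → ℤ), (if (N.idx : ℝ) ^ n ≤ y then
      (if N.1 ≤ H.1 then c N.idx else 0) * (N.idx : ℝ) ^ p else 0) =
      ∑' N : {N : SLg (Fin k → ℤ) // N.1 ≤ H.1}, (if (N.1.idx : ℝ) ^ n ≤ y then
        c N.1.idx * (N.1.idx : ℝ) ^ p else 0) := by
    rw [← tsum_subtype_eq_of_support_subset (s := {N : SLg (Fin k → ℤ) | N.1 ≤ H.1})]
    · refine tsum_congr fun N => ?_
      have : (N : SLg (Fin k → ℤ)).1 ≤ H.1 := N.2
      rw [if_pos this]
    · intro N hN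
      by_contra h
      refine hN ?_
      have : ¬ N.1 ≤ H.1 := h
      simp only [if_neg this, zero_mul, ite_self]
  rw [h1, ← tsum_mul_left, ← (SLg.congr e0).tsum_eq, ← E.tsum_eq]
  refine tsum_congr fun N => ?_
  simp only [SLg.congr_idx]
  rw [hE N]
  have h2 : (((E N).idx * H.idx : ℕ) : ℝ) ^ n ≤ y ↔ ((E N).idx : ℝ) ^ n ≤ y / (H.idx : ℝ) ^ n := by
    rw [le_div_iff₀ (by positivity)]
    push_cast
    rw [mul_pow]
  by_cases h3 : ((E N).idx : ℝ) ^ n ≤ y / (H.idx : ℝ) ^ n
  · rw [if_pos h3, if_pos (h2.2 h3)]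
    push_cast
    rw [mul_pow]
    ring
  · rw [if_neg h3, if_neg (fun h => h3 (h2.1 h)), mul_zero]

theorem wsn_mono {k n : ℕ} (hn : 0 < n) {w w' : SLg (Fin k → ℤ) → ℝ} (h : ∀ N, w N ≤ w' N) (p : ℕ)
    (y : ℝ) : wsn k n p w y ≤ wsn k n p w' y := by
  rw [wsn_sum hn, wsn_sum hn]
  exact sum_le_sum fun N _ => mul_le_mul_of_nonneg_right (h N) (by positivity)

theorem wsn_nonneg {k n : ℕ} (hn : 0 < n) {w : SLg (Fin k → ℤ) → ℝ} (h : ∀ N, 0 ≤ w N) (p : ℕ)
    (y : ℝ) : 0 ≤ wsn k n p w y := by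
  rw [wsn_sum hn]
  exact sum_nonneg fun N _ => mul_nonneg (h N) (by positivity)

theorem wsn_finset_sum {k n : ℕ} (hn : 0 < n) {α : Type} (t : Finset α)
    (w : α → SLg (Fin k → ℤ) → ℝ) (p : ℕ) (y : ℝ) :
    wsn k n p (fun N => ∑ a ∈ t, w a N) y = ∑ a ∈ t, wsn k n p (w a) y := by
  simp_rw [wsn_sum hn, sum_mul]
  exact sum_comm

theorem wsn_le_const {k m : ℕ} (hk : 0 < k) : ∃ C : ℝ, 0 < C ∧ ∀ (w : SLg (Fin k → ℤ) → ℝ),
    (∀ N, w N ≤ 1) → ∀ y : ℝ, 0 ≤ y → wsn k (k + m) m w y ≤ C * y := by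
  obtain ⟨C, hC, h⟩ := wsum_le k m
  have hn : 0 < k + m := by omega
  refine ⟨C, hC, fun w hw y hy => ?_⟩
  refine (wsn_mono hn hw m y).trans ?_
  rw [wsn_eq hn m _ hy]
  have h1 := h (y ^ (((k + m : ℕ) : ℝ)⁻¹)) (by positivity)
  rwa [Real.rpow_inv_natCast_pow hy hn.ne'] at h1

/-- the functional given by a vector -/
noncomputable def dotF {k p : ℕ} [Fact p.Prime] (v : Fin k → ZMod p) :
    (Fin k → ZMod p) →ₗ[ZMod p] ZMod p :=
  ∑ i, v i • LinearMap.proj i

theorem dotF_apply {k p : ℕ} [Fact p.Prime] (v x : Fin k → ZMod p) :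
    dotF v x = ∑ i, v i * x i := by
  simp [dotF]

theorem dotF_ne {k p : ℕ} [Fact p.Prime] {v : Fin k → ZMod p} {i : Fin k} (hv : v i = 1) :
    dotF v ≠ 0 := by
  intro h
  have h1 := congrArg (fun φ : (Fin k → ZMod p) →ₗ[ZMod p] ZMod p => φ (Pi.single i 1)) h
  simp only [LinearMap.zero_apply] at h1
  rw [dotF_apply] at h1
  rw [Finset.sum_eq_single i] at h1
  · rw [Pi.single_eq_same, hv, mul_one] at h1
    exact one_ne_zero h1
  · intro j _ hj
    rw [Pi.single_eq_of_ne hj, mul_zero]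
  · intro h
    exact absurd (mem_univ _) h

/-- the lattice given by a vector -/
noncomputable def Hv {k p : ℕ} [Fact p.Prime] (v : Fin k → ZMod p) : AddSubgroup (Fin k → ℤ) :=
  Hp p (dotF v : (Fin k → ZMod p) →+ ZMod p)

theorem le_Hv {k p : ℕ} [Fact p.Prime] {N : SLg (Fin k → ℤ)} {u : Fin k → ZMod p}
    (h : (red p (VN N)).mulVec u = 0) (c : ZMod p) : N.1 ≤ Hv (fun i => c * u i) := by
  intro x hx
  obtain ⟨a, rfl⟩ := (mem_N N x).1 hx
  unfold Hv
  rw [mem_Hp]
  change dotF (fun i => c * u i) (rdv p (∑ i, a i • VN N i)) = 0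
  have h1 : rdv p (∑ i, a i • VN N i) = ∑ i, ((a i : ℤ) : ZMod p) • rdv p (VN N i) := by
    funext l
    simp [rdv]
  rw [h1, map_sum]
  refine sum_eq_zero fun i _ => ?_
  rw [map_smul, dotF_apply]
  have h2 := congrFun h i
  have h3 : ∑ l, c * u l * rdv p (VN N i) l = c * (red p (VN N)).mulVec u i := by
    unfold Matrix.mulVec dotProduct
    rw [mul_sum]
    refine sum_congr rfl fun l _ => ?_
    change c * u l * ((VN N i l : ℤ) : ZMod p) = c * (((VN N i l : ℤ) : ZMod p) * u l)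
    ring
  rw [h3, h2, Pi.zero_apply, mul_zero, smul_zero]

/-- the weights of the lattices of index prime to `Q` -/
noncomputable def cw (k Q : ℕ) (N : SLg (Fin k → ℤ)) : ℝ :=
  if Nat.Coprime N.idx Q then 1 else 0

theorem cw_nonneg (k Q : ℕ) (N : SLg (Fin k → ℤ)) : 0 ≤ cw k Q N := by
  unfold cw
  split_ifs <;> norm_num

theorem cw_le_one (k Q : ℕ) (N : SLg (Fin k → ℤ)) : cw k Q N ≤ 1 := by
  unfold cw
  split_ifs <;> norm_num

open Classical in
theorem wsn_Hv {k m Q p : ℕ} [Fact p.Prime] (hpQ : ¬ p ∣ Q) {v : Fin k → ZMod p} {i : Fin k}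
    (hv : v i = 1) (y : ℝ) :
    wsn k (k + m) m (fun N => if N.1 ≤ Hv v then cw k Q N else 0) y =
      (p : ℝ) ^ m * wsn k (k + m) m (cw k Q) (y / (p : ℝ) ^ (k + m)) := by
  have hp : p.Prime := Fact.out
  have hidx : (Hv v).index = p := Hp_index (dotF_ne hv)
  set H : SLg (Fin k → ℤ) := ⟨Hv v, by rw [hidx]; exact hp.ne_zero⟩ with hH
  have hHi : H.idx = p := hidx
  have h1 := wsn_sub (n := k + m) H m (fun D => if Nat.Coprime D Q then (1 : ℝ) else 0) y
  rw [hHi] at h1
  have h2 : (fun N : SLg (Fin k → ℤ) => if Nat.Coprime (N.idx * p) Q then (1 : ℝ) else 0) =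
      cw k Q := by
    funext N
    unfold cw
    have h3 : Nat.Coprime p Q := (Nat.Prime.coprime_iff_not_dvd hp).2 hpQ
    have h4 : Nat.Coprime (N.idx * p) Q ↔ Nat.Coprime N.idx Q := by
      rw [Nat.coprime_mul_iff_left]
      exact and_iff_left h3
    by_cases h5 : Nat.Coprime N.idx Q
    · rw [if_pos h5, if_pos (h4.2 h5)]
    · rw [if_neg h5, if_neg fun h6 => h5 (h4.1 h6)]
  rw [h2] at h1
  exact h1

theorem card_v1 {k p : ℕ} [NeZero p] (i : Fin k) (a : ZMod p) :
    {v : Fin k → ZMod p | v i = a}.ncard ≤ p ^ (k - 1) := by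
  classical
  have h1 : {v : Fin k → ZMod p | v i = a}.ncard ≤
      (Set.univ : Set ({j : Fin k // j ≠ i} → ZMod p)).ncard := by
    refine Set.ncard_le_ncard_of_injOn (fun v j => v j.1) (fun _ _ => Set.mem_univ _) ?_
      (Set.toFinite _)
    intro v hv v' hv' h
    funext j
    by_cases hj : j = i
    · rw [hj]
      exact (show v i = a from hv).trans (show v' i = a from hv').symm
    · exact congrFun h ⟨j, hj⟩
  refine h1.trans (le_of_eq ?_)
  rw [Set.ncard_univ, Nat.card_fun, Nat.card_zmod]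
  congr 1
  simp

theorem card_v2 {k p : ℕ} [NeZero p] {i i' : Fin k} (hi : i ≠ i') (a a' : ZMod p) :
    {v : Fin k → ZMod p | v i = a ∧ v i' = a'}.ncard ≤ p ^ (k - 2) := by
  classical
  have h1 : {v : Fin k → ZMod p | v i = a ∧ v i' = a'}.ncard ≤
      (Set.univ : Set ({j : Fin k // j ∉ ({i, i'} : Finset (Fin k))} → ZMod p)).ncard := by
    refine Set.ncard_le_ncard_of_injOn (fun v j => v j.1) (fun _ _ => Set.mem_univ _) ?_
      (Set.toFinite _)
    intro v hv v' hv' h
    funext j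
    by_cases hj : j = i
    · rw [hj]
      exact (show v i = a from hv.1).trans (show v' i = a from hv'.1).symm
    · by_cases hj' : j = i'
      · rw [hj']
        exact (show v i' = a' from hv.2).trans (show v' i' = a' from hv'.2).symm
      · exact congrFun h ⟨j, by simp [hj, hj']⟩
  refine h1.trans (le_of_eq ?_)
  rw [Set.ncard_univ, Nat.card_fun, Nat.card_zmod]
  congr 1
  rw [Nat.card_eq_fintype_card, Fintype.card_subtype_compl, Fintype.card_fin]
  congr 1
  rw [Fintype.card_coe, card_pair hi]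

open Classical in
/-- lattices with determinant divisible by `p` -/
theorem wsn_dvd {k m Q p : ℕ} (hk : 1 ≤ k) (hp : p.Prime) (hpQ : ¬ p ∣ Q) (y : ℝ) :
    wsn k (k + m) m (fun N => if (p : ℤ) ∣ (VN N).det then cw k Q N else 0) y ≤
      k * (p : ℝ) ^ (k - 1 + m) * wsn k (k + m) m (cw k Q) (y / (p : ℝ) ^ (k + m)) := by
  have : Fact p.Prime := ⟨hp⟩
  have hn : 0 < k + m := by omega
  set X : Finset (Σ i : Fin k, {v : Fin k → ZMod p // v i = 1}) := univ with hX
  have h1 : wsn k (k + m) m (fun N => if (p : ℤ) ∣ (VN N).det then cw k Q N else 0) y ≤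
      wsn k (k + m) m (fun N => ∑ x ∈ X, if N.1 ≤ Hv x.2.1 then cw k Q N else 0) y := by
    refine wsn_mono hn (fun N => ?_) m y
    split_ifs with hD
    · have hdet : (red p (VN N)).det = 0 := by
        have h2 : (red p (VN N)).det = (((VN N).det : ℤ) : ZMod p) :=
          ((Int.castRingHom (ZMod p)).map_det (VN N)).symm
        rw [h2]
        exact (ZMod.intCast_zmod_eq_zero_iff_dvd _ _).2 hD
      obtain ⟨u, hu0, hu⟩ := Matrix.exists_mulVec_eq_zero_iff.2 hdet
      obtain ⟨i, hi⟩ := Function.ne_iff.1 hu0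
      have h3 := le_Hv hu (u i)⁻¹
      have h4 : (fun j => (u i)⁻¹ * u j) i = 1 := inv_mul_cancel₀ hi
      refine le_trans (le_of_eq ?_) (single_le_sum (f := fun x : (Σ i : Fin k,
        {v : Fin k → ZMod p // v i = 1}) => if N.1 ≤ Hv x.2.1 then cw k Q N else 0)
        (fun x _ => ?_) (mem_univ ⟨i, ⟨fun j => (u i)⁻¹ * u j, h4⟩⟩))
      · exact (if_pos h3).symm
      · change 0 ≤ if N.1 ≤ Hv x.2.1 then cw k Q N else 0
        split_ifs
        · exact cw_nonneg k Q N
        · exact le_rfl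
    · exact sum_nonneg fun x _ => by
        split_ifs
        · exact cw_nonneg k Q N
        · exact le_rfl
  refine h1.trans ?_
  rw [wsn_finset_sum hn X (fun x N => if N.1 ≤ Hv x.2.1 then cw k Q N else 0),
    sum_congr rfl fun x _ => wsn_Hv (m := m) hpQ x.2.2 y, sum_const, nsmul_eq_mul, ← mul_assoc]
  refine mul_le_mul_of_nonneg_right ?_ (wsn_nonneg hn (cw_nonneg k Q) m _)
  have h2 : X.card ≤ k * p ^ (k - 1) := by
    rw [hX, card_univ, Fintype.card_sigma]
    calc ∑ i : Fin k, Fintype.card {v : Fin k → ZMod p // v i = 1} ≤ ∑ i : Fin k, p ^ (k - 1) := by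
          refine sum_le_sum fun i _ => ?_
          have := card_v1 (p := p) i 1
          rwa [← Nat.card_coe_set_eq, Nat.card_eq_fintype_card] at this
      _ = _ := by rw [sum_const, card_univ, Fintype.card_fin, smul_eq_mul]
  have h3 : (X.card : ℝ) ≤ k * (p : ℝ) ^ (k - 1) := by exact_mod_cast h2
  rw [pow_add, ← mul_assoc]
  exact mul_le_mul_of_nonneg_right h3 (by positivity)

open Classical in
/-- lattices with a special kernel vector -/
theorem wsn_ker {k m Q p : ℕ} (hk : 1 ≤ k) (hp : p.Prime) (hpQ : ¬ p ∣ Q) (y : ℝ) :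
    wsn k (k + m) m (fun N => if Ker0 p (VN N) then cw k Q N else 0) y ≤
      (k : ℝ) ^ 2 * (p : ℝ) ^ (k - 2 + m) * wsn k (k + m) m (cw k Q) (y / (p : ℝ) ^ (k + m)) := by
  have : Fact p.Prime := ⟨hp⟩
  have hn : 0 < k + m := by omega
  set X : Finset (Σ i : {q : Fin k × Fin k // q.1 ≠ q.2},
    {v : Fin k → ZMod p // v i.1.1 = 1 ∧ v i.1.2 = 0}) := univ with hX
  have h1 : wsn k (k + m) m (fun N => if Ker0 p (VN N) then cw k Q N else 0) y ≤
      wsn k (k + m) m (fun N => ∑ x ∈ X, if N.1 ≤ Hv x.2.1 then cw k Q N else 0) y := by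
    refine wsn_mono hn (fun N => ?_) m y
    split_ifs with hD
    · obtain ⟨u, hu0, hu, i', hi'⟩ := hD
      obtain ⟨i, hi⟩ := Function.ne_iff.1 hu0
      have hne : i ≠ i' := by
        rintro rfl
        exact hi hi'
      have h3 := le_Hv hu (u i)⁻¹
      have h4 : (fun j => (u i)⁻¹ * u j) i = 1 ∧ (fun j => (u i)⁻¹ * u j) i' = 0 :=
        ⟨inv_mul_cancel₀ hi, by simp [hi']⟩
      refine le_trans (le_of_eq ?_) (single_le_sum (f := fun x : (Σ i : {q : Fin k × Fin k // q.1 ≠ q.2},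
        {v : Fin k → ZMod p // v i.1.1 = 1 ∧ v i.1.2 = 0}) => if N.1 ≤ Hv x.2.1 then cw k Q N else 0)
        (fun x _ => ?_) (mem_univ ⟨⟨(i, i'), hne⟩, ⟨fun j => (u i)⁻¹ * u j, h4⟩⟩))
      · exact (if_pos h3).symm
      · change 0 ≤ if N.1 ≤ Hv x.2.1 then cw k Q N else 0
        split_ifs
        · exact cw_nonneg k Q N
        · exact le_rfl
    · exact sum_nonneg fun x _ => by
        split_ifs
        · exact cw_nonneg k Q N
        · exact le_rfl
  refine h1.trans ?_
  rw [wsn_finset_sum hn X (fun x N => if N.1 ≤ Hv x.2.1 then cw k Q N else 0),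
    sum_congr rfl fun x _ => wsn_Hv (m := m) hpQ x.2.2.1 y, sum_const, nsmul_eq_mul, ← mul_assoc]
  refine mul_le_mul_of_nonneg_right ?_ (wsn_nonneg hn (cw_nonneg k Q) m _)
  have h2 : X.card ≤ k ^ 2 * p ^ (k - 2) := by
    rw [hX, card_univ, Fintype.card_sigma]
    calc ∑ i : {q : Fin k × Fin k // q.1 ≠ q.2},
          Fintype.card {v : Fin k → ZMod p // v i.1.1 = 1 ∧ v i.1.2 = 0} ≤
          ∑ i : {q : Fin k × Fin k // q.1 ≠ q.2}, p ^ (k - 2) := by
          refine sum_le_sum fun i _ => ?_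
          have := card_v2 (p := p) i.2 1 0
          rwa [← Nat.card_coe_set_eq, Nat.card_eq_fintype_card] at this
      _ ≤ _ := by
          rw [sum_const, card_univ, smul_eq_mul]
          refine Nat.mul_le_mul_right _ ?_
          refine (Fintype.card_subtype_le _).trans (le_of_eq ?_)
          rw [Fintype.card_prod, Fintype.card_fin]
          ring
  have h3 : (X.card : ℝ) ≤ (k : ℝ) ^ 2 * (p : ℝ) ^ (k - 2) := by exact_mod_cast h2
  rw [pow_add, ← mul_assoc]
  exact mul_le_mul_of_nonneg_right h3 (by positivity)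

open Classical in
/-- the density of the lattices of index prime to `Q` -/
theorem cw_tendsto {k : ℕ} (hk : 0 < k) (m : ℕ) {Q : ℕ} (hQ : 0 < Q) :
    ∃ κ : ℝ, 0 ≤ κ ∧ Tendsto (fun y : ℝ => wsn k (k + m) m (cw k Q) y / y) atTop (𝓝 κ) := by
  obtain ⟨κ, hκ⟩ := wsn_res hk m hQ (fun H => if H = ⊤ then (1 : ℝ) else 0)
  have h1 : (fun N : SLg (Fin k → ℤ) => if N.1 ⊔ Qs k Q = ⊤ then (1 : ℝ) else 0) = cw k Q := by
    funext N
    unfold cw
    have := coprime_iff hQ N
    by_cases h : Nat.Coprime N.idx Q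
    · rw [if_pos h, if_pos (this.1 h)]
    · rw [if_neg h, if_neg fun h2 => h (this.2 h2)]
  rw [h1] at hκ
  refine ⟨κ, ?_, hκ⟩
  refine ge_of_tendsto hκ ?_
  filter_upwards [eventually_gt_atTop 0] with y hy
  exact div_nonneg (wsn_nonneg (by omega) (cw_nonneg k Q) m y) hy.le

/-- the sum over the large primes -/
noncomputable def Gz (k m Q z : ℕ) (y : ℝ) : ℝ :=
  ∑' p : ℕ, if z < p then (p : ℝ) ^ (k + m - 2) * wsn k (k + m) m (cw k Q) (y / (p : ℝ) ^ (k + m))
    else 0

theorem tsum_tail {z : ℕ} (hz : 1 ≤ z) : ∑' p : ℕ, (if z < p then ((p : ℝ) ^ 2)⁻¹ else 0) ≤ 1 / z := by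
  have hs : Summable fun p : ℕ => ((p : ℝ) ^ 2)⁻¹ := by
    exact Real.summable_nat_pow_inv.2 (show 1 < 2 by norm_num)
  have hs2 : Summable fun p : ℕ => (if z < p then ((p : ℝ) ^ 2)⁻¹ else 0) :=
    Summable.of_nonneg_of_le (fun p => by split_ifs <;> positivity)
      (fun p => by split_ifs; exact le_rfl; positivity) hs
  refine hs2.tsum_le_of_sum_range_le fun n => ?_
  rw [← sum_filter]
  have h1 : (range n).filter (fun p => z < p) ⊆ Finset.Ioc z (max n z) := by
    intro p hp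
    rw [mem_filter, mem_range] at hp
    rw [Finset.mem_Ioc]
    exact ⟨hp.2, hp.1.le.trans (le_max_left _ _)⟩
  refine (sum_le_sum_of_subset_of_nonneg h1 fun _ _ _ => by positivity).trans ?_
  refine (sum_Ioc_inv_sq_le_sub (by omega) (le_max_right _ _)).trans ?_
  rw [one_div]
  have : (0 : ℝ) ≤ ((max n z : ℕ) : ℝ)⁻¹ := by positivity
  linarith

theorem Gz_tendsto {k m : ℕ} (hk : 2 ≤ k) {Q z : ℕ} {κ : ℝ}
    (hκ : Tendsto (fun y : ℝ => wsn k (k + m) m (cw k Q) y / y) atTop (𝓝 κ)) :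
    Tendsto (fun y : ℝ => Gz k m Q z y / y) atTop
      (𝓝 (κ * ∑' p : ℕ, (if z < p then ((p : ℝ) ^ 2)⁻¹ else 0))) := by
  have hn : 0 < k + m := by omega
  obtain ⟨C, hC, hCb⟩ := wsn_le_const (m := m) (show 0 < k by omega)
  rw [← tsum_mul_left]
  have hs : Summable fun p : ℕ => C * ((p : ℝ) ^ 2)⁻¹ :=
    (Real.summable_nat_pow_inv.2 (show 1 < 2 by norm_num) :
      Summable fun p : ℕ => ((p : ℝ) ^ 2)⁻¹).mul_left C
  have h1 : Tendsto (fun y : ℝ => ∑' p : ℕ, (if z < p then (p : ℝ) ^ (k + m - 2) *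
      wsn k (k + m) m (cw k Q) (y / (p : ℝ) ^ (k + m)) / y else 0)) atTop
      (𝓝 (∑' p : ℕ, κ * (if z < p then ((p : ℝ) ^ 2)⁻¹ else 0))) := by
    refine tendsto_tsum_of_dominated_convergence hs (fun p => ?_) ?_
    · by_cases hzp : z < p
      · simp only [if_pos hzp]
        have hp : (0 : ℝ) < p := by
          have : 0 < p := by omega
          exact_mod_cast this
        have h2 := (hκ.comp (tendsto_id.atTop_div_const (show (0 : ℝ) < (p : ℝ) ^ (k + m) by
          positivity))).mul_const (((p : ℝ) ^ 2)⁻¹)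
        refine h2.congr' ?_
        filter_upwards [eventually_gt_atTop 0] with y hy
        simp only [Function.comp, id]
        generalize wsn k (k + m) m (cw k Q) (y / (p : ℝ) ^ (k + m)) = P
        have h3 : (p : ℝ) ^ (k + m) = (p : ℝ) ^ (k + m - 2) * (p : ℝ) ^ 2 := by
          rw [← pow_add]
          congr 1
          omega
        rw [h3]
        field_simp
      · simp only [if_neg hzp, mul_zero]
        exact tendsto_const_nhds
    · filter_upwards [eventually_gt_atTop 0] with y hy p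
      split_ifs with hzp
      · have hp : (0 : ℝ) < p := by
          have : 0 < p := by omega
          exact_mod_cast this
        have h2 := hCb _ (cw_le_one k Q) (y / (p : ℝ) ^ (k + m)) (by positivity)
        have h3 := wsn_nonneg hn (cw_nonneg k Q) m (y / (p : ℝ) ^ (k + m))
        rw [Real.norm_of_nonneg (by positivity), div_le_iff₀ hy]
        calc (p : ℝ) ^ (k + m - 2) * wsn k (k + m) m (cw k Q) (y / (p : ℝ) ^ (k + m)) ≤
            (p : ℝ) ^ (k + m - 2) * (C * (y / (p : ℝ) ^ (k + m))) := by gcongr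
          _ = C * ((p : ℝ) ^ 2)⁻¹ * y := by
              have h3 : (p : ℝ) ^ (k + m) = (p : ℝ) ^ (k + m - 2) * (p : ℝ) ^ 2 := by
                rw [← pow_add]
                congr 1
                omega
              rw [h3]
              field_simp
      · rw [norm_zero]
        positivity
  refine h1.congr fun y => ?_
  unfold Gz
  rw [← tsum_div_const]
  refine tsum_congr fun p => ?_
  split_ifs
  · rfl
  · rw [zero_div]

theorem Gz_summable {k m : ℕ} (hk : 2 ≤ k) (Q z : ℕ) {y : ℝ} (hy : 0 ≤ y) :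
    Summable fun p : ℕ => if z < p then (p : ℝ) ^ (k + m - 2) *
      wsn k (k + m) m (cw k Q) (y / (p : ℝ) ^ (k + m)) else 0 := by
  have hn : 0 < k + m := by omega
  obtain ⟨C, hC, hCb⟩ := wsn_le_const (m := m) (show 0 < k by omega)
  have hs : Summable fun p : ℕ => C * y * ((p : ℝ) ^ 2)⁻¹ :=
    (Real.summable_nat_pow_inv.2 (show 1 < 2 by norm_num) :
      Summable fun p : ℕ => ((p : ℝ) ^ 2)⁻¹).mul_left (C * y)
  refine Summable.of_nonneg_of_le (fun p => ?_) (fun p => ?_) hs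
  · split_ifs
    · exact mul_nonneg (by positivity) (wsn_nonneg hn (cw_nonneg k Q) m _)
    · exact le_rfl
  · split_ifs with hzp
    · have hp : (0 : ℝ) < p := by
        have : 0 < p := by omega
        exact_mod_cast this
      have h2 := hCb _ (cw_le_one k Q) (y / (p : ℝ) ^ (k + m)) (by positivity)
      calc (p : ℝ) ^ (k + m - 2) * wsn k (k + m) m (cw k Q) (y / (p : ℝ) ^ (k + m)) ≤
          (p : ℝ) ^ (k + m - 2) * (C * (y / (p : ℝ) ^ (k + m))) := by gcongr
        _ = C * y * ((p : ℝ) ^ 2)⁻¹ := by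
            have h3 : (p : ℝ) ^ (k + m) = (p : ℝ) ^ (k + m - 2) * (p : ℝ) ^ 2 := by
              rw [← pow_add]
              congr 1
              omega
            rw [h3]
            field_simp
    · positivity

end Run7.h3.PM
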