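import Pool.Agent.Run7.h3.PM.Stb
import Pool.Agent.Run7.h3.PM.Sub

set_option autoImplicit false
set_option linter.unusedSectionVars false
set_option linter.unusedVariables false

/-! Positivity of densities. -/

namespace Run7.h3.PM

open Finset Module Filter Topology Run7.h3.GT

/-- lower bound for the weighted sums -/
theorem wsn_lower {k' m Q : ℕ} (hQ : 0 < Q) (T : ℕ) {y : ℝ} (hT : ((1 + Q * T : ℕ) : ℝ) ^ (k' + 1 + m) ≤ y) :
    ∑ t ∈ range T, ((t : ℝ) + 1) ^ (k' + m) ≤ wsn (k' + 1) (k' + 1 + m) m (cw (k' + 1) Q) y := by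
  classical
  set f : ℕ → ENNReal := fun n => if Nat.Coprime n Q ∧ (n : ℝ) ^ (k' + 1 + m) ≤ y then
    (n : ENNReal) ^ m else 0 with hf
  have hft : ∀ n, f n ≠ ⊤ := by
    intro n
    simp only [hf]
    split_ifs
    · exact ENNReal.pow_ne_top (ENNReal.natCast_ne_top _)
    · exact ENNReal.zero_ne_top
  have hn : 0 < k' + 1 + m := by omega
  have h1 := tsum_rec (k := k') f
  have hsum : Summable fun N : SLg (Fin (k' + 1) → ℤ) => if (N.idx : ℝ) ^ (k' + 1 + m) ≤ y then
      cw (k' + 1) Q N * (N.idx : ℝ) ^ m else 0 := by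
    refine summable_of_ne_finset_zero (s := (finite_pow_le (k' + 1) hn y).toFinset) fun N hN => ?_
    rw [Set.Finite.mem_toFinset] at hN
    have hN' : ¬ (N.idx : ℝ) ^ (k' + 1 + m) ≤ y := hN
    rw [if_neg hN']
  have h2 : ENNReal.ofReal (wsn (k' + 1) (k' + 1 + m) m (cw (k' + 1) Q) y) =
      ∑' N : SLg (Fin (k' + 1) → ℤ), f N.idx := by
    unfold wsn
    rw [ENNReal.ofReal_tsum_of_nonneg (fun N => ?_) hsum]
    · refine tsum_congr fun N => ?_
      simp only [hf]
      unfold cw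
      by_cases g1 : Nat.Coprime N.idx Q
      · by_cases g2 : (N.idx : ℝ) ^ (k' + 1 + m) ≤ y
        · rw [if_pos g1, if_pos g2, if_pos ⟨g1, g2⟩, one_mul, ENNReal.ofReal_pow (by positivity),
            ENNReal.ofReal_natCast]
        · rw [if_neg g2, if_neg (fun h => g2 h.2), ENNReal.ofReal_zero]
      · have g3 : ¬ (Nat.Coprime N.idx Q ∧ (N.idx : ℝ) ^ (k' + 1 + m) ≤ y) := fun h => g1 h.1
        rw [if_neg g3, if_neg g1]
        simp
    · split_ifs
      · exact mul_nonneg (cw_nonneg _ _ _) (by positivity)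
      · exact le_rfl
  -- the term of the whole lattice
  set H : SLg (Fin k' → ℤ) := ⟨⊤, by simp⟩ with hH
  have hHi : H.idx = 1 := by
    change (⊤ : AddSubgroup (Fin k' → ℤ)).index = 1
    simp
  have h3 : ENNReal.ofReal (∑ t ∈ range T, ((t : ℝ) + 1) ^ (k' + m)) ≤
      ∑' d : ℕ+, ((d : ℕ) : ENNReal) ^ k' * f (d * H.idx) := by
    rw [hHi]
    simp only [mul_one]
    set X : Finset ℕ+ := (range T).image fun t => ⟨1 + Q * (t + 1), by omega⟩ with hX
    refine le_trans ?_ (ENNReal.sum_le_tsum X)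
    rw [hX, sum_image]
    · rw [ENNReal.ofReal_sum_of_nonneg fun _ _ => by positivity]
      refine sum_le_sum fun t ht => ?_
      have ht' : t + 1 ≤ T := mem_range.1 ht
      have g1 : Nat.Coprime (1 + Q * (t + 1)) Q := by
        rw [Nat.coprime_add_mul_left_left]
        exact Nat.coprime_one_left Q
      have g2 : ((1 + Q * (t + 1) : ℕ) : ℝ) ^ (k' + 1 + m) ≤ y := by
        refine le_trans (pow_le_pow_left₀ (by positivity) ?_ _) hT
        have : 1 + Q * (t + 1) ≤ 1 + Q * T := by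
          have := Nat.mul_le_mul_left Q ht'
          omega
        exact_mod_cast this
      simp only [hf, PNat.mk_coe]
      rw [if_pos ⟨g1, g2⟩, ← pow_add]
      rw [← ENNReal.ofReal_natCast, ← ENNReal.ofReal_pow (by positivity)]
      refine ENNReal.ofReal_le_ofReal (pow_le_pow_left₀ (by positivity) ?_ _)
      have : t + 1 ≤ 1 + Q * (t + 1) := by nlinarith
      exact_mod_cast this
    · intro a _ b _ h
      have h4 := congrArg PNat.val h
      simp only [PNat.mk_coe] at h4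
      have h5 : Q * (a + 1) = Q * (b + 1) := by
        have h6 : 1 + Q * (a + 1) = 1 + Q * (b + 1) := h4
        omega
      have := Nat.eq_of_mul_eq_mul_left hQ h5
      omega
  have h4 : ENNReal.ofReal (∑ t ∈ range T, ((t : ℝ) + 1) ^ (k' + m)) ≤
      ENNReal.ofReal (wsn (k' + 1) (k' + 1 + m) m (cw (k' + 1) Q) y) := by
    rw [h2, h1]
    exact h3.trans (ENNReal.le_tsum H)
  exact (ENNReal.ofReal_le_ofReal_iff (wsn_nonneg hn (cw_nonneg _ _) m y)).1 h4

/-- the density of the lattices of index prime to `Q` is positive -/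
theorem cw_pos {k : ℕ} (hk : 0 < k) {m : ℕ} {Q : ℕ} (hQ : 0 < Q) {κ : ℝ}
    (hκ : Tendsto (fun y : ℝ => wsn k (k + m) m (cw k Q) y / y) atTop (𝓝 κ)) : 0 < κ := by
  obtain ⟨k', rfl⟩ : ∃ k', k = k' + 1 := ⟨k - 1, by omega⟩
  -- the sequence `y = (1 + Q T)^n`
  have hQ' : (1 : ℝ) ≤ Q := by exact_mod_cast hQ
  set n := k' + 1 + m with hn
  have hY : Tendsto (fun T : ℕ => ((1 + Q * T : ℕ) : ℝ) ^ n) atTop atTop := by
    refine (tendsto_pow_atTop (by omega)).comp (tendsto_natCast_atTop_atTop.comp ?_)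
    refine tendsto_atTop_mono (fun T => ?_) tendsto_id
    simp only [id]
    nlinarith
  have h1 := hκ.comp hY
  have h2 : (0 : ℝ) < 1 / (n * (2 * Q) ^ n) := by
    have : (0 : ℝ) < n := by
      have : 0 < n := by omega
      exact_mod_cast this
    positivity
  refine lt_of_lt_of_le h2 (ge_of_tendsto h1 ?_)
  filter_upwards [eventually_ge_atTop 1] with T hT
  simp only [Function.comp]
  have hT' : (1 : ℝ) ≤ T := by exact_mod_cast hT
  have h3 := wsn_lower (k' := k') (m := m) hQ T (le_refl (((1 + Q * T : ℕ) : ℝ) ^ (k' + 1 + m)))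
  have h4 := (sum_pow_bounds (k' + m) T).1
  have h5 : (((k' + m : ℕ) : ℝ) + 1) = n := by
    rw [hn]
    push_cast
    ring
  rw [h5] at h4
  have h6 : k' + m + 1 = n := by omega
  rw [h6] at h4
  have hn0 : (0 : ℝ) < n := by
    have : 0 < n := by omega
    exact_mod_cast this
  have h7 : (0 : ℝ) < ((1 + Q * T : ℕ) : ℝ) := by positivity
  rw [div_le_div_iff₀ (by positivity) (by positivity), one_mul]
  have h8 : ((1 + Q * T : ℕ) : ℝ) ≤ 2 * Q * T := by
    push_cast
    nlinarith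
  calc ((1 + Q * T : ℕ) : ℝ) ^ n ≤ (2 * Q * T) ^ n := pow_le_pow_left₀ h7.le h8 _
    _ = (2 * Q) ^ n * (T : ℝ) ^ n := by rw [mul_pow]
    _ ≤ (2 * Q) ^ n * (n * ∑ d ∈ range T, ((d : ℝ) + 1) ^ (k' + m)) := by gcongr
    _ ≤ (2 * Q) ^ n * (n * wsn (k' + 1) (k' + 1 + m) m (cw (k' + 1) Q)
        (((1 + Q * T : ℕ) : ℝ) ^ n)) := by gcongr
    _ = _ := by ring

section

variable {k m : ℕ}

/-- a generic matrix -/
theorem exists_gnr (k : ℕ) {ι : Type} [Fintype ι] : ∃ M : Matrix (Fin k) ι ℤ, Gnr M := by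
  obtain ⟨e⟩ : Nonempty (ι ≃ Fin (Fintype.card ι)) := ⟨Fintype.equivFin ι⟩
  refine ⟨Matrix.of fun i x => ((e x : ℕ) : ℤ) ^ (i : ℕ), fun f hf => ?_⟩
  unfold mnr
  have h1 : (Matrix.of fun (i : Fin k) x => ((e x : ℕ) : ℤ) ^ (i : ℕ)).submatrix id f =
      (Matrix.vandermonde fun l => (((e (f l) : Fin _) : ℕ) : ℤ)).transpose := by
    ext i l
    rfl
  rw [h1, Matrix.det_transpose, Matrix.det_vandermonde_ne_zero_iff]
  intro a b hab
  have h3 : (((e (f a) : Fin _) : ℕ) : ℤ) = (((e (f b) : Fin _) : ℕ) : ℤ) := hab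
  have h2 : ((e (f a) : Fin _) : ℕ) = ((e (f b) : Fin _) : ℕ) := by exact_mod_cast h3
  exact hf (e.injective (Fin.ext h2))

theorem tw_pre {ι κ : Type} [Fintype ι] [Fintype κ] (θ : ι → ℕ) (e : κ ≃ ι) (S : Set ι) :
    tw (θ ∘ e) (e ⁻¹' S) = tw θ S := by
  unfold tw
  rw [← e.sum_comp]
  rfl

theorem Sst.reix {K : Type} [Field K] {ι κ : Type} [Fintype ι] [Fintype κ] {θ : ι → ℕ}
    {M : Matrix (Fin k) ι K} (h : Sst θ M) (e : κ ≃ ι) : Sst (θ ∘ e) (M.submatrix id e) := by
  intro W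
  have h1 : {x : κ | (M.submatrix id e).col x ∈ W} = e ⁻¹' {x : ι | M.col x ∈ W} := rfl
  have h2 : ∑ x, (θ ∘ e) x = ∑ x, θ x := e.sum_comp θ
  rw [h1, tw_pre, h2]
  exact h W

theorem Sst.mul {K : Type} [Field K] {ι : Type} [Fintype ι] {θ : ι → ℕ} {M : Matrix (Fin k) ι K}
    (h : Sst θ M) {g : Matrix (Fin k) (Fin k) K} (hg : IsUnit g.det) : Sst θ (g * M) := by
  intro W
  have hg' : IsUnit g := (Matrix.isUnit_iff_isUnit_det g).2 hg
  set e : (Fin k → K) ≃ₗ[K] (Fin k → K) := LinearEquiv.ofBijective g.mulVecLin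
    ⟨Matrix.mulVec_injective_iff_isUnit.2 hg', Matrix.mulVec_surjective_iff_isUnit.2 hg'⟩ with he
  have h1 : {x : ι | (g * M).col x ∈ W} = {x : ι | M.col x ∈ W.comap e.toLinearMap} := by
    ext x
    rfl
  have h2 : finrank K (W.comap e.toLinearMap) = finrank K W := by
    have h3 : W.comap e.toLinearMap = W.map e.symm.toLinearMap :=
      Submodule.comap_equiv_eq_map_symm e W
    rw [h3]
    exact LinearEquiv.finrank_map_eq e.symm W
  rw [h1, ← h2]
  exact h _

/-- some minor of a semistable matrix does not vanish -/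
theorem Sst.minor (hk : 0 < k) {K : Type} [Field K] {ι : Type} [Fintype ι] [DecidableEq ι]
    {θ : ι → ℕ} (hθ : Adm k θ) (hι : 0 < Fintype.card ι) {M : Matrix (Fin k) ι K} (h : Sst θ M) :
    ∃ e : Mon k (id : ι → ι) fun _ => k, mono M e ≠ 0 := by
  refine rado_mono (β := (id : ι → ι)) (d := fun _ => k) (N := Fintype.card ι) hk (by
    rw [sum_const, card_univ, smul_eq_mul, mul_comm]) M fun A => ?_
  rw [sum_const, smul_eq_mul, mul_comm]
  by_contra hc
  push Not at hc
  have h0 : finrank K (csp (id : ι → ι) M A) ≤ k := by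
    refine (Submodule.finrank_le _).trans ?_
    rw [finrank_pi, Fintype.card_fin]
  have h1 := hθ.near' (A : Set ι) (finrank K (csp (id : ι → ι) M A)) h0 (by
    rw [Set.ncard_coe_finset]
    exact hc)
  refine absurd h1 (not_lt.2 ?_)
  refine le_trans (Nat.mul_le_mul_left k ?_) (h (csp (id : ι → ι) M A))
  refine tw_mono θ ?_
  intro x hx
  refine Submodule.subset_span ⟨x, ?_, rfl⟩
  simpa using hx

/-- the weights are constant outside of one point -/
def Mkd {ι : Type} (θ : ι → ℕ) (o : ι) : Prop := ∀ x y, x ≠ o → y ≠ o → θ x = θ y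

/-- a basis of a semistable matrix which contains a given column -/
theorem exists_bas (hk : 0 < k) {K : Type} [Field K] {ι : Type} [Fintype ι] {θ : ι → ℕ}
    (hθ : Adm k θ) {M : Matrix (Fin k) ι K} (h : Sst θ M) (o : ι) (i₀ : Fin k) :
    ∃ f : Fin k → ι, f i₀ = o ∧ mnr M f ≠ 0 := by
  classical
  have hsum : 0 < ∑ x, θ x := lt_of_lt_of_le (hθ.pos o)
    (single_le_sum (f := θ) (fun _ _ => Nat.zero_le _) (mem_univ o))
  have hspan : Submodule.span K (M.col '' Set.univ) = ⊤ := by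
    have h1 := h (Submodule.span K (M.col '' Set.univ))
    have h2 : {x : ι | M.col x ∈ Submodule.span K (M.col '' Set.univ)} = Set.univ := by
      ext x
      simp only [Set.mem_setOf_eq, Set.mem_univ, iff_true]
      exact Submodule.subset_span ⟨x, trivial, rfl⟩
    rw [h2, tw_univ, mul_comm] at h1
    have h3 := Nat.le_of_mul_le_mul_left h1 hsum
    refine Submodule.eq_top_of_finrank_eq ?_
    refine le_antisymm (Submodule.finrank_le _) ?_
    rw [finrank_pi, Fintype.card_fin]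
    exact h3
  have hne : M.col o ≠ 0 := by
    intro h0
    have h1 := h ⊥
    rw [finrank_bot, mul_zero] at h1
    have h2 : tw θ {x : ι | M.col x ∈ (⊥ : Submodule K (Fin k → K))} = 0 := by
      rcases Nat.mul_eq_zero.1 (Nat.le_zero.1 h1) with h3 | h3
      · omega
      · exact h3
    have h3 := le_tw θ (S := {x : ι | M.col x ∈ (⊥ : Submodule K (Fin k → K))}) (x := o) (by
      simp [h0])
    have := hθ.pos o
    omega
  have hi : LinearIndepOn K M.col {o} := by
    rw [linearIndepOn_singleton_iff]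
    exact hne
  set A := hi.extend (Set.subset_univ {o}) with hA
  have h0A : o ∈ A := hi.subset_extend (Set.subset_univ {o}) rfl
  have hAi : LinearIndepOn K M.col A := hi.linearIndepOn_extend (Set.subset_univ {o})
  have hAs : Submodule.span K (M.col '' A) = ⊤ := by
    rw [hi.span_image_extend_eq_span_image (Set.subset_univ {o}), hspan]
  have hAc : A.ncard = k := by
    rw [← rk_indep hAi, hAs]
    simp
  obtain ⟨e⟩ : Nonempty (Fin k ≃ A) := by
    refine ⟨(Fintype.equivFinOfCardEq ?_).symm⟩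
    rw [← Nat.card_eq_fintype_card]
    exact hAc
  set e' : Fin k ≃ A := (Equiv.swap i₀ (e.symm ⟨o, h0A⟩)).trans e with he'
  refine ⟨fun l => (e' l : ι), ?_, ?_⟩
  · change ((e (Equiv.swap i₀ (e.symm ⟨o, h0A⟩) i₀)) : ι) = o
    rw [Equiv.swap_apply_left, Equiv.apply_symm_apply]
  · rw [mnr_ne_iff]
    exact LinearIndependent.comp hAi e' e'.injective

/-- matrices with unit block which are semistable modulo `p` -/
theorem exists_Cp (hk : 0 < k) (hm : 0 < m) {th : Fin k ⊕ Fin m → ℕ} (hth : Adm k th) {i₀ : Fin k}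
    (hmk : Mkd th (Sum.inl i₀)) {p : ℕ} (hp : p.Prime) :
    ∃ C : Fin m → Fin k → ℤ, ¬ Uns th p (MM (1 : Matrix (Fin k) (Fin k) ℤ) C) := by
  classical
  have : Fact p.Prime := ⟨hp⟩
  obtain ⟨M₀, hM₀⟩ := exists_gnr k (ι := Fin k ⊕ Fin m)
  have hcard : Fintype.card (Fin k ⊕ Fin m) = k + m := by
    rw [Fintype.card_sum, Fintype.card_fin, Fintype.card_fin]
  obtain ⟨M, -, -, hM⟩ := exists_stab hk (by rw [hcard]; omega) hth hM₀
  have hs : Sst th (red p M) := by
    by_contra hns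
    exact hM p ⟨hp, hns⟩
  obtain ⟨f, hf0, hf⟩ := exists_bas hk hth hs (Sum.inl i₀) i₀
  have hfi : Function.Injective f := by
    by_contra hni
    exact hf (mnr_zero _ _ hni)
  -- the permutation
  let P : Fin k ⊕ Fin m → Prop := fun x => x ∈ Set.range (Sum.inl : Fin k → Fin k ⊕ Fin m)
  let P' : Fin k ⊕ Fin m → Prop := fun x => x ∈ Set.range f
  set e₁ : {x // P x} ≃ {x // P' x} := (Equiv.ofInjective (Sum.inl : Fin k → Fin k ⊕ Fin m)
    Sum.inl_injective).symm.trans (Equiv.ofInjective f hfi) with he₁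
  set τ : (Fin k ⊕ Fin m) ≃ (Fin k ⊕ Fin m) := e₁.extendSubtype with hτ
  have hτl : ∀ l, τ (Sum.inl l) = f l := by
    intro l
    rw [hτ, e₁.extendSubtype_apply_of_mem (Sum.inl l) ⟨l, rfl⟩]
    have h1 : e₁ ⟨Sum.inl l, ⟨l, rfl⟩⟩ = Equiv.ofInjective f hfi l := by
      rw [he₁]
      change Equiv.ofInjective f hfi ((Equiv.ofInjective (Sum.inl : Fin k → Fin k ⊕ Fin m)
        Sum.inl_injective).symm ⟨Sum.inl l, ⟨l, rfl⟩⟩) = _
      congr 1
      rw [Equiv.symm_apply_eq]
      rfl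
    rw [h1]
    rfl
  have hτth : th ∘ τ = th := by
    funext x
    by_cases hx : x = Sum.inl i₀
    · rw [hx, Function.comp_apply, hτl, hf0]
    · refine hmk _ _ (fun h => hx ?_) hx
      apply τ.injective
      rw [h, hτl, hf0]
  set A := (red p M).submatrix id τ with hA
  have hAs : Sst th A := by
    have h1 := hs.reix τ
    rwa [hτth] at h1
  set V : Matrix (Fin k) (Fin k) (ZMod p) := A.submatrix id Sum.inl with hV
  have hVd : V.det ≠ 0 := by
    have h1 : V = (red p M).submatrix id f := by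
      ext i l
      rw [hV, hA]
      simp only [Matrix.submatrix_apply, id, hτl]
    rw [h1]
    exact hf
  have hVu : IsUnit V.det := isUnit_iff_ne_zero.2 hVd
  have hB : Sst th (V⁻¹ * A) := hAs.mul (by
    rw [Matrix.det_nonsing_inv]
    exact (IsUnit.ringInverse hVu))
  choose C hC using fun x : Fin m × Fin k =>
    ZMod.intCast_surjective ((V⁻¹ * A) x.2 (Sum.inr x.1))
  refine ⟨fun j l => C (j, l), ?_⟩
  rintro ⟨_, hns⟩
  apply hns
  have h1 : red p (MM (1 : Matrix (Fin k) (Fin k) ℤ) fun j l => C (j, l)) = V⁻¹ * A := by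
    ext l x
    rcases x with i | j
    · have h2 : (V⁻¹ * A) l (Sum.inl i) = (V⁻¹ * V) l i := rfl
      rw [h2, Matrix.nonsing_inv_mul _ hVu]
      unfold red
      rw [Matrix.map_apply, MM_inl, Matrix.one_apply, Matrix.one_apply]
      split_ifs <;> simp
    · unfold red
      rw [Matrix.map_apply, MM_inr]
      exact hC (j, l)
  rw [h1]
  exact hB

/-- one matrix for all small primes -/
theorem exists_C₀ (hk : 0 < k) (hm : 0 < m) {th : Fin k ⊕ Fin m → ℕ} (hth : Adm k th)
    {i₀ : Fin k} (hmk : Mkd th (Sum.inl i₀)) (t : Finset ℕ) (ht : ∀ p ∈ t, p.Prime) :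
    ∃ C : Fin m → Fin k → ℤ, ∀ p ∈ t, ¬ Uns th p (MM (1 : Matrix (Fin k) (Fin k) ℤ) C) := by
  classical
  have h1 : ∀ p : ℕ, ∃ C : Fin m → Fin k → ℤ, p.Prime →
      ¬ Uns th p (MM (1 : Matrix (Fin k) (Fin k) ℤ) C) := by
    intro p
    by_cases hp : p.Prime
    · obtain ⟨C, hC⟩ := exists_Cp hk hm hth hmk hp
      exact ⟨C, fun _ => hC⟩
    · exact ⟨0, fun h => absurd h hp⟩
  choose C hC using h1
  obtain ⟨W, hW⟩ := crt (α := Fin m × Fin k) t ht (fun p x => C p x.1 x.2)
  refine ⟨fun j l => W (j, l), fun p hp hu => hC p (ht p hp) ?_⟩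
  obtain ⟨hpp, hu⟩ := hu
  refine ⟨hpp, ?_⟩
  have h2 : red p (MM (1 : Matrix (Fin k) (Fin k) ℤ) (C p)) =
      red p (MM (1 : Matrix (Fin k) (Fin k) ℤ) fun j l => W (j, l)) := by
    ext l x
    rcases x with i | j
    · rfl
    · have h3 := hW p hp (j, l)
      rw [← ZMod.intCast_zmod_eq_zero_iff_dvd, Int.cast_sub, sub_eq_zero] at h3
      exact h3.symm
  rw [h2]
  exact hu

end

end Run7.h3.PM
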