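import Pool.Agent.Run7.h3.PM.Lat2

set_option autoImplicit false
set_option linter.unusedSectionVars false
set_option linter.unusedVariables false

/-! The subgroups of `ℤ ^ k` with given reduction modulo `Q`. -/

namespace Run7.h3.PM

open Finset Module Filter Topology

open Classical in
/-- the subgroups of a subgroup -/
theorem wsum_sub {k : ℕ} (H : SLg (Fin k → ℤ)) (p : ℕ) (x : ℝ) :
    wsum k (fun N => if N.1 ≤ H.1 then 1 else 0) p x =
      (H.idx : ℝ) ^ p * wsum k (fun _ => 1) p (x / H.idx) := by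
  have hH : (0 : ℝ) < H.idx := by exact_mod_cast H.idx_pos
  obtain ⟨b⟩ := exists_basis H.1 H.2
  have e0 : H.1 ≃+ (Fin k → ℤ) := b.equivFun.toAddEquiv
  have hidx : ∀ N : AddSubgroup (Fin k → ℤ), N ≤ H.1 →
      (N.addSubgroupOf H.1).index * H.idx = N.index := fun N hN =>
    AddSubgroup.relIndex_mul_index hN
  let E : {N : SLg (Fin k → ℤ) // N.1 ≤ H.1} ≃ SLg H.1 :=
    { toFun := fun N => ⟨N.1.1.addSubgroupOf H.1, fun h => N.1.2 (by
        rw [← hidx _ N.2, h, zero_mul])⟩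
      invFun := fun N => ⟨⟨N.1.map H.1.subtype, by
        have h1 : (N.1.map H.1.subtype) ≤ H.1 := by
          rintro _ ⟨y, -, rfl⟩
          exact y.2
        have h2 : (N.1.map H.1.subtype).addSubgroupOf H.1 = N.1 := by
          rw [AddSubgroup.addSubgroupOf, AddSubgroup.comap_map_eq_self_of_injective
            (AddSubgroup.subtype_injective _)]
        rw [← hidx _ h1, h2]
        exact mul_ne_zero N.2 H.idx_pos.ne'⟩, by
          rintro _ ⟨y, -, rfl⟩
          exact y.2⟩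
      left_inv := by
        rintro ⟨⟨N, hN⟩, hle⟩
        apply Subtype.ext
        apply Subtype.ext
        simp only
        rw [AddSubgroup.addSubgroupOf_map_subtype]
        exact inf_eq_left.2 hle
      right_inv := by
        rintro ⟨N, hN⟩
        apply Subtype.ext
        simp only
        rw [AddSubgroup.addSubgroupOf, AddSubgroup.comap_map_eq_self_of_injective
            (AddSubgroup.subtype_injective _)] }
  have hE : ∀ N : {N : SLg (Fin k → ℤ) // N.1 ≤ H.1}, (N.1.idx : ℝ) = ((E N).idx : ℝ) * H.idx := by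
    intro N
    have := hidx _ N.2
    rw [← Nat.cast_mul]
    exact congrArg Nat.cast this.symm
  unfold wsum
  have h1 : ∑' N : SLg (Fin k → ℤ), (if (N.idx : ℝ) ≤ x then
      (if N.1 ≤ H.1 then (1 : ℝ) else 0) * (N.idx : ℝ) ^ p else 0) =
      ∑' N : {N : SLg (Fin k → ℤ) // N.1 ≤ H.1}, (if (N.1.idx : ℝ) ≤ x then (N.1.idx : ℝ) ^ p else 0) := by
    rw [← tsum_subtype_eq_of_support_subset (s := {N : SLg (Fin k → ℤ) | N.1 ≤ H.1})]
    · refine tsum_congr fun N => ?_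
      have : (N : SLg (Fin k → ℤ)).1 ≤ H.1 := N.2
      rw [if_pos this, one_mul]
    · intro N hN
      by_contra h
      refine hN ?_
      have : ¬ N.1 ≤ H.1 := h
      simp only [if_neg this, zero_mul, ite_self]
  rw [h1, ← tsum_mul_left, ← (SLg.congr e0).tsum_eq, ← E.tsum_eq]
  refine tsum_congr fun N => ?_
  rw [SLg.congr_idx, hE N, one_mul]
  have h2 : ((E N).idx : ℝ) * H.idx ≤ x ↔ ((E N).idx : ℝ) ≤ x / H.idx := (le_div_iff₀ hH).symm
  by_cases h3 : ((E N).idx : ℝ) ≤ x / H.idx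
  · rw [if_pos h3, if_pos (h2.2 h3), mul_pow]
    ring
  · rw [if_neg h3, if_neg (fun h => h3 (h2.1 h)), mul_zero]

/-- the multiples of `Q` -/
def Qs (k Q : ℕ) : AddSubgroup (Fin k → ℤ) where
  carrier := {v | ∀ i, (Q : ℤ) ∣ v i}
  zero_mem' := fun i => by simp
  add_mem' := fun hx hy i => dvd_add (hx i) (hy i)
  neg_mem' := fun hx i => (dvd_neg (α := ℤ)).2 (hx i)

theorem mem_Qs {k Q : ℕ} {v : Fin k → ℤ} : v ∈ Qs k Q ↔ ∀ i, (Q : ℤ) ∣ v i := Iff.rfl

theorem Qs_index (k : ℕ) {Q : ℕ} (hQ : 0 < Q) : (Qs k Q).index = Q ^ k := by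
  have : NeZero Q := ⟨hQ.ne'⟩
  set f : (Fin k → ℤ) →+ (Fin k → ZMod Q) :=
    { toFun := fun v i => ((v i : ℤ) : ZMod Q)
      map_zero' := by funext i; simp
      map_add' := fun x y => by funext i; simp } with hf
  have hker : f.ker = Qs k Q := by
    ext v
    rw [AddMonoidHom.mem_ker, mem_Qs]
    constructor
    · intro h i
      have := congrFun h i
      exact (ZMod.intCast_zmod_eq_zero_iff_dvd _ _).1 this
    · intro h
      funext i
      exact (ZMod.intCast_zmod_eq_zero_iff_dvd _ _).2 (h i)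
  have hsurj : Function.Surjective f := by
    intro c
    choose v hv using fun i => ZMod.intCast_surjective (c i)
    exact ⟨v, funext hv⟩
  rw [← hker, AddSubgroup.index_ker, AddMonoidHom.range_eq_top.2 hsurj,
    Nat.card_congr AddSubgroup.topEquiv.toEquiv, Nat.card_fun, Nat.card_zmod, Nat.card_fin]

theorem finite_above (k : ℕ) {Q : ℕ} (hQ : 0 < Q) :
    Finite {N : AddSubgroup (Fin k → ℤ) // Qs k Q ≤ N} := by
  have h1 : (Qs k Q).index ≠ 0 := by
    rw [Qs_index k hQ]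
    positivity
  have : (Qs k Q).FiniteIndex := ⟨h1⟩
  have : Finite ((Fin k → ℤ) ⧸ Qs k Q) := AddSubgroup.finite_quotient_of_finiteIndex
  have : Finite (AddSubgroup ((Fin k → ℤ) ⧸ Qs k Q)) :=
    Finite.of_injective (fun N => (N : Set ((Fin k → ℤ) ⧸ Qs k Q))) SetLike.coe_injective
  refine Finite.of_injective (fun N : {N : AddSubgroup (Fin k → ℤ) // Qs k Q ≤ N} =>
    N.1.map (QuotientAddGroup.mk' (Qs k Q))) ?_
  intro N N' h
  apply Subtype.ext
  simp only at h
  have h2 := congrArg (AddSubgroup.comap (QuotientAddGroup.mk' (Qs k Q))) h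
  rw [AddSubgroup.comap_map_eq, AddSubgroup.comap_map_eq, QuotientAddGroup.ker_mk',
    sup_eq_left.2 N.2, sup_eq_left.2 N'.2] at h2
  exact h2

theorem wsum_finset_sum {k : ℕ} {α : Type} (t : Finset α) (c : α → ℝ)
    (w : α → SLg (Fin k → ℤ) → ℝ) (p : ℕ) (x : ℝ) :
    wsum k (fun N => ∑ a ∈ t, c a * w a N) p x = ∑ a ∈ t, c a * wsum k (w a) p x := by
  simp_rw [wsum_eq_sum, mul_sum]
  rw [sum_comm]
  refine sum_congr rfl fun N _ => ?_
  rw [sum_mul]
  exact sum_congr rfl fun a _ => by ring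

open Classical in
/-- the subgroups with given reduction -/
theorem fib_tendsto (k p : ℕ) {Q : ℕ} (hQ : 0 < Q)
    (N₀ : {N : AddSubgroup (Fin (k + 1) → ℤ) // Qs (k + 1) Q ≤ N}) :
    ∃ κ : ℝ, Tendsto (fun x : ℝ =>
      wsum (k + 1) (fun N => if N.1 ⊔ Qs (k + 1) Q = N₀.1 then 1 else 0) p x / x ^ (k + p + 1))
      atTop (𝓝 κ) := by
  have := finite_above (k + 1) hQ
  have := Fintype.ofFinite {N : AddSubgroup (Fin (k + 1) → ℤ) // Qs (k + 1) Q ≤ N}
  induction N₀ using WellFoundedLT.induction with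
  | ind N₀ ih =>
    have hN0 : N₀.1.index ≠ 0 := by
      intro h
      have h1 := AddSubgroup.index_dvd_of_le N₀.2
      rw [h, Qs_index _ hQ] at h1
      exact pow_ne_zero _ hQ.ne' (Nat.eq_zero_of_zero_dvd h1)
    set H : SLg (Fin (k + 1) → ℤ) := ⟨N₀.1, hN0⟩ with hH
    have hH0 : (0 : ℝ) < H.idx := by exact_mod_cast H.idx_pos
    have h1 : Tendsto (fun x : ℝ => wsum (k + 1) (fun N => if N.1 ≤ H.1 then 1 else 0) p x /
        x ^ (k + p + 1)) atTop (𝓝 ((H.idx : ℝ) ^ p * (kap k p / (H.idx : ℝ) ^ (k + p + 1)))) := by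
      have h2 := ((wsum_tendsto k p).comp (tendsto_id.atTop_div_const hH0)).div_const
        ((H.idx : ℝ) ^ (k + p + 1))
      refine (Tendsto.const_mul ((H.idx : ℝ) ^ p) h2).congr' ?_
      filter_upwards [eventually_gt_atTop 0] with x hx
      rw [wsum_sub]
      simp only [Function.comp, id]
      generalize wsum (k + 1) (fun _ => 1) p (x / H.idx) = P
      rw [div_pow]
      field_simp
    have h3 : ∀ N : SLg (Fin (k + 1) → ℤ), (if N.1 ⊔ Qs (k + 1) Q = N₀.1 then (1 : ℝ) else 0) =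
        (if N.1 ≤ H.1 then (1 : ℝ) else 0) - ∑ N₁ ∈ univ.filter (fun N₁ => N₁ < N₀),
          1 * (if N.1 ⊔ Qs (k + 1) Q = N₁.1 then (1 : ℝ) else 0) := by
      intro N
      set A : {N : AddSubgroup (Fin (k + 1) → ℤ) // Qs (k + 1) Q ≤ N} :=
        ⟨N.1 ⊔ Qs (k + 1) Q, le_sup_right⟩ with hA
      have h4 : ∀ N₁ : {N : AddSubgroup (Fin (k + 1) → ℤ) // Qs (k + 1) Q ≤ N},
          (N.1 ⊔ Qs (k + 1) Q = N₁.1) ↔ A = N₁ := fun N₁ => (Subtype.ext_iff (a1 := A)).symm
      have h5 : N.1 ≤ H.1 ↔ A ≤ N₀ := by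
        change N.1 ≤ N₀.1 ↔ N.1 ⊔ Qs (k + 1) Q ≤ N₀.1
        rw [sup_le_iff]
        exact ⟨fun h => ⟨h, N₀.2⟩, fun h => h.1⟩
      simp_rw [h4, one_mul]
      rw [sum_ite_eq]
      simp only [mem_filter, mem_univ, true_and, h5]
      by_cases h6 : A = N₀
      · rw [if_pos h6, if_pos h6.le, if_neg (by rw [h6]; exact lt_irrefl _)]
        ring
      · rw [if_neg h6]
        by_cases h7 : A ≤ N₀
        · rw [if_pos h7, if_pos (lt_of_le_of_ne h7 h6)]
          ring
        · rw [if_neg h7, if_neg (fun h => h7 h.le)]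
          ring
    choose! κ hκ using ih
    refine ⟨(H.idx : ℝ) ^ p * (kap k p / (H.idx : ℝ) ^ (k + p + 1)) -
      ∑ N₁ ∈ univ.filter (fun N₁ => N₁ < N₀), κ N₁, ?_⟩
    have h8 : Tendsto (fun x : ℝ => ∑ N₁ ∈ univ.filter (fun N₁ => N₁ < N₀),
        wsum (k + 1) (fun N => if N.1 ⊔ Qs (k + 1) Q = N₁.1 then 1 else 0) p x /
          x ^ (k + p + 1)) atTop (𝓝 (∑ N₁ ∈ univ.filter (fun N₁ => N₁ < N₀), κ N₁)) :=
      tendsto_finsetSum _ fun N₁ hN₁ => hκ N₁ (mem_filter.1 hN₁).2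
    refine (h1.sub h8).congr fun x => ?_
    rw [← sum_div, ← sub_div]
    congr 1
    have h9 := wsum_finset_sum (univ.filter (fun N₁ => N₁ < N₀)) (fun _ => (1 : ℝ))
      (fun N₁ N => if N.1 ⊔ Qs (k + 1) Q = N₁.1 then (1 : ℝ) else 0) p x
    simp only [one_mul] at h9
    rw [← h9]
    simp_rw [wsum_eq_sum]
    rw [← sum_sub_distrib]
    refine sum_congr rfl fun N _ => ?_
    rw [← sub_mul, h3 N]
    simp only [one_mul]

open Classical in
/-- weights which depend on the reduction -/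
theorem res_tendsto (k p : ℕ) {Q : ℕ} (hQ : 0 < Q) (g : AddSubgroup (Fin (k + 1) → ℤ) → ℝ) :
    ∃ κ : ℝ, Tendsto (fun x : ℝ =>
      wsum (k + 1) (fun N => g (N.1 ⊔ Qs (k + 1) Q)) p x / x ^ (k + p + 1)) atTop (𝓝 κ) := by
  have := finite_above (k + 1) hQ
  have := Fintype.ofFinite {N : AddSubgroup (Fin (k + 1) → ℤ) // Qs (k + 1) Q ≤ N}
  choose κ hκ using fun N₀ => fib_tendsto k p hQ N₀
  refine ⟨∑ N₀, g N₀.1 * κ N₀, ?_⟩
  have h1 : Tendsto (fun x : ℝ => ∑ N₀ : {N : AddSubgroup (Fin (k + 1) → ℤ) // Qs (k + 1) Q ≤ N},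
      g N₀.1 * (wsum (k + 1) (fun N => if N.1 ⊔ Qs (k + 1) Q = N₀.1 then 1 else 0) p x /
        x ^ (k + p + 1))) atTop (𝓝 (∑ N₀, g N₀.1 * κ N₀)) :=
    tendsto_finsetSum _ fun N₀ _ => (hκ N₀).const_mul _
  refine h1.congr fun x => ?_
  rw [sum_congr rfl fun N₀ _ => (mul_div_assoc (g N₀.1) _ (x ^ (k + p + 1))).symm, ← sum_div]
  congr 1
  have h2 := wsum_finset_sum (univ : Finset {N : AddSubgroup (Fin (k + 1) → ℤ) // Qs (k + 1) Q ≤ N})
    (fun N₀ => g N₀.1) (fun N₀ N => if N.1 ⊔ Qs (k + 1) Q = N₀.1 then (1 : ℝ) else 0) p x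
  rw [← h2]
  unfold wsum
  refine tsum_congr fun N => ?_
  have h3 : ∑ N₀ : {N : AddSubgroup (Fin (k + 1) → ℤ) // Qs (k + 1) Q ≤ N},
      g N₀.1 * (if N.1 ⊔ Qs (k + 1) Q = N₀.1 then (1 : ℝ) else 0) = g (N.1 ⊔ Qs (k + 1) Q) := by
    rw [sum_eq_single (⟨N.1 ⊔ Qs (k + 1) Q, le_sup_right⟩ :
      {N : AddSubgroup (Fin (k + 1) → ℤ) // Qs (k + 1) Q ≤ N})]
    · rw [if_pos rfl, mul_one]
    · intro b _ hb
      rw [if_neg, mul_zero]
      intro h
      exact hb (Subtype.ext h.symm)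
    · intro h
      exact absurd (mem_univ _) h
  by_cases hx : (N.idx : ℝ) ≤ x
  · rw [if_pos hx, if_pos hx]
    exact congrArg (fun t => t * (N.idx : ℝ) ^ p) h3
  · rw [if_neg hx, if_neg hx]

theorem coprime_iff {k Q : ℕ} (hQ : 0 < Q) (N : SLg (Fin k → ℤ)) :
    Nat.Coprime N.idx Q ↔ N.1 ⊔ Qs k Q = ⊤ := by
  constructor
  · intro h
    rw [eq_top_iff]
    intro v _
    have h1 : IsCoprime (N.idx : ℤ) (Q : ℤ) := Nat.isCoprime_iff_coprime.2 h
    obtain ⟨a, b, hab⟩ := h1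
    have h2 : v = a • (N.idx • v) + b • (Q • v) := by
      funext i
      change v i = a * (N.idx • v i) + b * (Q • v i)
      simp only [nsmul_eq_mul]
      linear_combination -(v i) * hab
    rw [h2]
    refine AddSubgroup.add_mem_sup ?_ ?_
    · exact zsmul_mem (AddSubgroup.nsmul_index_mem (H := N.1) v) _
    · refine zsmul_mem (K := Qs k Q) ?_ _
      intro i
      simp
  · intro h
    by_contra hc
    obtain ⟨p, hp, h1, h2⟩ := Nat.Prime.not_coprime_iff_dvd.1 hc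
    have : Fact p.Prime := ⟨hp⟩
    have hfi : N.1.FiniteIndex := ⟨N.2⟩
    have hfin : Finite ((Fin k → ℤ) ⧸ N.1) := AddSubgroup.finite_quotient_of_finiteIndex
    have := Fintype.ofFinite ((Fin k → ℤ) ⧸ N.1)
    have hsurj : Function.Surjective (fun a : (Fin k → ℤ) ⧸ N.1 => p • a) := by
      intro a
      obtain ⟨v, rfl⟩ := QuotientAddGroup.mk_surjective a
      have hv : v ∈ N.1 ⊔ Qs k Q := by
        rw [h]
        exact AddSubgroup.mem_top v
      obtain ⟨x, hx, y, hy, rfl⟩ := AddSubgroup.mem_sup.1 hv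
      have h3 : ∀ i, ∃ z, y i = (p : ℤ) * z := by
        intro i
        exact (Int.natCast_dvd_natCast.2 h2).trans (hy i)
      choose z hz using h3
      refine ⟨QuotientAddGroup.mk z, ?_⟩
      change p • ((z : (Fin k → ℤ) ⧸ N.1)) = _
      have h4 : y = p • z := by
        funext i
        rw [hz i]
        simp
      rw [QuotientAddGroup.mk_add, (QuotientAddGroup.eq_zero_iff x).2 hx, zero_add, h4]
      rfl
    have hinj := Finite.injective_iff_surjective.2 hsurj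
    have hcard : p ∣ Nat.card ((Fin k → ℤ) ⧸ N.1) := h1
    obtain ⟨a, ha⟩ := exists_prime_addOrderOf_dvd_card' p hcard
    have h5 : p • a = 0 := by
      rw [← ha]
      exact addOrderOf_nsmul_eq_zero a
    have h6 : a = 0 := hinj (by
      change p • a = p • 0
      rw [h5, smul_zero])
    rw [h6, addOrderOf_zero] at ha
    exact hp.one_lt.ne ha

end Run7.h3.PM
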