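import Pool.Agent.Run7.h3.GT.Final
import Pool.Agent.Run7.h3.PM.Bad

set_option autoImplicit false
set_option linter.unusedSectionVars false
set_option linter.unusedVariables false

/-! Integral matrices which are semistable modulo all primes: existence and uniqueness. -/

namespace Run7.h3.PM

open Finset Module Run7.h3.GT

section

variable {k : ℕ} {ι : Type} [Fintype ι] [DecidableEq ι] {θ : ι → ℕ}

/-- the map to the rational matrices -/
def toQ (M : Matrix (Fin k) ι ℤ) : Matrix (Fin k) ι ℚ := M.map (Int.cast : ℤ → ℚ)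

theorem toQ_mnr (M : Matrix (Fin k) ι ℤ) (f : Fin k → ι) : mnr (toQ M) f = ((mnr M f : ℤ) : ℚ) := by
  have := (Int.castRingHom ℚ).map_det (M.submatrix id f)
  exact this.symm

theorem toQ_mono (M : Matrix (Fin k) ι ℤ) (e : Mon k (id : ι → ι) fun _ => k) :
    mono (toQ M) e = ((mono M e : ℤ) : ℚ) := by
  have := mono_map (Int.castRingHom ℚ) M e
  exact this.symm

/-- the lattice of the vectors with reduction in a subspace -/
def LW {p : ℕ} [Fact p.Prime] (W : Submodule (ZMod p) (Fin k → ZMod p)) :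
    AddSubgroup (Fin k → ℤ) where
  carrier := {z | rdv p z ∈ W}
  zero_mem' := by
    have : rdv p (0 : Fin k → ℤ) = 0 := by
      funext i
      simp [rdv]
    change rdv p 0 ∈ W
    rw [this]
    exact W.zero_mem
  add_mem' := fun {x y} hx hy => by
    change rdv p (x + y) ∈ W
    rw [rdv_add]
    exact W.add_mem hx hy
  neg_mem' := fun {x} hx => by
    change rdv p (-x) ∈ W
    have h2 : rdv p (-x) = - rdv p x := by
      funext i
      simp [rdv]
    rw [h2]
    exact W.neg_mem hx

theorem LW_index {p : ℕ} [hp : Fact p.Prime] (W : Submodule (ZMod p) (Fin k → ZMod p)) :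
    (LW W).index = p ^ (k - finrank (ZMod p) W) := by
  set ψ : (Fin k → ℤ) →+ ((Fin k → ZMod p) ⧸ W) :=
    AddMonoidHom.mk' (fun z => Submodule.Quotient.mk (rdv p z)) (fun x y => by
      rw [rdv_add]
      rfl) with hψ
  have hker : ψ.ker = LW W := by
    ext z
    rw [AddMonoidHom.mem_ker]
    exact Submodule.Quotient.mk_eq_zero W
  have hsurj : Function.Surjective ψ := by
    intro c
    obtain ⟨v, hv⟩ := Submodule.Quotient.mk_surjective W c
    obtain ⟨z, hz⟩ := rdv_surj p v
    exact ⟨z, by rw [← hv, ← hz]; rfl⟩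
  rw [← hker, AddSubgroup.index_ker, AddMonoidHom.range_eq_top.2 hsurj,
    Nat.card_congr AddSubgroup.topEquiv.toEquiv]
  have h1 := Submodule.finrank_quotient_add_finrank W
  rw [Module.finrank_fin_fun] at h1
  rw [Module.natCard_eq_pow_finrank (K := ZMod p), Nat.card_zmod]
  congr 1
  omega

/-- the step which makes a matrix less unstable -/
theorem langton (hk : 0 < k) {p : ℕ} {M : Matrix (Fin k) ι ℤ} (hM : Gnr M) (hu : Uns θ p M)
    {e : Mon k (id : ι → ι) fun x => k * θ x} (he : mono M e ≠ 0) :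
    ∃ M' : Matrix (Fin k) ι ℤ, Gnr M' ∧ Rel (id : ι → ι) (toQ M) (toQ M') ∧
      |mono M' e| < |mono M e| := by
  classical
  obtain ⟨hp, hu⟩ := hu
  have : Fact p.Prime := ⟨hp⟩
  unfold Sst at hu
  push Not at hu
  obtain ⟨W, hW⟩ := hu
  set S : Set ι := {x | (red p M).col x ∈ W} with hS
  set n := ∑ x, θ x with hn
  set r := finrank (ZMod p) W with hr
  have hrk : r ≤ k := by
    have := Submodule.finrank_le W
    rwa [Module.finrank_fin_fun] at this
  have hidx := LW_index W
  have hidx0 : (LW W).index ≠ 0 := by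
    rw [hidx]
    exact pow_ne_zero _ hp.ne_zero
  set Λ : SLg (Fin k → ℤ) := ⟨LW W, hidx0⟩ with hΛ
  have hΛi : Λ.idx = p ^ (k - r) := hidx
  set t : ι → ℤ := fun x => if x ∈ S then 1 else p with ht
  have ht0 : ∀ x, t x ≠ 0 := by
    intro x
    simp only [ht]
    split_ifs
    · exact one_ne_zero
    · exact_mod_cast hp.ne_zero
  have hmem : ∀ x, (fun l => M l x * t x) ∈ Λ.1 := by
    intro x
    change rdv p (fun l => M l x * t x) ∈ W
    have h1 : rdv p (fun l => M l x * t x) = ((t x : ℤ) : ZMod p) • (red p M).col x := by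
      funext l
      simp [rdv, red, mul_comm]
    rw [h1]
    by_cases hx : x ∈ S
    · exact W.smul_mem _ hx
    · have : ((t x : ℤ) : ZMod p) = 0 := by
        simp only [ht]
        rw [if_neg hx]
        simp
      rw [this, zero_smul]
      exact W.zero_mem
  choose c hc using fun x => (mem_N Λ _).1 (hmem x)
  set M' : Matrix (Fin k) ι ℤ := Matrix.of fun i x => c x i with hM'
  set G : Matrix (Fin k) (Fin k) ℤ := (VN Λ).transpose with hG
  have hGM : G * M' = Matrix.of fun l x => M l x * t x := by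
    ext l x
    rw [Matrix.mul_apply, Matrix.of_apply]
    have h1 := congrFun (hc x) l
    rw [Finset.sum_apply] at h1
    rw [h1]
    refine sum_congr rfl fun i _ => ?_
    rw [Pi.smul_apply, smul_eq_mul]
    simp only [hG, hM', Matrix.transpose_apply, Matrix.of_apply]
    ring
  have hGd : G.det ≠ 0 := by
    rw [hG, Matrix.det_transpose]
    exact VN_det_ne Λ
  have hGd2 : |G.det| = (p : ℤ) ^ (k - r) := by
    rw [hG, Matrix.det_transpose, Int.abs_eq_natAbs, VN_det, hΛi]
    push_cast
    rfl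
  have hmnr : ∀ f, G.det * mnr M' f = (∏ l, t (f l)) * mnr M f := by
    intro f
    rw [← mnr_mul, hGM, mnr_scale]
  refine ⟨M', fun f hf h0 => ?_, ?_, ?_⟩
  · have h1 := hmnr f
    rw [h0, mul_zero] at h1
    exact mul_ne_zero (prod_ne_zero_iff.2 fun l _ => ht0 _) (hM f hf) h1.symm
  · have hGq : (G.map (Int.cast : ℤ → ℚ)).det ≠ 0 := by
      have h1 : (G.map (Int.cast : ℤ → ℚ)).det = ((G.det : ℤ) : ℚ) :=
        ((Int.castRingHom ℚ).map_det G).symm
      rw [h1]
      exact_mod_cast hGd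
    refine Rel.symm ⟨G.map (Int.cast : ℤ → ℚ), fun x => ((t x : ℤ) : ℚ)⁻¹, hGq, fun x =>
      inv_ne_zero (by exact_mod_cast ht0 x), ?_⟩
    have h1 : G.map (Int.cast : ℤ → ℚ) * toQ M' = (G * M').map (Int.cast : ℤ → ℚ) :=
      (Matrix.map_mul (L := G) (M := M') (f := Int.castRingHom ℚ)).symm
    rw [h1, hGM]
    ext l x
    rw [Matrix.mul_diagonal, Matrix.map_apply, Matrix.of_apply]
    have h2 : ((t x : ℤ) : ℚ) ≠ 0 := by exact_mod_cast ht0 x
    unfold toQ
    rw [Matrix.map_apply]
    simp only [id]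
    push_cast
    field_simp
  · have hN : ∑ b : ι, k * θ b = k * n := by rw [hn, mul_sum]
    have h1 : G.det ^ n * mono M' e = (∏ x, t x ^ (k * θ x)) * mono M e := by
      unfold mono
      rw [← sum_mon hk hN e, ← prod_pow_eq_pow_sum, ← prod_mul_distrib,
        ← prod_wt (β := (id : ι → ι)) t e, ← prod_mul_distrib]
      refine prod_congr rfl fun f _ => ?_
      rw [← mul_pow, ← mul_pow, hmnr]
      rfl
    have h2 := congrArg abs h1
    rw [abs_mul, abs_mul, abs_pow, hGd2, ← pow_mul] at h2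
    have hSn : tw θ S ≤ n := tw_le θ S
    have h3 : |∏ x, t x ^ (k * θ x)| = (p : ℤ) ^ (k * (n - tw θ S)) := by
      have h4 : ∀ x, t x ^ (k * θ x) = (p : ℤ) ^ (k * Sᶜ.indicator θ x) := by
        intro x
        simp only [ht]
        by_cases hx : x ∈ S
        · rw [if_pos hx, one_pow, Set.indicator_of_notMem (by simpa using hx), mul_zero, pow_zero]
        · rw [if_neg hx, Set.indicator_of_mem (by simpa using hx)]
      rw [prod_congr rfl fun x _ => h4 x, prod_pow_eq_pow_sum, ← mul_sum,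
        abs_of_nonneg (by positivity)]
      congr 2
      have h5 := tw_compl θ S
      unfold tw at h5 ⊢
      omega
    rw [h3] at h2
    have hexp : k * (n - tw θ S) < (k - r) * n := by
      obtain ⟨a, ha⟩ := Nat.exists_eq_add_of_le hSn
      obtain ⟨b, hb⟩ := Nat.exists_eq_add_of_le hrk
      have e1 : n - tw θ S = a := by omega
      have e2 : k - r = b := by omega
      rw [e1, e2]
      nlinarith
    have hp1 : (1 : ℤ) < p := by exact_mod_cast hp.one_lt
    have hlt : (p : ℤ) ^ (k * (n - tw θ S)) < (p : ℤ) ^ ((k - r) * n) :=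
      pow_lt_pow_right₀ hp1 hexp
    by_contra hcon
    push Not at hcon
    have hm0 : 0 < |mono M e| := abs_pos.2 he
    have h7 : (p : ℤ) ^ (k * (n - tw θ S)) * |mono M e| <
        (p : ℤ) ^ ((k - r) * n) * |mono M' e| := by
      calc (p : ℤ) ^ (k * (n - tw θ S)) * |mono M e| < (p : ℤ) ^ ((k - r) * n) * |mono M e| :=
            mul_lt_mul_of_pos_right hlt hm0
        _ ≤ _ := mul_le_mul_of_nonneg_left hcon (by positivity)
    linarith

/-- a monomial which does not vanish at generic matrices -/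
theorem exists_e (hk : 0 < k) (hki : k < Fintype.card ι) (hθ : Adm k θ)
    {M₀ : Matrix (Fin k) ι ℤ} (hM₀ : Gnr M₀) :
    ∃ e : Mon k (id : ι → ι) fun x => k * θ x, ∀ M : Matrix (Fin k) ι ℤ, Gnr M → mono M e ≠ 0 := by
  classical
  have hN : ∑ b : ι, k * θ b = k * ∑ x, θ x := by rw [mul_sum]
  have hG : Gen (toQ M₀) := by
    intro f hf
    rw [toQ_mnr]
    exact_mod_cast hM₀ f hf
  obtain ⟨e, he⟩ := gen_mono (β := (id : ι → ι)) (d := fun x => k * θ x) hk hki.le hN (fun b => by
    have : (univ.filter fun i : ι => id i = b).card = 1 := by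
      rw [card_eq_one]
      exact ⟨b, by ext; simp⟩
    rw [this, one_mul]
    exact hθ.le_sum hki b) (toQ M₀) hG
  refine ⟨e, fun M hM => ?_⟩
  unfold mono at he ⊢
  rw [prod_ne_zero_iff] at he ⊢
  intro f hf
  by_cases h0 : e.1 f = 0
  · rw [h0, pow_zero]
    exact one_ne_zero
  · refine pow_ne_zero _ (hM f ?_)
    by_contra hni
    have h1 := he f hf
    rw [mnr_zero _ _ hni, zero_pow h0] at h1
    exact h1 rfl

/-- existence of semistable models -/
theorem exists_stab (hk : 0 < k) (hki : k < Fintype.card ι) (hθ : Adm k θ)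
    {M : Matrix (Fin k) ι ℤ} (hM : Gnr M) :
    ∃ M' : Matrix (Fin k) ι ℤ, Gnr M' ∧ Rel (id : ι → ι) (toQ M) (toQ M') ∧ ∀ p, ¬ Uns θ p M' := by
  obtain ⟨e, he⟩ := exists_e hk hki hθ hM
  suffices h : ∀ (n : ℕ) (M : Matrix (Fin k) ι ℤ), Gnr M → (mono M e).natAbs ≤ n →
      ∃ M' : Matrix (Fin k) ι ℤ, Gnr M' ∧ Rel (id : ι → ι) (toQ M) (toQ M') ∧ ∀ p, ¬ Uns θ p M' from
    h _ M hM le_rfl
  intro n
  induction n with
  | zero =>
    intro M hM hn
    exact absurd (Int.natAbs_eq_zero.1 (Nat.le_zero.1 hn)) (he M hM)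
  | succ n ih =>
    intro M hM hn
    by_cases hex : ∃ p, Uns θ p M
    · obtain ⟨p, hp⟩ := hex
      obtain ⟨M', h1, h2, h3⟩ := langton hk hM hp (he M hM)
      obtain ⟨M'', h4, h5, h6⟩ := ih M' h1 (by
        have g1 : ((mono M' e).natAbs : ℤ) < ((mono M e).natAbs : ℤ) := by
          rw [Int.natCast_natAbs, Int.natCast_natAbs]
          exact h3
        omega)
      exact ⟨M'', h4, h2.trans h5, h6⟩
    · push Not at hex
      refine ⟨M, hM, ⟨1, fun _ => 1, by simp, fun _ => one_ne_zero, ?_⟩, hex⟩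
      have : (Matrix.diagonal fun _ => 1 : Matrix ι ι ℚ) = 1 := Matrix.diagonal_one
      rw [this, Matrix.one_mul, Matrix.mul_one]

/-- every rational matrix is related to an integral one -/
theorem exists_int {V : Matrix (Fin k) ι ℚ} (hV : Gen V) :
    ∃ M : Matrix (Fin k) ι ℤ, Gnr M ∧ Rel (id : ι → ι) V (toQ M) := by
  classical
  set d : ℕ := ∏ x : Fin k × ι, (V x.1 x.2).den with hd
  have hd0 : d ≠ 0 := prod_ne_zero_iff.2 fun x _ => (V x.1 x.2).den_nz
  have hint : ∀ l x, ∃ z : ℤ, (z : ℚ) = d * V l x := by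
    intro l x
    obtain ⟨c, hc⟩ := dvd_prod_of_mem (fun x : Fin k × ι => (V x.1 x.2).den) (mem_univ (l, x))
    refine ⟨c * (V l x).num, ?_⟩
    have h1 : (d : ℚ) = (V l x).den * c := by
      rw [hd, hc]
      push_cast
      rfl
    rw [h1]
    have h2 := Rat.mul_den_eq_num (V l x)
    push_cast
    rw [← h2]
    ring
  choose z hz using hint
  refine ⟨Matrix.of z, ?_, ?_⟩
  · intro f hf h0
    have h1 : toQ (Matrix.of z) = Matrix.of fun l x => V l x * (fun _ : ι => (d : ℚ)) x := by
      ext l x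
      unfold toQ
      rw [Matrix.map_apply, Matrix.of_apply, Matrix.of_apply, hz, mul_comm]
    have h2 := toQ_mnr (Matrix.of z) f
    rw [h0, h1, mnr_scale] at h2
    have hd0' : (d : ℚ) ≠ 0 := by exact_mod_cast hd0
    have h3 : (∏ l : Fin k, (fun _ : ι => (d : ℚ)) (f l)) ≠ 0 :=
      prod_ne_zero_iff.2 fun _ _ => hd0'
    exact mul_ne_zero h3 (hV f hf) (by rw [h2]; simp)
  · have hd0' : (d : ℚ) ≠ 0 := by exact_mod_cast hd0
    refine ⟨1, fun _ => d, by simp, fun _ => hd0', ?_⟩
    ext l x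
    rw [Matrix.one_mul, Matrix.mul_diagonal]
    unfold toQ
    rw [Matrix.map_apply, Matrix.of_apply, hz, mul_comm]

/-- a primitive multiple -/
theorem exists_prim {g : Matrix (Fin k) (Fin k) ℚ} (hg : g.det ≠ 0) (hk : 0 < k) :
    ∃ (c : ℚ) (g' : Matrix (Fin k) (Fin k) ℤ), c ≠ 0 ∧ g = c • g'.map (Int.cast : ℤ → ℚ) ∧
      ∀ p : ℕ, p.Prime → red p g' ≠ 0 := by
  classical
  set d : ℕ := ∏ x : Fin k × Fin k, (g x.1 x.2).den with hd
  have hd0 : d ≠ 0 := prod_ne_zero_iff.2 fun x _ => (g x.1 x.2).den_nz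
  have hint : ∀ x : Fin k × Fin k, ∃ z : ℤ, (z : ℚ) = d * g x.1 x.2 := by
    intro x
    obtain ⟨c, hc⟩ := dvd_prod_of_mem (fun x : Fin k × Fin k => (g x.1 x.2).den) (mem_univ x)
    refine ⟨c * (g x.1 x.2).num, ?_⟩
    have h1 : (d : ℚ) = (g x.1 x.2).den * c := by
      rw [hd, hc]
      push_cast
      rfl
    rw [h1]
    have h2 := Rat.mul_den_eq_num (g x.1 x.2)
    push_cast
    rw [← h2]
    ring
  choose z hz using hint
  have hne : (univ : Finset (Fin k × Fin k)).Nonempty := ⟨(⟨0, hk⟩, ⟨0, hk⟩), mem_univ _⟩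
  obtain ⟨y, hy1, hy2⟩ := Finset.extract_gcd z hne
  set h := univ.gcd z with hh
  have hh0 : h ≠ 0 := by
    intro h0
    have h1 : g = 0 := by
      ext i j
      have h2 := hz (i, j)
      rw [hy1 (i, j) (mem_univ _), h0, zero_mul] at h2
      have h3 : (d : ℚ) * g i j = 0 := by
        rw [← h2]
        simp
      rcases mul_eq_zero.1 h3 with h4 | h4
      · exact absurd h4 (by exact_mod_cast hd0)
      · exact h4
    rw [h1] at hg
    have : Nonempty (Fin k) := ⟨⟨0, hk⟩⟩
    exact hg Matrix.det_zero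
  have hd0' : (d : ℚ) ≠ 0 := by exact_mod_cast hd0
  have hh0' : (h : ℚ) ≠ 0 := by exact_mod_cast hh0
  refine ⟨h / d, Matrix.of fun i j => y (i, j), div_ne_zero hh0' hd0', ?_, fun p hp h0 => ?_⟩
  · ext i j
    rw [Matrix.smul_apply, Matrix.map_apply, Matrix.of_apply, smul_eq_mul]
    have h2 := hz (i, j)
    rw [hy1 (i, j) (mem_univ _)] at h2
    push_cast at h2
    field_simp
    linarith
  · have h1 : ∀ x, (p : ℤ) ∣ y x := by
      intro x
      have h2 : red p (Matrix.of fun i j => y (i, j)) x.1 x.2 = 0 := by rw [h0]; rfl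
      exact (ZMod.intCast_zmod_eq_zero_iff_dvd _ _).1 h2
    have h3 : (p : ℤ) ∣ univ.gcd y := Finset.dvd_gcd fun x _ => h1 x
    rw [hy2] at h3
    have h4 : (p : ℤ).natAbs ∣ (1 : ℤ).natAbs := Int.natAbs_dvd_natAbs.2 h3
    simp at h4
    exact hp.one_lt.ne' h4

theorem red_mul (p : ℕ) (g : Matrix (Fin k) (Fin k) ℤ) (M : Matrix (Fin k) ι ℤ) :
    red p (g * M) = red p g * red p M :=
  Matrix.map_mul (L := g) (M := M) (f := Int.castRingHom (ZMod p))

/-- uniqueness of semistable models -/
theorem uniq (hk : 0 < k) (hθ : Adm k θ) {M M' : Matrix (Fin k) ι ℤ}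
    (hM : ∀ p, ¬ Uns θ p M) (hM' : ∀ p, ¬ Uns θ p M') (h : Rel (id : ι → ι) (toQ M) (toQ M')) :
    ∃ (g : Matrix (Fin k) (Fin k) ℤ) (ε : ι → ℤ), g.det.natAbs = 1 ∧ (∀ x, ε x = 1 ∨ ε x = -1) ∧
      M' = g * M * Matrix.diagonal ε := by
  classical
  obtain ⟨g₀, t₀, hg₀, ht₀, hMM⟩ := h
  obtain ⟨c, g, hc, hgc, hprim⟩ := exists_prim hg₀ hk
  set t : ι → ℚ := fun x => c * t₀ x with ht
  have ht0 : ∀ x, t x ≠ 0 := fun x => mul_ne_zero hc (ht₀ x)
  have hent : ∀ l x, ((M' l x : ℤ) : ℚ) = (((g * M) l x : ℤ) : ℚ) * t x := by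
    intro l x
    have h1 := congrFun (congrFun hMM l) x
    rw [Matrix.mul_diagonal, hgc, Matrix.smul_mul, Matrix.smul_apply] at h1
    have h2 : g.map (Int.cast : ℤ → ℚ) * toQ M = (g * M).map (Int.cast : ℤ → ℚ) :=
      (Matrix.map_mul (L := g) (M := M) (f := Int.castRingHom ℚ)).symm
    rw [h2, Matrix.map_apply, smul_eq_mul] at h1
    have h3 : toQ M' l x = ((M' l x : ℤ) : ℚ) := rfl
    rw [h3] at h1
    rw [h1, ht]
    simp only [id]
    ring
  set a : ι → ℤ := fun x => (t x).num with ha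
  set b : ι → ℕ := fun x => (t x).den with hb
  have hab : ∀ l x, (b x : ℤ) * M' l x = a x * (g * M) l x := by
    intro l x
    have h1 := hent l x
    have h2 : t x = (a x : ℚ) / (b x : ℚ) := (Rat.num_div_den (t x)).symm
    have h3 : (b x : ℚ) ≠ 0 := by exact_mod_cast (t x).den_nz
    have h4 : ((b x : ℤ) : ℚ) * (M' l x : ℚ) = (a x : ℚ) * (((g * M) l x : ℤ) : ℚ) := by
      rw [h1, h2]
      push_cast
      field_simp
    exact_mod_cast h4
  have hcopab : ∀ x, Nat.Coprime (a x).natAbs (b x) := fun x => (t x).reduced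
  -- no prime divides the numerators
  have hnum : ∀ (p : ℕ) (hp : p.Prime) x, ¬ (p : ℤ) ∣ a x := by
    intro p hp x hpa
    have : Fact p.Prime := ⟨hp⟩
    have hpb : ¬ (p : ℤ) ∣ (b x : ℤ) := by
      intro h1
      have h2 : p ∣ (a x).natAbs := Int.natCast_dvd.1 hpa
      have h3 : p ∣ b x := Int.natCast_dvd_natCast.1 h1
      have h4 := Nat.dvd_gcd h2 h3
      rw [hcopab x] at h4
      exact hp.one_lt.ne' (Nat.dvd_one.1 h4)
    have hcol : ∀ l, (p : ℤ) ∣ M' l x := by
      intro l
      have h1 : (p : ℤ) ∣ (b x : ℤ) * M' l x := by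
        rw [hab]
        exact dvd_mul_of_dvd_left hpa _
      rcases (Nat.prime_iff_prime_int.1 hp).dvd_or_dvd h1 with h2 | h2
      · exact absurd h2 hpb
      · exact h2
    have hs : Sst θ (red p M') := by
      by_contra hns
      exact hM' p ⟨hp, hns⟩
    have h1 := hs ⊥
    rw [finrank_bot, mul_zero] at h1
    have h2 : x ∈ {x : ι | (red p M').col x ∈ (⊥ : Submodule (ZMod p) (Fin k → ZMod p))} := by
      change (red p M').col x ∈ (⊥ : Submodule (ZMod p) (Fin k → ZMod p))
      rw [Submodule.mem_bot]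
      funext l
      exact (ZMod.intCast_zmod_eq_zero_iff_dvd _ _).2 (hcol l)
    have h3 := le_tw θ h2
    have h4 := hθ.pos x
    nlinarith
  have ha1 : ∀ x, a x = 1 ∨ a x = -1 := by
    intro x
    have h1 : (a x).natAbs = 1 := by
      by_contra hne
      obtain ⟨p, hp, hpd⟩ := Nat.exists_prime_and_dvd hne
      exact hnum p hp x (Int.natCast_dvd.2 hpd)
    exact Int.natAbs_eq_iff.1 h1 |>.imp (by simp) (by simp)
  -- the primes which divide the denominators
  have hden : ∀ (p : ℕ) (hp : p.Prime), (∀ x, ¬ p ∣ b x) ∧ ¬ (p : ℤ) ∣ g.det := by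
    intro p hp
    have : Fact p.Prime := ⟨hp⟩
    have hs : Sst θ (red p M) := by
      by_contra hns
      exact hM p ⟨hp, hns⟩
    have hs' : Sst θ (red p M') := by
      by_contra hns
      exact hM' p ⟨hp, hns⟩
    set L := (red p g).mulVecLin with hL
    set W := LinearMap.ker L with hW
    set U := LinearMap.range L with hU
    have hdim := LinearMap.finrank_range_add_finrank_ker L
    rw [Module.finrank_fin_fun, ← hU, ← hW] at hdim
    set S : Set ι := {x | p ∣ b x} with hS
    have hcolg : ∀ x, L ((red p M).col x) = (red p (g * M)).col x := by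
      intro x
      rw [red_mul, hL, Matrix.mulVecLin_apply]
      rfl
    have h1 : S ⊆ {x : ι | (red p M).col x ∈ W} := by
      intro x hx
      change (red p M).col x ∈ W
      rw [hW, LinearMap.mem_ker, hcolg]
      funext l
      refine (ZMod.intCast_zmod_eq_zero_iff_dvd _ _).2 ?_
      have h2 : (p : ℤ) ∣ a x * (g * M) l x := by
        rw [← hab]
        exact dvd_mul_of_dvd_left (Int.natCast_dvd_natCast.2 hx) _
      rcases (Nat.prime_iff_prime_int.1 hp).dvd_or_dvd h2 with h3 | h3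
      · exact absurd h3 (hnum p hp x)
      · exact h3
    have h2 : Sᶜ ⊆ {x : ι | (red p M').col x ∈ U} := by
      intro x hx
      change (red p M').col x ∈ U
      have hbx : ((b x : ℕ) : ZMod p) ≠ 0 := by
        rw [ne_eq, ZMod.natCast_eq_zero_iff]
        exact hx
      have h3 : ((b x : ℕ) : ZMod p) • (red p M').col x =
          ((a x : ℤ) : ZMod p) • (red p (g * M)).col x := by
        funext l
        have h4 := congrArg (Int.cast : ℤ → ZMod p) (hab l x)
        push_cast at h4
        simp only [Pi.smul_apply, smul_eq_mul]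
        exact h4
      have h4 : ((b x : ℕ) : ZMod p) • (red p M').col x ∈ U := by
        rw [h3, ← hcolg]
        exact U.smul_mem _ ⟨_, rfl⟩
      exact (U.smul_mem_iff hbx).1 h4
    have h3 := tw_mono θ h1
    have h4 := tw_mono θ h2
    have h5 := hs W
    have h6 := hs' U
    have hSn := tw_compl θ S
    set n := ∑ x, θ x with hn
    have h7 : k * tw θ S ≤ n * finrank (ZMod p) W := (Nat.mul_le_mul_left _ h3).trans h5
    have h8 : k * tw θ Sᶜ ≤ n * finrank (ZMod p) U := (Nat.mul_le_mul_left _ h4).trans h6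
    have h9 : k * tw θ S = n * finrank (ZMod p) W := by
      nlinarith
    have hWk : finrank (ZMod p) W < k := by
      by_contra hc
      push Not at hc
      have h11 : finrank (ZMod p) U = 0 := by omega
      have h12 := Submodule.finrank_eq_zero.1 h11
      rw [hU, LinearMap.range_eq_bot, hL] at h12
      apply hprim p hp
      ext i j
      have h13 := congrArg (fun φ : (Fin k → ZMod p) →ₗ[ZMod p] (Fin k → ZMod p) =>
        φ (Pi.single j 1) i) h12
      simp only [Matrix.mulVecLin_apply, LinearMap.zero_apply, Pi.zero_apply,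
        Matrix.mulVec_single_one] at h13
      exact h13
    have hW0 : finrank (ZMod p) W = 0 := hθ.gen S _ hWk h9
    rw [hW0, mul_zero] at h9
    have hS0 : tw θ S = 0 := by
      rcases Nat.mul_eq_zero.1 h9 with h | h
      · omega
      · exact h
    constructor
    · intro x hx
      have h11 : x ∈ S := hx
      have h12 := le_tw θ h11
      have h13 := hθ.pos x
      omega
    · intro hd
      have h11 : (red p g).det = 0 := by
        have h12 : (red p g).det = ((g.det : ℤ) : ZMod p) :=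
          ((Int.castRingHom (ZMod p)).map_det g).symm
        rw [h12]
        exact (ZMod.intCast_zmod_eq_zero_iff_dvd _ _).2 hd
      obtain ⟨u, hu0, hu⟩ := Matrix.exists_mulVec_eq_zero_iff.2 h11
      have h13 : W = ⊥ := Submodule.finrank_eq_zero.1 hW0
      have h14 : u ∈ W := by
        rw [hW, LinearMap.mem_ker, hL, Matrix.mulVecLin_apply]
        exact hu
      rw [h13, Submodule.mem_bot] at h14
      exact hu0 h14
  have hb1 : ∀ x, b x = 1 := by
    intro x
    by_contra hne
    obtain ⟨p, hp, hpd⟩ := Nat.exists_prime_and_dvd hne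
    exact (hden p hp).1 x hpd
  refine ⟨g, a, ?_, ha1, ?_⟩
  · by_contra hne
    obtain ⟨p, hp, hpd⟩ := Nat.exists_prime_and_dvd hne
    exact (hden p hp).2 (Int.natCast_dvd.2 hpd)
  · ext l x
    rw [Matrix.mul_diagonal]
    have h1 := hab l x
    rw [hb1 x] at h1
    push_cast at h1
    linarith

end

end Run7.h3.PM
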