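import Pool.Agent.Run7.h3.PM.Cls

set_option autoImplicit false
set_option linter.unusedSectionVars false
set_option linter.unusedVariables false

/-! The cells: the archimedean lemma, sums over cells and over strips. -/

namespace Run7.h3.PM

open Finset Module Filter Topology Run7.h3.GT

section

variable {k m : ℕ} {ι : Type} [Fintype ι] [DecidableEq ι]

theorem filt_card (b : ι) : (univ.filter fun i : ι => id i = b).card = 1 := by
  have : (univ.filter fun i : ι => id i = b) = {b} := by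
    ext x
    simp
  rw [this, card_singleton]

/-- the archimedean lemma -/
theorem arch_int (hk : 0 < k) (hki : k ≤ Fintype.card ι) :
    ∃ C : ℝ, 1 ≤ C ∧ ∀ M : Matrix (Fin k) ι ℤ, Gnr M → ∃ y : ι → ℝ,
      (∀ f : Fin k → ι, |((mnr M f : ℤ) : ℝ)| ≤ Real.exp (∑ l, y (f l))) ∧
      ∃ e : Mon k (id : ι → ι) fun _ => k,
        Real.exp (k * ∑ x, y x) ≤ C * |((mono M e : ℤ) : ℝ)| := by
  have hN : 0 < Fintype.card ι := lt_of_lt_of_le hk hki
  have hk' : (0 : ℝ) < k := by exact_mod_cast hk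
  obtain ⟨C, hC, h⟩ := GT.arch (k := k) (β := (id : ι → ι)) (d := fun _ => k)
    (N := Fintype.card ι) hk hN hki (by
      rw [sum_const, card_univ, smul_eq_mul, mul_comm]) (fun b => by
      rw [filt_card, one_mul]
      exact hki)
  refine ⟨max 1 C, le_max_left _ _, fun M hM => ?_⟩
  have hmap : ∀ f : Fin k → ι, mnr (M.map (Int.cast : ℤ → ℂ)) f = ((mnr M f : ℤ) : ℂ) := fun f =>
    (mnr_map (Int.castRingHom ℂ) M f).symm
  have hmap' : ∀ e : Mon k (id : ι → ι) fun _ => k,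
      mono (M.map (Int.cast : ℤ → ℂ)) e = ((mono M e : ℤ) : ℂ) := fun e =>
    (mono_map (Int.castRingHom ℂ) M e).symm
  have hG : Gen (M.map (Int.cast : ℤ → ℂ)) := by
    intro f hf
    rw [hmap]
    exact_mod_cast hM f hf
  obtain ⟨Λ, γ, hΛ, hγ, h1, e, he⟩ := h _ hG
  refine ⟨fun x => Real.log (Λ x) + Real.log γ / k, fun f => ?_, e, ?_⟩
  · have h2 := h1 f
    rw [hmap, Complex.norm_intCast] at h2
    refine h2.trans (le_of_eq ?_)
    rw [sum_add_distrib, sum_const, card_univ, Fintype.card_fin, nsmul_eq_mul,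
      mul_div_cancel₀ _ hk'.ne', Real.exp_add, Real.exp_log hγ, Real.exp_sum, mul_comm]
    congr 1
    unfold wt
    exact prod_congr rfl fun l _ => (Real.exp_log (hΛ _)).symm
  · rw [hmap', Complex.norm_intCast] at he
    have h3 : Real.exp (k * ∑ x, (Real.log (Λ x) + Real.log γ / k)) =
        γ ^ Fintype.card ι * ∏ b, Λ b ^ k := by
      rw [sum_add_distrib, sum_const, card_univ, nsmul_eq_mul, mul_add]
      have h4 : (k : ℝ) * ((Fintype.card ι : ℝ) * (Real.log γ / k)) =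
          (Fintype.card ι : ℕ) * Real.log γ := by
        field_simp
      rw [h4, Real.exp_add, Real.exp_nat_mul, Real.exp_nat_mul, Real.exp_log hγ, Real.exp_sum,
        ← prod_pow, mul_comm]
      congr 1
      exact prod_congr rfl fun b _ => by rw [Real.exp_log (hΛ _)]
    rw [h3]
    refine he.trans ?_
    exact mul_le_mul_of_nonneg_right (le_max_right _ _) (abs_nonneg _)

/-- the cells -/
def Ycl (k : ℕ) (L : ℝ) (y : ι → ℤ) : Prop :=
  (∀ f : Fin k → ι, Function.Injective f → 0 ≤ ∑ l, (y (f l) : ℝ)) ∧ k * ∑ x, (y x : ℝ) ≤ L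

theorem Ycl_fin (hk : 0 < k) (hki : k < Fintype.card ι) {L : ℝ} (hL : 0 ≤ L) :
    ∀ y : ι → ℤ, Ycl k L y → ∀ x, |(y x : ℝ)| ≤ (k + Fintype.card ι) * L := by
  intro y hy x
  have h1 := coercive (k := k) (β := (id : ι → ι)) (d := fun _ => k) hk hki.le
    Function.surjective_id (fun _ => hk) (fun b => by
      rw [filt_card, one_mul, sum_const, card_univ, smul_eq_mul]
      exact Nat.mul_lt_mul_of_pos_right hki hk) (y := fun x => (y x : ℝ)) (A := 0) (L := L) le_rfl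
    (fun f hf => by
      rw [neg_zero]
      exact hy.1 f hf) (by
      rw [← mul_sum]
      exact hy.2) x
  rw [mul_zero, add_zero] at h1
  exact h1

/-- the sum over all cells -/
theorem cells_sum (hk : 0 < k) (hki : k < Fintype.card ι) :
    ∃ C : ℝ, 0 < C ∧ ∀ L : ℝ, 0 ≤ L → ∃ Z : Finset (ι → ℤ), (∀ y, y ∈ Z ↔ Ycl k L y) ∧
      ∑ y ∈ Z, Real.exp (k * ∑ x, (y x : ℝ)) ≤
        C * Real.exp L * (1 + L) ^ (Fintype.card ι - 1) := by
  obtain ⟨C, hC, h⟩ := GT.cells (k := k) (β := (id : ι → ι)) (d := fun _ => k) hk hki.le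
    Function.surjective_id (fun _ => hk) (fun b => by
      rw [filt_card, one_mul, sum_const, card_univ, smul_eq_mul]
      exact Nat.mul_lt_mul_of_pos_right hki hk) (a := 1) (A := 0) (A' := 0) one_pos le_rfl le_rfl
    (by
      have h0 : (fun b : ι => (1 : ℝ) * ((k : ℕ) : ℝ) - k *
          ((univ.filter fun i : ι => id i = b).card : ℝ)) = fun _ => 0 := by
        funext b
        rw [filt_card]
        simp
      rw [h0]
      intro b
      simp)
  refine ⟨C, hC, fun L hL => ?_⟩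
  obtain ⟨Z, hZ1, hZ2⟩ := h L hL
  refine ⟨Z, fun y => ?_, ?_⟩
  · rw [hZ1]
    unfold Ycl
    rw [← mul_sum, neg_zero, add_zero]
    rfl
  · rw [one_mul] at hZ2
    refine le_trans (le_of_eq ?_) hZ2
    refine sum_congr rfl fun y _ => ?_
    congr 2
    refine sum_congr rfl fun x _ => ?_
    rw [filt_card, Nat.cast_one, one_mul]

/-- the sum over the cells in a strip -/
theorem strip_sum (hk : 0 < k) {x₁ x₂ : ι} (hx : x₁ ≠ x₂) (q : (ι → ℤ) → ℤ)
    (hq : ∀ y y' : ι → ℤ, (∀ x, x ≠ x₁ → x ≠ x₂ → y x = y' x) → q y = q y') (N W : ℕ) (L : ℝ)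
    (Z : Finset (ι → ℤ)) (hZ1 : ∀ y ∈ Z, k * ∑ x, (y x : ℝ) ≤ L)
    (hZ2 : ∀ y ∈ Z, ∀ x, |y x| ≤ N) (hZ3 : ∀ y ∈ Z, |y x₁ - q y| ≤ W) :
    ∑ y ∈ Z, Real.exp (k * ∑ x, (y x : ℝ)) ≤
      (2 * N + 1) ^ (Fintype.card ι - 2) * (2 * W + 1) * Real.exp L *
        (1 - Real.exp (-1))⁻¹ := by
  classical
  have hk' : (0 : ℝ) < k := by exact_mod_cast hk
  have hk1 : (1 : ℝ) ≤ k := by exact_mod_cast hk
  set S : ℤ := ⌊L / k⌋ with hS
  have hSle : ∀ y ∈ Z, ∑ x, y x ≤ S := by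
    intro y hy
    rw [hS, Int.le_floor, le_div_iff₀ hk']
    have := hZ1 y hy
    push_cast
    linarith
  set z : (ι → ℤ) → ι → ℤ := fun y x => if x = x₁ ∨ x = x₂ then 0 else y x with hz
  set Φ : (ι → ℤ) → ((ι → ℤ) × ℤ) × ℕ := fun y => ((z y, y x₁ - q y), (S - ∑ x, y x).toNat) with hΦ
  have hoff : ∀ y y', z y = z y' → ∀ x, x ≠ x₁ → x ≠ x₂ → y x = y' x := by
    intro y y' h x h1 h2
    have := congrFun h x
    simp only [hz] at this
    rwa [if_neg (by tauto), if_neg (by tauto)] at this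
  have hinj : Set.InjOn Φ (Z : Set (ι → ℤ)) := by
    intro y hy y' hy' h
    simp only [hΦ, Prod.mk.injEq] at h
    obtain ⟨⟨h1, h2⟩, h3⟩ := h
    have h4 := hoff y y' h1
    have h5 := hq y y' h4
    have h6 : y x₁ = y' x₁ := by omega
    have h7 : ∑ x, y x = ∑ x, y' x := by
      have e1 := hSle y hy
      have e2 := hSle y' hy'
      omega
    have h8 : ∑ x ∈ univ.erase x₂, y x = ∑ x ∈ univ.erase x₂, y' x := by
      refine sum_congr rfl fun x hx => ?_
      by_cases hx1 : x = x₁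
      · rw [hx1, h6]
      · exact h4 x hx1 (ne_of_mem_erase hx)
    rw [← add_sum_erase univ y (mem_univ x₂), ← add_sum_erase univ y' (mem_univ x₂), h8] at h7
    funext x
    by_cases hx1 : x = x₁
    · rw [hx1, h6]
    · by_cases hx2 : x = x₂
      · rw [hx2]
        omega
      · exact h4 x hx1 hx2
  set T : ℕ := (Z.sup fun y => (S - ∑ x, y x).toNat) + 1 with hT
  set B : Finset (((ι → ℤ) × ℤ) × ℕ) := ((Fintype.piFinset fun x : ι =>
    if x = x₁ ∨ x = x₂ then ({0} : Finset ℤ) else Icc (-(N : ℤ)) N) ×ˢ Icc (-(W : ℤ)) W) ×ˢ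
      range T with hB
  have hmaps : ∀ y ∈ Z, Φ y ∈ B := by
    intro y hy
    rw [hB, mem_product, mem_product, Fintype.mem_piFinset, mem_range]
    refine ⟨⟨fun x => ?_, ?_⟩, ?_⟩
    · simp only [hΦ, hz]
      split_ifs
      · exact mem_singleton_self 0
      · rw [mem_Icc]
        exact abs_le.1 (hZ2 y hy x)
    · simp only [hΦ]
      rw [mem_Icc]
      exact abs_le.1 (hZ3 y hy)
    · simp only [hΦ]
      rw [hT, Nat.lt_succ_iff]
      exact le_sup (f := fun y => (S - ∑ x, y x).toNat) hy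
  set r : ℝ := Real.exp (-k) with hr
  have hr0 : 0 < r := Real.exp_pos _
  have hr1 : r ≤ Real.exp (-1) := Real.exp_le_exp.2 (by linarith)
  have hr2 : Real.exp (-1) < 1 := by
    rw [← Real.exp_zero]
    exact Real.exp_lt_exp.2 (by norm_num)
  have hval : ∀ y ∈ Z, Real.exp (k * ∑ x, (y x : ℝ)) = Real.exp (k * S) * r ^ (Φ y).2 := by
    intro y hy
    have h1 := hSle y hy
    have h2 : (((Φ y).2 : ℕ) : ℝ) = (S : ℝ) - ∑ x, (y x : ℝ) := by
      have h3 : (((Φ y).2 : ℕ) : ℤ) = S - ∑ x, y x := by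
        simp only [hΦ]
        exact Int.toNat_of_nonneg (by omega)
      have h4 : (((Φ y).2 : ℕ) : ℝ) = (((((Φ y).2 : ℕ) : ℤ)) : ℝ) := by push_cast; rfl
      rw [h4, h3]
      push_cast
      rfl
    rw [hr, ← Real.exp_nat_mul, ← Real.exp_add, h2]
    congr 1
    ring
  rw [sum_congr rfl hval]
  have h1 : ∑ y ∈ Z, Real.exp (k * S) * r ^ (Φ y).2 ≤ ∑ b ∈ B, Real.exp (k * S) * r ^ b.2 := by
    rw [← sum_image (s := Z) (g := Φ) (f := fun b => Real.exp (k * S) * r ^ b.2) hinj]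
    refine sum_le_sum_of_subset_of_nonneg ?_ fun b _ _ => by positivity
    intro b hb
    obtain ⟨y, hy, rfl⟩ := mem_image.1 hb
    exact hmaps y hy
  refine h1.trans ?_
  rw [← mul_sum, hB, sum_product]
  simp only [sum_const, nsmul_eq_mul]
  rw [card_product, Fintype.card_piFinset]
  have h2 : ∏ x : ι, (if x = x₁ ∨ x = x₂ then ({0} : Finset ℤ) else Icc (-(N : ℤ)) N).card =
      (2 * N + 1) ^ (Fintype.card ι - 2) := by
    have h3 : ∀ x : ι, (if x = x₁ ∨ x = x₂ then ({0} : Finset ℤ) else Icc (-(N : ℤ)) N).card =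
        if x ∈ (univ \ {x₁, x₂} : Finset ι) then (2 * N + 1) else 1 := by
      intro x
      have hm : x ∈ (univ \ {x₁, x₂} : Finset ι) ↔ ¬ (x = x₁ ∨ x = x₂) := by simp
      by_cases hx : x = x₁ ∨ x = x₂
      · rw [if_pos hx, if_neg (by tauto), card_singleton]
      · rw [if_neg hx, if_pos (hm.2 hx), Int.card_Icc]
        omega
    rw [prod_congr rfl fun x _ => h3 x, prod_ite_mem, univ_inter, prod_const,
      Finset.card_univ_sdiff, card_pair hx]
  rw [h2, Int.card_Icc]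
  have h3 : ((W : ℤ) + 1 - -(W : ℤ)).toNat = 2 * W + 1 := by omega
  rw [h3]
  have h4 : ∑ t ∈ range T, r ^ t ≤ (1 - Real.exp (-1))⁻¹ := by
    have h5 := geom_sum_eq (show r ≠ 1 by linarith) T
    have h6 : ∑ t ∈ range T, r ^ t = (1 - r ^ T) / (1 - r) := by
      rw [h5, ← neg_div_neg_eq]
      ring_nf
    rw [h6, div_eq_mul_inv]
    have h7 : (1 - r)⁻¹ ≤ (1 - Real.exp (-1))⁻¹ := inv_anti₀ (by linarith) (by linarith)
    have h8 : 0 ≤ r ^ T := by positivity
    have h9 : 0 < (1 - r)⁻¹ := inv_pos.2 (by linarith)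
    calc (1 - r ^ T) * (1 - r)⁻¹ ≤ 1 * (1 - r)⁻¹ := mul_le_mul_of_nonneg_right (by linarith) h9.le
      _ ≤ _ := by rw [one_mul]; exact h7
  have h5 : Real.exp (k * S) ≤ Real.exp L := by
    refine Real.exp_le_exp.2 ?_
    have h6 : (S : ℝ) ≤ L / k := Int.floor_le _
    rw [le_div_iff₀ hk'] at h6
    linarith
  have h6 : 0 ≤ ∑ t ∈ range T, r ^ t := sum_nonneg fun _ _ => by positivity
  have h7 : (0 : ℝ) ≤ (1 - Real.exp (-1))⁻¹ := inv_nonneg.2 (by linarith)
  push_cast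
  calc Real.exp (k * S) * ((2 * (N : ℝ) + 1) ^ (Fintype.card ι - 2) * (2 * W + 1) *
        ∑ t ∈ range T, r ^ t) = (2 * (N : ℝ) + 1) ^ (Fintype.card ι - 2) * (2 * W + 1) *
          (Real.exp (k * S) * ∑ t ∈ range T, r ^ t) := by ring
    _ ≤ (2 * (N : ℝ) + 1) ^ (Fintype.card ι - 2) * (2 * W + 1) *
          (Real.exp L * (1 - Real.exp (-1))⁻¹) := by
        gcongr
    _ = _ := by ring

end

end Run7.h3.PM
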