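import Pool.Agent.Run7.h3.PM.Box
import Pool.Agent.Run7.h3.PM.Jor

set_option autoImplicit false
set_option linter.unusedSectionVars false
set_option linter.unusedVariables false

/-! The number of the matrices in boxes, with congruence conditions. -/

namespace Run7.h3.PM

open Finset Module Filter Topology MeasureTheory

/-- integral matrices modulo `GL_k`: a lattice and the remaining columns -/
abbrev Pt (k m : ℕ) := SLg (Fin k → ℤ) × (Fin m → Fin k → ℤ)

/-- the indices of the coordinates -/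
abbrev Cx (k m : ℕ) := Option (Fin k × Fin m)

section

variable {k m : ℕ}

/-- the matrix with the given columns -/
def MM {R : Type} (V : Matrix (Fin k) (Fin k) R) (Z : Fin m → Fin k → R) :
    Matrix (Fin k) (Fin k ⊕ Fin m) R :=
  Matrix.of fun l x => Sum.elim (fun i => V l i) (fun j => Z j l) x

theorem MM_inl {R : Type} (V : Matrix (Fin k) (Fin k) R) (Z : Fin m → Fin k → R) (l i : Fin k) :
    MM V Z l (Sum.inl i) = V l i := rfl

theorem MM_inr {R : Type} (V : Matrix (Fin k) (Fin k) R) (Z : Fin m → Fin k → R) (l : Fin k)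
    (j : Fin m) : MM V Z l (Sum.inr j) = Z j l := rfl

theorem MM_map {R S : Type} (V : Matrix (Fin k) (Fin k) R) (Z : Fin m → Fin k → R) (φ : R → S) :
    (MM V Z).map φ = MM (V.map φ) (fun j l => φ (Z j l)) := by
  ext l x
  rcases x with i | j <;> rfl

theorem mul_MM {R : Type} [CommRing R] (g V : Matrix (Fin k) (Fin k) R) (Z : Fin m → Fin k → R) :
    g * MM V Z = MM (g * V) (fun j => g.mulVec (Z j)) := by
  ext l x
  rcases x with i | j
  · rfl
  · rfl

/-- the coordinates of a point -/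
noncomputable def co (P : Pt k m) : Cx k m → ℝ
  | none => (P.1.idx : ℝ) ^ (k + m)
  | some (i, j) => cf (VN P.1) (P.2 j) i

/-- the points with the coordinates in a set -/
def TS (σ : Cx k m → ℝ) (E : Set (Cx k m → ℝ))
    (A : Matrix (Fin k) (Fin k ⊕ Fin m) ℤ → Prop) : Set (Pt k m) :=
  {P | (fun ν => co P ν / σ ν) ∈ E ∧ A (MM (VN P.1) P.2)}

theorem idx_pow_le {N : SLg (Fin k → ℤ)} {n : ℕ} (hn : 0 < n) {y : ℝ} (h : (N.idx : ℝ) ^ n ≤ y) :
    (N.idx : ℝ) ≤ y := by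
  refine le_trans ?_ h
  exact le_self_pow₀ N.one_le hn.ne'

theorem finite_pow_le (k : ℕ) {n : ℕ} (hn : 0 < n) (y : ℝ) :
    {N : SLg (Fin k → ℤ) | (N.idx : ℝ) ^ n ≤ y}.Finite :=
  (finite_le k y).subset fun _ hN => idx_pow_le hn hN

theorem TS_fin (hk : 0 < k) {σ : Cx k m → ℝ} (hσ : ∀ ν, 0 < σ ν) {E : Set (Cx k m → ℝ)}
    (hE : Bornology.IsBounded E) (A : Matrix (Fin k) (Fin k ⊕ Fin m) ℤ → Prop) :
    (TS σ E A).Finite := by
  classical
  obtain ⟨R, hR⟩ := hE.exists_norm_le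
  set U := (finite_pow_le k (show 0 < k + m by omega) (R * σ none)).toFinset with hU
  refine Set.Finite.subset (Set.Finite.biUnion (Finset.finite_toSet U) fun N _ =>
    (BX_fin (VN_det_ne N) one_pos (0 : Fin m → Fin k → ℤ) (fun i j => -(R * σ (some (i, j))) - 1)
      fun i j => R * σ (some (i, j))).image (Prod.mk N)) ?_
  rintro ⟨N, Z⟩ ⟨h1, -⟩
  have h2 : ∀ ν, |co (N, Z) ν| ≤ R * σ ν := by
    intro ν
    have h3 := (norm_le_pi_norm _ ν).trans (hR _ h1)
    rw [Real.norm_eq_abs, abs_div, abs_of_pos (hσ ν), div_le_iff₀ (hσ ν)] at h3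
    exact h3
  rw [Set.mem_iUnion₂]
  refine ⟨N, ?_, Z, fun j => ⟨fun i => by simp, fun i => ?_⟩, rfl⟩
  · rw [hU, mem_coe, Set.Finite.mem_toFinset]
    exact (le_abs_self _).trans (h2 none)
  · have h3 := h2 (some (i, j))
    rw [abs_le] at h3
    constructor
    · have : co (N, Z) (some (i, j)) = cf (VN N) (Z j) i := rfl
      rw [this] at h3
      linarith [h3.1]
    · exact h3.2

/-- counting by fibres -/
theorem ncard_fib {S : Set (Pt k m)} (hS : S.Finite) (U : Finset (SLg (Fin k → ℤ)))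
    (hU : ∀ P ∈ S, P.1 ∈ U) : S.ncard = ∑ N ∈ U, {Z | (N, Z) ∈ S}.ncard := by
  classical
  rw [Set.ncard_eq_toFinset_card _ hS, card_eq_sum_card_fiberwise (f := Prod.fst) (t := U)]
  · refine sum_congr rfl fun N _ => ?_
    have h1 : {Z | (N, Z) ∈ S} = ((hS.toFinset.filter fun P => P.1 = N).image Prod.snd :
        Finset (Fin m → Fin k → ℤ)) := by
      ext Z
      simp only [coe_image, coe_filter, Set.Finite.mem_toFinset]
      constructor
      · intro hZ
        exact ⟨(N, Z), ⟨hZ, rfl⟩, rfl⟩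
      · rintro ⟨⟨N', Z'⟩, ⟨h1, h2⟩, h3⟩
        simp only at h2 h3
        subst h2 h3
        exact h1
    rw [h1, Set.ncard_coe_finset, card_image_of_injOn]
    rintro ⟨N', Z'⟩ h ⟨N'', Z''⟩ h' heq
    rw [mem_coe, mem_filter] at h h'
    simp only at heq h h'
    rw [heq, h.2, h'.2]
  · intro P hP
    rw [mem_coe, Set.Finite.mem_toFinset] at hP
    exact hU P hP

/-- the lift of a residue -/
def lft (Q : ℕ) (c : Fin m → Fin k → ZMod Q) : Fin m → Fin k → ℤ := fun j l => ((c j l).val : ℤ)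

theorem rcn_lft {Q : ℕ} (hQ : 0 < Q) (c : Fin m → Fin k → ZMod Q) (Z : Fin m → Fin k → ℤ) :
    (∀ j, rcn Q (lft Q c j) (Z j)) ↔ (fun j l => ((Z j l : ℤ) : ZMod Q)) = c := by
  have : NeZero Q := ⟨hQ.ne'⟩
  constructor
  · intro h
    funext j l
    have h1 := h j l
    rw [← ZMod.intCast_zmod_eq_zero_iff_dvd, Int.cast_sub, sub_eq_zero] at h1
    rw [h1]
    simp [lft]
  · rintro rfl j l
    rw [← ZMod.intCast_zmod_eq_zero_iff_dvd, Int.cast_sub, sub_eq_zero]
    simp [lft]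

/-- the number of the residues -/
noncomputable def Wr (Q : ℕ) (S : Set (Matrix (Fin k) (Fin k ⊕ Fin m) (ZMod Q)))
    (N : SLg (Fin k → ℤ)) : ℕ :=
  {c : Fin m → Fin k → ZMod Q | MM ((VN N).map (Int.cast : ℤ → ZMod Q)) c ∈ S}.ncard

theorem Wr_inv {Q : ℕ} (hQ : 0 < Q) {S : Set (Matrix (Fin k) (Fin k ⊕ Fin m) (ZMod Q))}
    (hS : ∀ g : Matrix (Fin k) (Fin k) (ZMod Q), IsUnit g.det → ∀ M ∈ S, g * M ∈ S)
    {N N' : SLg (Fin k → ℤ)} (h : N.1 ⊔ Qs k Q = N'.1 ⊔ Qs k Q) : Wr Q S N = Wr Q S N' := by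
  have : NeZero Q := ⟨hQ.ne'⟩
  have aux : ∀ N N' : SLg (Fin k → ℤ), N.1 ⊔ Qs k Q = N'.1 ⊔ Qs k Q → Wr Q S N ≤ Wr Q S N' := by
    intro N N' h
    obtain ⟨g, hg, hgV⟩ := exists_gl hQ N N' h
    unfold Wr
    refine Set.ncard_le_ncard_of_injOn (fun c j => g.mulVec (c j)) ?_ ?_ (Set.toFinite _)
    · intro c hc
      have h1 := hS g hg _ hc
      rw [mul_MM, ← hgV] at h1
      exact h1
    · intro c _ c' _ heq
      funext j
      have h1 := congrFun heq j
      simp only at h1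
      have h2 := congrArg (g⁻¹).mulVec h1
      rw [Matrix.mulVec_mulVec, Matrix.mulVec_mulVec, Matrix.nonsing_inv_mul _ hg,
        Matrix.one_mulVec, Matrix.one_mulVec] at h2
      exact h2
  exact le_antisymm (aux N N' h) (aux N' N h.symm)

/-- the fibre over a lattice -/
theorem fib_bounds {Q : ℕ} (hQ : 0 < Q) (S : Set (Matrix (Fin k) (Fin k ⊕ Fin m) (ZMod Q)))
    (N : SLg (Fin k → ℤ)) (a b : Fin k → Fin m → ℝ) :
    Wr Q S N * (N.idx ^ m * ∏ j, ∏ i, ⌊(b i j - a i j) / Q⌋₊) ≤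
      {Z : Fin m → Fin k → ℤ | (∀ j i, cf (VN N) (Z j) i ∈ Set.Ioc (a i j) (b i j)) ∧
        (MM (VN N) Z).map (Int.cast : ℤ → ZMod Q) ∈ S}.ncard ∧
    {Z : Fin m → Fin k → ℤ | (∀ j i, cf (VN N) (Z j) i ∈ Set.Ioc (a i j) (b i j)) ∧
        (MM (VN N) Z).map (Int.cast : ℤ → ZMod Q) ∈ S}.ncard ≤
      Wr Q S N * (N.idx ^ m * ∏ j, ∏ i, ⌈(b i j - a i j) / Q⌉₊) := by
  classical
  have : NeZero Q := ⟨hQ.ne'⟩
  have hV := VN_det_ne N
  set X := {Z : Fin m → Fin k → ℤ | (∀ j i, cf (VN N) (Z j) i ∈ Set.Ioc (a i j) (b i j)) ∧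
        (MM (VN N) Z).map (Int.cast : ℤ → ZMod Q) ∈ S} with hX
  set C := {c : Fin m → Fin k → ZMod Q | MM ((VN N).map (Int.cast : ℤ → ZMod Q)) c ∈ S} with hC
  have hCf : C.Finite := Set.toFinite _
  have hXeq : X = ⋃ c ∈ hCf.toFinset, BX (VN N) Q (lft Q c) a b := by
    ext Z
    rw [Set.mem_iUnion₂]
    constructor
    · rintro ⟨h1, h2⟩
      refine ⟨fun j l => ((Z j l : ℤ) : ZMod Q), ?_, fun j => ⟨?_, fun i => h1 j i⟩⟩
      · rw [Set.Finite.mem_toFinset, hC, Set.mem_ofPred_eq]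
        rw [MM_map] at h2
        exact h2
      · exact (rcn_lft hQ _ Z).2 rfl j
    · rintro ⟨c, hc, hZ⟩
      rw [Set.Finite.mem_toFinset] at hc
      refine ⟨fun j i => (hZ j).2 i, ?_⟩
      have h3 := (rcn_lft hQ c Z).1 fun j => (hZ j).1
      rw [MM_map, h3]
      exact hc
  have hfin : ∀ c, (BX (VN N) Q (lft Q c) a b).Finite := fun c => BX_fin hV hQ _ _ _
  have hcard : X.ncard = ∑ c ∈ hCf.toFinset, (BX (VN N) Q (lft Q c) a b).ncard := by
    have h1 : X = (hCf.toFinset.biUnion fun c => (hfin c).toFinset :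
        Finset (Fin m → Fin k → ℤ)) := by
      rw [hXeq]
      ext Z
      simp
    rw [h1, Set.ncard_coe_finset, card_biUnion]
    · exact sum_congr rfl fun c _ => (Set.ncard_eq_toFinset_card _ (hfin c)).symm
    · intro c _ c' _ hcc
      rw [Function.onFun, disjoint_left]
      intro Z h1 h2
      rw [Set.Finite.mem_toFinset] at h1 h2
      refine hcc ?_
      rw [← (rcn_lft hQ c Z).1 fun j => (h1 j).1, ← (rcn_lft hQ c' Z).1 fun j => (h2 j).1]
  have hW : Wr Q S N = hCf.toFinset.card := Set.ncard_eq_toFinset_card _ hCf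
  rw [hcard, hW, ← VN_det N]
  constructor
  · rw [← smul_eq_mul, ← sum_const]
    exact sum_le_sum fun c _ => BX_ge hV hQ _ _ _
  · rw [← smul_eq_mul, ← sum_const]
    exact sum_le_sum fun c _ => BX_le hV hQ _ _ _

/-- the weighted sums over the lattices -/
noncomputable def wsn (k n p : ℕ) (w : SLg (Fin k → ℤ) → ℝ) (y : ℝ) : ℝ :=
  ∑' N : SLg (Fin k → ℤ), if (N.idx : ℝ) ^ n ≤ y then w N * (N.idx : ℝ) ^ p else 0

theorem wsn_eq {n : ℕ} (hn : 0 < n) (p : ℕ) (w : SLg (Fin k → ℤ) → ℝ) {y : ℝ} (hy : 0 ≤ y) :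
    wsn k n p w y = wsum k w p (y ^ ((n : ℝ)⁻¹)) := by
  unfold wsn wsum
  refine tsum_congr fun N => ?_
  have h0 : (0 : ℝ) ≤ N.idx := by positivity
  have h1 : (N.idx : ℝ) ^ n ≤ y ↔ (N.idx : ℝ) ≤ y ^ ((n : ℝ)⁻¹) := by
    rw [Real.le_rpow_inv_iff_of_pos h0 hy (by exact_mod_cast hn), Real.rpow_natCast]
  simp only [h1]

theorem wsn_sum {n : ℕ} (hn : 0 < n) (p : ℕ) (w : SLg (Fin k → ℤ) → ℝ) (y : ℝ) :
    wsn k n p w y = ∑ N ∈ (finite_pow_le k hn y).toFinset, w N * (N.idx : ℝ) ^ p := by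
  classical
  unfold wsn
  rw [tsum_eq_sum (s := (finite_pow_le k hn y).toFinset)]
  · refine sum_congr rfl fun N hN => ?_
    rw [Set.Finite.mem_toFinset] at hN
    have hN' : (N.idx : ℝ) ^ n ≤ y := hN
    rw [if_pos hN']
  · intro N hN
    rw [Set.Finite.mem_toFinset] at hN
    have hN' : ¬ (N.idx : ℝ) ^ n ≤ y := hN
    rw [if_neg hN']

theorem wsn_zero {n : ℕ} (hn : 0 < n) (p : ℕ) (w : SLg (Fin k → ℤ) → ℝ) : wsn k n p w 0 = 0 := by
  unfold wsn
  rw [tsum_congr (g := fun _ => (0 : ℝ)) (fun N => ?_), tsum_zero]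
  rw [if_neg]
  rw [not_le]
  have : (0 : ℝ) < N.idx := by exact_mod_cast N.idx_pos
  positivity

theorem wsn_res (hk : 0 < k) (m : ℕ) {Q : ℕ} (hQ : 0 < Q) (g : AddSubgroup (Fin k → ℤ) → ℝ) :
    ∃ κ : ℝ, Tendsto (fun y : ℝ =>
      wsn k (k + m) m (fun N => g (N.1 ⊔ Qs k Q)) y / y) atTop (𝓝 κ) := by
  obtain ⟨k', rfl⟩ : ∃ k', k = k' + 1 := ⟨k - 1, by omega⟩
  obtain ⟨κ, hκ⟩ := res_tendsto k' m hQ g
  refine ⟨κ, ?_⟩
  have hn : 0 < k' + 1 + m := by omega
  have hn' : (0 : ℝ) < ((k' + 1 + m : ℕ) : ℝ) := by exact_mod_cast hn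
  have h1 := hκ.comp (tendsto_rpow_atTop (inv_pos.2 hn'))
  refine h1.congr' ?_
  filter_upwards [eventually_ge_atTop 0] with y hy
  rw [wsn_eq hn m _ hy]
  simp only [Function.comp]
  congr 1
  rw [show k' + m + 1 = k' + 1 + m by ring]
  rw [Real.rpow_inv_natCast_pow hy hn.ne']

/-- the asymptotics of the number of the points in boxes -/
theorem box_tendsto (hk : 0 < k) {Q : ℕ} (hQ : 0 < Q)
    {S : Set (Matrix (Fin k) (Fin k ⊕ Fin m) (ZMod Q))}
    (hS : ∀ g : Matrix (Fin k) (Fin k) (ZMod Q), IsUnit g.det → ∀ M ∈ S, g * M ∈ S) :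
    ∃ κ : ℝ, 0 ≤ κ ∧
      Tendsto (fun y : ℝ => wsn k (k + m) m (fun N => (Wr Q S N : ℝ)) y / y) atTop
        (𝓝 (κ * (Q : ℝ) ^ (k * m))) ∧
      ∀ (F : Filter (Cx k m → ℝ)), (∀ ν, Tendsto (fun σ => σ ν) F atTop) →
      ∀ a b : Cx k m → ℝ, 0 ≤ a none → (∀ ν, a ν ≤ b ν) →
      Tendsto (fun σ => ((TS σ (Ib a b) fun M => M.map (Int.cast : ℤ → ZMod Q) ∈ S).ncard : ℝ) /
        ∏ ν, σ ν) F (𝓝 (κ * (volume (Ib a b)).toReal)) := by
  classical
  have hQ' : (0 : ℝ) < Q := by exact_mod_cast hQ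
  -- the weight
  obtain ⟨g, hg⟩ : ∃ g : AddSubgroup (Fin k → ℤ) → ℝ, ∀ N : SLg (Fin k → ℤ),
      (Wr Q S N : ℝ) = g (N.1 ⊔ Qs k Q) := by
    refine ⟨fun H => if h : ∃ N : SLg (Fin k → ℤ), N.1 ⊔ Qs k Q = H then
      (Wr Q S h.choose : ℝ) else 0, fun N => ?_⟩
    have h : ∃ N' : SLg (Fin k → ℤ), N'.1 ⊔ Qs k Q = N.1 ⊔ Qs k Q := ⟨N, rfl⟩
    simp only
    rw [dif_pos h, Wr_inv hQ hS h.choose_spec]
  obtain ⟨κ', hκ'⟩ := wsn_res hk m hQ g
  have hn : 0 < k + m := by omega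
  have hw0 : ∀ y, 0 ≤ wsn k (k + m) m (fun N => (Wr Q S N : ℝ)) y := by
    intro y
    rw [wsn_sum hn]
    exact sum_nonneg fun _ _ => by positivity
  simp_rw [← hg] at hκ'
  have hκ0 : 0 ≤ κ' := by
    refine ge_of_tendsto hκ' ?_
    filter_upwards [eventually_gt_atTop 0] with y hy
    exact div_nonneg (hw0 y) hy.le
  have hQk : (0 : ℝ) < (Q : ℝ) ^ (k * m) := by positivity
  refine ⟨κ' / (Q : ℝ) ^ (k * m), by positivity, ?_, fun F hF a b ha hab => ?_⟩
  · rw [div_mul_cancel₀ _ hQk.ne']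
    exact hκ'
  have hlin : ∀ c : ℝ, 0 ≤ c → Tendsto (fun σ : Cx k m → ℝ =>
      wsn k (k + m) m (fun N => (Wr Q S N : ℝ)) (c * σ none) / σ none) F (𝓝 (κ' * c)) := by
    intro c hc
    rcases hc.eq_or_lt with rfl | hc
    · simp only [zero_mul, wsn_zero hn, zero_div, mul_zero]
      exact tendsto_const_nhds
    · have h1 := (hκ'.comp (Tendsto.const_mul_atTop hc (hF none))).mul_const c
      refine h1.congr fun σ => ?_
      simp only [Function.comp]
      field_simp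
  set w1 := fun σ : Cx k m → ℝ => wsn k (k + m) m (fun N => (Wr Q S N : ℝ)) (b none * σ none) -
    wsn k (k + m) m (fun N => (Wr Q S N : ℝ)) (a none * σ none) with hw1
  have hw1t : Tendsto (fun σ => w1 σ / σ none) F (𝓝 (κ' * (b none - a none))) := by
    have h1 := (hlin (b none) (ha.trans (hab none))).sub (hlin (a none) ha)
    rw [← mul_sub] at h1
    refine h1.congr fun σ => ?_
    rw [hw1, sub_div]
  have hfl : ∀ i j, Tendsto (fun σ : Cx k m → ℝ =>
      (⌊(b (some (i, j)) * σ (some (i, j)) - a (some (i, j)) * σ (some (i, j))) / Q⌋₊ : ℝ) /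
        σ (some (i, j))) F (𝓝 ((b (some (i, j)) - a (some (i, j))) / Q)) := by
    intro i j
    have h1 := (tendsto_nat_floor_mul_div_atTop (R := ℝ) (a := (b (some (i, j)) - a (some (i, j))) / Q)
      (div_nonneg (by linarith [hab (some (i, j))]) hQ'.le)).comp (hF (some (i, j)))
    refine h1.congr fun σ => ?_
    simp only [Function.comp]
    congr 3
    ring
  have hcl : ∀ i j, Tendsto (fun σ : Cx k m → ℝ =>
      (⌈(b (some (i, j)) * σ (some (i, j)) - a (some (i, j)) * σ (some (i, j))) / Q⌉₊ : ℝ) /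
        σ (some (i, j))) F (𝓝 ((b (some (i, j)) - a (some (i, j))) / Q)) := by
    intro i j
    have h1 := (tendsto_nat_ceil_mul_div_atTop (R := ℝ) (a := (b (some (i, j)) - a (some (i, j))) / Q)
      (div_nonneg (by linarith [hab (some (i, j))]) hQ'.le)).comp (hF (some (i, j)))
    refine h1.congr fun σ => ?_
    simp only [Function.comp]
    congr 3
    ring
  -- the sandwich
  have hsand : ∀ σ : Cx k m → ℝ, (∀ ν, 0 < σ ν) →
      w1 σ * (∏ j, ∏ i, (⌊(b (some (i, j)) * σ (some (i, j)) -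
        a (some (i, j)) * σ (some (i, j))) / Q⌋₊ : ℝ)) ≤
        ((TS σ (Ib a b) fun M => M.map (Int.cast : ℤ → ZMod Q) ∈ S).ncard : ℝ) ∧
      ((TS σ (Ib a b) fun M => M.map (Int.cast : ℤ → ZMod Q) ∈ S).ncard : ℝ) ≤
      w1 σ * (∏ j, ∏ i, (⌈(b (some (i, j)) * σ (some (i, j)) -
        a (some (i, j)) * σ (some (i, j))) / Q⌉₊ : ℝ)) := by
    intro σ hσ
    set U : Finset (SLg (Fin k → ℤ)) := (finite_pow_le k hn (b none * σ none)).toFinset.filter
      fun N => ¬ (N.idx : ℝ) ^ (k + m) ≤ a none * σ none with hU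
    have hUm : ∀ N, N ∈ U ↔ (N.idx : ℝ) ^ (k + m) / σ none ∈ Set.Ioc (a none) (b none) := by
      intro N
      rw [hU, mem_filter, Set.Finite.mem_toFinset, Set.mem_ofPred_eq, Set.mem_Ioc,
        lt_div_iff₀ (hσ none), div_le_iff₀ (hσ none), not_le]
      exact and_comm
    have hw : w1 σ = ∑ N ∈ U, (Wr Q S N : ℝ) * (N.idx : ℝ) ^ m := by
      simp only [hw1]
      rw [wsn_sum hn, wsn_sum hn, sub_eq_iff_eq_add]
      have h2 : (finite_pow_le k hn (a none * σ none)).toFinset =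
          (finite_pow_le k hn (b none * σ none)).toFinset.filter
            fun N => (N.idx : ℝ) ^ (k + m) ≤ a none * σ none := by
        ext N
        rw [mem_filter, Set.Finite.mem_toFinset, Set.Finite.mem_toFinset, Set.mem_ofPred_eq,
          Set.mem_ofPred_eq]
        constructor
        · intro h
          exact ⟨h.trans (mul_le_mul_of_nonneg_right (hab none) (hσ none).le), h⟩
        · exact fun h => h.2
      rw [h2]
      exact (sum_filter_add_sum_filter_not _ _ _).symm.trans (add_comm _ _)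
    have hT : ((TS σ (Ib a b) fun M => M.map (Int.cast : ℤ → ZMod Q) ∈ S).ncard : ℝ) =
        ∑ N ∈ U, ({Z : Fin m → Fin k → ℤ | (∀ j i, cf (VN N) (Z j) i ∈
          Set.Ioc (a (some (i, j)) * σ (some (i, j))) (b (some (i, j)) * σ (some (i, j)))) ∧
          (MM (VN N) Z).map (Int.cast : ℤ → ZMod Q) ∈ S}.ncard : ℝ) := by
      have hbd : Bornology.IsBounded (Ib a b) := by
        refine (Metric.isBounded_Icc a b).subset ?_
        intro x hx
        exact ⟨fun i => (hx i).1.le, fun i => (hx i).2⟩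
      rw [ncard_fib (TS_fin hk hσ hbd _) U (fun P hP => (hUm _).2 (hP.1 none))]
      push_cast
      refine sum_congr rfl fun N hN => ?_
      congr 2
      ext Z
      constructor
      · rintro ⟨h1, h2⟩
        refine ⟨fun j i => ?_, h2⟩
        have h3 := h1 (some (i, j))
        rw [Set.mem_Ioc, lt_div_iff₀ (hσ _), div_le_iff₀ (hσ _)] at h3
        exact h3
      · rintro ⟨h1, h2⟩
        refine ⟨fun ν => ?_, h2⟩
        rcases ν with _ | ⟨i, j⟩
        · exact (hUm N).1 hN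
        · have h3 := h1 j i
          rw [Set.mem_Ioc, lt_div_iff₀ (hσ _), div_le_iff₀ (hσ _)]
          exact h3
    rw [hT, hw, sum_mul, sum_mul]
    constructor
    · refine sum_le_sum fun N _ => ?_
      have h1 := (fib_bounds hQ S N (fun i j => a (some (i, j)) * σ (some (i, j)))
        fun i j => b (some (i, j)) * σ (some (i, j))).1
      rw [mul_assoc]
      exact_mod_cast h1
    · refine sum_le_sum fun N _ => ?_
      have h1 := (fib_bounds hQ S N (fun i j => a (some (i, j)) * σ (some (i, j)))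
        fun i j => b (some (i, j)) * σ (some (i, j))).2
      rw [mul_assoc]
      exact_mod_cast h1
  -- the limits
  have hlim : κ' / (Q : ℝ) ^ (k * m) * (volume (Ib a b)).toReal = κ' * (b none - a none) *
      ∏ j : Fin m, ∏ i : Fin k, ((b (some (i, j)) - a (some (i, j))) / Q) := by
    rw [Ib_vol hab, Fintype.prod_option, Fintype.prod_prod_type, Finset.prod_comm]
    simp_rw [prod_div_distrib, prod_const, card_univ, Fintype.card_fin]
    rw [← pow_mul]
    field_simp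
  have hprod : ∀ σ : Cx k m → ℝ, ∏ ν, σ ν = σ none * ∏ j : Fin m, ∏ i : Fin k, σ (some (i, j)) := by
    intro σ
    rw [Fintype.prod_option, Fintype.prod_prod_type, Finset.prod_comm]
  have hposE : ∀ᶠ σ in F, ∀ ν, 0 < σ ν := by
    rw [eventually_all]
    exact fun ν => (hF ν).eventually_gt_atTop 0
  rw [hlim]
  have hL : Tendsto (fun σ : Cx k m → ℝ => w1 σ / σ none * ∏ j : Fin m, ∏ i : Fin k,
      ((⌊(b (some (i, j)) * σ (some (i, j)) - a (some (i, j)) * σ (some (i, j))) / Q⌋₊ : ℝ) /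
        σ (some (i, j)))) F (𝓝 (κ' * (b none - a none) *
      ∏ j : Fin m, ∏ i : Fin k, ((b (some (i, j)) - a (some (i, j))) / Q))) :=
    hw1t.mul (tendsto_finsetProd _ fun j _ => tendsto_finsetProd _ fun i _ => hfl i j)
  have hH : Tendsto (fun σ : Cx k m → ℝ => w1 σ / σ none * ∏ j : Fin m, ∏ i : Fin k,
      ((⌈(b (some (i, j)) * σ (some (i, j)) - a (some (i, j)) * σ (some (i, j))) / Q⌉₊ : ℝ) /
        σ (some (i, j)))) F (𝓝 (κ' * (b none - a none) *
      ∏ j : Fin m, ∏ i : Fin k, ((b (some (i, j)) - a (some (i, j))) / Q))) :=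
    hw1t.mul (tendsto_finsetProd _ fun j _ => tendsto_finsetProd _ fun i _ => hcl i j)
  refine tendsto_of_tendsto_of_tendsto_of_le_of_le' hL hH ?_ ?_
  · filter_upwards [hposE] with σ hσ
    rw [hprod]
    simp_rw [prod_div_distrib]
    rw [div_mul_div_comm]
    exact div_le_div_of_nonneg_right (hsand σ hσ).1
      (mul_nonneg (hσ none).le (prod_nonneg fun j _ => prod_nonneg fun i _ => (hσ _).le))
  · filter_upwards [hposE] with σ hσ
    rw [hprod]
    simp_rw [prod_div_distrib]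
    rw [div_mul_div_comm]
    exact div_le_div_of_nonneg_right (hsand σ hσ).2
      (mul_nonneg (hσ none).le (prod_nonneg fun j _ => prod_nonneg fun i _ => (hσ _).le))

end

end Run7.h3.PM
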